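import Pool.Agent.H946_NS.Rad
import Pool.Agent.W135.MD.FarA
import Pool.Agent.W162.MD.CUT

/-!
The local Biot-Savart formula: a field without divergence minus its radial average is estimated by
the vorticity.
-/

set_option autoImplicit false

open MeasureTheory Set Metric Filter Topology
open scoped ContDiff

namespace Pool.Agent.H946.NS

open H459R3.NS W221.NS Pool.Agent.W583.MD

/-- The vorticity matrix. -/
noncomputable def om (v : V → V) (i j : Fin 3) (x : V) : ℝ :=
  pd i (fun y => v y j) x - pd j (fun y => v y i) x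

/-- The sum of the squares of the entries of the vorticity matrix. -/
noncomputable def osq (v : V → V) (x : V) : ℝ := ∑ i, ∑ j, om v i j x ^ 2

theorem sm_comp {v : V → V} (hv : ContDiff ℝ ∞ v) (j : Fin 3) : ContDiff ℝ ∞ (fun y => v y j) :=
  contDiff_pi.1 hv j

theorem om_smooth {v : V → V} (hv : ContDiff ℝ ∞ v) (i j : Fin 3) : ContDiff ℝ ∞ (om v i j) :=
  (sm_pd (sm_comp hv j) i).sub (sm_pd (sm_comp hv i) j)

theorem osq_smooth {v : V → V} (hv : ContDiff ℝ ∞ v) : ContDiff ℝ ∞ (osq v) :=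
  ContDiff.sum fun i _ => ContDiff.sum fun j _ => (om_smooth hv i j).pow 2

theorem osq_nonneg (v : V → V) (x : V) : 0 ≤ osq v x :=
  Finset.sum_nonneg fun _ _ => Finset.sum_nonneg fun _ _ => sq_nonneg _

theorem om_sq_le (v : V → V) (i j : Fin 3) (x : V) : om v i j x ^ 2 ≤ osq v x :=
  (Finset.single_le_sum (f := fun j => om v i j x ^ 2) (fun _ _ => sq_nonneg _)
    (Finset.mem_univ j)).trans
    (Finset.single_le_sum (f := fun i => ∑ j, om v i j x ^ 2)
      (fun _ _ => Finset.sum_nonneg fun _ _ => sq_nonneg _) (Finset.mem_univ i))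

theorem int_ball {f : V → ℝ} (hf : Continuous f) (a : V) (ρ : ℝ) : IntegrableOn f (ball a ρ) :=
  (hf.continuousOn.integrableOn_compact (isCompact_closedBall a ρ)).mono_set ball_subset_closedBall

/-- Monotonicity of integrals of nonnegative functions over balls. -/
theorem ball_mono {f : V → ℝ} (hf : Continuous f) (h0 : ∀ x, 0 ≤ f x) {a b : V} {r s : ℝ}
    (h : ball a r ⊆ ball b s) : ∫ x in ball a r, f x ≤ ∫ x in ball b s, f x :=
  setIntegral_mono_set (int_ball hf b s) (Eventually.of_forall h0) h.eventuallyLE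

theorem pd_dv_zero {v : V → V} (hv : ContDiff ℝ ∞ v) {S : Set V} (hS : IsOpen S)
    (hd : ∀ y ∈ S, dv v y = 0) {y : V} (hy : y ∈ S) (j : Fin 3) :
    ∑ i, pd i (pd j (fun w => v w i)) y = 0 := by
  have h1 : ∀ i, pd i (pd j (fun w => v w i)) y = pd j (pd i (fun w => v w i)) y := fun i =>
    Pool.Agent.W135.MD.pd_comm' (sm_comp hv i) i j y
  simp_rw [h1]
  rw [← Pool.Agent.W135.MD.pd_sum' (fun i _ =>
    Pool.Agent.W135.MD.sm_diff (sm_pd (sm_comp hv i) i)) j y]
  have hev : (fun y => ∑ i, pd i (fun w => v w i) y) =ᶠ[𝓝 y] fun _ => 0 := by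
    filter_upwards [hS.mem_nhds hy] with w hw
    exact hd w hw
  unfold pd
  unfold pd at hev
  rw [hev.fderiv_eq]
  simp

theorem mem_scal {x z : V} {ρ R : ℝ} (hR : 0 < R) (hρ0 : 0 ≤ ρ) (hρ : ρ ≤ R)
    (hz : z ∈ ball (0 : V) 1) : x + ρ • z ∈ ball x R := by
  rw [mem_ball_iff_norm, add_sub_cancel_left, norm_smul, Real.norm_of_nonneg hρ0]
  rw [mem_ball_zero_iff] at hz
  rcases hρ0.eq_or_lt with h | h
  · rw [← h, zero_mul]
    exact hR
  · nlinarith

/-- The part of the derivative which is not given by the vorticity vanishes. -/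
theorem div_part {v : V → V} (hv : ContDiff ℝ ∞ v) {x : V} {R ρ : ℝ} (hR : 0 < R) (hρ0 : 0 ≤ ρ)
    (hρ : ρ ≤ R) (hd : ∀ y ∈ ball x R, dv v y = 0) (j : Fin 3) :
    ∑ i, kv (fun z => z i * et z) ρ (pd j (fun y => v y i)) x = 0 := by
  have e1 : ∀ i, (fun z : V => z i * et z) = pd i eE := fun i => funext fun z => (pd_eE i z).symm
  have e2 : ∀ i, kv (fun z => z i * et z) ρ (pd j (fun y => v y i)) x
      = -(ρ * kv eE ρ (pd i (pd j (fun y => v y i))) x) := by
    intro i
    rw [e1 i]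
    exact kv_ibp ker_eE (sm_pd (sm_comp hv i) j) ρ i x
  simp_rw [e2]
  rw [Finset.sum_neg_distrib, ← Finset.mul_sum]
  have e3 : ∑ i, kv eE ρ (pd i (pd j (fun y => v y i))) x = 0 := by
    unfold kv
    rw [← integral_finsetSum _ fun i _ =>
      kv_cont_int ker_eE (sm_pd (sm_pd (sm_comp hv i) j) i).continuous ρ x]
    rw [integral_eq_zero_of_ae]
    refine Eventually.of_forall fun z => ?_
    change ∑ i, eE z * pd i (pd j (fun y => v y i)) (x + ρ • z) = 0
    rw [← Finset.mul_sum]
    by_cases hz : z ∈ ball (0 : V) 1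
    · rw [pd_dv_zero hv isOpen_ball hd (mem_scal hR hρ0 hρ hz) j, mul_zero]
    · rw [eE_zero hz, zero_mul]
  rw [e3, mul_zero, neg_zero]

theorem kv_sub {k : V → ℝ} (hk : Ker k) {f g : V → ℝ} (hf : Continuous f) (hg : Continuous g)
    (ρ : ℝ) (x : V) : kv k ρ (fun y => f y - g y) x = kv k ρ f x - kv k ρ g x := by
  unfold kv
  rw [← integral_sub (kv_cont_int hk hf ρ x) (kv_cont_int hk hg ρ x)]
  congr 1
  funext z
  ring

/-- The derivative of the radial average in the scale. -/
theorem ra_scale {v : V → V} (hv : ContDiff ℝ ∞ v) {x : V} {R ρ : ℝ} (hR : 0 < R) (hρ0 : 0 ≤ ρ)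
    (hρ : ρ ≤ R) (hd : ∀ y ∈ ball x R, dv v y = 0) (j : Fin 3) :
    HasDerivAt (fun ρ => kv et ρ (fun y => v y j) x)
      (∑ i, kv (fun z => z i * et z) ρ (om v i j) x) ρ := by
  refine (kv_scale ker_et (sm_comp hv j) ρ x).congr_deriv ?_
  have h1 := div_part hv hR hρ0 hρ hd j
  have h2 : ∀ i, kv (fun z => z i * et z) ρ (om v i j) x
      = kv (fun z => z i * et z) ρ (pd i (fun y => v y j)) x
        - kv (fun z => z i * et z) ρ (pd j (fun y => v y i)) x := fun i =>
    kv_sub (ker_et.coord i) (sm_pd (sm_comp hv j) i).continuous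
      (sm_pd (sm_comp hv i) j).continuous ρ x
  simp_rw [h2]
  rw [Finset.sum_sub_distrib, h1, sub_zero]

/-- A bound for the square of the integral against a kernel. -/
theorem kv_sq {k : V → ℝ} (hk : Ker k) {f : V → ℝ} (hf : Continuous f) (ρ : ℝ) (x : V) :
    kv k ρ f x ^ 2 ≤ (∫ z in ball (0 : V) 1, k z ^ 2) * ∫ z in ball (0 : V) 1, f (x + ρ • z) ^ 2 := by
  have e : kv k ρ f x = ∫ z in ball (0 : V) 1, k z * f (x + ρ • z) := by
    unfold kv
    rw [setIntegral_eq_integral_of_forall_compl_eq_zero]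
    intro z hz
    rw [hk.zero z hz, zero_mul]
  have h := W162.MD.cs_ball hk.sm.continuous
    (g := fun z => f (x + ρ • z)) (hf.comp (by fun_prop)) 0 1
  rw [← e] at h
  have h1 : 0 ≤ ∫ z in ball (0 : V) 1, k z ^ 2 := integral_nonneg fun z => sq_nonneg _
  have h2 : 0 ≤ ∫ z in ball (0 : V) 1, f (x + ρ • z) ^ 2 := integral_nonneg fun z => sq_nonneg _
  calc kv k ρ f x ^ 2 = |kv k ρ f x| ^ 2 := (sq_abs _).symm
    _ ≤ (√(∫ z in ball (0 : V) 1, k z ^ 2) * √(∫ z in ball (0 : V) 1, f (x + ρ • z) ^ 2)) ^ 2 := by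
        gcongr
    _ = _ := by rw [mul_pow, Real.sq_sqrt h1, Real.sq_sqrt h2]

theorem vol_ball_fin (a : V) (r : ℝ) : volume (ball a r) ≠ ⊤ := measure_ball_lt_top.ne

/-- Continuous functions are integrable on products of bounded sets. -/
theorem int_prod {G : V → V → ℝ} (hG : Continuous (fun q : V × V => G q.1 q.2)) (a b : V)
    (r s : ℝ) : Integrable (Function.uncurry G)
      (((volume : Measure V).restrict (ball a r)).prod ((volume : Measure V).restrict (ball b s))) := by
  rw [Measure.prod_restrict]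
  have h : IntegrableOn (Function.uncurry G) (closedBall a r ×ˢ closedBall b s)
      ((volume : Measure V).prod volume) :=
    hG.continuousOn.integrableOn_compact ((isCompact_closedBall a r).prod (isCompact_closedBall b s))
  exact h.mono_set (prod_mono ball_subset_closedBall ball_subset_closedBall)

theorem int_prod' {G : V → ℝ → ℝ} (hG : Continuous (fun q : V × ℝ => G q.1 q.2)) (a : V)
    (r s t : ℝ) : Integrable (Function.uncurry G)
      (((volume : Measure V).restrict (ball a r)).prod ((volume : Measure ℝ).restrict (Ioc s t))) := by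
  rw [Measure.prod_restrict]
  have h : IntegrableOn (Function.uncurry G) (closedBall a r ×ˢ Icc s t)
      ((volume : Measure V).prod volume) :=
    hG.continuousOn.integrableOn_compact ((isCompact_closedBall a r).prod isCompact_Icc)
  exact h.mono_set (prod_mono ball_subset_closedBall Ioc_subset_Icc_self)

theorem ball_shift {F : V → ℝ} (hF : Continuous F) (h0 : ∀ x, 0 ≤ F x) (a w : V) {r s : ℝ}
    (h : r + ‖w‖ ≤ s) : ∫ x in ball a r, F (x + w) ≤ ∫ x in ball a s, F x := by
  have e : ∫ x in ball a r, F (x + w) = ∫ x in ball (a + w) r, F x := by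
    rw [← integral_indicator measurableSet_ball, ← integral_indicator measurableSet_ball,
      ← integral_add_right_eq_self (μ := (volume : Measure V)) ((ball (a + w) r).indicator F) w]
    congr 1
    ext x
    by_cases hx : x ∈ ball a r
    · have hx' : x + w ∈ ball (a + w) r := by
        rw [mem_ball_iff_norm] at hx ⊢
        simpa using hx
      rw [indicator_of_mem hx, indicator_of_mem hx']
    · have hx' : x + w ∉ ball (a + w) r := by
        rw [mem_ball_iff_norm] at hx ⊢
        simpa using hx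
      rw [indicator_of_notMem hx, indicator_of_notMem hx']
  rw [e]
  refine ball_mono hF h0 (ball_subset_ball' ?_)
  rw [dist_eq_norm, add_sub_cancel_left]
  exact h

/-- The `L²` norm of the integral against a kernel. -/
theorem kv_L2 {k : V → ℝ} (hk : Ker k) {f : V → ℝ} (hf : Continuous f) (a : V) {ρ r : ℝ}
    (hρ : 0 ≤ ρ) : ∫ x in ball a r, kv k ρ f x ^ 2
      ≤ 8 * (∫ z in ball (0 : V) 1, k z ^ 2) * ∫ x in ball a (r + ρ), f x ^ 2 := by
  set K := ∫ z in ball (0 : V) 1, k z ^ 2 with hK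
  have hK0 : 0 ≤ K := integral_nonneg fun z => sq_nonneg _
  have hG : Continuous (fun q : V × V => f (q.1 + ρ • q.2) ^ 2) :=
    (hf.comp (by fun_prop)).pow 2
  have hi := int_prod (G := fun x z => f (x + ρ • z) ^ 2) hG a 0 r 1
  have h1 : ∫ x in ball a r, kv k ρ f x ^ 2
      ≤ ∫ x in ball a r, K * ∫ z in ball (0 : V) 1, f (x + ρ • z) ^ 2 := by
    refine integral_mono_of_nonneg (Eventually.of_forall fun x => sq_nonneg _)
      (hi.integral_prod_left.const_mul K) (Eventually.of_forall fun x => kv_sq hk hf ρ x)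
  refine h1.trans ?_
  rw [integral_const_mul, integral_integral_swap hi]
  have h2 : ∫ z in ball (0 : V) 1, ∫ x in ball a r, f (x + ρ • z) ^ 2
      ≤ ∫ z in ball (0 : V) 1, ∫ x in ball a (r + ρ), f x ^ 2 := by
    refine setIntegral_mono_on ?_ ?_ measurableSet_ball fun z hz => ?_
    · exact hi.integral_prod_right
    · exact integrableOn_const (vol_ball_fin _ _)
    · refine ball_shift (F := fun x => f x ^ 2) (hf.pow 2) (fun x => sq_nonneg _) a (ρ • z) ?_
      rw [norm_smul, Real.norm_of_nonneg hρ]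
      rw [mem_ball_zero_iff] at hz
      nlinarith
  have h3 : ∫ z in ball (0 : V) 1, (∫ x in ball a (r + ρ), f x ^ 2)
      = 8 * ∫ x in ball a (r + ρ), f x ^ 2 := by
    rw [setIntegral_const, smul_eq_mul, Measure.real, Real.volume_pi_ball _ one_pos]
    norm_num
  rw [h3] at h2
  calc K * _ ≤ K * (8 * ∫ x in ball a (r + ρ), f x ^ 2) := mul_le_mul_of_nonneg_left h2 hK0
    _ = _ := by ring

/-- The field minus its radial average at the unit scale. -/
noncomputable def bb (v : V → V) (x : V) : V := fun j => v x j - kv et 1 (fun y => v y j) x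

theorem kv_et_zero (f : V → ℝ) (x : V) : kv et 0 f x = f x := by
  unfold kv
  simp only [zero_smul, add_zero]
  rw [integral_mul_const, et_int, one_mul]

theorem sq_int_le {g : ℝ → ℝ} (hg : Continuous g) :
    (∫ ρ in Ioc (0 : ℝ) 1, g ρ) ^ 2 ≤ ∫ ρ in Ioc (0 : ℝ) 1, g ρ ^ 2 := by
  set m := ∫ ρ in Ioc (0 : ℝ) 1, g ρ with hm
  have i1 : IntegrableOn (fun ρ => g ρ ^ 2) (Ioc 0 1) :=
    ((hg.pow 2).continuousOn.integrableOn_compact isCompact_Icc).mono_set Ioc_subset_Icc_self
  have i2 : IntegrableOn g (Ioc 0 1) :=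
    (hg.continuousOn.integrableOn_compact isCompact_Icc).mono_set Ioc_subset_Icc_self
  have h0 : 0 ≤ ∫ ρ in Ioc (0 : ℝ) 1, (g ρ - m) ^ 2 := integral_nonneg fun _ => sq_nonneg _
  have e : ∀ ρ, (g ρ - m) ^ 2 = (g ρ ^ 2 - 2 * m * g ρ) + m ^ 2 := fun ρ => by ring
  simp_rw [e] at h0
  have i3 : IntegrableOn (fun ρ => 2 * m * g ρ) (Ioc 0 1) := i2.const_mul _
  have i4 : IntegrableOn (fun ρ => g ρ ^ 2 - 2 * m * g ρ) (Ioc 0 1) := i1.sub i3
  have e1 : ∫ ρ in Ioc (0 : ℝ) 1, (g ρ ^ 2 - 2 * m * g ρ) + m ^ 2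
      = (∫ ρ in Ioc (0 : ℝ) 1, (g ρ ^ 2 - 2 * m * g ρ)) + ∫ _ in Ioc (0 : ℝ) 1, m ^ 2 :=
    integral_add i4 (integrable_const _)
  have e2 : ∫ ρ in Ioc (0 : ℝ) 1, (g ρ ^ 2 - 2 * m * g ρ)
      = (∫ ρ in Ioc (0 : ℝ) 1, g ρ ^ 2) - ∫ ρ in Ioc (0 : ℝ) 1, 2 * m * g ρ := integral_sub i1 i3
  have e3 : ∫ _ in Ioc (0 : ℝ) 1, m ^ 2 = m ^ 2 := by
    rw [setIntegral_const, Real.volume_real_Ioc]
    norm_num
  rw [e1, e2, e3, integral_const_mul, ← hm] at h0
  nlinarith

theorem bb_sq {v : V → V} (hv : ContDiff ℝ ∞ v) {x : V} (hd : ∀ y ∈ ball x 1, dv v y = 0)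
    (j : Fin 3) : bb v x j ^ 2
      ≤ ∫ ρ in Ioc (0 : ℝ) 1, 3 * ∑ i, kv (fun z => z i * et z) ρ (om v i j) x ^ 2 := by
  have hsc : ∀ i, Continuous fun ρ => kv (fun z => z i * et z) ρ (om v i j) x := fun i =>
    (kv_smooth (ker_et.coord i) (om_smooth hv i j)).continuous.comp (by fun_prop : Continuous
      fun ρ : ℝ => (ρ, x))
  have hc : Continuous fun ρ => ∑ i, kv (fun z => z i * et z) ρ (om v i j) x :=
    continuous_finsetSum _ fun i _ => hsc i
  have h1 : ∫ ρ in (0 : ℝ)..1, ∑ i, kv (fun z => z i * et z) ρ (om v i j) x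
      = kv et 1 (fun y => v y j) x - kv et 0 (fun y => v y j) x := by
    refine intervalIntegral.integral_eq_sub_of_hasDerivAt
      (f := fun ρ => kv et ρ (fun y => v y j) x) (fun ρ hρ => ?_) (hc.intervalIntegrable _ _)
    rw [uIcc_of_le zero_le_one] at hρ
    exact ra_scale hv one_pos hρ.1 hρ.2 hd j
  rw [kv_et_zero, intervalIntegral.integral_of_le zero_le_one] at h1
  have h2 : bb v x j = -∫ ρ in Ioc (0 : ℝ) 1, ∑ i, kv (fun z => z i * et z) ρ (om v i j) x := by
    unfold bb
    rw [h1]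
    ring
  rw [h2, neg_sq]
  refine (sq_int_le hc).trans ?_
  refine setIntegral_mono ?_ ?_ fun ρ => ?_
  · exact ((hc.pow 2).continuousOn.integrableOn_compact isCompact_Icc).mono_set
      Ioc_subset_Icc_self
  · have : Continuous fun ρ => 3 * ∑ i, kv (fun z => z i * et z) ρ (om v i j) x ^ 2 :=
      continuous_const.mul (continuous_finsetSum _ fun i _ => (hsc i).pow 2)
    exact (this.continuousOn.integrableOn_compact isCompact_Icc).mono_set Ioc_subset_Icc_self
  · simp only [Fin.sum_univ_three]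
    nlinarith [sq_nonneg (kv (fun z => z 0 * et z) ρ (om v 0 j) x - kv (fun z => z 1 * et z) ρ (om v 1 j) x),
      sq_nonneg (kv (fun z => z 0 * et z) ρ (om v 0 j) x - kv (fun z => z 2 * et z) ρ (om v 2 j) x),
      sq_nonneg (kv (fun z => z 1 * et z) ρ (om v 1 j) x - kv (fun z => z 2 * et z) ρ (om v 2 j) x)]

/-- The constant of the kernels. -/
noncomputable def K1 : ℝ := ∑ i, ∫ z in ball (0 : V) 1, (z i * et z) ^ 2

theorem K1_nonneg : 0 ≤ K1 := Finset.sum_nonneg fun _ _ => integral_nonneg fun _ => sq_nonneg _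

theorem K1_le (i : Fin 3) : ∫ z in ball (0 : V) 1, (z i * et z) ^ 2 ≤ K1 :=
  Finset.single_le_sum (f := fun i => ∫ z in ball (0 : V) 1, (z i * et z) ^ 2)
    (fun _ _ => integral_nonneg fun _ => sq_nonneg _) (Finset.mem_univ i)

/-- The local Biot-Savart estimate. -/
theorem bb_L2 {v : V → V} (hv : ContDiff ℝ ∞ v) {a : V} {r : ℝ}
    (hd : ∀ y ∈ ball a (r + 1), dv v y = 0) (j : Fin 3) :
    ∫ x in ball a r, bb v x j ^ 2 ≤ 72 * K1 * ∫ x in ball a (r + 1), osq v x := by
  have hsc : ∀ i, Continuous fun q : V × ℝ => kv (fun z => z i * et z) q.2 (om v i j) q.1 := fun i =>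
    (kv_smooth (ker_et.coord i) (om_smooth hv i j)).continuous.comp (by fun_prop : Continuous
      fun q : V × ℝ => (q.2, q.1))
  have hG : Continuous (fun q : V × ℝ => 3 * ∑ i, kv (fun z => z i * et z) q.2 (om v i j) q.1 ^ 2) :=
    continuous_const.mul (continuous_finsetSum _ fun i _ => (hsc i).pow 2)
  have hi := int_prod' (G := fun x ρ => 3 * ∑ i, kv (fun z => z i * et z) ρ (om v i j) x ^ 2)
    hG a r 0 1
  have h1 : ∫ x in ball a r, bb v x j ^ 2
      ≤ ∫ x in ball a r, ∫ ρ in Ioc (0 : ℝ) 1,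
        3 * ∑ i, kv (fun z => z i * et z) ρ (om v i j) x ^ 2 := by
    refine setIntegral_mono_on ?_ hi.integral_prod_left measurableSet_ball fun x hx => ?_
    · have : Continuous fun x => bb v x j ^ 2 := by
        unfold bb
        exact ((sm_comp hv j).continuous.sub (kv_smooth_x ker_et (sm_comp hv j) 1).continuous).pow 2
      exact int_ball this a r
    · refine bb_sq hv (fun y hy => hd y ?_) j
      rw [mem_ball] at hx hy ⊢
      linarith [dist_triangle y x a]
  refine h1.trans ?_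
  rw [integral_integral_swap hi]
  set M := ∫ x in ball a (r + 1), osq v x with hM
  have hM0 : 0 ≤ M := integral_nonneg fun x => osq_nonneg v x
  have h2 : ∀ ρ ∈ Ioc (0 : ℝ) 1, ∫ x in ball a r, 3 * ∑ i, kv (fun z => z i * et z) ρ (om v i j) x ^ 2
      ≤ 72 * K1 * M := by
    intro ρ hρ
    have hcx : ∀ i, Continuous fun x => kv (fun z => z i * et z) ρ (om v i j) x := fun i =>
      (kv_smooth_x (ker_et.coord i) (om_smooth hv i j) ρ).continuous
    have hfs : ∫ x in ball a r, ∑ i, kv (fun z => z i * et z) ρ (om v i j) x ^ 2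
        = ∑ i, ∫ x in ball a r, kv (fun z => z i * et z) ρ (om v i j) x ^ 2 :=
      integral_finsetSum _ fun i _ => int_ball ((hcx i).pow 2) a r
    rw [integral_const_mul, hfs]
    have h3 : ∀ i, ∫ x in ball a r, kv (fun z => z i * et z) ρ (om v i j) x ^ 2 ≤ 8 * K1 * M := by
      intro i
      refine (kv_L2 (ker_et.coord i) (om_smooth hv i j).continuous a hρ.1.le).trans ?_
      have h4 : ∫ x in ball a (r + ρ), om v i j x ^ 2 ≤ M := by
        calc ∫ x in ball a (r + ρ), om v i j x ^ 2 ≤ ∫ x in ball a (r + ρ), osq v x :=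
              setIntegral_mono (int_ball ((om_smooth hv i j).continuous.pow 2) _ _)
                (int_ball (osq_smooth hv).continuous _ _) fun x => om_sq_le v i j x
          _ ≤ M := ball_mono (osq_smooth hv).continuous (osq_nonneg v)
              (ball_subset_ball (by linarith [hρ.2]))
      have h5 : 0 ≤ ∫ x in ball a (r + ρ), om v i j x ^ 2 := integral_nonneg fun _ => sq_nonneg _
      have h6 := K1_le i
      have h7 : 0 ≤ ∫ z in ball (0 : V) 1, (z i * et z) ^ 2 := integral_nonneg fun _ => sq_nonneg _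
      have h8 := K1_nonneg
      exact mul_le_mul (by linarith) h4 h5 (by linarith)
    calc 3 * ∑ i, ∫ x in ball a r, kv (fun z => z i * et z) ρ (om v i j) x ^ 2
        ≤ 3 * ∑ _i : Fin 3, 8 * K1 * M := by
          gcongr with i _
          exact h3 i
      _ = 72 * K1 * M := by
          simp
          ring
  calc ∫ ρ in Ioc (0 : ℝ) 1, ∫ x in ball a r, 3 * ∑ i, kv (fun z => z i * et z) ρ (om v i j) x ^ 2
      ≤ ∫ ρ in Ioc (0 : ℝ) 1, 72 * K1 * M :=
        setIntegral_mono_on hi.integral_prod_right (integrableOn_const measure_Ioc_lt_top.ne)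
          measurableSet_Ioc h2
    _ = 72 * K1 * M := by
        rw [setIntegral_const, Real.volume_real_Ioc]
        norm_num

end Pool.Agent.H946.NS
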