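import Pool.Agent.H946_NS.Biot
import Pool.Agent.W382.ME.COUNT2

/-!
The gradient of the remainder, and the derivative of the averaged gradient in the scale.
-/

set_option autoImplicit false

open MeasureTheory Set Metric Filter Topology
open scoped ContDiff

namespace Pool.Agent.H946.NS

open H459R3.NS W221.NS Pool.Agent.W583.MD

theorem bb_smooth {v : V → V} (hv : ContDiff ℝ ∞ v) : ContDiff ℝ ∞ (bb v) :=
  contDiff_pi.2 fun j => (sm_comp hv j).sub (kv_smooth_x ker_et (sm_comp hv j) 1)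

theorem pd_bb {v : V → V} (hv : ContDiff ℝ ∞ v) (i j : Fin 3) (x : V) :
    pd i (fun y => bb v y j) x
      = pd i (fun y => v y j) x - kv et 1 (pd i (fun y => v y j)) x := by
  rw [← pd_kv ker_et (sm_comp hv j)]
  exact Pool.Agent.W135.MD.pd_sub' (Pool.Agent.W135.MD.sm_diff (sm_comp hv j))
    (Pool.Agent.W135.MD.sm_diff (kv_smooth_x ker_et (sm_comp hv j) 1)) i x

theorem om_bb {v : V → V} (hv : ContDiff ℝ ∞ v) (i j : Fin 3) (x : V) :
    om (bb v) i j x = om v i j x - kv et 1 (om v i j) x := by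
  have h := kv_sub ker_et (sm_pd (sm_comp hv j) i).continuous (sm_pd (sm_comp hv i) j).continuous 1 x
  change kv et 1 (om v i j) x = _ at h
  rw [h]
  unfold om
  rw [pd_bb hv i j, pd_bb hv j i]
  ring

theorem dv_bb {v : V → V} (hv : ContDiff ℝ ∞ v) {x : V} (hd : ∀ y ∈ ball x 1, dv v y = 0) :
    dv (bb v) x = 0 := by
  have h1 : dv (bb v) x = dv v x - ∑ i, kv et 1 (pd i (fun y => v y i)) x := by
    unfold dv
    simp_rw [pd_bb hv]
    rw [Finset.sum_sub_distrib]
  have h2 : ∑ i, kv et 1 (pd i (fun y => v y i)) x = 0 := by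
    unfold kv
    rw [← integral_finsetSum _ fun i _ =>
      kv_cont_int ker_et (sm_pd (sm_comp hv i) i).continuous 1 x]
    rw [integral_eq_zero_of_ae]
    refine Eventually.of_forall fun z => ?_
    change ∑ i, et z * pd i (fun y => v y i) (x + (1 : ℝ) • z) = 0
    rw [← Finset.mul_sum]
    by_cases hz : z ∈ ball (0 : V) 1
    · have := hd _ (mem_scal one_pos zero_le_one le_rfl hz)
      unfold dv at this
      rw [this, mul_zero]
    · rw [et_zero hz, zero_mul]
  rw [h1, h2, hd x (mem_ball_self one_pos), sub_zero]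

/-- The constant of the mollifier. -/
noncomputable def K0 : ℝ := ∫ z in ball (0 : V) 1, et z ^ 2

theorem K0_nonneg : 0 ≤ K0 := integral_nonneg fun _ => sq_nonneg _

theorem osq_bb {v : V → V} (hv : ContDiff ℝ ∞ v) (a : V) (r : ℝ) :
    ∫ x in ball a r, osq (bb v) x ≤ (2 + 16 * K0) * ∫ x in ball a (r + 1), osq v x := by
  have h1 : ∀ i j, ∫ x in ball a r, om (bb v) i j x ^ 2
      ≤ (2 + 16 * K0) * ∫ x in ball a (r + 1), om v i j x ^ 2 := by
    intro i j
    have hc := (om_smooth hv i j).continuous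
    have hck := (kv_smooth_x ker_et (om_smooth hv i j) 1).continuous
    have e1 : ∫ x in ball a r, om (bb v) i j x ^ 2
        ≤ ∫ x in ball a r, (2 * om v i j x ^ 2 + 2 * kv et 1 (om v i j) x ^ 2) := by
      refine setIntegral_mono (int_ball ((om_smooth (bb_smooth hv) i j).continuous.pow 2) a r)
        (int_ball (by fun_prop) a r) fun x => ?_
      change om (bb v) i j x ^ 2 ≤ _
      rw [om_bb hv]
      nlinarith [sq_nonneg (om v i j x + kv et 1 (om v i j) x)]
    have e2 : ∫ x in ball a r, (2 * om v i j x ^ 2 + 2 * kv et 1 (om v i j) x ^ 2)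
        = 2 * (∫ x in ball a r, om v i j x ^ 2)
          + 2 * ∫ x in ball a r, kv et 1 (om v i j) x ^ 2 := by
      rw [integral_add (int_ball (by fun_prop) a r) (int_ball (by fun_prop) a r),
        integral_const_mul, integral_const_mul]
    have e3 := kv_L2 ker_et hc a (ρ := 1) (r := r) zero_le_one
    have e4 : ∫ x in ball a r, om v i j x ^ 2 ≤ ∫ x in ball a (r + 1), om v i j x ^ 2 :=
      ball_mono (hc.pow 2) (fun x => sq_nonneg _) (ball_subset_ball (by linarith))
    change _ ≤ 8 * K0 * _ at e3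
    rw [e2] at e1
    nlinarith
  have h2 : ∀ (w : V → V), ContDiff ℝ ∞ w → ∀ s : ℝ, ∫ x in ball a s, osq w x
      = ∑ i, ∑ j, ∫ x in ball a s, om w i j x ^ 2 := by
    intro w hw s
    have hint : ∀ i j, IntegrableOn (fun x => om w i j x ^ 2) (ball a s) := fun i j =>
      int_ball ((om_smooth hw i j).continuous.pow 2) a s
    unfold osq
    rw [integral_finsetSum _ fun i _ => integrable_finsetSum _ fun j _ => hint i j]
    refine Finset.sum_congr rfl fun i _ => ?_
    rw [integral_finsetSum _ fun j _ => hint i j]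
  rw [h2 _ (bb_smooth hv), h2 _ hv, Finset.mul_sum]
  refine Finset.sum_le_sum fun i _ => ?_
  rw [Finset.mul_sum]
  exact Finset.sum_le_sum fun j _ => h1 i j

theorem gsq_nonneg (v : V → V) (x : V) : 0 ≤ gsq v x :=
  Finset.sum_nonneg fun _ _ => Finset.sum_nonneg fun _ _ => sq_nonneg _

theorem nsq_nonneg (v : V → V) (x : V) : 0 ≤ nsq v x :=
  Finset.sum_nonneg fun _ _ => sq_nonneg _

theorem gsq_smooth {v : V → V} (hv : ContDiff ℝ ∞ v) : ContDiff ℝ ∞ (gsq v) :=
  ContDiff.sum fun i _ => ContDiff.sum fun j _ => (sm_pd (sm_comp hv i) j).pow 2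

theorem nsq_smooth {v : V → V} (hv : ContDiff ℝ ∞ v) : ContDiff ℝ ∞ (nsq v) :=
  ContDiff.sum fun i _ => (sm_comp hv i).pow 2

/-- The local div-curl estimate with a cut-off function. -/
theorem divcurl {w : V → V} (hw : ContDiff ℝ ∞ w) {ψ : V → ℝ} (hψ : ContDiff ℝ ∞ ψ) {a : V}
    {s M : ℝ} (hs : ∀ z ∉ ball a s, ψ z = 0) (hM : ∀ z i, |pd i ψ z| ≤ M)
    (h1 : ∀ z, |ψ z| ≤ 1) (hd : ∀ y ∈ ball a s, dv w y = 0) :
    ∫ z in ball a s, ψ z ^ 2 * gsq w z
      ≤ (∫ z in ball a s, osq w z) + 12 * M ^ 2 * ∫ z in ball a s, nsq w z := by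
  have hcs : HasCompactSupport ψ := HasCompactSupport.intro (isCompact_closedBall a s)
    fun z hz => hs z fun h => hz (ball_subset_closedBall h)
  let F : Fin 3 → Fin 3 → V → ℝ := fun i j z =>
    ψ z * ψ z * (w z j * pd j (fun y => w y i) z)
  have hF : ∀ i j, ContDiff ℝ ∞ (F i j) := fun i j =>
    (hψ.mul hψ).mul ((sm_comp hw j).mul (sm_pd (sm_comp hw i) j))
  have hFc : ∀ i j, HasCompactSupport (F i j) := fun i j => (hcs.mul_left).mul_right
  have hZ : Z (fun z => ∑ i, ∑ j, pd i (F i j) z) :=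
    Z.sum fun i => Z.sum fun j => Z_pd (hF i j) (hFc i j) i
  have hFz : ∀ i j, ∀ z ∉ ball a s, F i j z = 0 := fun i j z hz => by
    simp [F, hs z hz]
  -- the sum vanishes outside of the ball: integrate over the whole space
  have hZ2 : ∫ z in ball a s, ∑ i, ∑ j, pd i (F i j) z = 0 := by
    have e : ∀ i j, ∀ z ∉ ball a s, pd i (F i j) z = 0 := by
      intro i j z hz
      have e1 : pd i (F i j) z = ψ z * ψ z * pd i (fun z => w z j * pd j (fun y => w y i) z) z
          + pd i (fun z => ψ z * ψ z) z * (w z j * pd j (fun y => w y i) z) :=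
        pd_mul' (hψ.mul hψ) ((sm_comp hw j).mul (sm_pd (sm_comp hw i) j)) i z
      have e2 : pd i (fun z => ψ z * ψ z) z = ψ z * pd i ψ z + pd i ψ z * ψ z :=
        pd_mul' hψ hψ i z
      rw [e1, e2, hs z hz]
      ring
    rw [setIntegral_eq_integral_of_forall_compl_eq_zero fun z hz => Finset.sum_eq_zero fun i _ =>
      Finset.sum_eq_zero fun j _ => e i j z hz]
    exact hZ.2
  have hZc : Continuous (fun z => ∑ i, ∑ j, pd i (F i j) z) :=
    continuous_finsetSum _ fun i _ => continuous_finsetSum _ fun j _ =>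
      (sm_pd (hF i j) i).continuous
  have hcg := (gsq_smooth hw).continuous
  have hco := (osq_smooth hw).continuous
  have hcn := (nsq_smooth hw).continuous
  have hcψ := hψ.continuous
  have key : ∀ z ∈ ball a s, ψ z ^ 2 * gsq w z
      ≤ osq w z + 2 * (∑ i, ∑ j, pd i (F i j) z) + 12 * M ^ 2 * nsq w z := by
    intro z hz
    have hdj : ∀ j, ∑ i, pd i (pd j (fun y => w y i)) z = 0 := fun j =>
      pd_dv_zero hw isOpen_ball hd hz j
    have e1 : ∀ i j, pd i (F i j) z = ψ z * ψ z * (w z j * pd i (pd j (fun y => w y i)) z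
        + pd i (fun y => w y j) z * pd j (fun y => w y i) z)
        + 2 * (ψ z * pd i ψ z) * (w z j * pd j (fun y => w y i) z) := by
      intro i j
      have e1 : pd i (F i j) z = ψ z * ψ z * pd i (fun z => w z j * pd j (fun y => w y i) z) z
          + pd i (fun z => ψ z * ψ z) z * (w z j * pd j (fun y => w y i) z) :=
        pd_mul' (hψ.mul hψ) ((sm_comp hw j).mul (sm_pd (sm_comp hw i) j)) i z
      have e2 : pd i (fun z => ψ z * ψ z) z = ψ z * pd i ψ z + pd i ψ z * ψ z :=
        pd_mul' hψ hψ i z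
      have e3 : pd i (fun z => w z j * pd j (fun y => w y i) z) z
          = w z j * pd i (pd j (fun y => w y i)) z + pd i (fun y => w y j) z * pd j (fun y => w y i) z :=
        pd_mul' (sm_comp hw j) (sm_pd (sm_comp hw i) j) i z
      rw [e1, e2, e3]
      ring
    have e2 : ∑ i, ∑ j, pd i (F i j) z = ψ z ^ 2 * (∑ i, ∑ j, pd i (fun y => w y j) z
        * pd j (fun y => w y i) z)
        + ∑ i, ∑ j, 2 * (ψ z * pd i ψ z) * (w z j * pd j (fun y => w y i) z) := by
      simp_rw [e1]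
      have h0 := hdj 0
      have h1 := hdj 1
      have h2 := hdj 2
      simp only [Fin.sum_univ_three] at h0 h1 h2 ⊢
      linear_combination ψ z ^ 2 * (w z 0 * h0 + w z 1 * h1 + w z 2 * h2)
    have e3 : osq w z = 2 * gsq w z - 2 * ∑ i, ∑ j, pd i (fun y => w y j) z
        * pd j (fun y => w y i) z := by
      unfold osq gsq om
      simp only [Fin.sum_univ_three]
      ring
    have e4 : ∀ i j, -(2 * (2 * (ψ z * pd i ψ z) * (w z j * pd j (fun y => w y i) z)))
        ≤ ψ z ^ 2 * pd j (fun y => w y i) z ^ 2 + 4 * (M ^ 2 * w z j ^ 2) := by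
      intro i j
      have h5 : pd i ψ z ^ 2 ≤ M ^ 2 := by
        rw [← sq_abs (pd i ψ z)]
        exact pow_le_pow_left₀ (abs_nonneg _) (hM z i) 2
      nlinarith [sq_nonneg (ψ z * pd j (fun y => w y i) z + 2 * (pd i ψ z * w z j)),
        mul_le_mul_of_nonneg_right h5 (sq_nonneg (w z j))]
    have e5 : -(2 * ∑ i, ∑ j, 2 * (ψ z * pd i ψ z) * (w z j * pd j (fun y => w y i) z))
        ≤ ψ z ^ 2 * gsq w z + 12 * M ^ 2 * nsq w z := by
      have h6 := Finset.sum_le_sum fun (i : Fin 3) (_ : i ∈ Finset.univ) =>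
        Finset.sum_le_sum fun (j : Fin 3) (_ : j ∈ Finset.univ) => e4 i j
      have h7 : ∑ i, ∑ j, -(2 * (2 * (ψ z * pd i ψ z) * (w z j * pd j (fun y => w y i) z)))
          = -(2 * ∑ i, ∑ j, 2 * (ψ z * pd i ψ z) * (w z j * pd j (fun y => w y i) z)) := by
        simp only [Fin.sum_univ_three]
        ring
      have h8 : ∑ i, ∑ j, (ψ z ^ 2 * pd j (fun y => w y i) z ^ 2 + 4 * (M ^ 2 * w z j ^ 2))
          = ψ z ^ 2 * gsq w z + 12 * M ^ 2 * nsq w z := by
        unfold gsq nsq
        simp only [Fin.sum_univ_three]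
        ring
      rw [h7, h8] at h6
      exact h6
    have e6 : ψ z ^ 2 ≤ 1 := by
      rw [← sq_abs (ψ z)]
      exact pow_le_one₀ (abs_nonneg _) (h1 z)
    have e7 : ψ z ^ 2 * osq w z ≤ osq w z := mul_le_of_le_one_left (osq_nonneg w z) e6
    have e8 : 2 * (ψ z ^ 2 * gsq w z) = ψ z ^ 2 * osq w z
        + 2 * (ψ z ^ 2 * (∑ i, ∑ j, pd i (fun y => w y j) z * pd j (fun y => w y i) z)) := by
      rw [e3]
      ring
    linarith
  have h2 : ∫ z in ball a s, ψ z ^ 2 * gsq w z ≤ ∫ z in ball a s,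
      (osq w z + 2 * (∑ i, ∑ j, pd i (F i j) z) + 12 * M ^ 2 * nsq w z) :=
    setIntegral_mono_on (int_ball (by fun_prop) a s) (int_ball (by fun_prop) a s)
      measurableSet_ball key
  refine h2.trans (le_of_eq ?_)
  have i1 : IntegrableOn (fun z => 2 * (∑ i, ∑ j, pd i (F i j) z)) (ball a s) :=
    int_ball (by fun_prop) a s
  have i2 : IntegrableOn (fun z => osq w z + 2 * (∑ i, ∑ j, pd i (F i j) z)) (ball a s) :=
    int_ball (by fun_prop) a s
  have i3 : IntegrableOn (fun z => 12 * M ^ 2 * nsq w z) (ball a s) := int_ball (by fun_prop) a s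
  rw [integral_add i2 i3, integral_add (int_ball hco a s) i1, integral_const_mul, hZ2,
    integral_const_mul]
  ring

/-- The derivative of the averaged gradient in the scale. -/
theorem grad_scale {v : V → V} (hv : ContDiff ℝ ∞ v) {x : V} {R ρ : ℝ} (hρ0 : 0 < ρ)
    (hρ : ρ ≤ R) (hd : ∀ y ∈ ball x R, dv v y = 0) (k j : Fin 3) :
    HasDerivAt (fun ρ => kv et ρ (pd k (fun y => v y j)) x)
      (-(ρ⁻¹ * ∑ i, kv (pd k (fun z => z i * et z)) ρ (om v i j) x)) ρ := by
  have hR : 0 < R := hρ0.trans_le hρ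
  let v' : V → V := fun y i => pd k (fun w => v w i) y
  have hv' : ContDiff ℝ ∞ v' := contDiff_pi.2 fun i => sm_pd (sm_comp hv i) k
  have hd' : ∀ y ∈ ball x R, dv v' y = 0 := by
    intro y hy
    have h1 : dv v' y = ∑ i, pd i (pd k (fun w => v w i)) y := rfl
    rw [h1]
    exact pd_dv_zero hv isOpen_ball hd hy k
  have h1 := ra_scale hv' hR hρ0.le hρ hd' j
  refine h1.congr_deriv ?_
  have h2 : ∀ i, om v' i j = pd k (om v i j) := by
    intro i
    funext y
    have e1 : pd k (om v i j) y = pd k (pd i (fun y => v y j)) y - pd k (pd j (fun y => v y i)) y :=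
      Pool.Agent.W135.MD.pd_sub' (Pool.Agent.W135.MD.sm_diff (sm_pd (sm_comp hv j) i))
        (Pool.Agent.W135.MD.sm_diff (sm_pd (sm_comp hv i) j)) k y
    rw [e1, Pool.Agent.W135.MD.pd_comm' (sm_comp hv j) k i y,
      Pool.Agent.W135.MD.pd_comm' (sm_comp hv i) k j y]
    rfl
  have h3 : ∀ i, kv (pd k (fun z => z i * et z)) ρ (om v i j) x
      = -(ρ * kv (fun z => z i * et z) ρ (pd k (om v i j)) x) := fun i =>
    kv_ibp (ker_et.coord i) (om_smooth hv i j) ρ k x
  simp_rw [h2, h3]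
  rw [Finset.sum_neg_distrib, ← Finset.mul_sum, mul_neg, neg_neg, ← mul_assoc,
    inv_mul_cancel₀ hρ0.ne', one_mul]

theorem cov' (F : V → ℝ) (a : V) {r ρ : ℝ} (hr : 0 < r) :
    ∫ w in ball (0 : V) ρ, F (a + r • w) = (r ^ 3)⁻¹ * ∫ y in ball a (r * ρ), F y :=
  W382.ME.cov F a hr

/-- Balls are covered by smaller balls, in the average. -/
theorem cover {F : V → ℝ} (hF : Continuous F) (h0 : ∀ x, 0 ≤ F x) {x : V} {ρ s M : ℝ} (hρ : 0 < ρ)
    (hs : 0 < s) (hM : ∀ w ∈ ball x (ρ + s), ∫ y in ball w s, F y ≤ M) :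
    ∫ y in ball x ρ, F y ≤ ((ρ + s) / s) ^ 3 * M := by
  have hG : Continuous (fun q : V × V => F (q.1 + q.2)) := hF.comp (by fun_prop)
  have hi := int_prod (G := fun w z => F (w + z)) hG x 0 (ρ + s) s
  have h1 : ∫ z in ball (0 : V) s, ∫ w in ball x (ρ + s), F (w + z)
      = ∫ w in ball x (ρ + s), ∫ z in ball (0 : V) s, F (w + z) :=
    (integral_integral_swap hi).symm
  have h2 : ∀ w, ∫ z in ball (0 : V) s, F (w + z) = ∫ y in ball w s, F y := by
    intro w
    have := cov' F w (r := 1) (ρ := s) one_pos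
    simp only [one_smul, one_pow, inv_one, one_mul] at this
    exact this
  have h3 : ∫ w in ball x (ρ + s), ∫ z in ball (0 : V) s, F (w + z) ≤ (2 * (ρ + s)) ^ 3 * M := by
    calc ∫ w in ball x (ρ + s), ∫ z in ball (0 : V) s, F (w + z)
        ≤ ∫ _ in ball x (ρ + s), M :=
          setIntegral_mono_on hi.integral_prod_left (integrableOn_const (vol_ball_fin _ _))
            measurableSet_ball fun w hw => (h2 w).trans_le (hM w hw)
      _ = (2 * (ρ + s)) ^ 3 * M := by
          rw [setIntegral_const, smul_eq_mul, Measure.real, Real.volume_pi_ball _ (by positivity),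
            ENNReal.toReal_ofReal (by positivity)]
          simp
  have h4 : (2 * s) ^ 3 * ∫ y in ball x ρ, F y
      ≤ ∫ z in ball (0 : V) s, ∫ w in ball x (ρ + s), F (w + z) := by
    have h5 : ∀ z ∈ ball (0 : V) s, ∫ y in ball x ρ, F y ≤ ∫ w in ball x (ρ + s), F (w + z) := by
      intro z hz
      have h6 := ball_shift (F := fun y => F (y + z)) (hF.comp (by fun_prop)) (fun y => h0 _) x (-z)
        (r := ρ) (s := ρ + s) (by
          rw [norm_neg]
          rw [mem_ball_zero_iff] at hz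
          linarith)
      simpa using h6
    calc (2 * s) ^ 3 * ∫ y in ball x ρ, F y = ∫ _ in ball (0 : V) s, ∫ y in ball x ρ, F y := by
          rw [setIntegral_const, smul_eq_mul, Measure.real, Real.volume_pi_ball _ hs,
            ENNReal.toReal_ofReal (by positivity)]
          simp
      _ ≤ _ := setIntegral_mono_on (integrableOn_const (vol_ball_fin _ _))
          hi.integral_prod_right measurableSet_ball h5
  have h7 : (2 * s) ^ 3 * ∫ y in ball x ρ, F y ≤ (2 * (ρ + s)) ^ 3 * M :=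
    h4.trans (h1.trans_le h3)
  have h8 : 0 < (2 * s) ^ 3 := by positivity
  calc ∫ y in ball x ρ, F y = ((2 * s) ^ 3)⁻¹ * ((2 * s) ^ 3 * ∫ y in ball x ρ, F y) := by
        rw [← mul_assoc, inv_mul_cancel₀ h8.ne', one_mul]
    _ ≤ ((2 * s) ^ 3)⁻¹ * ((2 * (ρ + s)) ^ 3 * M) := by
        apply mul_le_mul_of_nonneg_left h7 (by positivity)
    _ = _ := by
        field_simp

/-- The constant of the kernels for the gradient. -/
noncomputable def K2 : ℝ := ∑ k, ∑ i, ∫ z in ball (0 : V) 1, pd k (fun z : V => z i * et z) z ^ 2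

theorem K2_nonneg : 0 ≤ K2 := Finset.sum_nonneg fun _ _ => Finset.sum_nonneg fun _ _ =>
  integral_nonneg fun _ => sq_nonneg _

theorem K2_le (k i : Fin 3) : ∫ z in ball (0 : V) 1, pd k (fun z : V => z i * et z) z ^ 2 ≤ K2 :=
  (Finset.single_le_sum (f := fun i => ∫ z in ball (0 : V) 1, pd k (fun z : V => z i * et z) z ^ 2)
    (fun _ _ => integral_nonneg fun _ => sq_nonneg _) (Finset.mem_univ i)).trans
    (Finset.single_le_sum (f := fun k => ∑ i, ∫ z in ball (0 : V) 1,
      pd k (fun z : V => z i * et z) z ^ 2) (fun _ _ => Finset.sum_nonneg fun _ _ =>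
        integral_nonneg fun _ => sq_nonneg _) (Finset.mem_univ k))

/-- The growth of the averaged gradient in the scale: a logarithm. -/
theorem grad_log {v : V → V} (hv : ContDiff ℝ ∞ v) {x : V} {r d M : ℝ} (hr : 0 < r) (hrd : r ≤ d)
    (hd : ∀ y ∈ ball x d, dv v y = 0)
    (hM : ∀ w ∈ ball x (2 * d), ∫ y in ball w (3 / 4 * r), osq v y ≤ M) (k j : Fin 3) :
    |kv et r (pd k (fun y => v y j)) x|
      ≤ |kv et d (pd k (fun y => v y j)) x| + 12 * √K2 * √(M / r ^ 3) * Real.log (d / r) := by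
  have hd0 : 0 < d := hr.trans_le hrd
  set G : ℝ → ℝ := fun ρ => kv et ρ (pd k (fun y => v y j)) x with hG
  have hx2 : x ∈ ball x (2 * d) := mem_ball_self (by positivity)
  have hM0 : 0 ≤ M := (integral_nonneg fun y => osq_nonneg v y).trans (hM x hx2)
  have hder : ∀ ρ ∈ Icc r d, HasDerivAt G
      (-(ρ⁻¹ * ∑ i, kv (pd k (fun z => z i * et z)) ρ (om v i j) x)) ρ := fun ρ hρ =>
    grad_scale hv (hr.trans_le hρ.1) hρ.2 hd k j
  have hbd : ∀ ρ ∈ Icc r d,
      ‖-(ρ⁻¹ * ∑ i, kv (pd k (fun z => z i * et z)) ρ (om v i j) x)‖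
        ≤ 12 * √K2 * √(M / r ^ 3) * ρ⁻¹ := by
    intro ρ hρ
    have hρ0 : 0 < ρ := hr.trans_le hρ.1
    have h1 : ∫ y in ball x ρ, osq v y ≤ 13 * (ρ / r) ^ 3 * M := by
      have h2 := cover (osq_smooth hv).continuous (osq_nonneg v) (x := x) (ρ := ρ) (s := 3 / 4 * r)
        (M := M) hρ0 (by positivity) (fun w hw => hM w (ball_subset_ball (by linarith [hρ.1, hρ.2]) hw))
      refine h2.trans (mul_le_mul_of_nonneg_right ?_ hM0)
      have h3 : (ρ + 3 / 4 * r) / (3 / 4 * r) ≤ 7 / 3 * (ρ / r) := by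
        rw [div_le_iff₀ (by positivity)]
        have : 7 / 3 * (ρ / r) * (3 / 4 * r) = 7 / 4 * ρ := by
          field_simp
        rw [this]
        linarith [hρ.1]
      calc ((ρ + 3 / 4 * r) / (3 / 4 * r)) ^ 3 ≤ (7 / 3 * (ρ / r)) ^ 3 := by
            apply pow_le_pow_left₀ (by positivity) h3
        _ = 343 / 27 * (ρ / r) ^ 3 := by ring
        _ ≤ 13 * (ρ / r) ^ 3 := by
            have : 0 ≤ (ρ / r) ^ 3 := by positivity
            nlinarith
    have h4 : ∀ i, |kv (pd k (fun z => z i * et z)) ρ (om v i j) x| ≤ 4 * (√K2 * √(M / r ^ 3)) := by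
      intro i
      have h5 := kv_sq ((ker_et.coord i).pd k) (om_smooth hv i j).continuous ρ x
      have h6 : ∫ z in ball (0 : V) 1, om v i j (x + ρ • z) ^ 2 ≤ 13 * (M / r ^ 3) := by
        rw [cov' (fun y => om v i j y ^ 2) x hρ0, mul_one]
        calc (ρ ^ 3)⁻¹ * ∫ y in ball x ρ, om v i j y ^ 2
            ≤ (ρ ^ 3)⁻¹ * (13 * (ρ / r) ^ 3 * M) := by
              apply mul_le_mul_of_nonneg_left _ (by positivity)
              exact (setIntegral_mono (int_ball ((om_smooth hv i j).continuous.pow 2) _ _)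
                (int_ball (osq_smooth hv).continuous _ _) fun y => om_sq_le v i j y).trans h1
          _ = 13 * (M / r ^ 3) := by
              field_simp
      have h7 : kv (pd k (fun z => z i * et z)) ρ (om v i j) x ^ 2 ≤ (4 * (√K2 * √(M / r ^ 3))) ^ 2 := by
        calc kv (pd k (fun z => z i * et z)) ρ (om v i j) x ^ 2 ≤ _ := h5
          _ ≤ K2 * (13 * (M / r ^ 3)) := by
              apply mul_le_mul (K2_le k i) h6 (integral_nonneg fun _ => sq_nonneg _) K2_nonneg
          _ ≤ (4 * (√K2 * √(M / r ^ 3))) ^ 2 := by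
              rw [mul_pow, mul_pow, Real.sq_sqrt K2_nonneg, Real.sq_sqrt (by positivity)]
              have : 0 ≤ K2 * (M / r ^ 3) := mul_nonneg K2_nonneg (by positivity)
              nlinarith
      exact abs_le_of_sq_le_sq h7 (by positivity)
    rw [norm_neg, norm_mul, Real.norm_of_nonneg (by positivity), Real.norm_eq_abs]
    calc ρ⁻¹ * |∑ i, kv (pd k (fun z => z i * et z)) ρ (om v i j) x|
        ≤ ρ⁻¹ * ∑ i, |kv (pd k (fun z => z i * et z)) ρ (om v i j) x| := by
          apply mul_le_mul_of_nonneg_left (Finset.abs_sum_le_sum_abs _ _) (by positivity)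
      _ ≤ ρ⁻¹ * ∑ _i : Fin 3, 4 * (√K2 * √(M / r ^ 3)) := by
          apply mul_le_mul_of_nonneg_left (Finset.sum_le_sum fun i _ => h4 i) (by positivity)
      _ = _ := by
          simp
          ring
  have hB : ∀ ρ ∈ Icc r d, HasDerivAt (fun ρ => 12 * √K2 * √(M / r ^ 3) * Real.log (ρ / r))
      (12 * √K2 * √(M / r ^ 3) * ρ⁻¹) ρ := by
    intro ρ hρ
    have hρ0 : 0 < ρ := hr.trans_le hρ.1
    have h1 : HasDerivAt (fun ρ => ρ / r) (1 / r) ρ := (hasDerivAt_id ρ).div_const r
    have h2 := (h1.log (by positivity)).const_mul (12 * √K2 * √(M / r ^ 3))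
    refine h2.congr_deriv ?_
    field_simp
  have h := image_norm_le_of_norm_deriv_right_le_deriv_boundary' (f := fun ρ => G ρ - G r)
    (f' := fun ρ => -(ρ⁻¹ * ∑ i, kv (pd k (fun z => z i * et z)) ρ (om v i j) x))
    (a := r) (b := d)
    (fun ρ hρ => ((hder ρ hρ).continuousAt.continuousWithinAt).sub continuousWithinAt_const)
    (fun ρ hρ => ((hder ρ (Ico_subset_Icc_self hρ)).sub_const (G r)).hasDerivWithinAt)
    (B := fun ρ => 12 * √K2 * √(M / r ^ 3) * Real.log (ρ / r))
    (B' := fun ρ => 12 * √K2 * √(M / r ^ 3) * ρ⁻¹)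
    (by simp [hr.ne']) (fun ρ hρ => (hB ρ hρ).continuousAt.continuousWithinAt)
    (fun ρ hρ => (hB ρ (Ico_subset_Icc_self hρ)).hasDerivWithinAt)
    (fun ρ hρ => hbd ρ (Ico_subset_Icc_self hρ)) (x := d) ⟨hrd, le_rfl⟩
  rw [Real.norm_eq_abs] at h
  have h2 := abs_sub_abs_le_abs_sub (G r) (G d)
  rw [abs_sub_comm] at h2
  change |G r| ≤ |G d| + _
  linarith

end Pool.Agent.H946.NS
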