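import Pool.Agent.H946_NS.One7

/-!
The gradient of the potential of a scalar function, averaged over the scales.
-/

set_option autoImplicit false

open MeasureTheory Set Metric Filter Topology
open scoped ContDiff ENNReal

namespace Pool.Agent.H946.NS

open H459R3.NS W221.NS Pool.Agent.W583.MD

/-- Integrals over the scales of smooth functions are smooth. -/
theorem par_smooth {F : ℝ → V → ℝ} (hF : ContDiff ℝ ∞ (fun q : ℝ × V => F q.1 q.2)) :
    ContDiff ℝ ∞ (fun x => ∫ ρ in Ioc (0 : ℝ) 1, F ρ x) := by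
  let β : ContDiffBump (0 : ℝ) := ⟨2, 3, by norm_num, by norm_num⟩
  let g : V → ℝ → ℝ := fun x ρ => β ρ * F ρ x
  have hg : ContDiffOn ℝ ∞ (↿g) ((univ : Set V) ×ˢ (univ : Set ℝ)) := by
    have h1 : ContDiff ℝ ∞ (fun q : V × ℝ => F q.2 q.1) :=
      hF.comp (contDiff_snd.prodMk contDiff_fst)
    have h2 : ContDiff ℝ ∞ (fun q : V × ℝ => β q.2) := β.contDiff.comp contDiff_snd
    exact (h2.mul h1).contDiffOn
  have hint : LocallyIntegrable ((Ico (-1 : ℝ) 0).indicator fun _ => (1 : ℝ)) volume := by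
    have h : Integrable ((Ico (-1 : ℝ) 0).indicator fun _ => (1 : ℝ)) volume := by
      rw [integrable_indicator_iff measurableSet_Ico]
      exact integrableOn_const (by simp)
    exact h.locallyIntegrable
  have key := contDiffOn_convolution_right_with_param_comp (𝕜 := ℝ) (n := ⊤)
    (ContinuousLinearMap.mul ℝ ℝ) (s := (univ : Set V))
    (v := fun _ : V => (0 : ℝ)) contDiffOn_const
    (f := (Ico (-1 : ℝ) 0).indicator fun _ => (1 : ℝ)) (g := g)
    (k := closedBall (0 : ℝ) 3) isOpen_univ (isCompact_closedBall 0 3)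
    (fun z y _ hy => by
      have : β y = 0 := by
        by_contra h
        have h1 : y ∈ Function.support β := h
        rw [β.support_eq] at h1
        exact hy (ball_subset_closedBall h1)
      simp [g, this]) (μ := (volume : Measure ℝ)) hint hg
  rw [contDiffOn_univ] at key
  have e : (fun x => ∫ ρ in Ioc (0 : ℝ) 1, F ρ x) = fun x => convolution
      ((Ico (-1 : ℝ) 0).indicator fun _ => (1 : ℝ)) (g x)
      (ContinuousLinearMap.mul ℝ ℝ) volume 0 := by
    funext x
    simp only [convolution_def, ContinuousLinearMap.mul_apply', zero_sub]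
    have h1 : ∀ t : ℝ, (Ico (-1 : ℝ) 0).indicator (fun _ => (1 : ℝ)) t * g x (-t)
        = (fun s => (Ioc (0 : ℝ) 1).indicator (fun s => F s x) s) (-t) := by
      intro t
      by_cases ht : t ∈ Ico (-1 : ℝ) 0
      · have h2 : -t ∈ Ioc (0 : ℝ) 1 := ⟨by linarith [ht.2], by linarith [ht.1]⟩
        have h3 : β (-t) = 1 := β.one_of_mem_closedBall (by
          rw [mem_closedBall_zero_iff, Real.norm_eq_abs, abs_le]
          constructor
          · show -(2 : ℝ) ≤ -t
            linarith [ht.2]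
          · show -t ≤ (2 : ℝ)
            linarith [ht.1])
        simp only [indicator_of_mem ht, indicator_of_mem h2, g, h3, one_mul]
      · have h2 : -t ∉ Ioc (0 : ℝ) 1 := fun h => ht ⟨by linarith [h.2], by linarith [h.1]⟩
        simp only [indicator_of_notMem ht, indicator_of_notMem h2, zero_mul]
    simp_rw [h1]
    rw [integral_neg_eq_self (fun s => (Ioc (0 : ℝ) 1).indicator (fun s => F s x) s) volume,
      integral_indicator measurableSet_Ioc]
  rw [e]
  exact key

/-- The derivative of an integral over the scales. -/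
theorem par_pd {F : ℝ → V → ℝ} (hF : ContDiff ℝ ∞ (fun q : ℝ × V => F q.1 q.2)) (k : Fin 3)
    (x : V) : pd k (fun x => ∫ ρ in Ioc (0 : ℝ) 1, F ρ x) x
      = ∫ ρ in Ioc (0 : ℝ) 1, pd k (F ρ) x := by
  have hFρ : ∀ ρ, ContDiff ℝ ∞ (F ρ) := fun ρ => hF.comp (contDiff_const.prodMk contDiff_id)
  have hpj : Continuous (fun q : ℝ × V => pd k (F q.1) q.2) := by
    have h2 : ContDiff ℝ ∞ (fun z : ℝ × V => fderiv ℝ (fun z : ℝ × V => F z.1 z.2) z
        (0, Pi.single k 1)) := (hF.fderiv_right (by norm_cast)).clm_apply contDiff_const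
    have h3 : (fun q : ℝ × V => pd k (F q.1) q.2) = fun z : ℝ × V =>
        fderiv ℝ (fun z : ℝ × V => F z.1 z.2) z (0, Pi.single k 1) := by
      funext q
      have h4 : HasFDerivAt (fun y : V => ((q.1, y) : ℝ × V)) (ContinuousLinearMap.inr ℝ ℝ V) q.2 :=
        hasFDerivAt_prodMk_right q.1 q.2
      have h5 : HasFDerivAt (F q.1) _ q.2 :=
        ((hF.differentiable (by simp)) (q.1, q.2)).hasFDerivAt.comp q.2 h4
      unfold pd
      rw [h5.fderiv]
      simp
    rw [h3]
    exact h2.continuous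
  have hs := par_smooth hF
  set e : V := Pi.single k 1 with he
  have h1 := congrFun (line_deriv hs x k) 0
  simp only [zero_smul, add_zero] at h1
  rw [← h1]
  have hc : IsCompact (Icc (0 : ℝ) 1 ×ˢ closedBall x ‖e‖) :=
    isCompact_Icc.prod (isCompact_closedBall x _)
  obtain ⟨C, hC⟩ := hc.exists_bound_of_continuousOn hpj.continuousOn
  have hline : Continuous fun s : ℝ => x + s • e := by fun_prop
  have h2 := hasDerivAt_integral_of_dominated_loc_of_deriv_le
    (μ := (volume : Measure ℝ).restrict (Ioc 0 1)) (x₀ := (0 : ℝ)) (s := ball (0 : ℝ) 1)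
    (F := fun s ρ => F ρ (x + s • e)) (F' := fun s ρ => pd k (F ρ) (x + s • e))
    (bound := fun _ => C) (ball_mem_nhds 0 one_pos)
    (Eventually.of_forall fun s => by
      have h3 : Continuous fun ρ => F ρ (x + s • e) :=
        hF.continuous.comp (by fun_prop : Continuous fun ρ : ℝ => ((ρ, x + s • e) : ℝ × V))
      exact h3.aestronglyMeasurable)
    (by
      have h3 : Continuous fun ρ => F ρ (x + (0 : ℝ) • e) :=
        hF.continuous.comp (by fun_prop : Continuous fun ρ : ℝ => ((ρ, x + (0 : ℝ) • e) : ℝ × V))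
      exact (h3.continuousOn.integrableOn_compact isCompact_Icc).mono_set Ioc_subset_Icc_self)
    (by
      have h3 : Continuous fun ρ => pd k (F ρ) (x + (0 : ℝ) • e) :=
        hpj.comp (by fun_prop : Continuous fun ρ : ℝ => ((ρ, x + (0 : ℝ) • e) : ℝ × V))
      exact h3.aestronglyMeasurable)
    (by
      filter_upwards [ae_restrict_mem measurableSet_Ioc] with ρ hρ s hs
      refine hC (ρ, x + s • e) ⟨Ioc_subset_Icc_self hρ, ?_⟩
      rw [mem_closedBall_iff_norm, add_sub_cancel_left, norm_smul]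
      rw [mem_ball_zero_iff] at hs
      nlinarith [norm_nonneg e])
    (by
      exact (integrable_const C))
    (Eventually.of_forall fun ρ s _ => by
      have h3 : HasDerivAt (fun s : ℝ => x + s • e) e s := by
        simpa using ((hasDerivAt_id s).smul_const e).const_add x
      have h4 : HasFDerivAt (F ρ) (fderiv ℝ (F ρ) (x + s • e)) (x + s • e) :=
        ((hFρ ρ).differentiable (by simp) _).hasFDerivAt
      exact h4.comp_hasDerivAt s h3)
  have h3 := h2.2.deriv
  simp only [zero_smul, add_zero] at h3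
  exact h3

/-- The gradient field of the potential of `f`, up to the sign. -/
noncomputable def Bf (i : Fin 3) (f : V → ℝ) (x : V) : ℝ :=
  ∫ ρ in Ioc (0 : ℝ) 1, kv (fun z => z i * et z) ρ f x

theorem Bf_smooth (i : Fin 3) {f : V → ℝ} (hf : ContDiff ℝ ∞ f) : ContDiff ℝ ∞ (Bf i f) :=
  par_smooth (F := fun ρ x => kv (fun z => z i * et z) ρ f x) (kv_smooth (ker_et.coord i) hf)

theorem pd_Bf (i k : Fin 3) {f : V → ℝ} (hf : ContDiff ℝ ∞ f) (x : V) :
    pd k (Bf i f) x = Bf i (pd k f) x := by
  have h := par_pd (F := fun ρ x => kv (fun z => z i * et z) ρ f x)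
    (kv_smooth (ker_et.coord i) hf) k x
  refine h.trans ?_
  unfold Bf
  refine integral_congr_ae (Eventually.of_forall fun ρ => ?_)
  exact pd_kv (ker_et.coord i) hf ρ k x

theorem coord_eE (i : Fin 3) : (fun z : V => z i * et z) = pd i eE :=
  funext fun z => (pd_eE i z).symm

theorem Bf_sym (i k : Fin 3) {f : V → ℝ} (hf : ContDiff ℝ ∞ f) (x : V) :
    Bf i (pd k f) x = Bf k (pd i f) x := by
  unfold Bf
  refine integral_congr_ae (Eventually.of_forall fun ρ => ?_)
  simp only [coord_eE]
  rw [kv_ibp ker_eE (sm_pd hf k), kv_ibp ker_eE (sm_pd hf i)]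
  have e : pd i (pd k f) = pd k (pd i f) := funext fun y => Pool.Agent.W135.MD.pd_comm' hf i k y
  rw [e]

theorem kc {k : V → ℝ} (hk : Ker k) {f : V → ℝ} (hf : ContDiff ℝ ∞ f) (x : V) :
    Continuous fun ρ => kv k ρ f x :=
  (kv_smooth hk hf).continuous.comp (by fun_prop : Continuous fun ρ : ℝ => ((ρ, x) : ℝ × V))

theorem ion {g : ℝ → ℝ} (hg : Continuous g) : IntegrableOn g (Ioc 0 1) :=
  (hg.continuousOn.integrableOn_compact isCompact_Icc).mono_set Ioc_subset_Icc_self

theorem Bf_div {f : V → ℝ} (hf : ContDiff ℝ ∞ f) (x : V) :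
    ∑ i, Bf i (pd i f) x = kv et 1 f x - f x := by
  have h1 : ∫ ρ in (0 : ℝ)..1, ∑ i, kv (fun z => z i * et z) ρ (pd i f) x
      = kv et 1 f x - kv et 0 f x := by
    refine intervalIntegral.integral_eq_sub_of_hasDerivAt
      (f := fun ρ => kv et ρ f x) (fun ρ _ => kv_scale ker_et hf ρ x) ?_
    exact (continuous_finsetSum _ fun i _ =>
      kc (ker_et.coord i) (sm_pd hf i) x).intervalIntegrable _ _
  rw [kv_et_zero, intervalIntegral.integral_of_le zero_le_one,
    integral_finsetSum _ fun i _ => ion (kc (ker_et.coord i) (sm_pd hf i) x)] at h1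
  exact h1

theorem Bf_add (i : Fin 3) {f g : V → ℝ} (hf : ContDiff ℝ ∞ f) (hg : ContDiff ℝ ∞ g) (x : V) :
    Bf i (fun y => f y + g y) x = Bf i f x + Bf i g x := by
  unfold Bf
  rw [← integral_add (ion (kc (ker_et.coord i) hf x)) (ion (kc (ker_et.coord i) hg x))]
  refine integral_congr_ae (Eventually.of_forall fun ρ => ?_)
  simp only [kv]
  rw [← integral_add (kv_cont_int (ker_et.coord i) hf.continuous ρ x)
    (kv_cont_int (ker_et.coord i) hg.continuous ρ x)]
  refine integral_congr_ae (Eventually.of_forall fun z => ?_)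
  simp only
  ring

theorem Bf_L2 (i : Fin 3) {f : V → ℝ} (hf : ContDiff ℝ ∞ f) (a : V) (r : ℝ) :
    ∫ x in ball a r, Bf i f x ^ 2 ≤ 8 * K1 * ∫ x in ball a (r + 1), f x ^ 2 := by
  have hk := ker_et.coord i
  have hsc : Continuous fun q : V × ℝ => kv (fun z => z i * et z) q.2 f q.1 :=
    (kv_smooth hk hf).continuous.comp (by fun_prop : Continuous fun q : V × ℝ => (q.2, q.1))
  have hi := int_prod' (G := fun x ρ => kv (fun z => z i * et z) ρ f x ^ 2) (hsc.pow 2) a r 0 1
  have h1 : ∫ x in ball a r, Bf i f x ^ 2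
      ≤ ∫ x in ball a r, ∫ ρ in Ioc (0 : ℝ) 1, kv (fun z => z i * et z) ρ f x ^ 2 := by
    refine setIntegral_mono_on (int_ball ((Bf_smooth i hf).continuous.pow 2) a r)
      hi.integral_prod_left measurableSet_ball fun x _ => sq_int_le (kc hk hf x)
  refine h1.trans ?_
  rw [integral_integral_swap hi]
  set M := ∫ x in ball a (r + 1), f x ^ 2 with hM
  have hM0 : 0 ≤ M := integral_nonneg fun x => sq_nonneg _
  have h2 : ∀ ρ ∈ Ioc (0 : ℝ) 1, ∫ x in ball a r, kv (fun z => z i * et z) ρ f x ^ 2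
      ≤ 8 * K1 * M := by
    intro ρ hρ
    refine (kv_L2 hk hf.continuous a hρ.1.le).trans ?_
    have h4 : ∫ x in ball a (r + ρ), f x ^ 2 ≤ M :=
      ball_mono (hf.continuous.pow 2) (fun x => sq_nonneg _) (ball_subset_ball (by linarith [hρ.2]))
    have h6 := K1_le i
    have h7 : 0 ≤ ∫ z in ball (0 : V) 1, (z i * et z) ^ 2 := integral_nonneg fun _ => sq_nonneg _
    have h8 := K1_nonneg
    exact mul_le_mul (by linarith) h4 (integral_nonneg fun _ => sq_nonneg _) (by linarith)
  have h3 : ∫ ρ in Ioc (0 : ℝ) 1, ∫ x in ball a r, kv (fun z => z i * et z) ρ f x ^ 2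
      ≤ ∫ _ in Ioc (0 : ℝ) 1, 8 * K1 * M :=
    setIntegral_mono_on hi.integral_prod_right (integrableOn_const (by simp)) measurableSet_Ioc h2
  refine h3.trans (le_of_eq ?_)
  rw [setIntegral_const, Real.volume_real_Ioc]
  norm_num

end Pool.Agent.H946.NS
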