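import Pool.Agent.H946_NS.CF10

/-!
The criterion with the direction of the vorticity, viscosity one.
-/

set_option autoImplicit false

open MeasureTheory Set Metric Filter Topology
open scoped ContDiff ENNReal

namespace Pool.Agent.H946.NS

open H459R3.NS W221.NS Pool.Agent.W583.MD

variable {κ : V → ℝ}

/-- The numbers in the last step. -/
theorem last_num2 {C K₁ a r s q W : ℝ} (hC : 1 ≤ C) (hK : 0 ≤ K₁) (ha : 0 < a) (ha1 : a ≤ 1)
    (hr1 : r ≤ 1) (hq0 : 0 < q) (hq1 : q ≤ 1) (hs : s = q ^ 16) (hr : q ^ 9 ≤ r) (hW0 : 0 ≤ W)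
    (hW : W ≤ K₁ / q) (h : 1 ≤ C * (s * (W ^ 2 + (1 + Real.log (1 / (a * r)))
      * √(W / (a * r) ^ 3)))) :
    1 ≤ C * (K₁ ^ 2 + (10 + 1 / a) * √(K₁ / a ^ 3)) * q := by
  have hr0 : 0 < r := (by positivity : (0 : ℝ) < q ^ 9).trans_le hr
  have hsq := Real.sqrt_nonneg (K₁ / a ^ 3)
  have h1 : √(W / (a * r) ^ 3) ≤ √(K₁ / a ^ 3) / q ^ 14 := by
    have h2 : W / (a * r) ^ 3 ≤ (K₁ / q) / (a * q ^ 9) ^ 3 := by
      have : (a * q ^ 9) ^ 3 ≤ (a * r) ^ 3 := by gcongr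
      calc W / (a * r) ^ 3 ≤ (K₁ / q) / (a * r) ^ 3 := by gcongr
        _ ≤ _ := div_le_div_of_nonneg_left (by positivity) (by positivity) this
    have h3 : (K₁ / q) / (a * q ^ 9) ^ 3 = (K₁ / a ^ 3) / (q ^ 14) ^ 2 := by
      field_simp
    calc √(W / (a * r) ^ 3) ≤ √((K₁ / a ^ 3) / (q ^ 14) ^ 2) :=
          Real.sqrt_le_sqrt (h2.trans (le_of_eq h3))
      _ = _ := by rw [Real.sqrt_div (by positivity), Real.sqrt_sq (by positivity)]
  have har : a * r ≤ 1 := mul_le_one₀ ha1 hr0.le hr1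
  have hlog0 : 0 ≤ Real.log (1 / (a * r)) :=
    Real.log_nonneg ((one_le_div (by positivity)).2 har)
  have hlog : Real.log (1 / (a * r)) ≤ 1 / a + 9 * (1 / q) := by
    have h2 : Real.log (1 / (a * r)) ≤ Real.log (1 / a * (1 / q) ^ 9) := by
      apply Real.log_le_log (by positivity)
      have h3 : 1 / a * (1 / q) ^ 9 = 1 / (a * q ^ 9) := by
        field_simp
      rw [h3]
      exact one_div_le_one_div_of_le (by positivity) (by gcongr)
    rw [Real.log_mul (by positivity) (by positivity), Real.log_pow] at h2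
    have h4 := Real.log_le_self (show 0 ≤ 1 / a by positivity)
    have h5 := Real.log_le_self (show 0 ≤ 1 / q by positivity)
    push_cast at h2
    linarith
  have hA : 1 + Real.log (1 / (a * r)) ≤ (10 + 1 / a) / q := by
    rw [le_div_iff₀ hq0]
    have h2 : (1 + Real.log (1 / (a * r))) * q ≤ (1 + (1 / a + 9 * (1 / q))) * q := by gcongr
    have h3 : (1 + (1 / a + 9 * (1 / q))) * q = (1 + 1 / a) * q + 9 := by
      field_simp
      ring
    have h4 : (1 + 1 / a) * q ≤ (1 + 1 / a) * 1 :=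
      mul_le_mul_of_nonneg_left hq1 (by positivity)
    linarith
  have h6 : s * (W ^ 2 + (1 + Real.log (1 / (a * r))) * √(W / (a * r) ^ 3))
      ≤ q ^ 16 * ((K₁ / q) ^ 2 + ((10 + 1 / a) / q) * (√(K₁ / a ^ 3) / q ^ 14)) := by
    rw [hs]
    have h7 : (1 + Real.log (1 / (a * r))) * √(W / (a * r) ^ 3)
        ≤ ((10 + 1 / a) / q) * (√(K₁ / a ^ 3) / q ^ 14) :=
      mul_le_mul hA h1 (Real.sqrt_nonneg _) (by positivity)
    gcongr
  have h7 : q ^ 16 * ((K₁ / q) ^ 2 + ((10 + 1 / a) / q) * (√(K₁ / a ^ 3) / q ^ 14))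
      = K₁ ^ 2 * q ^ 14 + (10 + 1 / a) * √(K₁ / a ^ 3) * q := by
    field_simp
  have h8 : K₁ ^ 2 * q ^ 14 ≤ K₁ ^ 2 * q := by
    refine mul_le_mul_of_nonneg_left ?_ (by positivity)
    exact pow_le_of_le_one hq0.le hq1 (by norm_num)
  calc 1 ≤ C * (s * (W ^ 2 + (1 + Real.log (1 / (a * r))) * √(W / (a * r) ^ 3))) := h
    _ ≤ C * (K₁ ^ 2 * q + (10 + 1 / a) * √(K₁ / a ^ 3) * q) := by
        refine mul_le_mul_of_nonneg_left ?_ (by linarith)
        linarith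
    _ = _ := by ring

/-- The rate. -/
noncomputable def rt (r ρ Λ : ℝ → ℝ) (u : ℝ → V → V) (t : ℝ) : ℝ :=
  1 / r t ^ 2 + Λ t + (1 / r t + ρ t ^ 2 + r t ^ 3 * Λ t ^ 2) * ens (u t)

theorem dir_one (hκ : Cut κ) : ∃ ε : ℝ, 0 < ε ∧ ∀ (T t₀ K : ℝ) (u : ℝ → V → V) (p : ℝ → V → ℝ)
    (r ρ Λ : ℝ → ℝ), IsSol 1 T u p → t₀ ∈ Ioo 0 T → AntitoneOn r (Ico t₀ T) →
      (∀ t ∈ Ico t₀ T, 0 < r t ∧ r t ≤ 1) →
        (∀ t ∈ Ioo t₀ T, IntegrableOn (rt r ρ Λ u) (Ioo t₀ t)) →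
          (∀ᵐ t ∂((volume : Measure ℝ).restrict (Ioo t₀ T)), 0 ≤ ρ t ∧ 0 ≤ Λ t ∧
            ((∀ s ∈ Ioo t₀ t, ∀ y, ∃ x, enk κ (r s) (u s) y ≤ enk κ (r t) (u t) x) →
              ∃ x, (∀ y, enk κ (r t) (u t) y ≤ enk κ (r t) (u t) x) ∧
                Coh (ρ t) (Λ t) (2 * r t) x (u t))) →
            (∃ᶠ t in 𝓝[<] T, ∫ s in Ioo t₀ t, rt r ρ Λ u s ≤ ε * Real.log (1 / (T - t)) + K) →
              ∀ x, ¬ Sing T u x := by
  obtain ⟨C, hC, hE⟩ := enk_cf hκ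
  obtain ⟨C₁, hC₁, hS⟩ := star_one
  obtain ⟨a, ha, ha1, hlow⟩ := hκ.low
  refine ⟨1 / (16 * C), by positivity, ?_⟩
  intro T t₀ K u p r ρ Λ hu ht₀ hr hrp hint hcoh hfreq x₀ hx₀
  set ε := 1 / (16 * C) with hε
  have hε0 : 0 < ε := by positivity
  have hCε : C * ε = 1 / 16 := by
    rw [hε]
    field_simp
  have hT : 0 < T := ht₀.1.trans ht₀.2
  have hL := LS.of_IsSol hu
  have ht₀I : t₀ ∈ Ico t₀ T := ⟨le_rfl, ht₀.2⟩
  set g := rt r ρ Λ u with hg
  -- the initial value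
  obtain ⟨M₀, hM₀, h0⟩ : ∃ M₀ : ℝ, 0 < M₀ ∧ ∀ x, enk κ (r t₀) (u t₀) x < M₀ := by
    have hv : ContDiff ℝ ∞ (u t₀) := W382.ME.cd_slice hL.smooth_u ht₀
    obtain ⟨x, hx, hmax⟩ := (isCompact_Icc (a := (0 : V)) (b := 1)).exists_isMaxOn
      ⟨0, le_rfl, zero_le_one⟩ (enk_smooth hκ hv (r t₀)).continuous.continuousOn
    have hn := enk_nonneg hκ (hrp t₀ ht₀I).1 (u t₀) x
    refine ⟨enk κ (r t₀) (u t₀) x + 1, by linarith, fun y => ?_⟩
    obtain ⟨y', hy', e⟩ := W398.MD.FLOWX.per_cube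
      (per_enk κ (hu.per_u t₀ ⟨ht₀.1.le, ht₀.2⟩) (r t₀)) y
    rw [e]
    have : enk κ (r t₀) (u t₀) y' ≤ enk κ (r t₀) (u t₀) x := hmax hy'
    linarith
  set K₁ : ℝ := 2 * M₀ * Real.exp (C * |K| + 1) / a ^ 2 with hK₁
  have hK₁0 : 0 < K₁ := by positivity
  set Q : ℝ := C₁ * (K₁ ^ 2 + (10 + 1 / a) * √(K₁ / a ^ 3)) with hQ
  have hQ0 : 0 < Q := by positivity
  set B : ℝ := 17 * ε + |K| with hB
  have hB0 : 0 < B := by positivity
  -- small times
  have hq : Tendsto (fun t : ℝ => (2 * (T - t)) ^ (1 / 16 : ℝ)) (𝓝[<] T) (𝓝 0) := by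
    have h1 : Tendsto (fun t : ℝ => 2 * (T - t)) (𝓝[<] T) (𝓝 0) := by
      have : Tendsto (fun t : ℝ => 2 * (T - t)) (𝓝 T) (𝓝 (2 * (T - T))) := by
        exact (continuous_const.mul (continuous_const.sub continuous_id)).tendsto T
      rw [sub_self, mul_zero] at this
      exact this.mono_left nhdsWithin_le_nhds
    have h2 := h1.rpow_const (p := (1 / 16 : ℝ)) (Or.inr (by norm_num))
    rwa [Real.zero_rpow (by norm_num)] at h2
  have hev : ∀ᶠ t in 𝓝[<] T, (2 * (T - t)) ^ (1 / 16 : ℝ) < min (min 1 (1 / (2 * B)))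
      (1 / (1 + Q)) := hq.eventually_lt_const (by positivity)
  have hev2 : ∀ᶠ t in 𝓝[<] T, t ∈ Ioo ((t₀ + T) / 2) T := Ioo_mem_nhdsLT (by linarith [ht₀.2])
  obtain ⟨t₂, hle, hqt, ht₂⟩ := (hfreq.and_eventually (hev.and hev2)).exists
  set t := 2 * t₂ - T with ht
  have ht₂T : t₂ < T := ht₂.2
  have htt₀ : t₀ < t := by linarith [ht₂.1]
  have htt₂ : t < t₂ := by linarith
  have htT : t < T := htt₂.trans ht₂T
  set s := T - t with hs
  have hss : s = 2 * (T - t₂) := by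
    rw [hs, ht]
    ring
  have hs0 : 0 < s := by linarith
  rw [← hss] at hqt
  set q := s ^ (1 / 16 : ℝ) with hqdef
  have hq0 : 0 < q := by positivity
  have hq1 : q ≤ 1 := (hqt.le.trans (min_le_left _ _)).trans (min_le_left _ _)
  have hqB : q ≤ 1 / (2 * B) := (hqt.le.trans (min_le_left _ _)).trans (min_le_right _ _)
  have hq2 : q < 1 / (1 + Q) := hqt.trans_le (min_le_right _ _)
  have hsq : s = q ^ 16 := by
    rw [hqdef, ← Real.rpow_natCast, ← Real.rpow_mul hs0.le]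
    norm_num
  have htI : t ∈ Ioo t₀ T := ⟨htt₀, htT⟩
  have ht₂I : t₂ ∈ Ioo t₀ T := ⟨htt₀.trans htt₂, ht₂T⟩
  have htI' : t ∈ Ico t₀ T := ⟨htI.1.le, htI.2⟩
  have ht0T : t ∈ Ioo 0 T := ⟨ht₀.1.trans htI.1, htI.2⟩
  obtain ⟨hr0, hr1⟩ := hrp t htI'
  -- the rate
  have hg0 : ∀ᵐ τ ∂((volume : Measure ℝ).restrict (Ioo t₀ T)), 1 / r τ ^ 2 ≤ g τ := by
    filter_upwards [hcoh, ae_restrict_mem measurableSet_Ioo] with τ hτ hτI
    obtain ⟨h1, h2, -⟩ := hτ
    have h3 := (hrp τ (Ioo_subset_Ico_self hτI)).1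
    have h4 := ens_nonneg (u τ)
    have h5 : 0 ≤ (1 / r τ + ρ τ ^ 2 + r τ ^ 3 * Λ τ ^ 2) * ens (u τ) := by positivity
    simp only [hg, rt]
    linarith
  have hg00 : ∀ᵐ τ ∂((volume : Measure ℝ).restrict (Ioo t₀ T)), 0 ≤ g τ := by
    filter_upwards [hg0] with τ hτ
    exact le_trans (by positivity) hτ
  set G₂ := ∫ τ in Ioo t₀ t₂, g τ with hG₂
  have hi₂ := hint t₂ ht₂I
  have hi₁ := hint t htI
  have hsub₂ : Ioo t₀ t₂ ⊆ Ioo t₀ T := Ioo_subset_Ioo_right ht₂T.le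
  have hG₁ : ∫ τ in Ioo t₀ t, g τ ≤ G₂ :=
    setIntegral_mono_set hi₂ (ae_restrict_of_ae_restrict_of_subset hsub₂ hg00)
      (Ioo_subset_Ioo_right htt₂.le).eventuallyLE
  have hG₃ : (T - t₂) * (1 / r t ^ 2) ≤ G₂ := by
    have h1 : ∫ τ in Ioo t t₂, g τ ≤ G₂ :=
      setIntegral_mono_set hi₂ (ae_restrict_of_ae_restrict_of_subset hsub₂ hg00)
        (Ioo_subset_Ioo_left htt₀.le).eventuallyLE
    have h2 : ∫ _ in Ioo t t₂, 1 / r t ^ 2 ≤ ∫ τ in Ioo t t₂, g τ := by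
      refine setIntegral_mono_ae_restrict (integrableOn_const (by simp))
        (hi₂.mono_set (Ioo_subset_Ioo_left htt₀.le)) ?_
      have hsub₃ : Ioo t t₂ ⊆ Ioo t₀ T := (Ioo_subset_Ioo_left htt₀.le).trans hsub₂
      filter_upwards [ae_restrict_of_ae_restrict_of_subset hsub₃ hg0,
        ae_restrict_mem measurableSet_Ioo] with τ hτ hτI
      refine le_trans ?_ hτ
      have h3 : τ ∈ Ico t₀ T := Ioo_subset_Ico_self (hsub₃ hτI)
      have h4 : r τ ≤ r t := hr htI' h3 hτI.1.le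
      have h5 := (hrp τ h3).1
      exact one_div_le_one_div_of_le (by positivity) (pow_le_pow_left₀ h5.le h4 2)
    have h3 : ∫ _ in Ioo t t₂, 1 / r t ^ 2 = (T - t₂) * (1 / r t ^ 2) := by
      rw [setIntegral_const, Measure.real, Real.volume_Ioo, ENNReal.toReal_ofReal (by linarith),
        smul_eq_mul]
      congr 1
      rw [ht]
      ring
    linarith
  have hlogs : Real.log (1 / (T - t₂)) ≤ 1 + 16 * (1 / q) := by
    have h1 : 1 / (T - t₂) = 2 * (1 / q) ^ 16 := by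
      have h2 : T - t₂ = q ^ 16 / 2 := by
        rw [← hsq, hss]
        ring
      rw [h2]
      field_simp
    rw [h1, Real.log_mul (by norm_num) (by positivity), Real.log_pow]
    have h3 := Real.log_le_self (show 0 ≤ 1 / q by positivity)
    have h4 : Real.log 2 ≤ 1 := by
      have := Real.log_two_lt_d9
      linarith
    push_cast
    linarith
  have hG₄ : G₂ ≤ B / q := by
    have h1 : G₂ ≤ ε * (1 + 16 * (1 / q)) + |K| :=
      hle.trans (add_le_add (mul_le_mul_of_nonneg_left hlogs hε0.le) (le_abs_self K))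
    have h2 : 1 ≤ 1 / q := (one_le_div hq0).2 hq1
    have h3 : ε * 1 ≤ ε * (1 / q) := mul_le_mul_of_nonneg_left h2 hε0.le
    have h4 : |K| * 1 ≤ |K| * (1 / q) := mul_le_mul_of_nonneg_left h2 (abs_nonneg K)
    have h5 : B / q = 17 * (ε * (1 / q)) + |K| * (1 / q) := by
      rw [hB]
      ring
    linarith
  have hrq : q ^ 9 ≤ r t := by
    have h1 : (T - t₂) * (1 / r t ^ 2) ≤ B / q := hG₃.trans hG₄
    have h2 : T - t₂ = q ^ 16 / 2 := by
      rw [← hsq, hss]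
      ring
    rw [h2] at h1
    have h3 : q ^ 16 / 2 * (1 / r t ^ 2) = q ^ 16 / (2 * r t ^ 2) := by
      field_simp
    rw [h3, div_le_div_iff₀ (by positivity) hq0] at h1
    have h4 : q * (2 * B) ≤ 1 := by
      rwa [le_div_iff₀ (by positivity)] at hqB
    have h5 : (q ^ 9) ^ 2 ≤ r t ^ 2 := by
      have h6 : q * (q ^ 16 * q) ≤ q * (B * (2 * r t ^ 2)) := mul_le_mul_of_nonneg_left h1 hq0.le
      have h7 : q * (B * (2 * r t ^ 2)) = (q * (2 * B)) * r t ^ 2 := by ring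
      have h8 : (q * (2 * B)) * r t ^ 2 ≤ 1 * r t ^ 2 :=
        mul_le_mul_of_nonneg_right h4 (sq_nonneg _)
      calc (q ^ 9) ^ 2 = q * (q ^ 16 * q) := by ring
        _ ≤ _ := h6
        _ = _ := h7
        _ ≤ _ := h8
        _ = _ := one_mul _
    exact (pow_le_pow_iff_left₀ (by positivity) hr0.le two_ne_zero).1 h5
  -- the growth
  have hsub : Ioo t₀ t ⊆ Ioo t₀ T := Ioo_subset_Ioo_right htI.2.le
  have hIcc : Icc t₀ t ⊆ Ico t₀ T := fun τ hτ => ⟨hτ.1, hτ.2.trans_lt htI.2⟩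
  have hgrow := grow_abs hκ hu ht₀.1 htI.1 htI.2 (r := r) (g := fun τ => C * g τ) (hr.mono hIcc)
    (fun τ hτ => (hrp τ (hIcc hτ)).1) (hi₁.const_mul C)
    (by
      filter_upwards [ae_restrict_of_ae_restrict_of_subset hsub hcoh,
        ae_restrict_of_ae_restrict_of_subset hsub hg00, ae_restrict_mem measurableSet_Ioo]
        with τ hτ hτ0 hτI
      refine ⟨mul_nonneg (by linarith) hτ0, fun hrec => ?_⟩
      obtain ⟨h1, h2, h3⟩ := hτ
      obtain ⟨x, h4, h5⟩ := h3 hrec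
      have hτI' := hsub hτI
      obtain ⟨h6, h7⟩ := hrp τ (Ioo_subset_Ico_self hτI')
      obtain ⟨D, hD, hDle⟩ := hE T u p hu (r τ) x h6 h7 τ ⟨ht₀.1.trans hτI'.1, hτI'.2⟩
        (Eventually.of_forall h4) (enk κ (r τ) (u τ) x) (ρ τ) (Λ τ) h4 h1 h2 h5
      refine ⟨x, h4, D, hD, hDle.trans (le_of_eq ?_)⟩
      simp only [hg, rt]
      ring) hM₀ h0
  have hexp : Real.exp ((∫ τ in Ioo t₀ t, C * g τ) + 1) ≤ 2 * Real.exp (C * |K| + 1) / q := by
    have h1 : (∫ τ in Ioo t₀ t, C * g τ) + 1 ≤ (C * |K| + 1) + 1 / 16 * Real.log (1 / (T - t₂)) := by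
      rw [integral_const_mul]
      have h2 : C * (∫ τ in Ioo t₀ t, g τ) ≤ C * (ε * Real.log (1 / (T - t₂)) + K) :=
        mul_le_mul_of_nonneg_left (hG₁.trans hle) (by linarith)
      have h3 : C * (ε * Real.log (1 / (T - t₂)) + K) = C * ε * Real.log (1 / (T - t₂)) + C * K := by
        ring
      rw [h3, hCε] at h2
      have h4 : C * K ≤ C * |K| := mul_le_mul_of_nonneg_left (le_abs_self K) (by linarith)
      linarith
    have h5 : 1 / 16 * Real.log (1 / (T - t₂)) ≤ Real.log (2 / q) := by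
      have h6 : 1 / (T - t₂) = 2 * (1 / q) ^ 16 := by
        have h2 : T - t₂ = q ^ 16 / 2 := by
          rw [← hsq, hss]
          ring
        rw [h2]
        field_simp
      have h7 : 1 / (T - t₂) ≤ (2 / q) ^ 16 := by
        rw [h6]
        have h8 : (2 / q) ^ 16 = 65536 * (1 / q) ^ 16 := by
          rw [div_eq_mul_one_div, mul_pow]
          norm_num
        rw [h8]
        exact mul_le_mul_of_nonneg_right (by norm_num) (by positivity)
      have h9 : Real.log (1 / (T - t₂)) ≤ Real.log ((2 / q) ^ 16) :=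
        Real.log_le_log (by rw [h6]; positivity) h7
      rw [Real.log_pow] at h9
      push_cast at h9
      linarith
    calc _ ≤ Real.exp ((C * |K| + 1) + Real.log (2 / q)) := Real.exp_le_exp.2 (by linarith)
      _ = _ := by
        rw [Real.exp_add, Real.exp_log (by positivity)]
        ring
  -- the lower bound
  have har0 : 0 < a * r t := by positivity
  have har1 : a * r t ≤ 1 := mul_le_one₀ ha1 hr0.le hr1
  obtain ⟨x, hx⟩ := hS T u p hT hu ⟨x₀, hx₀⟩ t ⟨ht0T.1.le, ht0T.2⟩ (a * r t) har0 har1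
  have hv : ContDiff ℝ ∞ (u t) := W382.ME.cd_slice hL.smooth_u ht0T
  have hW : ∫ y in ball x (a * r t), osq (u t) y ≤ K₁ / q := by
    have h1 := enk_low hκ ha ha1 hlow hr0 hv x
    have h2 := (h1.trans (hgrow x)).trans (mul_le_mul_of_nonneg_left hexp hM₀.le)
    have h3 : K₁ / q = (M₀ * (2 * Real.exp (C * |K| + 1) / q)) / a ^ 2 := by
      rw [hK₁]
      field_simp
    rw [h3, le_div_iff₀ (by positivity), mul_comm]
    exact h2
  have hfin := last_num2 hC₁ hK₁0.le ha ha1 hr1 hq0 hq1 hsq hrq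
    (integral_nonneg fun y => osq_nonneg _ y) hW hx
  have h9 : Q * q < 1 := by
    have h1 : q * (1 + Q) < 1 := by
      rwa [lt_div_iff₀ (by positivity)] at hq2
    linarith
  linarith

end Pool.Agent.H946.NS
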