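import Pool.Agent.H946_NS.CF11

/-!
The criterion with the direction of the vorticity, general viscosity.
-/

set_option autoImplicit false

open MeasureTheory Set Metric Filter Topology
open scoped ContDiff ENNReal

namespace Pool.Agent.H946.NS

open H459R3.NS W221.NS Pool.Agent.W583.MD

variable {κ : V → ℝ}

theorem pd_smulv {v : V → V} (hv : ContDiff ℝ ∞ v) (c : ℝ) (k j : Fin 3) (z : V) :
    pd k (fun y => (c • v y) j) z = c * pd k (fun y => v y j) z :=
  Pool.Agent.W135.MD.pd_cmul (Pool.Agent.W135.MD.sm_diff (sm_comp hv j)) c k z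

theorem vort_smul {v : V → V} (hv : ContDiff ℝ ∞ v) (c : ℝ) (z : V) :
    vort (fun y => c • v y) z = c • vort v z := by
  have e : ∀ k j, pd k (fun y => c * v y j) z = c * pd k (fun y => v y j) z :=
    fun k j => pd_smulv hv c k j z
  unfold vort
  ext i
  fin_cases i
  all_goals
    simp only [Pi.smul_apply, smul_eq_mul, e]
    simp only [Fin.zero_eta, Fin.mk_one, Fin.reduceFinMk, Matrix.cons_val_zero, Matrix.cons_val_one,
      Matrix.cons_val]
    ring

theorem vsq_smul {v : V → V} (hv : ContDiff ℝ ∞ v) (c : ℝ) (z : V) :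
    vsq (fun y => c • v y) z = c ^ 2 * vsq v z := by
  unfold vsq
  rw [vort_smul hv, Finset.mul_sum]
  refine Finset.sum_congr rfl fun i _ => ?_
  rw [Pi.smul_apply, smul_eq_mul, mul_pow]

theorem ens_smul {v : V → V} (hv : ContDiff ℝ ∞ v) (c : ℝ) :
    ens (fun y => c • v y) = c ^ 2 * ens v := by
  unfold ens
  simp_rw [vsq_smul hv]
  rw [integral_const_mul]

theorem Coh.nu {ρ Λ s ν : ℝ} {x : V} {v : V → V} (hv : ContDiff ℝ ∞ v) (hν : 0 < ν)
    (h : Coh ρ Λ s x v) : Coh ρ (Λ / ν) s x (fun y => ν⁻¹ • v y) := by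
  have hlow : ∀ w, (Λ / ν) ^ 2 < vsq (fun y => ν⁻¹ • v y) w → Λ ^ 2 < vsq v w := by
    intro w hw
    rw [vsq_smul hv, div_eq_inv_mul, mul_pow] at hw
    exact lt_of_mul_lt_mul_left hw (by positivity)
  intro y hy z hz hyL hzL
  have h1 := h y hy z hz (hlow y hyL) (hlow z hzL)
  rw [vort_smul hv, vort_smul hv, xsq_smul, vsq_smul hv, vsq_smul hv]
  calc ν⁻¹ ^ 4 * xsq (vort v y) (vort v z)
      ≤ ν⁻¹ ^ 4 * (ρ ^ 2 * ‖y - z‖ * (vsq v y * vsq v z)) :=
        mul_le_mul_of_nonneg_left h1 (by positivity)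
    _ = _ := by ring

/-- The rate, general viscosity. -/
noncomputable def rn (ν : ℝ) (r ρ Λ : ℝ → ℝ) (u : ℝ → V → V) (t : ℝ) : ℝ :=
  ν / r t ^ 2 + Λ t + (1 / r t + ρ t ^ 2 + r t ^ 3 * Λ t ^ 2 / ν ^ 2) * ens (u t) / ν

/-- The criterion, general viscosity. -/
theorem dir_nu (hκ : Cut κ) : ∃ ε : ℝ, 0 < ε ∧ ∀ (ν T t₀ K : ℝ) (u : ℝ → V → V) (p : ℝ → V → ℝ)
    (r ρ Λ : ℝ → ℝ), 0 < ν → IsSol ν T u p → t₀ ∈ Ioo 0 T → AntitoneOn r (Ico t₀ T) →
      (∀ t ∈ Ico t₀ T, 0 < r t ∧ r t ≤ 1) →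
        (∀ t ∈ Ioo t₀ T, IntegrableOn (rn ν r ρ Λ u) (Ioo t₀ t)) →
          (∀ᵐ t ∂((volume : Measure ℝ).restrict (Ioo t₀ T)), 0 ≤ ρ t ∧ 0 ≤ Λ t ∧
            ((∀ s ∈ Ioo t₀ t, ∀ y, ∃ x, loc κ (r s) (u s) y ≤ loc κ (r t) (u t) x) →
              ∃ x, (∀ y, loc κ (r t) (u t) y ≤ loc κ (r t) (u t) x) ∧
                Coh (ρ t) (Λ t) (2 * r t) x (u t))) →
            (∃ᶠ t in 𝓝[<] T, ∫ s in Ioo t₀ t, rn ν r ρ Λ u s ≤ ε * Real.log (1 / (T - t)) + K) →
              ∀ x, ¬ Sing T u x := by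
  obtain ⟨ε, hε, H⟩ := dir_one hκ
  refine ⟨ε, hε, ?_⟩
  intro ν T t₀ K u p r ρ Λ hν hu ht₀ hr hrp hint hcoh hfreq x₀ hx₀
  have hT : 0 < T := ht₀.1.trans ht₀.2
  have h2 := B.p_scale ν T u p hν hT hu
  have hS' : Sing (ν * T) (fun t x => ν⁻¹ • u (t / ν) x) x₀ := by
    intro δ hδ M
    obtain ⟨t, ht, y, hy, hM⟩ := hx₀ (min δ (δ / ν)) (lt_min hδ (by positivity)) (ν * M)
    refine ⟨ν * t, ⟨?_, ?_⟩, y, ball_subset_ball (min_le_left _ _) hy, ?_⟩
    · have h3 : T - δ / ν < t := by linarith [ht.1, min_le_right δ (δ / ν)]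
      have h4 : ν * (T - δ / ν) < ν * t := mul_lt_mul_of_pos_left h3 hν
      have h5 : ν * (T - δ / ν) = ν * T - δ := by field_simp
      linarith
    · exact mul_lt_mul_of_pos_left ht.2 hν
    · have e : ν * t / ν = t := by field_simp
      simp only [e]
      rw [norm_smul, Real.norm_eq_abs, abs_of_pos (by positivity), inv_mul_eq_div,
        lt_div_iff₀ hν, mul_comm]
      exact hM
  set g : ℝ → ℝ := rn ν r ρ Λ u with hg
  have hback : ∀ s, s ∈ Ico (ν * t₀) (ν * T) → s / ν ∈ Ico t₀ T := by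
    intro s hs
    constructor
    · rw [le_div_iff₀ hν]
      linarith [hs.1]
    · rw [div_lt_iff₀ hν]
      linarith [hs.2]
  have hback' : ∀ s, s ∈ Ioo (ν * t₀) (ν * T) → s / ν ∈ Ioo t₀ T := by
    intro s hs
    constructor
    · rw [lt_div_iff₀ hν]
      linarith [hs.1]
    · rw [div_lt_iff₀ hν]
      linarith [hs.2]
  have hsm : ∀ t ∈ Ico t₀ T, ContDiff ℝ ∞ (u t) := fun t ht =>
    slice0 hu.smooth_u ⟨ht₀.1.le.trans ht.1, ht.2⟩
  have hgs : ∀ s ∈ Ioo (ν * t₀) (ν * T), rt (fun s => r (s / ν)) (fun s => ρ (s / ν))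
      (fun s => Λ (s / ν) / ν) (fun t x => ν⁻¹ • u (t / ν) x) s = ν⁻¹ * g (s / ν) := by
    intro s hs
    have hs' := hback s (Ioo_subset_Ico_self hs)
    have h3 := (hrp _ hs').1
    simp only [hg, rt, rn]
    rw [ens_smul (hsm _ hs')]
    field_simp
  have hII : ∀ t ∈ Ioo t₀ T, IntervalIntegrable g volume t₀ t := fun t ht =>
    (intervalIntegrable_iff_integrableOn_Ioo_of_le ht.1.le).2 (hint t ht)
  have hsubI : ∀ s ∈ Ioo (ν * t₀) (ν * T), Ioo (ν * t₀) s ⊆ Ioo (ν * t₀) (ν * T) := fun s hs =>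
    Ioo_subset_Ioo_right hs.2.le
  refine H (ν * T) (ν * t₀) (K + ε * |Real.log ν|) _ _ (fun s => r (s / ν)) (fun s => ρ (s / ν))
    (fun s => Λ (s / ν) / ν) h2 ⟨mul_pos hν ht₀.1, mul_lt_mul_of_pos_left ht₀.2 hν⟩ ?_ ?_ ?_ ?_ ?_
    x₀ hS'
  · intro s hs s' hs' hss
    exact hr (hback s hs) (hback s' hs') (div_le_div_of_nonneg_right hss hν.le)
  · intro s hs
    exact hrp (s / ν) (hback s hs)
  · intro s hs
    have hs' := hback' s hs
    have h3 := hII _ hs'
    have h4 := h3.comp_mul_left (c := ν⁻¹)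
    have e1 : t₀ / ν⁻¹ = ν * t₀ := by field_simp
    have e2 : s / ν / ν⁻¹ = s := by field_simp
    rw [e1, e2] at h4
    have h5 := (intervalIntegrable_iff_integrableOn_Ioo_of_le hs.1.le).1 h4
    refine IntegrableOn.congr_fun (h5.const_mul ν⁻¹) (fun τ hτ => ?_) measurableSet_Ioo
    rw [hgs τ (hsubI s hs hτ), inv_mul_eq_div ν τ]
  · rw [ae_restrict_iff' measurableSet_Ioo] at hcoh ⊢
    have hqm : Measure.QuasiMeasurePreserving (fun s : ℝ => ν⁻¹ * s) volume volume := by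
      refine ⟨by fun_prop, ?_⟩
      rw [Real.map_volume_mul_left (by positivity)]
      exact Measure.smul_absolutelyContinuous
    filter_upwards [hqm.ae hcoh] with s hs hsI
    rw [inv_mul_eq_div] at hs
    obtain ⟨h3, h4, h56⟩ := hs (hback' s hsI)
    have hrr := (hrp _ (Ioo_subset_Ico_self (hback' s hsI))).1
    have h7 : 0 < ν⁻¹ ^ 2 := by positivity
    refine ⟨h3, by positivity, fun hrec => ?_⟩
    obtain ⟨x, h5, h6⟩ := h56 (by
      intro τ hτ y
      have hτI : ν * τ ∈ Ioo (ν * t₀) s := by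
        refine ⟨mul_lt_mul_of_pos_left hτ.1 hν, ?_⟩
        have := hτ.2
        rwa [lt_div_iff₀ hν, mul_comm] at this
      obtain ⟨x, hx⟩ := hrec (ν * τ) hτI y
      refine ⟨x, ?_⟩
      have e : ν * τ / ν = τ := by field_simp
      have hττ : τ ∈ Ico t₀ T := ⟨hτ.1.le, hτ.2.trans (hback' s hsI).2⟩
      simp only [e] at hx
      rw [enk_smul, enk_smul, enk_loc hrr, enk_loc (hrp τ hττ).1] at hx
      have h8 : 2 * loc κ (r τ) (u τ) y ≤ 2 * loc κ (r (s / ν)) (u (s / ν)) x :=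
        le_of_mul_le_mul_left hx h7
      linarith)
    refine ⟨x, fun y => ?_, h6.nu (hsm _ (Ioo_subset_Ico_self (hback' s hsI))) hν⟩
    rw [enk_smul, enk_smul, enk_loc hrr, enk_loc hrr]
    have := h5 y
    nlinarith
  · -- the frequency
    have htend : Tendsto (fun t : ℝ => ν * t) (𝓝[<] T) (𝓝[<] (ν * T)) := by
      refine tendsto_nhdsWithin_iff.2 ⟨?_, ?_⟩
      · exact ((continuous_const.mul continuous_id).tendsto T).mono_left nhdsWithin_le_nhds
      · filter_upwards [self_mem_nhdsWithin] with t ht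
        exact mul_lt_mul_of_pos_left ht hν
    refine htend.frequently ?_
    have hev : ∀ᶠ t in 𝓝[<] T, t ∈ Ioo t₀ T := Ioo_mem_nhdsLT ht₀.2
    refine (hfreq.and_eventually hev).mono ?_
    rintro t ⟨hle, htI⟩
    have hνt : ν * t ∈ Ioo (ν * t₀) (ν * T) :=
      ⟨mul_lt_mul_of_pos_left htI.1 hν, mul_lt_mul_of_pos_left htI.2 hν⟩
    have h7 : ∫ s in Ioo (ν * t₀) (ν * t), rt (fun s => r (s / ν)) (fun s => ρ (s / ν))
      (fun s => Λ (s / ν) / ν) (fun t x => ν⁻¹ • u (t / ν) x) s = ∫ s in Ioo t₀ t, g s := by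
      rw [setIntegral_congr_fun measurableSet_Ioo fun s hs => hgs s (hsubI _ hνt hs),
        ← integral_Ioc_eq_integral_Ioo, ← integral_Ioc_eq_integral_Ioo,
        ← intervalIntegral.integral_of_le (mul_le_mul_of_nonneg_left htI.1.le hν.le),
        ← intervalIntegral.integral_of_le htI.1.le, intervalIntegral.integral_const_mul,
        intervalIntegral.integral_comp_div (f := g) hν.ne', smul_eq_mul]
      have e1 : ν * t₀ / ν = t₀ := by field_simp
      have e2 : ν * t / ν = t := by field_simp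
      rw [e1, e2]
      field_simp
    rw [h7]
    have hTt : 0 < T - t := by linarith [htI.2]
    have h8 : Real.log (1 / (ν * T - ν * t)) = Real.log (1 / (T - t)) - Real.log ν := by
      rw [← mul_sub, one_div, one_div, mul_inv, Real.log_mul (by positivity) (by positivity),
        Real.log_inv]
      ring
    rw [h8]
    have h9 : ε * Real.log ν ≤ ε * |Real.log ν| := mul_le_mul_of_nonneg_left (le_abs_self _) hε.le
    linarith

end Pool.Agent.H946.NS
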