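import Pool.Agent.H946_NS.CF1

/-!
The second derivatives of a potential: estimate in `L²`.
-/

set_option autoImplicit false

open MeasureTheory Set Metric Filter Topology
open scoped ContDiff ENNReal

namespace Pool.Agent.H946.NS

open H459R3.NS W221.NS Pool.Agent.W583.MD

theorem pd_sum3 {f : Fin 3 → V → ℝ} (hf : ∀ j, ContDiff ℝ ∞ (f j)) (k : Fin 3) (z : V) :
    pd k (fun z => ∑ j, f j z) z = ∑ j, pd k (f j) z := by
  unfold pd
  rw [fderiv_fun_sum fun j _ => (Pool.Agent.W135.MD.sm_diff (hf j)) z]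
  simp

/-- The local estimate of the gradient of a field without curl. -/
theorem divcurl2 {w : V → V} (hw : ContDiff ℝ ∞ w) {ψ : V → ℝ} (hψ : ContDiff ℝ ∞ ψ) {a : V}
    {s M : ℝ} (hs : ∀ z ∉ ball a s, ψ z = 0) (hM : ∀ z i, |pd i ψ z| ≤ M)
    (h1 : ∀ z, |ψ z| ≤ 1)
    (hd : ∀ y i j, pd i (fun y => w y j) y = pd j (fun y => w y i) y) :
    ∫ z in ball a s, ψ z ^ 2 * gsq w z
      ≤ 4 * (∫ z in ball a s, dv w z ^ 2) + 18 * M ^ 2 * ∫ z in ball a s, nsq w z := by
  have hcs : HasCompactSupport ψ := HasCompactSupport.intro (isCompact_closedBall a s)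
    fun z hz => hs z fun h => hz (ball_subset_closedBall h)
  have hdvs : ContDiff ℝ ∞ (dv w) := ContDiff.sum fun i _ => sm_pd (sm_comp hw i) i
  let F : Fin 3 → V → ℝ := fun i z =>
    ψ z * ψ z * ((∑ j, w z j * pd j (fun y => w y i) z) - w z i * dv w z)
  have hF0 : ∀ i, ContDiff ℝ ∞ (fun z => (∑ j, w z j * pd j (fun y => w y i) z)
      - w z i * dv w z) := fun i =>
    (ContDiff.sum fun j _ => (sm_comp hw j).mul (sm_pd (sm_comp hw i) j)).sub
      ((sm_comp hw i).mul hdvs)
  have hF : ∀ i, ContDiff ℝ ∞ (F i) := fun i => (hψ.mul hψ).mul (hF0 i)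
  have hFc : ∀ i, HasCompactSupport (F i) := fun i => (hcs.mul_left).mul_right
  have hZ : Z (fun z => ∑ i, pd i (F i) z) := Z.sum fun i => Z_pd (hF i) (hFc i) i
  have hpdF : ∀ i z, pd i (F i) z = ψ z * ψ z
      * (∑ j, (w z j * pd i (pd j (fun y => w y i)) z
          + pd i (fun y => w y j) z * pd j (fun y => w y i) z)
        - (w z i * pd i (dv w) z + pd i (fun y => w y i) z * dv w z))
      + 2 * (ψ z * pd i ψ z) * ((∑ j, w z j * pd j (fun y => w y i) z) - w z i * dv w z) := by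
    intro i z
    have e1 : pd i (F i) z = ψ z * ψ z * pd i (fun z => (∑ j, w z j * pd j (fun y => w y i) z)
          - w z i * dv w z) z
        + pd i (fun z => ψ z * ψ z) z * ((∑ j, w z j * pd j (fun y => w y i) z)
          - w z i * dv w z) :=
      pd_mul' (hψ.mul hψ) (hF0 i) i z
    have e2 : pd i (fun z => ψ z * ψ z) z = ψ z * pd i ψ z + pd i ψ z * ψ z :=
      pd_mul' hψ hψ i z
    have e3 : ∀ j, pd i (fun z => w z j * pd j (fun y => w y i) z) z
        = w z j * pd i (pd j (fun y => w y i)) z + pd i (fun y => w y j) z * pd j (fun y => w y i) z :=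
      fun j => pd_mul' (sm_comp hw j) (sm_pd (sm_comp hw i) j) i z
    have e4 : pd i (fun z => w z i * dv w z) z
        = w z i * pd i (dv w) z + pd i (fun y => w y i) z * dv w z :=
      pd_mul' (sm_comp hw i) hdvs i z
    have hd1 : Differentiable ℝ (fun z => ∑ j, w z j * pd j (fun y => w y i) z) :=
      Pool.Agent.W135.MD.sm_diff (ContDiff.sum fun j _ =>
        (sm_comp hw j).mul (sm_pd (sm_comp hw i) j))
    have hd2 : Differentiable ℝ (fun z => w z i * dv w z) :=
      Pool.Agent.W135.MD.sm_diff ((sm_comp hw i).mul hdvs)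
    have e5 : pd i (fun z => (∑ j, w z j * pd j (fun y => w y i) z) - w z i * dv w z) z
        = pd i (fun z => ∑ j, w z j * pd j (fun y => w y i) z) z
          - pd i (fun z => w z i * dv w z) z := Pool.Agent.W135.MD.pd_sub' hd1 hd2 i z
    have e6 : pd i (fun z => ∑ j, w z j * pd j (fun y => w y i) z) z
        = ∑ j, pd i (fun z => w z j * pd j (fun y => w y i) z) z :=
      pd_sum3 (f := fun j z => w z j * pd j (fun y => w y i) z)
        (fun j => (sm_comp hw j).mul (sm_pd (sm_comp hw i) j)) i z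
    rw [e1, e2, e5, e6, e4]
    simp_rw [e3]
    ring
  have hpz : ∀ i, ∀ z ∉ ball a s, pd i (F i) z = 0 := by
    intro i z hz
    rw [hpdF, hs z hz]
    ring
  have hZ2 : ∫ z in ball a s, ∑ i, pd i (F i) z = 0 := by
    rw [setIntegral_eq_integral_of_forall_compl_eq_zero fun z hz => Finset.sum_eq_zero fun i _ =>
      hpz i z hz]
    exact hZ.2
  have hZc : Continuous (fun z => ∑ i, pd i (F i) z) :=
    continuous_finsetSum _ fun i _ => (sm_pd (hF i) i).continuous
  have hcg := (gsq_smooth hw).continuous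
  have hcn := (nsq_smooth hw).continuous
  have hcψ := hψ.continuous
  have hcd := hdvs.continuous
  have hdd : ∀ j z, pd j (dv w) z = ∑ i, pd j (pd i (fun y => w y i)) z := by
    intro j z
    exact pd_sum3 (f := fun i z => pd i (fun y => w y i) z)
      (fun i => sm_pd (sm_comp hw i) i) j z
  have key : ∀ z, ψ z ^ 2 * gsq w z
      ≤ 4 * dv w z ^ 2 + 2 * (∑ i, pd i (F i) z) + 18 * M ^ 2 * nsq w z := by
    intro z
    -- the third derivatives cancel
    have hc : ∀ i j, pd i (pd j (fun y => w y i)) z = pd j (pd i (fun y => w y i)) z := fun i j =>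
      Pool.Agent.W135.MD.pd_comm' (sm_comp hw i) i j z
    have e2 : ∑ i, pd i (F i) z = ψ z ^ 2 * gsq w z - ψ z ^ 2 * dv w z ^ 2
        + ∑ i, 2 * (ψ z * pd i ψ z) * ((∑ j, w z j * pd j (fun y => w y i) z)
          - w z i * dv w z) := by
      simp_rw [hpdF, hdd]
      have h01 := hd z 0 1
      have h02 := hd z 0 2
      have h12 := hd z 1 2
      have c01 := hc 0 1
      have c02 := hc 0 2
      have c10 := hc 1 0
      have c12 := hc 1 2
      have c20 := hc 2 0
      have c21 := hc 2 1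
      unfold gsq dv
      simp only [Fin.sum_univ_three]
      rw [c01, c02, c10, c12, c20, c21, h01, h02, h12]
      ring
    have hM2 : ∀ i, pd i ψ z ^ 2 ≤ M ^ 2 := fun i => by
      rw [← sq_abs (pd i ψ z)]
      exact pow_le_pow_left₀ (abs_nonneg _) (hM z i) 2
    have e4 : ∀ i j, -(2 * (ψ z * pd i ψ z) * (w z j * pd j (fun y => w y i) z))
        ≤ 1 / 2 * (ψ z ^ 2 * pd j (fun y => w y i) z ^ 2) + 2 * (M ^ 2 * w z j ^ 2) := by
      intro i j
      nlinarith [sq_nonneg (ψ z * pd j (fun y => w y i) z + 2 * (pd i ψ z * w z j)),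
        mul_le_mul_of_nonneg_right (hM2 i) (sq_nonneg (w z j))]
    have e5 : ∀ i, 2 * (ψ z * pd i ψ z) * (w z i * dv w z)
        ≤ 1 / 3 * (ψ z ^ 2 * dv w z ^ 2) + 3 * (M ^ 2 * w z i ^ 2) := by
      intro i
      nlinarith [sq_nonneg (ψ z * dv w z - 3 * (pd i ψ z * w z i)),
        mul_le_mul_of_nonneg_right (hM2 i) (sq_nonneg (w z i))]
    have e6 : -(∑ i, 2 * (ψ z * pd i ψ z) * ((∑ j, w z j * pd j (fun y => w y i) z)
          - w z i * dv w z)) ≤ 1 / 2 * (ψ z ^ 2 * gsq w z) + ψ z ^ 2 * dv w z ^ 2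
            + 9 * M ^ 2 * nsq w z := by
      have h6 := Finset.sum_le_sum fun (i : Fin 3) (_ : i ∈ Finset.univ) =>
        Finset.sum_le_sum fun (j : Fin 3) (_ : j ∈ Finset.univ) => e4 i j
      have h7 := Finset.sum_le_sum fun (i : Fin 3) (_ : i ∈ Finset.univ) => e5 i
      have h8 : ∑ i, ∑ j, (1 / 2 * (ψ z ^ 2 * pd j (fun y => w y i) z ^ 2)
          + 2 * (M ^ 2 * w z j ^ 2)) = 1 / 2 * (ψ z ^ 2 * gsq w z) + 6 * M ^ 2 * nsq w z := by
        unfold gsq nsq
        simp only [Fin.sum_univ_three]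
        ring
      have h9 : ∑ i : Fin 3, (1 / 3 * (ψ z ^ 2 * dv w z ^ 2) + 3 * (M ^ 2 * w z i ^ 2))
          = ψ z ^ 2 * dv w z ^ 2 + 3 * M ^ 2 * nsq w z := by
        unfold nsq
        simp only [Fin.sum_univ_three]
        ring
      rw [h8] at h6
      rw [h9] at h7
      have h10 : -(∑ i, 2 * (ψ z * pd i ψ z) * ((∑ j, w z j * pd j (fun y => w y i) z)
          - w z i * dv w z)) = (∑ i, ∑ j, -(2 * (ψ z * pd i ψ z)
            * (w z j * pd j (fun y => w y i) z)))
            + ∑ i, 2 * (ψ z * pd i ψ z) * (w z i * dv w z) := by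
        simp only [Fin.sum_univ_three]
        ring
      rw [h10]
      linarith
    have e7 : ψ z ^ 2 ≤ 1 := by
      rw [← sq_abs (ψ z)]
      exact pow_le_one₀ (abs_nonneg _) (h1 z)
    have e8 : ψ z ^ 2 * dv w z ^ 2 ≤ dv w z ^ 2 := mul_le_of_le_one_left (sq_nonneg _) e7
    linarith
  have h2 : ∫ z in ball a s, ψ z ^ 2 * gsq w z ≤ ∫ z in ball a s,
      (4 * dv w z ^ 2 + 2 * (∑ i, pd i (F i) z) + 18 * M ^ 2 * nsq w z) :=
    setIntegral_mono (int_ball (by fun_prop) a s) (int_ball (by fun_prop) a s) key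
  refine h2.trans (le_of_eq ?_)
  have i0 : IntegrableOn (fun z => 4 * dv w z ^ 2) (ball a s) := int_ball (by fun_prop) a s
  have i1 : IntegrableOn (fun z => 2 * (∑ i, pd i (F i) z)) (ball a s) :=
    int_ball (by fun_prop) a s
  have i2 : IntegrableOn (fun z => 4 * dv w z ^ 2 + 2 * (∑ i, pd i (F i) z)) (ball a s) :=
    i0.add i1
  have i3 : IntegrableOn (fun z => 18 * M ^ 2 * nsq w z) (ball a s) := int_ball (by fun_prop) a s
  rw [integral_add i2 i3, integral_add i0 i1, integral_const_mul, integral_const_mul, hZ2,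
    integral_const_mul]
  ring

/-- The second derivatives of the potential. -/
theorem low_L2 : ∃ C : ℝ, 1 ≤ C ∧ ∀ f : V → ℝ, ContDiff ℝ ∞ f → ∀ i k,
    ∫ x in ball (0 : V) 1, Bf i (pd k f) x ^ 2 ≤ C * ∫ x in ball (0 : V) 5, f x ^ 2 := by
  obtain ⟨M, hM0, hM⟩ := chi_bound
  have hK1 := K1_nonneg
  have hK0 := K0_nonneg
  refine ⟨1 + (4 * (2 + 16 * K0) + 18 * M ^ 2 * (24 * K1)), ?_, ?_⟩
  · have : 0 ≤ 4 * (2 + 16 * K0) + 18 * M ^ 2 * (24 * K1) := by positivity
    linarith
  intro f hf i k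
  set N := ∫ x in ball (0 : V) 5, f x ^ 2 with hN
  have hN0 : 0 ≤ N := integral_nonneg fun x => sq_nonneg _
  let w : V → V := fun x i => Bf i f x
  have hw : ContDiff ℝ ∞ w := contDiff_pi.2 fun i => Bf_smooth i hf
  have hpw : ∀ k i x, pd k (fun y => w y i) x = Bf i (pd k f) x := fun k i x => pd_Bf i k hf x
  have hdv : ∀ x, dv w x = kv et 1 f x - f x := by
    intro x
    have h1 : dv w x = ∑ i, Bf i (pd i f) x := Finset.sum_congr rfl fun i _ => hpw i i x
    rw [h1, Bf_div hf]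
  have h1 := divcurl2 hw chi_smooth (a := 0) (s := 4) (M := M)
      (fun z hz => chi_zero hz) hM (fun z => by
        rw [abs_of_nonneg chi.nonneg]; exact chi.le_one)
      (fun y i j => by rw [hpw, hpw, Bf_sym j i hf])
  have hfc := hf.continuous
  have hkc := (kv_smooth_x ker_et hf 1).continuous
  have h2 : ∫ z in ball (0 : V) 4, dv w z ^ 2 ≤ (2 + 16 * K0) * N := by
    have e1 : ∫ x in ball (0 : V) 4, dv w x ^ 2
        ≤ ∫ x in ball (0 : V) 4, (2 * f x ^ 2 + 2 * kv et 1 f x ^ 2) := by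
      have hdc : Continuous (dv w) :=
        continuous_finsetSum _ fun i _ => (sm_pd (sm_comp hw i) i).continuous
      refine setIntegral_mono (int_ball (hdc.pow 2) 0 4) (int_ball (by fun_prop) 0 4) fun x => ?_
      change dv w x ^ 2 ≤ _
      rw [hdv]
      nlinarith [sq_nonneg (f x + kv et 1 f x)]
    have e2 : ∫ x in ball (0 : V) 4, (2 * f x ^ 2 + 2 * kv et 1 f x ^ 2)
        = 2 * (∫ x in ball (0 : V) 4, f x ^ 2) + 2 * ∫ x in ball (0 : V) 4, kv et 1 f x ^ 2 := by
      rw [integral_add (int_ball (by fun_prop) 0 4) (int_ball (by fun_prop) 0 4),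
        integral_const_mul, integral_const_mul]
    have e3 := kv_L2 ker_et hfc 0 (ρ := 1) (r := 4) zero_le_one
    have e4 : ∫ x in ball (0 : V) 4, f x ^ 2 ≤ N :=
      ball_mono (hfc.pow 2) (fun x => sq_nonneg _) (ball_subset_ball (by norm_num))
    have e5 : ∫ x in ball (0 : V) (4 + 1), f x ^ 2 = N := by norm_num [hN]
    rw [e5] at e3
    change _ ≤ 8 * K0 * N at e3
    rw [e2] at e1
    linarith
  have h3 : ∫ z in ball (0 : V) 4, nsq w z ≤ 24 * K1 * N := by
    have hi4 : ∀ i, IntegrableOn (fun x => w x i ^ 2) (ball (0 : V) 4) := fun i =>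
      int_ball ((sm_comp hw i).continuous.pow 2) 0 4
    unfold nsq
    rw [integral_finsetSum _ fun i _ => hi4 i]
    have h4 : ∀ i, ∫ z in ball (0 : V) 4, w z i ^ 2 ≤ 8 * K1 * N := by
      intro i
      refine (Bf_L2 i hf 0 4).trans (le_of_eq ?_)
      norm_num [hN]
    calc ∑ i, ∫ z in ball (0 : V) 4, w z i ^ 2 ≤ ∑ _i : Fin 3, 8 * K1 * N :=
          Finset.sum_le_sum fun i _ => h4 i
      _ = _ := by simp; ring
  have h4 : ∫ x in ball (0 : V) 1, Bf i (pd k f) x ^ 2
      ≤ ∫ z in ball (0 : V) 4, chi z ^ 2 * gsq w z := by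
    have hc : Continuous fun z : V => chi z ^ 2 * gsq w z :=
      (chi_smooth.continuous.pow 2).mul (gsq_smooth hw).continuous
    have h5 : ∫ x in ball (0 : V) 1, Bf i (pd k f) x ^ 2
        ≤ ∫ x in ball (0 : V) 1, chi x ^ 2 * gsq w x := by
      refine setIntegral_mono_on (int_ball ((Bf_smooth i (sm_pd hf k)).continuous.pow 2) 0 1)
        (int_ball hc 0 1) measurableSet_ball fun z hz => ?_
      have h6 : chi z = 1 := chi.one_of_mem_closedBall
        (ball_subset_closedBall (ball_subset_ball (show (1 : ℝ) ≤ 2 by norm_num) hz))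
      rw [h6, one_pow, one_mul, ← hpw k i]
      exact (Finset.single_le_sum (f := fun j => pd j (fun y => w y i) z ^ 2)
        (fun _ _ => sq_nonneg _) (Finset.mem_univ k)).trans
        (Finset.single_le_sum (f := fun i => ∑ j, pd j (fun y => w y i) z ^ 2)
          (fun _ _ => Finset.sum_nonneg fun _ _ => sq_nonneg _) (Finset.mem_univ i))
    exact h5.trans (ball_mono hc (fun x => mul_nonneg (sq_nonneg _) (gsq_nonneg _ _))
      (ball_subset_ball (by norm_num)))
  calc ∫ x in ball (0 : V) 1, Bf i (pd k f) x ^ 2 ≤ _ := h4.trans h1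
    _ ≤ 4 * ((2 + 16 * K0) * N) + 18 * M ^ 2 * (24 * K1 * N) := by gcongr
    _ ≤ _ := by
        have : 0 ≤ N := hN0
        linarith

end Pool.Agent.H946.NS
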