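import Pool.Agent.H946_NS.CF2

/-!
The stretching term, if the direction of the vorticity varies little.
-/

set_option autoImplicit false

open MeasureTheory Set Metric Filter Topology
open scoped ContDiff ENNReal

namespace Pool.Agent.H946.NS

open H459R3.NS W221.NS Pool.Agent.W583.MD

/-- The square of the length of the vector product. -/
noncomputable def xsq (a b : V) : ℝ := (∑ i, ∑ j, (a i * b j - a j * b i) ^ 2) / 2

theorem xsq_nonneg (a b : V) : 0 ≤ xsq a b :=
  div_nonneg (Finset.sum_nonneg fun _ _ => Finset.sum_nonneg fun _ _ => sq_nonneg _) (by norm_num)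

/-- In the ball of radius `s` around `x` the angle between the vorticities at `y` and `z`, if both
are longer than `L`, has a sine of at most `R √|y - z|`. -/
def Coh (R L s : ℝ) (x : V) (v : V → V) : Prop := ∀ y ∈ ball x s, ∀ z ∈ ball x s,
  L ^ 2 < vsq v y → L ^ 2 < vsq v z →
    xsq (vort v y) (vort v z) ≤ R ^ 2 * ‖y - z‖ * (vsq v y * vsq v z)

theorem str_vort (v : V → V) (z : V) : str v z = 4 * (vsq v z * dv v z
    - ∑ j, ∑ k, vort v z j * vort v z k * pd k (fun y => v y j) z) := by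
  unfold str vsq vort om dv
  simp only [Fin.sum_univ_three, Matrix.cons_val_zero, Matrix.cons_val_one, Matrix.cons_val]
  ring

theorem om_tri (v : V → V) (w y a : V) : ∑ i, ∑ j, y i * a j * om v i j w
    = y 0 * (a 1 * vort v w 2 - a 2 * vort v w 1) + y 1 * (a 2 * vort v w 0 - a 0 * vort v w 2)
      + y 2 * (a 0 * vort v w 1 - a 1 * vort v w 0) := by
  unfold vort om
  simp only [Fin.sum_univ_three, Matrix.cons_val_zero, Matrix.cons_val_one, Matrix.cons_val]
  ring

theorem om_tri_sq (v : V → V) (w y a : V) : (∑ i, ∑ j, y i * a j * om v i j w) ^ 2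
    ≤ (∑ i, y i ^ 2) * xsq a (vort v w) := by
  rw [om_tri]
  set p := a 1 * vort v w 2 - a 2 * vort v w 1 with hp
  set q := a 2 * vort v w 0 - a 0 * vort v w 2 with hq
  set r := a 0 * vort v w 1 - a 1 * vort v w 0 with hr
  have e : xsq a (vort v w) = p ^ 2 + q ^ 2 + r ^ 2 := by
    unfold xsq
    simp only [Fin.sum_univ_three, hp, hq, hr]
    ring
  rw [e]
  simp only [Fin.sum_univ_three]
  nlinarith [sq_nonneg (y 0 * q - y 1 * p), sq_nonneg (y 0 * r - y 2 * p),
    sq_nonneg (y 1 * r - y 2 * q)]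

/-! ### The low and the high vorticity -/

/-- A smooth function, `1` up to `1` and `0` from `2` on. -/
noncomputable def tb : ContDiffBump (0 : ℝ) := ⟨1, 2, by norm_num, by norm_num⟩

/-- The low vorticity. -/
noncomputable def lv (L : ℝ) (v : V → V) (i j : Fin 3) (x : V) : ℝ := tb (osq v x / L) * om v i j x

/-- The high vorticity. -/
noncomputable def hv (L : ℝ) (v : V → V) (i j : Fin 3) (x : V) : ℝ := om v i j x - lv L v i j x

theorem lv_smooth {v : V → V} (hs : ContDiff ℝ ∞ v) (L : ℝ) (i j : Fin 3) :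
    ContDiff ℝ ∞ (lv L v i j) :=
  (tb.contDiff.comp ((osq_smooth hs).div_const L)).mul (om_smooth hs i j)

theorem hv_smooth {v : V → V} (hs : ContDiff ℝ ∞ v) (L : ℝ) (i j : Fin 3) :
    ContDiff ℝ ∞ (hv L v i j) := (om_smooth hs i j).sub (lv_smooth hs L i j)

theorem tb_one {s : ℝ} (h0 : 0 ≤ s) (h1 : s ≤ 1) : tb s = 1 := tb.one_of_mem_closedBall (by
  rw [mem_closedBall_zero_iff, Real.norm_eq_abs, abs_of_nonneg h0]
  exact h1)

theorem tb_zero {s : ℝ} (h : 2 ≤ s) : tb s = 0 := by
  by_contra hc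
  have h1 : s ∈ Function.support tb := hc
  rw [tb.support_eq, mem_ball_zero_iff, Real.norm_eq_abs] at h1
  have h2 : |s| < 2 := h1
  linarith [le_abs_self s]

theorem lv_sq {L : ℝ} (hL : 0 < L) (v : V → V) (i j : Fin 3) (x : V) :
    lv L v i j x ^ 2 ≤ √(2 * L) * √(osq v x) := by
  have h0 := osq_nonneg v x
  have ht0 : 0 ≤ tb (osq v x / L) := tb.nonneg
  have ht1 : tb (osq v x / L) ≤ 1 := tb.le_one
  unfold lv
  rcases le_total (2 * L) (osq v x) with h | h
  · have h1 : 2 ≤ osq v x / L := by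
      rw [le_div_iff₀ hL]
      exact h
    rw [tb_zero h1, zero_mul, zero_pow two_ne_zero]
    positivity
  · have h1 : (tb (osq v x / L) * om v i j x) ^ 2 ≤ osq v x := by
      rw [mul_pow]
      have h2 : tb (osq v x / L) ^ 2 ≤ 1 := pow_le_one₀ ht0 ht1
      calc tb (osq v x / L) ^ 2 * om v i j x ^ 2 ≤ 1 * om v i j x ^ 2 :=
            mul_le_mul_of_nonneg_right h2 (sq_nonneg _)
        _ ≤ osq v x := by rw [one_mul]; exact om_sq_le v i j x
    have h3 : √(osq v x) ≤ √(2 * L) := Real.sqrt_le_sqrt h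
    calc _ ≤ osq v x := h1
      _ = √(osq v x) * √(osq v x) := (Real.mul_self_sqrt h0).symm
      _ ≤ _ := mul_le_mul_of_nonneg_right h3 (Real.sqrt_nonneg _)

theorem hv_eq (L : ℝ) (v : V → V) (i j : Fin 3) (x : V) :
    hv L v i j x = (1 - tb (osq v x / L)) * om v i j x := by
  unfold hv lv
  ring

theorem hv_anti (L : ℝ) (v : V → V) (i j : Fin 3) (x : V) : hv L v i j x = -hv L v j i x := by
  rw [hv_eq, hv_eq]
  unfold om
  ring

/-- The vector product with the high vorticity. -/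
theorem hv_tri {R L ρ : ℝ} (hR : 0 ≤ R) (hL : 0 < L) (hρ : 0 ≤ ρ) (hρ1 : ρ ≤ 1) {v : V → V}
    (hc : Coh R L 2 0 v) {z y : V} (hz : z ∈ ball (0 : V) 1) (hy : y ∈ ball (0 : V) 1)
    (hzL : L ^ 2 < vsq v z) :
    |∑ i, ∑ j, y i * vort v z j * hv (2 * L ^ 2) v i j (z + ρ • y)|
      ≤ 2 * (R * √ρ * (√(vsq v z) * √(osq v (z + ρ • y)))) := by
  set w := z + ρ • y with hw
  have hy1 : ‖y‖ < 1 := mem_ball_zero_iff.1 hy
  have hz1 : ‖z‖ < 1 := mem_ball_zero_iff.1 hz
  have hL2 : 0 < 2 * L ^ 2 := by positivity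
  have e1 : ∑ i, ∑ j, y i * vort v z j * hv (2 * L ^ 2) v i j w
      = (1 - tb (osq v w / (2 * L ^ 2))) * ∑ i, ∑ j, y i * vort v z j * om v i j w := by
    simp_rw [hv_eq]
    simp only [Fin.sum_univ_three]
    ring
  have ht0 : 0 ≤ tb (osq v w / (2 * L ^ 2)) := tb.nonneg
  have ht1 : tb (osq v w / (2 * L ^ 2)) ≤ 1 := tb.le_one
  have hr0 : 0 ≤ 2 * (R * √ρ * (√(vsq v z) * √(osq v w))) := by positivity
  rcases le_total (osq v w) (2 * L ^ 2) with h | h
  · have h1 : osq v w / (2 * L ^ 2) ≤ 1 := by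
      rw [div_le_one hL2]
      exact h
    rw [e1, tb_one (div_nonneg (osq_nonneg v w) hL2.le) h1, sub_self, zero_mul, abs_zero]
    exact hr0
  · rcases eq_or_lt_of_le h with h | h
    · have h1 : osq v w / (2 * L ^ 2) ≤ 1 := by
        rw [div_le_one hL2]
        exact h.symm.le
      rw [e1, tb_one (div_nonneg (osq_nonneg v w) hL2.le) h1, sub_self, zero_mul, abs_zero]
      exact hr0
    · have hwL : L ^ 2 < vsq v w := by
        have := osq_vsq v w
        linarith
      have hw2 : w ∈ ball (0 : V) 2 := by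
        rw [mem_ball_zero_iff, hw]
        have h1 := norm_add_le z (ρ • y)
        rw [norm_smul, Real.norm_of_nonneg hρ] at h1
        nlinarith
      have h1 := hc z (ball_subset_ball (by norm_num) hz) w hw2 hzL hwL
      have hzw : ‖z - w‖ ≤ ρ := by
        rw [hw, sub_add_cancel_left, norm_neg, norm_smul, Real.norm_of_nonneg hρ]
        nlinarith
      have h2 : (∑ i, ∑ j, y i * vort v z j * om v i j w) ^ 2
          ≤ 3 * (R ^ 2 * ρ * (vsq v z * vsq v w)) := by
        refine (om_tri_sq v w y (vort v z)).trans ?_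
        have h3 : ∑ i, y i ^ 2 ≤ 3 := by
          have h4 : ∀ i, y i ^ 2 ≤ 1 := by
            intro i
            have h5 : |y i| ≤ 1 := (Real.norm_eq_abs (y i) ▸ norm_le_pi_norm y i).trans hy1.le
            rw [← sq_abs]
            exact pow_le_one₀ (abs_nonneg _) h5
          calc ∑ i, y i ^ 2 ≤ ∑ _i : Fin 3, (1 : ℝ) := Finset.sum_le_sum fun i _ => h4 i
            _ = 3 := by simp
        have h4 : R ^ 2 * ‖z - w‖ * (vsq v z * vsq v w) ≤ R ^ 2 * ρ * (vsq v z * vsq v w) := by
          have := vsq_nonneg v z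
          have := vsq_nonneg v w
          gcongr
        exact mul_le_mul h3 (h1.trans h4) (xsq_nonneg _ _) (by norm_num)
      have h3 : |∑ i, ∑ j, y i * vort v z j * om v i j w|
          ≤ 2 * (R * √ρ * (√(vsq v z) * √(osq v w))) := by
        refine abs_le_of_sq_le_sq (h2.trans ?_) hr0
        rw [mul_pow, mul_pow, mul_pow, mul_pow, Real.sq_sqrt hρ, Real.sq_sqrt (vsq_nonneg v z),
          Real.sq_sqrt (osq_nonneg v w), osq_vsq v w]
        have : 0 ≤ R ^ 2 * ρ * (vsq v z * vsq v w) :=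
          mul_nonneg (by positivity) (mul_nonneg (vsq_nonneg _ _) (vsq_nonneg _ _))
        nlinarith
      rw [e1, abs_mul, abs_of_nonneg (by linarith)]
      calc _ ≤ 1 * |∑ i, ∑ j, y i * vort v z j * om v i j w| :=
            mul_le_mul_of_nonneg_right (by linarith) (abs_nonneg _)
        _ ≤ _ := by rw [one_mul]; exact h3

/-! ### The representation of the gradient -/

theorem et_bound : ∃ M : ℝ, 0 ≤ M ∧ ∀ z i, |pd i et z| ≤ M := by
  have h1 : ∀ i : Fin 3, ∃ C, ∀ z : V, ‖pd i et z‖ ≤ C := fun i =>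
    (ker_et.pd i).cs.exists_bound_of_continuous (ker_et.pd i).sm.continuous
  choose C hC using h1
  have hC0 : ∀ i, 0 ≤ C i := fun i => (norm_nonneg _).trans (hC i 0)
  refine ⟨∑ i, C i, Finset.sum_nonneg fun i _ => hC0 i, fun z i => ?_⟩
  exact (hC i z).trans (Finset.single_le_sum (f := C) (fun j _ => hC0 j) (Finset.mem_univ i))

/-- The derivative of the averaged gradient in the scale, another form. -/
theorem grad_scale0 {v : V → V} (hs : ContDiff ℝ ∞ v) {x : V} {R ρ : ℝ} (hR : 0 < R) (hρ0 : 0 ≤ ρ)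
    (hρ : ρ ≤ R) (hd : ∀ y ∈ ball x R, dv v y = 0) (k j : Fin 3) :
    HasDerivAt (fun ρ => kv et ρ (pd k (fun y => v y j)) x)
      (∑ i, kv (fun z => z i * et z) ρ (pd k (om v i j)) x) ρ := by
  let v' : V → V := fun y i => pd k (fun w => v w i) y
  have hv' : ContDiff ℝ ∞ v' := contDiff_pi.2 fun i => sm_pd (sm_comp hs i) k
  have hd' : ∀ y ∈ ball x R, dv v' y = 0 := by
    intro y hy
    have h1 : dv v' y = ∑ i, pd i (pd k (fun w => v w i)) y := rfl
    rw [h1]
    exact pd_dv_zero hs isOpen_ball hd hy k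
  have h1 := ra_scale hv' hR hρ0 hρ hd' j
  refine h1.congr_deriv ?_
  have h2 : ∀ i, om v' i j = pd k (om v i j) := by
    intro i
    funext y
    have e1 : pd k (om v i j) y = pd k (pd i (fun y => v y j)) y - pd k (pd j (fun y => v y i)) y :=
      Pool.Agent.W135.MD.pd_sub' (Pool.Agent.W135.MD.sm_diff (sm_pd (sm_comp hs j) i))
        (Pool.Agent.W135.MD.sm_diff (sm_pd (sm_comp hs i) j)) k y
    rw [e1, Pool.Agent.W135.MD.pd_comm' (sm_comp hs j) k i y,
      Pool.Agent.W135.MD.pd_comm' (sm_comp hs i) k j y]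
    rfl
  simp_rw [h2]

theorem grad_rep {v : V → V} (hs : ContDiff ℝ ∞ v) {x : V} (hd : ∀ y ∈ ball x 1, dv v y = 0)
    (k j : Fin 3) : pd k (fun y => v y j) x = kv et 1 (pd k (fun y => v y j)) x
      - ∑ i, Bf i (pd k (om v i j)) x := by
  have hsm : ∀ i, ContDiff ℝ ∞ (pd k (om v i j)) := fun i => sm_pd (om_smooth hs i j) k
  have h1 : ∫ ρ in (0 : ℝ)..1, ∑ i, kv (fun z => z i * et z) ρ (pd k (om v i j)) x
      = kv et 1 (pd k (fun y => v y j)) x - kv et 0 (pd k (fun y => v y j)) x := by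
    refine intervalIntegral.integral_eq_sub_of_hasDerivAt
      (f := fun ρ => kv et ρ (pd k (fun y => v y j)) x) (fun ρ hρ => ?_) ?_
    · rw [uIcc_of_le zero_le_one] at hρ
      exact grad_scale0 hs one_pos hρ.1 hρ.2 hd k j
    · exact (continuous_finsetSum _ fun i _ => kc (ker_et.coord i) (hsm i) x).intervalIntegrable _ _
  rw [kv_et_zero, intervalIntegral.integral_of_le zero_le_one,
    integral_finsetSum _ fun i _ => ion (kc (ker_et.coord i) (hsm i) x)] at h1
  unfold Bf
  linarith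

theorem Bf_split {v : V → V} (hs : ContDiff ℝ ∞ v) (L : ℝ) (i j k : Fin 3) (x : V) :
    Bf i (pd k (om v i j)) x = Bf i (pd k (lv L v i j)) x + Bf i (pd k (hv L v i j)) x := by
  rw [← Bf_add i (sm_pd (lv_smooth hs L i j) k) (sm_pd (hv_smooth hs L i j) k)]
  congr 1
  funext y
  have e : om v i j = fun x => lv L v i j x - (-hv L v i j x) := by
    funext x
    unfold hv
    ring
  have h1 : pd k (om v i j) y = pd k (lv L v i j) y - pd k (fun x => -hv L v i j x) y := by
    conv_lhs => rw [e]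
    exact Pool.Agent.W135.MD.pd_sub' (Pool.Agent.W135.MD.sm_diff (lv_smooth hs L i j))
      (Pool.Agent.W135.MD.sm_diff (hv_smooth hs L i j).neg) k y
  have h2 : pd k (fun x => -hv L v i j x) y = -pd k (hv L v i j) y := by
    unfold pd
    rw [fderiv_fun_neg]
    simp
  rw [h1, h2]
  ring

end Pool.Agent.H946.NS
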