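import Pool.Agent.H946_NS.CF3

/-!
The stretching term, if the direction of the vorticity varies little: the pointwise estimate.
-/

set_option autoImplicit false

open MeasureTheory Set Metric Filter Topology
open scoped ContDiff ENNReal

namespace Pool.Agent.H946.NS

open H459R3.NS W221.NS Pool.Agent.W583.MD

/-- The second derivatives of the potentials of the low vorticity. -/
noncomputable def Tl (L : ℝ) (v : V → V) (z : V) : ℝ :=
  ∑ i, ∑ j, ∑ k, |Bf i (pd k (lv L v i j)) z|

/-- The average of the length of the vorticity at the scale `ρ`. -/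
noncomputable def Ah (v : V → V) (ρ : ℝ) (z : V) : ℝ :=
  ∫ y in closedBall (0 : V) 1, √(osq v (z + ρ • y))

/-- The fractional integral of the length of the vorticity. -/
noncomputable def Ih (v : V → V) (z : V) : ℝ :=
  ∫ ρ in Ioc (0 : ℝ) 1, ρ ^ (-(1 / 2) : ℝ) * Ah v ρ z

theorem Ah_nonneg (v : V → V) (ρ : ℝ) (z : V) : 0 ≤ Ah v ρ z :=
  integral_nonneg fun _ => Real.sqrt_nonneg _

theorem Ih_nonneg (v : V → V) (z : V) : 0 ≤ Ih v z :=
  setIntegral_nonneg measurableSet_Ioc fun ρ hρ =>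
    mul_nonneg (Real.rpow_nonneg hρ.1.le _) (Ah_nonneg v ρ z)

theorem Tl_nonneg (L : ℝ) (v : V → V) (z : V) : 0 ≤ Tl L v z :=
  Finset.sum_nonneg fun _ _ => Finset.sum_nonneg fun _ _ => Finset.sum_nonneg fun _ _ => abs_nonneg _

theorem par_cont {G : V → ℝ} (hg : Continuous G) :
    Continuous fun q : ℝ × V => ∫ y in closedBall (0 : V) 1, G (q.2 + q.1 • y) := by
  have hc : Continuous (Function.uncurry fun (q : ℝ × V) (y : V) => G (q.2 + q.1 • y)) :=
    hg.comp (by fun_prop)
  have hk : IsCompact (closedBall (0 : V) 1) := isCompact_closedBall 0 1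
  have := continuous_parametric_integral_of_continuous (X := ℝ × V) (Y := V) (E := ℝ)
    (μ := (volume : Measure V)) hc hk
  exact this

theorem Ah_cont {v : V → V} (hs : ContDiff ℝ ∞ v) :
    Continuous (fun q : ℝ × V => Ah v q.1 q.2) :=
  par_cont (osq_smooth hs).continuous.sqrt

theorem rp_int : IntegrableOn (fun ρ : ℝ => ρ ^ (-(1 / 2) : ℝ)) (Ioc 0 1) := by
  have h := intervalIntegral.intervalIntegrable_rpow' (a := (0 : ℝ)) (b := 1)
    (r := -(1 / 2 : ℝ)) (by norm_num)
  exact (intervalIntegrable_iff_integrableOn_Ioc_of_le zero_le_one).1 h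

theorem rp_Ah_int {v : V → V} (hs : ContDiff ℝ ∞ v) (z : V) :
    IntegrableOn (fun ρ : ℝ => ρ ^ (-(1 / 2) : ℝ) * Ah v ρ z) (Ioc 0 1) := by
  have hc : Continuous fun ρ => Ah v ρ z :=
    Continuous.comp (g := fun q : ℝ × V => Ah v q.1 q.2) (f := fun ρ : ℝ => ((ρ, z) : ℝ × V))
      (Ah_cont hs) (by fun_prop)
  obtain ⟨C, hC⟩ := (isCompact_Icc (a := (0 : ℝ)) (b := 1)).exists_bound_of_continuousOn
    hc.continuousOn
  refine Integrable.mul_bdd (c := C) rp_int hc.aestronglyMeasurable ?_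
  filter_upwards [ae_restrict_mem measurableSet_Ioc] with ρ hρ
  exact hC ρ (Ioc_subset_Icc_self hρ)

theorem sum_abs_sq (a : V) : (∑ j, |a j|) ^ 2 ≤ 3 * ∑ j, a j ^ 2 := by
  have := sq_sum_le_card_mul_sum_sq (s := (Finset.univ : Finset (Fin 3))) (f := fun j => |a j|)
  simpa [sq_abs] using this

/-- The high part, at one scale. -/
theorem high_scale {M R L : ℝ} (hM0 : 0 ≤ M) (hM : ∀ z i, |pd i et z| ≤ M) (hR : 0 ≤ R)
    (hL : 0 < L) {v : V → V} (hs : ContDiff ℝ ∞ v) (hc : Coh R L 2 0 v) {z : V}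
    (hz : z ∈ ball (0 : V) 1) (hzL : L ^ 2 < vsq v z) {ρ : ℝ} (hρ : ρ ∈ Ioc (0 : ℝ) 1) :
    |∑ i, ∑ j, ∑ k, vort v z j * vort v z k
      * kv (fun z => z i * et z) ρ (pd k (hv (2 * L ^ 2) v i j)) z|
      ≤ 4 * M * R * vsq v z * (ρ ^ (-(1 / 2) : ℝ) * Ah v ρ z) := by
  set a := vort v z with ha
  have hρ0 : 0 < ρ := hρ.1
  set H : Fin 3 → Fin 3 → V → ℝ := fun i j => hv (2 * L ^ 2) v i j with hH
  have hHs : ∀ i j, ContDiff ℝ ∞ (H i j) := fun i j => hv_smooth hs _ i j
  have hk : ∀ i, Ker (fun z : V => z i * et z) := fun i => ker_et.coord i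
  have e1 : ∀ i j k, kv (fun z => z i * et z) ρ (pd k (H i j)) z
      = -(ρ⁻¹ * kv (pd k (fun z => z i * et z)) ρ (H i j) z) := by
    intro i j k
    rw [kv_ibp (hk i) (hHs i j) ρ k z]
    field_simp
  have e2 : ∀ i k y, pd k (fun z : V => z i * et z) y
      = y i * pd k et y + (if i = k then 1 else 0) * et y := by
    intro i k y
    have h1 : pd k (fun z : V => z i * et z) y
        = y i * pd k et y + pd k (fun z : V => z i) y * et y :=
      pd_mul' (contDiff_apply ℝ ℝ i) et_smooth k y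
    rw [h1]
    congr 2
    unfold pd
    have h2 : HasFDerivAt (fun z : V => z i) (ContinuousLinearMap.proj (R := ℝ)
        (φ := fun _ : Fin 3 => ℝ) i) y := (ContinuousLinearMap.proj (R := ℝ)
        (φ := fun _ : Fin 3 => ℝ) i).hasFDerivAt
    rw [h2.fderiv]
    simp [Pi.single_apply]
  have hint : ∀ i j k, Integrable fun y => pd k (fun z : V => z i * et z) y * H i j (z + ρ • y) :=
    fun i j k => kv_cont_int ((hk i).pd k) (hHs i j).continuous ρ z
  have e3 : ∑ i, ∑ j, ∑ k, a j * a k * kv (fun z => z i * et z) ρ (pd k (H i j)) z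
      = -(ρ⁻¹ * ∫ y in ball (0 : V) 1, (∑ k, a k * pd k et y)
        * ∑ i, ∑ j, y i * a j * H i j (z + ρ • y)) := by
    simp_rw [e1]
    have h1 : ∑ i, ∑ j, ∑ k, a j * a k * -(ρ⁻¹ * kv (pd k (fun z => z i * et z)) ρ (H i j) z)
        = -(ρ⁻¹ * ∑ i, ∑ j, ∑ k, a j * a k * kv (pd k (fun z => z i * et z)) ρ (H i j) z) := by
      simp only [Fin.sum_univ_three]
      ring
    rw [h1]
    congr 2
    have h2 : ∑ i, ∑ j, ∑ k, a j * a k * kv (pd k (fun z => z i * et z)) ρ (H i j) z
        = ∫ y, ∑ i, ∑ j, ∑ k, a j * a k * (pd k (fun z : V => z i * et z) y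
          * H i j (z + ρ • y)) := by
      rw [integral_finsetSum _ fun i _ => integrable_finsetSum _ fun j _ =>
        integrable_finsetSum _ fun k _ => (hint i j k).const_mul _]
      refine Finset.sum_congr rfl fun i _ => ?_
      rw [integral_finsetSum _ fun j _ => integrable_finsetSum _ fun k _ =>
        (hint i j k).const_mul _]
      refine Finset.sum_congr rfl fun j _ => ?_
      rw [integral_finsetSum _ fun k _ => (hint i j k).const_mul _]
      refine Finset.sum_congr rfl fun k _ => ?_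
      rw [integral_const_mul]
      rfl
    rw [h2, ← setIntegral_eq_integral_of_forall_compl_eq_zero (s := ball (0 : V) 1)]
    · refine integral_congr_ae (Eventually.of_forall fun y => ?_)
      simp only [e2]
      have hA : ∀ i j, H i j (z + ρ • y) = -H j i (z + ρ • y) := fun i j => hv_anti _ v i j _
      have h00 := hA 0 0
      have h11 := hA 1 1
      have h22 := hA 2 2
      have g00 : H 0 0 (z + ρ • y) = 0 := by linarith
      have g11 : H 1 1 (z + ρ • y) = 0 := by linarith
      have g22 : H 2 2 (z + ρ • y) = 0 := by linarith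
      have g10 := hA 1 0
      have g20 := hA 2 0
      have g21 := hA 2 1
      simp only [Fin.sum_univ_three, g00, g11, g22, g10, g20, g21]
      simp only [Fin.isValue, if_true, Fin.reduceEq, if_false]
      ring
    · intro y hy
      refine Finset.sum_eq_zero fun i _ => Finset.sum_eq_zero fun j _ =>
        Finset.sum_eq_zero fun k _ => ?_
      rw [((hk i).pd k).zero y hy]
      ring
  rw [e3, abs_neg, abs_mul, abs_of_pos (inv_pos.2 hρ0)]
  have hva := vsq_nonneg v z
  have hbd : ∀ y ∈ ball (0 : V) 1, ‖(∑ k, a k * pd k et y)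
        * ∑ i, ∑ j, y i * a j * H i j (z + ρ • y)‖
      ≤ (4 * M * R * vsq v z * √ρ) * √(osq v (z + ρ • y)) := by
    intro y hy
    rw [norm_mul, Real.norm_eq_abs, Real.norm_eq_abs]
    have h1 := hv_tri hR hL hρ0.le hρ.2 hc hz hy hzL
    have h2 : |∑ k, a k * pd k et y| ≤ 2 * M * √(vsq v z) := by
      have h3 : |∑ k, a k * pd k et y| ≤ ∑ k, |a k| * M := by
        refine (Finset.abs_sum_le_sum_abs _ _).trans (Finset.sum_le_sum fun k _ => ?_)
        rw [abs_mul]
        exact mul_le_mul_of_nonneg_left (hM y k) (abs_nonneg _)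
      have h4 : ∑ k, |a k| ≤ 2 * √(vsq v z) := by
        have h5 := sum_abs_sq a
        refine le_of_sq_le_sq ?_ (by positivity)
        rw [mul_pow, Real.sq_sqrt hva]
        refine h5.trans ?_
        have : ∑ j, a j ^ 2 = vsq v z := rfl
        rw [this]
        linarith
      rw [← Finset.sum_mul] at h3
      calc _ ≤ (∑ k, |a k|) * M := h3
        _ ≤ (2 * √(vsq v z)) * M := mul_le_mul_of_nonneg_right h4 hM0
        _ = _ := by ring
    have h5 : √(vsq v z) * √(vsq v z) = vsq v z := Real.mul_self_sqrt hva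
    calc _ ≤ (2 * M * √(vsq v z)) * (2 * (R * √ρ * (√(vsq v z) * √(osq v (z + ρ • y))))) :=
          mul_le_mul h2 h1 (abs_nonneg _) (by positivity)
      _ = 4 * M * R * (√(vsq v z) * √(vsq v z)) * √ρ * √(osq v (z + ρ • y)) := by ring
      _ = _ := by rw [h5]
  have hoc : Continuous fun y : V => √(osq v (z + ρ • y)) :=
    ((osq_smooth hs).continuous.comp (by fun_prop)).sqrt
  have h6 : |∫ y in ball (0 : V) 1, (∑ k, a k * pd k et y)
        * ∑ i, ∑ j, y i * a j * H i j (z + ρ • y)|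
      ≤ (4 * M * R * vsq v z * √ρ) * ∫ y in ball (0 : V) 1, √(osq v (z + ρ • y)) := by
    rw [← Real.norm_eq_abs]
    refine (norm_integral_le_of_norm_le
      ((int_ball hoc 0 1).const_mul (4 * M * R * vsq v z * √ρ)) ?_).trans (le_of_eq ?_)
    · filter_upwards [ae_restrict_mem measurableSet_ball] with y hy
      exact hbd y hy
    · rw [integral_const_mul]
  have h6' : ∫ y in ball (0 : V) 1, √(osq v (z + ρ • y)) ≤ Ah v ρ z :=
    setIntegral_mono_set (hoc.continuousOn.integrableOn_compact (isCompact_closedBall 0 1))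
      (Eventually.of_forall fun _ => Real.sqrt_nonneg _) ball_subset_closedBall.eventuallyLE
  have h7 : ρ⁻¹ * √ρ = ρ ^ (-(1 / 2) : ℝ) := by
    rw [Real.sqrt_eq_rpow, ← Real.rpow_neg_one, ← Real.rpow_add hρ0]
    norm_num
  calc ρ⁻¹ * _ ≤ ρ⁻¹ * ((4 * M * R * vsq v z * √ρ) * Ah v ρ z) :=
        mul_le_mul_of_nonneg_left (h6.trans (mul_le_mul_of_nonneg_left h6' (by positivity)))
          (inv_nonneg.2 hρ0.le)
    _ = 4 * M * R * vsq v z * ((ρ⁻¹ * √ρ) * Ah v ρ z) := by ring
    _ = _ := by rw [h7]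

end Pool.Agent.H946.NS
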