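import Pool.Agent.H946_NS.CF4

/-!
The stretching term, if the direction of the vorticity varies little: the pointwise estimate.
-/

set_option autoImplicit false

open MeasureTheory Set Metric Filter Topology
open scoped ContDiff ENNReal

namespace Pool.Agent.H946.NS

open H459R3.NS W221.NS Pool.Agent.W583.MD

theorem vsq_eq_sum (v : V → V) (z : V) : ∑ j, vort v z j ^ 2 = vsq v z := rfl

theorem vort_abs_le (v : V → V) (z : V) (j : Fin 3) : |vort v z j| ≤ √(vsq v z) := by
  apply Real.abs_le_sqrt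
  rw [← vsq_eq_sum]
  exact Finset.single_le_sum (f := fun j => vort v z j ^ 2) (fun _ _ => sq_nonneg _)
    (Finset.mem_univ j)

theorem quad_le (v : V → V) (z : V) {A : Fin 3 → Fin 3 → ℝ} {G : ℝ} (hG0 : 0 ≤ G)
    (hG : ∀ j k, |A j k| ≤ G) :
    |∑ j, ∑ k, vort v z j * vort v z k * A j k| ≤ 3 * (G * vsq v z) := by
  have h1 : |∑ j, ∑ k, vort v z j * vort v z k * A j k| ≤ (∑ j, |vort v z j|) ^ 2 * G := by
    calc |∑ j, ∑ k, vort v z j * vort v z k * A j k|
        ≤ ∑ j, ∑ k, |vort v z j| * |vort v z k| * G := by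
          refine (Finset.abs_sum_le_sum_abs _ _).trans (Finset.sum_le_sum fun j _ => ?_)
          refine (Finset.abs_sum_le_sum_abs _ _).trans (Finset.sum_le_sum fun k _ => ?_)
          rw [abs_mul, abs_mul]
          exact mul_le_mul_of_nonneg_left (hG j k) (by positivity)
      _ = _ := by
          simp only [Fin.sum_univ_three]
          ring
  have h2 := sum_abs_sq (vort v z)
  rw [vsq_eq_sum] at h2
  calc _ ≤ (∑ j, |vort v z j|) ^ 2 * G := h1
    _ ≤ 3 * vsq v z * G := mul_le_mul_of_nonneg_right h2 hG0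
    _ = _ := by ring

/-- The high part. -/
theorem high_int {M R L : ℝ} (hM0 : 0 ≤ M) (hM : ∀ z i, |pd i et z| ≤ M) (hR : 0 ≤ R)
    (hL : 0 < L) {v : V → V} (hs : ContDiff ℝ ∞ v) (hc : Coh R L 2 0 v) {z : V}
    (hz : z ∈ ball (0 : V) 1) (hzL : L ^ 2 < vsq v z) :
    |∑ i, ∑ j, ∑ k, vort v z j * vort v z k * Bf i (pd k (hv (2 * L ^ 2) v i j)) z|
      ≤ 4 * M * R * vsq v z * Ih v z := by
  have hcont : ∀ i j k, IntegrableOn (fun ρ => vort v z j * vort v z k
      * kv (fun z => z i * et z) ρ (pd k (hv (2 * L ^ 2) v i j)) z) (Ioc (0 : ℝ) 1) := fun i j k =>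
    (ion (kc (ker_et.coord i) (sm_pd (hv_smooth hs (2 * L ^ 2) i j) k) z)).const_mul _
  have e : ∑ i, ∑ j, ∑ k, vort v z j * vort v z k * Bf i (pd k (hv (2 * L ^ 2) v i j)) z
      = ∫ ρ in Ioc (0 : ℝ) 1, ∑ i, ∑ j, ∑ k, vort v z j * vort v z k
        * kv (fun z => z i * et z) ρ (pd k (hv (2 * L ^ 2) v i j)) z := by
    rw [integral_finsetSum _ fun i _ => integrable_finsetSum _ fun j _ =>
      integrable_finsetSum _ fun k _ => hcont i j k]
    refine Finset.sum_congr rfl fun i _ => ?_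
    rw [integral_finsetSum _ fun j _ => integrable_finsetSum _ fun k _ => hcont i j k]
    refine Finset.sum_congr rfl fun j _ => ?_
    rw [integral_finsetSum _ fun k _ => hcont i j k]
    refine Finset.sum_congr rfl fun k _ => ?_
    rw [integral_const_mul]
    rfl
  rw [e, ← Real.norm_eq_abs]
  refine (norm_integral_le_of_norm_le
    ((rp_Ah_int hs z).const_mul (4 * M * R * vsq v z)) ?_).trans (le_of_eq ?_)
  · filter_upwards [ae_restrict_mem measurableSet_Ioc] with ρ hρ
    rw [Real.norm_eq_abs]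
    exact high_scale hM0 hM hR hL hs hc hz hzL hρ
  · rw [integral_const_mul]
    rfl

theorem pt_ineq : ∃ K : ℝ, 1 ≤ K ∧ ∀ v : V → V, ContDiff ℝ ∞ v →
    (∀ y ∈ ball (0 : V) 2, dv v y = 0) → ∀ R L S : ℝ, 0 ≤ R → 0 < L → 0 ≤ S →
      (∀ x ∈ ball (0 : V) 1, ∀ k j, |kv et 1 (pd k (fun y => v y j)) x| ≤ S) → Coh R L 2 0 v →
        ∀ z ∈ ball (0 : V) 1, -str v z ≤ 6 * S * osq v z
          + 12 * L * (√(osq v z) * √(gsq (bb v) z)) + 2 * (osq v z * Tl (2 * L ^ 2) v z)
          + 8 * K * R * (osq v z * Ih v z) := by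
  obtain ⟨M, hM0, hM⟩ := et_bound
  refine ⟨1 + M, by linarith, ?_⟩
  intro v hs hd R L S hR hL hS0 hS hc z hz
  have ho := osq_nonneg v z
  have hvs := vsq_nonneg v z
  have hov := osq_vsq v z
  have hT := Tl_nonneg (2 * L ^ 2) v z
  have hI := Ih_nonneg v z
  have hg := Real.sqrt_nonneg (gsq (bb v) z)
  have hdz : dv v z = 0 := hd z (ball_subset_ball (by norm_num) hz)
  have e0 : -str v z = 4 * ∑ j, ∑ k, vort v z j * vort v z k * pd k (fun y => v y j) z := by
    rw [str_vort, hdz]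
    ring
  have hz1 : ‖z‖ < 1 := mem_ball_zero_iff.1 hz
  rcases lt_or_ge (L ^ 2) (vsq v z) with h | h
  · have hdz1 : ∀ y ∈ ball z 1, dv v y = 0 := by
      intro y hy
      refine hd y ?_
      rw [mem_ball_zero_iff]
      have h1 : ‖y - z‖ < 1 := mem_ball_iff_norm.1 hy
      have h2 : ‖y‖ ≤ ‖y - z‖ + ‖z‖ := by
        have := norm_add_le (y - z) z
        rwa [sub_add_cancel] at this
      linarith
    have e1 : ∀ j k, pd k (fun y => v y j) z = kv et 1 (pd k (fun y => v y j)) z
        - ∑ i, (Bf i (pd k (lv (2 * L ^ 2) v i j)) z + Bf i (pd k (hv (2 * L ^ 2) v i j)) z) := by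
      intro j k
      rw [grad_rep hs hdz1 k j]
      congr 1
      exact Finset.sum_congr rfl fun i _ => Bf_split hs (2 * L ^ 2) i j k z
    have e2 : ∑ j, ∑ k, vort v z j * vort v z k * pd k (fun y => v y j) z
        = (∑ j, ∑ k, vort v z j * vort v z k * kv et 1 (pd k (fun y => v y j)) z)
          - (∑ i, ∑ j, ∑ k, vort v z j * vort v z k * Bf i (pd k (lv (2 * L ^ 2) v i j)) z)
          - ∑ i, ∑ j, ∑ k, vort v z j * vort v z k * Bf i (pd k (hv (2 * L ^ 2) v i j)) z := by
      simp_rw [e1]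
      simp only [Fin.sum_univ_three]
      ring
    have b1 : |∑ j, ∑ k, vort v z j * vort v z k * kv et 1 (pd k (fun y => v y j)) z|
        ≤ 3 * (S * vsq v z) := quad_le v z hS0 fun j k => hS z hz k j
    have b2 : |∑ i, ∑ j, ∑ k, vort v z j * vort v z k * Bf i (pd k (lv (2 * L ^ 2) v i j)) z|
        ≤ vsq v z * Tl (2 * L ^ 2) v z := by
      unfold Tl
      rw [Finset.mul_sum]
      refine (Finset.abs_sum_le_sum_abs _ _).trans (Finset.sum_le_sum fun i _ => ?_)
      rw [Finset.mul_sum]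
      refine (Finset.abs_sum_le_sum_abs _ _).trans (Finset.sum_le_sum fun j _ => ?_)
      rw [Finset.mul_sum]
      refine (Finset.abs_sum_le_sum_abs _ _).trans (Finset.sum_le_sum fun k _ => ?_)
      rw [abs_mul, abs_mul]
      refine mul_le_mul_of_nonneg_right ?_ (abs_nonneg _)
      calc |vort v z j| * |vort v z k| ≤ √(vsq v z) * √(vsq v z) :=
            mul_le_mul (vort_abs_le v z j) (vort_abs_le v z k) (abs_nonneg _) (Real.sqrt_nonneg _)
        _ = _ := Real.mul_self_sqrt hvs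
    have b3 := high_int hM0 hM hR hL hs hc hz h
    rw [e0, e2]
    have a1 := abs_le.1 b1
    have a2 := abs_le.1 b2
    have a3 := abs_le.1 b3
    have c1 : 0 ≤ 12 * L * (√(osq v z) * √(gsq (bb v) z)) := by positivity
    have c2 : 4 * (4 * M * R * vsq v z * Ih v z) ≤ 8 * (1 + M) * R * (osq v z * Ih v z) := by
      rw [hov]
      have : 0 ≤ R * vsq v z * Ih v z := by positivity
      linarith
    have c3 : 4 * (vsq v z * Tl (2 * L ^ 2) v z) = 2 * (osq v z * Tl (2 * L ^ 2) v z) := by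
      rw [hov]
      ring
    have c4 : 4 * (3 * (S * vsq v z)) = 6 * S * osq v z := by
      rw [hov]
      ring
    linarith [a1.2, a2.1, a3.1]
  · have e1 : ∀ j k, |pd k (fun y => v y j) z| ≤ S + √(gsq (bb v) z) := by
      intro j k
      have h1 := pd_bb hs k j z
      have h2 : pd k (fun y => v y j) z = kv et 1 (pd k (fun y => v y j)) z
          + pd k (fun y => bb v y j) z := by
        rw [h1]
        ring
      rw [h2]
      exact (abs_add_le _ _).trans (add_le_add (hS z hz k j) (pd_le_gsq (bb v) k j z))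
    have b1 := quad_le v z (A := fun j k => pd k (fun y => v y j) z)
      (by positivity : 0 ≤ S + √(gsq (bb v) z)) e1
    have b2 := (abs_le.1 b1).2
    rw [e0]
    have h1 : vsq v z ≤ L * √(osq v z) := by
      have h2 : √(vsq v z) ≤ L := by
        rw [Real.sqrt_le_left hL.le]
        exact h
      have h3 : √(vsq v z) ≤ √(osq v z) := Real.sqrt_le_sqrt (by linarith)
      calc vsq v z = √(vsq v z) * √(vsq v z) := (Real.mul_self_sqrt hvs).symm
        _ ≤ L * √(osq v z) := mul_le_mul h2 h3 (Real.sqrt_nonneg _) hL.le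
    have h2 : vsq v z * √(gsq (bb v) z) ≤ L * √(osq v z) * √(gsq (bb v) z) :=
      mul_le_mul_of_nonneg_right h1 hg
    have c1 : 0 ≤ 2 * (osq v z * Tl (2 * L ^ 2) v z) := by positivity
    have c2 : 0 ≤ 8 * (1 + M) * R * (osq v z * Ih v z) := by positivity
    have c3 : 4 * (3 * ((S + √(gsq (bb v) z)) * vsq v z)) = 6 * S * osq v z
        + 12 * (vsq v z * √(gsq (bb v) z)) := by
      rw [hov]
      ring
    linarith

end Pool.Agent.H946.NS
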