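import Pool.Agent.H946_NS.CF5

/-!
The stretching term, if the direction of the vorticity varies little: the integrals.
-/

set_option autoImplicit false

open MeasureTheory Set Metric Filter Topology
open scoped ContDiff ENNReal

namespace Pool.Agent.H946.NS

open H459R3.NS W221.NS Pool.Agent.W583.MD

theorem vol_real (a : V) {r : ℝ} (hr : 0 < r) : (volume : Measure V).real (ball a r) = (2 * r) ^ 3 := by
  rw [Measure.real, Real.volume_pi_ball _ hr, ENNReal.toReal_ofReal (by positivity)]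
  simp

theorem sq_cont {v : V → V} (hs : ContDiff ℝ ∞ v) : Continuous fun y => √(osq v y) :=
  (osq_smooth hs).continuous.sqrt

theorem Ah_le {v : V → V} (hs : ContDiff ℝ ∞ v) (ρ : ℝ) (z : V) :
    Ah v ρ z ≤ ∫ y in ball (0 : V) 2, √(osq v (z + ρ • y)) := by
  have hc : Continuous fun y : V => √(osq v (z + ρ • y)) :=
    Continuous.comp (g := fun y => √(osq v y)) (sq_cont hs) (by fun_prop)
  exact setIntegral_mono_set (int_ball hc 0 2) (Eventually.of_forall fun _ => Real.sqrt_nonneg _)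
    (closedBall_subset_ball (by norm_num)).eventuallyLE

/-- The average at one point. -/
theorem Ah_pt {v : V → V} (hs : ContDiff ℝ ∞ v) {N ρ : ℝ} {z : V} (hρ0 : 0 < ρ) (hρ1 : ρ ≤ 1)
    (hz : z ∈ ball (0 : V) 1) (hN : ∫ x in ball (0 : V) 8, osq v x ≤ N) :
    Ah v ρ z ≤ 8 * (ρ ^ (-(3 / 2) : ℝ) * √N) := by
  have hc : Continuous fun y : V => √(osq v (z + ρ • y)) :=
    Continuous.comp (g := fun y => √(osq v y)) (sq_cont hs) (by fun_prop)
  have h1 := W162.MD.cs_ball (f := fun y : V => √(osq v (z + ρ • y))) (g := fun _ => (1 : ℝ))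
    hc continuous_const 0 2
  have e1 : ∀ y : V, √(osq v (z + ρ • y)) ^ 2 = osq v (z + ρ • y) := fun y =>
    Real.sq_sqrt (osq_nonneg v _)
  simp_rw [e1, mul_one, one_pow] at h1
  rw [cov' (osq v) z hρ0, setIntegral_const, vol_real _ (by norm_num)] at h1
  have h2 : ∫ y in ball z (ρ * 2), osq v y ≤ N := by
    refine (ball_mono (osq_smooth hs).continuous (osq_nonneg v) (ball_subset_ball' ?_)).trans hN
    rw [dist_zero_right]
    have := mem_ball_zero_iff.1 hz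
    linarith
  have h3 : √((ρ ^ 3)⁻¹ * ∫ y in ball z (ρ * 2), osq v y) ≤ ρ ^ (-(3 / 2) : ℝ) * √N := by
    have e : ρ ^ (-(3 / 2) : ℝ) = √((ρ ^ 3)⁻¹) := by
      rw [Real.sqrt_eq_rpow, ← Real.rpow_natCast, ← Real.rpow_neg hρ0.le, ← Real.rpow_mul hρ0.le]
      norm_num
    rw [e, ← Real.sqrt_mul (by positivity)]
    exact Real.sqrt_le_sqrt (mul_le_mul_of_nonneg_left h2 (by positivity))
  have h4 : √(((2 : ℝ) * 2) ^ 3 • (1 : ℝ)) = 8 := by
    rw [smul_eq_mul, show ((2 : ℝ) * 2) ^ 3 * 1 = 8 ^ 2 by norm_num]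
    exact Real.sqrt_sq (by norm_num)
  rw [h4] at h1
  calc Ah v ρ z ≤ ∫ y in ball (0 : V) 2, √(osq v (z + ρ • y)) := Ah_le hs ρ z
    _ ≤ _ := le_abs_self _
    _ ≤ √((ρ ^ 3)⁻¹ * ∫ y in ball z (ρ * 2), osq v y) * 8 := h1
    _ ≤ (ρ ^ (-(3 / 2) : ℝ) * √N) * 8 := mul_le_mul_of_nonneg_right h3 (by norm_num)
    _ = _ := by ring

/-- The average in the mean. -/
theorem Ah_mean {v : V → V} (hs : ContDiff ℝ ∞ v) {F : V → ℝ} (hF : Continuous F)
    (h0 : ∀ x, 0 ≤ F x) {N ρ : ℝ} (hρ0 : 0 ≤ ρ) (hρ1 : ρ ≤ 1)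
    (hN : ∫ x in ball (0 : V) 8, osq v x ≤ N) :
    ∫ z in ball (0 : V) 1, F z * Ah v ρ z ≤ 64 * (√(∫ z in ball (0 : V) 1, F z ^ 2) * √N) := by
  have hG : Continuous (fun q : V × V => F q.1 * √(osq v (q.1 + ρ • q.2))) :=
    (hF.comp continuous_fst).mul (Continuous.comp (g := fun y => √(osq v y)) (sq_cont hs)
      (by fun_prop))
  have hi := int_prod (G := fun z y => F z * √(osq v (z + ρ • y))) hG 0 0 1 2
  have h1 : ∫ z in ball (0 : V) 1, F z * Ah v ρ z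
      ≤ ∫ z in ball (0 : V) 1, ∫ y in ball (0 : V) 2, F z * √(osq v (z + ρ • y)) := by
    refine integral_mono_of_nonneg (Eventually.of_forall fun z => mul_nonneg (h0 z)
      (Ah_nonneg v ρ z)) hi.integral_prod_left (Eventually.of_forall fun z => ?_)
    change F z * Ah v ρ z ≤ ∫ y in ball (0 : V) 2, F z * √(osq v (z + ρ • y))
    rw [integral_const_mul]
    exact mul_le_mul_of_nonneg_left (Ah_le hs ρ z) (h0 z)
  refine h1.trans ?_
  rw [integral_integral_swap hi]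
  have h2 : ∀ y ∈ ball (0 : V) 2, ∫ z in ball (0 : V) 1, F z * √(osq v (z + ρ • y))
      ≤ √(∫ z in ball (0 : V) 1, F z ^ 2) * √N := by
    intro y hy
    have hc : Continuous fun z : V => √(osq v (z + ρ • y)) :=
      Continuous.comp (g := fun y => √(osq v y)) (sq_cont hs) (by fun_prop)
    have h3 := W162.MD.cs_ball (f := F) (g := fun z : V => √(osq v (z + ρ • y))) hF hc 0 1
    have e1 : ∀ z : V, √(osq v (z + ρ • y)) ^ 2 = osq v (z + ρ • y) := fun z =>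
      Real.sq_sqrt (osq_nonneg v _)
    simp_rw [e1] at h3
    refine (le_abs_self _).trans (h3.trans (mul_le_mul_of_nonneg_left (Real.sqrt_le_sqrt ?_)
      (Real.sqrt_nonneg _)))
    refine (ball_shift (osq_smooth hs).continuous (osq_nonneg v) 0 (ρ • y) (s := 8) ?_).trans hN
    rw [norm_smul, Real.norm_of_nonneg hρ0]
    have := mem_ball_zero_iff.1 hy
    nlinarith [norm_nonneg y]
  calc ∫ y in ball (0 : V) 2, ∫ z in ball (0 : V) 1, F z * √(osq v (z + ρ • y))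
      ≤ ∫ _ in ball (0 : V) 2, √(∫ z in ball (0 : V) 1, F z ^ 2) * √N :=
        setIntegral_mono_on hi.integral_prod_right (integrableOn_const (vol_ball_fin _ _))
          measurableSet_ball h2
    _ = _ := by
        rw [setIntegral_const, vol_real _ (by norm_num), smul_eq_mul]
        norm_num

theorem high_prod {v : V → V} (hs : ContDiff ℝ ∞ v) {F : V → ℝ} (hF : Continuous F) :
    Integrable (Function.uncurry fun (z : V) (ρ : ℝ) => F z * (ρ ^ (-(1 / 2) : ℝ) * Ah v ρ z))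
      (((volume : Measure V).restrict (ball 0 1)).prod ((volume : Measure ℝ).restrict (Ioc 0 1))) := by
  have hH : Continuous fun q : V × ℝ => F q.1 * Ah v q.2 q.1 := by
    refine (hF.comp continuous_fst).mul ?_
    exact Continuous.comp (g := fun q : ℝ × V => Ah v q.1 q.2)
      (f := fun q : V × ℝ => ((q.2, q.1) : ℝ × V)) (Ah_cont hs) (by fun_prop)
  obtain ⟨C, hC⟩ := ((isCompact_closedBall (0 : V) 1).prod
    (isCompact_Icc (a := (0 : ℝ)) (b := 1))).exists_bound_of_continuousOn hH.continuousOn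
  have hb : Integrable (fun q : V × ℝ => (1 : ℝ) * q.2 ^ (-(1 / 2) : ℝ))
      (((volume : Measure V).restrict (ball 0 1)).prod
        ((volume : Measure ℝ).restrict (Ioc 0 1))) :=
    Integrable.mul_prod (f := fun _ : V => (1 : ℝ)) (g := fun ρ : ℝ => ρ ^ (-(1 / 2) : ℝ))
      (integrableOn_const (vol_ball_fin _ _)) rp_int
  have h1 := Integrable.mul_bdd (c := C) hb hH.aestronglyMeasurable (by
    rw [Measure.prod_restrict]
    filter_upwards [ae_restrict_mem (measurableSet_ball.prod measurableSet_Ioc)] with q hq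
    exact hC q ⟨ball_subset_closedBall hq.1, Ioc_subset_Icc_self hq.2⟩)
  refine h1.congr (Eventually.of_forall fun q => ?_)
  change 1 * q.2 ^ (-(1 / 2) : ℝ) * (F q.1 * Ah v q.2 q.1)
    = F q.1 * (q.2 ^ (-(1 / 2) : ℝ) * Ah v q.2 q.1)
  ring

theorem high_on {v : V → V} (hs : ContDiff ℝ ∞ v) {F : V → ℝ} (hF : Continuous F) :
    IntegrableOn (fun z => F z * Ih v z) (ball (0 : V) 1) := by
  refine (high_prod hs hF).integral_prod_left.congr (Eventually.of_forall fun z => ?_)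
  change ∫ ρ in Ioc (0 : ℝ) 1, F z * (ρ ^ (-(1 / 2) : ℝ) * Ah v ρ z) = F z * Ih v z
  rw [integral_const_mul]
  rfl

theorem rp_half {δ : ℝ} (hδ : 0 < δ) : ∫ ρ in Ioc (0 : ℝ) δ, ρ ^ (-(1 / 2) : ℝ) = 2 * √δ := by
  rw [← intervalIntegral.integral_of_le hδ.le, integral_rpow (Or.inl (by norm_num)),
    Real.sqrt_eq_rpow]
  rw [Real.zero_rpow (by norm_num)]
  norm_num
  ring

theorem rp_two {δ : ℝ} (hδ : 0 < δ) (hδ1 : δ ≤ 1) : ∫ ρ in Ioc δ 1, ρ ^ (-2 : ℝ) ≤ 1 / δ := by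
  rw [← intervalIntegral.integral_of_le hδ1, integral_rpow (Or.inr ⟨by norm_num, by
    rw [uIcc_of_le hδ1]
    exact fun h => absurd h.1 (not_le.2 hδ)⟩)]
  have e : δ ^ (-2 + 1 : ℝ) = 1 / δ := by
    rw [show (-2 + 1 : ℝ) = -1 by norm_num, Real.rpow_neg_one, one_div]
  rw [e]
  norm_num
  linarith

/-- The high part in the mean. -/
theorem high_mean {v : V → V} (hs : ContDiff ℝ ∞ v) {F : V → ℝ} (hF : Continuous F)
    (h0 : ∀ x, 0 ≤ F x) {N δ : ℝ} (hN : ∫ x in ball (0 : V) 8, osq v x ≤ N)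
    (hFN : ∫ x in ball (0 : V) 1, F x ≤ N) (hδ : 0 < δ) (hδ1 : δ ≤ 1) :
    ∫ z in ball (0 : V) 1, F z * Ih v z
      ≤ 128 * √δ * (√(∫ z in ball (0 : V) 1, F z ^ 2) * √N) + 8 * (N * √N) / δ := by
  set P := √(∫ z in ball (0 : V) 1, F z ^ 2) with hP
  have hP0 : 0 ≤ P := Real.sqrt_nonneg _
  have hN0 : 0 ≤ N := (integral_nonneg fun x => osq_nonneg v x).trans hN
  have hi := high_prod hs hF
  have e1 : ∫ z in ball (0 : V) 1, F z * Ih v z
      = ∫ ρ in Ioc (0 : ℝ) 1, ∫ z in ball (0 : V) 1, F z * (ρ ^ (-(1 / 2) : ℝ) * Ah v ρ z) := by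
    rw [← integral_integral_swap hi]
    refine integral_congr_ae (Eventually.of_forall fun z => ?_)
    change F z * Ih v z = ∫ ρ in Ioc (0 : ℝ) 1, F z * (ρ ^ (-(1 / 2) : ℝ) * Ah v ρ z)
    rw [integral_const_mul]
    rfl
  set m : ℝ → ℝ := fun ρ => ∫ z in ball (0 : V) 1, F z * (ρ ^ (-(1 / 2) : ℝ) * Ah v ρ z) with hm
  have hmi : IntegrableOn m (Ioc 0 1) := hi.integral_prod_right
  have e2 : ∀ ρ, m ρ = ρ ^ (-(1 / 2) : ℝ) * ∫ z in ball (0 : V) 1, F z * Ah v ρ z := by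
    intro ρ
    rw [hm, ← integral_const_mul]
    refine integral_congr_ae (Eventually.of_forall fun z => ?_)
    change F z * (ρ ^ (-(1 / 2) : ℝ) * Ah v ρ z) = ρ ^ (-(1 / 2) : ℝ) * (F z * Ah v ρ z)
    ring
  have b1 : ∀ ρ ∈ Ioc (0 : ℝ) δ, m ρ ≤ (64 * (P * √N)) * ρ ^ (-(1 / 2) : ℝ) := by
    intro ρ hρ
    rw [e2, mul_comm]
    exact mul_le_mul_of_nonneg_right (Ah_mean hs hF h0 hρ.1.le (hρ.2.trans hδ1) hN)
      (Real.rpow_nonneg hρ.1.le _)
  have b2 : ∀ ρ ∈ Ioc δ 1, m ρ ≤ (8 * (N * √N)) * ρ ^ (-2 : ℝ) := by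
    intro ρ hρ
    have hρ0 : 0 < ρ := hδ.trans hρ.1
    have h1 : ∫ z in ball (0 : V) 1, F z * Ah v ρ z ≤ (8 * (ρ ^ (-(3 / 2) : ℝ) * √N)) * N := by
      have h2 : ∫ z in ball (0 : V) 1, F z * Ah v ρ z
          ≤ ∫ z in ball (0 : V) 1, (8 * (ρ ^ (-(3 / 2) : ℝ) * √N)) * F z := by
        have hc : Continuous fun z => Ah v ρ z :=
          Continuous.comp (g := fun q : ℝ × V => Ah v q.1 q.2) (f := fun z : V => ((ρ, z) : ℝ × V))
            (Ah_cont hs) (by fun_prop)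
        refine setIntegral_mono_on (int_ball (hF.mul hc) 0 1)
          (int_ball (continuous_const.mul hF) 0 1) measurableSet_ball fun z hz => ?_
        rw [mul_comm]
        exact mul_le_mul_of_nonneg_right (Ah_pt hs hρ0 hρ.2 hz hN) (h0 z)
      refine h2.trans ?_
      rw [integral_const_mul]
      exact mul_le_mul_of_nonneg_left hFN (by positivity)
    rw [e2]
    have e3 : ρ ^ (-2 : ℝ) = ρ ^ (-(1 / 2) : ℝ) * ρ ^ (-(3 / 2) : ℝ) := by
      rw [← Real.rpow_add hρ0]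
      norm_num
    calc ρ ^ (-(1 / 2) : ℝ) * ∫ z in ball (0 : V) 1, F z * Ah v ρ z
        ≤ ρ ^ (-(1 / 2) : ℝ) * ((8 * (ρ ^ (-(3 / 2) : ℝ) * √N)) * N) :=
          mul_le_mul_of_nonneg_left h1 (Real.rpow_nonneg hρ0.le _)
      _ = _ := by
          rw [e3]
          ring
  rw [e1]
  change ∫ ρ in Ioc (0 : ℝ) 1, m ρ ≤ _
  have hr1 : IntegrableOn (fun ρ : ℝ => ρ ^ (-(1 / 2) : ℝ)) (Ioc 0 δ) :=
    rp_int.mono_set (Ioc_subset_Ioc_right hδ1)
  have hr2 : IntegrableOn (fun ρ : ℝ => ρ ^ (-2 : ℝ)) (Ioc δ 1) := by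
    have : ContinuousOn (fun ρ : ℝ => ρ ^ (-2 : ℝ)) (Icc δ 1) := fun x hx =>
      (Real.continuousAt_rpow_const _ _ (Or.inl (hδ.trans_le hx.1).ne')).continuousWithinAt
    exact (this.integrableOn_compact isCompact_Icc).mono_set Ioc_subset_Icc_self
  rw [← Ioc_union_Ioc_eq_Ioc hδ.le hδ1, setIntegral_union (Ioc_disjoint_Ioc_of_le le_rfl)
    measurableSet_Ioc (hmi.mono_set (Ioc_subset_Ioc_right hδ1))
    (hmi.mono_set (Ioc_subset_Ioc_left hδ.le))]
  have s1 : ∫ ρ in Ioc (0 : ℝ) δ, m ρ ≤ (64 * (P * √N)) * (2 * √δ) := by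
    rw [← rp_half hδ, ← integral_const_mul]
    exact setIntegral_mono_on (hmi.mono_set (Ioc_subset_Ioc_right hδ1)) (hr1.const_mul _)
      measurableSet_Ioc b1
  have s2 : ∫ ρ in Ioc δ 1, m ρ ≤ (8 * (N * √N)) * (1 / δ) := by
    refine (setIntegral_mono_on (hmi.mono_set (Ioc_subset_Ioc_left hδ.le)) (hr2.const_mul _)
      measurableSet_Ioc b2).trans ?_
    rw [integral_const_mul]
    exact mul_le_mul_of_nonneg_left (rp_two hδ hδ1) (by positivity)
  calc _ ≤ (64 * (P * √N)) * (2 * √δ) + (8 * (N * √N)) * (1 / δ) := add_le_add s1 s2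
    _ = _ := by ring

theorem Tl_cont {v : V → V} (hs : ContDiff ℝ ∞ v) (L : ℝ) : Continuous (Tl L v) :=
  continuous_finsetSum _ fun i _ => continuous_finsetSum _ fun j _ => continuous_finsetSum _
    fun k _ => (Bf_smooth i (sm_pd (lv_smooth hs L i j) k)).continuous.abs

theorem sum3_sq (f : Fin 3 → ℝ) : (∑ i, f i) ^ 2 ≤ 3 * ∑ i, f i ^ 2 := by
  have := sq_sum_le_card_mul_sum_sq (s := (Finset.univ : Finset (Fin 3))) (f := f)
  simpa using this

theorem sum27_sq (f : Fin 3 → Fin 3 → Fin 3 → ℝ) :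
    (∑ i, ∑ j, ∑ k, |f i j k|) ^ 2 ≤ 27 * ∑ i, ∑ j, ∑ k, f i j k ^ 2 := by
  have h1 : ∀ i j, (∑ k, |f i j k|) ^ 2 ≤ 3 * ∑ k, f i j k ^ 2 := fun i j => by
    have := sum3_sq fun k => |f i j k|
    simpa only [sq_abs] using this
  have h2 : ∀ i, (∑ j, ∑ k, |f i j k|) ^ 2 ≤ 9 * ∑ j, ∑ k, f i j k ^ 2 := fun i => by
    have h3 := sum3_sq fun j => ∑ k, |f i j k|
    have h4 : ∑ j, (∑ k, |f i j k|) ^ 2 ≤ ∑ j, 3 * ∑ k, f i j k ^ 2 :=
      Finset.sum_le_sum fun j _ => h1 i j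
    rw [← Finset.mul_sum] at h4
    linarith
  have h3 := sum3_sq fun i => ∑ j, ∑ k, |f i j k|
  have h4 : ∑ i, (∑ j, ∑ k, |f i j k|) ^ 2 ≤ ∑ i, 9 * ∑ j, ∑ k, f i j k ^ 2 :=
    Finset.sum_le_sum fun i _ => h2 i
  rw [← Finset.mul_sum] at h4
  linarith

theorem int27 {f : Fin 3 → Fin 3 → Fin 3 → V → ℝ} (hf : ∀ i j k, Continuous (f i j k)) {B : ℝ}
    (hB : ∀ i j k, ∫ z in ball (0 : V) 1, f i j k z ^ 2 ≤ B) :
    ∫ z in ball (0 : V) 1, (∑ i, ∑ j, ∑ k, |f i j k z|) ^ 2 ≤ 729 * B := by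
  have hint : ∀ i j k, IntegrableOn (fun z => f i j k z ^ 2) (ball (0 : V) 1) := fun i j k =>
    int_ball ((hf i j k).pow 2) 0 1
  have hc1 : Continuous fun z => (∑ i, ∑ j, ∑ k, |f i j k z|) ^ 2 :=
    (continuous_finsetSum _ fun i _ => continuous_finsetSum _ fun j _ =>
      continuous_finsetSum _ fun k _ => (hf i j k).abs).pow 2
  have hc2 : Continuous fun z => 27 * ∑ i, ∑ j, ∑ k, f i j k z ^ 2 :=
    continuous_const.mul (continuous_finsetSum _ fun i _ => continuous_finsetSum _ fun j _ =>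
      continuous_finsetSum _ fun k _ => (hf i j k).pow 2)
  have h1 : ∫ z in ball (0 : V) 1, (∑ i, ∑ j, ∑ k, |f i j k z|) ^ 2
      ≤ ∫ z in ball (0 : V) 1, 27 * ∑ i, ∑ j, ∑ k, f i j k z ^ 2 :=
    setIntegral_mono (int_ball hc1 0 1) (int_ball hc2 0 1) fun z => sum27_sq fun i j k => f i j k z
  refine h1.trans ?_
  have h2 : ∫ z in ball (0 : V) 1, 27 * ∑ i, ∑ j, ∑ k, f i j k z ^ 2
      = 27 * ∑ i, ∑ j, ∑ k, ∫ z in ball (0 : V) 1, f i j k z ^ 2 := by
    rw [integral_const_mul, integral_finsetSum _ fun i _ => integrable_finsetSum _ fun j _ =>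
      integrable_finsetSum _ fun k _ => hint i j k]
    congr 1
    refine Finset.sum_congr rfl fun i _ => ?_
    rw [integral_finsetSum _ fun j _ => integrable_finsetSum _ fun k _ => hint i j k]
    refine Finset.sum_congr rfl fun j _ => ?_
    rw [integral_finsetSum _ fun k _ => hint i j k]
  rw [h2]
  have h3 : ∑ i, ∑ j, ∑ k, ∫ z in ball (0 : V) 1, f i j k z ^ 2
      ≤ ∑ _i : Fin 3, ∑ _j : Fin 3, ∑ _k : Fin 3, B :=
    Finset.sum_le_sum fun i _ => Finset.sum_le_sum fun j _ => Finset.sum_le_sum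
      fun k _ => hB i j k
  have h4 : ∑ _i : Fin 3, ∑ _j : Fin 3, ∑ _k : Fin 3, B = 27 * B := by
    simp only [Fin.sum_univ_three]
    ring
  linarith

/-- The low part in the mean. -/
theorem low_mean : ∃ C : ℝ, 1 ≤ C ∧ ∀ v : V → V, ContDiff ℝ ∞ v → ∀ F : V → ℝ, Continuous F →
    ∀ N L : ℝ, ∫ x in ball (0 : V) 8, osq v x ≤ N → 0 < L →
      ∫ z in ball (0 : V) 1, F z * Tl (2 * L ^ 2) v z
        ≤ √(∫ z in ball (0 : V) 1, F z ^ 2) * √(C * (L * √N)) := by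
  obtain ⟨Cl, hCl, hlow⟩ := low_L2
  refine ⟨729 * Cl * 64, by linarith, ?_⟩
  intro v hs F hF N L hN hL
  have hN0 : 0 ≤ N := (integral_nonneg fun x => osq_nonneg v x).trans hN
  have h1 := W162.MD.cs_ball (f := F) (g := Tl (2 * L ^ 2) v) hF (Tl_cont hs _) 0 1
  refine (le_abs_self _).trans (h1.trans (mul_le_mul_of_nonneg_left (Real.sqrt_le_sqrt ?_)
    (Real.sqrt_nonneg _)))
  have hL2 : 0 < 2 * L ^ 2 := by positivity
  -- the low vorticity
  have h2 : ∫ x in ball (0 : V) 5, √(osq v x) ≤ 32 * √N := by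
    have h3 := W162.MD.cs_ball (f := fun y : V => √(osq v y)) (g := fun _ => (1 : ℝ))
      (sq_cont hs) continuous_const 0 5
    have e1 : ∀ y : V, √(osq v y) ^ 2 = osq v y := fun y => Real.sq_sqrt (osq_nonneg v _)
    simp_rw [e1, mul_one, one_pow] at h3
    rw [setIntegral_const, vol_real _ (by norm_num)] at h3
    have h4 : √(((2 : ℝ) * 5) ^ 3 • (1 : ℝ)) ≤ 32 := by
      rw [smul_eq_mul, Real.sqrt_le_left (by norm_num)]
      norm_num
    have h5 : √(∫ x in ball (0 : V) 5, osq v x) ≤ √N := Real.sqrt_le_sqrt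
      ((ball_mono (osq_smooth hs).continuous (osq_nonneg v) (ball_subset_ball (by norm_num))).trans
        hN)
    calc _ ≤ _ := le_abs_self _
      _ ≤ _ := h3
      _ ≤ √N * 32 := mul_le_mul h5 h4 (Real.sqrt_nonneg _) (Real.sqrt_nonneg _)
      _ = _ := by ring
  have h3 : ∀ i j, ∫ x in ball (0 : V) 5, lv (2 * L ^ 2) v i j x ^ 2 ≤ 64 * (L * √N) := by
    intro i j
    have h4 : ∀ x, lv (2 * L ^ 2) v i j x ^ 2 ≤ (2 * L) * √(osq v x) := by
      intro x
      refine (lv_sq hL2 v i j x).trans (le_of_eq ?_)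
      rw [show 2 * (2 * L ^ 2) = (2 * L) ^ 2 by ring, Real.sqrt_sq (by positivity)]
    calc ∫ x in ball (0 : V) 5, lv (2 * L ^ 2) v i j x ^ 2
        ≤ ∫ x in ball (0 : V) 5, (2 * L) * √(osq v x) :=
          setIntegral_mono (int_ball ((lv_smooth hs _ i j).continuous.pow 2) 0 5)
            (int_ball (continuous_const.mul (sq_cont hs)) 0 5) h4
      _ = (2 * L) * ∫ x in ball (0 : V) 5, √(osq v x) := integral_const_mul _ _
      _ ≤ (2 * L) * (32 * √N) := mul_le_mul_of_nonneg_left h2 (by positivity)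
      _ = _ := by ring
  have h5 := int27 (f := fun i j k => Bf i (pd k (lv (2 * L ^ 2) v i j)))
    (fun i j k => (Bf_smooth i (sm_pd (lv_smooth hs _ i j) k)).continuous)
    (B := Cl * (64 * (L * √N))) (fun i j k => (hlow _ (lv_smooth hs _ i j) i k).trans
      (mul_le_mul_of_nonneg_left (h3 i j) (by linarith)))
  refine h5.trans (le_of_eq ?_)
  ring

end Pool.Agent.H946.NS
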