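import Pool.Agent.H946_NS.CF6

/-!
The local enstrophy inequality at the unit scale, if the direction of the vorticity varies little:
the numbers.
-/

set_option autoImplicit false

open MeasureTheory Set Metric Filter Topology
open scoped ContDiff ENNReal

namespace Pool.Agent.H946.NS

open H459R3.NS W221.NS Pool.Agent.W583.MD

theorem pow_mix {a x y : ℝ} (p q : ℕ) (hx : 0 ≤ x) (hy : 0 ≤ y) (hpq : p + q ≠ 0)
    (h : a ^ (p + q) ≤ x ^ p * y ^ q) (ha : 0 ≤ a) : a ≤ x + y := by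
  have h1 : x ^ p * y ^ q ≤ (x + y) ^ (p + q) := by
    rw [pow_add]
    exact mul_le_mul (pow_le_pow_left₀ hx (by linarith) p) (pow_le_pow_left₀ hy (by linarith) q)
      (by positivity) (by positivity)
  exact (pow_le_pow_iff_left₀ ha (by positivity) hpq).1 (h.trans h1)

theorem cf1 {M Cb C4 N X P : ℝ} (hM : 1 ≤ M) (hCb : 1 ≤ Cb) (hC4 : 1 ≤ C4) (hN : 0 ≤ N)
    (hX : 0 ≤ X) (hP : 0 ≤ P) (hP4 : P ^ 4 ≤ C4 * N * X ^ 3) :
    6 * M * (√(P * (Cb * N)) * √N) ≤ X / 3 + 27 * (6 * M) ^ 8 * Cb ^ 4 * C4 * (N + N ^ 2) := by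
  set K := 27 * (6 * M) ^ 8 * Cb ^ 4 * C4 with hK
  have hK1 : 1 ≤ K := by
    have h1 : 1 ≤ (6 * M) ^ 8 := one_le_pow₀ (by linarith)
    have h2 : 1 ≤ Cb ^ 4 := one_le_pow₀ hCb
    have h3 : 1 ≤ (6 * M) ^ 8 * Cb ^ 4 * C4 :=
      one_le_mul_of_one_le_of_one_le (one_le_mul_of_one_le_of_one_le h1 h2) hC4
    rw [hK]
    linarith
  refine pow_mix 3 5 (by positivity) (by positivity) (by norm_num) ?_ (by positivity)
  have e1 : (6 * M * (√(P * (Cb * N)) * √N)) ^ (3 + 5) = (6 * M) ^ 8 * Cb ^ 4 * N ^ 8 * P ^ 4 := by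
    have h1 : √(P * (Cb * N)) ^ 8 = (P * (Cb * N)) ^ 4 := by
      rw [show (8 : ℕ) = 2 * 4 by norm_num, pow_mul, Real.sq_sqrt (by positivity)]
    have h2 : √N ^ 8 = N ^ 4 := by
      rw [show (8 : ℕ) = 2 * 4 by norm_num, pow_mul, Real.sq_sqrt hN]
    calc (6 * M * (√(P * (Cb * N)) * √N)) ^ (3 + 5)
        = (6 * M) ^ 8 * (√(P * (Cb * N)) ^ 8 * √N ^ 8) := by ring
      _ = _ := by rw [h1, h2]; ring
  rw [e1]
  have h3 : N ^ 9 ≤ (N + N ^ 2) ^ 5 := by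
    have : (N + N ^ 2) ^ 5 = N ^ 5 * (1 + N) ^ 5 := by ring
    rw [this]
    have h4 : N ^ 4 ≤ (1 + N) ^ 5 := by
      calc N ^ 4 ≤ (1 + N) ^ 4 := pow_le_pow_left₀ hN (by linarith) 4
        _ ≤ (1 + N) ^ 5 := pow_le_pow_right₀ (by linarith) (by norm_num)
    calc N ^ 9 = N ^ 5 * N ^ 4 := by ring
      _ ≤ _ := mul_le_mul_of_nonneg_left h4 (by positivity)
  have h5 : K ≤ K ^ 5 := le_self_pow₀ hK1 (by norm_num)
  calc (6 * M) ^ 8 * Cb ^ 4 * N ^ 8 * P ^ 4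
      ≤ (6 * M) ^ 8 * Cb ^ 4 * N ^ 8 * (C4 * N * X ^ 3) :=
        mul_le_mul_of_nonneg_left hP4 (by positivity)
    _ = (X / 3) ^ 3 * (K * N ^ 9) := by rw [hK]; ring
    _ ≤ (X / 3) ^ 3 * (K ^ 5 * (N + N ^ 2) ^ 5) := by
        refine mul_le_mul_of_nonneg_left (mul_le_mul h5 h3 (by positivity) (by positivity))
          (by positivity)
    _ = _ := by ring

theorem sqrt_lin {N : ℝ} (hN : 0 ≤ N) : √N * N ≤ N + N ^ 2 := by
  have h1 : √N ≤ 1 + N := by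
    rw [Real.sqrt_le_left (by linarith)]
    nlinarith
  calc √N * N ≤ (1 + N) * N := mul_le_mul_of_nonneg_right h1 hN
    _ = _ := by ring

theorem cf2 {M Cb Kt N S : ℝ} (hM : 1 ≤ M) (hCb : 1 ≤ Cb) (hKt : 0 ≤ Kt) (hN : 0 ≤ N) :
    6 * M * ((6 * S + √(Kt * (Cb * N))) * N) ≤ 36 * M * (S * N)
      + 6 * M * (1 + Kt * Cb) * (N + N ^ 2) := by
  have h3 : √(Kt * (Cb * N)) ≤ (1 + Kt * Cb) * √N := by
    have e : Kt * (Cb * N) = Kt * Cb * N := by ring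
    rw [e, Real.sqrt_mul (by positivity)]
    refine mul_le_mul_of_nonneg_right ?_ (Real.sqrt_nonneg _)
    have hk : 0 ≤ Kt * Cb := by positivity
    rw [Real.sqrt_le_left (by linarith)]
    nlinarith
  have h4 := sqrt_lin hN
  calc 6 * M * ((6 * S + √(Kt * (Cb * N))) * N)
      ≤ 6 * M * ((6 * S + (1 + Kt * Cb) * √N) * N) := by gcongr
    _ = 36 * M * (S * N) + 6 * M * (1 + Kt * Cb) * (√N * N) := by ring
    _ ≤ _ := by gcongr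

theorem cf4 {Cb L N : ℝ} (hCb : 1 ≤ Cb) (hN : 0 ≤ N) (hL : 0 ≤ L) :
    12 * L * (√N * √(Cb * N)) ≤ 12 * Cb * (L * N) := by
  have hsCb : √Cb ≤ Cb := by
    rw [Real.sqrt_le_left (by linarith)]
    nlinarith
  rw [Real.sqrt_mul (by linarith)]
  calc 12 * L * (√N * (√Cb * √N)) = 12 * L * (√Cb * (√N * √N)) := by ring
    _ = 12 * L * (√Cb * N) := by rw [Real.mul_self_sqrt hN]
    _ ≤ 12 * L * (Cb * N) := by gcongr
    _ = _ := by ring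

theorem cf5 {Cl C4 L N X P : ℝ} (hCl : 1 ≤ Cl) (hC4 : 1 ≤ C4) (hN : 0 ≤ N) (hL : 0 ≤ L)
    (hX : 0 ≤ X) (hP : 0 ≤ P) (hP4 : P ^ 4 ≤ C4 * N * X ^ 3) :
    2 * (P * √(Cl * (L * √N))) ≤ X / 3 + 432 * C4 * Cl ^ 2 * (L ^ 2 * N ^ 2) := by
  refine pow_mix 3 1 (by positivity) (by positivity) (by norm_num) ?_ (by positivity)
  have e1 : (2 * (P * √(Cl * (L * √N)))) ^ (3 + 1) = 16 * Cl ^ 2 * L ^ 2 * N * P ^ 4 := by
    have h1 : √(Cl * (L * √N)) ^ 4 = (Cl * (L * √N)) ^ 2 := by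
      rw [show (4 : ℕ) = 2 * 2 by norm_num, pow_mul, Real.sq_sqrt (by positivity)]
    calc (2 * (P * √(Cl * (L * √N)))) ^ (3 + 1) = 16 * P ^ 4 * √(Cl * (L * √N)) ^ 4 := by ring
      _ = 16 * P ^ 4 * (Cl ^ 2 * L ^ 2 * √N ^ 2) := by rw [h1]; ring
      _ = _ := by rw [Real.sq_sqrt hN]; ring
  rw [e1]
  calc 16 * Cl ^ 2 * L ^ 2 * N * P ^ 4 ≤ 16 * Cl ^ 2 * L ^ 2 * N * (C4 * N * X ^ 3) :=
        mul_le_mul_of_nonneg_left hP4 (by positivity)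
    _ = _ := by ring

theorem cf6 {K C4 R N X P δ : ℝ} (hK : 1 ≤ K) (hC4 : 1 ≤ C4) (hN : 0 ≤ N) (hR : 0 ≤ R)
    (hX : 0 ≤ X) (hP : 0 ≤ P) (hP4 : P ^ 4 ≤ C4 * N * X ^ 3) (hδ : δ = 1 / (1 + R * √N)) :
    8 * K * R * (128 * √δ * (P * √N) + 8 * (N * √N) / δ)
      ≤ X / 3 + 27 * (1024 * K) ^ 4 * C4 * (R ^ 2 * N ^ 2) + 96 * K * (N + R ^ 2 * N ^ 2) := by
  have hs := Real.sqrt_nonneg N
  have hRs : 0 ≤ R * √N := by positivity
  have hδ0 : 0 < δ := by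
    rw [hδ]
    positivity
  have hsN : √N ^ 2 = N := Real.sq_sqrt hN
  have h1 : 8 * K * R * (128 * √δ * (P * √N)) ≤ X / 3 + 27 * (1024 * K) ^ 4 * C4 * (R ^ 2 * N ^ 2) := by
    refine pow_mix 3 1 (by positivity) (by positivity) (by norm_num) ?_ (by positivity)
    have e1 : (8 * K * R * (128 * √δ * (P * √N))) ^ (3 + 1)
        = (1024 * K) ^ 4 * R ^ 4 * δ ^ 2 * N ^ 2 * P ^ 4 := by
      have a1 : √δ ^ 4 = δ ^ 2 := by
        rw [show (4 : ℕ) = 2 * 2 by norm_num, pow_mul, Real.sq_sqrt hδ0.le]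
      have a2 : √N ^ 4 = N ^ 2 := by
        rw [show (4 : ℕ) = 2 * 2 by norm_num, pow_mul, Real.sq_sqrt hN]
      calc (8 * K * R * (128 * √δ * (P * √N))) ^ (3 + 1)
          = (1024 * K) ^ 4 * R ^ 4 * √δ ^ 4 * √N ^ 4 * P ^ 4 := by ring
        _ = _ := by rw [a1, a2]
    have a3 : (δ * (R * √N)) ^ 2 ≤ 1 := by
      have a4 : δ * (R * √N) ≤ 1 := by
        rw [hδ, one_div, inv_mul_le_iff₀ (by positivity)]
        linarith
      exact pow_le_one₀ (by positivity) a4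
    have a5 : R ^ 4 * δ ^ 2 * N ^ 3 ≤ R ^ 2 * N ^ 2 := by
      calc R ^ 4 * δ ^ 2 * N ^ 3 = (R ^ 2 * N ^ 2) * (δ ^ 2 * R ^ 2 * N) := by ring
        _ = (R ^ 2 * N ^ 2) * (δ * (R * √N)) ^ 2 := by rw [mul_pow, mul_pow, hsN]; ring
        _ ≤ (R ^ 2 * N ^ 2) * 1 := mul_le_mul_of_nonneg_left a3 (by positivity)
        _ = _ := mul_one _
    rw [e1]
    calc (1024 * K) ^ 4 * R ^ 4 * δ ^ 2 * N ^ 2 * P ^ 4
        ≤ (1024 * K) ^ 4 * R ^ 4 * δ ^ 2 * N ^ 2 * (C4 * N * X ^ 3) :=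
          mul_le_mul_of_nonneg_left hP4 (by positivity)
      _ = (1024 * K) ^ 4 * C4 * X ^ 3 * (R ^ 4 * δ ^ 2 * N ^ 3) := by ring
      _ ≤ (1024 * K) ^ 4 * C4 * X ^ 3 * (R ^ 2 * N ^ 2) :=
          mul_le_mul_of_nonneg_left a5 (by positivity)
      _ = _ := by ring
  have h2 : 8 * K * R * (8 * (N * √N) / δ) ≤ 96 * K * (N + R ^ 2 * N ^ 2) := by
    have e1 : 8 * K * R * (8 * (N * √N) / δ) = 64 * K * (N * (R * √N) + N * (R * √N) ^ 2) := by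
      rw [hδ]
      field_simp
      ring
    rw [e1]
    have e2 : N * (R * √N) ^ 2 = R ^ 2 * N ^ 2 := by
      rw [mul_pow, hsN]
      ring
    have e3 : N * (R * √N) ≤ (N + R ^ 2 * N ^ 2) / 2 := by
      rw [← e2]
      have : 0 ≤ N * (1 - R * √N) ^ 2 := by positivity
      nlinarith
    rw [e2]
    have h3 : N * (R * √N) + R ^ 2 * N ^ 2 ≤ 3 / 2 * (N + R ^ 2 * N ^ 2) := by linarith
    calc 64 * K * (N * (R * √N) + R ^ 2 * N ^ 2) ≤ 64 * K * (3 / 2 * (N + R ^ 2 * N ^ 2)) :=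
          mul_le_mul_of_nonneg_left h3 (by linarith)
      _ = _ := by ring
  calc _ = 8 * K * R * (128 * √δ * (P * √N)) + 8 * K * R * (8 * (N * √N) / δ) := by ring
    _ ≤ _ := add_le_add h1 h2

/-- The numerical part. -/
theorem closure_cf {M Cb C4 Kt Cl K : ℝ} (hM : 1 ≤ M) (hCb : 1 ≤ Cb) (hC4 : 1 ≤ C4)
    (hKt : 0 ≤ Kt) (hCl : 1 ≤ Cl) (hK : 1 ≤ K) : ∃ C : ℝ, 1 ≤ C ∧ ∀ N S D P R L δ : ℝ, 0 ≤ N →
      0 ≤ S → 0 ≤ D → 0 ≤ P → 0 ≤ R → 0 ≤ L → P ^ 4 ≤ C4 * N * (D + N) ^ 3 →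
        δ = 1 / (1 + R * √N) →
          -2 * D + 6 * M * (√(P * (Cb * N)) * √N) + 6 * M * ((6 * S + √(Kt * (Cb * N))) * N)
          + 6 * S * N + 12 * L * (√N * √(Cb * N)) + 2 * (P * √(Cl * (L * √N)))
          + 8 * K * R * (128 * √δ * (P * √N) + 8 * (N * √N) / δ)
            ≤ C * ((1 + S + L) * N + (1 + R ^ 2 + L ^ 2) * N ^ 2) := by
  set A1 := 27 * (6 * M) ^ 8 * Cb ^ 4 * C4 with hA1
  set A2 := 6 * M * (1 + Kt * Cb) with hA2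
  set A5 := 432 * C4 * Cl ^ 2 with hA5
  set A6 := 27 * (1024 * K) ^ 4 * C4 with hA6
  have p1 : 0 ≤ A1 := by positivity
  have p2 : 0 ≤ A2 := by positivity
  have p5 : 0 ≤ A5 := by positivity
  have p6 : 0 ≤ A6 := by positivity
  refine ⟨1 + A1 + 36 * M + A2 + 6 + 12 * Cb + A5 + A6 + 96 * K, by linarith, ?_⟩
  intro N S D P R L δ hN hS hD hP hR hL hP4 hδ
  have h1 := cf1 hM hCb hC4 hN (by linarith : 0 ≤ D + N) hP hP4
  have h2 := cf2 (S := S) hM hCb hKt hN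
  have h4 := cf4 hCb hN hL
  have h5 := cf5 hCl hC4 hN hL (by linarith : 0 ≤ D + N) hP hP4
  have h6 := cf6 hK hC4 hN hR (by linarith : 0 ≤ D + N) hP hP4 hδ
  rw [← hA1] at h1
  rw [← hA2] at h2
  rw [← hA5] at h5
  rw [← hA6] at h6
  have q1 : 0 ≤ S * N := by positivity
  have q2 : 0 ≤ L * N := by positivity
  have q3 : 0 ≤ N ^ 2 := by positivity
  have q4 : 0 ≤ R ^ 2 * N ^ 2 := by positivity
  have q5 : 0 ≤ L ^ 2 * N ^ 2 := by positivity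
  set Z := (1 + S + L) * N + (1 + R ^ 2 + L ^ 2) * N ^ 2 with hZ
  have z1 : N + N ^ 2 ≤ Z := by rw [hZ]; linarith
  have z2 : S * N ≤ Z := by rw [hZ]; linarith
  have z3 : L * N ≤ Z := by rw [hZ]; linarith
  have z4 : L ^ 2 * N ^ 2 ≤ Z := by rw [hZ]; linarith
  have z5 : R ^ 2 * N ^ 2 ≤ Z := by rw [hZ]; linarith
  have z6 : N + R ^ 2 * N ^ 2 ≤ Z := by rw [hZ]; linarith
  have z7 : N ≤ Z := by rw [hZ]; linarith
  have w1 : A1 * (N + N ^ 2) ≤ A1 * Z := mul_le_mul_of_nonneg_left z1 p1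
  have w2 : A2 * (N + N ^ 2) ≤ A2 * Z := mul_le_mul_of_nonneg_left z1 p2
  have w3 : 36 * M * (S * N) ≤ 36 * M * Z := mul_le_mul_of_nonneg_left z2 (by positivity)
  have w4 : 12 * Cb * (L * N) ≤ 12 * Cb * Z := mul_le_mul_of_nonneg_left z3 (by positivity)
  have w5 : A5 * (L ^ 2 * N ^ 2) ≤ A5 * Z := mul_le_mul_of_nonneg_left z4 p5
  have w6 : A6 * (R ^ 2 * N ^ 2) ≤ A6 * Z := mul_le_mul_of_nonneg_left z5 p6
  have w7 : 96 * K * (N + R ^ 2 * N ^ 2) ≤ 96 * K * Z := mul_le_mul_of_nonneg_left z6 (by positivity)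
  have w8 : 6 * S * N ≤ 6 * Z := by linarith
  have e : (1 + A1 + 36 * M + A2 + 6 + 12 * Cb + A5 + A6 + 96 * K) * Z
      = Z + A1 * Z + 36 * M * Z + A2 * Z + 6 * Z + 12 * Cb * Z + A5 * Z + A6 * Z + 96 * K * Z := by
    ring
  rw [e]
  linarith

end Pool.Agent.H946.NS
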