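import Pool.Agent.H946_NS.CF7

/-!
The local enstrophy inequality at the unit scale, if the direction of the vorticity varies little.
-/

set_option autoImplicit false

open MeasureTheory Set Metric Filter Topology
open scoped ContDiff ENNReal

namespace Pool.Agent.H946.NS

open H459R3.NS W221.NS Pool.Agent.W583.MD

variable {κ : V → ℝ}

theorem om_fourK (hκ : Cut κ) : ∃ C : ℝ, 1 ≤ C ∧ ∀ v : V → V, ContDiff ℝ ∞ v → ∀ N : ℝ,
    ∫ x in ball (0 : V) 1, osq v x ≤ N →
      (∫ x in ball (0 : V) 1, (κ x ^ 2 * osq v x) ^ 2) ^ 2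
        ≤ C * N * ((∫ x in ball (0 : V) 1, κ x ^ 2 * dsq v x) + N) ^ 3 := by
  obtain ⟨C6, hC6, h6⟩ := om_six hκ
  refine ⟨C6 ^ 3, one_le_pow₀ hC6, ?_⟩
  intro v hv N hN
  have hN0 : 0 ≤ N := (integral_nonneg fun x => osq_nonneg v x).trans hN
  set X := (∫ x in ball (0 : V) 1, κ x ^ 2 * dsq v x) + N with hX
  have hX0 : 0 ≤ X := add_nonneg (integral_nonneg fun x => mul_nonneg (sq_nonneg _)
    (dsq_nonneg v x)) hN0
  have h3 := h6 v hv N hN
  set F : V → ℝ := fun x => κ x ^ 2 * osq v x with hF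
  have hF0 : ∀ x, 0 ≤ F x := fun x => mul_nonneg (sq_nonneg _) (osq_nonneg v x)
  have hFc : Continuous F := (hκ.smooth.continuous.pow 2).mul (osq_smooth hv).continuous
  have h1 := W162.MD.cs_ball (f := fun x => √(F x)) (g := fun x => F x * √(F x)) hFc.sqrt
    (hFc.mul hFc.sqrt) 0 1
  have e1 : ∀ x, √(F x) * (F x * √(F x)) = F x ^ 2 := fun x => by
    have := Real.mul_self_sqrt (hF0 x)
    calc √(F x) * (F x * √(F x)) = F x * (√(F x) * √(F x)) := by ring
      _ = _ := by rw [this]; ring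
  have e2 : ∀ x, √(F x) ^ 2 = F x := fun x => Real.sq_sqrt (hF0 x)
  have e3 : ∀ x, (F x * √(F x)) ^ 2 = F x ^ 3 := fun x => by
    rw [mul_pow, e2]
    ring
  simp_rw [e1, e2, e3] at h1
  have h0 : 0 ≤ ∫ x in ball (0 : V) 1, F x ^ 2 := integral_nonneg fun x => sq_nonneg _
  have hF1 : ∫ x in ball (0 : V) 1, F x ≤ N := by
    refine (setIntegral_mono (int_ball hFc 0 1) (int_ball (osq_smooth hv).continuous 0 1)
      fun x => ?_).trans hN
    calc F x ≤ 1 * osq v x :=
          mul_le_mul_of_nonneg_right (pow_le_one₀ (hκ.nonneg x) (hκ.le_one x)) (osq_nonneg v x)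
      _ = _ := one_mul _
  calc (∫ x in ball (0 : V) 1, F x ^ 2) ^ 2
      ≤ (√(∫ x in ball (0 : V) 1, F x) * √(∫ x in ball (0 : V) 1, F x ^ 3)) ^ 2 :=
        pow_le_pow_left₀ h0 ((le_abs_self _).trans h1) 2
    _ = (∫ x in ball (0 : V) 1, F x) * ∫ x in ball (0 : V) 1, F x ^ 3 := by
        rw [mul_pow, Real.sq_sqrt (integral_nonneg fun x => hF0 x),
          Real.sq_sqrt (integral_nonneg fun x => pow_nonneg (hF0 x) 3)]
    _ ≤ N * (C6 * X) ^ 3 := mul_le_mul hF1 h3 (integral_nonneg fun x => pow_nonneg (hF0 x) 3) hN0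
    _ = _ := by ring

/-- The splitting of the terms. -/
theorem RR_split (hκ : Cut κ) {v : V → V} (hv : ContDiff ℝ ∞ v)
    (hd : ∀ y ∈ ball (0 : V) 1, dv v y = 0) (c : V) :
    ∫ z, RR v 0 z * (κ z * κ z) = (∫ z in ball (0 : V) 1, (-2 * (dsq v z * (κ z * κ z))
      + osq v z * (∑ k, (v z k - c k) * pd k (fun z : V => κ z * κ z) z)
      - str v z * (κ z * κ z)))
      + (∫ z in ball (0 : V) 1, osq v z * lap (fun z : V => κ z * κ z) z)
      + ∑ k, c k * ∫ z in ball (0 : V) 1, osq v z * pd k (fun z : V => κ z * κ z) z := by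
  have hkc : Continuous κ := hκ.smooth.continuous
  have hoc := (osq_smooth hv).continuous
  have hlapc : Continuous (lap (fun z : V => κ z * κ z)) := by
    unfold lap
    exact continuous_finsetSum _ fun k _ => ((hκ.ker2.pd k).pd k).sm.continuous
  have hpdc : ∀ k, Continuous (pd k (fun z : V => κ z * κ z)) := fun k =>
    (hκ.ker2.pd k).sm.continuous
  have c5 : Continuous fun z : V => -2 * (dsq v z * (κ z * κ z))
      + osq v z * (∑ k, (v z k - c k) * pd k (fun z : V => κ z * κ z) z)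
      - str v z * (κ z * κ z) := by
    have h3 : Continuous (fun z => ∑ k, (v z k - c k) * pd k (fun z : V => κ z * κ z) z) :=
      continuous_finsetSum _ fun k _ => ((sm_comp hv k).continuous.sub continuous_const).mul
        (hpdc k)
    exact ((continuous_const.mul ((dsq_cont hv).mul (hkc.mul hkc))).add (hoc.mul h3)).sub
      ((str_cont hv).mul (hkc.mul hkc))
  rw [RR_int hv hd 0 hκ.ker2]
  have i1 : IntegrableOn (fun z : V => osq v z * lap (fun z : V => κ z * κ z) z) (ball 0 1) :=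
    int_ball (hoc.mul hlapc) 0 1
  have i2 : ∀ k, IntegrableOn (fun z : V => c k * (osq v z * pd k (fun z : V => κ z * κ z) z))
      (ball 0 1) := fun k => int_ball (continuous_const.mul (hoc.mul (hpdc k))) 0 1
  have i5 := int_ball c5 0 1
  have e1 : ∀ z : V, -2 * (dsq v z * (κ z * κ z))
    + osq v z * (lap (fun z : V => κ z * κ z) z
      + ∑ k, (v z k - (0 : V) k) * pd k (fun z : V => κ z * κ z) z)
    - str v z * (κ z * κ z)
      = ((-2 * (dsq v z * (κ z * κ z))
    + osq v z * (∑ k, (v z k - c k) * pd k (fun z : V => κ z * κ z) z)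
    - str v z * (κ z * κ z)) + osq v z * lap (fun z : V => κ z * κ z) z)
    + ∑ k, c k * (osq v z * pd k (fun z : V => κ z * κ z) z) := by
    intro z
    simp only [Fin.sum_univ_three, Pi.zero_apply]
    ring
  simp_rw [e1]
  have i6 : IntegrableOn (fun z : V => (-2 * (dsq v z * (κ z * κ z))
    + osq v z * (∑ k, (v z k - c k) * pd k (fun z : V => κ z * κ z) z)
    - str v z * (κ z * κ z)) + osq v z * lap (fun z : V => κ z * κ z) z) (ball 0 1) :=
    i5.add i1
  have i7 : IntegrableOn (fun z : V => ∑ k, c k * (osq v z * pd k (fun z : V => κ z * κ z) z))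
      (ball 0 1) := int_ball (continuous_finsetSum _ fun k _ =>
        continuous_const.mul (hoc.mul (hpdc k))) 0 1
  rw [integral_add i6 i7, integral_add i5 i1, integral_finsetSum _ fun k _ => i2 k]
  simp_rw [integral_const_mul]

/-- The local enstrophy inequality, if the direction of the vorticity varies little. -/
theorem unit_cf (hκ : Cut κ) : ∃ C : ℝ, 1 ≤ C ∧ ∀ v : V → V, ContDiff ℝ ∞ v →
    (∀ y ∈ ball (0 : V) 8, dv v y = 0) → ∀ N S R L : ℝ, ∫ x in ball (0 : V) 8, osq v x ≤ N →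
      0 ≤ S → 0 ≤ R → 0 < L →
      (∀ x ∈ ball (0 : V) 1, ∀ k j, |kv et 1 (pd k (fun y => v y j)) x| ≤ S) → Coh R L 2 0 v →
        ∫ z, RR v 0 z * (κ z * κ z) ≤ C * ((1 + S + L) * N + (1 + R ^ 2 + L ^ 2) * N ^ 2)
          + (∫ z in ball (0 : V) 1, osq v z * lap (fun z : V => κ z * κ z) z)
          + ∑ k, (∫ w, th w * v w k)
            * ∫ z in ball (0 : V) 1, osq v z * pd k (fun z : V => κ z * κ z) z := by
  obtain ⟨M, hM1, hM⟩ := hκ.bound
  obtain ⟨Cb, hCb, hbb⟩ := bb_bounds
  obtain ⟨C4, hC4, hom4⟩ := om_fourK hκ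
  obtain ⟨Cl, hCl, hlow⟩ := low_mean
  obtain ⟨K, hK, hpt⟩ := pt_ineq
  have hKt := Kt_nonneg
  obtain ⟨C, hC, hnum⟩ := closure_cf hM1 hCb hC4 hKt hCl hK
  refine ⟨C, hC, ?_⟩
  intro v hv hd N S R L hN hS0 hR hL hS hcoh
  have hN0 : 0 ≤ N := (integral_nonneg fun x => osq_nonneg v x).trans hN
  obtain ⟨hb2, hb4, hbg⟩ := hbb v hv hd N hN
  have hN1 : ∫ x in ball (0 : V) 1, osq v x ≤ N :=
    (ball_mono (osq_smooth hv).continuous (osq_nonneg v) (ball_subset_ball (by norm_num))).trans hN
  have hP4 := hom4 v hv N hN1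
  set D := ∫ x in ball (0 : V) 1, κ x ^ 2 * dsq v x with hD
  have hD0 : 0 ≤ D := integral_nonneg fun x => mul_nonneg (sq_nonneg _) (dsq_nonneg v x)
  set F : V → ℝ := fun x => κ x ^ 2 * osq v x with hF
  set Q := ∫ x in ball (0 : V) 1, F x ^ 2 with hQ
  have hQ0 : 0 ≤ Q := integral_nonneg fun x => sq_nonneg _
  have hkc : Continuous κ := hκ.smooth.continuous
  have hoc := (osq_smooth hv).continuous
  have hF0 : ∀ x, 0 ≤ F x := fun x => mul_nonneg (sq_nonneg _) (osq_nonneg v x)
  have hFc : Continuous F := (hkc.pow 2).mul hoc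
  have hk2 : ∀ z, κ z ^ 2 ≤ 1 := fun z => pow_le_one₀ (hκ.nonneg z) (hκ.le_one z)
  have hFN : ∫ x in ball (0 : V) 1, F x ≤ N := by
    refine (setIntegral_mono (int_ball hFc 0 1) (int_ball hoc 0 1) fun x => ?_).trans hN1
    calc F x ≤ 1 * osq v x := mul_le_mul_of_nonneg_right (hk2 x) (osq_nonneg v x)
      _ = _ := one_mul _
  have hbc : ∀ k, Continuous fun x => bb v x k := fun k => (sm_comp (bb_smooth hv) k).continuous
  have hgc := (gsq_smooth (bb_smooth hv)).continuous
  set A := 6 * S + √(Kt * (Cb * N)) with hA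
  have hA0 : 0 ≤ A := by positivity
  set c : V := fun k => ∫ w, th w * v w k with hc
  set δ : ℝ := 1 / (1 + R * √N) with hδ
  have hδ0 : 0 < δ := by positivity
  have hδ1 : δ ≤ 1 := by
    rw [hδ, div_le_one (by positivity)]
    have : 0 ≤ R * √N := by positivity
    linarith
  -- the pointwise bound
  have key : ∀ z ∈ ball (0 : V) 1, -2 * (dsq v z * (κ z * κ z))
      + osq v z * (∑ k, (v z k - c k) * pd k (fun z : V => κ z * κ z) z)
      - str v z * (κ z * κ z)
      ≤ ((((-2 * (κ z ^ 2 * dsq v z) + (6 * M * A + 6 * S) * osq v z)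
        + 2 * M * ∑ k, κ z * osq v z * |bb v z k|)
        + 12 * L * (√(osq v z) * √(gsq (bb v) z)))
        + 2 * (F z * Tl (2 * L ^ 2) v z)) + 8 * K * R * (F z * Ih v z) := by
    intro z hz
    have ho := osq_nonneg v z
    have hk0 := hκ.nonneg z
    have hk1 := hκ.le_one z
    have hkk : κ z * κ z ≤ 1 := mul_le_one₀ hk1 hk0 hk1
    have hkk0 : 0 ≤ κ z * κ z := mul_nonneg hk0 hk0
    have e1 : ∀ k, |pd k (fun z : V => κ z * κ z) z| ≤ 2 * M * κ z := by
      intro k
      have e : pd k (fun z : V => κ z * κ z) z = κ z * pd k κ z + pd k κ z * κ z :=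
        pd_mul' hκ.smooth hκ.smooth k z
      rw [e, show κ z * pd k κ z + pd k κ z * κ z
        = 2 * κ z * pd k κ z by ring, abs_mul, abs_of_nonneg (by positivity)]
      calc 2 * κ z * |pd k κ z| ≤ 2 * κ z * M := by
            gcongr
            exact hM z k
        _ = _ := by ring
    have e2 : ∀ k, |v z k - c k| ≤ |bb v z k| + A := by
      intro k
      have h1 := avg_dev hv hS0 hS hb2 hz k
      have h2 : v z k - c k = bb v z k + (kv et 1 (fun y => v y k) z - ∫ w, th w * v w k) := by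
        rw [hc]
        unfold bb
        ring
      rw [h2]
      exact (abs_add_le _ _).trans (by linarith)
    have e3 : ∑ k, (v z k - c k) * pd k (fun z : V => κ z * κ z) z
        ≤ 2 * M * (∑ k, κ z * |bb v z k|) + 6 * M * A := by
      have h1 : ∀ k, (v z k - c k) * pd k (fun z : V => κ z * κ z) z
          ≤ 2 * M * (κ z * |bb v z k|) + 2 * M * A := by
        intro k
        calc (v z k - c k) * pd k (fun z : V => κ z * κ z) z
            ≤ |v z k - c k| * |pd k (fun z : V => κ z * κ z) z| := by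
              rw [← abs_mul]
              exact le_abs_self _
          _ ≤ (|bb v z k| + A) * (2 * M * κ z) :=
              mul_le_mul (e2 k) (e1 k) (abs_nonneg _) (by positivity)
          _ = 2 * M * (κ z * |bb v z k|) + 2 * M * A * κ z := by ring
          _ ≤ 2 * M * (κ z * |bb v z k|) + 2 * M * A * 1 := by gcongr
          _ = _ := by ring
      calc _ ≤ ∑ k, (2 * M * (κ z * |bb v z k|) + 2 * M * A) := Finset.sum_le_sum fun k _ => h1 k
        _ = _ := by
          simp only [Fin.sum_univ_three]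
          ring
    have e4 := hpt v hv (fun y hy => hd y (ball_subset_ball (by norm_num) hy)) R L S hR hL hS0 hS
      hcoh z hz
    have e5 : osq v z * (∑ k, (v z k - c k) * pd k (fun z : V => κ z * κ z) z)
        ≤ osq v z * (2 * M * (∑ k, κ z * |bb v z k|) + 6 * M * A) :=
      mul_le_mul_of_nonneg_left e3 ho
    have e6 := mul_le_mul_of_nonneg_right e4 hkk0
    have e7 : 6 * S * osq v z * (κ z * κ z) ≤ 6 * S * osq v z * 1 :=
      mul_le_mul_of_nonneg_left hkk (by positivity)
    have e7' : 12 * L * (√(osq v z) * √(gsq (bb v) z)) * (κ z * κ z)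
        ≤ 12 * L * (√(osq v z) * √(gsq (bb v) z)) * 1 :=
      mul_le_mul_of_nonneg_left hkk (by positivity)
    have e8 : osq v z * (2 * M * (∑ k, κ z * |bb v z k|) + 6 * M * A)
        = (6 * M * A) * osq v z + 2 * M * ∑ k, κ z * osq v z * |bb v z k| := by
      simp only [Fin.sum_univ_three]
      ring
    have e9 : (6 * S * osq v z
          + 12 * L * (√(osq v z) * √(gsq (bb v) z)) + 2 * (osq v z * Tl (2 * L ^ 2) v z)
          + 8 * K * R * (osq v z * Ih v z)) * (κ z * κ z)
        = 6 * S * osq v z * (κ z * κ z)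
          + 12 * L * (√(osq v z) * √(gsq (bb v) z)) * (κ z * κ z)
          + 2 * (F z * Tl (2 * L ^ 2) v z) + 8 * K * R * (F z * Ih v z) := by
      simp only [hF]
      ring
    have e10 : -2 * (dsq v z * (κ z * κ z)) = -2 * (κ z ^ 2 * dsq v z) := by ring
    have e11 : -str v z * (κ z * κ z) = -(str v z * (κ z * κ z)) := by ring
    rw [e10]
    linarith
  -- integration
  have c1 : Continuous fun z : V => κ z ^ 2 * dsq v z := (hkc.pow 2).mul (dsq_cont hv)
  have c2 : ∀ k, Continuous fun z : V => κ z * osq v z * |bb v z k| := fun k =>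
    (hkc.mul hoc).mul (hbc k).abs
  have c3 : Continuous fun z : V => √(osq v z) * √(gsq (bb v) z) := hoc.sqrt.mul hgc.sqrt
  have c4 : Continuous fun z : V => ∑ k, κ z * osq v z * |bb v z k| :=
    continuous_finsetSum _ fun k _ => c2 k
  have j1 : IntegrableOn (fun z : V => -2 * (κ z ^ 2 * dsq v z)) (ball 0 1) :=
    int_ball (continuous_const.mul c1) 0 1
  have j2 : IntegrableOn (fun z : V => (6 * M * A + 6 * S) * osq v z) (ball 0 1) :=
    int_ball (continuous_const.mul hoc) 0 1
  have j3 : IntegrableOn (fun z : V => 2 * M * ∑ k, κ z * osq v z * |bb v z k|) (ball 0 1) :=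
    int_ball (continuous_const.mul c4) 0 1
  have j4 : IntegrableOn (fun z : V => 12 * L * (√(osq v z) * √(gsq (bb v) z))) (ball 0 1) :=
    int_ball (continuous_const.mul c3) 0 1
  have j5 : IntegrableOn (fun z : V => 2 * (F z * Tl (2 * L ^ 2) v z)) (ball 0 1) :=
    int_ball (continuous_const.mul (hFc.mul (Tl_cont hv _))) 0 1
  have j6 : IntegrableOn (fun z : V => 8 * K * R * (F z * Ih v z)) (ball 0 1) :=
    (high_on hv hFc).const_mul _
  have j12 := j1.add j2
  have j123 := j12.add j3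
  have j1234 := j123.add j4
  have j15 := j1234.add j5
  have j16 := j15.add j6
  have hpdc : ∀ k, Continuous (pd k (fun z : V => κ z * κ z)) := fun k =>
    (hκ.ker2.pd k).sm.continuous
  have c5 : Continuous fun z : V => -2 * (dsq v z * (κ z * κ z))
      + osq v z * (∑ k, (v z k - c k) * pd k (fun z : V => κ z * κ z) z)
      - str v z * (κ z * κ z) := by
    have h3 : Continuous (fun z => ∑ k, (v z k - c k) * pd k (fun z : V => κ z * κ z) z) :=
      continuous_finsetSum _ fun k _ => ((sm_comp hv k).continuous.sub continuous_const).mul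
        (hpdc k)
    exact ((continuous_const.mul ((dsq_cont hv).mul (hkc.mul hkc))).add (hoc.mul h3)).sub
      ((str_cont hv).mul (hkc.mul hkc))
  rw [RR_split hκ hv (fun y hy => hd y (ball_subset_ball (by norm_num) hy)) c]
  have I2 : ∀ k, ∫ z in ball (0 : V) 1, κ z * osq v z * |bb v z k| ≤ √(√Q * (Cb * N)) * √N := by
    intro k
    have h1 := W162.MD.cs_ball (f := fun z => κ z * √(osq v z) * |bb v z k|)
      (g := fun z => √(osq v z)) ((hkc.mul hoc.sqrt).mul (hbc k).abs) hoc.sqrt 0 1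
    have e1 : ∀ z : V, κ z * √(osq v z) * |bb v z k| * √(osq v z) = κ z * osq v z * |bb v z k| := by
      intro z
      have := Real.mul_self_sqrt (osq_nonneg v z)
      calc κ z * √(osq v z) * |bb v z k| * √(osq v z)
          = κ z * (√(osq v z) * √(osq v z)) * |bb v z k| := by ring
        _ = _ := by rw [this]
    have e2 : ∀ z : V, √(osq v z) ^ 2 = osq v z := fun z => Real.sq_sqrt (osq_nonneg v z)
    have e3 : ∀ z : V, (κ z * √(osq v z) * |bb v z k|) ^ 2 = F z * bb v z k ^ 2 := by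
      intro z
      rw [mul_pow, mul_pow, e2, sq_abs]
    simp_rw [e1, e2, e3] at h1
    refine (le_abs_self _).trans (h1.trans ?_)
    refine mul_le_mul (Real.sqrt_le_sqrt ?_) (Real.sqrt_le_sqrt hN1) (Real.sqrt_nonneg _)
      (Real.sqrt_nonneg _)
    have h2 := W162.MD.cs_ball (f := F) (g := fun z => bb v z k ^ 2) hFc ((hbc k).pow 2) 0 1
    have e4 : ∀ z : V, (bb v z k ^ 2) ^ 2 = bb v z k ^ 4 := fun z => by ring
    simp_rw [e4] at h2
    refine (le_abs_self _).trans (h2.trans ?_)
    refine mul_le_mul le_rfl ?_ (Real.sqrt_nonneg _) (Real.sqrt_nonneg _)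
    calc √(∫ z in ball (0 : V) 1, bb v z k ^ 4) ≤ √((Cb * N) ^ 2) := Real.sqrt_le_sqrt (hb4 k)
      _ = Cb * N := Real.sqrt_sq (by positivity)
  have I3 : ∫ z in ball (0 : V) 1, √(osq v z) * √(gsq (bb v) z) ≤ √N * √(Cb * N) := by
    have h1 := W162.MD.cs_ball (f := fun z => √(osq v z))
      (g := fun z => √(gsq (bb v) z)) hoc.sqrt hgc.sqrt 0 1
    have e2 : ∀ z : V, √(gsq (bb v) z) ^ 2 = gsq (bb v) z := fun z => Real.sq_sqrt (gsq_nonneg _ z)
    have e3 : ∀ z : V, √(osq v z) ^ 2 = osq v z := fun z => Real.sq_sqrt (osq_nonneg v z)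
    simp_rw [e2, e3] at h1
    refine (le_abs_self _).trans (h1.trans ?_)
    exact mul_le_mul (Real.sqrt_le_sqrt hN1) (Real.sqrt_le_sqrt hbg) (Real.sqrt_nonneg _)
      (Real.sqrt_nonneg _)
  have I4 := hlow v hv F hFc N L hN hL
  have I5 := high_mean hv hFc hF0 hN hFN hδ0 hδ1
  rw [← hQ] at I4 I5
  have total : ∫ z in ball (0 : V) 1, (-2 * (dsq v z * (κ z * κ z))
      + osq v z * (∑ k, (v z k - c k) * pd k (fun z : V => κ z * κ z) z)
      - str v z * (κ z * κ z))
      ≤ -2 * D + 6 * M * (√(√Q * (Cb * N)) * √N) + 6 * M * (A * N) + 6 * S * N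
        + 12 * L * (√N * √(Cb * N)) + 2 * (√Q * √(Cl * (L * √N)))
        + 8 * K * R * (128 * √δ * (√Q * √N) + 8 * (N * √N) / δ) := by
    have h1 : ∫ z in ball (0 : V) 1, (((((-2 * (κ z ^ 2 * dsq v z) + (6 * M * A + 6 * S) * osq v z)
        + 2 * M * ∑ k, κ z * osq v z * |bb v z k|)
        + 12 * L * (√(osq v z) * √(gsq (bb v) z)))
        + 2 * (F z * Tl (2 * L ^ 2) v z)) + 8 * K * R * (F z * Ih v z))
        = -2 * D + (6 * M * A + 6 * S) * (∫ z in ball (0 : V) 1, osq v z)
          + 2 * M * (∑ k, ∫ z in ball (0 : V) 1, κ z * osq v z * |bb v z k|)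
          + 12 * L * (∫ z in ball (0 : V) 1, √(osq v z) * √(gsq (bb v) z))
          + 2 * (∫ z in ball (0 : V) 1, F z * Tl (2 * L ^ 2) v z)
          + 8 * K * R * ∫ z in ball (0 : V) 1, F z * Ih v z := by
      have g12 : IntegrableOn (fun z : V => -2 * (κ z ^ 2 * dsq v z)
          + (6 * M * A + 6 * S) * osq v z) (ball 0 1) := j12
      have g123 : IntegrableOn (fun z : V => -2 * (κ z ^ 2 * dsq v z)
          + (6 * M * A + 6 * S) * osq v z
          + 2 * M * ∑ k, κ z * osq v z * |bb v z k|) (ball 0 1) := j123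
      have g1234 : IntegrableOn (fun z : V => -2 * (κ z ^ 2 * dsq v z)
          + (6 * M * A + 6 * S) * osq v z
          + 2 * M * (∑ k, κ z * osq v z * |bb v z k|)
          + 12 * L * (√(osq v z) * √(gsq (bb v) z))) (ball 0 1) := j1234
      have g15 : IntegrableOn (fun z : V => -2 * (κ z ^ 2 * dsq v z)
          + (6 * M * A + 6 * S) * osq v z
          + 2 * M * (∑ k, κ z * osq v z * |bb v z k|)
          + 12 * L * (√(osq v z) * √(gsq (bb v) z))
          + 2 * (F z * Tl (2 * L ^ 2) v z)) (ball 0 1) := j15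
      rw [integral_add g15 j6, integral_add g1234 j5, integral_add g123 j4, integral_add g12 j3,
        integral_add j1 j2, integral_const_mul, integral_const_mul, integral_const_mul,
        integral_const_mul, integral_const_mul, integral_const_mul,
        integral_finsetSum _ fun k _ => int_ball (c2 k) 0 1]
    refine (setIntegral_mono_on (int_ball c5 0 1) j16 measurableSet_ball key).trans ?_
    refine (le_of_eq h1).trans ?_
    have h2 : ∑ k, ∫ z in ball (0 : V) 1, κ z * osq v z * |bb v z k|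
        ≤ 3 * (√(√Q * (Cb * N)) * √N) := by
      calc _ ≤ ∑ _k : Fin 3, √(√Q * (Cb * N)) * √N := Finset.sum_le_sum fun k _ => I2 k
        _ = _ := by simp
    have h3 : (6 * M * A + 6 * S) * (∫ z in ball (0 : V) 1, osq v z)
        ≤ (6 * M * A + 6 * S) * N := mul_le_mul_of_nonneg_left hN1 (by positivity)
    have h4 : 2 * M * (∑ k, ∫ z in ball (0 : V) 1, κ z * osq v z * |bb v z k|)
        ≤ 2 * M * (3 * (√(√Q * (Cb * N)) * √N)) := mul_le_mul_of_nonneg_left h2 (by positivity)
    have h5 : 12 * L * (∫ z in ball (0 : V) 1, √(osq v z) * √(gsq (bb v) z))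
        ≤ 12 * L * (√N * √(Cb * N)) := mul_le_mul_of_nonneg_left I3 (by positivity)
    have h6 : 8 * K * R * (∫ z in ball (0 : V) 1, F z * Ih v z)
        ≤ 8 * K * R * (128 * √δ * (√Q * √N) + 8 * (N * √N) / δ) :=
      mul_le_mul_of_nonneg_left I5 (by positivity)
    linarith
  have hfin := hnum N S D (√Q) R L δ hN0 hS0 hD0 (Real.sqrt_nonneg _) hR hL.le (by
      calc √Q ^ 4 = (√Q ^ 2) ^ 2 := by ring
        _ = Q ^ 2 := by rw [Real.sq_sqrt hQ0]
        _ ≤ _ := hP4) hδ
  rw [← hA] at hfin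
  linarith

end Pool.Agent.H946.NS
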