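import Pool.Agent.H946_NS.CF8

/-!
The growth of the localised enstrophy at a point of maximum, if the direction of the vorticity
varies little.
-/

set_option autoImplicit false

open MeasureTheory Set Metric Filter Topology
open scoped ContDiff ENNReal

namespace Pool.Agent.H946.NS

open H459R3.NS W221.NS Pool.Agent.W583.MD

variable {κ : V → ℝ}

/-- The enstrophy of a cell. -/
noncomputable def ens (v : V → V) : ℝ := ∫ x in cube, vsq v x

theorem ens_nonneg (v : V → V) : 0 ≤ ens v := integral_nonneg fun x => vsq_nonneg v x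

theorem ens_osq (v : V → V) : ∫ x in cube, osq v x = 2 * ens v := by
  unfold ens
  simp_rw [osq_vsq]
  rw [integral_const_mul]

theorem ball1_le {g : V → ℝ} (hg : Continuous g) (hp : Per g) (h0 : ∀ x, 0 ≤ g x) (y : V) :
    ∫ x in ball y 1, g x ≤ 216 * ∫ x in cube, g x := by
  have e : ∀ y, ∫ x in ball y 1, g x = ∫ w in ball (0 : V) 1, g (y + w) := by
    intro y
    have := cov' g y (r := 1) (ρ := 1) one_pos
    simp only [one_smul, one_pow, inv_one, one_mul] at this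
    exact this.symm
  have hper : Per fun y => ∫ w in ball (0 : V) 1, g (y + w) := by
    intro i x
    simp only
    refine integral_congr_ae (Eventually.of_forall fun w => ?_)
    simp only
    rw [show x + Pi.single i 1 + w = (x + w) + Pi.single i 1 by abel, hp i]
  obtain ⟨y', hy', hyy⟩ := W398.MD.FLOWX.per_cube hper y
  rw [e y]
  have hyy' : ∫ w in ball (0 : V) 1, g (y + w) = ∫ w in ball (0 : V) 1, g (y' + w) := hyy
  rw [hyy', ← e y']
  refine (ball_mono hg h0 ?_).trans (ball3_le hg hp h0)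
  refine ball_subset_ball' ?_
  have h6 : dist y' 0 ≤ 1 := by
    rw [dist_zero_right, pi_norm_le_iff_of_nonneg zero_le_one]
    intro i
    rw [Real.norm_eq_abs, abs_le]
    exact ⟨by linarith [hy'.1 i, show (0 : V) i = 0 from rfl], hy'.2 i⟩
  linarith

/-- The averaged gradient and the enstrophy. -/
theorem grad_ens {v : V → V} (hv : SPV v) (hd : ∀ x, ∑ i, pd i (fun y => v y i) x = 0) {r : ℝ}
    (hr : 0 < r) (hr1 : r ≤ 1) (y : V) (k j : Fin 3) :
    |kv et r (pd k (fun y => v y j)) y| ≤ √(216 * K0) * √(ens v / r ^ 3) := by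
  have h2 := kv_sq ker_et (f := pd k (fun y => v y j)) (sm_pd (sm_comp hv.1 j) k).continuous r y
  rw [cov' (fun x => pd k (fun y => v y j) x ^ 2) y hr, mul_one] at h2
  have h3 : ∫ x in ball y r, pd k (fun y => v y j) x ^ 2 ≤ ∫ x in ball y r, gsq v x := by
    refine setIntegral_mono (int_ball ((sm_pd (sm_comp hv.1 j) k).continuous.pow 2) _ _)
      (int_ball (gsq_smooth hv.1).continuous _ _) fun x => ?_
    unfold gsq
    exact (Finset.single_le_sum (f := fun k => pd k (fun y => v y j) x ^ 2)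
      (fun _ _ => sq_nonneg _) (Finset.mem_univ k)).trans
      (Finset.single_le_sum (f := fun j => ∑ k, pd k (fun y => v y j) x ^ 2)
        (fun _ _ => Finset.sum_nonneg fun _ _ => sq_nonneg _) (Finset.mem_univ j))
  have h4 : ∫ x in ball y r, gsq v x ≤ ∫ x in ball y 1, gsq v x :=
    ball_mono (gsq_smooth hv.1).continuous (gsq_nonneg v) (ball_subset_ball hr1)
  have h5 := ball1_le (gsq_smooth hv.1).continuous (per_gsq hv.2) (gsq_nonneg v) y
  have h6 := cube_gsq hv hd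
  rw [ens_osq] at h6
  have h7 : kv et r (pd k (fun y => v y j)) y ^ 2 ≤ (216 * K0) * (ens v / r ^ 3) := by
    calc kv et r (pd k (fun y => v y j)) y ^ 2
        ≤ K0 * ((r ^ 3)⁻¹ * ∫ x in ball y r, pd k (fun y => v y j) x ^ 2) := h2
      _ ≤ K0 * ((r ^ 3)⁻¹ * (216 * ens v)) := by
          refine mul_le_mul_of_nonneg_left (mul_le_mul_of_nonneg_left ?_ (by positivity)) K0_nonneg
          linarith
      _ = _ := by ring
  refine (Real.abs_le_sqrt h7).trans (le_of_eq ?_)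
  rw [Real.sqrt_mul (mul_nonneg (by norm_num) K0_nonneg)]

theorem xsq_smul (c : ℝ) (a b : V) : xsq (c • a) (c • b) = c ^ 4 * xsq a b := by
  unfold xsq
  simp only [Pi.smul_apply, smul_eq_mul, Fin.sum_univ_three]
  ring

theorem vort_scv {r : ℝ} {x : V} {v : V → V} (hv : ContDiff ℝ ∞ v) (z : V) :
    vort (scv r x v) z = r ^ 2 • vort v (x + r • z) := by
  have e := fun k j => pd_scv (r := r) (x := x) hv k j z
  unfold vort
  ext i
  fin_cases i
  all_goals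
    simp only [e, Pi.smul_apply, smul_eq_mul]
    simp only [Fin.zero_eta, Fin.mk_one, Fin.reduceFinMk, Matrix.cons_val_zero, Matrix.cons_val_one,
      Matrix.cons_val]
    ring

theorem vsq_scv {r : ℝ} {x : V} {v : V → V} (hv : ContDiff ℝ ∞ v) (z : V) :
    vsq (scv r x v) z = r ^ 4 * vsq v (x + r • z) := by
  have h1 := osq_scv (r := r) (x := x) hv z
  rw [osq_vsq, osq_vsq] at h1
  linarith

theorem Coh.scale {ρ Λ r : ℝ} {x : V} {v : V → V} (hv : ContDiff ℝ ∞ v) (hr : 0 < r)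
    (hΛ : 0 ≤ Λ) (h : Coh ρ Λ (2 * r) x v) : Coh (√r * ρ) (1 + r ^ 2 * Λ) 2 0 (scv r x v) := by
  intro y hy z hz hyL hzL
  have hmem : ∀ w ∈ ball (0 : V) 2, x + r • w ∈ ball x (2 * r) := by
    intro w hw
    rw [mem_ball_iff_norm, add_sub_cancel_left, norm_smul, Real.norm_of_nonneg hr.le]
    rw [mem_ball_zero_iff] at hw
    nlinarith
  have hlow : ∀ w, (1 + r ^ 2 * Λ) ^ 2 < vsq (scv r x v) w → Λ ^ 2 < vsq v (x + r • w) := by
    intro w hw
    rw [vsq_scv hv] at hw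
    have h1 : r ^ 4 * Λ ^ 2 ≤ (1 + r ^ 2 * Λ) ^ 2 := by
      have : 0 ≤ r ^ 2 * Λ := by positivity
      nlinarith
    have h2 : r ^ 4 * Λ ^ 2 < r ^ 4 * vsq v (x + r • w) := h1.trans_lt hw
    exact lt_of_mul_lt_mul_left h2 (by positivity)
  have h1 := h _ (hmem y hy) _ (hmem z hz) (hlow y hyL) (hlow z hzL)
  rw [vort_scv hv, vort_scv hv, xsq_smul, vsq_scv hv, vsq_scv hv]
  have e1 : ‖x + r • y - (x + r • z)‖ = r * ‖y - z‖ := by
    rw [add_sub_add_left_eq_sub, ← smul_sub, norm_smul, Real.norm_of_nonneg hr.le]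
  rw [e1] at h1
  have e2 : (√r * ρ) ^ 2 = r * ρ ^ 2 := by rw [mul_pow, Real.sq_sqrt hr.le]
  rw [e2]
  calc (r ^ 2) ^ 4 * xsq (vort v (x + r • y)) (vort v (x + r • z))
      ≤ (r ^ 2) ^ 4 * (ρ ^ 2 * (r * ‖y - z‖) * (vsq v (x + r • y) * vsq v (x + r • z))) :=
        mul_le_mul_of_nonneg_left h1 (by positivity)
    _ = _ := by ring

theorem cf_num {C K c1 c2 N M e r ρ Λ S : ℝ} (hC : 1 ≤ C) (hc1 : 1 ≤ c1) (hc2 : 1 ≤ c2)
    (hK : 0 ≤ K) (hN : 0 ≤ N) (hM : 0 ≤ M) (he : 0 ≤ e) (hr : 0 < r) (hΛ : 0 ≤ Λ)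
    (h1 : N ≤ r * (c1 * M)) (h2 : N ≤ r * (c2 * e)) (hS0 : 0 ≤ S)
    (hS : S ≤ r ^ 2 * (K * (1 / r ^ 2 + e / r))) :
    r ^ 3 * ((r ^ 6)⁻¹ * (C * ((1 + S + (1 + r ^ 2 * Λ)) * N
      + (1 + (√r * ρ) ^ 2 + (1 + r ^ 2 * Λ) ^ 2) * N ^ 2)))
      ≤ C * c1 * (2 + K + 3 * c2) * ((1 / r ^ 2 + Λ + (1 / r + ρ ^ 2 + r ^ 3 * Λ ^ 2) * e) * M) := by
  have e2 : (√r * ρ) ^ 2 = r * ρ ^ 2 := by rw [mul_pow, Real.sq_sqrt hr.le]
  rw [e2]
  have a1 : (1 + r ^ 2 * Λ) ^ 2 ≤ 2 + 2 * (r ^ 4 * Λ ^ 2) := by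
    nlinarith [sq_nonneg (1 - r ^ 2 * Λ)]
  have a2 : N ^ 2 ≤ (r * (c1 * M)) * (r * (c2 * e)) := by
    rw [sq]
    exact mul_le_mul h1 h2 hN (by positivity)
  have a3 : (1 + S + (1 + r ^ 2 * Λ)) * N ≤ (2 + r ^ 2 * (K * (1 / r ^ 2 + e / r)) + r ^ 2 * Λ)
      * (r * (c1 * M)) := mul_le_mul (by linarith) h1 hN (by positivity)
  have a4 : (1 + r * ρ ^ 2 + (1 + r ^ 2 * Λ) ^ 2) * N ^ 2
      ≤ (3 + r * ρ ^ 2 + 2 * (r ^ 4 * Λ ^ 2)) * ((r * (c1 * M)) * (r * (c2 * e))) :=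
    mul_le_mul (by linarith) a2 (by positivity) (by positivity)
  calc _ ≤ r ^ 3 * ((r ^ 6)⁻¹ * (C * ((2 + r ^ 2 * (K * (1 / r ^ 2 + e / r)) + r ^ 2 * Λ)
        * (r * (c1 * M)) + (3 + r * ρ ^ 2 + 2 * (r ^ 4 * Λ ^ 2))
          * ((r * (c1 * M)) * (r * (c2 * e)))))) := by
        gcongr
    _ = C * c1 * ((2 * (1 / r ^ 2) + K * (1 / r ^ 2 + 1 / r * e) + Λ
        + c2 * ((3 * (1 / r) + ρ ^ 2 + 2 * (r ^ 3 * Λ ^ 2)) * e)) * M) := by
        field_simp
    _ ≤ C * c1 * ((2 + K + 3 * c2) * (1 / r ^ 2 + Λ + (1 / r + ρ ^ 2 + r ^ 3 * Λ ^ 2) * e) * M) := by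
        have q1 : 0 ≤ 1 / r ^ 2 := by positivity
        have q2 : 0 ≤ 1 / r * e := by positivity
        have q3 : 0 ≤ ρ ^ 2 * e := by positivity
        have q4 : 0 ≤ r ^ 3 * Λ ^ 2 * e := by positivity
        have p1 : 0 ≤ c2 * (1 / r ^ 2) := by positivity
        have p2 : 0 ≤ K * Λ := by positivity
        have p3 : 0 ≤ c2 * Λ := by positivity
        have p4 : 0 ≤ K * (ρ ^ 2 * e) := by positivity
        have p5 : 0 ≤ K * (r ^ 3 * Λ ^ 2 * e) := by positivity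
        have p6 : 0 ≤ c2 * (ρ ^ 2 * e) := by positivity
        have p7 : 0 ≤ c2 * (r ^ 3 * Λ ^ 2 * e) := by positivity
        refine mul_le_mul_of_nonneg_left (mul_le_mul_of_nonneg_right ?_ hM) (by positivity)
        have e3 : (2 + K + 3 * c2) * (1 / r ^ 2 + Λ + (1 / r + ρ ^ 2 + r ^ 3 * Λ ^ 2) * e)
            = (2 * (1 / r ^ 2) + K * (1 / r ^ 2 + 1 / r * e) + Λ
              + c2 * ((3 * (1 / r) + ρ ^ 2 + 2 * (r ^ 3 * Λ ^ 2)) * e))
              + (3 * (c2 * (1 / r ^ 2)) + Λ + K * Λ + 3 * (c2 * Λ) + 2 * (1 / r * e)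
              + 2 * (ρ ^ 2 * e) + 2 * (r ^ 3 * Λ ^ 2 * e) + K * (ρ ^ 2 * e)
              + K * (r ^ 3 * Λ ^ 2 * e) + 2 * (c2 * (ρ ^ 2 * e))
              + c2 * (r ^ 3 * Λ ^ 2 * e)) := by ring
        rw [e3]
        have : 0 ≤ 3 * (c2 * (1 / r ^ 2)) + Λ + K * Λ + 3 * (c2 * Λ) + 2 * (1 / r * e)
              + 2 * (ρ ^ 2 * e) + 2 * (r ^ 3 * Λ ^ 2 * e) + K * (ρ ^ 2 * e)
              + K * (r ^ 3 * Λ ^ 2 * e) + 2 * (c2 * (ρ ^ 2 * e))
              + c2 * (r ^ 3 * Λ ^ 2 * e) := by positivity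
        linarith
    _ = _ := by ring

/-- The derivative in time at a local maximum in space. -/
theorem enk_cf (hκ : Cut κ) : ∃ C : ℝ, 1 ≤ C ∧
    ∀ (T : ℝ) (u : ℝ → V → V) (p : ℝ → V → ℝ), IsSol 1 T u p → ∀ (r : ℝ) (x : V), 0 < r → r ≤ 1 →
      ∀ t ∈ Ioo 0 T, IsLocalMax (enk κ r (u t)) x → ∀ M ρ Λ : ℝ, (∀ w, enk κ r (u t) w ≤ M) →
        0 ≤ ρ → 0 ≤ Λ → Coh ρ Λ (2 * r) x (u t) →
          ∃ D : ℝ, HasDerivAt (fun s => enk κ r (u s) x) D t ∧
            D ≤ C * ((1 / r ^ 2 + Λ + (1 / r + ρ ^ 2 + r ^ 3 * Λ ^ 2) * ens (u t)) * M) := by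
  obtain ⟨C, hC, hU⟩ := unit_cf hκ
  obtain ⟨C₀, hC₀, hcov⟩ := enk_cover hκ
  have hK0 := K0_nonneg
  have hK : 0 ≤ √(216 * K0) := Real.sqrt_nonneg _
  refine ⟨C * (729 * C₀) * (2 + √(216 * K0) + 3 * (729 * 432)), ?_, ?_⟩
  · have h1 : 1 ≤ C * (729 * C₀) := by nlinarith
    have h2 : 1 ≤ 2 + √(216 * K0) + 3 * (729 * 432) := by linarith
    exact one_le_mul_of_one_le_of_one_le h1 h2
  intro T u p hu r x hr hr1 t ht hmax M ρ Λ hM hρ hΛ hcoh
  have hL := LS.of_IsSol hu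
  have hv : ContDiff ℝ ∞ (u t) := W382.ME.cd_slice hL.smooth_u ht
  have hper : Per (u t) := hu.per_u t ⟨ht.1.le, ht.2⟩
  have hM0 : 0 ≤ M := (enk_nonneg hκ hr (u t) x).trans (hM x)
  refine ⟨_, enk_deriv hκ hL hr ht x, ?_⟩
  set v := scv r x (u t) with hvdef
  have hdiv0 : ∀ y, dv (u t) y = 0 := fun y => hL.divfree t ht y (mem_univ _)
  have hdiv : ∀ y ∈ ball (0 : V) 8, dv v y = 0 := by
    intro y _
    rw [hvdef, dv_scv hv, hdiv0, mul_zero]
  set N := ∫ z in ball (0 : V) 8, osq v z with hN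
  have hN0 : 0 ≤ N := integral_nonneg fun z => osq_nonneg v z
  have hoc := (osq_smooth hv).continuous
  have hNe : N = r * ∫ y in ball x (r * 8), osq (u t) y := by
    have h1 : ∀ z, osq v z = r ^ 4 * osq (u t) (x + r • z) := fun z => osq_scv hv z
    rw [hN]
    simp_rw [h1]
    rw [integral_const_mul, cov' (osq (u t)) x hr]
    field_simp
  have hN1 : N ≤ r * (729 * C₀ * M) := by
    rw [hNe]
    refine mul_le_mul_of_nonneg_left ?_ hr.le
    have h2 := cover hoc (osq_nonneg (u t)) (x := x) (ρ := r * 8) (s := r) (M := C₀ * M)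
      (by positivity) hr fun w _ => hcov (u t) hv r M w hr hM
    have h3 : (r * 8 + r) / r = 9 := by
      field_simp
      norm_num
    rw [h3] at h2
    linarith
  have hN2 : N ≤ r * (729 * 432 * ens (u t)) := by
    rw [hNe]
    refine mul_le_mul_of_nonneg_left ?_ hr.le
    have h2 := cover hoc (osq_nonneg (u t)) (x := x) (ρ := 8) (s := 1) (M := 432 * ens (u t))
      (by norm_num) one_pos fun w _ => by
        have h4 := ball1_le hoc (per_osq hper) (osq_nonneg (u t)) w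
        rw [ens_osq] at h4
        linarith
    have h3 : ∫ y in ball x (r * 8), osq (u t) y ≤ ∫ y in ball x 8, osq (u t) y :=
      ball_mono hoc (osq_nonneg (u t)) (ball_subset_ball (by linarith))
    have h4 : ((8 : ℝ) + 1) / 1 = 9 := by norm_num
    rw [h4] at h2
    linarith
  set S : ℝ := r ^ 2 * (√(216 * K0) * √(ens (u t) / r ^ 3)) with hS
  have hS0 : 0 ≤ S := by positivity
  have hSb : ∀ z ∈ ball (0 : V) 1, ∀ k j, |kv et 1 (pd k (fun y => v y j)) z| ≤ S := by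
    intro z _ k j
    rw [hvdef, kv_scv hv, abs_mul, abs_of_nonneg (by positivity)]
    exact mul_le_mul_of_nonneg_left (grad_ens ⟨hv, hper⟩ hdiv0 hr hr1 _ k j) (by positivity)
  have hSle : S ≤ r ^ 2 * (√(216 * K0) * (1 / r ^ 2 + ens (u t) / r)) := by
    refine mul_le_mul_of_nonneg_left (mul_le_mul_of_nonneg_left ?_ hK) (by positivity)
    have he := ens_nonneg (u t)
    rw [Real.sqrt_le_left (by positivity)]
    have e1 : ens (u t) / r ^ 3 = (1 / r ^ 2) * (ens (u t) / r) := by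
      field_simp
    rw [e1]
    have q1 : 0 ≤ 1 / r ^ 2 := by positivity
    have q2 : 0 ≤ ens (u t) / r := by positivity
    nlinarith
  obtain ⟨hc1, hc2⟩ := enk_max hκ hv hr hmax
  have h5 := hU v (scv_smooth hv) hdiv N S (√r * ρ) (1 + r ^ 2 * Λ) le_rfl hS0 (by positivity)
    (by positivity) hSb (hcoh.scale hv hr hΛ)
  have h6 : ∑ k, (∫ w, th w * v w k)
      * ∫ z in ball (0 : V) 1, osq v z * pd k (fun z : V => κ z * κ z) z = 0 :=
    Finset.sum_eq_zero fun k _ => by rw [hc1 k, mul_zero]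
  rw [h6, add_zero] at h5
  have h7 : ∫ z, RR v 0 z * (κ z * κ z) ≤ C * ((1 + S + (1 + r ^ 2 * Λ)) * N
      + (1 + (√r * ρ) ^ 2 + (1 + r ^ 2 * Λ) ^ 2) * N ^ 2) := by linarith
  refine le_trans ?_ (cf_num hC (by linarith) (by norm_num) hK hN0 hM0 (ens_nonneg (u t)) hr hΛ
    hN1 hN2 hS0 hSle)
  exact mul_le_mul_of_nonneg_left (mul_le_mul_of_nonneg_left h7 (by positivity)) (by positivity)

end Pool.Agent.H946.NS
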