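import Pool.Agent.H946_NS.Shell

/-!
Concentration of the enstrophy at every singular point, viscosity one.
-/

set_option autoImplicit false

open MeasureTheory Set Metric Filter Topology
open scoped ContDiff ENNReal

namespace Pool.Agent.H946.NS

open H459R3.NS W221.NS Pool.Agent.W583.MD

/-- The numerical part of the step. -/
theorem num_step {C A c w r L M E d : ℝ} (hC : 1 ≤ C) (hA2 : 8 * C ≤ A ^ 2) (hA : 1 ≤ A)
    (hc : 0 < c) (hc1 : c ≤ 1) (hc2 : 64 * C ^ 2 * c ≤ 1) (hw : 0 < w) (hL1 : 1 ≤ L)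
    (hr : A * √w ≤ r) (hr3 : r ^ 3 ≤ √w ^ 3 * L ^ 2) (hM : M = c * r ^ 3 / (w ^ 2 * L ^ 2))
    (hlog : Real.log (d / r) ≤ L) (hE : w * (C * (E / (d * √(d ^ 3)))) ≤ 1 / 8) :
    w * (C * (M / r ^ 2 + (E / (d * √(d ^ 3)) + √(M / r ^ 3) * Real.log (d / r)) * M
      + M ^ 3)) < M := by
  have hs : 0 < √w := Real.sqrt_pos.2 hw
  have hsw : √w ^ 2 = w := Real.sq_sqrt hw.le
  have hr0 : 0 < r := lt_of_lt_of_le (by positivity) hr
  have hM0 : 0 < M := by rw [hM]; positivity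
  -- first term
  have t1 : w * (C * (1 / r ^ 2)) ≤ 1 / 8 := by
    have h1 : 8 * (w * C) ≤ r ^ 2 := by
      calc 8 * (w * C) = 8 * C * √w ^ 2 := by rw [hsw]; ring
        _ ≤ A ^ 2 * √w ^ 2 := mul_le_mul_of_nonneg_right hA2 (by positivity)
        _ = (A * √w) ^ 2 := by ring
        _ ≤ r ^ 2 := pow_le_pow_left₀ (by positivity) hr 2
    rw [show w * (C * (1 / r ^ 2)) = w * C / r ^ 2 by ring, div_le_iff₀ (by positivity)]
    linarith
  -- third term
  have e3 : √(M / r ^ 3) = √c / (w * L) := by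
    have : M / r ^ 3 = c / (w * L) ^ 2 := by
      rw [hM]
      field_simp
    rw [this, Real.sqrt_div hc.le, Real.sqrt_sq (by positivity)]
  have hsc : C * √c ≤ 1 / 8 := by
    have h1 : (C * √c) ^ 2 ≤ (1 / 8) ^ 2 := by
      rw [mul_pow, Real.sq_sqrt hc.le]
      linarith
    exact (pow_le_pow_iff_left₀ (by positivity) (by norm_num) two_ne_zero).1 h1
  have t3 : w * (C * (√(M / r ^ 3) * Real.log (d / r))) ≤ 1 / 8 := by
    have h1 : √c / (w * L) * Real.log (d / r) ≤ √c / (w * L) * L :=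
      mul_le_mul_of_nonneg_left hlog (by positivity)
    have h2 : √c / (w * L) * L = √c / w := by
      field_simp
    rw [e3]
    calc w * (C * (√c / (w * L) * Real.log (d / r))) ≤ w * (C * (√c / w)) := by
          rw [← h2]
          exact mul_le_mul_of_nonneg_left (mul_le_mul_of_nonneg_left h1 (by linarith)) hw.le
      _ = C * √c := by
          field_simp
      _ ≤ _ := hsc
  -- fourth term
  have t4 : w * (C * M ^ 2) ≤ 1 / 8 := by
    have h1 : M ≤ c / √w := by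
      rw [hM, div_le_div_iff₀ (by positivity) hs]
      have h2 : c * r ^ 3 * √w ≤ c * (√w ^ 3 * L ^ 2) * √w := by gcongr
      refine h2.trans (le_of_eq ?_)
      have : √w ^ 4 = w ^ 2 := by
        calc √w ^ 4 = (√w ^ 2) ^ 2 := by ring
          _ = _ := by rw [hsw]
      calc c * (√w ^ 3 * L ^ 2) * √w = c * (√w ^ 4 * L ^ 2) := by ring
        _ = _ := by rw [this]
    have h3 : M ^ 2 ≤ c ^ 2 / w := by
      calc M ^ 2 ≤ (c / √w) ^ 2 := pow_le_pow_left₀ hM0.le h1 2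
        _ = _ := by rw [div_pow, hsw]
    calc w * (C * M ^ 2) ≤ w * (C * (c ^ 2 / w)) := by gcongr
      _ = C * c ^ 2 := by
          field_simp
      _ ≤ 1 / 8 := by
          have h4 : C * c ≤ C ^ 2 * c := by
            have : C ≤ C ^ 2 := by nlinarith
            exact mul_le_mul_of_nonneg_right this hc.le
          have h5 : C * c ^ 2 ≤ C * c := by
            have : c ^ 2 ≤ c := by nlinarith
            exact mul_le_mul_of_nonneg_left this (by linarith)
          linarith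
  have e : w * (C * (M / r ^ 2 + (E / (d * √(d ^ 3)) + √(M / r ^ 3) * Real.log (d / r)) * M
      + M ^ 3)) = (w * (C * (1 / r ^ 2)) + w * (C * (E / (d * √(d ^ 3))))
        + w * (C * (√(M / r ^ 3) * Real.log (d / r))) + w * (C * M ^ 2)) * M := by ring
  rw [e]
  have : (w * (C * (1 / r ^ 2)) + w * (C * (E / (d * √(d ^ 3))))
        + w * (C * (√(M / r ^ 3) * Real.log (d / r))) + w * (C * M ^ 2)) ≤ 1 / 2 := by linarith
  nlinarith

/-- A limit. -/
theorem lim_slog : Tendsto (fun w : ℝ => √w * Real.log (1 / w) ^ 2) (𝓝[>] 0) (𝓝 0) := by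
  have h1 := (tendsto_log_mul_rpow_nhdsGT_zero (r := 1 / 4) (by norm_num)).pow 2
  simp only [ne_eq, OfNat.ofNat_ne_zero, not_false_eq_true, zero_pow] at h1
  refine h1.congr' ?_
  filter_upwards [self_mem_nhdsWithin] with w hw
  have hw' : (0 : ℝ) < w := hw
  have e : Real.log (1 / w) = -Real.log w := by
    rw [one_div, Real.log_inv]
  rw [e, neg_sq, mul_pow]
  have : (w ^ (1 / 4 : ℝ)) ^ 2 = √w := by
    rw [← Real.rpow_natCast, ← Real.rpow_mul hw'.le, Real.sqrt_eq_rpow]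
    norm_num
  rw [this]
  ring

theorem lim_sq (a : ℝ) : Tendsto (fun w : ℝ => a * √w) (𝓝[>] 0) (𝓝 0) := by
  have : Continuous fun w : ℝ => a * √w := by fun_prop
  have h := this.tendsto 0
  simp only [Real.sqrt_zero, mul_zero] at h
  exact h.mono_left nhdsWithin_le_nhds

theorem lim_id (a : ℝ) : Tendsto (fun w : ℝ => a * w) (𝓝[>] 0) (𝓝 0) := by
  have : Continuous fun w : ℝ => a * w := by fun_prop
  have h := this.tendsto 0
  simp only [mul_zero] at h
  exact h.mono_left nhdsWithin_le_nhds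

theorem lim_ssq (a : ℝ) : Tendsto (fun w : ℝ => a * √(√w)) (𝓝[>] 0) (𝓝 0) := by
  have : Continuous fun w : ℝ => a * √(√w) := by fun_prop
  have h := this.tendsto 0
  simp only [Real.sqrt_zero, mul_zero] at h
  exact h.mono_left nhdsWithin_le_nhds

theorem ev_log (a : ℝ) : ∀ᶠ w : ℝ in 𝓝[>] 0, a ≤ Real.log (1 / w) := by
  have h1 : Tendsto (fun w : ℝ => Real.log w⁻¹) (𝓝[>] 0) atTop :=
    Real.tendsto_log_atTop.comp tendsto_inv_nhdsGT_zero
  filter_upwards [h1.eventually_ge_atTop a] with w hw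
  rwa [one_div]

/-- Concentration at the scales above the parabolic one. -/
theorem conc_one : ∃ c A : ℝ, 0 < c ∧ 1 ≤ A ∧ ∀ (T κ E : ℝ) (O : Set V) (u : ℝ → V → V)
    (p : ℝ → V → ℝ), 0 < T → 0 ≤ κ → 0 ≤ E → LSol T κ E O u p → ∀ (x₀ : V) (η : ℝ), 0 < η →
      closedBall x₀ η ⊆ O → Sing T u x₀ →
      (∫⁻ t in Ioo 0 T, ∫⁻ y in O, ENNReal.ofReal (gsq (u t) y) ≠ ⊤) →
      (∃ d₀ ∈ Ioo 0 η, ∀ z, dist z x₀ = d₀ → ¬ Sing T u z) →
        ∀ᶠ w in 𝓝[>] (0 : ℝ), ∀ r : ℝ, A * √w ≤ r → r ^ 3 ≤ √w ^ 3 * Real.log (1 / w) ^ 2 →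
          ∃ x ∈ ball x₀ η, c * r ^ 3 / (w ^ 2 * Real.log (1 / w) ^ 2)
            < ∫ y in ball x r, osq (u (T - w)) y := by
  obtain ⟨C, hC, hLP⟩ := local_prop
  refine ⟨1 / (64 * C ^ 2), 8 * C, by positivity, by linarith, ?_⟩
  set c : ℝ := 1 / (64 * C ^ 2) with hc
  set A : ℝ := 8 * C with hA
  have hc0 : 0 < c := by positivity
  have hC2 : 1 ≤ C ^ 2 := by nlinarith
  have hc1 : c ≤ 1 := by
    rw [hc, div_le_one (by positivity)]
    linarith
  have hc2 : 64 * C ^ 2 * c ≤ 1 := by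
    rw [hc]
    apply le_of_eq
    field_simp
  have hA1 : 1 ≤ A := by linarith
  have hA2 : 8 * C ≤ A ^ 2 := by
    rw [hA]
    nlinarith
  intro T κ E O u p hT hκ hE hL x₀ η hη hO hS hfin ⟨d₀, hd₀, hreg⟩
  have hLS := LS.of_LSol hL
  have hO' : closedBall x₀ d₀ ⊆ O := (closedBall_subset_closedBall hd₀.2.le).trans hO
  obtain ⟨d, B, hd, hdd, hdT, hB⟩ := shell hT hLS hfin hd₀.1 hO' hreg
  -- the smallness conditions
  have f1 : ∀ᶠ w : ℝ in 𝓝[>] 0, 1 * w < d := (lim_id 1).eventually_lt_const hd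
  have f2 : ∀ᶠ w : ℝ in 𝓝[>] 0, 27 * (1 * √w * (√w * (√w * Real.log (1 / w) ^ 2))) < d ^ 3 := by
    have h1 : Tendsto (fun w : ℝ => 27 * (1 * √w * (√w * (√w * Real.log (1 / w) ^ 2))))
        (𝓝[>] 0) (𝓝 (27 * (0 * (0 * 0)))) := by
      refine ((lim_sq 1).mul (Tendsto.mul ?_ lim_slog)).const_mul 27
      have := lim_sq 1
      simpa using this
    simp only [mul_zero] at h1
    exact h1.eventually_lt_const (by positivity)
  have f3 : ∀ᶠ w : ℝ in 𝓝[>] 0, C * E * √(√w) < d := (lim_ssq (C * E)).eventually_lt_const hd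
  have f4 : ∀ᶠ w : ℝ in 𝓝[>] 0, B * (√w * Real.log (1 / w) ^ 2) < c := by
    have h1 := lim_slog.const_mul B
    rw [mul_zero] at h1
    exact h1.eventually_lt_const hc0
  have f5 : ∀ᶠ w : ℝ in 𝓝[>] 0, C * (E / (d * √(d ^ 3))) * w < 1 / 8 :=
    (lim_id _).eventually_lt_const (by norm_num)
  have f6 : ∀ᶠ w : ℝ in 𝓝[>] 0, d * √w < 1 := (lim_sq d).eventually_lt_const one_pos
  filter_upwards [f1, f2, f3, f4, f5, f6, ev_log 1, self_mem_nhdsWithin] with w g1 g2 g3 g4 g5 g6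
    g7 hw0 r hr hr3
  have hw : (0 : ℝ) < w := hw0
  set L := Real.log (1 / w) with hLdef
  have hs : 0 < √w := Real.sqrt_pos.2 hw
  have hsw : √w ^ 2 = w := Real.sq_sqrt hw.le
  have hr0 : 0 < r := lt_of_lt_of_le (by positivity) hr
  have hrs : √w ≤ r := by nlinarith
  set M := c * r ^ 3 / (w ^ 2 * L ^ 2) with hM
  have hM0 : 0 < M := by positivity
  have hwT : w < T := by linarith
  have ht : T - w ∈ Ioo 0 T := ⟨by linarith, by linarith⟩
  have hv : ∀ t ∈ Ioo 0 T, ContDiff ℝ ∞ (u t) := fun t ht => W382.ME.cd_slice hL.smooth_u ht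
  by_contra hcon
  push Not at hcon
  have h3r : 3 * r ≤ d := by
    have h1 : (3 * r) ^ 3 ≤ d ^ 3 := by
      calc (3 * r) ^ 3 = 27 * r ^ 3 := by ring
        _ ≤ 27 * (√w ^ 3 * L ^ 2) := by gcongr
        _ = 27 * (1 * √w * (√w * (√w * L ^ 2))) := by ring
        _ ≤ d ^ 3 := g2.le
    exact (pow_le_pow_iff_left₀ (by positivity) hd.le three_ne_zero).1 h1
  have hkey := hLP T κ E O u p hκ hE hL x₀ d₀ d r (T - w) M hO' hd hdd hr0 h3r ht hM0 (by
      have e : T - (T - w) = w := by ring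
      rw [e]
      have h1 : √(√w ^ 3) ≤ √(r ^ 3) := Real.sqrt_le_sqrt (pow_le_pow_left₀ hs.le hrs 3)
      have h2 : 0 < √(√w ^ 3) := Real.sqrt_pos.2 (by positivity)
      have h3 : √(√w) * √(√w ^ 3) = w := by
        rw [← Real.sqrt_mul hs.le]
        have : √w * √w ^ 3 = w ^ 2 := by
          calc √w * √w ^ 3 = (√w ^ 2) ^ 2 := by ring
            _ = _ := by rw [hsw]
        rw [this, Real.sqrt_sq hw.le]
      have h4 : w / √(√w ^ 3) = √(√w) := by
        rw [div_eq_iff h2.ne', h3]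
      calc w * (C * E / √(r ^ 3)) ≤ w * (C * E / √(√w ^ 3)) := by gcongr
        _ = C * E * (w / √(√w ^ 3)) := by ring
        _ = C * E * √(√w) := by rw [h4]
        _ ≤ d := g3.le)
    (fun t ht' x hx1 hx2 => by
      have ht0 : t ∈ Ioo 0 T := ⟨ht.1.trans ht'.1, ht'.2⟩
      refine lt_of_le_of_lt ((en_le hr0 (hv t ht0) x).trans ((ball_mono
        (osq_smooth (hv t ht0)).continuous (osq_nonneg _)
        (ball_subset_ball (show r ≤ d by linarith))).trans
          (hB x hx1 hx2 t ⟨by linarith [ht'.1], ht'.2⟩))) ?_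
      have h1 : c / (√w * L ^ 2) ≤ M := by
        rw [hM, div_le_div_iff₀ (by positivity) (by positivity)]
        have h2 : √w ^ 3 ≤ r ^ 3 := pow_le_pow_left₀ hs.le hrs 3
        have h3 : w ^ 2 = √w ^ 3 * √w := by
          calc w ^ 2 = (√w ^ 2) ^ 2 := by rw [hsw]
            _ = _ := by ring
        calc c * (w ^ 2 * L ^ 2) = c * √w ^ 3 * (√w * L ^ 2) := by rw [h3]; ring
          _ ≤ c * r ^ 3 * (√w * L ^ 2) := by gcongr
      have h2 : B < c / (√w * L ^ 2) := by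
        rw [lt_div_iff₀ (by positivity)]
        exact g4
      linarith)
    (fun x hx => by
      refine (en_le hr0 (hv _ ht) x).trans (hcon x ?_)
      exact closedBall_subset_ball hd₀.2 hx)
    (by
      have e : T - (T - w) = w := by ring
      rw [e]
      refine num_step hC hA2 hA1 hc0 hc1 hc2 hw g7 hr hr3 hM ?_ (by linarith)
      rw [hLdef]
      apply Real.log_le_log (by positivity)
      rw [div_le_div_iff₀ hr0 hw]
      calc d * w = d * √w * √w := by
            rw [mul_assoc, ← sq, hsw]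
        _ ≤ 1 * √w := mul_le_mul_of_nonneg_right g6.le hs.le
        _ ≤ 1 * r := by linarith)
  refine not_sing hκ hE hL (x₀ := x₀) (r := 3 / 4 * r) (t₀ := T - w) (K := 2 * M) (by positivity)
    (fun y hy => hO' (by
      rw [mem_ball] at hy
      rw [mem_closedBall]
      linarith)) ht (fun t ht' => ?_) hS
  have ht0 : t ∈ Ioo 0 T := ⟨ht.1.trans_le ht'.1, ht'.2⟩
  exact (le_en hr0 (hv t ht0) x₀).trans (hkey t ht' x₀ (mem_closedBall_self hd₀.1.le)).le

/-- Concentration at all scales. -/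
theorem conc_all : ∃ c : ℝ, 0 < c ∧ ∀ (T κ E : ℝ) (O : Set V) (u : ℝ → V → V)
    (p : ℝ → V → ℝ), 0 < T → 0 ≤ κ → 0 ≤ E → LSol T κ E O u p → ∀ (x₀ : V) (η : ℝ), 0 < η →
      closedBall x₀ η ⊆ O → Sing T u x₀ →
      (∫⁻ t in Ioo 0 T, ∫⁻ y in O, ENNReal.ofReal (gsq (u t) y) ≠ ⊤) →
      (∀ a : ℝ, 0 < a → a ≤ η → ∃ d₀ ∈ Ioo 0 a, ∀ z, dist z x₀ = d₀ → ¬ Sing T u z) →
        ∀ᶠ w in 𝓝[>] (0 : ℝ), ∀ r : ℝ, 0 < r → r ^ 3 ≤ √w ^ 3 * Real.log (1 / w) ^ 2 →
          ∃ x ∈ ball x₀ η, ball x r ⊆ ball x₀ η ∧ c * r ^ 3 / (w ^ 2 * Real.log (1 / w) ^ 2)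
            < ∫ y in ball x r, osq (u (T - w)) y := by
  obtain ⟨c, A, hc, hA, H⟩ := conc_one
  refine ⟨c / 8, by positivity, ?_⟩
  intro T κ E O u p hT hκ hE hL x₀ η hη hO hS hfin hreg
  have h1 := H T κ E O u p hT hκ hE hL x₀ (η / 2) (by positivity)
    ((closedBall_subset_closedBall (by linarith)).trans hO) hS hfin
    (hreg (η / 2) (by positivity) (by linarith))
  have f1 : ∀ᶠ w : ℝ in 𝓝[>] 0, 3 * A * √w < η / 2 := (lim_sq _).eventually_lt_const (by positivity)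
  have f2 : ∀ᶠ w : ℝ in 𝓝[>] 0, 1 * w < T := (lim_id 1).eventually_lt_const hT
  have f3 : ∀ᶠ w : ℝ in 𝓝[>] 0, 8 * (1 * √w * (√w * (√w * Real.log (1 / w) ^ 2))) < η ^ 3 := by
    have h1 : Tendsto (fun w : ℝ => 8 * (1 * √w * (√w * (√w * Real.log (1 / w) ^ 2))))
        (𝓝[>] 0) (𝓝 (8 * (0 * (0 * 0)))) := by
      refine ((lim_sq 1).mul (Tendsto.mul ?_ lim_slog)).const_mul 8
      have := lim_sq 1
      simpa using this
    simp only [mul_zero] at h1
    exact h1.eventually_lt_const (by positivity)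
  filter_upwards [h1, f1, f2, f3, ev_log (A ^ 3), self_mem_nhdsWithin] with w g1 g2 g3 g4 g5 hw0 r
    hr hr3
  have hw : (0 : ℝ) < w := hw0
  set L := Real.log (1 / w) with hLdef
  have hs : 0 < √w := Real.sqrt_pos.2 hw
  have hA3 : 1 ≤ A ^ 3 := one_le_pow₀ hA
  have hL1 : 1 ≤ L := hA3.trans g5
  have ht : T - w ∈ Ioo 0 T := ⟨by linarith, by linarith⟩
  have hv : ContDiff ℝ ∞ (u (T - w)) := W382.ME.cd_slice hL.smooth_u ht
  have hrη : 2 * r ≤ η := by
    have h2 : (2 * r) ^ 3 ≤ η ^ 3 := by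
      calc (2 * r) ^ 3 = 8 * r ^ 3 := by ring
        _ ≤ 8 * (√w ^ 3 * L ^ 2) := by gcongr
        _ = 8 * (1 * √w * (√w * (√w * L ^ 2))) := by ring
        _ ≤ η ^ 3 := g4.le
    exact (pow_le_pow_iff_left₀ (by positivity) hη.le three_ne_zero).1 h2
  have hin : ∀ x ∈ ball x₀ (η / 2), ball x r ⊆ ball x₀ η := fun x hx y hy => by
    rw [mem_ball] at hx hy ⊢
    linarith [dist_triangle y x x₀]
  rcases le_total (A * √w) r with hcase | hcase
  · obtain ⟨x, hx, hlt⟩ := g1 r hcase hr3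
    refine ⟨x, ball_subset_ball (by linarith) hx, hin x hx, lt_of_le_of_lt ?_ hlt⟩
    have : 0 ≤ c * r ^ 3 / (w ^ 2 * L ^ 2) := by positivity
    calc c / 8 * r ^ 3 / (w ^ 2 * L ^ 2) = (c * r ^ 3 / (w ^ 2 * L ^ 2)) / 8 := by ring
      _ ≤ _ := by linarith
  · by_contra hcon
    push Not at hcon
    obtain ⟨x, hx, hlt⟩ := g1 (A * √w) le_rfl (by
      rw [mul_pow, mul_comm]
      refine mul_le_mul_of_nonneg_left (g5.trans ?_) (by positivity)
      nlinarith)
    set ρ := A * √w with hρ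
    have hρ0 : 0 < ρ := by positivity
    have hρη : 3 * ρ < η / 2 := by
      rw [hρ]
      linarith
    set m := c / 8 * r ^ 3 / (w ^ 2 * L ^ 2) with hm
    have hm0 : 0 ≤ m := by positivity
    have h2 := cover (osq_smooth hv).continuous (osq_nonneg (u (T - w))) (x := x) (ρ := ρ) (s := r)
      (M := m) hρ0 hr (fun y hy => by
        have hy2 : dist y x₀ < η := by
          rw [mem_ball] at hx hy
          linarith [dist_triangle y x x₀]
        refine hcon y hy2 ?_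
        intro z hz
        rw [mem_ball] at hx hy hz ⊢
        linarith [dist_triangle z y x₀, dist_triangle y x x₀])
    have h3 : ((ρ + r) / r) ^ 3 * m ≤ (2 * ρ / r) ^ 3 * m := by
      gcongr
      linarith
    have h4 : (2 * ρ / r) ^ 3 * m = c * ρ ^ 3 / (w ^ 2 * L ^ 2) := by
      rw [hm]
      field_simp
      ring
    linarith

end Pool.Agent.H946.NS
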