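import Pool.Agent.H946_NS.CF12

/-!
The stretching term, if the direction of the vorticity varies little: two levels.
-/

set_option autoImplicit false

open MeasureTheory Set Metric Filter Topology
open scoped ContDiff ENNReal

namespace Pool.Agent.H946.NS

open H459R3.NS W221.NS Pool.Agent.W583.MD

/-- The angle between the vorticity at a point `y` of the ball of radius `s` around `x`, if it is
longer than `B`, and the vorticity at a point `z` of the ball of radius `2 s`, if it is longer than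
`L`, has a sine of at most `R √|y - z|`. -/
def Coh2 (R B L s : ℝ) (x : V) (v : V → V) : Prop := ∀ y ∈ ball x s, ∀ z ∈ ball x (2 * s),
  B ^ 2 < vsq v y → L ^ 2 < vsq v z →
    xsq (vort v y) (vort v z) ≤ R ^ 2 * ‖y - z‖ * (vsq v y * vsq v z)

/-- The vector product with the high vorticity. -/
theorem hv_tri2 {R B L ρ : ℝ} (hR : 0 ≤ R) (hL : 0 < L) (hρ : 0 ≤ ρ) (hρ1 : ρ ≤ 1) {v : V → V}
    (hc : Coh2 R B L 1 0 v) {z y : V} (hz : z ∈ ball (0 : V) 1) (hy : y ∈ ball (0 : V) 1)
    (hzL : B ^ 2 < vsq v z) :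
    |∑ i, ∑ j, y i * vort v z j * hv (2 * L ^ 2) v i j (z + ρ • y)|
      ≤ 2 * (R * √ρ * (√(vsq v z) * √(osq v (z + ρ • y)))) := by
  set w := z + ρ • y with hw
  have hy1 : ‖y‖ < 1 := mem_ball_zero_iff.1 hy
  have hz1 : ‖z‖ < 1 := mem_ball_zero_iff.1 hz
  have hL2 : 0 < 2 * L ^ 2 := by positivity
  have e1 : ∑ i, ∑ j, y i * vort v z j * hv (2 * L ^ 2) v i j w
      = (1 - tb (osq v w / (2 * L ^ 2))) * ∑ i, ∑ j, y i * vort v z j * om v i j w := by
    simp_rw [hv_eq]
    simp only [Fin.sum_univ_three]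
    ring
  have ht0 : 0 ≤ tb (osq v w / (2 * L ^ 2)) := tb.nonneg
  have ht1 : tb (osq v w / (2 * L ^ 2)) ≤ 1 := tb.le_one
  have hr0 : 0 ≤ 2 * (R * √ρ * (√(vsq v z) * √(osq v w))) := by positivity
  rcases le_total (osq v w) (2 * L ^ 2) with h | h
  · have h1 : osq v w / (2 * L ^ 2) ≤ 1 := by
      rw [div_le_one hL2]
      exact h
    rw [e1, tb_one (div_nonneg (osq_nonneg v w) hL2.le) h1, sub_self, zero_mul, abs_zero]
    exact hr0
  · rcases eq_or_lt_of_le h with h | h
    · have h1 : osq v w / (2 * L ^ 2) ≤ 1 := by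
        rw [div_le_one hL2]
        exact h.symm.le
      rw [e1, tb_one (div_nonneg (osq_nonneg v w) hL2.le) h1, sub_self, zero_mul, abs_zero]
      exact hr0
    · have hwL : L ^ 2 < vsq v w := by
        have := osq_vsq v w
        linarith
      have hw2 : w ∈ ball (0 : V) 2 := by
        rw [mem_ball_zero_iff, hw]
        have h1 := norm_add_le z (ρ • y)
        rw [norm_smul, Real.norm_of_nonneg hρ] at h1
        nlinarith
      have h1 := hc z hz w (by rwa [mul_one]) hzL hwL
      have hzw : ‖z - w‖ ≤ ρ := by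
        rw [hw, sub_add_cancel_left, norm_neg, norm_smul, Real.norm_of_nonneg hρ]
        nlinarith
      have h2 : (∑ i, ∑ j, y i * vort v z j * om v i j w) ^ 2
          ≤ 3 * (R ^ 2 * ρ * (vsq v z * vsq v w)) := by
        refine (om_tri_sq v w y (vort v z)).trans ?_
        have h3 : ∑ i, y i ^ 2 ≤ 3 := by
          have h4 : ∀ i, y i ^ 2 ≤ 1 := by
            intro i
            have h5 : |y i| ≤ 1 := (Real.norm_eq_abs (y i) ▸ norm_le_pi_norm y i).trans hy1.le
            rw [← sq_abs]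
            exact pow_le_one₀ (abs_nonneg _) h5
          calc ∑ i, y i ^ 2 ≤ ∑ _i : Fin 3, (1 : ℝ) := Finset.sum_le_sum fun i _ => h4 i
            _ = 3 := by simp
        have h4 : R ^ 2 * ‖z - w‖ * (vsq v z * vsq v w) ≤ R ^ 2 * ρ * (vsq v z * vsq v w) := by
          have := vsq_nonneg v z
          have := vsq_nonneg v w
          gcongr
        exact mul_le_mul h3 (h1.trans h4) (xsq_nonneg _ _) (by norm_num)
      have h3 : |∑ i, ∑ j, y i * vort v z j * om v i j w|
          ≤ 2 * (R * √ρ * (√(vsq v z) * √(osq v w))) := by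
        refine abs_le_of_sq_le_sq (h2.trans ?_) hr0
        rw [mul_pow, mul_pow, mul_pow, mul_pow, Real.sq_sqrt hρ, Real.sq_sqrt (vsq_nonneg v z),
          Real.sq_sqrt (osq_nonneg v w), osq_vsq v w]
        have : 0 ≤ R ^ 2 * ρ * (vsq v z * vsq v w) :=
          mul_nonneg (by positivity) (mul_nonneg (vsq_nonneg _ _) (vsq_nonneg _ _))
        nlinarith
      rw [e1, abs_mul, abs_of_nonneg (by linarith)]
      calc _ ≤ 1 * |∑ i, ∑ j, y i * vort v z j * om v i j w| :=
            mul_le_mul_of_nonneg_right (by linarith) (abs_nonneg _)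
        _ ≤ _ := by rw [one_mul]; exact h3

/-- The high part, at one scale. -/
theorem high_scale2 {M R B L : ℝ} (hM0 : 0 ≤ M) (hM : ∀ z i, |pd i et z| ≤ M) (hR : 0 ≤ R)
    (hL : 0 < L) {v : V → V} (hs : ContDiff ℝ ∞ v) (hc : Coh2 R B L 1 0 v) {z : V}
    (hz : z ∈ ball (0 : V) 1) (hzL : B ^ 2 < vsq v z) {ρ : ℝ} (hρ : ρ ∈ Ioc (0 : ℝ) 1) :
    |∑ i, ∑ j, ∑ k, vort v z j * vort v z k
      * kv (fun z => z i * et z) ρ (pd k (hv (2 * L ^ 2) v i j)) z|
      ≤ 4 * M * R * vsq v z * (ρ ^ (-(1 / 2) : ℝ) * Ah v ρ z) := by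
  set a := vort v z with ha
  have hρ0 : 0 < ρ := hρ.1
  set H : Fin 3 → Fin 3 → V → ℝ := fun i j => hv (2 * L ^ 2) v i j with hH
  have hHs : ∀ i j, ContDiff ℝ ∞ (H i j) := fun i j => hv_smooth hs _ i j
  have hk : ∀ i, Ker (fun z : V => z i * et z) := fun i => ker_et.coord i
  have e1 : ∀ i j k, kv (fun z => z i * et z) ρ (pd k (H i j)) z
      = -(ρ⁻¹ * kv (pd k (fun z => z i * et z)) ρ (H i j) z) := by
    intro i j k
    rw [kv_ibp (hk i) (hHs i j) ρ k z]
    field_simp
  have e2 : ∀ i k y, pd k (fun z : V => z i * et z) y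
      = y i * pd k et y + (if i = k then 1 else 0) * et y := by
    intro i k y
    have h1 : pd k (fun z : V => z i * et z) y
        = y i * pd k et y + pd k (fun z : V => z i) y * et y :=
      pd_mul' (contDiff_apply ℝ ℝ i) et_smooth k y
    rw [h1]
    congr 2
    unfold pd
    have h2 : HasFDerivAt (fun z : V => z i) (ContinuousLinearMap.proj (R := ℝ)
        (φ := fun _ : Fin 3 => ℝ) i) y := (ContinuousLinearMap.proj (R := ℝ)
        (φ := fun _ : Fin 3 => ℝ) i).hasFDerivAt
    rw [h2.fderiv]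
    simp [Pi.single_apply]
  have hint : ∀ i j k, Integrable fun y => pd k (fun z : V => z i * et z) y * H i j (z + ρ • y) :=
    fun i j k => kv_cont_int ((hk i).pd k) (hHs i j).continuous ρ z
  have e3 : ∑ i, ∑ j, ∑ k, a j * a k * kv (fun z => z i * et z) ρ (pd k (H i j)) z
      = -(ρ⁻¹ * ∫ y in ball (0 : V) 1, (∑ k, a k * pd k et y)
        * ∑ i, ∑ j, y i * a j * H i j (z + ρ • y)) := by
    simp_rw [e1]
    have h1 : ∑ i, ∑ j, ∑ k, a j * a k * -(ρ⁻¹ * kv (pd k (fun z => z i * et z)) ρ (H i j) z)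
        = -(ρ⁻¹ * ∑ i, ∑ j, ∑ k, a j * a k * kv (pd k (fun z => z i * et z)) ρ (H i j) z) := by
      simp only [Fin.sum_univ_three]
      ring
    rw [h1]
    congr 2
    have h2 : ∑ i, ∑ j, ∑ k, a j * a k * kv (pd k (fun z => z i * et z)) ρ (H i j) z
        = ∫ y, ∑ i, ∑ j, ∑ k, a j * a k * (pd k (fun z : V => z i * et z) y
          * H i j (z + ρ • y)) := by
      rw [integral_finsetSum _ fun i _ => integrable_finsetSum _ fun j _ =>
        integrable_finsetSum _ fun k _ => (hint i j k).const_mul _]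
      refine Finset.sum_congr rfl fun i _ => ?_
      rw [integral_finsetSum _ fun j _ => integrable_finsetSum _ fun k _ =>
        (hint i j k).const_mul _]
      refine Finset.sum_congr rfl fun j _ => ?_
      rw [integral_finsetSum _ fun k _ => (hint i j k).const_mul _]
      refine Finset.sum_congr rfl fun k _ => ?_
      rw [integral_const_mul]
      rfl
    rw [h2, ← setIntegral_eq_integral_of_forall_compl_eq_zero (s := ball (0 : V) 1)]
    · refine integral_congr_ae (Eventually.of_forall fun y => ?_)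
      simp only [e2]
      have hA : ∀ i j, H i j (z + ρ • y) = -H j i (z + ρ • y) := fun i j => hv_anti _ v i j _
      have h00 := hA 0 0
      have h11 := hA 1 1
      have h22 := hA 2 2
      have g00 : H 0 0 (z + ρ • y) = 0 := by linarith
      have g11 : H 1 1 (z + ρ • y) = 0 := by linarith
      have g22 : H 2 2 (z + ρ • y) = 0 := by linarith
      have g10 := hA 1 0
      have g20 := hA 2 0
      have g21 := hA 2 1
      simp only [Fin.sum_univ_three, g00, g11, g22, g10, g20, g21]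
      simp only [Fin.isValue, if_true, Fin.reduceEq, if_false]
      ring
    · intro y hy
      refine Finset.sum_eq_zero fun i _ => Finset.sum_eq_zero fun j _ =>
        Finset.sum_eq_zero fun k _ => ?_
      rw [((hk i).pd k).zero y hy]
      ring
  rw [e3, abs_neg, abs_mul, abs_of_pos (inv_pos.2 hρ0)]
  have hva := vsq_nonneg v z
  have hbd : ∀ y ∈ ball (0 : V) 1, ‖(∑ k, a k * pd k et y)
        * ∑ i, ∑ j, y i * a j * H i j (z + ρ • y)‖
      ≤ (4 * M * R * vsq v z * √ρ) * √(osq v (z + ρ • y)) := by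
    intro y hy
    rw [norm_mul, Real.norm_eq_abs, Real.norm_eq_abs]
    have h1 := hv_tri2 hR hL hρ0.le hρ.2 hc hz hy hzL
    have h2 : |∑ k, a k * pd k et y| ≤ 2 * M * √(vsq v z) := by
      have h3 : |∑ k, a k * pd k et y| ≤ ∑ k, |a k| * M := by
        refine (Finset.abs_sum_le_sum_abs _ _).trans (Finset.sum_le_sum fun k _ => ?_)
        rw [abs_mul]
        exact mul_le_mul_of_nonneg_left (hM y k) (abs_nonneg _)
      have h4 : ∑ k, |a k| ≤ 2 * √(vsq v z) := by
        have h5 := sum_abs_sq a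
        refine le_of_sq_le_sq ?_ (by positivity)
        rw [mul_pow, Real.sq_sqrt hva]
        refine h5.trans ?_
        have : ∑ j, a j ^ 2 = vsq v z := rfl
        rw [this]
        linarith
      rw [← Finset.sum_mul] at h3
      calc _ ≤ (∑ k, |a k|) * M := h3
        _ ≤ (2 * √(vsq v z)) * M := mul_le_mul_of_nonneg_right h4 hM0
        _ = _ := by ring
    have h5 : √(vsq v z) * √(vsq v z) = vsq v z := Real.mul_self_sqrt hva
    calc _ ≤ (2 * M * √(vsq v z)) * (2 * (R * √ρ * (√(vsq v z) * √(osq v (z + ρ • y))))) :=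
          mul_le_mul h2 h1 (abs_nonneg _) (by positivity)
      _ = 4 * M * R * (√(vsq v z) * √(vsq v z)) * √ρ * √(osq v (z + ρ • y)) := by ring
      _ = _ := by rw [h5]
  have hoc : Continuous fun y : V => √(osq v (z + ρ • y)) :=
    ((osq_smooth hs).continuous.comp (by fun_prop)).sqrt
  have h6 : |∫ y in ball (0 : V) 1, (∑ k, a k * pd k et y)
        * ∑ i, ∑ j, y i * a j * H i j (z + ρ • y)|
      ≤ (4 * M * R * vsq v z * √ρ) * ∫ y in ball (0 : V) 1, √(osq v (z + ρ • y)) := by
    rw [← Real.norm_eq_abs]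
    refine (norm_integral_le_of_norm_le
      ((int_ball hoc 0 1).const_mul (4 * M * R * vsq v z * √ρ)) ?_).trans (le_of_eq ?_)
    · filter_upwards [ae_restrict_mem measurableSet_ball] with y hy
      exact hbd y hy
    · rw [integral_const_mul]
  have h6' : ∫ y in ball (0 : V) 1, √(osq v (z + ρ • y)) ≤ Ah v ρ z :=
    setIntegral_mono_set (hoc.continuousOn.integrableOn_compact (isCompact_closedBall 0 1))
      (Eventually.of_forall fun _ => Real.sqrt_nonneg _) ball_subset_closedBall.eventuallyLE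
  have h7 : ρ⁻¹ * √ρ = ρ ^ (-(1 / 2) : ℝ) := by
    rw [Real.sqrt_eq_rpow, ← Real.rpow_neg_one, ← Real.rpow_add hρ0]
    norm_num
  calc ρ⁻¹ * _ ≤ ρ⁻¹ * ((4 * M * R * vsq v z * √ρ) * Ah v ρ z) :=
        mul_le_mul_of_nonneg_left (h6.trans (mul_le_mul_of_nonneg_left h6' (by positivity)))
          (inv_nonneg.2 hρ0.le)
    _ = 4 * M * R * vsq v z * ((ρ⁻¹ * √ρ) * Ah v ρ z) := by ring
    _ = _ := by rw [h7]

/-- The high part. -/
theorem high_int2 {M R B L : ℝ} (hM0 : 0 ≤ M) (hM : ∀ z i, |pd i et z| ≤ M) (hR : 0 ≤ R)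
    (hL : 0 < L) {v : V → V} (hs : ContDiff ℝ ∞ v) (hc : Coh2 R B L 1 0 v) {z : V}
    (hz : z ∈ ball (0 : V) 1) (hzL : B ^ 2 < vsq v z) :
    |∑ i, ∑ j, ∑ k, vort v z j * vort v z k * Bf i (pd k (hv (2 * L ^ 2) v i j)) z|
      ≤ 4 * M * R * vsq v z * Ih v z := by
  have hcont : ∀ i j k, IntegrableOn (fun ρ => vort v z j * vort v z k
      * kv (fun z => z i * et z) ρ (pd k (hv (2 * L ^ 2) v i j)) z) (Ioc (0 : ℝ) 1) := fun i j k =>
    (ion (kc (ker_et.coord i) (sm_pd (hv_smooth hs (2 * L ^ 2) i j) k) z)).const_mul _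
  have e : ∑ i, ∑ j, ∑ k, vort v z j * vort v z k * Bf i (pd k (hv (2 * L ^ 2) v i j)) z
      = ∫ ρ in Ioc (0 : ℝ) 1, ∑ i, ∑ j, ∑ k, vort v z j * vort v z k
        * kv (fun z => z i * et z) ρ (pd k (hv (2 * L ^ 2) v i j)) z := by
    rw [integral_finsetSum _ fun i _ => integrable_finsetSum _ fun j _ =>
      integrable_finsetSum _ fun k _ => hcont i j k]
    refine Finset.sum_congr rfl fun i _ => ?_
    rw [integral_finsetSum _ fun j _ => integrable_finsetSum _ fun k _ => hcont i j k]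
    refine Finset.sum_congr rfl fun j _ => ?_
    rw [integral_finsetSum _ fun k _ => hcont i j k]
    refine Finset.sum_congr rfl fun k _ => ?_
    rw [integral_const_mul]
    rfl
  rw [e, ← Real.norm_eq_abs]
  refine (norm_integral_le_of_norm_le
    ((rp_Ah_int hs z).const_mul (4 * M * R * vsq v z)) ?_).trans (le_of_eq ?_)
  · filter_upwards [ae_restrict_mem measurableSet_Ioc] with ρ hρ
    rw [Real.norm_eq_abs]
    exact high_scale2 hM0 hM hR hL hs hc hz hzL hρ
  · rw [integral_const_mul]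
    rfl

theorem pt_ineq2 : ∃ K : ℝ, 1 ≤ K ∧ ∀ v : V → V, ContDiff ℝ ∞ v →
    (∀ y ∈ ball (0 : V) 2, dv v y = 0) → ∀ R B L S : ℝ, 0 ≤ R → 0 ≤ B → 0 < L → 0 ≤ S →
      (∀ x ∈ ball (0 : V) 1, ∀ k j, |kv et 1 (pd k (fun y => v y j)) x| ≤ S) → Coh2 R B L 1 0 v →
        ∀ z ∈ ball (0 : V) 1, -str v z ≤ 6 * S * osq v z
          + 12 * B * (√(osq v z) * √(gsq (bb v) z)) + 2 * (osq v z * Tl (2 * L ^ 2) v z)
          + 8 * K * R * (osq v z * Ih v z) := by
  obtain ⟨M, hM0, hM⟩ := et_bound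
  refine ⟨1 + M, by linarith, ?_⟩
  intro v hs hd R B L S hR hB hL hS0 hS hc z hz
  have ho := osq_nonneg v z
  have hvs := vsq_nonneg v z
  have hov := osq_vsq v z
  have hT := Tl_nonneg (2 * L ^ 2) v z
  have hI := Ih_nonneg v z
  have hg := Real.sqrt_nonneg (gsq (bb v) z)
  have hdz : dv v z = 0 := hd z (ball_subset_ball (by norm_num) hz)
  have e0 : -str v z = 4 * ∑ j, ∑ k, vort v z j * vort v z k * pd k (fun y => v y j) z := by
    rw [str_vort, hdz]
    ring
  have hz1 : ‖z‖ < 1 := mem_ball_zero_iff.1 hz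
  rcases lt_or_ge (B ^ 2) (vsq v z) with h | h
  · have hdz1 : ∀ y ∈ ball z 1, dv v y = 0 := by
      intro y hy
      refine hd y ?_
      rw [mem_ball_zero_iff]
      have h1 : ‖y - z‖ < 1 := mem_ball_iff_norm.1 hy
      have h2 : ‖y‖ ≤ ‖y - z‖ + ‖z‖ := by
        have := norm_add_le (y - z) z
        rwa [sub_add_cancel] at this
      linarith
    have e1 : ∀ j k, pd k (fun y => v y j) z = kv et 1 (pd k (fun y => v y j)) z
        - ∑ i, (Bf i (pd k (lv (2 * L ^ 2) v i j)) z + Bf i (pd k (hv (2 * L ^ 2) v i j)) z) := by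
      intro j k
      rw [grad_rep hs hdz1 k j]
      congr 1
      exact Finset.sum_congr rfl fun i _ => Bf_split hs (2 * L ^ 2) i j k z
    have e2 : ∑ j, ∑ k, vort v z j * vort v z k * pd k (fun y => v y j) z
        = (∑ j, ∑ k, vort v z j * vort v z k * kv et 1 (pd k (fun y => v y j)) z)
          - (∑ i, ∑ j, ∑ k, vort v z j * vort v z k * Bf i (pd k (lv (2 * L ^ 2) v i j)) z)
          - ∑ i, ∑ j, ∑ k, vort v z j * vort v z k * Bf i (pd k (hv (2 * L ^ 2) v i j)) z := by
      simp_rw [e1]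
      simp only [Fin.sum_univ_three]
      ring
    have b1 : |∑ j, ∑ k, vort v z j * vort v z k * kv et 1 (pd k (fun y => v y j)) z|
        ≤ 3 * (S * vsq v z) := quad_le v z hS0 fun j k => hS z hz k j
    have b2 : |∑ i, ∑ j, ∑ k, vort v z j * vort v z k * Bf i (pd k (lv (2 * L ^ 2) v i j)) z|
        ≤ vsq v z * Tl (2 * L ^ 2) v z := by
      unfold Tl
      rw [Finset.mul_sum]
      refine (Finset.abs_sum_le_sum_abs _ _).trans (Finset.sum_le_sum fun i _ => ?_)
      rw [Finset.mul_sum]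
      refine (Finset.abs_sum_le_sum_abs _ _).trans (Finset.sum_le_sum fun j _ => ?_)
      rw [Finset.mul_sum]
      refine (Finset.abs_sum_le_sum_abs _ _).trans (Finset.sum_le_sum fun k _ => ?_)
      rw [abs_mul, abs_mul]
      refine mul_le_mul_of_nonneg_right ?_ (abs_nonneg _)
      calc |vort v z j| * |vort v z k| ≤ √(vsq v z) * √(vsq v z) :=
            mul_le_mul (vort_abs_le v z j) (vort_abs_le v z k) (abs_nonneg _) (Real.sqrt_nonneg _)
        _ = _ := Real.mul_self_sqrt hvs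
    have b3 := high_int2 hM0 hM hR hL hs hc hz h
    rw [e0, e2]
    have a1 := abs_le.1 b1
    have a2 := abs_le.1 b2
    have a3 := abs_le.1 b3
    have c1 : 0 ≤ 12 * B * (√(osq v z) * √(gsq (bb v) z)) := by positivity
    have c2 : 4 * (4 * M * R * vsq v z * Ih v z) ≤ 8 * (1 + M) * R * (osq v z * Ih v z) := by
      rw [hov]
      have : 0 ≤ R * vsq v z * Ih v z := by positivity
      linarith
    have c3 : 4 * (vsq v z * Tl (2 * L ^ 2) v z) = 2 * (osq v z * Tl (2 * L ^ 2) v z) := by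
      rw [hov]
      ring
    have c4 : 4 * (3 * (S * vsq v z)) = 6 * S * osq v z := by
      rw [hov]
      ring
    linarith [a1.2, a2.1, a3.1]
  · have e1 : ∀ j k, |pd k (fun y => v y j) z| ≤ S + √(gsq (bb v) z) := by
      intro j k
      have h1 := pd_bb hs k j z
      have h2 : pd k (fun y => v y j) z = kv et 1 (pd k (fun y => v y j)) z
          + pd k (fun y => bb v y j) z := by
        rw [h1]
        ring
      rw [h2]
      exact (abs_add_le _ _).trans (add_le_add (hS z hz k j) (pd_le_gsq (bb v) k j z))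
    have b1 := quad_le v z (A := fun j k => pd k (fun y => v y j) z)
      (by positivity : 0 ≤ S + √(gsq (bb v) z)) e1
    have b2 := (abs_le.1 b1).2
    rw [e0]
    have h1 : vsq v z ≤ B * √(osq v z) := by
      have h2 : √(vsq v z) ≤ B := by
        rw [Real.sqrt_le_left hB]
        exact h
      have h3 : √(vsq v z) ≤ √(osq v z) := Real.sqrt_le_sqrt (by linarith)
      calc vsq v z = √(vsq v z) * √(vsq v z) := (Real.mul_self_sqrt hvs).symm
        _ ≤ B * √(osq v z) := mul_le_mul h2 h3 (Real.sqrt_nonneg _) hB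
    have h2 : vsq v z * √(gsq (bb v) z) ≤ B * √(osq v z) * √(gsq (bb v) z) :=
      mul_le_mul_of_nonneg_right h1 hg
    have c1 : 0 ≤ 2 * (osq v z * Tl (2 * L ^ 2) v z) := by positivity
    have c2 : 0 ≤ 8 * (1 + M) * R * (osq v z * Ih v z) := by positivity
    have c3 : 4 * (3 * ((S + √(gsq (bb v) z)) * vsq v z)) = 6 * S * osq v z
        + 12 * (vsq v z * √(gsq (bb v) z)) := by
      rw [hov]
      ring
    linarith

end Pool.Agent.H946.NS
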