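import Pool.Agent.H946_NS.D1

/-!
The local enstrophy inequality, if the direction of the vorticity varies little: two levels.
-/

set_option autoImplicit false

open MeasureTheory Set Metric Filter Topology
open scoped ContDiff ENNReal

namespace Pool.Agent.H946.NS

open H459R3.NS W221.NS Pool.Agent.W583.MD

variable {κ : V → ℝ}

/-- The numerical part. -/
theorem closure_cf2 {M Cb C4 Kt Cl K : ℝ} (hM : 1 ≤ M) (hCb : 1 ≤ Cb) (hC4 : 1 ≤ C4)
    (hKt : 0 ≤ Kt) (hCl : 1 ≤ Cl) (hK : 1 ≤ K) : ∃ C : ℝ, 1 ≤ C ∧ ∀ N S D P R B L δ : ℝ, 0 ≤ N →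
      0 ≤ S → 0 ≤ D → 0 ≤ P → 0 ≤ R → 0 ≤ B → 0 ≤ L → P ^ 4 ≤ C4 * N * (D + N) ^ 3 →
        δ = 1 / (1 + R * √N) →
          -2 * D + 6 * M * (√(P * (Cb * N)) * √N) + 6 * M * ((6 * S + √(Kt * (Cb * N))) * N)
          + 6 * S * N + 12 * B * (√N * √(Cb * N)) + 2 * (P * √(Cl * (L * √N)))
          + 8 * K * R * (128 * √δ * (P * √N) + 8 * (N * √N) / δ)
            ≤ C * ((1 + S + B) * N + (1 + R ^ 2 + L ^ 2) * N ^ 2) := by
  set A1 := 27 * (6 * M) ^ 8 * Cb ^ 4 * C4 with hA1
  set A2 := 6 * M * (1 + Kt * Cb) with hA2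
  set A5 := 432 * C4 * Cl ^ 2 with hA5
  set A6 := 27 * (1024 * K) ^ 4 * C4 with hA6
  have p1 : 0 ≤ A1 := by positivity
  have p2 : 0 ≤ A2 := by positivity
  have p5 : 0 ≤ A5 := by positivity
  have p6 : 0 ≤ A6 := by positivity
  refine ⟨1 + A1 + 36 * M + A2 + 6 + 12 * Cb + A5 + A6 + 96 * K, by linarith, ?_⟩
  intro N S D P R B L δ hN hS hD hP hR hB hL hP4 hδ
  have h1 := cf1 hM hCb hC4 hN (by linarith : 0 ≤ D + N) hP hP4
  have h2 := cf2 (S := S) hM hCb hKt hN
  have h4 := cf4 hCb hN hB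
  have h5 := cf5 hCl hC4 hN hL (by linarith : 0 ≤ D + N) hP hP4
  have h6 := cf6 hK hC4 hN hR (by linarith : 0 ≤ D + N) hP hP4 hδ
  rw [← hA1] at h1
  rw [← hA2] at h2
  rw [← hA5] at h5
  rw [← hA6] at h6
  have q1 : 0 ≤ S * N := by positivity
  have q2 : 0 ≤ B * N := by positivity
  have q3 : 0 ≤ N ^ 2 := by positivity
  have q4 : 0 ≤ R ^ 2 * N ^ 2 := by positivity
  have q5 : 0 ≤ L ^ 2 * N ^ 2 := by positivity
  set Z := (1 + S + B) * N + (1 + R ^ 2 + L ^ 2) * N ^ 2 with hZ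
  have z1 : N + N ^ 2 ≤ Z := by rw [hZ]; linarith
  have z2 : S * N ≤ Z := by rw [hZ]; linarith
  have z3 : B * N ≤ Z := by rw [hZ]; linarith
  have z4 : L ^ 2 * N ^ 2 ≤ Z := by rw [hZ]; linarith
  have z5 : R ^ 2 * N ^ 2 ≤ Z := by rw [hZ]; linarith
  have z6 : N + R ^ 2 * N ^ 2 ≤ Z := by rw [hZ]; linarith
  have z7 : N ≤ Z := by rw [hZ]; linarith
  have w1 : A1 * (N + N ^ 2) ≤ A1 * Z := mul_le_mul_of_nonneg_left z1 p1
  have w2 : A2 * (N + N ^ 2) ≤ A2 * Z := mul_le_mul_of_nonneg_left z1 p2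
  have w3 : 36 * M * (S * N) ≤ 36 * M * Z := mul_le_mul_of_nonneg_left z2 (by positivity)
  have w4 : 12 * Cb * (B * N) ≤ 12 * Cb * Z := mul_le_mul_of_nonneg_left z3 (by positivity)
  have w5 : A5 * (L ^ 2 * N ^ 2) ≤ A5 * Z := mul_le_mul_of_nonneg_left z4 p5
  have w6 : A6 * (R ^ 2 * N ^ 2) ≤ A6 * Z := mul_le_mul_of_nonneg_left z5 p6
  have w7 : 96 * K * (N + R ^ 2 * N ^ 2) ≤ 96 * K * Z := mul_le_mul_of_nonneg_left z6 (by positivity)
  have w8 : 6 * S * N ≤ 6 * Z := by linarith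
  have e : (1 + A1 + 36 * M + A2 + 6 + 12 * Cb + A5 + A6 + 96 * K) * Z
      = Z + A1 * Z + 36 * M * Z + A2 * Z + 6 * Z + 12 * Cb * Z + A5 * Z + A6 * Z + 96 * K * Z := by
    ring
  rw [e]
  linarith

/-- The local enstrophy inequality, if the direction of the vorticity varies little. -/
theorem unit_cf2 (hκ : Cut κ) : ∃ C : ℝ, 1 ≤ C ∧ ∀ v : V → V, ContDiff ℝ ∞ v →
    (∀ y ∈ ball (0 : V) 8, dv v y = 0) → ∀ N S R B L : ℝ, ∫ x in ball (0 : V) 8, osq v x ≤ N →
      0 ≤ S → 0 ≤ R → 0 ≤ B → 0 < L →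
      (∀ x ∈ ball (0 : V) 1, ∀ k j, |kv et 1 (pd k (fun y => v y j)) x| ≤ S) → Coh2 R B L 1 0 v →
        ∫ z, RR v 0 z * (κ z * κ z) ≤ C * ((1 + S + B) * N + (1 + R ^ 2 + L ^ 2) * N ^ 2)
          + (∫ z in ball (0 : V) 1, osq v z * lap (fun z : V => κ z * κ z) z)
          + ∑ k, (∫ w, th w * v w k)
            * ∫ z in ball (0 : V) 1, osq v z * pd k (fun z : V => κ z * κ z) z := by
  obtain ⟨M, hM1, hM⟩ := hκ.bound
  obtain ⟨Cb, hCb, hbb⟩ := bb_bounds
  obtain ⟨C4, hC4, hom4⟩ := om_fourK hκ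
  obtain ⟨Cl, hCl, hlow⟩ := low_mean
  obtain ⟨K, hK, hpt⟩ := pt_ineq2
  have hKt := Kt_nonneg
  obtain ⟨C, hC, hnum⟩ := closure_cf2 hM1 hCb hC4 hKt hCl hK
  refine ⟨C, hC, ?_⟩
  intro v hv hd N S R B L hN hS0 hR hB hL hS hcoh
  have hN0 : 0 ≤ N := (integral_nonneg fun x => osq_nonneg v x).trans hN
  obtain ⟨hb2, hb4, hbg⟩ := hbb v hv hd N hN
  have hN1 : ∫ x in ball (0 : V) 1, osq v x ≤ N :=
    (ball_mono (osq_smooth hv).continuous (osq_nonneg v) (ball_subset_ball (by norm_num))).trans hN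
  have hP4 := hom4 v hv N hN1
  set D := ∫ x in ball (0 : V) 1, κ x ^ 2 * dsq v x with hD
  have hD0 : 0 ≤ D := integral_nonneg fun x => mul_nonneg (sq_nonneg _) (dsq_nonneg v x)
  set F : V → ℝ := fun x => κ x ^ 2 * osq v x with hF
  set Q := ∫ x in ball (0 : V) 1, F x ^ 2 with hQ
  have hQ0 : 0 ≤ Q := integral_nonneg fun x => sq_nonneg _
  have hkc : Continuous κ := hκ.smooth.continuous
  have hoc := (osq_smooth hv).continuous
  have hF0 : ∀ x, 0 ≤ F x := fun x => mul_nonneg (sq_nonneg _) (osq_nonneg v x)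
  have hFc : Continuous F := (hkc.pow 2).mul hoc
  have hk2 : ∀ z, κ z ^ 2 ≤ 1 := fun z => pow_le_one₀ (hκ.nonneg z) (hκ.le_one z)
  have hFN : ∫ x in ball (0 : V) 1, F x ≤ N := by
    refine (setIntegral_mono (int_ball hFc 0 1) (int_ball hoc 0 1) fun x => ?_).trans hN1
    calc F x ≤ 1 * osq v x := mul_le_mul_of_nonneg_right (hk2 x) (osq_nonneg v x)
      _ = _ := one_mul _
  have hbc : ∀ k, Continuous fun x => bb v x k := fun k => (sm_comp (bb_smooth hv) k).continuous
  have hgc := (gsq_smooth (bb_smooth hv)).continuous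
  set A := 6 * S + √(Kt * (Cb * N)) with hA
  have hA0 : 0 ≤ A := by positivity
  set c : V := fun k => ∫ w, th w * v w k with hc
  set δ : ℝ := 1 / (1 + R * √N) with hδ
  have hδ0 : 0 < δ := by positivity
  have hδ1 : δ ≤ 1 := by
    rw [hδ, div_le_one (by positivity)]
    have : 0 ≤ R * √N := by positivity
    linarith
  -- the pointwise bound
  have key : ∀ z ∈ ball (0 : V) 1, -2 * (dsq v z * (κ z * κ z))
      + osq v z * (∑ k, (v z k - c k) * pd k (fun z : V => κ z * κ z) z)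
      - str v z * (κ z * κ z)
      ≤ ((((-2 * (κ z ^ 2 * dsq v z) + (6 * M * A + 6 * S) * osq v z)
        + 2 * M * ∑ k, κ z * osq v z * |bb v z k|)
        + 12 * B * (√(osq v z) * √(gsq (bb v) z)))
        + 2 * (F z * Tl (2 * L ^ 2) v z)) + 8 * K * R * (F z * Ih v z) := by
    intro z hz
    have ho := osq_nonneg v z
    have hk0 := hκ.nonneg z
    have hk1 := hκ.le_one z
    have hkk : κ z * κ z ≤ 1 := mul_le_one₀ hk1 hk0 hk1
    have hkk0 : 0 ≤ κ z * κ z := mul_nonneg hk0 hk0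
    have e1 : ∀ k, |pd k (fun z : V => κ z * κ z) z| ≤ 2 * M * κ z := by
      intro k
      have e : pd k (fun z : V => κ z * κ z) z = κ z * pd k κ z + pd k κ z * κ z :=
        pd_mul' hκ.smooth hκ.smooth k z
      rw [e, show κ z * pd k κ z + pd k κ z * κ z
        = 2 * κ z * pd k κ z by ring, abs_mul, abs_of_nonneg (by positivity)]
      calc 2 * κ z * |pd k κ z| ≤ 2 * κ z * M := by
            gcongr
            exact hM z k
        _ = _ := by ring
    have e2 : ∀ k, |v z k - c k| ≤ |bb v z k| + A := by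
      intro k
      have h1 := avg_dev hv hS0 hS hb2 hz k
      have h2 : v z k - c k = bb v z k + (kv et 1 (fun y => v y k) z - ∫ w, th w * v w k) := by
        rw [hc]
        unfold bb
        ring
      rw [h2]
      exact (abs_add_le _ _).trans (by linarith)
    have e3 : ∑ k, (v z k - c k) * pd k (fun z : V => κ z * κ z) z
        ≤ 2 * M * (∑ k, κ z * |bb v z k|) + 6 * M * A := by
      have h1 : ∀ k, (v z k - c k) * pd k (fun z : V => κ z * κ z) z
          ≤ 2 * M * (κ z * |bb v z k|) + 2 * M * A := by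
        intro k
        calc (v z k - c k) * pd k (fun z : V => κ z * κ z) z
            ≤ |v z k - c k| * |pd k (fun z : V => κ z * κ z) z| := by
              rw [← abs_mul]
              exact le_abs_self _
          _ ≤ (|bb v z k| + A) * (2 * M * κ z) :=
              mul_le_mul (e2 k) (e1 k) (abs_nonneg _) (by positivity)
          _ = 2 * M * (κ z * |bb v z k|) + 2 * M * A * κ z := by ring
          _ ≤ 2 * M * (κ z * |bb v z k|) + 2 * M * A * 1 := by gcongr
          _ = _ := by ring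
      calc _ ≤ ∑ k, (2 * M * (κ z * |bb v z k|) + 2 * M * A) := Finset.sum_le_sum fun k _ => h1 k
        _ = _ := by
          simp only [Fin.sum_univ_three]
          ring
    have e4 := hpt v hv (fun y hy => hd y (ball_subset_ball (by norm_num) hy)) R B L S hR hB hL hS0 hS
      hcoh z hz
    have e5 : osq v z * (∑ k, (v z k - c k) * pd k (fun z : V => κ z * κ z) z)
        ≤ osq v z * (2 * M * (∑ k, κ z * |bb v z k|) + 6 * M * A) :=
      mul_le_mul_of_nonneg_left e3 ho
    have e6 := mul_le_mul_of_nonneg_right e4 hkk0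
    have e7 : 6 * S * osq v z * (κ z * κ z) ≤ 6 * S * osq v z * 1 :=
      mul_le_mul_of_nonneg_left hkk (by positivity)
    have e7' : 12 * B * (√(osq v z) * √(gsq (bb v) z)) * (κ z * κ z)
        ≤ 12 * B * (√(osq v z) * √(gsq (bb v) z)) * 1 :=
      mul_le_mul_of_nonneg_left hkk (by positivity)
    have e8 : osq v z * (2 * M * (∑ k, κ z * |bb v z k|) + 6 * M * A)
        = (6 * M * A) * osq v z + 2 * M * ∑ k, κ z * osq v z * |bb v z k| := by
      simp only [Fin.sum_univ_three]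
      ring
    have e9 : (6 * S * osq v z
          + 12 * B * (√(osq v z) * √(gsq (bb v) z)) + 2 * (osq v z * Tl (2 * L ^ 2) v z)
          + 8 * K * R * (osq v z * Ih v z)) * (κ z * κ z)
        = 6 * S * osq v z * (κ z * κ z)
          + 12 * B * (√(osq v z) * √(gsq (bb v) z)) * (κ z * κ z)
          + 2 * (F z * Tl (2 * L ^ 2) v z) + 8 * K * R * (F z * Ih v z) := by
      simp only [hF]
      ring
    have e10 : -2 * (dsq v z * (κ z * κ z)) = -2 * (κ z ^ 2 * dsq v z) := by ring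
    have e11 : -str v z * (κ z * κ z) = -(str v z * (κ z * κ z)) := by ring
    rw [e10]
    linarith
  -- integration
  have c1 : Continuous fun z : V => κ z ^ 2 * dsq v z := (hkc.pow 2).mul (dsq_cont hv)
  have c2 : ∀ k, Continuous fun z : V => κ z * osq v z * |bb v z k| := fun k =>
    (hkc.mul hoc).mul (hbc k).abs
  have c3 : Continuous fun z : V => √(osq v z) * √(gsq (bb v) z) := hoc.sqrt.mul hgc.sqrt
  have c4 : Continuous fun z : V => ∑ k, κ z * osq v z * |bb v z k| :=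
    continuous_finsetSum _ fun k _ => c2 k
  have j1 : IntegrableOn (fun z : V => -2 * (κ z ^ 2 * dsq v z)) (ball 0 1) :=
    int_ball (continuous_const.mul c1) 0 1
  have j2 : IntegrableOn (fun z : V => (6 * M * A + 6 * S) * osq v z) (ball 0 1) :=
    int_ball (continuous_const.mul hoc) 0 1
  have j3 : IntegrableOn (fun z : V => 2 * M * ∑ k, κ z * osq v z * |bb v z k|) (ball 0 1) :=
    int_ball (continuous_const.mul c4) 0 1
  have j4 : IntegrableOn (fun z : V => 12 * B * (√(osq v z) * √(gsq (bb v) z))) (ball 0 1) :=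
    int_ball (continuous_const.mul c3) 0 1
  have j5 : IntegrableOn (fun z : V => 2 * (F z * Tl (2 * L ^ 2) v z)) (ball 0 1) :=
    int_ball (continuous_const.mul (hFc.mul (Tl_cont hv _))) 0 1
  have j6 : IntegrableOn (fun z : V => 8 * K * R * (F z * Ih v z)) (ball 0 1) :=
    (high_on hv hFc).const_mul _
  have j12 := j1.add j2
  have j123 := j12.add j3
  have j1234 := j123.add j4
  have j15 := j1234.add j5
  have j16 := j15.add j6
  have hpdc : ∀ k, Continuous (pd k (fun z : V => κ z * κ z)) := fun k =>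
    (hκ.ker2.pd k).sm.continuous
  have c5 : Continuous fun z : V => -2 * (dsq v z * (κ z * κ z))
      + osq v z * (∑ k, (v z k - c k) * pd k (fun z : V => κ z * κ z) z)
      - str v z * (κ z * κ z) := by
    have h3 : Continuous (fun z => ∑ k, (v z k - c k) * pd k (fun z : V => κ z * κ z) z) :=
      continuous_finsetSum _ fun k _ => ((sm_comp hv k).continuous.sub continuous_const).mul
        (hpdc k)
    exact ((continuous_const.mul ((dsq_cont hv).mul (hkc.mul hkc))).add (hoc.mul h3)).sub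
      ((str_cont hv).mul (hkc.mul hkc))
  rw [RR_split hκ hv (fun y hy => hd y (ball_subset_ball (by norm_num) hy)) c]
  have I2 : ∀ k, ∫ z in ball (0 : V) 1, κ z * osq v z * |bb v z k| ≤ √(√Q * (Cb * N)) * √N := by
    intro k
    have h1 := W162.MD.cs_ball (f := fun z => κ z * √(osq v z) * |bb v z k|)
      (g := fun z => √(osq v z)) ((hkc.mul hoc.sqrt).mul (hbc k).abs) hoc.sqrt 0 1
    have e1 : ∀ z : V, κ z * √(osq v z) * |bb v z k| * √(osq v z) = κ z * osq v z * |bb v z k| := by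
      intro z
      have := Real.mul_self_sqrt (osq_nonneg v z)
      calc κ z * √(osq v z) * |bb v z k| * √(osq v z)
          = κ z * (√(osq v z) * √(osq v z)) * |bb v z k| := by ring
        _ = _ := by rw [this]
    have e2 : ∀ z : V, √(osq v z) ^ 2 = osq v z := fun z => Real.sq_sqrt (osq_nonneg v z)
    have e3 : ∀ z : V, (κ z * √(osq v z) * |bb v z k|) ^ 2 = F z * bb v z k ^ 2 := by
      intro z
      rw [mul_pow, mul_pow, e2, sq_abs]
    simp_rw [e1, e2, e3] at h1
    refine (le_abs_self _).trans (h1.trans ?_)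
    refine mul_le_mul (Real.sqrt_le_sqrt ?_) (Real.sqrt_le_sqrt hN1) (Real.sqrt_nonneg _)
      (Real.sqrt_nonneg _)
    have h2 := W162.MD.cs_ball (f := F) (g := fun z => bb v z k ^ 2) hFc ((hbc k).pow 2) 0 1
    have e4 : ∀ z : V, (bb v z k ^ 2) ^ 2 = bb v z k ^ 4 := fun z => by ring
    simp_rw [e4] at h2
    refine (le_abs_self _).trans (h2.trans ?_)
    refine mul_le_mul le_rfl ?_ (Real.sqrt_nonneg _) (Real.sqrt_nonneg _)
    calc √(∫ z in ball (0 : V) 1, bb v z k ^ 4) ≤ √((Cb * N) ^ 2) := Real.sqrt_le_sqrt (hb4 k)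
      _ = Cb * N := Real.sqrt_sq (by positivity)
  have I3 : ∫ z in ball (0 : V) 1, √(osq v z) * √(gsq (bb v) z) ≤ √N * √(Cb * N) := by
    have h1 := W162.MD.cs_ball (f := fun z => √(osq v z))
      (g := fun z => √(gsq (bb v) z)) hoc.sqrt hgc.sqrt 0 1
    have e2 : ∀ z : V, √(gsq (bb v) z) ^ 2 = gsq (bb v) z := fun z => Real.sq_sqrt (gsq_nonneg _ z)
    have e3 : ∀ z : V, √(osq v z) ^ 2 = osq v z := fun z => Real.sq_sqrt (osq_nonneg v z)
    simp_rw [e2, e3] at h1
    refine (le_abs_self _).trans (h1.trans ?_)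
    exact mul_le_mul (Real.sqrt_le_sqrt hN1) (Real.sqrt_le_sqrt hbg) (Real.sqrt_nonneg _)
      (Real.sqrt_nonneg _)
  have I4 := hlow v hv F hFc N L hN hL
  have I5 := high_mean hv hFc hF0 hN hFN hδ0 hδ1
  rw [← hQ] at I4 I5
  have total : ∫ z in ball (0 : V) 1, (-2 * (dsq v z * (κ z * κ z))
      + osq v z * (∑ k, (v z k - c k) * pd k (fun z : V => κ z * κ z) z)
      - str v z * (κ z * κ z))
      ≤ -2 * D + 6 * M * (√(√Q * (Cb * N)) * √N) + 6 * M * (A * N) + 6 * S * N
        + 12 * B * (√N * √(Cb * N)) + 2 * (√Q * √(Cl * (L * √N)))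
        + 8 * K * R * (128 * √δ * (√Q * √N) + 8 * (N * √N) / δ) := by
    have h1 : ∫ z in ball (0 : V) 1, (((((-2 * (κ z ^ 2 * dsq v z) + (6 * M * A + 6 * S) * osq v z)
        + 2 * M * ∑ k, κ z * osq v z * |bb v z k|)
        + 12 * B * (√(osq v z) * √(gsq (bb v) z)))
        + 2 * (F z * Tl (2 * L ^ 2) v z)) + 8 * K * R * (F z * Ih v z))
        = -2 * D + (6 * M * A + 6 * S) * (∫ z in ball (0 : V) 1, osq v z)
          + 2 * M * (∑ k, ∫ z in ball (0 : V) 1, κ z * osq v z * |bb v z k|)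
          + 12 * B * (∫ z in ball (0 : V) 1, √(osq v z) * √(gsq (bb v) z))
          + 2 * (∫ z in ball (0 : V) 1, F z * Tl (2 * L ^ 2) v z)
          + 8 * K * R * ∫ z in ball (0 : V) 1, F z * Ih v z := by
      have g12 : IntegrableOn (fun z : V => -2 * (κ z ^ 2 * dsq v z)
          + (6 * M * A + 6 * S) * osq v z) (ball 0 1) := j12
      have g123 : IntegrableOn (fun z : V => -2 * (κ z ^ 2 * dsq v z)
          + (6 * M * A + 6 * S) * osq v z
          + 2 * M * ∑ k, κ z * osq v z * |bb v z k|) (ball 0 1) := j123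
      have g1234 : IntegrableOn (fun z : V => -2 * (κ z ^ 2 * dsq v z)
          + (6 * M * A + 6 * S) * osq v z
          + 2 * M * (∑ k, κ z * osq v z * |bb v z k|)
          + 12 * B * (√(osq v z) * √(gsq (bb v) z))) (ball 0 1) := j1234
      have g15 : IntegrableOn (fun z : V => -2 * (κ z ^ 2 * dsq v z)
          + (6 * M * A + 6 * S) * osq v z
          + 2 * M * (∑ k, κ z * osq v z * |bb v z k|)
          + 12 * B * (√(osq v z) * √(gsq (bb v) z))
          + 2 * (F z * Tl (2 * L ^ 2) v z)) (ball 0 1) := j15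
      rw [integral_add g15 j6, integral_add g1234 j5, integral_add g123 j4, integral_add g12 j3,
        integral_add j1 j2, integral_const_mul, integral_const_mul, integral_const_mul,
        integral_const_mul, integral_const_mul, integral_const_mul,
        integral_finsetSum _ fun k _ => int_ball (c2 k) 0 1]
    refine (setIntegral_mono_on (int_ball c5 0 1) j16 measurableSet_ball key).trans ?_
    refine (le_of_eq h1).trans ?_
    have h2 : ∑ k, ∫ z in ball (0 : V) 1, κ z * osq v z * |bb v z k|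
        ≤ 3 * (√(√Q * (Cb * N)) * √N) := by
      calc _ ≤ ∑ _k : Fin 3, √(√Q * (Cb * N)) * √N := Finset.sum_le_sum fun k _ => I2 k
        _ = _ := by simp
    have h3 : (6 * M * A + 6 * S) * (∫ z in ball (0 : V) 1, osq v z)
        ≤ (6 * M * A + 6 * S) * N := mul_le_mul_of_nonneg_left hN1 (by positivity)
    have h4 : 2 * M * (∑ k, ∫ z in ball (0 : V) 1, κ z * osq v z * |bb v z k|)
        ≤ 2 * M * (3 * (√(√Q * (Cb * N)) * √N)) := mul_le_mul_of_nonneg_left h2 (by positivity)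
    have h5 : 12 * B * (∫ z in ball (0 : V) 1, √(osq v z) * √(gsq (bb v) z))
        ≤ 12 * B * (√N * √(Cb * N)) := mul_le_mul_of_nonneg_left I3 (by positivity)
    have h6 : 8 * K * R * (∫ z in ball (0 : V) 1, F z * Ih v z)
        ≤ 8 * K * R * (128 * √δ * (√Q * √N) + 8 * (N * √N) / δ) :=
      mul_le_mul_of_nonneg_left I5 (by positivity)
    linarith
  have hfin := hnum N S D (√Q) R B L δ hN0 hS0 hD0 (Real.sqrt_nonneg _) hR hB hL.le (by
      calc √Q ^ 4 = (√Q ^ 2) ^ 2 := by ring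
        _ = Q ^ 2 := by rw [Real.sq_sqrt hQ0]
        _ ≤ _ := hP4) hδ
  rw [← hA] at hfin
  linarith

end Pool.Agent.H946.NS
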