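import Pool.Agent.H946_NS.L4

/-!
A criterion in terms of the velocity in one ball, in a compact subset of a domain.
-/

set_option autoImplicit false

open MeasureTheory Set Metric Filter Topology
open scoped ContDiff ENNReal

namespace Pool.Agent.H946.NS

open H459R3.NS W221.NS Pool.Agent.W583.MD

variable {κ : V → ℝ}

/-- The enstrophy of a ball, if the localised enstrophies around it are bounded. -/
theorem enk_cover_loc (hκ : Cut κ) (m : ℕ) : ∃ C : ℝ, 1 ≤ C ∧ ∀ v : V → V, ContDiff ℝ ∞ v →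
    ∀ (r M : ℝ) (x : V), 0 < r → (∀ w ∈ ball x ((m + 1) * r), enk κ r v w ≤ M) →
      ∫ y in ball x (m * r), osq v y ≤ C * M := by
  obtain ⟨a, ha, ha1, hlow⟩ := hκ.low
  refine ⟨((m + 1) / a) ^ 3 / a ^ 2, ?_, ?_⟩
  · have h1 : 1 ≤ ((m : ℝ) + 1) / a := by
      rw [le_div_iff₀ ha]
      linarith [(Nat.cast_nonneg m : (0 : ℝ) ≤ m)]
    rw [le_div_iff₀ (by positivity), one_mul]
    have h2 : a ^ 2 ≤ 1 := pow_le_one₀ ha.le ha1
    have h3 : 1 ≤ (((m : ℝ) + 1) / a) ^ 3 := one_le_pow₀ h1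
    linarith
  intro v hv r M x hr hM
  have hM0 : 0 ≤ M := (enk_nonneg hκ hr v x).trans (hM x (mem_ball_self (by positivity)))
  rcases Nat.eq_zero_or_pos m with hm | hm
  · subst hm
    simp only [Nat.cast_zero, zero_mul, ball_zero, Measure.restrict_empty, integral_zero_measure]
    positivity
  have hm0 : (0 : ℝ) < m := Nat.cast_pos.2 hm
  have h1 : ∀ w ∈ ball x (m * r + a * r), ∫ y in ball w (a * r), osq v y ≤ M / a ^ 2 := by
    intro w hw
    rw [le_div_iff₀ (by positivity), mul_comm]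
    refine (enk_low hκ ha ha1 hlow hr hv w).trans (hM w (ball_subset_ball ?_ hw))
    nlinarith
  have h2 := cover (osq_smooth hv).continuous (osq_nonneg v) (x := x) (ρ := m * r) (s := a * r)
    (M := M / a ^ 2) (by positivity) (by positivity) h1
  refine h2.trans ?_
  have h3 : (m * r + a * r) / (a * r) ≤ (m + 1) / a := by
    have : (m * r + a * r) / (a * r) = (m + a) / a := by
      field_simp
    rw [this]
    exact div_le_div_of_nonneg_right (by linarith) ha.le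
  calc ((m * r + a * r) / (a * r)) ^ 3 * (M / a ^ 2) ≤ ((m + 1) / a) ^ 3 * (M / a ^ 2) := by
        have : 0 ≤ (m * r + a * r) / (a * r) := by positivity
        gcongr
    _ = _ := by ring

theorem Split.congr {ε l m r : ℝ} {x : V} {v w : V → V} (h : Split ε l m r x v)
    (hvw : ∀ y ∈ ball x r, v y = w y) : Split ε l m r x w := by
  obtain ⟨c, b, hb, hbd, hS⟩ := h
  refine ⟨c, b, hb, hbd, ?_⟩
  have e : ∫ y in ball x r, (max (‖w y - c - b y‖ - l) 0) ^ 3
      = ∫ y in ball x r, (max (‖v y - c - b y‖ - l) 0) ^ 3 :=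
    setIntegral_congr_fun measurableSet_ball fun y hy => by simp only [hvw y hy]
  rw [e]
  exact hS

/-- The growth at a maximum, estimated by the velocity. -/
theorem vel_loc (hκ : Cut κ) : ∃ C ε : ℝ, 1 ≤ C ∧ 0 < ε ∧ ∀ v : V → V, ContDiff ℝ ∞ v →
    ∀ (r : ℝ) (x : V), 0 < r → (∀ y ∈ ball x r, dv v y = 0) →
      (∀ w ∈ ball x (2 * r), enk κ r v w ≤ enk κ r v x) → ∀ l m : ℝ, 0 ≤ l → 0 ≤ m →
        Split ε l m r x v → Dk κ r x v ≤ C * ((1 / r ^ 2 + l ^ 2 + m) * enk κ r v x) := by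
  obtain ⟨C, ε, hC, hε, hU⟩ := unit_vel hκ
  obtain ⟨C₀, hC₀, hcov⟩ := enk_cover_loc hκ 1
  refine ⟨C * C₀, ε, by nlinarith, hε, ?_⟩
  intro u hv r x hr hd hmax l m hl hm ⟨c, b, hb, hbd, hS⟩
  have hM0 : 0 ≤ enk κ r u x := enk_nonneg hκ hr u x
  set M := enk κ r u x with hMdef
  unfold Dk
  set v := scv r x u with hvdef
  set b' : V → V := fun z k => r * (b (x + r • z) k - b x k) with hb'
  set c' : V := fun k => r * (c k + b x k) with hc'
  have hmem : ∀ z ∈ ball (0 : V) 1, x + r • z ∈ ball x r := by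
    intro z hz
    rw [mem_ball_iff_norm, add_sub_cancel_left, norm_smul, Real.norm_of_nonneg hr.le]
    rw [mem_ball_zero_iff] at hz
    nlinarith
  have hb's : ContDiff ℝ ∞ b' := contDiff_pi.2 fun k =>
    contDiff_const.mul ((sm_scal (sm_comp hb k) x r).sub contDiff_const)
  have hpb : ∀ i k z, pd i (fun y => b' y k) z = r ^ 2 * pd i (fun y => b y k) (x + r • z) := by
    intro i k z
    have h1 : pd i (fun y => b' y k) z = r * pd i (fun y => b (x + r • y) k - b x k) z :=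
      Pool.Agent.W135.MD.pd_cmul (Pool.Agent.W135.MD.sm_diff
        ((sm_scal (sm_comp hb k) x r).sub contDiff_const)) r i z
    have h2 : pd i (fun y => b (x + r • y) k - b x k) z = pd i (fun y => b (x + r • y) k) z := by
      rw [Pool.Agent.W135.MD.pd_sub' (Pool.Agent.W135.MD.sm_diff (sm_scal (sm_comp hb k) x r))
          (differentiable_const _), Pool.Agent.W135.MD.pd_const', sub_zero]
    rw [h1, h2, pd_scal (sm_comp hb k) x r i z]
    ring
  have hdiv : ∀ y ∈ ball (0 : V) 1, dv v y = 0 := by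
    intro y hy
    rw [hvdef, dv_scv hv, hd (x + r • y) (hmem y hy), mul_zero]
  have hN : ∫ z in ball (0 : V) 1, osq v z ≤ r * (C₀ * M) := by
    have h1 : ∀ z, osq v z = r ^ 4 * osq u (x + r • z) := fun z => osq_scv hv z
    simp_rw [h1]
    rw [integral_const_mul, cov' (osq u) x hr, mul_one]
    have h2 := hcov u hv r M x hr (fun w hw => hmax w (by
      have e : ((1 : ℕ) + 1 : ℝ) * r = 2 * r := by
        push_cast
        ring
      rwa [e] at hw))
    rw [Nat.cast_one, one_mul] at h2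
    calc r ^ 4 * ((r ^ 3)⁻¹ * ∫ y in ball x r, osq u y)
        = r * ∫ y in ball x r, osq u y := by field_simp
      _ ≤ _ := mul_le_mul_of_nonneg_left h2 hr.le
  have hbd' : ∀ y ∈ ball (0 : V) 1, ∀ i j, |pd i (fun y => b' y j) y| ≤ r ^ 2 * m := by
    intro y hy i j
    rw [hpb, abs_mul, abs_of_nonneg (by positivity)]
    exact mul_le_mul_of_nonneg_left (hbd _ (hmem y hy) i j) (by positivity)
  have hbs : ∀ y ∈ ball (0 : V) 1, ∀ k, |b' y k| ≤ 3 * (r ^ 2 * m) := by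
    intro y hy k
    have h1 : ∀ z ∈ ball (0 : V) 1, ‖fderiv ℝ (fun y => b' y k) z‖ ≤ 3 * (r ^ 2 * m) := by
      intro z hz
      refine (Pool.Agent.W440.MD.fderiv_norm_le z).trans ?_
      calc ∑ j, |pd j (fun y => b' y k) z| ≤ ∑ _j : Fin 3, r ^ 2 * m :=
            Finset.sum_le_sum fun j _ => hbd' z hz j k
        _ = 3 * (r ^ 2 * m) := by simp
    have h2 := (convex_ball (0 : V) 1).norm_image_sub_le_of_norm_fderiv_le (𝕜 := ℝ)
      (f := fun y => b' y k) (x := 0) (y := y)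
      (fun x _ => ((sm_comp hb's k).differentiable (by simp)) x) h1
      (mem_ball_self one_pos) hy
    have h3 : b' 0 k = 0 := by simp [hb']
    rw [h3, sub_zero, sub_zero, Real.norm_eq_abs] at h2
    have h4 : ‖y‖ ≤ 1 := by
      rw [mem_ball_zero_iff] at hy
      exact hy.le
    have h5 : 0 ≤ 3 * (r ^ 2 * m) := by positivity
    calc |b' y k| ≤ 3 * (r ^ 2 * m) * ‖y‖ := h2
      _ ≤ 3 * (r ^ 2 * m) * 1 := mul_le_mul_of_nonneg_left h4 h5
      _ = _ := mul_one _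
  have hw : ∫ z in ball (0 : V) 1, (max (‖v z - c' - b' z‖ - r * l) 0) ^ 3 ≤ ε ^ 3 := by
    have h1 : ∀ z, (max (‖v z - c' - b' z‖ - r * l) 0) ^ 3
        = r ^ 3 * (max (‖u (x + r • z) - c - b (x + r • z)‖ - l) 0) ^ 3 := by
      intro z
      have h2 : v z - c' - b' z = r • (u (x + r • z) - c - b (x + r • z)) := by
        funext k
        simp only [hvdef, scv, hb', hc', Pi.sub_apply, Pi.smul_apply, smul_eq_mul]
        ring
      have h3 : r * ‖u (x + r • z) - c - b (x + r • z)‖ - r * l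
          = r * (‖u (x + r • z) - c - b (x + r • z)‖ - l) := by ring
      have h4 : max (r * (‖u (x + r • z) - c - b (x + r • z)‖ - l)) 0
          = r * max (‖u (x + r • z) - c - b (x + r • z)‖ - l) 0 := by
        rw [mul_max_of_nonneg _ _ hr.le, mul_zero]
      rw [h2, norm_smul, Real.norm_of_nonneg hr.le, h3, h4, mul_pow]
    simp_rw [h1]
    rw [integral_const_mul, cov' (fun y => (max (‖u y - c - b y‖ - l) 0) ^ 3) x hr, mul_one]
    calc r ^ 3 * ((r ^ 3)⁻¹ * ∫ y in ball x r, (max (‖u y - c - b y‖ - l) 0) ^ 3)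
        = ∫ y in ball x r, (max (‖u y - c - b y‖ - l) 0) ^ 3 := by field_simp
      _ ≤ _ := hS
  have hlm : IsLocalMax (enk κ r u) x := by
    filter_upwards [ball_mem_nhds x (show 0 < 2 * r by positivity)] with y hy
    exact hmax y hy
  obtain ⟨hc1, hc2⟩ := enk_max hκ hv hr hlm
  have h5 := hU v (scv_smooth hv) hdiv c' b' hb's (r * (C₀ * M)) (r * l) (r ^ 2 * m) hN
    (by positivity) (by positivity) hbd' hbs hw
  have h6 : ∑ k, c' k * ∫ z in ball (0 : V) 1, osq v z * pd k (fun z : V => κ z * κ z) z = 0 :=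
    Finset.sum_eq_zero fun k _ => by rw [hc1 k, mul_zero]
  rw [h6, add_zero] at h5
  have h7 : ∫ z, RR v 0 z * (κ z * κ z)
      ≤ C * ((1 + (r * l) ^ 2 + r ^ 2 * m) * (r * (C₀ * M))) := by linarith
  calc r ^ 3 * ((r ^ 6)⁻¹ * ∫ z, RR v 0 z * (κ z * κ z))
      ≤ r ^ 3 * ((r ^ 6)⁻¹ * (C * ((1 + (r * l) ^ 2 + r ^ 2 * m) * (r * (C₀ * M))))) := by
        gcongr
    _ = _ := by
        field_simp

/-- A bound for arbitrarily late times, multiplied by a constant. -/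
theorem freq_mul {T t₀ K C ε : ℝ} {g : ℝ → ℝ} (hC : 1 ≤ C)
    (h : ∃ᶠ t in 𝓝[<] T, ∫ s in Ioo t₀ t, g s
      ≤ min ε (1 / (32 * C)) * Real.log (1 / (T - t)) + K) :
    ∃ᶠ t in 𝓝[<] T, ∫ s in Ioo t₀ t, 2 * C * g s
      ≤ 1 / 16 * Real.log (1 / (T - t)) + 2 * C * K := by
  have hev : ∀ᶠ t in 𝓝[<] T, t ∈ Ioo (T - 1) T := Ioo_mem_nhdsLT (by linarith)
  refine (h.and_eventually hev).mono ?_
  rintro t ⟨hle, htI⟩
  rw [integral_const_mul]
  have h1 : 0 < T - t := by linarith [htI.2]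
  have h2 : 0 ≤ Real.log (1 / (T - t)) :=
    Real.log_nonneg ((one_le_div h1).2 (by linarith [htI.1]))
  have h3 : ∫ s in Ioo t₀ t, g s ≤ 1 / (32 * C) * Real.log (1 / (T - t)) + K :=
    hle.trans (add_le_add (mul_le_mul_of_nonneg_right (min_le_right _ _) h2) le_rfl)
  calc 2 * C * ∫ s in Ioo t₀ t, g s ≤ 2 * C * (1 / (32 * C) * Real.log (1 / (T - t)) + K) :=
        mul_le_mul_of_nonneg_left h3 (by linarith)
    _ = _ := by
        field_simp
        ring

/-- The criterion. -/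
theorem split_nu (hκ : Cut κ) : ∃ ε : ℝ, 0 < ε ∧ ∀ (ν T E : ℝ) (Ω R : Set V)
    (u : ℝ → V → V) (p : ℝ → V → ℝ), 0 < ν → 0 < T → OSol ν T E Ω u p →
      ∫⁻ t in Ioo 0 T, ∫⁻ y in Ω, ENNReal.ofReal (gsq (u t) y) ≠ ⊤ → IsCompact R → R ⊆ Ω →
        (∀ x ∈ frontier R, ¬ Sing T u x) → ∃ r₀ : ℝ, 0 < r₀ ∧ ∀ (t₀ K : ℝ) (r g : ℝ → ℝ),
          t₀ ∈ Ioo 0 T → AntitoneOn r (Ico t₀ T) → (∀ t ∈ Ico t₀ T, 0 < r t ∧ r t ≤ r₀) →
          (∀ t ∈ Ioo t₀ T, IntegrableOn g (Ioo t₀ t)) →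
          (∀ᵐ t ∂((volume : Measure ℝ).restrict (Ioo t₀ T)), ν / r t ^ 2 ≤ g t ∧
            ((∀ s ∈ Ioo t₀ t, ∀ y ∈ R, ∃ x ∈ R, loc κ (r s) (u s) y ≤ loc κ (r t) (u t) x) →
              ∃ x ∈ R, (∀ y ∈ R, loc κ (r t) (u t) y ≤ loc κ (r t) (u t) x) ∧
                ∃ l m : ℝ, 0 ≤ l ∧ 0 ≤ m ∧ l ^ 2 / ν + m ≤ g t ∧
                  Split (ε * ν) l m (r t) x (u t))) →
          (∃ᶠ t in 𝓝[<] T, ∫ s in Ioo t₀ t, g s ≤ ε * Real.log (1 / (T - t)) + K) →
          ∀ x ∈ R, ¬ Sing T u x := by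
  obtain ⟨C, ε, hC, hε, hvel⟩ := vel_loc hκ
  refine ⟨min ε (1 / (32 * C)), lt_min hε (by positivity), ?_⟩
  intro ν T E Ω R u p hν hT hu hfin hR hRΩ hreg
  by_cases hS : ∃ x ∈ R, Sing T u x
  swap
  · push Not at hS
    exact ⟨1, one_pos, fun _ _ _ _ _ _ _ _ _ _ => hS⟩
  obtain ⟨r₀, hr₀, key⟩ := loc_nu hκ hν hT hu hfin hR hRΩ hreg hS
  refine ⟨r₀, hr₀, ?_⟩
  intro t₀ K r g ht₀ hr hrp hint hcoh hfreq
  exfalso
  have hC2 : 0 < 2 * C := by positivity
  refine key t₀ (2 * C * K) r (fun t => 2 * C * g t) (fun t x => 0 ≤ g t ∧ ν / r t ^ 2 ≤ g t ∧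
    ∃ l m : ℝ, 0 ≤ l ∧ 0 ≤ m ∧ l ^ 2 / ν + m ≤ g t ∧
      Split (min ε (1 / (32 * C)) * ν) l m (r t) x (u t)) ht₀ hr hrp
    (fun t ht => (hint t ht).const_mul (2 * C)) ?_ ?_ ?_
  · filter_upwards [hcoh, ae_restrict_mem measurableSet_Ioo] with t ht htI
    have h1 := (hrp t (Ioo_subset_Ico_self htI)).1
    have h2 : 0 ≤ ν / r t ^ 2 := by positivity
    have hg : 0 ≤ g t := h2.trans ht.1
    refine ⟨ht.1.trans ?_, fun hrec => ?_⟩
    · calc g t = 1 * g t := (one_mul _).symm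
        _ ≤ 2 * C * g t := mul_le_mul_of_nonneg_right (by linarith) hg
    · obtain ⟨x, hx, hmax, hlm⟩ := ht.2 hrec
      exact ⟨x, hx, hmax, hg, ht.1, hlm⟩
  · intro t htI x ⟨hg0, hgr, l, m, hl, hm, hlm, hsp⟩ hb v hv hvu hdv hen hmax
    obtain ⟨hr0, -⟩ := hrp t (Ioo_subset_Ico_self htI)
    have hsp1 : Split (ε * ν) l m (r t) x (u t) := by
      obtain ⟨c, b, hb1, hb2, hb3⟩ := hsp
      refine ⟨c, b, hb1, hb2, hb3.trans ?_⟩
      have h3 : 0 < min ε (1 / (32 * C)) := lt_min hε (by positivity)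
      exact pow_le_pow_left₀ (by positivity) (mul_le_mul_of_nonneg_right (min_le_left _ _) hν.le) 3
    have hsp2 := (hsp1.scale hν).congr (w := v) fun y hy =>
      (hvu y (ball_subset_ball (by linarith) hy)).symm
    have h4 := hvel v hv (r t) x hr0 (fun y hy => hdv y (ball_subset_ball (by linarith) hy))
      (fun w hw => hmax w (ball_subset_ball (by linarith) hw)) (l / ν) (m / ν) (by positivity)
      (by positivity) hsp2
    refine h4.trans ?_
    have h5 := enk_nonneg hκ hr0 v x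
    have h6 : 1 / r t ^ 2 + (l / ν) ^ 2 + m / ν ≤ 2 * (g t / ν) := by
      have e : 1 / r t ^ 2 + (l / ν) ^ 2 + m / ν = (ν / r t ^ 2 + (l ^ 2 / ν + m)) / ν := by
        field_simp
        ring
      rw [e]
      calc (ν / r t ^ 2 + (l ^ 2 / ν + m)) / ν ≤ (g t + g t) / ν :=
            div_le_div_of_nonneg_right (add_le_add hgr hlm) hν.le
        _ = _ := by ring
    calc C * ((1 / r t ^ 2 + (l / ν) ^ 2 + m / ν) * enk κ (r t) v x)
        ≤ C * ((2 * (g t / ν)) * enk κ (r t) v x) :=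
          mul_le_mul_of_nonneg_left (mul_le_mul_of_nonneg_right h6 h5) (by linarith)
      _ = _ := by ring
  · exact freq_mul hC hfreq

end Pool.Agent.H946.NS
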