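import Pool.Agent.H946_NS.D2
import Pool.Agent.H946_NS.L5

/-!
The growth of the localised enstrophy at a maximum, if the direction of the vorticity varies
little in one ball: two levels.
-/

set_option autoImplicit false

open MeasureTheory Set Metric Filter Topology
open scoped ContDiff ENNReal

namespace Pool.Agent.H946.NS

open H459R3.NS W221.NS Pool.Agent.W583.MD

variable {κ : V → ℝ}

theorem Coh2.scale {ρ Λ l r : ℝ} {x : V} {v : V → V} (hv : ContDiff ℝ ∞ v) (hr : 0 < r)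
    (hl : 0 ≤ l) (h : Coh2 ρ Λ l r x v) :
    Coh2 (√r * ρ) (r ^ 2 * Λ) (1 + r ^ 2 * l) 1 0 (scv r x v) := by
  intro y hy z hz hyL hzL
  rw [mul_one] at hz
  have hmy : x + r • y ∈ ball x r := by
    rw [mem_ball_iff_norm, add_sub_cancel_left, norm_smul, Real.norm_of_nonneg hr.le]
    rw [mem_ball_zero_iff] at hy
    nlinarith
  have hmz : x + r • z ∈ ball x (2 * r) := by
    rw [mem_ball_iff_norm, add_sub_cancel_left, norm_smul, Real.norm_of_nonneg hr.le]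
    rw [mem_ball_zero_iff] at hz
    nlinarith
  have hlow1 : Λ ^ 2 < vsq v (x + r • y) := by
    rw [vsq_scv hv] at hyL
    have h1 : r ^ 4 * Λ ^ 2 = (r ^ 2 * Λ) ^ 2 := by ring
    exact lt_of_mul_lt_mul_left (h1.trans_lt hyL) (by positivity)
  have hlow2 : l ^ 2 < vsq v (x + r • z) := by
    rw [vsq_scv hv] at hzL
    have h1 : r ^ 4 * l ^ 2 ≤ (1 + r ^ 2 * l) ^ 2 := by
      have : 0 ≤ r ^ 2 * l := by positivity
      nlinarith
    exact lt_of_mul_lt_mul_left (h1.trans_lt hzL) (by positivity)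
  have h1 := h _ hmy _ hmz hlow1 hlow2
  rw [vort_scv hv, vort_scv hv, xsq_smul, vsq_scv hv, vsq_scv hv]
  have e1 : ‖x + r • y - (x + r • z)‖ = r * ‖y - z‖ := by
    rw [add_sub_add_left_eq_sub, ← smul_sub, norm_smul, Real.norm_of_nonneg hr.le]
  rw [e1] at h1
  have e2 : (√r * ρ) ^ 2 = r * ρ ^ 2 := by rw [mul_pow, Real.sq_sqrt hr.le]
  rw [e2]
  calc (r ^ 2) ^ 4 * xsq (vort v (x + r • y)) (vort v (x + r • z))
      ≤ (r ^ 2) ^ 4 * (ρ ^ 2 * (r * ‖y - z‖) * (vsq v (x + r • y) * vsq v (x + r • z))) :=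
        mul_le_mul_of_nonneg_left h1 (by positivity)
    _ = _ := by ring

theorem cf_num2 {C K c1 c2 N M e r ρ Λ l S : ℝ} (hC : 1 ≤ C) (hc1 : 1 ≤ c1) (hc2 : 1 ≤ c2)
    (hK : 0 ≤ K) (hN : 0 ≤ N) (hM : 0 ≤ M) (he : 0 ≤ e) (hr : 0 < r) (hΛ : 0 ≤ Λ) (hl : 0 ≤ l)
    (h1 : N ≤ r * (c1 * M)) (h2 : N ≤ r * (c2 * e)) (hS0 : 0 ≤ S)
    (hS : S ≤ r ^ 2 * (K * (1 / r ^ 2 + e / r))) :
    r ^ 3 * ((r ^ 6)⁻¹ * (C * ((1 + S + r ^ 2 * Λ) * N
      + (1 + (√r * ρ) ^ 2 + (1 + r ^ 2 * l) ^ 2) * N ^ 2)))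
      ≤ C * c1 * (2 + K + 3 * c2) * ((1 / r ^ 2 + Λ + (1 / r + ρ ^ 2 + r ^ 3 * l ^ 2) * e) * M) := by
  have e2 : (√r * ρ) ^ 2 = r * ρ ^ 2 := by rw [mul_pow, Real.sq_sqrt hr.le]
  rw [e2]
  have a1 : (1 + r ^ 2 * l) ^ 2 ≤ 2 + 2 * (r ^ 4 * l ^ 2) := by
    nlinarith [sq_nonneg (1 - r ^ 2 * l)]
  have a2 : N ^ 2 ≤ (r * (c1 * M)) * (r * (c2 * e)) := by
    rw [sq]
    exact mul_le_mul h1 h2 hN (by positivity)
  have a3 : (1 + S + r ^ 2 * Λ) * N ≤ (2 + r ^ 2 * (K * (1 / r ^ 2 + e / r)) + r ^ 2 * Λ)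
      * (r * (c1 * M)) := mul_le_mul (by linarith) h1 hN (by positivity)
  have a4 : (1 + r * ρ ^ 2 + (1 + r ^ 2 * l) ^ 2) * N ^ 2
      ≤ (3 + r * ρ ^ 2 + 2 * (r ^ 4 * l ^ 2)) * ((r * (c1 * M)) * (r * (c2 * e))) :=
    mul_le_mul (by linarith) a2 (by positivity) (by positivity)
  calc _ ≤ r ^ 3 * ((r ^ 6)⁻¹ * (C * ((2 + r ^ 2 * (K * (1 / r ^ 2 + e / r)) + r ^ 2 * Λ)
        * (r * (c1 * M)) + (3 + r * ρ ^ 2 + 2 * (r ^ 4 * l ^ 2))
          * ((r * (c1 * M)) * (r * (c2 * e)))))) := by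
        gcongr
    _ = C * c1 * ((2 * (1 / r ^ 2) + K * (1 / r ^ 2 + 1 / r * e) + Λ
        + c2 * ((3 * (1 / r) + ρ ^ 2 + 2 * (r ^ 3 * l ^ 2)) * e)) * M) := by
        field_simp
    _ ≤ C * c1 * ((2 + K + 3 * c2) * (1 / r ^ 2 + Λ + (1 / r + ρ ^ 2 + r ^ 3 * l ^ 2) * e) * M) := by
        have q1 : 0 ≤ 1 / r ^ 2 := by positivity
        have q2 : 0 ≤ 1 / r * e := by positivity
        have q3 : 0 ≤ ρ ^ 2 * e := by positivity
        have q4 : 0 ≤ r ^ 3 * l ^ 2 * e := by positivity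
        have p1 : 0 ≤ c2 * (1 / r ^ 2) := by positivity
        have p2 : 0 ≤ K * Λ := by positivity
        have p3 : 0 ≤ c2 * Λ := by positivity
        have p4 : 0 ≤ K * (ρ ^ 2 * e) := by positivity
        have p5 : 0 ≤ K * (r ^ 3 * l ^ 2 * e) := by positivity
        have p6 : 0 ≤ c2 * (ρ ^ 2 * e) := by positivity
        have p7 : 0 ≤ c2 * (r ^ 3 * l ^ 2 * e) := by positivity
        refine mul_le_mul_of_nonneg_left (mul_le_mul_of_nonneg_right ?_ hM) (by positivity)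
        have e3 : (2 + K + 3 * c2) * (1 / r ^ 2 + Λ + (1 / r + ρ ^ 2 + r ^ 3 * l ^ 2) * e)
            = (2 * (1 / r ^ 2) + K * (1 / r ^ 2 + 1 / r * e) + Λ
              + c2 * ((3 * (1 / r) + ρ ^ 2 + 2 * (r ^ 3 * l ^ 2)) * e))
              + (3 * (c2 * (1 / r ^ 2)) + Λ + K * Λ + 3 * (c2 * Λ) + 2 * (1 / r * e)
              + 2 * (ρ ^ 2 * e) + 2 * (r ^ 3 * l ^ 2 * e) + K * (ρ ^ 2 * e)
              + K * (r ^ 3 * l ^ 2 * e) + 2 * (c2 * (ρ ^ 2 * e))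
              + c2 * (r ^ 3 * l ^ 2 * e)) := by ring
        rw [e3]
        have : 0 ≤ 3 * (c2 * (1 / r ^ 2)) + Λ + K * Λ + 3 * (c2 * Λ) + 2 * (1 / r * e)
              + 2 * (ρ ^ 2 * e) + 2 * (r ^ 3 * l ^ 2 * e) + K * (ρ ^ 2 * e)
              + K * (r ^ 3 * l ^ 2 * e) + 2 * (c2 * (ρ ^ 2 * e))
              + c2 * (r ^ 3 * l ^ 2 * e) := by positivity
        linarith
    _ = _ := by ring

theorem gsq_scv' {r : ℝ} {x : V} {v : V → V} (hv : ContDiff ℝ ∞ v) (z : V) :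
    gsq (scv r x v) z = r ^ 4 * gsq v (x + r • z) := by
  have e := fun k j => pd_scv (r := r) (x := x) hv k j z
  unfold gsq
  simp only [e]
  simp only [Fin.sum_univ_three]
  ring

/-- The growth at a maximum. -/
theorem dir_loc (hκ : Cut κ) : ∃ C : ℝ, 1 ≤ C ∧ ∀ v : V → V, ContDiff ℝ ∞ v →
    ∀ (r : ℝ) (x : V), 0 < r → (∀ y ∈ ball x (8 * r), dv v y = 0) →
      (∀ w ∈ ball x (9 * r), enk κ r v w ≤ enk κ r v x) → ∀ ρ Λ l e : ℝ, 0 ≤ ρ → 0 ≤ Λ → 0 ≤ l →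
        ∫ y in ball x (8 * r), gsq v y ≤ e → Coh2 ρ Λ l r x v →
          Dk κ r x v ≤ C * ((1 / r ^ 2 + Λ + (1 / r + ρ ^ 2 + r ^ 3 * l ^ 2) * e) * enk κ r v x) := by
  obtain ⟨C, hC, hU⟩ := unit_cf2 hκ
  obtain ⟨C₀, hC₀, hcov⟩ := enk_cover_loc hκ 8
  have hK0 := K0_nonneg
  have hK : 0 ≤ √K0 := Real.sqrt_nonneg _
  refine ⟨C * C₀ * (2 + √K0 + 3 * 4), ?_, ?_⟩
  · have h1 : 1 ≤ C * C₀ := by nlinarith
    have h2 : 1 ≤ 2 + √K0 + 3 * 4 := by linarith
    exact one_le_mul_of_one_le_of_one_le h1 h2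
  intro u hv r x hr hd hmax ρ Λ l e hρ hΛ hl he hcoh
  have hM0 : 0 ≤ enk κ r u x := enk_nonneg hκ hr u x
  set M := enk κ r u x with hMdef
  unfold Dk
  set v := scv r x u with hvdef
  have hmem : ∀ z ∈ ball (0 : V) 8, x + r • z ∈ ball x (8 * r) := by
    intro z hz
    rw [mem_ball_iff_norm, add_sub_cancel_left, norm_smul, Real.norm_of_nonneg hr.le]
    rw [mem_ball_zero_iff] at hz
    nlinarith
  have hdiv : ∀ y ∈ ball (0 : V) 8, dv v y = 0 := by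
    intro y hy
    rw [hvdef, dv_scv hv, hd _ (hmem y hy), mul_zero]
  have hgc := (gsq_smooth hv).continuous
  have he0 : 0 ≤ e := (integral_nonneg fun y => gsq_nonneg u y).trans he
  set N := ∫ z in ball (0 : V) 8, osq v z with hN
  have hN0 : 0 ≤ N := integral_nonneg fun z => osq_nonneg v z
  have hoc := (osq_smooth hv).continuous
  have hNe : N = r * ∫ y in ball x (8 * r), osq u y := by
    have h1 : ∀ z, osq v z = r ^ 4 * osq u (x + r • z) := fun z => osq_scv hv z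
    rw [hN]
    simp_rw [h1]
    rw [integral_const_mul, cov' (osq u) x hr, mul_comm r 8]
    field_simp
  have hN1 : N ≤ r * (C₀ * M) := by
    rw [hNe]
    refine mul_le_mul_of_nonneg_left ?_ hr.le
    have h2 := hcov u hv r M x hr (fun w hw => hmax w (by
      have e : ((8 : ℕ) + 1 : ℝ) * r = 9 * r := by
        push_cast
        ring
      rwa [e] at hw))
    push_cast at h2
    exact h2
  have hN2 : N ≤ r * (4 * e) := by
    rw [hNe]
    refine mul_le_mul_of_nonneg_left ?_ hr.le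
    have h2 : ∫ y in ball x (8 * r), osq u y ≤ ∫ y in ball x (8 * r), 4 * gsq u y :=
      setIntegral_mono (int_ball hoc _ _) (int_ball (continuous_const.mul hgc) _ _)
        fun y => osq_le_gsq u y
    rw [integral_const_mul] at h2
    linarith
  set S : ℝ := √K0 * √(r * e) with hS
  have hS0 : 0 ≤ S := by positivity
  have hSb : ∀ z ∈ ball (0 : V) 1, ∀ k j, |kv et 1 (pd k (fun y => v y j)) z| ≤ S := by
    intro z hz k j
    have hvs : ContDiff ℝ ∞ v := scv_smooth hv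
    have hpc : Continuous (pd k (fun y => v y j)) := (sm_pd (sm_comp hvs j) k).continuous
    have h2 := kv_sq ker_et hpc 1 z
    have h3 : ∫ w in ball (0 : V) 1, pd k (fun y => v y j) (z + (1 : ℝ) • w) ^ 2 ≤ r * e := by
      rw [cov' (fun y => pd k (fun y => v y j) y ^ 2) z one_pos, one_mul, one_pow, inv_one, one_mul]
      have h4 : ∫ w in ball z 1, pd k (fun y => v y j) w ^ 2 ≤ ∫ w in ball z 1, gsq v w := by
        refine setIntegral_mono (int_ball (hpc.pow 2) _ _)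
          (int_ball (gsq_smooth hvs).continuous _ _) fun w => ?_
        unfold gsq
        exact (Finset.single_le_sum (f := fun k => pd k (fun y => v y j) w ^ 2)
          (fun _ _ => sq_nonneg _) (Finset.mem_univ k)).trans
          (Finset.single_le_sum (f := fun j => ∑ k, pd k (fun y => v y j) w ^ 2)
            (fun _ _ => Finset.sum_nonneg fun _ _ => sq_nonneg _) (Finset.mem_univ j))
      have h5 : ∫ w in ball z 1, gsq v w ≤ ∫ w in ball (0 : V) 8, gsq v w := by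
        refine ball_mono (gsq_smooth hvs).continuous (gsq_nonneg v) (ball_subset_ball' ?_)
        rw [dist_zero_right]
        have := mem_ball_zero_iff.1 hz
        linarith
      have h6 : ∫ w in ball (0 : V) 8, gsq v w = r * ∫ y in ball x (8 * r), gsq u y := by
        have h1 : ∀ z, gsq v z = r ^ 4 * gsq u (x + r • z) := fun z => gsq_scv' hv z
        simp_rw [h1]
        rw [integral_const_mul, cov' (gsq u) x hr, mul_comm r 8]
        field_simp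
      rw [h6] at h5
      exact (h4.trans h5).trans (mul_le_mul_of_nonneg_left he hr.le)
    have h7 : kv et 1 (pd k (fun y => v y j)) z ^ 2 ≤ K0 * (r * e) :=
      h2.trans (mul_le_mul_of_nonneg_left h3 hK0)
    refine (Real.abs_le_sqrt h7).trans (le_of_eq ?_)
    rw [hS, Real.sqrt_mul hK0]
  have hSle : S ≤ r ^ 2 * (√K0 * (1 / r ^ 2 + e / r)) := by
    have h1 : √(r * e) ≤ 1 + r * e := by
      have q : 0 ≤ r * e := by positivity
      rw [Real.sqrt_le_left (by linarith)]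
      nlinarith
    calc S ≤ √K0 * (1 + r * e) := mul_le_mul_of_nonneg_left h1 hK
      _ = _ := by
        field_simp
  have hlm : IsLocalMax (enk κ r u) x := by
    filter_upwards [ball_mem_nhds x (show 0 < 9 * r by positivity)] with y hy
    exact hmax y hy
  obtain ⟨hc1, hc2⟩ := enk_max hκ hv hr hlm
  have h5 := hU v (scv_smooth hv) hdiv N S (√r * ρ) (r ^ 2 * Λ) (1 + r ^ 2 * l) le_rfl hS0
    (by positivity) (by positivity) (by positivity) hSb (hcoh.scale hv hr hl)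
  have h6 : ∑ k, (∫ w, th w * v w k)
      * ∫ z in ball (0 : V) 1, osq v z * pd k (fun z : V => κ z * κ z) z = 0 :=
    Finset.sum_eq_zero fun k _ => by rw [hc1 k, mul_zero]
  rw [h6, add_zero] at h5
  have h7 : ∫ z, RR v 0 z * (κ z * κ z) ≤ C * ((1 + S + r ^ 2 * Λ) * N
      + (1 + (√r * ρ) ^ 2 + (1 + r ^ 2 * l) ^ 2) * N ^ 2) := by linarith
  refine le_trans ?_ (cf_num2 hC hC₀ (by norm_num) hK hN0 hM0 he0 hr hΛ hl hN1 hN2 hS0 hSle)
  exact mul_le_mul_of_nonneg_left (mul_le_mul_of_nonneg_left h7 (by positivity)) (by positivity)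

theorem vort_smul' (v : V → V) (c : ℝ) (z : V) :
    vort (fun y => c • v y) z = c • vort v z := by
  have e : ∀ k j, pd k (fun y => c * v y j) z = c * pd k (fun y => v y j) z := by
    intro k j
    unfold pd
    have e : (fun y => c * v y j) = c • fun y => v y j := rfl
    rw [e, fderiv_const_smul_field]
    simp
  unfold vort
  ext i
  fin_cases i
  all_goals
    simp only [Pi.smul_apply, smul_eq_mul, e]
    simp only [Fin.zero_eta, Fin.mk_one, Fin.reduceFinMk, Matrix.cons_val_zero, Matrix.cons_val_one,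
      Matrix.cons_val]
    ring

theorem vort_congr {f g : V → V} {x : V} (h : f =ᶠ[𝓝 x] g) : vort f x = vort g x := by
  have h1 : ∀ k j, pd k (fun y => f y j) x = pd k (fun y => g y j) x := fun k j =>
    Pool.Agent.W349.MF.pd_congr' (by
      filter_upwards [h] with y hy
      rw [hy]) k
  unfold vort
  simp only [h1]

theorem vsq_smul' (v : V → V) (c : ℝ) (z : V) :
    vsq (fun y => c • v y) z = c ^ 2 * vsq v z := by
  unfold vsq
  rw [vort_smul', Finset.mul_sum]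
  refine Finset.sum_congr rfl fun i _ => ?_
  rw [Pi.smul_apply, smul_eq_mul, mul_pow]

theorem Coh2.nu {ρ Λ l s ν : ℝ} {x : V} {v w : V → V} (hν : 0 < ν) (hs : 0 < s)
    (h : Coh2 ρ Λ l s x v) (hvw : ∀ y ∈ ball x (2 * s), w y = ν⁻¹ • v y) :
    Coh2 ρ (Λ / ν) (l / ν) s x w := by
  have hvo : ∀ y ∈ ball x (2 * s), vort w y = ν⁻¹ • vort v y := by
    intro y hy
    rw [← vort_smul' v ν⁻¹ y]
    refine vort_congr ?_
    filter_upwards [isOpen_ball.mem_nhds hy] with z hz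
    exact hvw z hz
  have hvs : ∀ y ∈ ball x (2 * s), vsq w y = ν⁻¹ ^ 2 * vsq v y := by
    intro y hy
    unfold vsq
    rw [hvo y hy, Finset.mul_sum]
    refine Finset.sum_congr rfl fun i _ => ?_
    rw [Pi.smul_apply, smul_eq_mul, mul_pow]
  have hlow : ∀ a y, y ∈ ball x (2 * s) → (a / ν) ^ 2 < vsq w y → a ^ 2 < vsq v y := by
    intro a y hy hw
    rw [hvs y hy, div_eq_inv_mul, mul_pow] at hw
    exact lt_of_mul_lt_mul_left hw (by positivity)
  intro y hy z hz hyL hzL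
  have hy2 : y ∈ ball x (2 * s) := ball_subset_ball (by linarith) hy
  have h1 := h y hy z hz (hlow Λ y hy2 hyL) (hlow l z hz hzL)
  rw [hvo y hy2, hvo z hz, xsq_smul, hvs y hy2, hvs z hz]
  calc ν⁻¹ ^ 4 * xsq (vort v y) (vort v z)
      ≤ ν⁻¹ ^ 4 * (ρ ^ 2 * ‖y - z‖ * (vsq v y * vsq v z)) :=
        mul_le_mul_of_nonneg_left h1 (by positivity)
    _ = _ := by ring

/-- The criterion. -/
theorem dir_R (hκ : Cut κ) : ∃ ε : ℝ, 0 < ε ∧ ∀ (ν T E : ℝ) (Ω R : Set V)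
    (u : ℝ → V → V) (p : ℝ → V → ℝ), 0 < ν → 0 < T → OSol ν T E Ω u p →
      ∫⁻ t in Ioo 0 T, ∫⁻ y in Ω, ENNReal.ofReal (gsq (u t) y) ≠ ⊤ → IsCompact R → R ⊆ Ω →
        (∀ x ∈ frontier R, ¬ Sing T u x) → ∃ r₀ : ℝ, 0 < r₀ ∧ ∀ (t₀ K : ℝ) (r g : ℝ → ℝ),
          t₀ ∈ Ioo 0 T → AntitoneOn r (Ico t₀ T) → (∀ t ∈ Ico t₀ T, 0 < r t ∧ r t ≤ r₀) →
          (∀ t ∈ Ioo t₀ T, IntegrableOn g (Ioo t₀ t)) →
          (∀ᵐ t ∂((volume : Measure ℝ).restrict (Ioo t₀ T)), ν / r t ^ 2 ≤ g t ∧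
            ((∀ s ∈ Ioo t₀ t, ∀ y ∈ R, ∃ x ∈ R, loc κ (r s) (u s) y ≤ loc κ (r t) (u t) x) →
              ∃ x ∈ R, (∀ y ∈ R, loc κ (r t) (u t) y ≤ loc κ (r t) (u t) x) ∧
                ∃ ρ Λ l : ℝ, 0 ≤ ρ ∧ 0 ≤ Λ ∧ 0 ≤ l ∧ Coh2 ρ Λ l (r t) x (u t) ∧
                  Λ + (1 / r t + ρ ^ 2 + r t ^ 3 * l ^ 2 / ν ^ 2)
                    * (∫ y in ball x (8 * r t) ∩ R, gsq (u t) y) / ν ≤ g t)) →
          (∃ᶠ t in 𝓝[<] T, ∫ s in Ioo t₀ t, g s ≤ ε * Real.log (1 / (T - t)) + K) →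
          ∀ x ∈ R, ¬ Sing T u x := by
  obtain ⟨C, hC, hdir⟩ := dir_loc hκ
  refine ⟨min 1 (1 / (32 * C)), lt_min one_pos (by positivity), ?_⟩
  intro ν T E Ω R u p hν hT hu hfin hR hRΩ hreg
  by_cases hS : ∃ x ∈ R, Sing T u x
  swap
  · push Not at hS
    exact ⟨1, one_pos, fun _ _ _ _ _ _ _ _ _ _ => hS⟩
  obtain ⟨r₀, hr₀, key⟩ := loc_nu hκ hν hT hu hfin hR hRΩ hreg hS
  refine ⟨r₀, hr₀, ?_⟩
  intro t₀ K r g ht₀ hr hrp hint hcoh hfreq
  exfalso
  have hC2 : 0 < 2 * C := by positivity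
  refine key t₀ (2 * C * K) r (fun t => 2 * C * g t) (fun t x => 0 ≤ g t ∧ ν / r t ^ 2 ≤ g t ∧
    ∃ ρ Λ l : ℝ, 0 ≤ ρ ∧ 0 ≤ Λ ∧ 0 ≤ l ∧ Coh2 ρ Λ l (r t) x (u t) ∧
                  Λ + (1 / r t + ρ ^ 2 + r t ^ 3 * l ^ 2 / ν ^ 2)
                    * (∫ y in ball x (8 * r t) ∩ R, gsq (u t) y) / ν ≤ g t) ht₀ hr hrp
    (fun t ht => (hint t ht).const_mul (2 * C)) ?_ ?_ ?_
  · filter_upwards [hcoh, ae_restrict_mem measurableSet_Ioo] with t ht htI
    have h1 := (hrp t (Ioo_subset_Ico_self htI)).1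
    have h2 : 0 ≤ ν / r t ^ 2 := by positivity
    have hg : 0 ≤ g t := h2.trans ht.1
    refine ⟨ht.1.trans ?_, fun hrec => ?_⟩
    · calc g t = 1 * g t := (one_mul _).symm
        _ ≤ 2 * C * g t := mul_le_mul_of_nonneg_right (by linarith) hg
    · obtain ⟨x, hx, hmax, hlm⟩ := ht.2 hrec
      exact ⟨x, hx, hmax, hg, ht.1, hlm⟩
  · intro t htI x ⟨hg0, hgr, ρ, Λ, l, hρ, hΛ, hl, hcoh, hle⟩ hb v hv hvu hdv hen hmax
    obtain ⟨hr0, -⟩ := hrp t (Ioo_subset_Ico_self htI)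
    have hb8 : ball x (8 * r t) ⊆ R := (ball_subset_ball (by linarith)).trans hb
    set I := ∫ y in ball x (8 * r t) ∩ R, gsq (u t) y with hI
    have hIe : ∫ y in ball x (8 * r t), gsq v y = ν⁻¹ ^ 2 * I := by
      rw [hI, inter_eq_left.2 hb8, ← integral_const_mul]
      refine setIntegral_congr_fun measurableSet_ball fun y hy => ?_
      have h1 : v =ᶠ[𝓝 y] fun y => ν⁻¹ • u t y := by
        filter_upwards [isOpen_ball.mem_nhds hy] with z hz
        exact hvu z (ball_subset_ball (by linarith) hz)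
      simp only [gsq_congr h1, W221.NS.gsq_smul]
    have h4 := hdir v hv (r t) x hr0 (fun y hy => hdv y (ball_subset_ball (by linarith) hy))
      hmax ρ (Λ / ν) (l / ν) (ν⁻¹ ^ 2 * I) hρ (by positivity) (by positivity) hIe.le
      (hcoh.nu hν hr0 fun y hy => hvu y (ball_subset_ball (by linarith) hy))
    refine h4.trans ?_
    have h5 := enk_nonneg hκ hr0 v x
    have h6 : 1 / r t ^ 2 + Λ / ν + (1 / r t + ρ ^ 2 + r t ^ 3 * (l / ν) ^ 2) * (ν⁻¹ ^ 2 * I)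
        ≤ 2 * (g t / ν) := by
      have e : 1 / r t ^ 2 + Λ / ν + (1 / r t + ρ ^ 2 + r t ^ 3 * (l / ν) ^ 2) * (ν⁻¹ ^ 2 * I)
          = (ν / r t ^ 2 + (Λ + (1 / r t + ρ ^ 2 + r t ^ 3 * l ^ 2 / ν ^ 2) * I / ν)) / ν := by
        field_simp
        ring
      rw [e]
      calc (ν / r t ^ 2 + (Λ + (1 / r t + ρ ^ 2 + r t ^ 3 * l ^ 2 / ν ^ 2) * I / ν)) / ν
          ≤ (g t + g t) / ν := div_le_div_of_nonneg_right (add_le_add hgr hle) hν.le
        _ = _ := by ring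
    calc C * ((1 / r t ^ 2 + Λ / ν + (1 / r t + ρ ^ 2 + r t ^ 3 * (l / ν) ^ 2) * (ν⁻¹ ^ 2 * I))
          * enk κ (r t) v x)
        ≤ C * ((2 * (g t / ν)) * enk κ (r t) v x) :=
          mul_le_mul_of_nonneg_left (mul_le_mul_of_nonneg_right h6 h5) (by linarith)
      _ = _ := by ring
  · exact freq_mul hC hfreq

end Pool.Agent.H946.NS
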