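import Pool.Agent.H946_NS.D3

/-!
The sixth power of the localised gradient of the remainder.
-/

set_option autoImplicit false

open MeasureTheory Set Metric Filter Topology
open scoped ContDiff ENNReal

namespace Pool.Agent.H946.NS

open H459R3.NS W221.NS Pool.Agent.W583.MD

variable {κ : V → ℝ}

/-- The local div-curl estimate with a cut-off function, with weights. -/
theorem divcurl_w {w : V → V} (hw : ContDiff ℝ ∞ w) {ψ : V → ℝ} (hψ : ContDiff ℝ ∞ ψ) {a : V}
    {s M : ℝ} (hs : ∀ z ∉ ball a s, ψ z = 0) (hM : ∀ z i, |pd i ψ z| ≤ M)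
    (hd : ∀ y ∈ ball a s, dv w y = 0) :
    ∫ z in ball a s, ψ z ^ 2 * gsq w z
      ≤ (∫ z in ball a s, ψ z ^ 2 * osq w z) + 12 * M ^ 2 * ∫ z in ball a s, nsq w z := by
  have hcs : HasCompactSupport ψ := HasCompactSupport.intro (isCompact_closedBall a s)
    fun z hz => hs z fun h => hz (ball_subset_closedBall h)
  let F : Fin 3 → Fin 3 → V → ℝ := fun i j z =>
    ψ z * ψ z * (w z j * pd j (fun y => w y i) z)
  have hF : ∀ i j, ContDiff ℝ ∞ (F i j) := fun i j =>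
    (hψ.mul hψ).mul ((sm_comp hw j).mul (sm_pd (sm_comp hw i) j))
  have hFc : ∀ i j, HasCompactSupport (F i j) := fun i j => (hcs.mul_left).mul_right
  have hZ : Z (fun z => ∑ i, ∑ j, pd i (F i j) z) :=
    Z.sum fun i => Z.sum fun j => Z_pd (hF i j) (hFc i j) i
  have hFz : ∀ i j, ∀ z ∉ ball a s, F i j z = 0 := fun i j z hz => by
    simp [F, hs z hz]
  -- the sum vanishes outside of the ball: integrate over the whole space
  have hZ2 : ∫ z in ball a s, ∑ i, ∑ j, pd i (F i j) z = 0 := by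
    have e : ∀ i j, ∀ z ∉ ball a s, pd i (F i j) z = 0 := by
      intro i j z hz
      have e1 : pd i (F i j) z = ψ z * ψ z * pd i (fun z => w z j * pd j (fun y => w y i) z) z
          + pd i (fun z => ψ z * ψ z) z * (w z j * pd j (fun y => w y i) z) :=
        pd_mul' (hψ.mul hψ) ((sm_comp hw j).mul (sm_pd (sm_comp hw i) j)) i z
      have e2 : pd i (fun z => ψ z * ψ z) z = ψ z * pd i ψ z + pd i ψ z * ψ z :=
        pd_mul' hψ hψ i z
      rw [e1, e2, hs z hz]
      ring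
    rw [setIntegral_eq_integral_of_forall_compl_eq_zero fun z hz => Finset.sum_eq_zero fun i _ =>
      Finset.sum_eq_zero fun j _ => e i j z hz]
    exact hZ.2
  have hZc : Continuous (fun z => ∑ i, ∑ j, pd i (F i j) z) :=
    continuous_finsetSum _ fun i _ => continuous_finsetSum _ fun j _ =>
      (sm_pd (hF i j) i).continuous
  have hcg := (gsq_smooth hw).continuous
  have hco := (osq_smooth hw).continuous
  have hcn := (nsq_smooth hw).continuous
  have hcψ := hψ.continuous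
  have key : ∀ z ∈ ball a s, ψ z ^ 2 * gsq w z
      ≤ ψ z ^ 2 * osq w z + 2 * (∑ i, ∑ j, pd i (F i j) z) + 12 * M ^ 2 * nsq w z := by
    intro z hz
    have hdj : ∀ j, ∑ i, pd i (pd j (fun y => w y i)) z = 0 := fun j =>
      pd_dv_zero hw isOpen_ball hd hz j
    have e1 : ∀ i j, pd i (F i j) z = ψ z * ψ z * (w z j * pd i (pd j (fun y => w y i)) z
        + pd i (fun y => w y j) z * pd j (fun y => w y i) z)
        + 2 * (ψ z * pd i ψ z) * (w z j * pd j (fun y => w y i) z) := by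
      intro i j
      have e1 : pd i (F i j) z = ψ z * ψ z * pd i (fun z => w z j * pd j (fun y => w y i) z) z
          + pd i (fun z => ψ z * ψ z) z * (w z j * pd j (fun y => w y i) z) :=
        pd_mul' (hψ.mul hψ) ((sm_comp hw j).mul (sm_pd (sm_comp hw i) j)) i z
      have e2 : pd i (fun z => ψ z * ψ z) z = ψ z * pd i ψ z + pd i ψ z * ψ z :=
        pd_mul' hψ hψ i z
      have e3 : pd i (fun z => w z j * pd j (fun y => w y i) z) z
          = w z j * pd i (pd j (fun y => w y i)) z + pd i (fun y => w y j) z * pd j (fun y => w y i) z :=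
        pd_mul' (sm_comp hw j) (sm_pd (sm_comp hw i) j) i z
      rw [e1, e2, e3]
      ring
    have e2 : ∑ i, ∑ j, pd i (F i j) z = ψ z ^ 2 * (∑ i, ∑ j, pd i (fun y => w y j) z
        * pd j (fun y => w y i) z)
        + ∑ i, ∑ j, 2 * (ψ z * pd i ψ z) * (w z j * pd j (fun y => w y i) z) := by
      simp_rw [e1]
      have h0 := hdj 0
      have h1 := hdj 1
      have h2 := hdj 2
      simp only [Fin.sum_univ_three] at h0 h1 h2 ⊢
      linear_combination ψ z ^ 2 * (w z 0 * h0 + w z 1 * h1 + w z 2 * h2)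
    have e3 : osq w z = 2 * gsq w z - 2 * ∑ i, ∑ j, pd i (fun y => w y j) z
        * pd j (fun y => w y i) z := by
      unfold osq gsq om
      simp only [Fin.sum_univ_three]
      ring
    have e4 : ∀ i j, -(2 * (2 * (ψ z * pd i ψ z) * (w z j * pd j (fun y => w y i) z)))
        ≤ ψ z ^ 2 * pd j (fun y => w y i) z ^ 2 + 4 * (M ^ 2 * w z j ^ 2) := by
      intro i j
      have h5 : pd i ψ z ^ 2 ≤ M ^ 2 := by
        rw [← sq_abs (pd i ψ z)]
        exact pow_le_pow_left₀ (abs_nonneg _) (hM z i) 2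
      nlinarith [sq_nonneg (ψ z * pd j (fun y => w y i) z + 2 * (pd i ψ z * w z j)),
        mul_le_mul_of_nonneg_right h5 (sq_nonneg (w z j))]
    have e5 : -(2 * ∑ i, ∑ j, 2 * (ψ z * pd i ψ z) * (w z j * pd j (fun y => w y i) z))
        ≤ ψ z ^ 2 * gsq w z + 12 * M ^ 2 * nsq w z := by
      have h6 := Finset.sum_le_sum fun (i : Fin 3) (_ : i ∈ Finset.univ) =>
        Finset.sum_le_sum fun (j : Fin 3) (_ : j ∈ Finset.univ) => e4 i j
      have h7 : ∑ i, ∑ j, -(2 * (2 * (ψ z * pd i ψ z) * (w z j * pd j (fun y => w y i) z)))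
          = -(2 * ∑ i, ∑ j, 2 * (ψ z * pd i ψ z) * (w z j * pd j (fun y => w y i) z)) := by
        simp only [Fin.sum_univ_three]
        ring
      have h8 : ∑ i, ∑ j, (ψ z ^ 2 * pd j (fun y => w y i) z ^ 2 + 4 * (M ^ 2 * w z j ^ 2))
          = ψ z ^ 2 * gsq w z + 12 * M ^ 2 * nsq w z := by
        unfold gsq nsq
        simp only [Fin.sum_univ_three]
        ring
      rw [h7, h8] at h6
      exact h6
    have e8 : 2 * (ψ z ^ 2 * gsq w z) = ψ z ^ 2 * osq w z
        + 2 * (ψ z ^ 2 * (∑ i, ∑ j, pd i (fun y => w y j) z * pd j (fun y => w y i) z)) := by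
      rw [e3]
      ring
    linarith
  have h2 : ∫ z in ball a s, ψ z ^ 2 * gsq w z ≤ ∫ z in ball a s,
      (ψ z ^ 2 * osq w z + 2 * (∑ i, ∑ j, pd i (F i j) z) + 12 * M ^ 2 * nsq w z) :=
    setIntegral_mono_on (int_ball (by fun_prop) a s) (int_ball (by fun_prop) a s)
      measurableSet_ball key
  refine h2.trans (le_of_eq ?_)
  have i1 : IntegrableOn (fun z => 2 * (∑ i, ∑ j, pd i (F i j) z)) (ball a s) :=
    int_ball (by fun_prop) a s
  have i2 : IntegrableOn (fun z => ψ z ^ 2 * osq w z + 2 * (∑ i, ∑ j, pd i (F i j) z)) (ball a s) :=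
    int_ball (by fun_prop) a s
  have i3 : IntegrableOn (fun z => 12 * M ^ 2 * nsq w z) (ball a s) := int_ball (by fun_prop) a s
  rw [integral_add i2 i3, integral_add (int_ball (by fun_prop) a s) i1, integral_const_mul, hZ2,
    integral_const_mul]
  ring


/-- The field of the derivatives in the direction `i`. -/
noncomputable def dfi (w : V → V) (i : Fin 3) (y : V) : V := fun j => pd i (fun y => w y j) y

theorem dfi_smooth {w : V → V} (hw : ContDiff ℝ ∞ w) (i : Fin 3) : ContDiff ℝ ∞ (dfi w i) :=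
  contDiff_pi.2 fun j => sm_pd (sm_comp hw j) i

theorem nsq_dfi_le (w : V → V) (i : Fin 3) (z : V) : nsq (dfi w i) z ≤ gsq w z := by
  unfold nsq gsq dfi
  refine Finset.sum_le_sum fun j _ => ?_
  exact Finset.single_le_sum (f := fun i => pd i (fun y => w y j) z ^ 2)
    (fun _ _ => sq_nonneg _) (Finset.mem_univ i)

/-- The constant of the gradient of the mollifier. -/
noncomputable def Ke : ℝ := ∑ i, ∫ z in ball (0 : V) 1, pd i et z ^ 2

theorem Ke_nonneg : 0 ≤ Ke := Finset.sum_nonneg fun _ _ => integral_nonneg fun _ => sq_nonneg _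

theorem Ke_le (i : Fin 3) : ∫ z in ball (0 : V) 1, pd i et z ^ 2 ≤ Ke :=
  Finset.single_le_sum (f := fun i => ∫ z in ball (0 : V) 1, pd i et z ^ 2)
    (fun _ _ => integral_nonneg fun _ => sq_nonneg _) (Finset.mem_univ i)

/-- The derivatives of the vorticity of the remainder. -/
theorem om_dfi {v : V → V} (hv : ContDiff ℝ ∞ v) (i a b : Fin 3) (z : V) :
    om (dfi (bb v) i) a b z = pd i (om v a b) z + kv (pd i et) 1 (om v a b) z := by
  have hb := bb_smooth hv
  have h1 : om (dfi (bb v) i) a b z = pd i (om (bb v) a b) z := by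
    have e1 : pd i (om (bb v) a b) z
        = pd i (pd a (fun y => bb v y b)) z - pd i (pd b (fun y => bb v y a)) z :=
      Pool.Agent.W135.MD.pd_sub' (Pool.Agent.W135.MD.sm_diff (sm_pd (sm_comp hb b) a))
        (Pool.Agent.W135.MD.sm_diff (sm_pd (sm_comp hb a) b)) i z
    rw [e1, Pool.Agent.W135.MD.pd_comm' (sm_comp hb b) i a z,
      Pool.Agent.W135.MD.pd_comm' (sm_comp hb a) i b z]
    rfl
  have h2 : om (bb v) a b = fun x => om v a b x - kv et 1 (om v a b) x :=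
    funext fun x => om_bb hv a b x
  have h3 : pd i (fun x => om v a b x - kv et 1 (om v a b) x) z
      = pd i (om v a b) z - pd i (kv et 1 (om v a b)) z :=
    Pool.Agent.W135.MD.pd_sub' (Pool.Agent.W135.MD.sm_diff (om_smooth hv a b))
      (Pool.Agent.W135.MD.sm_diff (kv_smooth_x ker_et (om_smooth hv a b) 1)) i z
  have h4 := pd_kv ker_et (om_smooth hv a b) 1 i z
  have h5 := kv_ibp ker_et (om_smooth hv a b) 1 i z
  rw [h1, h2, h3, h4, h5]
  ring

/-- The local estimate of the second derivatives of the remainder. -/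
theorem second_le (hκ : Cut κ) : ∃ C : ℝ, 1 ≤ C ∧ ∀ v : V → V, ContDiff ℝ ∞ v →
    (∀ y ∈ ball (0 : V) 8, dv v y = 0) → ∀ N : ℝ, ∫ x in ball (0 : V) 8, osq v x ≤ N → ∀ i,
      ∫ x in ball (0 : V) 1, κ x ^ 2 * gsq (dfi (bb v) i) x
        ≤ C * ((∫ x in ball (0 : V) 1, κ x ^ 2 * dsq v x) + N) := by
  obtain ⟨M, hM1, hM⟩ := hκ.bound
  obtain ⟨Cb, hCb, hbb⟩ := bb_bounds
  have hKe := Ke_nonneg
  refine ⟨2 + 16 * Ke + 12 * M ^ 2 * Cb, ?_, ?_⟩
  · have : 0 ≤ 12 * M ^ 2 * Cb := by positivity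
    linarith
  intro v hv hd N hN i
  have hN0 : 0 ≤ N := (integral_nonneg fun x => osq_nonneg v x).trans hN
  obtain ⟨-, -, hbg⟩ := hbb v hv hd N hN
  have hb := bb_smooth hv
  have hdb : ∀ y ∈ ball (0 : V) 1, dv (bb v) y = 0 := by
    intro y hy
    refine dv_bb hv fun z hz => hd z ?_
    rw [mem_ball_zero_iff] at hy ⊢
    have h1 : ‖z - y‖ < 1 := mem_ball_iff_norm.1 hz
    have h2 : ‖z‖ ≤ ‖z - y‖ + ‖y‖ := by
      have := norm_add_le (z - y) y
      rwa [sub_add_cancel] at this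
    linarith
  have hdw : ∀ y ∈ ball (0 : V) 1, dv (dfi (bb v) i) y = 0 := fun y hy =>
    pd_dv_zero hb isOpen_ball hdb hy i
  have h1 := divcurl_w (dfi_smooth hb i) hκ.smooth hκ.zero hM hdw
  set D := ∫ x in ball (0 : V) 1, κ x ^ 2 * dsq v x with hD
  have hkc : Continuous κ := hκ.smooth.continuous
  have hk2 : ∀ z, κ z ^ 2 ≤ 1 := fun z => pow_le_one₀ (hκ.nonneg z) (hκ.le_one z)
  have hD0 : 0 ≤ D := integral_nonneg fun x => mul_nonneg (sq_nonneg _) (dsq_nonneg v x)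
  have h2 : ∫ z in ball (0 : V) 1, nsq (dfi (bb v) i) z ≤ Cb * N :=
    (setIntegral_mono (int_ball (nsq_smooth (dfi_smooth hb i)).continuous 0 1)
      (int_ball (gsq_smooth hb).continuous 0 1) fun z => nsq_dfi_le _ i z).trans hbg
  have hkvc : ∀ a b, Continuous (kv (pd i et) 1 (om v a b)) := fun a b =>
    (kv_smooth_x (ker_et.pd i) (om_smooth hv a b) 1).continuous
  have hoc : ∀ a b, Continuous (om v a b) := fun a b => (om_smooth hv a b).continuous
  have h3 : ∫ z in ball (0 : V) 1, κ z ^ 2 * osq (dfi (bb v) i) z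
      ≤ ∫ z in ball (0 : V) 1, (2 * (κ z ^ 2 * dsq v z)
        + 2 * ∑ a, ∑ b, kv (pd i et) 1 (om v a b) z ^ 2) := by
    refine setIntegral_mono (int_ball ((hkc.pow 2).mul
      (osq_smooth (dfi_smooth hb i)).continuous) 0 1)
      (int_ball ((continuous_const.mul ((hkc.pow 2).mul (dsq_cont hv))).add
        (continuous_const.mul (continuous_finsetSum _ fun a _ => continuous_finsetSum _ fun b _ =>
          (hkvc a b).pow 2))) 0 1) fun z => ?_
    change κ z ^ 2 * osq (dfi (bb v) i) z ≤ _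
    have e1 : osq (dfi (bb v) i) z
        ≤ 2 * dsq v z + 2 * ∑ a, ∑ b, kv (pd i et) 1 (om v a b) z ^ 2 := by
      unfold osq dsq
      rw [Finset.mul_sum, Finset.mul_sum, ← Finset.sum_add_distrib]
      refine Finset.sum_le_sum fun a _ => ?_
      rw [Finset.mul_sum, Finset.mul_sum, ← Finset.sum_add_distrib]
      refine Finset.sum_le_sum fun b _ => ?_
      rw [om_dfi hv]
      have e2 : pd i (om v a b) z ^ 2 ≤ ∑ k, pd k (om v a b) z ^ 2 :=
        Finset.single_le_sum (f := fun k => pd k (om v a b) z ^ 2) (fun _ _ => sq_nonneg _)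
          (Finset.mem_univ i)
      nlinarith [sq_nonneg (pd i (om v a b) z - kv (pd i et) 1 (om v a b) z)]
    have e3 : 0 ≤ ∑ a, ∑ b, kv (pd i et) 1 (om v a b) z ^ 2 :=
      Finset.sum_nonneg fun _ _ => Finset.sum_nonneg fun _ _ => sq_nonneg _
    calc κ z ^ 2 * osq (dfi (bb v) i) z
        ≤ κ z ^ 2 * (2 * dsq v z + 2 * ∑ a, ∑ b, kv (pd i et) 1 (om v a b) z ^ 2) :=
          mul_le_mul_of_nonneg_left e1 (sq_nonneg _)
      _ = 2 * (κ z ^ 2 * dsq v z)
          + κ z ^ 2 * (2 * ∑ a, ∑ b, kv (pd i et) 1 (om v a b) z ^ 2) := by ring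
      _ ≤ 2 * (κ z ^ 2 * dsq v z)
          + 1 * (2 * ∑ a, ∑ b, kv (pd i et) 1 (om v a b) z ^ 2) := by
          have := hk2 z
          gcongr
      _ = _ := by ring
  have h4 : ∀ a b, ∫ z in ball (0 : V) 1, kv (pd i et) 1 (om v a b) z ^ 2
      ≤ 8 * Ke * ∫ z in ball (0 : V) 2, om v a b z ^ 2 := by
    intro a b
    have h5 := kv_L2 (ker_et.pd i) (hoc a b) 0 (ρ := 1) (r := 1) zero_le_one
    refine h5.trans ?_
    have h6 := Ke_le i
    have h7 : (1 : ℝ) + 1 = 2 := by norm_num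
    rw [h7]
    have h8 : 0 ≤ ∫ z in ball (0 : V) 2, om v a b z ^ 2 := integral_nonneg fun _ => sq_nonneg _
    exact mul_le_mul_of_nonneg_right (mul_le_mul_of_nonneg_left h6 (by norm_num)) h8
  have h5 : ∫ z in ball (0 : V) 1, ∑ a, ∑ b, kv (pd i et) 1 (om v a b) z ^ 2 ≤ 8 * Ke * N := by
    have hi : ∀ a b, IntegrableOn (fun z => kv (pd i et) 1 (om v a b) z ^ 2) (ball (0 : V) 1) :=
      fun a b => int_ball ((hkvc a b).pow 2) 0 1
    rw [integral_finsetSum _ fun a _ => integrable_finsetSum _ fun b _ => hi a b]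
    simp_rw [integral_finsetSum _ fun b _ => hi _ b]
    have h6 : ∑ a, ∑ b, ∫ z in ball (0 : V) 1, kv (pd i et) 1 (om v a b) z ^ 2
        ≤ ∑ a, ∑ b, 8 * Ke * ∫ z in ball (0 : V) 2, om v a b z ^ 2 :=
      Finset.sum_le_sum fun a _ => Finset.sum_le_sum fun b _ => h4 a b
    refine h6.trans ?_
    have h7 : ∑ a, ∑ b, 8 * Ke * ∫ z in ball (0 : V) 2, om v a b z ^ 2
        = 8 * Ke * ∫ z in ball (0 : V) 2, osq v z := by
      have hi2 : ∀ a b, IntegrableOn (fun z => om v a b z ^ 2) (ball (0 : V) 2) :=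
        fun a b => int_ball ((hoc a b).pow 2) 0 2
      unfold osq
      rw [integral_finsetSum _ fun a _ => integrable_finsetSum _ fun b _ => hi2 a b]
      simp_rw [integral_finsetSum _ fun b _ => hi2 _ b, Finset.mul_sum]
    rw [h7]
    refine mul_le_mul_of_nonneg_left ?_ (by positivity)
    exact (ball_mono (osq_smooth hv).continuous (osq_nonneg v)
      (ball_subset_ball (by norm_num))).trans hN
  have h6 : ∫ z in ball (0 : V) 1, (2 * (κ z ^ 2 * dsq v z)
        + 2 * ∑ a, ∑ b, kv (pd i et) 1 (om v a b) z ^ 2) ≤ 2 * D + 2 * (8 * Ke * N) := by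
    have g1 : IntegrableOn (fun z : V => 2 * (κ z ^ 2 * dsq v z)) (ball 0 1) :=
      int_ball (continuous_const.mul ((hkc.pow 2).mul (dsq_cont hv))) 0 1
    have g2 : IntegrableOn (fun z : V => 2 * ∑ a, ∑ b, kv (pd i et) 1 (om v a b) z ^ 2)
        (ball 0 1) := int_ball (continuous_const.mul (continuous_finsetSum _ fun a _ =>
        continuous_finsetSum _ fun b _ => (hkvc a b).pow 2)) 0 1
    rw [integral_add g1 g2, integral_const_mul, integral_const_mul]
    linarith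
  have h7 : 12 * M ^ 2 * ∫ z in ball (0 : V) 1, nsq (dfi (bb v) i) z ≤ 12 * M ^ 2 * (Cb * N) :=
    mul_le_mul_of_nonneg_left h2 (by positivity)
  have q1 : 0 ≤ Ke * D := by positivity
  have q2 : 0 ≤ M ^ 2 * Cb * D := by positivity
  have e : (2 + 16 * Ke + 12 * M ^ 2 * Cb) * (D + N) = 2 * D + 2 * (8 * Ke * N)
      + 12 * M ^ 2 * (Cb * N) + (2 * N + 16 * (Ke * D) + 12 * (M ^ 2 * Cb * D)) := by ring
  rw [e]
  linarith

/-- The sixth power of a localised function. -/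
theorem six_gen (hκ : Cut κ) : ∃ C : ℝ, 1 ≤ C ∧ ∀ g : V → ℝ, ContDiff ℝ ∞ g → ∀ A : ℝ,
    (∫ x in ball (0 : V) 1, κ x ^ 2 * ∑ k, pd k g x ^ 2) ≤ A →
    (∫ x in ball (0 : V) 1, g x ^ 2) ≤ A →
      ∫ x in ball (0 : V) 1, (κ x * g x) ^ 6 ≤ C * A ^ 3 := by
  obtain ⟨M, hM1, hM⟩ := hκ.bound
  obtain ⟨K, hK0, hK⟩ := Pool.Agent.W440.MD.scalar
  refine ⟨1 + K * (3 + 6 * M ^ 2) ^ 3, ?_, ?_⟩
  · have : 0 ≤ K * (3 + 6 * M ^ 2) ^ 3 := by positivity
    linarith
  intro g hg A h1A h2A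
  have hA0 : 0 ≤ A := (integral_nonneg fun x => sq_nonneg _).trans h2A
  have hkc : Continuous κ := hκ.smooth.continuous
  have hkz : ∀ i, ∀ z ∉ ball (0 : V) 1, pd i κ z = 0 := fun i =>
    (hκ.ker.pd i).zero
  set f : V → ℝ := fun z => κ z * g z with hfdef
  have hf : ContDiff ℝ ∞ f := hκ.smooth.mul hg
  have hgc : ∀ k, Continuous (pd k g) := fun k => (sm_pd hg k).continuous
  have hc1 : Continuous fun x => (∑ k, pd k f x ^ 2) + ((1 : ℝ) ^ 2)⁻¹ * f x ^ 2 :=
    (continuous_finsetSum _ fun k _ => (sm_pd hf k).continuous.pow 2).add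
      (continuous_const.mul (hf.continuous.pow 2))
  have hpd : ∀ k z, pd k f z = κ z * pd k g z + pd k κ z * g z := fun k z =>
    pd_mul' hκ.smooth hg k z
  have h1 : ∫ x in ball (0 : V) (2 * 1), ((∑ k, pd k f x ^ 2) + ((1 : ℝ) ^ 2)⁻¹ * f x ^ 2)
      = ∫ x in ball (0 : V) 1, ((∑ k, pd k f x ^ 2) + ((1 : ℝ) ^ 2)⁻¹ * f x ^ 2) := by
    refine setIntegral_eq_of_subset_of_forall_sdiff_eq_zero measurableSet_ball
      (ball_subset_ball (by norm_num)) fun z hz => ?_
    have e0 : f z = 0 := by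
      change κ z * g z = 0
      rw [hκ.zero z hz.2, zero_mul]
    have e1 : ∀ k, pd k f z = 0 := fun k => by
      rw [hpd, hκ.zero z hz.2, hkz k z hz.2]
      ring
    simp [e0, e1]
  have hc2 : Continuous fun x : V => 2 * (κ x ^ 2 * ∑ k, pd k g x ^ 2) :=
    continuous_const.mul ((hkc.pow 2).mul (continuous_finsetSum _ fun k _ => (hgc k).pow 2))
  have hc3 : Continuous fun x : V => (1 + 6 * M ^ 2) * g x ^ 2 :=
    continuous_const.mul (hg.continuous.pow 2)
  have h2 : ∫ x in ball (0 : V) 1, ((∑ k, pd k f x ^ 2) + ((1 : ℝ) ^ 2)⁻¹ * f x ^ 2)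
      ≤ ∫ x in ball (0 : V) 1, (2 * (κ x ^ 2 * ∑ k, pd k g x ^ 2) + (1 + 6 * M ^ 2) * g x ^ 2) := by
    refine setIntegral_mono (int_ball hc1 0 1) (int_ball (hc2.add hc3) 0 1) fun z => ?_
    change (∑ k, pd k f z ^ 2) + ((1 : ℝ) ^ 2)⁻¹ * f z ^ 2 ≤ _
    have h3 : ∀ k, pd k f z ^ 2 ≤ 2 * (κ z ^ 2 * pd k g z ^ 2) + 2 * M ^ 2 * g z ^ 2 := by
      intro k
      rw [hpd]
      have h4 : pd k κ z ^ 2 ≤ M ^ 2 := by
        rw [← sq_abs]
        exact pow_le_pow_left₀ (abs_nonneg _) (hM z k) 2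
      nlinarith [sq_nonneg (κ z * pd k g z - pd k κ z * g z),
        mul_le_mul_of_nonneg_right h4 (sq_nonneg (g z))]
    have h6 : f z ^ 2 ≤ g z ^ 2 := by
      have h7 : κ z ^ 2 ≤ 1 := pow_le_one₀ (hκ.nonneg z) (hκ.le_one z)
      change (κ z * g z) ^ 2 ≤ _
      nlinarith [mul_le_mul_of_nonneg_right h7 (sq_nonneg (g z))]
    have h9 : ∑ k, pd k f z ^ 2 ≤ 2 * (κ z ^ 2 * ∑ k, pd k g z ^ 2) + 6 * M ^ 2 * g z ^ 2 := by
      have := Finset.sum_le_sum fun k (_ : k ∈ Finset.univ) => h3 k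
      refine this.trans (le_of_eq ?_)
      simp only [Fin.sum_univ_three]
      ring
    simp only [one_pow, inv_one, one_mul]
    linarith
  have h3 : ∫ x in ball (0 : V) (2 * 1), ((∑ k, pd k f x ^ 2) + ((1 : ℝ) ^ 2)⁻¹ * f x ^ 2)
      ≤ (3 + 6 * M ^ 2) * A := by
    rw [h1]
    refine h2.trans ?_
    rw [integral_add (int_ball hc2 0 1) (int_ball hc3 0 1), integral_const_mul, integral_const_mul]
    have : (1 + 6 * M ^ 2) * ∫ x in ball (0 : V) 1, g x ^ 2 ≤ (1 + 6 * M ^ 2) * A :=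
      mul_le_mul_of_nonneg_left h2A (by positivity)
    linarith
  have h4 := hK f hf 0 1 one_pos
  have h5 : 0 ≤ ∫ x in ball (0 : V) (2 * 1), ((∑ k, pd k f x ^ 2) + ((1 : ℝ) ^ 2)⁻¹ * f x ^ 2) :=
    integral_nonneg fun x => by positivity
  refine (h4.trans (mul_le_mul_of_nonneg_left (pow_le_pow_left₀ h5 h3 3) hK0)).trans ?_
  have h6 : 0 ≤ A ^ 3 := by positivity
  calc K * ((3 + 6 * M ^ 2) * A) ^ 3 = (K * (3 + 6 * M ^ 2) ^ 3) * A ^ 3 := by ring
    _ ≤ (1 + K * (3 + 6 * M ^ 2) ^ 3) * A ^ 3 := by nlinarith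

/-- The sixth power of the localised gradient of the remainder. -/
theorem gb_six (hκ : Cut κ) : ∃ C : ℝ, 1 ≤ C ∧ ∀ v : V → V, ContDiff ℝ ∞ v →
    (∀ y ∈ ball (0 : V) 8, dv v y = 0) → ∀ N : ℝ, ∫ x in ball (0 : V) 8, osq v x ≤ N →
      ∫ x in ball (0 : V) 1, (κ x ^ 2 * gsq (bb v) x) ^ 3
        ≤ (C * ((∫ x in ball (0 : V) 1, κ x ^ 2 * dsq v x) + N)) ^ 3 := by
  obtain ⟨C1, hC1, h1⟩ := second_le hκ
  obtain ⟨C6, hC6, h6⟩ := six_gen hκ
  obtain ⟨Cb, hCb, hbb⟩ := bb_bounds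
  refine ⟨(729 * C6) * (C1 + Cb), ?_, ?_⟩
  · have : 1 ≤ 729 * C6 := by linarith
    nlinarith
  intro v hv hd N hN
  have hN0 : 0 ≤ N := (integral_nonneg fun x => osq_nonneg v x).trans hN
  obtain ⟨-, -, hbg⟩ := hbb v hv hd N hN
  have hb := bb_smooth hv
  set D := ∫ x in ball (0 : V) 1, κ x ^ 2 * dsq v x with hD
  have hD0 : 0 ≤ D := integral_nonneg fun x => mul_nonneg (sq_nonneg _) (dsq_nonneg v x)
  have hkc : Continuous κ := hκ.smooth.continuous
  set A := (C1 + Cb) * (D + N) with hA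
  have hA1 : C1 * (D + N) ≤ A := by
    rw [hA]
    have : 0 ≤ Cb * (D + N) := by positivity
    linarith
  have hA2 : Cb * N ≤ A := by
    rw [hA]
    have : 0 ≤ C1 * (D + N) := by positivity
    have : 0 ≤ Cb * D := by positivity
    linarith
  have hA0 : 0 ≤ A := by positivity
  have hgc : ∀ i j, Continuous (pd i (fun y => bb v y j)) := fun i j =>
    (sm_pd (sm_comp hb j) i).continuous
  have f6 : ∀ i j, ∫ x in ball (0 : V) 1, (κ x * pd i (fun y => bb v y j) x) ^ 6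
      ≤ C6 * A ^ 3 := by
    intro i j
    refine h6 _ (sm_pd (sm_comp hb j) i) A ?_ ?_
    · refine (le_trans ?_ (h1 v hv hd N hN i)).trans hA1
      refine setIntegral_mono (int_ball ((hkc.pow 2).mul (continuous_finsetSum _ fun k _ =>
        (sm_pd (sm_pd (sm_comp hb j) i) k).continuous.pow 2)) 0 1)
        (int_ball ((hkc.pow 2).mul (gsq_smooth (dfi_smooth hb i)).continuous) 0 1) fun z => ?_
      change κ z ^ 2 * _ ≤ κ z ^ 2 * _
      refine mul_le_mul_of_nonneg_left ?_ (sq_nonneg _)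
      unfold gsq dfi
      exact Finset.single_le_sum (f := fun j => ∑ k, pd k (pd i (fun y => bb v y j)) z ^ 2)
        (fun _ _ => Finset.sum_nonneg fun _ _ => sq_nonneg _) (Finset.mem_univ j)
    · refine (le_trans ?_ hbg).trans hA2
      refine setIntegral_mono (int_ball ((hgc i j).pow 2) 0 1)
        (int_ball (gsq_smooth hb).continuous 0 1) fun z => ?_
      unfold gsq
      exact (Finset.single_le_sum (f := fun i => pd i (fun y => bb v y j) z ^ 2)
        (fun _ _ => sq_nonneg _) (Finset.mem_univ i)).trans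
        (Finset.single_le_sum (f := fun j => ∑ i, pd i (fun y => bb v y j) z ^ 2)
          (fun _ _ => Finset.sum_nonneg fun _ _ => sq_nonneg _) (Finset.mem_univ j))
  have hc6 : ∀ i j, Continuous fun x => (κ x * pd i (fun y => bb v y j) x) ^ 6 := fun i j =>
    (hkc.mul (hgc i j)).pow 6
  have h2 : ∀ x, (κ x ^ 2 * gsq (bb v) x) ^ 3
      ≤ 81 * ∑ j, ∑ i, (κ x * pd i (fun y => bb v y j) x) ^ 6 := by
    intro x
    have e : κ x ^ 2 * gsq (bb v) x = ∑ j, ∑ i, (κ x * pd i (fun y => bb v y j) x) ^ 2 := by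
      unfold gsq
      rw [Finset.mul_sum]
      refine Finset.sum_congr rfl fun j _ => ?_
      rw [Finset.mul_sum]
      refine Finset.sum_congr rfl fun i _ => ?_
      ring
    rw [e]
    have h3 : ∀ g : Fin 3 → ℝ, (∀ i, 0 ≤ g i) → (∑ i, g i) ^ 3 ≤ 9 * ∑ i, g i ^ 3 := by
      intro g hg
      simp only [Fin.sum_univ_three]
      have h0 := hg 0
      have h1 := hg 1
      have h2 := hg 2
      nlinarith [mul_nonneg (add_nonneg h0 h1) (sq_nonneg (g 0 - g 1)),
        mul_nonneg (add_nonneg h0 h2) (sq_nonneg (g 0 - g 2)),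
        mul_nonneg (add_nonneg h1 h2) (sq_nonneg (g 1 - g 2)),
        mul_nonneg h0 (sq_nonneg (g 1 - g 2)), mul_nonneg h1 (sq_nonneg (g 0 - g 2)),
        mul_nonneg h2 (sq_nonneg (g 0 - g 1))]
    calc (∑ j, ∑ i, (κ x * pd i (fun y => bb v y j) x) ^ 2) ^ 3
        ≤ 9 * ∑ j, (∑ i, (κ x * pd i (fun y => bb v y j) x) ^ 2) ^ 3 :=
          h3 _ fun i => Finset.sum_nonneg fun j _ => sq_nonneg _
      _ ≤ 9 * ∑ j, 9 * ∑ i, ((κ x * pd i (fun y => bb v y j) x) ^ 2) ^ 3 := by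
          gcongr with j _
          exact h3 _ fun i => sq_nonneg _
      _ = 81 * ∑ j, ∑ i, (κ x * pd i (fun y => bb v y j) x) ^ 6 := by
          rw [← Finset.mul_sum]
          have : ∀ i j, ((κ x * pd i (fun y => bb v y j) x) ^ 2) ^ 3
            = (κ x * pd i (fun y => bb v y j) x) ^ 6 := fun i j => by ring
          simp_rw [this]
          ring
  have hc5 : Continuous fun x : V => (κ x ^ 2 * gsq (bb v) x) ^ 3 :=
    ((hkc.pow 2).mul (gsq_smooth hb).continuous).pow 3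
  have hc7 : Continuous fun x => 81 * ∑ j, ∑ i, (κ x * pd i (fun y => bb v y j) x) ^ 6 :=
    continuous_const.mul (continuous_finsetSum _ fun j _ => continuous_finsetSum _ fun i _ =>
      hc6 i j)
  refine (setIntegral_mono (int_ball hc5 0 1) (int_ball hc7 0 1) h2).trans ?_
  have hi : ∀ i j, IntegrableOn (fun x => (κ x * pd i (fun y => bb v y j) x) ^ 6)
      (ball (0 : V) 1) := fun i j => int_ball (hc6 i j) 0 1
  rw [integral_const_mul, integral_finsetSum _ fun j _ => integrable_finsetSum _ fun i _ => hi i j]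
  simp_rw [integral_finsetSum _ fun i _ => hi i _]
  have h8 : ∑ j, ∑ i, ∫ x in ball (0 : V) 1, (κ x * pd i (fun y => bb v y j) x) ^ 6
      ≤ ∑ _j : Fin 3, ∑ _i : Fin 3, C6 * A ^ 3 :=
    Finset.sum_le_sum fun j _ => Finset.sum_le_sum fun i _ => f6 i j
  have h9 : ∑ _j : Fin 3, ∑ _i : Fin 3, C6 * A ^ 3 = 9 * (C6 * A ^ 3) := by
    simp only [Fin.sum_univ_three]
    ring
  have h10 : 729 * C6 ≤ (729 * C6) ^ 3 := le_self_pow₀ (by linarith) (by norm_num)
  calc 81 * ∑ j, ∑ i, ∫ x in ball (0 : V) 1, (κ x * pd i (fun y => bb v y j) x) ^ 6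
      ≤ 81 * (9 * (C6 * A ^ 3)) := by linarith
    _ = (729 * C6) * A ^ 3 := by ring
    _ ≤ (729 * C6) ^ 3 * A ^ 3 := mul_le_mul_of_nonneg_right h10 (by positivity)
    _ = _ := by
      rw [hA]
      ring

/-- The fourth power. -/
theorem gb_four (hκ : Cut κ) : ∃ C : ℝ, 1 ≤ C ∧ ∀ v : V → V, ContDiff ℝ ∞ v →
    (∀ y ∈ ball (0 : V) 8, dv v y = 0) → ∀ N : ℝ, ∫ x in ball (0 : V) 8, osq v x ≤ N →
      (∫ x in ball (0 : V) 1, (κ x ^ 2 * gsq (bb v) x) ^ 2) ^ 2
        ≤ C * N * ((∫ x in ball (0 : V) 1, κ x ^ 2 * dsq v x) + N) ^ 3 := by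
  obtain ⟨C6, hC6, h6⟩ := gb_six hκ
  obtain ⟨Cb, hCb, hbb⟩ := bb_bounds
  refine ⟨Cb * C6 ^ 3, one_le_mul_of_one_le_of_one_le hCb (one_le_pow₀ hC6), ?_⟩
  intro v hv hd N hN
  have hN0 : 0 ≤ N := (integral_nonneg fun x => osq_nonneg v x).trans hN
  obtain ⟨-, -, hbg⟩ := hbb v hv hd N hN
  have hb := bb_smooth hv
  set X := (∫ x in ball (0 : V) 1, κ x ^ 2 * dsq v x) + N with hX
  have hX0 : 0 ≤ X := add_nonneg (integral_nonneg fun x => mul_nonneg (sq_nonneg _)
    (dsq_nonneg v x)) hN0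
  have h3 := h6 v hv hd N hN
  set F : V → ℝ := fun x => κ x ^ 2 * gsq (bb v) x with hF
  have hF0 : ∀ x, 0 ≤ F x := fun x => mul_nonneg (sq_nonneg _) (gsq_nonneg _ x)
  have hkc : Continuous κ := hκ.smooth.continuous
  have hFc : Continuous F := (hkc.pow 2).mul (gsq_smooth hb).continuous
  have h1 := W162.MD.cs_ball (f := fun x => √(F x)) (g := fun x => F x * √(F x)) hFc.sqrt
    (hFc.mul hFc.sqrt) 0 1
  have e1 : ∀ x, √(F x) * (F x * √(F x)) = F x ^ 2 := fun x => by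
    have := Real.mul_self_sqrt (hF0 x)
    calc √(F x) * (F x * √(F x)) = F x * (√(F x) * √(F x)) := by ring
      _ = _ := by rw [this]; ring
  have e2 : ∀ x, √(F x) ^ 2 = F x := fun x => Real.sq_sqrt (hF0 x)
  have e3 : ∀ x, (F x * √(F x)) ^ 2 = F x ^ 3 := fun x => by
    rw [mul_pow, e2]
    ring
  simp_rw [e1, e2, e3] at h1
  have hk2 : ∀ z, κ z ^ 2 ≤ 1 := fun z => pow_le_one₀ (hκ.nonneg z) (hκ.le_one z)
  have hF1 : ∫ x in ball (0 : V) 1, F x ≤ Cb * N := by
    refine (setIntegral_mono (int_ball hFc 0 1) (int_ball (gsq_smooth hb).continuous 0 1)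
      fun x => ?_).trans hbg
    calc F x ≤ 1 * gsq (bb v) x := mul_le_mul_of_nonneg_right (hk2 x) (gsq_nonneg _ x)
      _ = _ := one_mul _
  have i0 : 0 ≤ ∫ x in ball (0 : V) 1, F x ^ 2 := integral_nonneg fun x => sq_nonneg _
  have i1 : 0 ≤ ∫ x in ball (0 : V) 1, F x := integral_nonneg hF0
  have i3 : 0 ≤ ∫ x in ball (0 : V) 1, F x ^ 3 := integral_nonneg fun x => pow_nonneg (hF0 x) 3
  rw [abs_of_nonneg i0] at h1
  calc (∫ x in ball (0 : V) 1, F x ^ 2) ^ 2
      ≤ (√(∫ x in ball (0 : V) 1, F x) * √(∫ x in ball (0 : V) 1, F x ^ 3)) ^ 2 :=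
        pow_le_pow_left₀ i0 h1 2
    _ = (∫ x in ball (0 : V) 1, F x) * (∫ x in ball (0 : V) 1, F x ^ 3) := by
        rw [mul_pow, Real.sq_sqrt i1, Real.sq_sqrt i3]
    _ ≤ (Cb * N) * (C6 * X) ^ 3 := mul_le_mul hF1 h3 i3 (by positivity)
    _ = _ := by ring

end Pool.Agent.H946.NS
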