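import Pool.Agent.H946_NS.E1
import Mathlib.LinearAlgebra.Matrix.Determinant.Basic

/-!
The stretching term and the determinant of the strain.
-/

set_option autoImplicit false

open MeasureTheory Set Metric Filter Topology
open scoped ContDiff ENNReal

namespace Pool.Agent.H946.NS

open H459R3.NS W221.NS Pool.Agent.W583.MD

variable {κ : V → ℝ}

/-- The strain, the symmetric part of the gradient. -/
noncomputable def strain (v : V → V) (y : V) : Matrix (Fin 3) (Fin 3) ℝ :=
  Matrix.of fun i j => (pd i (fun x => v x j) y + pd j (fun x => v x i) y) / 2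

/-- The square of the norm of the strain. -/
noncomputable def ssq (v : V → V) (y : V) : ℝ := ∑ i, ∑ j, strain v y i j ^ 2

theorem ssq_nonneg (v : V → V) (y : V) : 0 ≤ ssq v y :=
  Finset.sum_nonneg fun _ _ => Finset.sum_nonneg fun _ _ => sq_nonneg _

/-- The cofactors of the first row of the gradient. -/
noncomputable def cof (w : V → V) (k : Fin 3) (z : V) : ℝ :=
  ![pd 1 (fun y => w y 1) z * pd 2 (fun y => w y 2) z
      - pd 2 (fun y => w y 1) z * pd 1 (fun y => w y 2) z,
    pd 2 (fun y => w y 1) z * pd 0 (fun y => w y 2) z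
      - pd 0 (fun y => w y 1) z * pd 2 (fun y => w y 2) z,
    pd 0 (fun y => w y 1) z * pd 1 (fun y => w y 2) z
      - pd 1 (fun y => w y 1) z * pd 0 (fun y => w y 2) z] k

/-- The determinant of the gradient. -/
noncomputable def dgr (w : V → V) (z : V) : ℝ := ∑ k, pd k (fun y => w y 0) z * cof w k z

/-- The identity of Betchov, pointwise. -/
theorem betchov (w : V → V) (z : V) :
    ∑ j, ∑ k, vort w z j * vort w z k * pd k (fun y => w y j) z
      = 4 * dgr w z - 4 * (strain w z).det := by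
  rw [Matrix.det_fin_three]
  unfold dgr cof strain vort
  simp only [Fin.sum_univ_three, Matrix.of_apply, Matrix.cons_val_zero, Matrix.cons_val_one,
    Matrix.cons_val]
  ring

theorem prod_close {a b c x y z s σ : ℝ} (ha : |a| ≤ s) (hb : |b| ≤ s) (hc : |c| ≤ s)
    (hx : |x| ≤ σ) (hy : |y| ≤ σ) (hz : |z| ≤ σ) (hσ : σ ≤ s) :
    |(a + x) * (b + y) * (c + z) - a * b * c| ≤ 7 * (s ^ 2 * σ) := by
  have hs : 0 ≤ s := (abs_nonneg a).trans ha
  have hσ0 : 0 ≤ σ := (abs_nonneg x).trans hx
  have h : ∀ {p q t P Q T : ℝ}, |p| ≤ P → |q| ≤ Q → |t| ≤ T → 0 ≤ P → 0 ≤ Q →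
      |p * q * t| ≤ P * Q * T := by
    intro p q t P Q T hp hq ht hP hQ
    rw [abs_mul, abs_mul]
    exact mul_le_mul (mul_le_mul hp hq (abs_nonneg _) hP) ht (abs_nonneg _) (by positivity)
  have e : (a + x) * (b + y) * (c + z) - a * b * c
      = a * b * z + a * y * c + x * b * c + a * y * z + x * b * z + x * y * c + x * y * z := by ring
  rw [e]
  have h1 := h ha hb hz hs hs
  have h2 := h ha hy hc hs hσ0
  have h3 := h hx hb hc hσ0 hs
  have h4 := h ha hy hz hs hσ0
  have h5 := h hx hb hz hσ0 hs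
  have h6 := h hx hy hc hσ0 hσ0
  have h7 := h hx hy hz hσ0 hσ0
  have k1 : s * σ * σ ≤ s ^ 2 * σ := by nlinarith [mul_nonneg hs hσ0]
  have k2 : σ * σ * s ≤ s ^ 2 * σ := by nlinarith [mul_nonneg hs hσ0]
  have k3 : σ * σ * σ ≤ s ^ 2 * σ := by
    have : σ * σ ≤ s * s := mul_le_mul hσ hσ hσ0 hs
    nlinarith
  have t1 := abs_le.1 h1
  have t2 := abs_le.1 h2
  have t3 := abs_le.1 h3
  have t4 := abs_le.1 h4
  have t5 := abs_le.1 h5
  have t6 := abs_le.1 h6
  have t7 := abs_le.1 h7
  rw [abs_le]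
  constructor <;> nlinarith

theorem prod_le {a b c s : ℝ} (ha : |a| ≤ s) (hb : |b| ≤ s) (hc : |c| ≤ s) :
    |a * b * c| ≤ s ^ 3 := by
  have hs : 0 ≤ s := (abs_nonneg a).trans ha
  rw [abs_mul, abs_mul]
  calc |a| * |b| * |c| ≤ s * s * s :=
        mul_le_mul (mul_le_mul ha hb (abs_nonneg _) hs) hc (abs_nonneg _) (by positivity)
    _ = _ := by ring

/-- The determinant of a symmetric matrix after a small change. -/
theorem det_close {A B : Matrix (Fin 3) (Fin 3) ℝ} {s σ q : ℝ} (hs : 0 ≤ s) (hσ : 0 ≤ σ)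
    (hq : 0 ≤ q) (hA : ∑ i, ∑ j, A i j ^ 2 = s ^ 2) (hAB : ∀ i j, |B i j - A i j| ≤ σ)
    (h : -B.det ≤ q * ∑ i, ∑ j, B i j ^ 2) : -A.det ≤ (20 * q + 42 * σ) * s ^ 2 := by
  have hAs : ∀ i j, |A i j| ≤ s := by
    intro i j
    apply abs_le_of_sq_le_sq _ hs
    rw [← hA]
    exact (Finset.single_le_sum (f := fun j => A i j ^ 2) (fun _ _ => sq_nonneg _)
      (Finset.mem_univ j)).trans (Finset.single_le_sum (f := fun i => ∑ j, A i j ^ 2)
        (fun _ _ => Finset.sum_nonneg fun _ _ => sq_nonneg _) (Finset.mem_univ i))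
  rcases le_total σ s with hc | hc
  · have hp : ∀ i j k l m n, |B i j * B k l * B m n - A i j * A k l * A m n|
        ≤ 7 * (s ^ 2 * σ) := by
      intro i j k l m n
      have h1 := prod_close (hAs i j) (hAs k l) (hAs m n) (hAB i j) (hAB k l) (hAB m n) hc
      have e : ∀ a b, A a b + (B a b - A a b) = B a b := fun a b => by ring
      rwa [e, e, e] at h1
    have hd : |B.det - A.det| ≤ 42 * (s ^ 2 * σ) := by
      rw [Matrix.det_fin_three, Matrix.det_fin_three]
      have p1 := abs_le.1 (hp 0 0 1 1 2 2)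
      have p2 := abs_le.1 (hp 0 0 1 2 2 1)
      have p3 := abs_le.1 (hp 0 1 1 0 2 2)
      have p4 := abs_le.1 (hp 0 1 1 2 2 0)
      have p5 := abs_le.1 (hp 0 2 1 0 2 1)
      have p6 := abs_le.1 (hp 0 2 1 1 2 0)
      rw [abs_le]
      constructor <;> linarith [p1.1, p1.2, p2.1, p2.2, p3.1, p3.2, p4.1, p4.2, p5.1, p5.2,
        p6.1, p6.2]
    have hB : ∑ i, ∑ j, B i j ^ 2 ≤ 20 * s ^ 2 := by
      have h2 : ∀ i j, B i j ^ 2 ≤ 2 * A i j ^ 2 + 2 * σ ^ 2 := by
        intro i j
        have h3 : (B i j - A i j) ^ 2 ≤ σ ^ 2 := by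
          rw [← sq_abs]
          exact pow_le_pow_left₀ (abs_nonneg _) (hAB i j) 2
        nlinarith [sq_nonneg (B i j - A i j - A i j)]
      have h3 : ∑ i, ∑ j, B i j ^ 2 ≤ ∑ i, ∑ j, (2 * A i j ^ 2 + 2 * σ ^ 2) :=
        Finset.sum_le_sum fun i _ => Finset.sum_le_sum fun j _ => h2 i j
      have h4 : ∑ i, ∑ j, (2 * A i j ^ 2 + 2 * σ ^ 2) = 2 * s ^ 2 + 18 * σ ^ 2 := by
        rw [← hA]
        simp only [Fin.sum_univ_three]
        ring
      have h5 : σ ^ 2 ≤ s ^ 2 := pow_le_pow_left₀ hσ hc 2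
      linarith
    have h6 := mul_le_mul_of_nonneg_left hB hq
    have h7 := abs_le.1 hd
    nlinarith [h7.1, h7.2]
  · have hp : ∀ i j k l m n, |A i j * A k l * A m n| ≤ s ^ 3 := fun i j k l m n =>
      prod_le (hAs i j) (hAs k l) (hAs m n)
    have hd : |A.det| ≤ 6 * s ^ 3 := by
      rw [Matrix.det_fin_three]
      have p1 := abs_le.1 (hp 0 0 1 1 2 2)
      have p2 := abs_le.1 (hp 0 0 1 2 2 1)
      have p3 := abs_le.1 (hp 0 1 1 0 2 2)
      have p4 := abs_le.1 (hp 0 1 1 2 2 0)
      have p5 := abs_le.1 (hp 0 2 1 0 2 1)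
      have p6 := abs_le.1 (hp 0 2 1 1 2 0)
      rw [abs_le]
      constructor <;> linarith [p1.1, p1.2, p2.1, p2.2, p3.1, p3.2, p4.1, p4.2, p5.1, p5.2,
        p6.1, p6.2]
    have h1 : s ^ 3 ≤ σ * s ^ 2 := by
      have : 0 ≤ s ^ 2 := sq_nonneg s
      nlinarith
    have h2 := (neg_le_abs A.det).trans hd
    have h3 : 0 ≤ q * s ^ 2 := by positivity
    have h4 : 0 ≤ σ * s ^ 2 := by positivity
    nlinarith

theorem ssq_le_gsq (w : V → V) (z : V) : ssq w z ≤ gsq w z := by
  unfold ssq gsq strain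
  simp only [Fin.sum_univ_three, Matrix.of_apply]
  nlinarith [sq_nonneg (pd 0 (fun y => w y 1) z - pd 1 (fun y => w y 0) z),
    sq_nonneg (pd 0 (fun y => w y 2) z - pd 2 (fun y => w y 0) z),
    sq_nonneg (pd 1 (fun y => w y 2) z - pd 2 (fun y => w y 1) z)]

theorem vort_bb {v : V → V} (hv : ContDiff ℝ ∞ v) (z : V) : vort v z
    = fun i => vort (bb v) z i + ![kv et 1 (om v 1 2) z, kv et 1 (om v 2 0) z,
      kv et 1 (om v 0 1) z] i := by
  have h1 := om_bb hv 1 2 z
  have h2 := om_bb hv 2 0 z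
  have h3 := om_bb hv 0 1 z
  have e : ∀ (w : V → V) i, vort w z i = ![om w 1 2 z, om w 2 0 z, om w 0 1 z] i := by
    intro w i
    unfold vort om
    fin_cases i <;> simp
  funext i
  rw [e v, e (bb v), h1, h2, h3]
  fin_cases i <;> simp

/-- The pointwise estimate of the stretching term. -/
theorem pt_eig {v : V → V} (hs : ContDiff ℝ ∞ v) (hd : ∀ y ∈ ball (0 : V) 8, dv v y = 0)
    {N S q : ℝ} (hN : ∫ x in ball (0 : V) 8, osq v x ≤ N) (hS0 : 0 ≤ S)
    (hS : ∀ x ∈ ball (0 : V) 1, ∀ k j, |kv et 1 (pd k (fun y => v y j)) x| ≤ S) {z : V}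
    (hz : z ∈ ball (0 : V) 1) (hq : 0 ≤ q) (hdet : -(strain v z).det ≤ q * ssq v z) :
    -str v z ≤ 6 * S * osq v z + 16 * dgr (bb v) z + (320 * q + 672 * S) * gsq (bb v) z
      + 144 * √(K0 * N) * gsq (bb v) z + 36 * (K0 * N) * √(gsq (bb v) z) := by
  have hN0 : 0 ≤ N := (integral_nonneg fun x => osq_nonneg v x).trans hN
  have hK0 := K0_nonneg
  have hvs := vsq_nonneg v z
  have hov := osq_vsq v z
  have hdz : dv v z = 0 := hd z (ball_subset_ball (by norm_num) hz)
  have e0 : -str v z = 4 * ∑ j, ∑ k, vort v z j * vort v z k * pd k (fun y => v y j) z := by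
    rw [str_vort, hdz]
    ring
  set w := bb v with hw
  set G := √(gsq w z) with hG
  have hG0 : 0 ≤ G := Real.sqrt_nonneg _
  have hG2 : G ^ 2 = gsq w z := Real.sq_sqrt (gsq_nonneg w z)
  set b := √(K0 * N) with hb
  have hb0 : 0 ≤ b := Real.sqrt_nonneg _
  have hb2 : b ^ 2 = K0 * N := Real.sq_sqrt (by positivity)
  have e1 : ∀ j k, pd k (fun y => v y j) z = kv et 1 (pd k (fun y => v y j)) z
      + pd k (fun y => w y j) z := by
    intro j k
    rw [hw, pd_bb hs k j z]
    ring
  have e2 : ∑ j, ∑ k, vort v z j * vort v z k * pd k (fun y => v y j) z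
      = (∑ j, ∑ k, vort v z j * vort v z k * kv et 1 (pd k (fun y => v y j)) z)
        + ∑ j, ∑ k, vort v z j * vort v z k * pd k (fun y => w y j) z := by
    simp_rw [e1]
    simp only [Fin.sum_univ_three]
    ring
  have b1 : |∑ j, ∑ k, vort v z j * vort v z k * kv et 1 (pd k (fun y => v y j)) z|
      ≤ 3 * (S * vsq v z) := quad_le v z hS0 fun j k => hS z hz k j
  -- the averaged vorticity
  set c : Fin 3 → ℝ := ![kv et 1 (om v 1 2) z, kv et 1 (om v 2 0) z, kv et 1 (om v 0 1) z] with hc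
  have hcb : ∀ i, |c i| ≤ b := by
    have h1 : ∀ i j, |kv et 1 (om v i j) z| ≤ b := by
      intro i j
      apply Real.abs_le_sqrt
      have h2 := kv_sq ker_et (om_smooth hs i j).continuous 1 z
      refine h2.trans (mul_le_mul_of_nonneg_left ?_ hK0)
      rw [cov' (fun y => om v i j y ^ 2) z one_pos, one_mul, one_pow, inv_one, one_mul]
      have h3 : ∫ y in ball z 1, om v i j y ^ 2 ≤ ∫ y in ball z 1, osq v y :=
        setIntegral_mono (int_ball ((om_smooth hs i j).continuous.pow 2) _ _)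
          (int_ball (osq_smooth hs).continuous _ _) fun y => om_sq_le v i j y
      refine h3.trans ((ball_mono (osq_smooth hs).continuous (osq_nonneg v)
        (ball_subset_ball' ?_)).trans hN)
      rw [dist_zero_right]
      have := mem_ball_zero_iff.1 hz
      linarith
    intro i
    fin_cases i
    · exact h1 1 2
    · exact h1 2 0
    · exact h1 0 1
  have hvb : ∀ i, vort v z i = vort w z i + c i := fun i => congrFun (vort_bb hs z) i
  have hg : ∀ k j, |pd k (fun y => w y j) z| ≤ G := fun k j => pd_le_gsq w k j z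
  have hvw : ∀ i, |vort w z i| ≤ 2 * G := by
    intro i
    have h1 : ∀ a b c d, |pd a (fun y => w y b) z - pd c (fun y => w y d) z| ≤ 2 * G := by
      intro a b c d
      have := abs_sub (pd a (fun y => w y b) z) (pd c (fun y => w y d) z)
      linarith [hg a b, hg c d]
    unfold vort
    fin_cases i
    · exact h1 1 2 2 1
    · exact h1 2 0 0 2
    · exact h1 0 1 1 0
  have e3 : ∑ j, ∑ k, vort v z j * vort v z k * pd k (fun y => w y j) z
      = (∑ j, ∑ k, vort w z j * vort w z k * pd k (fun y => w y j) z)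
        + ∑ j, ∑ k, (vort w z j * c k + c j * vort w z k + c j * c k)
          * pd k (fun y => w y j) z := by
    simp_rw [hvb]
    simp only [Fin.sum_univ_three]
    ring
  have b2 : ∑ j, ∑ k, (vort w z j * c k + c j * vort w z k + c j * c k) * pd k (fun y => w y j) z
      ≤ 36 * b * G ^ 2 + 9 * b ^ 2 * G := by
    have h1 : ∀ j k, (vort w z j * c k + c j * vort w z k + c j * c k) * pd k (fun y => w y j) z
        ≤ (4 * (G * b) + b ^ 2) * G := by
      intro j k
      refine (le_abs_self _).trans ?_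
      rw [abs_mul]
      refine mul_le_mul ?_ (hg k j) (abs_nonneg _) (by positivity)
      have t1 : |vort w z j * c k| ≤ 2 * G * b := by
        rw [abs_mul]
        exact mul_le_mul (hvw j) (hcb k) (abs_nonneg _) (by positivity)
      have t2 : |c j * vort w z k| ≤ b * (2 * G) := by
        rw [abs_mul]
        exact mul_le_mul (hcb j) (hvw k) (abs_nonneg _) hb0
      have t3 : |c j * c k| ≤ b * b := by
        rw [abs_mul]
        exact mul_le_mul (hcb j) (hcb k) (abs_nonneg _) hb0
      have t4 := abs_add_le (vort w z j * c k + c j * vort w z k) (c j * c k)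
      have t5 := abs_add_le (vort w z j * c k) (c j * vort w z k)
      nlinarith
    have h2 := Finset.sum_le_sum fun (j : Fin 3) (_ : j ∈ Finset.univ) =>
      Finset.sum_le_sum fun (k : Fin 3) (_ : k ∈ Finset.univ) => h1 j k
    refine h2.trans (le_of_eq ?_)
    simp only [Fin.sum_univ_three]
    ring
  -- the determinant
  have hbt := betchov w z
  have hss := ssq_nonneg w z
  have hdet2 : -(strain w z).det ≤ (20 * q + 42 * S) * ssq w z := by
    have h1 := det_close (A := strain w z) (B := strain v z) (s := √(ssq w z)) (σ := S) (q := q)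
      (Real.sqrt_nonneg _) hS0 hq (Real.sq_sqrt hss).symm (fun i j => by
        have h2 : strain v z i j - strain w z i j
            = (kv et 1 (pd i (fun y => v y j)) z + kv et 1 (pd j (fun y => v y i)) z) / 2 := by
          unfold strain
          simp only [Matrix.of_apply]
          rw [e1 j i, e1 i j]
          ring
        rw [h2, abs_div, abs_two, div_le_iff₀ two_pos]
        refine (abs_add_le _ _).trans ?_
        linarith [hS z hz i j, hS z hz j i]) hdet
    rwa [Real.sq_sqrt hss] at h1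
  have hdet3 : -(strain w z).det ≤ (20 * q + 42 * S) * gsq w z :=
    hdet2.trans (mul_le_mul_of_nonneg_left (ssq_le_gsq w z) (by positivity))
  rw [e0, e2, e3, hbt]
  have a1 := (abs_le.1 b1).2
  rw [← hb2]
  have a2 : 4 * (36 * b * G ^ 2 + 9 * b ^ 2 * G) = 144 * b * gsq w z + 36 * b ^ 2 * G := by
    rw [hG2]
    ring
  have a3 : 4 * (3 * (S * vsq v z)) = 6 * S * osq v z := by
    rw [hov]
    ring
  linarith

end Pool.Agent.H946.NS
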