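import Pool.Agent.H946_NS.E2

/-!
The integral of the determinant of the gradient, and the local enstrophy inequality at the unit
scale in terms of the determinant of the strain.
-/

set_option autoImplicit false

open MeasureTheory Set Metric Filter Topology
open scoped ContDiff ENNReal

namespace Pool.Agent.H946.NS

open H459R3.NS W221.NS Pool.Agent.W583.MD

variable {κ : V → ℝ}

theorem cof_smooth {w : V → V} (hw : ContDiff ℝ ∞ w) (k : Fin 3) : ContDiff ℝ ∞ (cof w k) := by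
  have h : ∀ a b, ContDiff ℝ ∞ (pd a (fun y => w y b)) := fun a b => sm_pd (sm_comp hw b) a
  unfold cof
  fin_cases k
  · exact ((h 1 1).mul (h 2 2)).sub ((h 2 1).mul (h 1 2))
  · exact ((h 2 1).mul (h 0 2)).sub ((h 0 1).mul (h 2 2))
  · exact ((h 0 1).mul (h 1 2)).sub ((h 1 1).mul (h 0 2))

theorem cof_le (w : V → V) (k : Fin 3) (z : V) : |cof w k z| ≤ gsq w z := by
  have h : ∀ a b c d : ℝ, |a * b - c * d| ≤ (a ^ 2 + b ^ 2 + c ^ 2 + d ^ 2) / 2 := by
    intro a b c d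
    rw [abs_le]
    constructor <;> nlinarith [sq_nonneg (a + b), sq_nonneg (a - b), sq_nonneg (c + d),
      sq_nonneg (c - d)]
  unfold cof gsq
  fin_cases k
  all_goals
    refine (h _ _ _ _).trans ?_
    simp only [Fin.sum_univ_three]
    nlinarith [sq_nonneg (pd 0 (fun y => w y 0) z), sq_nonneg (pd 1 (fun y => w y 0) z),
      sq_nonneg (pd 2 (fun y => w y 0) z), sq_nonneg (pd 0 (fun y => w y 1) z),
      sq_nonneg (pd 1 (fun y => w y 1) z), sq_nonneg (pd 2 (fun y => w y 1) z),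
      sq_nonneg (pd 0 (fun y => w y 2) z), sq_nonneg (pd 1 (fun y => w y 2) z),
      sq_nonneg (pd 2 (fun y => w y 2) z)]

/-- The cofactors have divergence zero. -/
theorem cof_div {w : V → V} (hw : ContDiff ℝ ∞ w) (z : V) : ∑ k, pd k (cof w k) z = 0 := by
  have h : ∀ a b, ContDiff ℝ ∞ (pd a (fun y => w y b)) := fun a b => sm_pd (sm_comp hw b) a
  have hm : ∀ (k a b c d : Fin 3), pd k (fun z => pd a (fun y => w y 1) z * pd b (fun y => w y 2) z
      - pd c (fun y => w y 1) z * pd d (fun y => w y 2) z) z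
      = pd a (fun y => w y 1) z * pd k (pd b (fun y => w y 2)) z
        + pd k (pd a (fun y => w y 1)) z * pd b (fun y => w y 2) z
        - (pd c (fun y => w y 1) z * pd k (pd d (fun y => w y 2)) z
          + pd k (pd c (fun y => w y 1)) z * pd d (fun y => w y 2) z) := by
    intro k a b c d
    have e1 : pd k (fun z => pd a (fun y => w y 1) z * pd b (fun y => w y 2) z
        - pd c (fun y => w y 1) z * pd d (fun y => w y 2) z) z
        = pd k (fun z => pd a (fun y => w y 1) z * pd b (fun y => w y 2) z) z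
          - pd k (fun z => pd c (fun y => w y 1) z * pd d (fun y => w y 2) z) z :=
      Pool.Agent.W135.MD.pd_sub' (Pool.Agent.W135.MD.sm_diff ((h a 1).mul (h b 2)))
        (Pool.Agent.W135.MD.sm_diff ((h c 1).mul (h d 2))) k z
    have e2 : pd k (fun z => pd a (fun y => w y 1) z * pd b (fun y => w y 2) z) z
        = pd a (fun y => w y 1) z * pd k (pd b (fun y => w y 2)) z
          + pd k (pd a (fun y => w y 1)) z * pd b (fun y => w y 2) z := pd_mul' (h a 1) (h b 2) k z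
    have e3 : pd k (fun z => pd c (fun y => w y 1) z * pd d (fun y => w y 2) z) z
        = pd c (fun y => w y 1) z * pd k (pd d (fun y => w y 2)) z
          + pd k (pd c (fun y => w y 1)) z * pd d (fun y => w y 2) z := pd_mul' (h c 1) (h d 2) k z
    rw [e1, e2, e3]
  have h0 : pd 0 (cof w 0) z = _ := hm 0 1 2 2 1
  have h1 : pd 1 (cof w 1) z = _ := hm 1 2 0 0 2
  have h2 : pd 2 (cof w 2) z = _ := hm 2 0 1 1 0
  have c : ∀ j a b, pd a (pd b (fun y => w y j)) z = pd b (pd a (fun y => w y j)) z := fun j a b =>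
    Pool.Agent.W135.MD.pd_comm' (sm_comp hw j) a b z
  rw [Fin.sum_univ_three, h0, h1, h2, c 1 1 0, c 1 2 0, c 1 2 1, c 2 1 0, c 2 2 0, c 2 2 1]
  ring

/-- Integration by parts of the determinant. -/
theorem dgr_int {w : V → V} (hw : ContDiff ℝ ∞ w) {φ : V → ℝ} (hφ : Ker φ) :
    ∫ z in ball (0 : V) 1, dgr w z * φ z
      = -∫ z in ball (0 : V) 1, ∑ k, pd k φ z * (w z 0 * cof w k z) := by
  let F : Fin 3 → V → ℝ := fun k z => φ z * (w z 0 * cof w k z)
  have hF : ∀ k, ContDiff ℝ ∞ (F k) := fun k =>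
    hφ.sm.mul ((sm_comp hw 0).mul (cof_smooth hw k))
  have hFc : ∀ k, HasCompactSupport (F k) := fun k => hφ.cs.mul_right
  have hZ : Z (fun z => ∑ k, pd k (F k) z) := Z.sum fun k => Z_pd (hF k) (hFc k) k
  have e1 : ∀ k z, pd k (F k) z = φ z * (w z 0 * pd k (cof w k) z
      + pd k (fun y => w y 0) z * cof w k z) + pd k φ z * (w z 0 * cof w k z) := by
    intro k z
    have e1 : pd k (F k) z = φ z * pd k (fun z => w z 0 * cof w k z) z
        + pd k φ z * (w z 0 * cof w k z) := pd_mul' hφ.sm ((sm_comp hw 0).mul (cof_smooth hw k)) k z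
    have e2 : pd k (fun z => w z 0 * cof w k z) z = w z 0 * pd k (cof w k) z
        + pd k (fun y => w y 0) z * cof w k z := pd_mul' (sm_comp hw 0) (cof_smooth hw k) k z
    rw [e1, e2]
  have e2 : ∀ z, ∑ k, pd k (F k) z = dgr w z * φ z + ∑ k, pd k φ z * (w z 0 * cof w k z) := by
    intro z
    have h1 := cof_div hw z
    simp_rw [e1]
    unfold dgr
    simp only [Fin.sum_univ_three] at h1 ⊢
    linear_combination φ z * w z 0 * h1
  have hz0 : ∀ z ∉ ball (0 : V) 1, ∑ k, pd k (F k) z = 0 := by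
    intro z hz
    rw [e2, hφ.zero z hz, mul_zero, zero_add]
    refine Finset.sum_eq_zero fun k _ => ?_
    rw [(hφ.pd k).zero z hz, zero_mul]
  have hZ2 : ∫ z in ball (0 : V) 1, ∑ k, pd k (F k) z = 0 := by
    rw [setIntegral_eq_integral_of_forall_compl_eq_zero hz0]
    exact hZ.2
  have hdc : Continuous (dgr w) := continuous_finsetSum _ fun k _ =>
    (sm_pd (sm_comp hw 0) k).continuous.mul (cof_smooth hw k).continuous
  have hsc : Continuous fun z => ∑ k, pd k φ z * (w z 0 * cof w k z) :=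
    continuous_finsetSum _ fun k _ => (hφ.pd k).sm.continuous.mul
      ((sm_comp hw 0).continuous.mul (cof_smooth hw k).continuous)
  simp_rw [e2] at hZ2
  have g1 : IntegrableOn (fun z : V => dgr w z * φ z) (ball 0 1) :=
    int_ball (hdc.mul hφ.sm.continuous) 0 1
  have g2 : IntegrableOn (fun z : V => ∑ k, pd k φ z * (w z 0 * cof w k z)) (ball 0 1) :=
    int_ball hsc 0 1
  rw [integral_add g1 g2] at hZ2
  linarith

/-- The numbers. -/
theorem closure_eig {M Cb C4 Cg Kt C6 K : ℝ} (hM : 1 ≤ M) (hCb : 1 ≤ Cb) (hC4 : 1 ≤ C4)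
    (hCg : 1 ≤ Cg) (hKt : 0 ≤ Kt) (hK : 0 ≤ K) :
    ∃ C : ℝ, 1 ≤ C ∧ ∀ N S Λ D P R ε : ℝ, 0 ≤ N → 0 ≤ S → 0 ≤ Λ → 0 ≤ D → 0 ≤ P → 0 ≤ R →
      P ^ 4 ≤ C4 * N * (D + N) ^ 3 → R ^ 4 ≤ Cg * N * (D + N) ^ 3 → 960 * C6 * ε ^ 2 ≤ 1 →
          -2 * D + 6 * M * (√(P * (Cb * N)) * √N) + 6 * M * ((6 * S + √(Kt * (Cb * N))) * N)
          + 6 * S * N + 96 * M * (√(R * (Cb * N)) * √(Cb * N)) + 320 * Λ * (Cb * N)
          + 320 * (ε ^ 2 * (C6 * (D + N))) + 672 * S * (Cb * N) + 144 * √(K * N) * (Cb * N)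
          + 36 * (K * N) * (3 * √(Cb * N))
            ≤ C * ((1 + S + Λ) * N + N ^ 2) := by
  set M' := 16 * M * √Cb with hM'
  have hsCb : 1 ≤ √Cb := Real.one_le_sqrt.2 hCb
  have hM'1 : 1 ≤ M' := by
    rw [hM']
    nlinarith
  set A1 := 27 * (6 * M) ^ 8 * Cb ^ 4 * C4 with hA1
  set A2 := 6 * M * (1 + Kt * Cb) with hA2
  set A3 := 27 * (6 * M') ^ 8 * Cb ^ 4 * Cg with hA3
  set A4 := 144 * √K * Cb + 108 * K * √Cb with hA4
  have p1 : 0 ≤ A1 := by positivity
  have p2 : 0 ≤ A2 := by positivity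
  have p3 : 0 ≤ A3 := by positivity
  have p4 : 0 ≤ A4 := by positivity
  refine ⟨1 + A1 + 36 * M + A2 + 6 + A3 + 320 * Cb + 672 * Cb + A4, by linarith, ?_⟩
  intro N S Λ D P R ε hN hS hΛ hD hP hR hP4 hR4 hε
  have h1 := cf1 hM hCb hC4 hN (by linarith : 0 ≤ D + N) hP hP4
  have h2 := cf2 (S := S) hM hCb hKt hN
  have h3 := cf1 hM'1 hCb hCg hN (by linarith : 0 ≤ D + N) hR hR4
  rw [← hA1] at h1
  rw [← hA2] at h2
  rw [← hA3] at h3
  have e3 : 6 * M' * (√(R * (Cb * N)) * √N) = 96 * M * (√(R * (Cb * N)) * √(Cb * N)) := by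
    rw [hM', Real.sqrt_mul (by linarith : 0 ≤ Cb)]
    ring
  rw [e3] at h3
  have h4 : 320 * (ε ^ 2 * (C6 * (D + N))) ≤ (D + N) / 3 := by
    have : 960 * C6 * ε ^ 2 * (D + N) ≤ 1 * (D + N) :=
      mul_le_mul_of_nonneg_right hε (by linarith)
    linarith
  have hsN := sqrt_lin hN
  have h5 : 144 * √(K * N) * (Cb * N) + 36 * (K * N) * (3 * √(Cb * N)) ≤ A4 * (N + N ^ 2) := by
    rw [Real.sqrt_mul hK, Real.sqrt_mul (by linarith : 0 ≤ Cb), hA4]
    calc 144 * (√K * √N) * (Cb * N) + 36 * (K * N) * (3 * (√Cb * √N))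
        = (144 * √K * Cb + 108 * K * √Cb) * (√N * N) := by ring
      _ ≤ _ := mul_le_mul_of_nonneg_left hsN (by positivity)
  have q1 : 0 ≤ S * N := by positivity
  have q2 : 0 ≤ Λ * N := by positivity
  have q3 : 0 ≤ N ^ 2 := by positivity
  set Z := (1 + S + Λ) * N + N ^ 2 with hZ
  have z1 : N + N ^ 2 ≤ Z := by rw [hZ]; linarith
  have z2 : S * N ≤ Z := by rw [hZ]; linarith
  have z3 : Λ * N ≤ Z := by rw [hZ]; linarith
  have z7 : N ≤ Z := by rw [hZ]; linarith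
  have w1 : A1 * (N + N ^ 2) ≤ A1 * Z := mul_le_mul_of_nonneg_left z1 p1
  have w2 : A2 * (N + N ^ 2) ≤ A2 * Z := mul_le_mul_of_nonneg_left z1 p2
  have w3 : A3 * (N + N ^ 2) ≤ A3 * Z := mul_le_mul_of_nonneg_left z1 p3
  have w4 : A4 * (N + N ^ 2) ≤ A4 * Z := mul_le_mul_of_nonneg_left z1 p4
  have w5 : 36 * M * (S * N) ≤ 36 * M * Z := mul_le_mul_of_nonneg_left z2 (by positivity)
  have w6 : 320 * Cb * (Λ * N) ≤ 320 * Cb * Z := mul_le_mul_of_nonneg_left z3 (by positivity)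
  have w7 : 672 * Cb * (S * N) ≤ 672 * Cb * Z := mul_le_mul_of_nonneg_left z2 (by positivity)
  have w8 : 6 * S * N ≤ 6 * Z := by linarith
  have e : (1 + A1 + 36 * M + A2 + 6 + A3 + 320 * Cb + 672 * Cb + A4) * Z
      = Z + A1 * Z + 36 * M * Z + A2 * Z + 6 * Z + A3 * Z + 320 * Cb * Z + 672 * Cb * Z
        + A4 * Z := by
    ring
  rw [e]
  linarith

end Pool.Agent.H946.NS
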