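import Pool.Agent.H946_NS.E3

/-!
The local enstrophy inequality at the unit scale in terms of the determinant of the strain.
-/

set_option autoImplicit false

open MeasureTheory Set Metric Filter Topology
open scoped ContDiff ENNReal

namespace Pool.Agent.H946.NS

open H459R3.NS W221.NS Pool.Agent.W583.MD

variable {κ : V → ℝ}

/-- In the ball of radius `r` around `x` minus the determinant of the strain is at most
`(L + h ^ 2)` times the square of the norm of the strain, where `h ≥ 0` is continuous and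
`∫ h ^ 3 ≤ δ ^ 3`. -/
def Eig (δ L r : ℝ) (x : V) (v : V → V) : Prop := ∃ h : V → ℝ, Continuous h ∧
  (∀ y ∈ ball x r, 0 ≤ h y ∧ -(strain v y).det ≤ (L + h y ^ 2) * ssq v y) ∧
    ∫ y in ball x r, h y ^ 3 ≤ δ ^ 3

theorem unit_eig (hκ : Cut κ) : ∃ C ε : ℝ, 1 ≤ C ∧ 0 < ε ∧ ∀ v : V → V, ContDiff ℝ ∞ v →
    (∀ y ∈ ball (0 : V) 8, dv v y = 0) → ∀ N S L : ℝ, ∫ x in ball (0 : V) 8, osq v x ≤ N →
      0 ≤ S → 0 ≤ L →
      (∀ x ∈ ball (0 : V) 1, ∀ k j, |kv et 1 (pd k (fun y => v y j)) x| ≤ S) → Eig ε L 1 0 v →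
        ∫ z, RR v 0 z * (κ z * κ z) ≤ C * ((1 + S + L) * N + N ^ 2)
          + (∫ z in ball (0 : V) 1, osq v z * lap (fun z : V => κ z * κ z) z)
          + ∑ k, (∫ w, th w * v w k)
            * ∫ z in ball (0 : V) 1, osq v z * pd k (fun z : V => κ z * κ z) z := by
  obtain ⟨M, hM1, hM⟩ := hκ.bound
  obtain ⟨Cb, hCb, hbb⟩ := bb_bounds
  obtain ⟨C4, hC4, hom4⟩ := om_fourK hκ
  obtain ⟨Cg, hCg, hgb4⟩ := gb_four hκ
  obtain ⟨C6, hC6, hgb6⟩ := gb_six hκ
  have hKt := Kt_nonneg
  have hK0 := K0_nonneg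
  obtain ⟨C, hC, hnum⟩ := closure_eig (C6 := C6) hM1 hCb hC4 hCg hKt hK0
  refine ⟨C, √(1 / (960 * C6)), hC, Real.sqrt_pos.2 (by positivity), ?_⟩
  intro v hv hd N S L hN hS0 hL hS ⟨h, hhc, hh, hh3⟩
  set ε := √(1 / (960 * C6)) with hε
  have hε0 : 0 < ε := Real.sqrt_pos.2 (by positivity)
  have hε2 : 960 * C6 * ε ^ 2 ≤ 1 := by
    rw [hε, Real.sq_sqrt (by positivity)]
    apply le_of_eq
    field_simp
  have hN0 : 0 ≤ N := (integral_nonneg fun x => osq_nonneg v x).trans hN
  obtain ⟨hb2, hb4, hbg⟩ := hbb v hv hd N hN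
  have hN1 : ∫ x in ball (0 : V) 1, osq v x ≤ N :=
    (ball_mono (osq_smooth hv).continuous (osq_nonneg v) (ball_subset_ball (by norm_num))).trans hN
  have hP4 := hom4 v hv N hN1
  have hR4 := hgb4 v hv hd N hN
  have hR6 := hgb6 v hv hd N hN
  set D := ∫ x in ball (0 : V) 1, κ x ^ 2 * dsq v x with hD
  have hD0 : 0 ≤ D := integral_nonneg fun x => mul_nonneg (sq_nonneg _) (dsq_nonneg v x)
  set w := bb v with hw
  have hws : ContDiff ℝ ∞ w := bb_smooth hv
  set F : V → ℝ := fun x => κ x ^ 2 * osq v x with hF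
  set Q := ∫ x in ball (0 : V) 1, F x ^ 2 with hQ
  have hQ0 : 0 ≤ Q := integral_nonneg fun x => sq_nonneg _
  set G : V → ℝ := fun x => κ x ^ 2 * gsq w x with hG
  set U := ∫ x in ball (0 : V) 1, G x ^ 2 with hU
  have hU0 : 0 ≤ U := integral_nonneg fun x => sq_nonneg _
  have hkc : Continuous κ := hκ.smooth.continuous
  have hoc := (osq_smooth hv).continuous
  have hgc := (gsq_smooth hws).continuous
  have hF0 : ∀ x, 0 ≤ F x := fun x => mul_nonneg (sq_nonneg _) (osq_nonneg v x)
  have hG0 : ∀ x, 0 ≤ G x := fun x => mul_nonneg (sq_nonneg _) (gsq_nonneg w x)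
  have hFc : Continuous F := (hkc.pow 2).mul hoc
  have hGc : Continuous G := (hkc.pow 2).mul hgc
  have hk2 : ∀ z, κ z ^ 2 ≤ 1 := fun z => pow_le_one₀ (hκ.nonneg z) (hκ.le_one z)
  have hbc : ∀ k, Continuous fun x => w x k := fun k => (sm_comp hws k).continuous
  set A := 6 * S + √(Kt * (Cb * N)) with hA
  have hA0 : 0 ≤ A := by positivity
  set b := √(K0 * N) with hb
  have hb0 : 0 ≤ b := Real.sqrt_nonneg _
  set c : V := fun k => ∫ w, th w * v w k with hc
  have e1 : ∀ z k, |pd k (fun z : V => κ z * κ z) z| ≤ 2 * M * κ z := by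
    intro z k
    have hk0 := hκ.nonneg z
    have e : pd k (fun z : V => κ z * κ z) z = κ z * pd k κ z + pd k κ z * κ z :=
      pd_mul' hκ.smooth hκ.smooth k z
    rw [e, show κ z * pd k κ z + pd k κ z * κ z
      = 2 * κ z * pd k κ z by ring, abs_mul, abs_of_nonneg (by positivity)]
    calc 2 * κ z * |pd k κ z| ≤ 2 * κ z * M := by
          gcongr
          exact hM z k
      _ = _ := by ring
  -- the pointwise bound
  have key : ∀ z ∈ ball (0 : V) 1, -2 * (dsq v z * (κ z * κ z))
      + osq v z * (∑ k, (v z k - c k) * pd k (fun z : V => κ z * κ z) z)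
      - str v z * (κ z * κ z)
      ≤ (((((-2 * (κ z ^ 2 * dsq v z) + (6 * M * A + 6 * S) * osq v z)
        + 2 * M * ∑ k, κ z * osq v z * |w z k|)
        + 16 * (dgr w z * (κ z * κ z)))
        + (320 * L + 672 * S + 144 * b) * gsq w z)
        + 320 * (h z ^ 2 * G z)) + 36 * (K0 * N) * √(gsq w z) := by
    intro z hz
    have ho := osq_nonneg v z
    have hg := gsq_nonneg w z
    have hk0 := hκ.nonneg z
    have hk1 := hκ.le_one z
    have hkk : κ z * κ z ≤ 1 := mul_le_one₀ hk1 hk0 hk1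
    have hkk0 : 0 ≤ κ z * κ z := mul_nonneg hk0 hk0
    have e2 : ∀ k, |v z k - c k| ≤ |w z k| + A := by
      intro k
      have h1 := avg_dev hv hS0 hS hb2 hz k
      have h2 : v z k - c k = w z k + (kv et 1 (fun y => v y k) z - ∫ w, th w * v w k) := by
        rw [hc, hw]
        unfold bb
        ring
      rw [h2]
      exact (abs_add_le _ _).trans (by linarith)
    have e3 : ∑ k, (v z k - c k) * pd k (fun z : V => κ z * κ z) z
        ≤ 2 * M * (∑ k, κ z * |w z k|) + 6 * M * A := by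
      have h1 : ∀ k, (v z k - c k) * pd k (fun z : V => κ z * κ z) z
          ≤ 2 * M * (κ z * |w z k|) + 2 * M * A := by
        intro k
        calc (v z k - c k) * pd k (fun z : V => κ z * κ z) z
            ≤ |v z k - c k| * |pd k (fun z : V => κ z * κ z) z| := by
              rw [← abs_mul]
              exact le_abs_self _
          _ ≤ (|w z k| + A) * (2 * M * κ z) :=
              mul_le_mul (e2 k) (e1 z k) (abs_nonneg _) (by positivity)
          _ = 2 * M * (κ z * |w z k|) + 2 * M * A * κ z := by ring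
          _ ≤ 2 * M * (κ z * |w z k|) + 2 * M * A * 1 := by gcongr
          _ = _ := by ring
      calc _ ≤ ∑ k, (2 * M * (κ z * |w z k|) + 2 * M * A) := Finset.sum_le_sum fun k _ => h1 k
        _ = _ := by
          simp only [Fin.sum_univ_three]
          ring
    obtain ⟨hh0, hdet⟩ := hh z hz
    have e4 := pt_eig hv hd hN hS0 hS hz (by positivity) hdet
    rw [← hw, ← hb] at e4
    have e5 : osq v z * (∑ k, (v z k - c k) * pd k (fun z : V => κ z * κ z) z)
        ≤ osq v z * (2 * M * (∑ k, κ z * |w z k|) + 6 * M * A) :=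
      mul_le_mul_of_nonneg_left e3 ho
    have e6 := mul_le_mul_of_nonneg_right e4 hkk0
    have e7 : 6 * S * osq v z * (κ z * κ z) ≤ 6 * S * osq v z * 1 :=
      mul_le_mul_of_nonneg_left hkk (by positivity)
    have e7' : (320 * L + 672 * S + 144 * b) * gsq w z * (κ z * κ z)
        ≤ (320 * L + 672 * S + 144 * b) * gsq w z * 1 :=
      mul_le_mul_of_nonneg_left hkk (by positivity)
    have e7'' : 36 * (K0 * N) * √(gsq w z) * (κ z * κ z) ≤ 36 * (K0 * N) * √(gsq w z) * 1 :=
      mul_le_mul_of_nonneg_left hkk (by positivity)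
    have e8 : osq v z * (2 * M * (∑ k, κ z * |w z k|) + 6 * M * A)
        = (6 * M * A) * osq v z + 2 * M * ∑ k, κ z * osq v z * |w z k| := by
      simp only [Fin.sum_univ_three]
      ring
    have e9 : (6 * S * osq v z + 16 * dgr w z + (320 * (L + h z ^ 2) + 672 * S) * gsq w z
          + 144 * b * gsq w z + 36 * (K0 * N) * √(gsq w z)) * (κ z * κ z)
        = 6 * S * osq v z * (κ z * κ z) + 16 * (dgr w z * (κ z * κ z))
          + (320 * L + 672 * S + 144 * b) * gsq w z * (κ z * κ z) + 320 * (h z ^ 2 * G z)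
          + 36 * (K0 * N) * √(gsq w z) * (κ z * κ z) := by
      simp only [hG]
      ring
    have e10 : -2 * (dsq v z * (κ z * κ z)) = -2 * (κ z ^ 2 * dsq v z) := by ring
    have e11 : -str v z * (κ z * κ z) = -(str v z * (κ z * κ z)) := by ring
    rw [e10]
    linarith
  -- integration
  have c1 : Continuous fun z : V => κ z ^ 2 * dsq v z := (hkc.pow 2).mul (dsq_cont hv)
  have c2 : ∀ k, Continuous fun z : V => κ z * osq v z * |w z k| := fun k =>
    (hkc.mul hoc).mul (hbc k).abs
  have c4 : Continuous fun z : V => ∑ k, κ z * osq v z * |w z k| :=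
    continuous_finsetSum _ fun k _ => c2 k
  have hdc : Continuous (dgr w) := continuous_finsetSum _ fun k _ =>
    (sm_pd (sm_comp hws 0) k).continuous.mul (cof_smooth hws k).continuous
  have j1 : IntegrableOn (fun z : V => -2 * (κ z ^ 2 * dsq v z)) (ball 0 1) :=
    int_ball (continuous_const.mul c1) 0 1
  have j2 : IntegrableOn (fun z : V => (6 * M * A + 6 * S) * osq v z) (ball 0 1) :=
    int_ball (continuous_const.mul hoc) 0 1
  have j3 : IntegrableOn (fun z : V => 2 * M * ∑ k, κ z * osq v z * |w z k|) (ball 0 1) :=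
    int_ball (continuous_const.mul c4) 0 1
  have j4 : IntegrableOn (fun z : V => 16 * (dgr w z * (κ z * κ z))) (ball 0 1) :=
    int_ball (continuous_const.mul (hdc.mul (hkc.mul hkc))) 0 1
  have j5 : IntegrableOn (fun z : V => (320 * L + 672 * S + 144 * b) * gsq w z) (ball 0 1) :=
    int_ball (continuous_const.mul hgc) 0 1
  have j6 : IntegrableOn (fun z : V => 320 * (h z ^ 2 * G z)) (ball 0 1) :=
    int_ball (continuous_const.mul ((hhc.pow 2).mul hGc)) 0 1
  have j7 : IntegrableOn (fun z : V => 36 * (K0 * N) * √(gsq w z)) (ball 0 1) :=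
    int_ball (continuous_const.mul hgc.sqrt) 0 1
  have hpdc : ∀ k, Continuous (pd k (fun z : V => κ z * κ z)) := fun k =>
    (hκ.ker2.pd k).sm.continuous
  have c5 : Continuous fun z : V => -2 * (dsq v z * (κ z * κ z))
      + osq v z * (∑ k, (v z k - c k) * pd k (fun z : V => κ z * κ z) z)
      - str v z * (κ z * κ z) := by
    have h3 : Continuous (fun z => ∑ k, (v z k - c k) * pd k (fun z : V => κ z * κ z) z) :=
      continuous_finsetSum _ fun k _ => ((sm_comp hv k).continuous.sub continuous_const).mul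
        (hpdc k)
    exact ((continuous_const.mul ((dsq_cont hv).mul (hkc.mul hkc))).add (hoc.mul h3)).sub
      ((str_cont hv).mul (hkc.mul hkc))
  rw [RR_split hκ hv (fun y hy => hd y (ball_subset_ball (by norm_num) hy)) c]
  -- the integrals of products with the remainder
  have Igen : ∀ (g : V → ℝ), Continuous g → (∀ x, 0 ≤ g x) → ∀ (B E : ℝ), 0 ≤ E →
      ∫ z in ball (0 : V) 1, g z ≤ B → ∫ z in ball (0 : V) 1, (κ z ^ 2 * g z) ^ 2 = E →
      ∀ k, ∫ z in ball (0 : V) 1, κ z * g z * |w z k| ≤ √(√E * (Cb * N)) * √B := by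
    intro g hg hg0 B E hE hB hgE k
    have hFg : Continuous fun z => κ z ^ 2 * g z := (hkc.pow 2).mul hg
    have h1 := W162.MD.cs_ball (f := fun z => κ z * √(g z) * |w z k|)
      (g := fun z => √(g z)) ((hkc.mul hg.sqrt).mul (hbc k).abs) hg.sqrt 0 1
    have e1 : ∀ z : V, κ z * √(g z) * |w z k| * √(g z) = κ z * g z * |w z k| := by
      intro z
      have := Real.mul_self_sqrt (hg0 z)
      calc κ z * √(g z) * |w z k| * √(g z)
          = κ z * (√(g z) * √(g z)) * |w z k| := by ring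
        _ = _ := by rw [this]
    have e2 : ∀ z : V, √(g z) ^ 2 = g z := fun z => Real.sq_sqrt (hg0 z)
    have e3 : ∀ z : V, (κ z * √(g z) * |w z k|) ^ 2 = (κ z ^ 2 * g z) * w z k ^ 2 := by
      intro z
      rw [mul_pow, mul_pow, e2, sq_abs]
    simp_rw [e1, e2, e3] at h1
    refine (le_abs_self _).trans (h1.trans ?_)
    refine mul_le_mul (Real.sqrt_le_sqrt ?_) (Real.sqrt_le_sqrt hB) (Real.sqrt_nonneg _)
      (Real.sqrt_nonneg _)
    have h2 := W162.MD.cs_ball (f := fun z => κ z ^ 2 * g z) (g := fun z => w z k ^ 2) hFg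
      ((hbc k).pow 2) 0 1
    have e4 : ∀ z : V, (w z k ^ 2) ^ 2 = w z k ^ 4 := fun z => by ring
    simp_rw [e4] at h2
    rw [hgE] at h2
    refine (le_abs_self _).trans (h2.trans ?_)
    refine mul_le_mul le_rfl ?_ (Real.sqrt_nonneg _) (Real.sqrt_nonneg _)
    calc √(∫ z in ball (0 : V) 1, w z k ^ 4) ≤ √((Cb * N) ^ 2) := Real.sqrt_le_sqrt (hb4 k)
      _ = Cb * N := Real.sqrt_sq (by positivity)
  have I2 : ∀ k, ∫ z in ball (0 : V) 1, κ z * osq v z * |w z k| ≤ √(√Q * (Cb * N)) * √N :=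
    Igen (osq v) hoc (osq_nonneg v) N Q hQ0 hN1 hQ.symm
  have I2g : ∀ k, ∫ z in ball (0 : V) 1, κ z * gsq w z * |w z k|
      ≤ √(√U * (Cb * N)) * √(Cb * N) :=
    Igen (gsq w) hgc (gsq_nonneg w) (Cb * N) U hU0 hbg hU.symm
  -- the determinant of the gradient
  have I4 : ∫ z in ball (0 : V) 1, dgr w z * (κ z * κ z)
      ≤ 6 * M * (√(√U * (Cb * N)) * √(Cb * N)) := by
    have h1 := dgr_int hws hκ.ker2
    rw [h1, ← integral_neg]
    have hsc : Continuous fun z => -∑ k, pd k (fun z : V => κ z * κ z) z * (w z 0 * cof w k z) :=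
      (continuous_finsetSum _ fun k _ => (hpdc k).mul
        ((sm_comp hws 0).continuous.mul (cof_smooth hws k).continuous)).neg
    have h2 : ∀ z, -∑ k, pd k (fun z : V => κ z * κ z) z * (w z 0 * cof w k z)
        ≤ 6 * M * (κ z * gsq w z * |w z 0|) := by
      intro z
      have hk0 := hκ.nonneg z
      have h3 : ∀ k, -(pd k (fun z : V => κ z * κ z) z * (w z 0 * cof w k z))
          ≤ 2 * M * (κ z * gsq w z * |w z 0|) := by
        intro k
        refine (neg_le_abs _).trans ?_
        rw [abs_mul, abs_mul]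
        calc |pd k (fun z : V => κ z * κ z) z| * (|w z 0| * |cof w k z|)
            ≤ (2 * M * κ z) * (|w z 0| * gsq w z) :=
              mul_le_mul (e1 z k) (mul_le_mul_of_nonneg_left (cof_le w k z) (abs_nonneg _))
                (by positivity) (by positivity)
          _ = _ := by ring
      rw [← Finset.sum_neg_distrib]
      refine (Finset.sum_le_sum fun k _ => h3 k).trans (le_of_eq ?_)
      simp only [Fin.sum_univ_three]
      ring
    have i2 : IntegrableOn (fun z : V => 6 * M * (κ z * gsq w z * |w z 0|)) (ball 0 1) :=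
      int_ball (continuous_const.mul ((hkc.mul hgc).mul (hbc 0).abs)) 0 1
    have h3 : ∫ z in ball (0 : V) 1, 6 * M * (κ z * gsq w z * |w z 0|)
        = 6 * M * ∫ z in ball (0 : V) 1, κ z * gsq w z * |w z 0| := integral_const_mul _ _
    refine (setIntegral_mono (int_ball hsc 0 1) i2 h2).trans (le_of_eq_of_le h3 ?_)
    exact mul_le_mul_of_nonneg_left (I2g 0) (by positivity)
  -- the small part
  have I6 : ∫ z in ball (0 : V) 1, h z ^ 2 * G z ≤ ε ^ 2 * (C6 * (D + N)) := by
    refine young_opt hε0 (by positivity) hh3 hR6 fun q hq => ?_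
    have h1 : ∫ z in ball (0 : V) 1, h z ^ 2 * G z
        ≤ ∫ z in ball (0 : V) 1, (2 * q * h z ^ 3 + G z ^ 3 / q ^ 2) / 3 := by
      refine setIntegral_mono_on (int_ball ((hhc.pow 2).mul hGc) 0 1) (int_ball
        (((continuous_const.mul (hhc.pow 3)).add ((hGc.pow 3).div_const _)).div_const _) 0 1)
        measurableSet_ball fun z hz => young_pt (hh z hz).1 (hG0 z) hq
    refine h1.trans (le_of_eq ?_)
    have i1 : IntegrableOn (fun z : V => 2 * q * h z ^ 3) (ball 0 1) :=
      int_ball (continuous_const.mul (hhc.pow 3)) 0 1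
    have i2 : IntegrableOn (fun z : V => G z ^ 3 / q ^ 2) (ball 0 1) :=
      int_ball ((hGc.pow 3).div_const _) 0 1
    rw [integral_div, integral_add i1 i2, integral_const_mul, integral_div]
  have I7 : ∫ z in ball (0 : V) 1, √(gsq w z) ≤ 3 * √(Cb * N) := by
    have h3 := W162.MD.cs_ball (f := fun y : V => √(gsq w y)) (g := fun _ => (1 : ℝ))
      hgc.sqrt continuous_const 0 1
    have e1 : ∀ y : V, √(gsq w y) ^ 2 = gsq w y := fun y => Real.sq_sqrt (gsq_nonneg w _)
    simp_rw [e1, mul_one, one_pow] at h3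
    rw [setIntegral_const, vol_real _ (by norm_num)] at h3
    have h4 : √(((2 : ℝ) * 1) ^ 3 • (1 : ℝ)) ≤ 3 := by
      rw [smul_eq_mul, Real.sqrt_le_left (by norm_num)]
      norm_num
    calc _ ≤ _ := le_abs_self _
      _ ≤ _ := h3
      _ ≤ √(Cb * N) * 3 := mul_le_mul (Real.sqrt_le_sqrt hbg) h4 (Real.sqrt_nonneg _)
        (Real.sqrt_nonneg _)
      _ = _ := by ring
  have total : ∫ z in ball (0 : V) 1, (-2 * (dsq v z * (κ z * κ z))
      + osq v z * (∑ k, (v z k - c k) * pd k (fun z : V => κ z * κ z) z)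
      - str v z * (κ z * κ z))
      ≤ -2 * D + 6 * M * (√(√Q * (Cb * N)) * √N) + 6 * M * (A * N)
          + 6 * S * N + 96 * M * (√(√U * (Cb * N)) * √(Cb * N)) + 320 * L * (Cb * N)
          + 320 * (ε ^ 2 * (C6 * (D + N))) + 672 * S * (Cb * N) + 144 * b * (Cb * N)
          + 36 * (K0 * N) * (3 * √(Cb * N)) := by
    have g12 : IntegrableOn (fun z : V => -2 * (κ z ^ 2 * dsq v z)
        + (6 * M * A + 6 * S) * osq v z) (ball 0 1) := j1.add j2
    have g13 : IntegrableOn (fun z : V => -2 * (κ z ^ 2 * dsq v z)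
        + (6 * M * A + 6 * S) * osq v z
        + 2 * M * ∑ k, κ z * osq v z * |w z k|) (ball 0 1) := g12.add j3
    have g14 : IntegrableOn (fun z : V => -2 * (κ z ^ 2 * dsq v z)
        + (6 * M * A + 6 * S) * osq v z
        + 2 * M * (∑ k, κ z * osq v z * |w z k|) + 16 * (dgr w z * (κ z * κ z))) (ball 0 1) :=
      g13.add j4
    have g15 : IntegrableOn (fun z : V => -2 * (κ z ^ 2 * dsq v z)
        + (6 * M * A + 6 * S) * osq v z
        + 2 * M * (∑ k, κ z * osq v z * |w z k|) + 16 * (dgr w z * (κ z * κ z))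
        + (320 * L + 672 * S + 144 * b) * gsq w z) (ball 0 1) := g14.add j5
    have g16 : IntegrableOn (fun z : V => -2 * (κ z ^ 2 * dsq v z)
        + (6 * M * A + 6 * S) * osq v z
        + 2 * M * (∑ k, κ z * osq v z * |w z k|) + 16 * (dgr w z * (κ z * κ z))
        + (320 * L + 672 * S + 144 * b) * gsq w z + 320 * (h z ^ 2 * G z)) (ball 0 1) :=
      g15.add j6
    have g17 := g16.add j7
    refine (setIntegral_mono_on (int_ball c5 0 1) g17 measurableSet_ball key).trans ?_
    have h1 : ∫ z in ball (0 : V) 1, ((((((-2 * (κ z ^ 2 * dsq v z) + (6 * M * A + 6 * S) * osq v z)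
        + 2 * M * ∑ k, κ z * osq v z * |w z k|)
        + 16 * (dgr w z * (κ z * κ z)))
        + (320 * L + 672 * S + 144 * b) * gsq w z)
        + 320 * (h z ^ 2 * G z)) + 36 * (K0 * N) * √(gsq w z))
        = -2 * D + (6 * M * A + 6 * S) * (∫ z in ball (0 : V) 1, osq v z)
          + 2 * M * (∑ k, ∫ z in ball (0 : V) 1, κ z * osq v z * |w z k|)
          + 16 * (∫ z in ball (0 : V) 1, dgr w z * (κ z * κ z))
          + (320 * L + 672 * S + 144 * b) * (∫ z in ball (0 : V) 1, gsq w z)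
          + 320 * (∫ z in ball (0 : V) 1, h z ^ 2 * G z)
          + 36 * (K0 * N) * ∫ z in ball (0 : V) 1, √(gsq w z) := by
      rw [integral_add g16 j7, integral_add g15 j6, integral_add g14 j5, integral_add g13 j4,
        integral_add g12 j3, integral_add j1 j2, integral_const_mul, integral_const_mul,
        integral_const_mul, integral_const_mul, integral_const_mul, integral_const_mul,
        integral_const_mul, integral_finsetSum _ fun k _ => int_ball (c2 k) 0 1]
    refine (le_of_eq h1).trans ?_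
    have h2 : ∑ k, ∫ z in ball (0 : V) 1, κ z * osq v z * |w z k|
        ≤ 3 * (√(√Q * (Cb * N)) * √N) := by
      calc _ ≤ ∑ _k : Fin 3, √(√Q * (Cb * N)) * √N := Finset.sum_le_sum fun k _ => I2 k
        _ = _ := by simp
    have h3 : (6 * M * A + 6 * S) * (∫ z in ball (0 : V) 1, osq v z)
        ≤ (6 * M * A + 6 * S) * N := mul_le_mul_of_nonneg_left hN1 (by positivity)
    have h4 : 2 * M * (∑ k, ∫ z in ball (0 : V) 1, κ z * osq v z * |w z k|)
        ≤ 2 * M * (3 * (√(√Q * (Cb * N)) * √N)) := mul_le_mul_of_nonneg_left h2 (by positivity)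
    have h5 : (320 * L + 672 * S + 144 * b) * (∫ z in ball (0 : V) 1, gsq w z)
        ≤ (320 * L + 672 * S + 144 * b) * (Cb * N) :=
      mul_le_mul_of_nonneg_left hbg (by positivity)
    have h6 : 36 * (K0 * N) * (∫ z in ball (0 : V) 1, √(gsq w z))
        ≤ 36 * (K0 * N) * (3 * √(Cb * N)) := mul_le_mul_of_nonneg_left I7 (by positivity)
    linarith
  have hfin := hnum N S L D (√Q) (√U) ε hN0 hS0 hL hD0 (Real.sqrt_nonneg _) (Real.sqrt_nonneg _)
    (by
      calc √Q ^ 4 = (√Q ^ 2) ^ 2 := by ring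
        _ = Q ^ 2 := by rw [Real.sq_sqrt hQ0]
        _ ≤ _ := hP4)
    (by
      calc √U ^ 4 = (√U ^ 2) ^ 2 := by ring
        _ = U ^ 2 := by rw [Real.sq_sqrt hU0]
        _ ≤ _ := hR4) hε2
  rw [← hA, ← hb] at hfin
  linarith

end Pool.Agent.H946.NS
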