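import Pool.Agent.H946_NS.Unit3

/-!
The evolution of the local enstrophy along the paths of the averaged velocity.
-/

set_option autoImplicit false

open MeasureTheory Set Metric Filter Topology
open scoped ContDiff

namespace Pool.Agent.H946.NS

open H459R3.NS W221.NS Pool.Agent.W583.MD

section

variable {α β : ℝ}

theorem pd_joint_eq {f : ℝ → V → ℝ}
    (hf : ContDiffOn ℝ ∞ (fun z : ℝ × V => f z.1 z.2) (Ioo α β ×ˢ univ)) {t : ℝ}
    (ht : t ∈ Ioo α β) (j : Fin 3) (x : V) :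
    pd j (f t) x = fderiv ℝ (fun z : ℝ × V => f z.1 z.2) (t, x) (0, Pi.single j 1) := by
  have hmem : Ioo α β ×ˢ (univ : Set V) ∈ 𝓝 (t, x) :=
    prod_mem_nhds (Ioo_mem_nhds ht.1 ht.2) Filter.univ_mem
  have h1 : DifferentiableAt ℝ (fun z : ℝ × V => f z.1 z.2) (t, x) :=
    (hf.contDiffAt hmem).differentiableAt (by norm_cast)
  have h2 : HasFDerivAt (fun y : V => ((t, y) : ℝ × V)) (ContinuousLinearMap.inr ℝ ℝ V) x :=
    hasFDerivAt_prodMk_right t x
  have h3 : HasFDerivAt (f t) _ x := h1.hasFDerivAt.comp x h2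
  unfold pd
  rw [h3.fderiv]
  simp

theorem pd_joint {f : ℝ → V → ℝ}
    (hf : ContDiffOn ℝ ∞ (fun z : ℝ × V => f z.1 z.2) (Ioo α β ×ˢ univ)) (j : Fin 3) :
    ContDiffOn ℝ ∞ (fun z : ℝ × V => pd j (f z.1) z.2) (Ioo α β ×ˢ univ) := by
  have h1 : ContDiffOn ℝ ∞ (fderiv ℝ (fun z : ℝ × V => f z.1 z.2)) (Ioo α β ×ˢ univ) :=
    hf.fderiv_of_isOpen (isOpen_Ioo.prod isOpen_univ) (by norm_cast)
  have h2 : ContDiffOn ℝ ∞ (fun z : ℝ × V => fderiv ℝ (fun z : ℝ × V => f z.1 z.2) z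
      (0, Pi.single j 1)) (Ioo α β ×ˢ univ) := h1.clm_apply contDiffOn_const
  exact h2.congr fun z hz => pd_joint_eq hf hz.1 j z.2

theorem dt_pd' {f : ℝ → V → ℝ}
    (hf : ContDiffOn ℝ ∞ (fun z : ℝ × V => f z.1 z.2) (Ioo α β ×ˢ univ)) {t : ℝ}
    (ht : t ∈ Ioo α β) (j : Fin 3) (x : V) :
    deriv (fun s => pd j (f s) x) t = pd j (fun y => deriv (fun s => f s y) t) x := by
  set F : ℝ × V → ℝ := fun z => f z.1 z.2 with hF
  have hmem : Ioo α β ×ˢ (univ : Set V) ∈ 𝓝 (t, x) :=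
    prod_mem_nhds (Ioo_mem_nhds ht.1 ht.2) Filter.univ_mem
  have h2 : ContDiffAt ℝ 2 F (t, x) := (hf.contDiffAt hmem).of_le (by norm_cast)
  have hs : IsSymmSndFDerivAt ℝ F (t, x) := h2.isSymmSndFDerivAt (by simp)
  have hd : DifferentiableAt ℝ (fderiv ℝ F) (t, x) :=
    (h2.fderiv_right (m := 1) (by norm_num)).differentiableAt one_ne_zero
  have l1 : HasDerivAt (fun s => fderiv ℝ F (s, x) (0, Pi.single j 1))
      (fderiv ℝ (fderiv ℝ F) (t, x) (1, 0) (0, Pi.single j 1)) t := by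
    have a1 : HasFDerivAt (fun z => fderiv ℝ F z (0, Pi.single j 1)) _ (t, x) :=
      hd.hasFDerivAt.clm_apply (hasFDerivAt_const ((0, Pi.single j (1 : ℝ)) : ℝ × V) (t, x))
    have a2 : HasDerivAt (fun s : ℝ => ((s, x) : ℝ × V)) (1, 0) t :=
      (hasDerivAt_id t).prodMk (hasDerivAt_const t x)
    have a3 := a1.comp_hasDerivAt t a2
    refine a3.congr_deriv ?_
    simp
  have l2 : deriv (fun s => pd j (f s) x) t
      = fderiv ℝ (fderiv ℝ F) (t, x) (1, 0) (0, Pi.single j 1) := by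
    rw [← l1.deriv]
    apply Filter.EventuallyEq.deriv_eq
    filter_upwards [Ioo_mem_nhds ht.1 ht.2] with s hs'
    exact pd_joint_eq hf hs' j x
  have r1 : HasFDerivAt (fun y => fderiv ℝ F (t, y) (1, 0))
      (((ContinuousLinearMap.apply ℝ ℝ ((1, 0) : ℝ × V)).comp
        (fderiv ℝ (fderiv ℝ F) (t, x))).comp (ContinuousLinearMap.inr ℝ ℝ V)) x := by
    have a1 : HasFDerivAt (fun z => fderiv ℝ F z (1, 0))
        ((ContinuousLinearMap.apply ℝ ℝ ((1, 0) : ℝ × V)).comp
        (fderiv ℝ (fderiv ℝ F) (t, x))) (t, x) :=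
      (ContinuousLinearMap.apply ℝ ℝ ((1, 0) : ℝ × V)).hasFDerivAt.comp (t, x) hd.hasFDerivAt
    have a2 : HasFDerivAt (fun y : V => ((t, y) : ℝ × V)) (ContinuousLinearMap.inr ℝ ℝ V) x :=
      hasFDerivAt_prodMk_right t x
    exact a1.comp x a2
  have r2 : (fun y => deriv (fun s => f s y) t) = fun y => fderiv ℝ F (t, y) (1, 0) :=
    funext fun y => (hd_slice hf ht y).deriv
  rw [l2, r2]
  unfold pd
  rw [r1.fderiv]
  simp only [ContinuousLinearMap.comp_apply, ContinuousLinearMap.inr_apply,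
    ContinuousLinearMap.apply_apply]
  exact hs _ _

/-- The derivative along a path. -/
theorem along {f : ℝ → V → ℝ}
    (hf : ContDiffOn ℝ ∞ (fun z : ℝ × V => f z.1 z.2) (Ioo α β ×ˢ univ)) {t : ℝ}
    (ht : t ∈ Ioo α β) {X : ℝ → V} {X' : V} (hX : HasDerivAt X X' t) (w : V) :
    HasDerivAt (fun s => f s (X s + w))
      (deriv (fun s => f s (X t + w)) t + ∑ k, X' k * pd k (f t) (X t + w)) t := by
  have hmem : Ioo α β ×ˢ (univ : Set V) ∈ 𝓝 (t, X t + w) :=
    prod_mem_nhds (Ioo_mem_nhds ht.1 ht.2) Filter.univ_mem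
  have h1 : DifferentiableAt ℝ (fun z : ℝ × V => f z.1 z.2) (t, X t + w) :=
    (hf.contDiffAt hmem).differentiableAt (by norm_cast)
  have h2 : HasDerivAt (fun s : ℝ => ((s, X s + w) : ℝ × V)) (1, X') t :=
    (hasDerivAt_id t).prodMk (hX.add_const w)
  have h3 := h1.hasFDerivAt.comp_hasDerivAt t h2
  refine h3.congr_deriv ?_
  have e1 : ((1, X') : ℝ × V) = (1, 0) + (0, X') := by simp
  rw [e1, map_add]
  congr 1
  · exact ((hd_slice hf ht (X t + w)).deriv).symm
  · have h4 := clm_coord ((fderiv ℝ (fun z : ℝ × V => f z.1 z.2) (t, X t + w)).comp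
      (ContinuousLinearMap.inr ℝ ℝ V)) X'
    simp only [ContinuousLinearMap.comp_apply, ContinuousLinearMap.inr_apply] at h4
    rw [h4]
    refine Finset.sum_congr rfl fun k _ => ?_
    rw [pd_joint_eq hf ht]

end

/-- Smooth fields on `(0, T) × ℝ³` which solve the Navier-Stokes equations (viscosity one) on the
open set `O`. -/
structure LS (T : ℝ) (O : Set V) (u : ℝ → V → V) (p : ℝ → V → ℝ) : Prop where
  openO : IsOpen O
  smooth_u : ContDiffOn ℝ ∞ (fun z : ℝ × V => u z.1 z.2) (Ioo 0 T ×ˢ univ)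
  smooth_p : ContDiffOn ℝ ∞ (fun z : ℝ × V => p z.1 z.2) (Ioo 0 T ×ˢ univ)
  divfree : ∀ t ∈ Ioo 0 T, ∀ x ∈ O, dv (u t) x = 0
  momentum : ∀ t ∈ Ioo 0 T, ∀ x ∈ O, ∀ i,
    deriv (fun s => u s x i) t + adv (u t) (fun y => u t y i) x
      = lap (fun y => u t y i) x - pd i (p t) x

theorem LS.of_LSol {T κ E : ℝ} {O : Set V} {u : ℝ → V → V} {p : ℝ → V → ℝ}
    (h : LSol T κ E O u p) : LS T O u p :=
  ⟨h.openO, h.smooth_u, h.smooth_p, h.divfree, h.momentum⟩

theorem LS.of_IsSol {T : ℝ} {u : ℝ → V → V} {p : ℝ → V → ℝ} (h : IsSol 1 T u p) :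
    LS T univ u p := by
  refine ⟨isOpen_univ, h.smooth_u.mono (prod_mono Ioo_subset_Ico_self subset_rfl),
    h.smooth_p.mono (prod_mono Ioo_subset_Ico_self subset_rfl), fun t ht x _ =>
      h.divfree t ⟨ht.1.le, ht.2⟩ x, fun t ht x _ i => ?_⟩
  have := h.momentum t ht x i
  rw [one_mul] at this
  exact this

/-- The vorticity equation. -/
theorem vort_eq {T : ℝ} {O : Set V} {u : ℝ → V → V} {p : ℝ → V → ℝ} (h : LS T O u p)
    {t : ℝ} (ht : t ∈ Ioo 0 T) {y : V} (hy : y ∈ O) (i j : Fin 3) :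
    deriv (fun s => om (u s) i j y) t = lap (om (u t) i j) y
      - ∑ k, u t y k * pd k (om (u t) i j) y
      - ∑ k, (om (u t) i k y * pd k (fun y => u t y j) y
        + pd k (fun y => u t y i) y * om (u t) k j y) := by
  have hc : ∀ i, ContDiffOn ℝ ∞ (fun z : ℝ × V => u z.1 z.2 i) (Ioo 0 T ×ˢ univ) := fun i =>
    contDiffOn_pi.1 h.smooth_u i
  have hv : ContDiff ℝ ∞ (u t) := W382.ME.cd_slice h.smooth_u ht
  have hp : ContDiff ℝ ∞ (p t) := slice h.smooth_p ht
  -- the time derivative of a space derivative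
  have key : ∀ a b : Fin 3, deriv (fun s => pd a (fun y => u s y b) y) t
      = ∑ k, pd a (pd k (pd k (fun y => u t y b))) y - pd a (pd b (p t)) y
        - ∑ k, (u t y k * pd a (pd k (fun y => u t y b)) y
          + pd a (fun y => u t y k) y * pd k (fun y => u t y b) y) := by
    intro a b
    have h1 := dt_pd' (f := fun s y => u s y b) (hc b) ht a y
    rw [h1]
    have hev : (fun y => deriv (fun s => u s y b) t) =ᶠ[𝓝 y] fun y =>
        (∑ k, pd k (pd k (fun y => u t y b)) y - pd b (p t) y)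
          - ∑ k, u t y k * pd k (fun y => u t y b) y := by
      filter_upwards [h.openO.mem_nhds hy] with w hw
      have hm := h.momentum t ht w hw b
      unfold adv lap at hm
      linarith
    have d1 : ∀ k, ContDiff ℝ ∞ (pd k (pd k (fun y => u t y b))) := fun k =>
      sm_pd (sm_pd (sm_comp hv b) k) k
    have d2 : ContDiff ℝ ∞ (fun y => ∑ k, pd k (pd k (fun y => u t y b)) y) :=
      ContDiff.sum fun k _ => d1 k
    have d3 : ContDiff ℝ ∞ (pd b (p t)) := sm_pd hp b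
    have d4 : ∀ k, ContDiff ℝ ∞ (fun y => u t y k * pd k (fun y => u t y b) y) := fun k =>
      (sm_comp hv k).mul (sm_pd (sm_comp hv b) k)
    have d5 : ContDiff ℝ ∞ (fun y => ∑ k, u t y k * pd k (fun y => u t y b) y) :=
      ContDiff.sum fun k _ => d4 k
    have e0 : pd a (fun y => deriv (fun s => u s y b) t) y = pd a (fun y =>
        (∑ k, pd k (pd k (fun y => u t y b)) y - pd b (p t) y)
          - ∑ k, u t y k * pd k (fun y => u t y b) y) y := by
      unfold pd
      unfold pd at hev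
      rw [hev.fderiv_eq]
    rw [e0, Pool.Agent.W135.MD.pd_sub' (Pool.Agent.W135.MD.sm_diff (d2.sub d3))
      (Pool.Agent.W135.MD.sm_diff d5), Pool.Agent.W135.MD.pd_sub' (Pool.Agent.W135.MD.sm_diff d2)
      (Pool.Agent.W135.MD.sm_diff d3), Pool.Agent.W135.MD.pd_sum' (fun k _ =>
        Pool.Agent.W135.MD.sm_diff (d1 k)), Pool.Agent.W135.MD.pd_sum' (fun k _ =>
        Pool.Agent.W135.MD.sm_diff (d4 k))]
    congr 1
    refine Finset.sum_congr rfl fun k _ => ?_
    exact pd_mul' (sm_comp hv k) (sm_pd (sm_comp hv b) k) a y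
  have hd1 : ∀ a b : Fin 3, HasDerivAt (fun s => pd a (fun y => u s y b) y)
      (deriv (fun s => pd a (fun y => u s y b) y) t) t := by
    intro a b
    have h1 := hd_slice (F := fun s y => pd a (fun y => u s y b) y)
      (pd_joint (f := fun s y => u s y b) (hc b) a) ht y
    rw [← h1.deriv] at h1
    exact h1
  have h2 : deriv (fun s => om (u s) i j y) t
      = deriv (fun s => pd i (fun y => u s y j) y) t
        - deriv (fun s => pd j (fun y => u s y i) y) t := ((hd1 i j).sub (hd1 j i)).deriv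
  -- derivatives of the vorticity
  have o1 : ∀ k, pd k (om (u t) i j) y = pd k (pd i (fun y => u t y j)) y
      - pd k (pd j (fun y => u t y i)) y := fun k =>
    Pool.Agent.W135.MD.pd_sub' (Pool.Agent.W135.MD.sm_diff (sm_pd (sm_comp hv j) i))
      (Pool.Agent.W135.MD.sm_diff (sm_pd (sm_comp hv i) j)) k y
  have o2 : ∀ k, pd k (pd k (om (u t) i j)) y = pd k (pd k (pd i (fun y => u t y j))) y
      - pd k (pd k (pd j (fun y => u t y i))) y := by
    intro k
    have e : pd k (om (u t) i j) = fun y => pd k (pd i (fun y => u t y j)) y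
        - pd k (pd j (fun y => u t y i)) y := by
      funext y
      exact Pool.Agent.W135.MD.pd_sub' (Pool.Agent.W135.MD.sm_diff (sm_pd (sm_comp hv j) i))
        (Pool.Agent.W135.MD.sm_diff (sm_pd (sm_comp hv i) j)) k y
    rw [e]
    exact Pool.Agent.W135.MD.pd_sub' (Pool.Agent.W135.MD.sm_diff (sm_pd (sm_pd (sm_comp hv j) i) k))
      (Pool.Agent.W135.MD.sm_diff (sm_pd (sm_pd (sm_comp hv i) j) k)) k y
  have c2 : ∀ (f : V → ℝ), ContDiff ℝ ∞ f → ∀ a b : Fin 3, pd a (pd b f) = pd b (pd a f) :=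
    fun f hf a b => funext fun x => Pool.Agent.W135.MD.pd_comm' hf a b x
  have c3 : ∀ (a b k : Fin 3), pd a (pd k (pd k (fun y => u t y b))) y
      = pd k (pd k (pd a (fun y => u t y b))) y := by
    intro a b k
    rw [c2 _ (sm_pd (sm_comp hv b) k) a k, c2 _ (sm_comp hv b) a k]
  have c4 : pd i (pd j (p t)) y = pd j (pd i (p t)) y := by rw [c2 _ hp i j]
  have c5 : ∀ a b k : Fin 3, pd a (pd k (fun y => u t y b)) y = pd k (pd a (fun y => u t y b)) y := by
    intro a b k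
    rw [c2 _ (sm_comp hv b) a k]
  have l1 : lap (om (u t) i j) y = ∑ k, (pd k (pd k (pd i (fun y => u t y j))) y
      - pd k (pd k (pd j (fun y => u t y i))) y) := by
    unfold lap
    exact Finset.sum_congr rfl fun k _ => o2 k
  have key2 : ∀ a b : Fin 3, deriv (fun s => pd a (fun y => u s y b) y) t
      = ∑ k, pd k (pd k (pd a (fun y => u t y b))) y - pd a (pd b (p t)) y
        - ∑ k, (u t y k * pd k (pd a (fun y => u t y b)) y
          + pd a (fun y => u t y k) y * pd k (fun y => u t y b) y) := by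
    intro a b
    rw [key a b]
    congr 1
    · congr 1
      exact Finset.sum_congr rfl fun k _ => c3 a b k
    · refine Finset.sum_congr rfl fun k _ => ?_
      rw [c5 a b k]
  rw [h2, key2, key2, l1, c4]
  simp only [o1]
  unfold om
  simp only [Fin.sum_univ_three]
  ring

end Pool.Agent.H946.NS
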