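import Pool.Agent.H946_NS.Evo

/-!
The localised enstrophy at a scale and its derivative along the paths.
-/

set_option autoImplicit false

open MeasureTheory Set Metric Filter Topology
open scoped ContDiff

namespace Pool.Agent.H946.NS

open H459R3.NS W221.NS Pool.Agent.W583.MD

/-- The localised enstrophy at the scale `r` around the point `x`. -/
noncomputable def en (r : ℝ) (v : V → V) (x : V) : ℝ :=
  r ^ 3 * ∫ z, osq v (x + r • z) * (kap z * kap z)

theorem en_ball {r : ℝ} (v : V → V) (x : V) :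
    en r v x = r ^ 3 * ∫ z in ball (0 : V) 1, osq v (x + r • z) * (kap z * kap z) := by
  unfold en
  congr 1
  rw [setIntegral_eq_integral_of_forall_compl_eq_zero]
  intro z hz
  rw [kap_zero hz]
  ring

theorem en_le {r : ℝ} (hr : 0 < r) {v : V → V} (hv : ContDiff ℝ ∞ v) (x : V) :
    en r v x ≤ ∫ y in ball x r, osq v y := by
  have hc : Continuous fun z : V => osq v (x + r • z) := (osq_smooth hv).continuous.comp (by fun_prop)
  have hk : Continuous fun z : V => kap z := kap_smooth.continuous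
  rw [en_ball]
  have h1 : ∫ z in ball (0 : V) 1, osq v (x + r • z) * (kap z * kap z)
      ≤ ∫ z in ball (0 : V) 1, osq v (x + r • z) := by
    refine setIntegral_mono (int_ball (hc.mul (hk.mul hk)) 0 1) (int_ball hc 0 1) fun z => ?_
    have h2 : kap z * kap z ≤ 1 := mul_le_one₀ (kap_le_one z) (kap_nonneg z) (kap_le_one z)
    exact mul_le_of_le_one_right (osq_nonneg v _) h2
  rw [cov' (osq v) x hr, mul_one] at h1
  calc r ^ 3 * _ ≤ r ^ 3 * ((r ^ 3)⁻¹ * ∫ y in ball x r, osq v y) :=
        mul_le_mul_of_nonneg_left h1 (by positivity)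
    _ = _ := by
        rw [← mul_assoc, mul_inv_cancel₀ (by positivity), one_mul]

theorem le_en {r : ℝ} (hr : 0 < r) {v : V → V} (hv : ContDiff ℝ ∞ v) (x : V) :
    ∫ y in ball x (3 / 4 * r), osq v y ≤ en r v x := by
  have hc : Continuous fun z : V => osq v (x + r • z) := (osq_smooth hv).continuous.comp (by fun_prop)
  have hk : Continuous fun z : V => kap z := kap_smooth.continuous
  rw [en_ball]
  have h1 : ∫ z in ball (0 : V) (3 / 4), osq v (x + r • z)
      ≤ ∫ z in ball (0 : V) 1, osq v (x + r • z) * (kap z * kap z) := by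
    have h2 : ∫ z in ball (0 : V) (3 / 4), osq v (x + r • z)
        = ∫ z in ball (0 : V) (3 / 4), osq v (x + r • z) * (kap z * kap z) := by
      refine setIntegral_congr_fun measurableSet_ball fun z hz => ?_
      simp only [kap_one hz, mul_one]
    rw [h2]
    exact ball_mono (hc.mul (hk.mul hk)) (fun z => mul_nonneg (osq_nonneg v _)
      (mul_nonneg (kap_nonneg z) (kap_nonneg z))) (ball_subset_ball (by norm_num))
  rw [cov' (osq v) x hr, mul_comm r] at h1
  calc ∫ y in ball x (3 / 4 * r), osq v y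
      = r ^ 3 * ((r ^ 3)⁻¹ * ∫ y in ball x (3 / 4 * r), osq v y) := by
        rw [← mul_assoc, mul_inv_cancel₀ (by positivity), one_mul]
    _ ≤ _ := mul_le_mul_of_nonneg_left h1 (by positivity)

theorem en_nonneg {r : ℝ} (hr : 0 < r) (v : V → V) (x : V) : 0 ≤ en r v x :=
  mul_nonneg (by positivity) (integral_nonneg fun z => mul_nonneg (osq_nonneg v _)
    (mul_nonneg (kap_nonneg z) (kap_nonneg z)))

section

variable {α β : ℝ} {u : ℝ → V → V}

theorem om_joint (hu : ContDiffOn ℝ ∞ (fun z : ℝ × V => u z.1 z.2) (Ioo α β ×ˢ univ))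
    (i j : Fin 3) : ContDiffOn ℝ ∞ (fun z : ℝ × V => om (u z.1) i j z.2) (Ioo α β ×ˢ univ) := by
  have hc : ∀ i, ContDiffOn ℝ ∞ (fun z : ℝ × V => u z.1 z.2 i) (Ioo α β ×ˢ univ) := fun i =>
    contDiffOn_pi.1 hu i
  exact (pd_joint (f := fun s y => u s y j) (hc j) i).sub
    (pd_joint (f := fun s y => u s y i) (hc i) j)

theorem osq_joint (hu : ContDiffOn ℝ ∞ (fun z : ℝ × V => u z.1 z.2) (Ioo α β ×ˢ univ)) :
    ContDiffOn ℝ ∞ (fun z : ℝ × V => osq (u z.1) z.2) (Ioo α β ×ˢ univ) :=
  ContDiffOn.sum fun i _ => ContDiffOn.sum fun j _ => (om_joint hu i j).pow 2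

/-- The localised enstrophy is continuous in time and space. -/
theorem en_cont (hu : ContDiffOn ℝ ∞ (fun z : ℝ × V => u z.1 z.2) (Ioo α β ×ˢ univ)) (r : ℝ) :
    ContinuousOn (fun q : ℝ × V => en r (u q.1) q.2) (Ioo α β ×ˢ univ) := by
  unfold en
  refine continuousOn_const.mul ?_
  refine continuousOn_integral_of_compact_support (isCompact_closedBall (0 : V) 1)
    (f := fun (q : ℝ × V) (z : V) => osq (u q.1) (q.2 + r • z) * (kap z * kap z)) ?_ ?_
  · have h1 : ContinuousOn (fun q : (ℝ × V) × V => osq (u q.1.1) (q.1.2 + r • q.2))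
        ((Ioo α β ×ˢ univ) ×ˢ univ) :=
      (osq_joint hu).continuousOn.comp (f := fun q : (ℝ × V) × V => ((q.1.1, q.1.2 + r • q.2) : ℝ × V))
        (by fun_prop) (fun q hq => ⟨hq.1.1, mem_univ _⟩)
    have h2 : Continuous fun q : (ℝ × V) × V => kap q.2 := kap_smooth.continuous.comp continuous_snd
    exact h1.mul (h2.mul h2).continuousOn
  · intro q z _ hz
    change osq (u q.1) (q.2 + r • z) * (kap z * kap z) = 0
    rw [kap_zero fun h => hz (ball_subset_closedBall h)]
    ring

end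

/-! ### Scaling -/

/-- The rescaled field. -/
noncomputable def scv (r : ℝ) (x : V) (v : V → V) : V → V := fun z j => r * v (x + r • z) j

theorem scv_smooth {r : ℝ} {x : V} {v : V → V} (hv : ContDiff ℝ ∞ v) : ContDiff ℝ ∞ (scv r x v) :=
  contDiff_pi.2 fun j => contDiff_const.mul (sm_scal (sm_comp hv j) x r)

theorem pd_scv {r : ℝ} {x : V} {v : V → V} (hv : ContDiff ℝ ∞ v) (k j : Fin 3) (z : V) :
    pd k (fun y => scv r x v y j) z = r ^ 2 * pd k (fun y => v y j) (x + r • z) := by
  have h1 : pd k (fun y => scv r x v y j) z = r * pd k (fun y => v (x + r • y) j) z :=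
    Pool.Agent.W135.MD.pd_cmul (Pool.Agent.W135.MD.sm_diff (sm_scal (sm_comp hv j) x r)) r k z
  have h2 : pd k (fun y => v (x + r • y) j) z = r * pd k (fun y => v y j) (x + r • z) :=
    pd_scal (sm_comp hv j) x r k z
  rw [h1, h2]
  ring

theorem om_scv {r : ℝ} {x : V} {v : V → V} (hv : ContDiff ℝ ∞ v) (i j : Fin 3) :
    om (scv r x v) i j = fun z => r ^ 2 * om v i j (x + r • z) := by
  funext z
  unfold om
  rw [pd_scv hv, pd_scv hv]
  ring

theorem dv_scv {r : ℝ} {x : V} {v : V → V} (hv : ContDiff ℝ ∞ v) (z : V) :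
    dv (scv r x v) z = r ^ 2 * dv v (x + r • z) := by
  unfold dv
  rw [Finset.mul_sum]
  exact Finset.sum_congr rfl fun i _ => pd_scv hv i i z

theorem osq_scv {r : ℝ} {x : V} {v : V → V} (hv : ContDiff ℝ ∞ v) (z : V) :
    osq (scv r x v) z = r ^ 4 * osq v (x + r • z) := by
  unfold osq
  simp_rw [om_scv hv, Finset.mul_sum]
  refine Finset.sum_congr rfl fun i _ => Finset.sum_congr rfl fun j _ => ?_
  ring

theorem pd_om_scv {r : ℝ} {x : V} {v : V → V} (hv : ContDiff ℝ ∞ v) (k i j : Fin 3) :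
    pd k (om (scv r x v) i j) = fun z => r ^ 3 * pd k (om v i j) (x + r • z) := by
  funext z
  rw [om_scv hv, Pool.Agent.W135.MD.pd_cmul (Pool.Agent.W135.MD.sm_diff
    (sm_scal (om_smooth hv i j) x r)), pd_scal (om_smooth hv i j)]
  ring

theorem lap_om_scv {r : ℝ} {x : V} {v : V → V} (hv : ContDiff ℝ ∞ v) (i j : Fin 3) (z : V) :
    lap (om (scv r x v) i j) z = r ^ 4 * lap (om v i j) (x + r • z) := by
  unfold lap
  rw [Finset.mul_sum]
  refine Finset.sum_congr rfl fun k _ => ?_
  rw [pd_om_scv hv, Pool.Agent.W135.MD.pd_cmul (Pool.Agent.W135.MD.sm_diff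
    (sm_scal (sm_pd (om_smooth hv i j) k) x r)), pd_scal (sm_pd (om_smooth hv i j) k)]
  ring

theorem RR_scv {r : ℝ} {x : V} {v : V → V} (hv : ContDiff ℝ ∞ v) (c : V) (z : V) :
    RR (scv r x v) (fun k => r * c k) z = r ^ 6 * RR v c (x + r • z) := by
  unfold RR
  rw [Finset.mul_sum]
  refine Finset.sum_congr rfl fun i _ => ?_
  rw [Finset.mul_sum]
  refine Finset.sum_congr rfl fun j _ => ?_
  have e : ∀ k, scv r x v z k = r * v (x + r • z) k := fun k => rfl
  have e1 : ∀ k i j, pd k (om (scv r x v) i j) z = r ^ 3 * pd k (om v i j) (x + r • z) :=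
    fun k i j => congrFun (pd_om_scv hv k i j) z
  have e2 : ∀ i j, om (scv r x v) i j z = r ^ 2 * om v i j (x + r • z) :=
    fun i j => congrFun (om_scv hv i j) z
  simp only [lap_om_scv hv, e1, e2, pd_scv hv, e, Fin.sum_univ_three]
  ring

theorem kv_scv {r : ℝ} {x : V} {v : V → V} (hv : ContDiff ℝ ∞ v) (k j : Fin 3) (z : V) :
    kv et 1 (pd k (fun y => scv r x v y j)) z = r ^ 2 * kv et r (pd k (fun y => v y j)) (x + r • z) := by
  unfold kv
  rw [← integral_const_mul]
  congr 1
  funext w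
  rw [pd_scv hv, one_smul, smul_add, ← add_assoc]
  ring

/-- The derivative of the localised enstrophy along a path of the averaged velocity. -/
theorem en_path : ∃ C : ℝ, 1 ≤ C ∧ ∀ (T : ℝ) (O : Set V) (u : ℝ → V → V) (p : ℝ → V → ℝ),
    LS T O u p → ∀ r α β : ℝ, 0 < r → 0 ≤ α → β ≤ T → ∀ X : ℝ → V,
      ContDiffOn ℝ ∞ X (Ioo α β) → ∀ t ∈ Ioo α β, HasDerivAt X (mol r u t (X t)) t →
        ball (X t) (8 * r) ⊆ O → ∀ M S : ℝ, (∀ w ∈ ball (X t) (9 * r), en r (u t) w ≤ M) → 0 ≤ S →
          (∀ y ∈ ball (X t) r, ∀ k j, |kv et r (pd k (fun y => u t y j)) y| ≤ S) →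
            ∃ D : ℝ, HasDerivAt (fun s => en r (u s) (X s)) D t ∧
              D ≤ C * (M / r ^ 2 + S * M + M ^ 3) := by
  obtain ⟨C, hC, hU⟩ := unit_ineq
  refine ⟨C * 1588 ^ 3, by nlinarith, ?_⟩
  intro T O u p hL r α β hr hα hβ X hX t ht hXt hO M S hM hS0 hS
  have hsub : Ioo α β ⊆ Ioo 0 T := Ioo_subset_Ioo hα hβ
  have htT : t ∈ Ioo 0 T := hsub ht
  have hu : ContDiffOn ℝ ∞ (fun z : ℝ × V => u z.1 z.2) (Ioo α β ×ˢ univ) :=
    hL.smooth_u.mono (prod_mono hsub subset_rfl)
  have hv : ContDiff ℝ ∞ (u t) := W382.ME.cd_slice hL.smooth_u htT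
  set x := X t with hx
  set c := mol r u t x with hc
  have hM0 : 0 ≤ M := (en_nonneg hr (u t) x).trans (hM x (mem_ball_self (by positivity)))
  -- the derivative
  let F : ℝ → V → ℝ := fun s z => osq (u s) (X s + r • z) * (kap z * kap z)
  have hF : ContDiffOn ℝ ∞ (fun z : ℝ × V => F z.1 z.2) (Ioo α β ×ˢ univ) := by
    have h1 : ContDiffOn ℝ ∞ (fun q : ℝ × V => ((q.1, X q.1 + r • q.2) : ℝ × V))
        (Ioo α β ×ˢ univ) := by
      refine contDiffOn_fst.prodMk (ContDiffOn.add ?_ ?_)
      · exact hX.comp contDiffOn_fst fun q hq => hq.1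
      · exact (contDiff_snd.const_smul r).contDiffOn
    have h2 : ContDiffOn ℝ ∞ (fun q : ℝ × V => osq (u q.1) (X q.1 + r • q.2))
        (Ioo α β ×ˢ univ) :=
      ContDiffOn.comp (g := fun z : ℝ × V => osq (u z.1) z.2)
        (f := fun q : ℝ × V => ((q.1, X q.1 + r • q.2) : ℝ × V)) (osq_joint hu) h1
        (fun q hq => ⟨hq.1, mem_univ _⟩)
    have h3 : ContDiff ℝ ∞ (fun q : ℝ × V => kap q.2 * kap q.2) :=
      ContDiff.comp (g := fun z : V => kap z * kap z) (f := Prod.snd)
        (kap_smooth.mul kap_smooth) contDiff_snd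
    have h4 : ContDiffOn ℝ ∞ (fun q : ℝ × V => osq (u q.1) (X q.1 + r • q.2)
        * (kap q.2 * kap q.2)) (Ioo α β ×ˢ univ) := h2.mul h3.contDiffOn
    exact h4
  have hd := hd_int (F := F) hF (fun s _ z hz => by
    change osq (u s) (X s + r • z) * (kap z * kap z) = 0
    rw [kap_zero hz]; ring) ht
  have hder : ∀ z, deriv (fun s => F s z) t = (r ^ 6)⁻¹ * (RR (scv r x (u t)) (fun k => r * c k) z
      * (kap z * kap z)) := by
    intro z
    by_cases hz : z ∈ ball (0 : V) 1
    · have hyO : x + r • z ∈ O := hO (by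
        rw [mem_ball_iff_norm, add_sub_cancel_left, norm_smul, Real.norm_of_nonneg hr.le]
        rw [mem_ball_zero_iff] at hz
        nlinarith)
      have h1 : ∀ i j, HasDerivAt (fun s => om (u s) i j (X s + r • z))
          (lap (om (u t) i j) (x + r • z)
            - ∑ k, (u t (x + r • z) k - c k) * pd k (om (u t) i j) (x + r • z)
            - ∑ k, (om (u t) i k (x + r • z) * pd k (fun y => u t y j) (x + r • z)
              + pd k (fun y => u t y i) (x + r • z) * om (u t) k j (x + r • z))) t := by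
        intro i j
        have h2 := along (f := fun s => om (u s) i j) (om_joint hu i j) ht hXt (r • z)
        refine h2.congr_deriv ?_
        rw [vort_eq hL htT hyO i j]
        simp only [Fin.sum_univ_three]
        ring
      have h3 : HasDerivAt (fun s => osq (u s) (X s + r • z)) (RR (u t) c (x + r • z)) t := by
        unfold osq RR
        refine HasDerivAt.fun_sum fun i _ => HasDerivAt.fun_sum fun j _ => ?_
        refine ((h1 i j).pow 2).congr_deriv ?_
        norm_num
        exact Or.inl rfl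
      have h4 : HasDerivAt (fun s => F s z) (RR (u t) c (x + r • z) * (kap z * kap z)) t :=
        h3.mul_const _
      rw [h4.deriv, RR_scv hv]
      field_simp
    · have e : (fun s => F s z) = fun _ => 0 := by
        funext s
        change osq (u s) (X s + r • z) * (kap z * kap z) = 0
        rw [kap_zero hz]
        ring
      rw [e, deriv_const, kap_zero hz]
      ring
  simp_rw [hder] at hd
  rw [integral_const_mul] at hd
  refine ⟨r ^ 3 * ((r ^ 6)⁻¹ * ∫ z, RR (scv r x (u t)) (fun k => r * c k) z * (kap z * kap z)),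
    hd.const_mul (r ^ 3), ?_⟩
  -- the bound
  have hN : ∫ z in ball (0 : V) 8, osq (scv r x (u t)) z ≤ 1588 * (r * M) := by
    have h1 : ∀ z, osq (scv r x (u t)) z = r ^ 4 * osq (u t) (x + r • z) := fun z => osq_scv hv z
    simp_rw [h1]
    rw [integral_const_mul, cov' (osq (u t)) x hr]
    have h2 := cover (osq_smooth hv).continuous (osq_nonneg (u t)) (x := x) (ρ := r * 8)
      (s := 3 / 4 * r) (M := M) (by positivity) (by positivity) (fun w hw =>
        (le_en hr hv w).trans (hM w (ball_subset_ball (by linarith) hw)))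
    have h3 : ((r * 8 + 3 / 4 * r) / (3 / 4 * r)) ^ 3 ≤ 1588 := by
      have : (r * 8 + 3 / 4 * r) / (3 / 4 * r) = 35 / 3 := by
        field_simp
        ring
      rw [this]
      norm_num
    have h4 : ∫ y in ball x (r * 8), osq (u t) y ≤ 1588 * M :=
      h2.trans (mul_le_mul_of_nonneg_right h3 hM0)
    calc r ^ 4 * ((r ^ 3)⁻¹ * ∫ y in ball x (r * 8), osq (u t) y)
        = r * ∫ y in ball x (r * 8), osq (u t) y := by
          field_simp
      _ ≤ r * (1588 * M) := mul_le_mul_of_nonneg_left h4 hr.le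
      _ = _ := by ring
  have hdiv : ∀ y ∈ ball (0 : V) 8, dv (scv r x (u t)) y = 0 := by
    intro y hy
    rw [dv_scv hv, hL.divfree t htT (x + r • y) (hO ?_), mul_zero]
    rw [mem_ball_iff_norm, add_sub_cancel_left, norm_smul, Real.norm_of_nonneg hr.le]
    rw [mem_ball_zero_iff] at hy
    nlinarith
  have hS' : ∀ y ∈ ball (0 : V) 1, ∀ k j,
      |kv et 1 (pd k (fun y => scv r x (u t) y j)) y| ≤ r ^ 2 * S := by
    intro y hy k j
    rw [kv_scv hv, abs_mul, abs_of_nonneg (by positivity)]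
    refine mul_le_mul_of_nonneg_left (hS _ ?_ k j) (by positivity)
    rw [mem_ball_iff_norm, add_sub_cancel_left, norm_smul, Real.norm_of_nonneg hr.le]
    rw [mem_ball_zero_iff] at hy
    nlinarith
  have hcc : ∀ k, r * c k = ∫ w, th w * scv r x (u t) w k := by
    intro k
    rw [hc]
    unfold mol scv
    rw [← integral_const_mul]
    congr 1
    funext w
    ring
  have h5 := hU (scv r x (u t)) (scv_smooth hv) hdiv (1588 * (r * M)) (r ^ 2 * S) hN (by positivity)
    hS' (fun k => r * c k) hcc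
  have h6 : 1588 * (r * M) + r ^ 2 * S * (1588 * (r * M)) + (1588 * (r * M)) ^ 3
      ≤ 1588 ^ 3 * (r * M + r ^ 3 * (S * M) + (r * M) ^ 3) := by
    have a1 : 0 ≤ r * M := by positivity
    have a2 : 0 ≤ r ^ 3 * (S * M) := by positivity
    have a3 : r ^ 2 * S * (1588 * (r * M)) = 1588 * (r ^ 3 * (S * M)) := by ring
    rw [a3]
    nlinarith
  calc r ^ 3 * ((r ^ 6)⁻¹ * ∫ z, RR (scv r x (u t)) (fun k => r * c k) z * (kap z * kap z))
      ≤ r ^ 3 * ((r ^ 6)⁻¹ * (C * (1588 ^ 3 * (r * M + r ^ 3 * (S * M) + (r * M) ^ 3)))) := by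
        have h7 : ∫ z, RR (scv r x (u t)) (fun k => r * c k) z * (kap z * kap z)
            ≤ C * (1588 ^ 3 * (r * M + r ^ 3 * (S * M) + (r * M) ^ 3)) :=
          h5.trans (mul_le_mul_of_nonneg_left h6 (by linarith))
        gcongr
    _ = _ := by
        field_simp

end Pool.Agent.H946.NS
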