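import Pool.Agent.H946_NS.Conc

/-!
Concentration of the enstrophy at every singular point of a solution on a domain.
-/

set_option autoImplicit false

open MeasureTheory Set Metric Filter Topology
open scoped ContDiff ENNReal

namespace Pool.Agent.H946.NS

open H459R3.NS W221.NS Pool.Agent.W583.MD

/-- The vorticity. -/
noncomputable def vort (v : V → V) (x : V) : V :=
  ![pd 1 (fun y => v y 2) x - pd 2 (fun y => v y 1) x,
    pd 2 (fun y => v y 0) x - pd 0 (fun y => v y 2) x,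
    pd 0 (fun y => v y 1) x - pd 1 (fun y => v y 0) x]

/-- The square of the length of the vorticity. -/
noncomputable def vsq (v : V → V) (x : V) : ℝ := ∑ i, vort v x i ^ 2

theorem osq_vsq (v : V → V) (x : V) : osq v x = 2 * vsq v x := by
  unfold osq vsq vort om
  simp only [Fin.sum_univ_three, Matrix.cons_val_zero, Matrix.cons_val_one, Matrix.cons_val]
  ring

theorem vsq_nonneg (v : V → V) (x : V) : 0 ≤ vsq v x := Finset.sum_nonneg fun _ _ => sq_nonneg _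

theorem osq_congr {f g : V → V} {x : V} (h : f =ᶠ[𝓝 x] g) : osq f x = osq g x := by
  have h1 : ∀ j, (fun y => f y j) =ᶠ[𝓝 x] fun y => g y j := fun j => by
    filter_upwards [h] with y hy
    rw [hy]
  unfold osq om
  refine Finset.sum_congr rfl fun i _ => Finset.sum_congr rfl fun j _ => ?_
  rw [Pool.Agent.W349.MF.pd_congr' (h1 j) i, Pool.Agent.W349.MF.pd_congr' (h1 i) j]

theorem gsq_congr {f g : V → V} {x : V} (h : f =ᶠ[𝓝 x] g) : gsq f x = gsq g x := by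
  have h1 : ∀ j, (fun y => f y j) =ᶠ[𝓝 x] fun y => g y j := fun j => by
    filter_upwards [h] with y hy
    rw [hy]
  unfold gsq
  refine Finset.sum_congr rfl fun i _ => Finset.sum_congr rfl fun j _ => ?_
  rw [Pool.Agent.W349.MF.pd_congr' (h1 i) j]

/-- Viscosity one, on a domain. -/
theorem conc_O1 : ∃ c : ℝ, 0 < c ∧ ∀ (T E : ℝ) (Ω : Set V) (u : ℝ → V → V) (p : ℝ → V → ℝ),
    0 < T → OSol 1 T E Ω u p →
      (∫⁻ t in Ioo 0 T, ∫⁻ y in Ω, ENNReal.ofReal (gsq (u t) y) ≠ ⊤) →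
        ∀ x₀ ∈ Ω, Sing T u x₀ → ∀ η : ℝ, 0 < η →
        ∀ᶠ w in 𝓝[>] (0 : ℝ), ∀ r : ℝ, 0 < r → r ^ 3 ≤ 4 * (√w ^ 3 * Real.log (1 / w) ^ 2) →
          ∃ x ∈ ball x₀ η, ball x r ⊆ Ω ∩ ball x₀ η ∧ c * r ^ 3 / (w ^ 2 * Real.log (1 / w) ^ 2)
            < ∫ y in ball x r, osq (u (T - w)) y := by
  obtain ⟨c, hc, H⟩ := conc_all
  obtain ⟨Cω, hCω, hcount⟩ := omega_all B.p_omega1 B.p_osc
  refine ⟨c / 8, by positivity, ?_⟩
  intro T E Ω u p hT hu' hfin x₀ hx₀ hS η hη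
  have hu : OSol 1 T |E| Ω u p :=
    { hu' with en := fun t ht => by rw [sq_abs]; exact hu'.en t ht }
  have hE : 0 ≤ |E| := abs_nonneg E
  obtain ⟨ρ, hρ, hρΩ⟩ := Metric.isOpen_iff.1 hu.openO x₀ hx₀
  set η₁ := min η ρ / 2 with hη₁
  have hη₁0 : 0 < η₁ := by
    have := lt_min hη hρ
    positivity
  have hm : 0 < min η ρ := lt_min hη hρ
  have hη₁η : η₁ < η := by linarith [min_le_left η ρ]
  have hη₁ρ : η₁ < ρ := by linarith [min_le_right η ρ]
  have hKΩ : closedBall x₀ η₁ ⊆ Ω := (closedBall_subset_ball hη₁ρ).trans hρΩ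
  have hK : IsCompact (closedBall x₀ η₁) := isCompact_closedBall x₀ η₁
  obtain ⟨ζ, δ, hδ, hζ, hζc, hts, h01, h1, hOΩ⟩ :=
    Pool.Agent.W349.MF.cutoff hK hu.openO hKΩ
  obtain ⟨Bζ, hB0, hB⟩ := Pool.Agent.W349.MF.pd_bd hζ hζc
  set O : Set V := thickening δ (closedBall x₀ η₁) with hO
  have hOo : IsOpen O := isOpen_thickening
  have hKO : closedBall x₀ η₁ ⊆ O := self_subset_thickening hδ _
  have hL := Pool.Agent.W349.MF.cut_sol hE hu hζ hζc hts h01 hOo hOΩ h1 hB0 hB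
  have heq : ∀ t, ∀ x ∈ O, (fun y => ζ y • u t y) =ᶠ[𝓝 x] u t := by
    intro t x hx
    filter_upwards [hOo.mem_nhds hx] with y hy
    rw [h1 y hy, one_smul]
  have hSiff : ∀ z ∈ O, Sing T (fun t x => ζ x • u t x) z ↔ Sing T u z := by
    intro z hz
    obtain ⟨ρ', hρ', hρO⟩ := Metric.isOpen_iff.1 hOo z hz
    constructor
    · intro h ε hε M
      obtain ⟨t, ht, y, hy, hM⟩ := h (min ε ρ') (lt_min hε hρ') M
      refine ⟨t, ⟨by linarith [ht.1, min_le_left ε ρ'], ht.2⟩, y,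
        ball_subset_ball (min_le_left _ _) hy, ?_⟩
      have hyO : y ∈ O := hρO (ball_subset_ball (min_le_right _ _) hy)
      simp only [h1 y hyO, one_smul] at hM
      exact hM
    · intro h ε hε M
      obtain ⟨t, ht, y, hy, hM⟩ := h (min ε ρ') (lt_min hε hρ') M
      refine ⟨t, ⟨by linarith [ht.1, min_le_left ε ρ'], ht.2⟩, y,
        ball_subset_ball (min_le_left _ _) hy, ?_⟩
      have hyO : y ∈ O := hρO (ball_subset_ball (min_le_right _ _) hy)
      simp only [h1 y hyO, one_smul]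
      exact hM
  have hfin' : ∫⁻ t in Ioo 0 T, ∫⁻ y in O, ENNReal.ofReal (gsq (fun x => ζ x • u t x) y) ≠ ⊤ := by
    refine ne_top_of_le_ne_top hfin (lintegral_mono fun t => ?_)
    have h3 : ∫⁻ y in O, ENNReal.ofReal (gsq (fun x => ζ x • u t x) y) =
        ∫⁻ y in O, ENNReal.ofReal (gsq (u t) y) :=
      setLIntegral_congr_fun hOo.measurableSet fun y hy => by
        simp only [gsq_congr (heq t y hy)]
    rw [h3]
    exact lintegral_mono_set hOΩ
  -- radii without singular points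
  have hrad : ∀ a : ℝ, 0 < a → a ≤ η₁ → ∃ d₀ ∈ Ioo 0 a, ∀ z, dist z x₀ = d₀ →
      ¬ Sing T (fun t x => ζ x • u t x) z := by
    intro a ha haη
    obtain ⟨r₁, hr₁, hcnt⟩ := hcount 1 T |E| Ω u p one_pos hT hE hu _ hK hKΩ
    obtain ⟨d₀, hd₀, hd⟩ := radius_exists (Z := {z | z ∈ closedBall x₀ η₁ ∧ Sing T u z}) (by
      intro ε hε
      obtain ⟨r₂, hr₂, H2⟩ := tail_lint (c := 32 / 1) hT (by positivity) hfin
        (ε := ENNReal.ofReal (ε / (Cω / 1))) (ENNReal.ofReal_pos.2 (by positivity))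
      refine ⟨min r₁ r₂, lt_min hr₁ hr₂, ?_⟩
      intro r hr hrr S hSZ hsep
      obtain ⟨ha, hb⟩ := H2 r hr (hrr.trans_le (min_le_right _ _))
      have e : 32 / 1 * r ^ 2 = 32 * r ^ 2 / 1 := by ring
      rw [e] at ha hb
      have h5 := hcnt r hr (hrr.trans_le (min_le_left _ _)) S hSZ hsep
      have h6 := h5.trans (mul_le_mul_right hb _)
      rw [← ENNReal.ofReal_mul (by positivity)] at h6
      have h7 : Cω / 1 * (ε / (Cω / 1)) = ε := by field_simp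
      rw [h7] at h6
      exact (ENNReal.ofReal_le_ofReal_iff hε.le).1 h6) x₀ ha
    refine ⟨d₀, hd₀, fun z hz hzS => ?_⟩
    have hzK : z ∈ closedBall x₀ η₁ := by
      rw [mem_closedBall, hz]
      exact hd₀.2.le.trans haη
    exact hd z ⟨hzK, (hSiff z (hKO hzK)).1 hzS⟩ hz
  have key := H T (2 * Bζ * |E|) |E| O (fun t x => ζ x • u t x) (fun t x => ζ x * p t x) hT
    (by positivity) hE hL x₀ (η₁ / 2) (by positivity)
    ((closedBall_subset_closedBall (by linarith)).trans hKO)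
    ((hSiff x₀ (hKO (mem_closedBall_self hη₁0.le))).2 hS) hfin'
    (fun a ha haη => hrad a ha (by linarith))
  have f3 : ∀ᶠ w : ℝ in 𝓝[>] 0, 4 * (1 * √w * (√w * (√w * Real.log (1 / w) ^ 2)))
      < (η₁ / 2) ^ 3 := by
    have h1 : Tendsto (fun w : ℝ => 4 * (1 * √w * (√w * (√w * Real.log (1 / w) ^ 2))))
        (𝓝[>] 0) (𝓝 (4 * (0 * (0 * 0)))) := by
      refine ((lim_sq 1).mul (Tendsto.mul ?_ lim_slog)).const_mul 4
      have := lim_sq 1
      simpa using this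
    simp only [mul_zero] at h1
    exact h1.eventually_lt_const (by positivity)
  have f1 : ∀ᶠ w : ℝ in 𝓝[>] 0, 1 * w < T := (lim_id 1).eventually_lt_const hT
  filter_upwards [key, f3, f1, self_mem_nhdsWithin] with w g1 g3 g4 hw0 r hr hr3
  have hw : (0 : ℝ) < w := hw0
  set L := Real.log (1 / w) with hLdef
  have hrη : r < η₁ / 2 := by
    have h2 : r ^ 3 < (η₁ / 2) ^ 3 := by
      calc r ^ 3 ≤ 4 * (√w ^ 3 * L ^ 2) := hr3
        _ = 4 * (1 * √w * (√w * (√w * L ^ 2))) := by ring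
        _ < (η₁ / 2) ^ 3 := g3
    exact (pow_lt_pow_iff_left₀ hr.le (by positivity) three_ne_zero).1 h2
  obtain ⟨x, hx, hxr, hlt⟩ := g1 (r / 2) (by positivity) (by
    have e : (r / 2) ^ 3 = r ^ 3 / 8 := by ring
    rw [e]
    have : 0 ≤ √w ^ 3 * L ^ 2 := by positivity
    linarith)
  have hxin : ball x r ⊆ ball x₀ η₁ := by
    intro y hy
    rw [mem_ball] at hx hy ⊢
    linarith [dist_triangle y x x₀]
  have hxO : ball x r ⊆ O := hxin.trans (ball_subset_closedBall.trans hKO)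
  refine ⟨x, ball_subset_ball (by linarith) hx, fun y hy => ⟨hOΩ (hxO hy),
    ball_subset_ball hη₁η.le (hxin hy)⟩, ?_⟩
  have ht : T - w ∈ Ioo 0 T := ⟨by linarith, by linarith⟩
  have hsm := hL.smooth_u
  have hv : ContDiff ℝ ∞ (fun x => ζ x • u (T - w) x) :=
    W382.ME.cd_slice (u := fun t x => ζ x • u t x) hsm ht
  have e : ∫ y in ball x r, osq (u (T - w)) y
      = ∫ y in ball x r, osq (fun x => ζ x • u (T - w) x) y :=
    setIntegral_congr_fun measurableSet_ball fun y hy => (osq_congr (heq (T - w) y (hxO hy))).symm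
  rw [e]
  refine lt_of_le_of_lt (le_of_eq ?_) (hlt.trans_le (ball_mono (osq_smooth hv).continuous
    (osq_nonneg _) (ball_subset_ball (by linarith))))
  ring

theorem osq_smul (c : ℝ) (v : V → V) (x : V) : osq (fun x => c • v x) x = c ^ 2 * osq v x := by
  have h : ∀ i j, pd i (fun y => (c • v y) j) x = c * pd i (fun y => v y j) x := by
    intro i j
    unfold pd
    have e : (fun y => (c • v y) j) = c • fun y => v y j := by
      funext y
      simp
    rw [e, fderiv_const_smul_field]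
    simp
  unfold osq om
  rw [Finset.mul_sum]
  refine Finset.sum_congr rfl fun i _ => ?_
  rw [Finset.mul_sum]
  refine Finset.sum_congr rfl fun j _ => ?_
  rw [h i j, h j i]
  ring

/-- General viscosity. -/
theorem conc_nu : ∃ c : ℝ, 0 < c ∧ ∀ (ν T E : ℝ) (Ω : Set V) (u : ℝ → V → V) (p : ℝ → V → ℝ),
    0 < ν → 0 < T → OSol ν T E Ω u p →
      (∫⁻ t in Ioo 0 T, ∫⁻ y in Ω, ENNReal.ofReal (gsq (u t) y) ≠ ⊤) →
        ∀ x₀ ∈ Ω, Sing T u x₀ → ∀ η : ℝ, 0 < η → ∃ δ : ℝ, 0 < δ ∧ ∀ t ∈ Ioo (T - δ) T,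
        ∀ r : ℝ, 0 < r → r ^ 3 ≤ √(ν * (T - t)) ^ 3 * Real.log (1 / (T - t)) ^ 2 →
          ∃ x ∈ ball x₀ η, ball x r ⊆ Ω ∩ ball x₀ η ∧
            c * r ^ 3 / ((T - t) ^ 2 * Real.log (1 / (T - t)) ^ 2)
              < ∫ y in ball x r, vsq (u t) y := by
  obtain ⟨c, hc, H⟩ := conc_O1
  refine ⟨c / 8, by positivity, ?_⟩
  intro ν T E Ω u p hν hT hu hfin x₀ hx₀ hS η hη
  have h2 := B.p_osc ν T E Ω u p hν hu
  have hfin' : ∫⁻ t in Ioo 0 (ν * T), ∫⁻ y in Ω,
      ENNReal.ofReal (gsq (fun x => ν⁻¹ • u (t / ν) x) y) ≠ ⊤ := by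
    have e1 : ∀ t, ∫⁻ y in Ω, ENNReal.ofReal (gsq (fun x => ν⁻¹ • u (t / ν) x) y)
        = ENNReal.ofReal (ν⁻¹ ^ 2) * ∫⁻ y in Ω, ENNReal.ofReal (gsq (u (t / ν)) y) := by
      intro t
      rw [← lintegral_const_mul' _ _ ENNReal.ofReal_ne_top]
      refine lintegral_congr fun y => ?_
      rw [W221.NS.gsq_smul, ENNReal.ofReal_mul (by positivity)]
    simp_rw [e1]
    rw [lintegral_const_mul' _ _ ENNReal.ofReal_ne_top]
    refine ENNReal.mul_ne_top ENNReal.ofReal_ne_top ?_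
    have h3 := lint_scale hν (fun t => ∫⁻ y in Ω, ENNReal.ofReal (gsq (u t) y)) 0 T
    rw [mul_zero] at h3
    rw [h3]
    exact ENNReal.mul_ne_top ENNReal.ofReal_ne_top hfin
  have hS' : Sing (ν * T) (fun t x => ν⁻¹ • u (t / ν) x) x₀ := by
    intro δ hδ M
    obtain ⟨t, ht, y, hy, hM⟩ := hS (min δ (δ / ν)) (lt_min hδ (by positivity)) (ν * M)
    refine ⟨ν * t, ⟨?_, ?_⟩, y, ball_subset_ball (min_le_left _ _) hy, ?_⟩
    · have h3 : T - δ / ν < t := by linarith [ht.1, min_le_right δ (δ / ν)]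
      have h4 : ν * (T - δ / ν) < ν * t := mul_lt_mul_of_pos_left h3 hν
      have h5 : ν * (T - δ / ν) = ν * T - δ := by field_simp
      linarith
    · exact mul_lt_mul_of_pos_left ht.2 hν
    · have e : ν * t / ν = t := by field_simp
      simp only [e]
      rw [norm_smul, Real.norm_eq_abs, abs_of_pos (by positivity), inv_mul_eq_div,
        lt_div_iff₀ hν, mul_comm]
      exact hM
  have key := H (ν * T) (E / ν) Ω (fun t x => ν⁻¹ • u (t / ν) x)
    (fun t x => (ν ^ 2)⁻¹ * p (t / ν) x) (by positivity) h2 hfin' x₀ hx₀ hS' η hη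
  have htend : Tendsto (fun w : ℝ => ν * w) (𝓝[>] 0) (𝓝[>] 0) := by
    refine tendsto_nhdsWithin_iff.2 ⟨lim_id ν, ?_⟩
    filter_upwards [self_mem_nhdsWithin] with w hw
    have hw' : (0 : ℝ) < w := hw
    exact mul_pos hν hw'
  have key2 := htend.eventually key
  have hall := (key2.and (ev_log (2 * |Real.log ν| + 1))).and self_mem_nhdsWithin
  obtain ⟨δ, hδ, hsub⟩ := mem_nhdsGT_iff_exists_Ioo_subset.1 hall
  have hδ0 : (0 : ℝ) < δ := hδ
  refine ⟨δ, hδ0, ?_⟩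
  intro t ht r hr hr3
  have hmem : T - t ∈ Ioo 0 δ := ⟨by linarith [ht.2], by linarith [ht.1]⟩
  obtain ⟨⟨k1, k2⟩, -⟩ := hsub hmem
  set w := T - t with hw
  have hw0 : 0 < w := hmem.1
  set L := Real.log (1 / w) with hL
  have hlog : Real.log (1 / (ν * w)) = L - Real.log ν := by
    rw [hL, one_div, one_div, Real.log_inv, Real.log_inv, Real.log_mul hν.ne' hw0.ne']
    ring
  have ha := abs_nonneg (Real.log ν)
  have hb := le_abs_self (Real.log ν)
  have hc' := neg_abs_le (Real.log ν)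
  have hL1 : 1 ≤ L := by linarith
  set L₁ := Real.log (1 / (ν * w)) with hL₁
  have hLL : L ≤ 2 * L₁ := by
    rw [hlog]
    linarith
  have hLL2 : L₁ ≤ 2 * L := by
    rw [hlog]
    linarith
  have hL₁0 : 0 < L₁ := by linarith
  obtain ⟨x, hx, hxr, hlt⟩ := k1 r hr (by
    refine hr3.trans ?_
    have h3 : L ^ 2 ≤ 4 * L₁ ^ 2 := by
      calc L ^ 2 ≤ (2 * L₁) ^ 2 := pow_le_pow_left₀ (by linarith) hLL 2
        _ = _ := by ring
    calc √(ν * w) ^ 3 * L ^ 2 ≤ √(ν * w) ^ 3 * (4 * L₁ ^ 2) := by gcongr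
      _ = _ := by ring)
  refine ⟨x, hx, hxr, ?_⟩
  have et : (ν * T - ν * w) / ν = t := by
    rw [hw]
    field_simp
    ring
  simp only [et] at hlt
  simp_rw [osq_smul, osq_vsq] at hlt
  rw [integral_const_mul, integral_const_mul] at hlt
  set I := ∫ y in ball x r, vsq (u t) y with hI
  have h4 : c * r ^ 3 / ((ν * w) ^ 2 * (2 * L) ^ 2) ≤ c * r ^ 3 / ((ν * w) ^ 2 * L₁ ^ 2) := by
    gcongr
  have h5 : c * r ^ 3 / ((ν * w) ^ 2 * (2 * L) ^ 2) < ν⁻¹ ^ 2 * (2 * I) := h4.trans_lt hlt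
  have h6 : c / 8 * r ^ 3 / (w ^ 2 * L ^ 2)
      = (c * r ^ 3 / ((ν * w) ^ 2 * (2 * L) ^ 2)) * (ν ^ 2 / 2) := by
    field_simp
    ring
  have h7 : ν⁻¹ ^ 2 * (2 * I) * (ν ^ 2 / 2) = I := by
    field_simp
  calc c / 8 * r ^ 3 / (w ^ 2 * L ^ 2) = (c * r ^ 3 / ((ν * w) ^ 2 * (2 * L) ^ 2)) * (ν ^ 2 / 2) := h6
    _ < ν⁻¹ ^ 2 * (2 * I) * (ν ^ 2 / 2) := mul_lt_mul_of_pos_right h5 (by positivity)
    _ = I := h7

end Pool.Agent.H946.NS
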