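import Pool.Agent.H946_NS.E4

/-!
The gradient of one component of the velocity in terms of the components of the vorticity
orthogonal to it.
-/

set_option autoImplicit false

open MeasureTheory Set Metric Filter Topology
open scoped ContDiff ENNReal

namespace Pool.Agent.H946.NS

open H459R3.NS W221.NS Pool.Agent.W583.MD

variable {κ : V → ℝ}

/-- The components of the vorticity orthogonal to `a` (rotated). -/
noncomputable def pe (a : V) (v : V → V) (i : Fin 3) (x : V) : ℝ := ∑ j, a j * om v i j x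

theorem pe_smooth {a : V} {v : V → V} (hv : ContDiff ℝ ∞ v) (i : Fin 3) :
    ContDiff ℝ ∞ (pe a v i) := by
  unfold pe
  exact ContDiff.sum fun j _ => contDiff_const.mul (om_smooth hv i j)

theorem pe_sq (a : V) (v : V → V) (x : V) : ∑ i, pe a v i x ^ 2 = xsq (vort v x) a := by
  unfold pe xsq vort om
  simp only [Fin.sum_univ_three, Matrix.cons_val_zero, Matrix.cons_val_one, Matrix.cons_val]
  ring

theorem Bf_cmul (i : Fin 3) (c : ℝ) (f : V → ℝ) (x : V) :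
    Bf i (fun y => c * f y) x = c * Bf i f x := by
  unfold Bf
  rw [← integral_const_mul]
  refine integral_congr_ae (Eventually.of_forall fun ρ => ?_)
  simp only [kv]
  rw [← integral_const_mul]
  refine integral_congr_ae (Eventually.of_forall fun z => ?_)
  simp only
  ring

theorem pd_pe {a : V} {v : V → V} (hv : ContDiff ℝ ∞ v) (i k : Fin 3) :
    pd k (pe a v i) = fun y => (a 0 * pd k (om v i 0) y + a 1 * pd k (om v i 1) y)
      + a 2 * pd k (om v i 2) y := by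
  funext y
  have h1 : pe a v i = fun x => ∑ j, a j * om v i j x := rfl
  rw [h1, pd_sum3 (f := fun j x => a j * om v i j x)
    (fun j => contDiff_const.mul (om_smooth hv i j)) k y]
  have h2 : ∀ j, pd k (fun x => a j * om v i j x) y = a j * pd k (om v i j) y := fun j =>
    Pool.Agent.W135.MD.pd_cmul (Pool.Agent.W135.MD.sm_diff (om_smooth hv i j)) (a j) k y
  simp only [h2, Fin.sum_univ_three]

theorem Bf_pe {a : V} {v : V → V} (hv : ContDiff ℝ ∞ v) (i k : Fin 3) (x : V) :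
    Bf i (pd k (pe a v i)) x = ∑ j, a j * Bf i (pd k (om v i j)) x := by
  have hs : ∀ j, ContDiff ℝ ∞ (fun y => a j * pd k (om v i j) y) := fun j =>
    contDiff_const.mul (sm_pd (om_smooth hv i j) k)
  rw [pd_pe hv i k, Bf_add i ((hs 0).add (hs 1)) (hs 2), Bf_add i (hs 0) (hs 1), Bf_cmul,
    Bf_cmul, Bf_cmul, Fin.sum_univ_three]

/-- The gradient of the component of `bb v` in the direction `a`. -/
theorem ax_grad {a : V} {v : V → V} (hs : ContDiff ℝ ∞ v) {x : V}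
    (hd : ∀ y ∈ ball x 1, dv v y = 0) (k : Fin 3) :
    ∑ j, a j * pd k (fun y => bb v y j) x = -∑ i, Bf i (pd k (pe a v i)) x := by
  have h1 : ∀ j, pd k (fun y => bb v y j) x = -∑ i, Bf i (pd k (om v i j)) x := by
    intro j
    rw [pd_bb hs k j x, grad_rep hs hd k j]
    ring
  simp_rw [h1, Bf_pe hs]
  simp only [Fin.sum_univ_three]
  ring

theorem ax_L2 : ∃ C : ℝ, 1 ≤ C ∧ ∀ (a : V) (v : V → V), ContDiff ℝ ∞ v →
    (∀ y ∈ ball (0 : V) 8, dv v y = 0) →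
      ∫ x in ball (0 : V) 1, ∑ k, (∑ j, a j * pd k (fun y => bb v y j) x) ^ 2
        ≤ C * ∫ x in ball (0 : V) 5, xsq (vort v x) a := by
  obtain ⟨C, hC, h⟩ := low_L2
  refine ⟨9 * C, by linarith, fun a v hv hd => ?_⟩
  have hbs : ∀ i k, ContDiff ℝ ∞ (Bf i (pd k (pe a v i))) := fun i k =>
    Bf_smooth i (sm_pd (pe_smooth hv i) k)
  have h1 : ∀ x ∈ ball (0 : V) 1, ∑ k, (∑ j, a j * pd k (fun y => bb v y j) x) ^ 2
      ≤ ∑ k, ∑ i, 3 * Bf i (pd k (pe a v i)) x ^ 2 := by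
    intro x hx
    refine Finset.sum_le_sum fun k _ => ?_
    rw [ax_grad hv (fun y hy => hd y (by
      rw [mem_ball_zero_iff] at hx ⊢
      rw [mem_ball_iff_norm] at hy
      have : ‖y‖ ≤ ‖y - x‖ + ‖x‖ := by
        simpa using norm_add_le (y - x) x
      linarith)) k]
    simp only [Fin.sum_univ_three]
    nlinarith [sq_nonneg (Bf 0 (pd k (pe a v 0)) x - Bf 1 (pd k (pe a v 1)) x),
      sq_nonneg (Bf 0 (pd k (pe a v 0)) x - Bf 2 (pd k (pe a v 2)) x),
      sq_nonneg (Bf 1 (pd k (pe a v 1)) x - Bf 2 (pd k (pe a v 2)) x)]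
  have hc1 : Continuous fun x => ∑ k, (∑ j, a j * pd k (fun y => bb v y j) x) ^ 2 :=
    continuous_finsetSum _ fun k _ => (continuous_finsetSum _ fun j _ =>
      continuous_const.mul (sm_pd (sm_comp (bb_smooth hv) j) k).continuous).pow 2
  have hc2 : ∀ k i, Continuous fun x => 3 * Bf i (pd k (pe a v i)) x ^ 2 := fun k i =>
    continuous_const.mul ((hbs i k).continuous.pow 2)
  have hc3 : Continuous fun x => ∑ k, ∑ i, 3 * Bf i (pd k (pe a v i)) x ^ 2 :=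
    continuous_finsetSum _ fun k _ => continuous_finsetSum _ fun i _ => hc2 k i
  refine (setIntegral_mono_on (int_ball hc1 0 1) (int_ball hc3 0 1) measurableSet_ball h1).trans ?_
  rw [integral_finsetSum _ fun k _ =>
    int_ball (continuous_finsetSum _ fun i _ => hc2 k i) 0 1]
  have h2 : ∀ k, ∫ x in ball (0 : V) 1, ∑ i, 3 * Bf i (pd k (pe a v i)) x ^ 2
      ≤ 3 * C * ∫ x in ball (0 : V) 5, xsq (vort v x) a := by
    intro k
    rw [integral_finsetSum _ fun i _ => int_ball (hc2 k i) 0 1]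
    have h3 : ∀ i, ∫ x in ball (0 : V) 1, 3 * Bf i (pd k (pe a v i)) x ^ 2
        ≤ 3 * (C * ∫ x in ball (0 : V) 5, pe a v i x ^ 2) := by
      intro i
      rw [integral_const_mul]
      exact mul_le_mul_of_nonneg_left (h _ (pe_smooth hv i) i k) (by norm_num)
    refine (Finset.sum_le_sum fun i _ => h3 i).trans (le_of_eq ?_)
    have h4 : ∫ x in ball (0 : V) 5, xsq (vort v x) a
        = ∑ i, ∫ x in ball (0 : V) 5, pe a v i x ^ 2 := by
      have h5 : ∀ i ∈ (Finset.univ : Finset (Fin 3)),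
          IntegrableOn (fun x : V => pe a v i x ^ 2) (ball 0 5) := fun i _ =>
        int_ball ((pe_smooth hv i).continuous.pow 2) 0 5
      rw [← integral_finsetSum _ h5]
      refine integral_congr_ae (Eventually.of_forall fun x => ?_)
      exact (pe_sq a v x).symm
    rw [h4, Finset.mul_sum]
    refine Finset.sum_congr rfl fun i _ => ?_
    ring
  refine (Finset.sum_le_sum fun k _ => h2 k).trans (le_of_eq ?_)
  simp only [Fin.sum_univ_three]
  ring

/-- The stretching term at a point. -/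
theorem pt_ax {a : V} (ha : ∑ j, a j ^ 2 = 1) {v : V → V} (hs : ContDiff ℝ ∞ v)
    (hd : ∀ y ∈ ball (0 : V) 8, dv v y = 0) {S : ℝ} (hS0 : 0 ≤ S)
    (hS : ∀ x ∈ ball (0 : V) 1, ∀ k j, |kv et 1 (pd k (fun y => v y j)) x| ≤ S) {z : V}
    (hz : z ∈ ball (0 : V) 1) :
    -str v z ≤ 6 * S * osq v z
      + 2 * (osq v z * √(∑ k, (∑ j, a j * pd k (fun y => bb v y j) z) ^ 2))
      + 4 * (√(xsq (vort v z) a) * √(osq v z * gsq (bb v) z)) := by
  have hvs := vsq_nonneg v z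
  have hov := osq_vsq v z
  have hdz : dv v z = 0 := hd z (ball_subset_ball (by norm_num) hz)
  have e0 : -str v z = 4 * ∑ j, ∑ k, vort v z j * vort v z k * pd k (fun y => v y j) z := by
    rw [str_vort, hdz]
    ring
  set w := bb v with hw
  have e1 : ∀ j k, pd k (fun y => v y j) z = kv et 1 (pd k (fun y => v y j)) z
      + pd k (fun y => w y j) z := by
    intro j k
    rw [hw, pd_bb hs k j z]
    ring
  have e2 : ∑ j, ∑ k, vort v z j * vort v z k * pd k (fun y => v y j) z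
      = (∑ j, ∑ k, vort v z j * vort v z k * kv et 1 (pd k (fun y => v y j)) z)
        + ∑ j, ∑ k, vort v z j * vort v z k * pd k (fun y => w y j) z := by
    simp_rw [e1]
    simp only [Fin.sum_univ_three]
    ring
  have b1 : |∑ j, ∑ k, vort v z j * vort v z k * kv et 1 (pd k (fun y => v y j)) z|
      ≤ 3 * (S * vsq v z) := quad_le v z hS0 fun j k => hS z hz k j
  set o := vort v z with ho
  set D : Fin 3 → Fin 3 → ℝ := fun j k => pd k (fun y => w y j) z with hD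
  set t := ∑ j, o j * a j with ht
  set m : Fin 3 → ℝ := fun j => o j - t * a j with hm
  set g : Fin 3 → ℝ := fun k => ∑ j, a j * D j k with hg
  have e3 : ∑ j, ∑ k, o j * o k * D j k = t * (∑ k, o k * g k) + ∑ j, ∑ k, m j * o k * D j k := by
    simp only [hm, hg, Fin.sum_univ_three]
    ring
  have hvsq : vsq v z = ∑ j, o j ^ 2 := rfl
  have hms : ∑ j, m j ^ 2 = xsq o a := by
    have h1 : xsq o a = (∑ j, o j ^ 2) * (∑ j, a j ^ 2) - t ^ 2 := by
      simp only [xsq, ht, Fin.sum_univ_three]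
      ring
    have h2 : ∑ j, m j ^ 2 = (∑ j, o j ^ 2) - 2 * t * t + t ^ 2 * ∑ j, a j ^ 2 := by
      simp only [hm, ht, Fin.sum_univ_three]
      ring
    rw [h1, h2, ha]
    ring
  have ht2 : t ^ 2 ≤ vsq v z := by
    have h1 := xsq_nonneg o a
    have h2 : xsq o a = (∑ j, o j ^ 2) * (∑ j, a j ^ 2) - t ^ 2 := by
      simp only [xsq, ht, Fin.sum_univ_three]
      ring
    rw [ha, mul_one, ← hvsq] at h2
    linarith
  have c1 : (∑ k, o k * g k) ^ 2 ≤ vsq v z * ∑ k, g k ^ 2 := by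
    rw [hvsq]
    exact Finset.sum_mul_sq_le_sq_mul_sq _ _ _
  have c2 : t * (∑ k, o k * g k) ≤ vsq v z * √(∑ k, g k ^ 2) := by
    have hG0 : 0 ≤ ∑ k, g k ^ 2 := Finset.sum_nonneg fun _ _ => sq_nonneg _
    refine (le_abs_self _).trans (abs_le_of_sq_le_sq ?_ (by positivity))
    rw [mul_pow, mul_pow, Real.sq_sqrt hG0, sq (vsq v z), mul_assoc]
    exact mul_le_mul ht2 c1 (sq_nonneg _) hvs
  have c3 : ∑ j, ∑ k, m j * o k * D j k ≤ √(xsq o a) * √(vsq v z * gsq w z) := by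
    have hx := xsq_nonneg o a
    have hgg := gsq_nonneg w z
    refine (le_abs_self _).trans (abs_le_of_sq_le_sq ?_ (by positivity))
    rw [mul_pow, Real.sq_sqrt hx, Real.sq_sqrt (by positivity), ← hms, hvsq]
    have h1 : ∑ j, ∑ k, m j * o k * D j k = ∑ j, m j * ∑ k, o k * D j k := by
      refine Finset.sum_congr rfl fun j _ => ?_
      rw [Finset.mul_sum]
      refine Finset.sum_congr rfl fun k _ => ?_
      ring
    rw [h1]
    refine (Finset.sum_mul_sq_le_sq_mul_sq _ _ _).trans (mul_le_mul_of_nonneg_left ?_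
      (Finset.sum_nonneg fun _ _ => sq_nonneg _))
    have h2 : gsq w z = ∑ j, ∑ k, D j k ^ 2 := rfl
    rw [h2, Finset.mul_sum]
    exact Finset.sum_le_sum fun j _ => Finset.sum_mul_sq_le_sq_mul_sq _ _ _
  have c4 : √(vsq v z * gsq w z) ≤ √(osq v z * gsq w z) := by
    refine Real.sqrt_le_sqrt (mul_le_mul_of_nonneg_right ?_ (gsq_nonneg w z))
    linarith
  have c5 := mul_le_mul_of_nonneg_left c4 (Real.sqrt_nonneg (xsq o a))
  rw [e0, e2]
  have a1 := (abs_le.1 b1).2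
  have e4 : ∑ j, ∑ k, o j * o k * pd k (fun y => w y j) z = ∑ j, ∑ k, o j * o k * D j k := rfl
  rw [e4, e3]
  have e5 : (∑ k, (∑ j, a j * pd k (fun y => w y j) z) ^ 2) = ∑ k, g k ^ 2 := rfl
  rw [e5]
  have e6 : 4 * (3 * (S * vsq v z)) = 6 * S * osq v z := by
    rw [hov]
    ring
  have e7 : 2 * (osq v z * √(∑ k, g k ^ 2)) = 4 * (vsq v z * √(∑ k, g k ^ 2)) := by
    rw [hov]
    ring
  rw [e7]
  linarith

theorem ax1 {Ca C4 N X P p : ℝ} (hCa : 1 ≤ Ca) (hC4 : 1 ≤ C4) (hN : 0 ≤ N) (hp : 0 ≤ p)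
    (hX : 0 ≤ X) (hP : 0 ≤ P) (hP4 : P ^ 4 ≤ C4 * N * X ^ 3) :
    2 * (P * √(Ca * p)) ≤ X / 3 + 432 * C4 * Ca ^ 2 * (p ^ 2 * N) := by
  refine pow_mix 3 1 (by positivity) (by positivity) (by norm_num) ?_ (by positivity)
  have e1 : (2 * (P * √(Ca * p))) ^ (3 + 1) = 16 * P ^ 4 * (√(Ca * p) ^ 2) ^ 2 := by ring
  rw [e1, Real.sq_sqrt (by positivity)]
  calc 16 * P ^ 4 * (Ca * p) ^ 2 ≤ 16 * (C4 * N * X ^ 3) * (Ca * p) ^ 2 := by gcongr
    _ = _ := by ring

theorem ax2 {Cg C4 N X P R p : ℝ} (hCg : 1 ≤ Cg) (hC4 : 1 ≤ C4) (hN : 0 ≤ N) (hp : 0 ≤ p)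
    (hX : 0 ≤ X) (hP : 0 ≤ P) (hR : 0 ≤ R) (hP4 : P ^ 4 ≤ C4 * N * X ^ 3)
    (hR4 : R ^ 4 ≤ Cg * N * X ^ 3) :
    4 * (√p * √(P * R)) ≤ X / 3 + 6912 * (C4 * Cg) * (p ^ 2 * N) := by
  refine pow_mix 3 1 (by positivity) (by positivity) (by norm_num) ?_ (by positivity)
  have e1 : (4 * (√p * √(P * R))) ^ (3 + 1) = 256 * (√p ^ 2) ^ 2 * (√(P * R) ^ 2) ^ 2 := by ring
  rw [e1, Real.sq_sqrt hp, Real.sq_sqrt (by positivity)]
  have h1 : (P * R) ^ 2 ≤ C4 * Cg * (N * X ^ 3) := by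
    have h2 : ((P * R) ^ 2) ^ 2 ≤ (C4 * Cg * (N * X ^ 3)) ^ 2 := by
      calc ((P * R) ^ 2) ^ 2 = P ^ 4 * R ^ 4 := by ring
        _ ≤ (C4 * N * X ^ 3) * (Cg * N * X ^ 3) := by gcongr
        _ = 1 * (C4 * Cg) * (N * X ^ 3) ^ 2 := by ring
        _ ≤ (C4 * Cg) * (C4 * Cg) * (N * X ^ 3) ^ 2 := by
          have : 1 ≤ C4 * Cg := one_le_mul_of_one_le_of_one_le hC4 hCg
          gcongr
        _ = _ := by ring
    exact abs_le_of_sq_le_sq' h2 (by positivity) |>.2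
  calc 256 * p ^ 2 * (P * R) ^ 2 ≤ 256 * p ^ 2 * (C4 * Cg * (N * X ^ 3)) := by gcongr
    _ = _ := by ring

/-- The numbers. -/
theorem closure_ax {M Cb C4 Cg Kt Ca : ℝ} (hM : 1 ≤ M) (hCb : 1 ≤ Cb) (hC4 : 1 ≤ C4)
    (hCg : 1 ≤ Cg) (hKt : 0 ≤ Kt) (hCa : 1 ≤ Ca) :
    ∃ C : ℝ, 1 ≤ C ∧ ∀ N S p D P R : ℝ, 0 ≤ N → 0 ≤ S → 0 ≤ p → 0 ≤ D → 0 ≤ P → 0 ≤ R →
      P ^ 4 ≤ C4 * N * (D + N) ^ 3 → R ^ 4 ≤ Cg * N * (D + N) ^ 3 →
          -2 * D + 6 * M * (√(P * (Cb * N)) * √N) + 6 * M * ((6 * S + √(Kt * (Cb * N))) * N)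
          + 6 * S * N + 2 * (P * √(Ca * p)) + 4 * (√p * √(P * R))
            ≤ C * ((1 + S + p ^ 2) * N + N ^ 2) := by
  set A1 := 27 * (6 * M) ^ 8 * Cb ^ 4 * C4 with hA1
  set A2 := 6 * M * (1 + Kt * Cb) with hA2
  set A3 := 432 * C4 * Ca ^ 2 with hA3
  set A4 := 6912 * (C4 * Cg) with hA4
  have p1 : 0 ≤ A1 := by positivity
  have p2 : 0 ≤ A2 := by positivity
  have p3 : 0 ≤ A3 := by positivity
  have p4 : 0 ≤ A4 := by positivity
  refine ⟨1 + A1 + 36 * M + A2 + 6 + A3 + A4, by linarith, ?_⟩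
  intro N S p D P R hN hS hp hD hP hR hP4 hR4
  have h1 := cf1 hM hCb hC4 hN (by linarith : 0 ≤ D + N) hP hP4
  have h2 := cf2 (S := S) hM hCb hKt hN
  have h3 := ax1 hCa hC4 hN hp (by linarith : 0 ≤ D + N) hP hP4
  have h4 := ax2 hCg hC4 hN hp (by linarith : 0 ≤ D + N) hP hR hP4 hR4
  rw [← hA1] at h1
  rw [← hA2] at h2
  rw [← hA3] at h3
  rw [← hA4] at h4
  have q1 : 0 ≤ S * N := by positivity
  have q2 : 0 ≤ p ^ 2 * N := by positivity
  have q3 : 0 ≤ N ^ 2 := by positivity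
  set Z := (1 + S + p ^ 2) * N + N ^ 2 with hZ
  have z1 : N + N ^ 2 ≤ Z := by rw [hZ]; linarith
  have z2 : S * N ≤ Z := by rw [hZ]; linarith
  have z3 : p ^ 2 * N ≤ Z := by rw [hZ]; linarith
  have z7 : N ≤ Z := by rw [hZ]; linarith
  have w1 : A1 * (N + N ^ 2) ≤ A1 * Z := mul_le_mul_of_nonneg_left z1 p1
  have w2 : A2 * (N + N ^ 2) ≤ A2 * Z := mul_le_mul_of_nonneg_left z1 p2
  have w3 : A3 * (p ^ 2 * N) ≤ A3 * Z := mul_le_mul_of_nonneg_left z3 p3
  have w4 : A4 * (p ^ 2 * N) ≤ A4 * Z := mul_le_mul_of_nonneg_left z3 p4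
  have w5 : 36 * M * (S * N) ≤ 36 * M * Z := mul_le_mul_of_nonneg_left z2 (by positivity)
  have w8 : 6 * S * N ≤ 6 * Z := by linarith
  have e : (1 + A1 + 36 * M + A2 + 6 + A3 + A4) * Z
      = Z + A1 * Z + 36 * M * Z + A2 * Z + 6 * Z + A3 * Z + A4 * Z := by
    ring
  rw [e]
  linarith

end Pool.Agent.H946.NS
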