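import Pool.Agent.H946_NS.G1

/-!
The local enstrophy inequality at the unit scale in terms of the vorticity orthogonal to an axis.
-/

set_option autoImplicit false

open MeasureTheory Set Metric Filter Topology
open scoped ContDiff ENNReal

namespace Pool.Agent.H946.NS

open H459R3.NS W221.NS Pool.Agent.W583.MD

variable {κ : V → ℝ}

theorem unit_ax (hκ : Cut κ) : ∃ C : ℝ, 1 ≤ C ∧ ∀ v : V → V, ContDiff ℝ ∞ v →
    (∀ y ∈ ball (0 : V) 8, dv v y = 0) → ∀ (N S p : ℝ) (a : V), ∑ j, a j ^ 2 = 1 →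
      ∫ x in ball (0 : V) 8, osq v x ≤ N → 0 ≤ S →
      (∀ x ∈ ball (0 : V) 1, ∀ k j, |kv et 1 (pd k (fun y => v y j)) x| ≤ S) →
      ∫ x in ball (0 : V) 5, xsq (vort v x) a ≤ p →
        ∫ z, RR v 0 z * (κ z * κ z) ≤ C * ((1 + S + p ^ 2) * N + N ^ 2)
          + (∫ z in ball (0 : V) 1, osq v z * lap (fun z : V => κ z * κ z) z)
          + ∑ k, (∫ w, th w * v w k)
            * ∫ z in ball (0 : V) 1, osq v z * pd k (fun z : V => κ z * κ z) z := by
  obtain ⟨M, hM1, hM⟩ := hκ.bound
  obtain ⟨Cb, hCb, hbb⟩ := bb_bounds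
  obtain ⟨C4, hC4, hom4⟩ := om_fourK hκ
  obtain ⟨Cg, hCg, hgb4⟩ := gb_four hκ
  obtain ⟨Ca, hCa, hax⟩ := ax_L2
  have hKt := Kt_nonneg
  have hK0 := K0_nonneg
  obtain ⟨C, hC, hnum⟩ := closure_ax hM1 hCb hC4 hCg hKt hCa
  refine ⟨C, hC, ?_⟩
  intro v hv hd N S p a ha hN hS0 hS hp
  have hN0 : 0 ≤ N := (integral_nonneg fun x => osq_nonneg v x).trans hN
  have hp0 : 0 ≤ p := (integral_nonneg fun x => xsq_nonneg _ _).trans hp
  obtain ⟨hb2, hb4, hbg⟩ := hbb v hv hd N hN
  have hN1 : ∫ x in ball (0 : V) 1, osq v x ≤ N :=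
    (ball_mono (osq_smooth hv).continuous (osq_nonneg v) (ball_subset_ball (by norm_num))).trans hN
  have hP4 := hom4 v hv N hN1
  have hR4 := hgb4 v hv hd N hN
  have hG2 := (hax a v hv hd).trans (mul_le_mul_of_nonneg_left hp (by linarith : 0 ≤ Ca))
  set D := ∫ x in ball (0 : V) 1, κ x ^ 2 * dsq v x with hD
  have hD0 : 0 ≤ D := integral_nonneg fun x => mul_nonneg (sq_nonneg _) (dsq_nonneg v x)
  set w := bb v with hw
  have hws : ContDiff ℝ ∞ w := bb_smooth hv
  set F : V → ℝ := fun x => κ x ^ 2 * osq v x with hF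
  set Q := ∫ x in ball (0 : V) 1, F x ^ 2 with hQ
  have hQ0 : 0 ≤ Q := integral_nonneg fun x => sq_nonneg _
  set G : V → ℝ := fun x => κ x ^ 2 * gsq w x with hG
  set U := ∫ x in ball (0 : V) 1, G x ^ 2 with hU
  have hU0 : 0 ≤ U := integral_nonneg fun x => sq_nonneg _
  set X : V → ℝ := fun x => xsq (vort v x) a with hX
  set H : V → ℝ := fun x => ∑ k, (∑ j, a j * pd k (fun y => w y j) x) ^ 2 with hH
  have hX0 : ∀ x, 0 ≤ X x := fun x => xsq_nonneg _ _
  have hH0 : ∀ x, 0 ≤ H x := fun x => Finset.sum_nonneg fun _ _ => sq_nonneg _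
  have hXc : Continuous X := by
    have e : X = fun x => ∑ i, pe a v i x ^ 2 := funext fun x => (pe_sq a v x).symm
    rw [e]
    exact continuous_finsetSum _ fun i _ => (pe_smooth hv i).continuous.pow 2
  have hHc : Continuous H :=
    continuous_finsetSum _ fun k _ => (continuous_finsetSum _ fun j _ =>
      continuous_const.mul (sm_pd (sm_comp hws j) k).continuous).pow 2
  have hX1 : ∫ x in ball (0 : V) 1, X x ≤ p :=
    (ball_mono hXc hX0 (ball_subset_ball (by norm_num))).trans hp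
  have hkc : Continuous κ := hκ.smooth.continuous
  have hoc := (osq_smooth hv).continuous
  have hgc := (gsq_smooth hws).continuous
  have hF0 : ∀ x, 0 ≤ F x := fun x => mul_nonneg (sq_nonneg _) (osq_nonneg v x)
  have hG0 : ∀ x, 0 ≤ G x := fun x => mul_nonneg (sq_nonneg _) (gsq_nonneg w x)
  have hFc : Continuous F := (hkc.pow 2).mul hoc
  have hGc : Continuous G := (hkc.pow 2).mul hgc
  have hbc : ∀ k, Continuous fun x => w x k := fun k => (sm_comp hws k).continuous
  set A := 6 * S + √(Kt * (Cb * N)) with hA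
  have hA0 : 0 ≤ A := by positivity
  set c : V := fun k => ∫ w, th w * v w k with hc
  have e1 : ∀ z k, |pd k (fun z : V => κ z * κ z) z| ≤ 2 * M * κ z := by
    intro z k
    have hk0 := hκ.nonneg z
    have e : pd k (fun z : V => κ z * κ z) z = κ z * pd k κ z + pd k κ z * κ z :=
      pd_mul' hκ.smooth hκ.smooth k z
    rw [e, show κ z * pd k κ z + pd k κ z * κ z
      = 2 * κ z * pd k κ z by ring, abs_mul, abs_of_nonneg (by positivity)]
    calc 2 * κ z * |pd k κ z| ≤ 2 * κ z * M := by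
          gcongr
          exact hM z k
      _ = _ := by ring
  -- the pointwise bound
  have key : ∀ z ∈ ball (0 : V) 1, -2 * (dsq v z * (κ z * κ z))
      + osq v z * (∑ k, (v z k - c k) * pd k (fun z : V => κ z * κ z) z)
      - str v z * (κ z * κ z)
      ≤ (((-2 * (κ z ^ 2 * dsq v z) + (6 * M * A + 6 * S) * osq v z)
        + 2 * M * ∑ k, κ z * osq v z * |w z k|)
        + 2 * (F z * √(H z))) + 4 * (√(X z) * √(F z * G z)) := by
    intro z hz
    have ho := osq_nonneg v z
    have hg := gsq_nonneg w z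
    have hk0 := hκ.nonneg z
    have hk1 := hκ.le_one z
    have hkk : κ z * κ z ≤ 1 := mul_le_one₀ hk1 hk0 hk1
    have hkk0 : 0 ≤ κ z * κ z := mul_nonneg hk0 hk0
    have e2 : ∀ k, |v z k - c k| ≤ |w z k| + A := by
      intro k
      have h1 := avg_dev hv hS0 hS hb2 hz k
      have h2 : v z k - c k = w z k + (kv et 1 (fun y => v y k) z - ∫ w, th w * v w k) := by
        rw [hc, hw]
        unfold bb
        ring
      rw [h2]
      exact (abs_add_le _ _).trans (by linarith)
    have e3 : ∑ k, (v z k - c k) * pd k (fun z : V => κ z * κ z) z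
        ≤ 2 * M * (∑ k, κ z * |w z k|) + 6 * M * A := by
      have h1 : ∀ k, (v z k - c k) * pd k (fun z : V => κ z * κ z) z
          ≤ 2 * M * (κ z * |w z k|) + 2 * M * A := by
        intro k
        calc (v z k - c k) * pd k (fun z : V => κ z * κ z) z
            ≤ |v z k - c k| * |pd k (fun z : V => κ z * κ z) z| := by
              rw [← abs_mul]
              exact le_abs_self _
          _ ≤ (|w z k| + A) * (2 * M * κ z) :=
              mul_le_mul (e2 k) (e1 z k) (abs_nonneg _) (by positivity)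
          _ = 2 * M * (κ z * |w z k|) + 2 * M * A * κ z := by ring
          _ ≤ 2 * M * (κ z * |w z k|) + 2 * M * A * 1 := by gcongr
          _ = _ := by ring
      calc _ ≤ ∑ k, (2 * M * (κ z * |w z k|) + 2 * M * A) := Finset.sum_le_sum fun k _ => h1 k
        _ = _ := by
          simp only [Fin.sum_univ_three]
          ring
    have e4 := pt_ax ha hv hd hS0 hS hz
    rw [← hw] at e4
    have e5 : osq v z * (∑ k, (v z k - c k) * pd k (fun z : V => κ z * κ z) z)
        ≤ osq v z * (2 * M * (∑ k, κ z * |w z k|) + 6 * M * A) :=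
      mul_le_mul_of_nonneg_left e3 ho
    have e6 := mul_le_mul_of_nonneg_right e4 hkk0
    have e7 : 6 * S * osq v z * (κ z * κ z) ≤ 6 * S * osq v z * 1 :=
      mul_le_mul_of_nonneg_left hkk (by positivity)
    have e8 : osq v z * (2 * M * (∑ k, κ z * |w z k|) + 6 * M * A)
        = (6 * M * A) * osq v z + 2 * M * ∑ k, κ z * osq v z * |w z k| := by
      simp only [Fin.sum_univ_three]
      ring
    have e9 : √(osq v z * gsq w z) * (κ z * κ z) = √(F z * G z) := by
      have h1 : F z * G z = (κ z * κ z) ^ 2 * (osq v z * gsq w z) := by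
        simp only [hF, hG]
        ring
      rw [h1, Real.sqrt_mul (sq_nonneg _), Real.sqrt_sq hkk0, mul_comm]
    have e12 : (6 * S * osq v z + 2 * (osq v z * √(H z))
          + 4 * (√(X z) * √(osq v z * gsq w z))) * (κ z * κ z)
        = 6 * S * osq v z * (κ z * κ z) + 2 * (F z * √(H z)) + 4 * (√(X z) * √(F z * G z)) := by
      rw [← e9]
      simp only [hF]
      ring
    have e10 : -2 * (dsq v z * (κ z * κ z)) = -2 * (κ z ^ 2 * dsq v z) := by ring
    have e11 : -str v z * (κ z * κ z) = -(str v z * (κ z * κ z)) := by ring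
    rw [e10]
    linarith
  -- integration
  have c1 : Continuous fun z : V => κ z ^ 2 * dsq v z := (hkc.pow 2).mul (dsq_cont hv)
  have c2 : ∀ k, Continuous fun z : V => κ z * osq v z * |w z k| := fun k =>
    (hkc.mul hoc).mul (hbc k).abs
  have c4 : Continuous fun z : V => ∑ k, κ z * osq v z * |w z k| :=
    continuous_finsetSum _ fun k _ => c2 k
  have j1 : IntegrableOn (fun z : V => -2 * (κ z ^ 2 * dsq v z)) (ball 0 1) :=
    int_ball (continuous_const.mul c1) 0 1
  have j2 : IntegrableOn (fun z : V => (6 * M * A + 6 * S) * osq v z) (ball 0 1) :=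
    int_ball (continuous_const.mul hoc) 0 1
  have j3 : IntegrableOn (fun z : V => 2 * M * ∑ k, κ z * osq v z * |w z k|) (ball 0 1) :=
    int_ball (continuous_const.mul c4) 0 1
  have j4 : IntegrableOn (fun z : V => 2 * (F z * √(H z))) (ball 0 1) :=
    int_ball (continuous_const.mul (hFc.mul hHc.sqrt)) 0 1
  have j5 : IntegrableOn (fun z : V => 4 * (√(X z) * √(F z * G z))) (ball 0 1) :=
    int_ball (continuous_const.mul (hXc.sqrt.mul (hFc.mul hGc).sqrt)) 0 1
  have hpdc : ∀ k, Continuous (pd k (fun z : V => κ z * κ z)) := fun k =>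
    (hκ.ker2.pd k).sm.continuous
  have c5 : Continuous fun z : V => -2 * (dsq v z * (κ z * κ z))
      + osq v z * (∑ k, (v z k - c k) * pd k (fun z : V => κ z * κ z) z)
      - str v z * (κ z * κ z) := by
    have h3 : Continuous (fun z => ∑ k, (v z k - c k) * pd k (fun z : V => κ z * κ z) z) :=
      continuous_finsetSum _ fun k _ => ((sm_comp hv k).continuous.sub continuous_const).mul
        (hpdc k)
    exact ((continuous_const.mul ((dsq_cont hv).mul (hkc.mul hkc))).add (hoc.mul h3)).sub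
      ((str_cont hv).mul (hkc.mul hkc))
  rw [RR_split hκ hv (fun y hy => hd y (ball_subset_ball (by norm_num) hy)) c]
  -- the integrals of products with the remainder
  have Igen : ∀ (g : V → ℝ), Continuous g → (∀ x, 0 ≤ g x) → ∀ (B E : ℝ), 0 ≤ E →
      ∫ z in ball (0 : V) 1, g z ≤ B → ∫ z in ball (0 : V) 1, (κ z ^ 2 * g z) ^ 2 = E →
      ∀ k, ∫ z in ball (0 : V) 1, κ z * g z * |w z k| ≤ √(√E * (Cb * N)) * √B := by
    intro g hg hg0 B E hE hB hgE k
    have hFg : Continuous fun z => κ z ^ 2 * g z := (hkc.pow 2).mul hg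
    have h1 := W162.MD.cs_ball (f := fun z => κ z * √(g z) * |w z k|)
      (g := fun z => √(g z)) ((hkc.mul hg.sqrt).mul (hbc k).abs) hg.sqrt 0 1
    have e1 : ∀ z : V, κ z * √(g z) * |w z k| * √(g z) = κ z * g z * |w z k| := by
      intro z
      have := Real.mul_self_sqrt (hg0 z)
      calc κ z * √(g z) * |w z k| * √(g z)
          = κ z * (√(g z) * √(g z)) * |w z k| := by ring
        _ = _ := by rw [this]
    have e2 : ∀ z : V, √(g z) ^ 2 = g z := fun z => Real.sq_sqrt (hg0 z)
    have e3 : ∀ z : V, (κ z * √(g z) * |w z k|) ^ 2 = (κ z ^ 2 * g z) * w z k ^ 2 := by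
      intro z
      rw [mul_pow, mul_pow, e2, sq_abs]
    simp_rw [e1, e2, e3] at h1
    refine (le_abs_self _).trans (h1.trans ?_)
    refine mul_le_mul (Real.sqrt_le_sqrt ?_) (Real.sqrt_le_sqrt hB) (Real.sqrt_nonneg _)
      (Real.sqrt_nonneg _)
    have h2 := W162.MD.cs_ball (f := fun z => κ z ^ 2 * g z) (g := fun z => w z k ^ 2) hFg
      ((hbc k).pow 2) 0 1
    have e4 : ∀ z : V, (w z k ^ 2) ^ 2 = w z k ^ 4 := fun z => by ring
    simp_rw [e4] at h2
    rw [hgE] at h2
    refine (le_abs_self _).trans (h2.trans ?_)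
    refine mul_le_mul le_rfl ?_ (Real.sqrt_nonneg _) (Real.sqrt_nonneg _)
    calc √(∫ z in ball (0 : V) 1, w z k ^ 4) ≤ √((Cb * N) ^ 2) := Real.sqrt_le_sqrt (hb4 k)
      _ = Cb * N := Real.sqrt_sq (by positivity)
  have I2 : ∀ k, ∫ z in ball (0 : V) 1, κ z * osq v z * |w z k| ≤ √(√Q * (Cb * N)) * √N :=
    Igen (osq v) hoc (osq_nonneg v) N Q hQ0 hN1 hQ.symm
  -- the component along the axis
  have I4 : ∫ z in ball (0 : V) 1, F z * √(H z) ≤ √Q * √(Ca * p) := by
    have h1 := W162.MD.cs_ball (f := F) (g := fun z => √(H z)) hFc hHc.sqrt 0 1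
    have e2 : ∀ z : V, √(H z) ^ 2 = H z := fun z => Real.sq_sqrt (hH0 z)
    simp_rw [e2] at h1
    refine (le_abs_self _).trans (h1.trans ?_)
    exact mul_le_mul le_rfl (Real.sqrt_le_sqrt hG2) (Real.sqrt_nonneg _) (Real.sqrt_nonneg _)
  have I5 : ∫ z in ball (0 : V) 1, √(X z) * √(F z * G z) ≤ √p * √(√Q * √U) := by
    have h1 := W162.MD.cs_ball (f := fun z => √(X z)) (g := fun z => √(F z * G z)) hXc.sqrt
      (hFc.mul hGc).sqrt 0 1
    have e2 : ∀ z : V, √(X z) ^ 2 = X z := fun z => Real.sq_sqrt (hX0 z)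
    have e3 : ∀ z : V, √(F z * G z) ^ 2 = F z * G z := fun z =>
      Real.sq_sqrt (mul_nonneg (hF0 z) (hG0 z))
    simp_rw [e2, e3] at h1
    refine (le_abs_self _).trans (h1.trans ?_)
    refine mul_le_mul (Real.sqrt_le_sqrt hX1) (Real.sqrt_le_sqrt ?_) (Real.sqrt_nonneg _)
      (Real.sqrt_nonneg _)
    have h2 := W162.MD.cs_ball (f := F) (g := G) hFc hGc 0 1
    exact (le_abs_self _).trans h2
  have total : ∫ z in ball (0 : V) 1, (-2 * (dsq v z * (κ z * κ z))
      + osq v z * (∑ k, (v z k - c k) * pd k (fun z : V => κ z * κ z) z)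
      - str v z * (κ z * κ z))
      ≤ -2 * D + 6 * M * (√(√Q * (Cb * N)) * √N) + 6 * M * (A * N)
          + 6 * S * N + 2 * (√Q * √(Ca * p)) + 4 * (√p * √(√Q * √U)) := by
    have g12 : IntegrableOn (fun z : V => -2 * (κ z ^ 2 * dsq v z)
        + (6 * M * A + 6 * S) * osq v z) (ball 0 1) := j1.add j2
    have g13 : IntegrableOn (fun z : V => -2 * (κ z ^ 2 * dsq v z)
        + (6 * M * A + 6 * S) * osq v z
        + 2 * M * ∑ k, κ z * osq v z * |w z k|) (ball 0 1) := g12.add j3
    have g14 : IntegrableOn (fun z : V => -2 * (κ z ^ 2 * dsq v z)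
        + (6 * M * A + 6 * S) * osq v z
        + 2 * M * (∑ k, κ z * osq v z * |w z k|) + 2 * (F z * √(H z))) (ball 0 1) :=
      g13.add j4
    have g15 := g14.add j5
    refine (setIntegral_mono_on (int_ball c5 0 1) g15 measurableSet_ball key).trans ?_
    have h1 : ∫ z in ball (0 : V) 1, ((((-2 * (κ z ^ 2 * dsq v z) + (6 * M * A + 6 * S) * osq v z)
        + 2 * M * ∑ k, κ z * osq v z * |w z k|)
        + 2 * (F z * √(H z))) + 4 * (√(X z) * √(F z * G z)))
        = -2 * D + (6 * M * A + 6 * S) * (∫ z in ball (0 : V) 1, osq v z)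
          + 2 * M * (∑ k, ∫ z in ball (0 : V) 1, κ z * osq v z * |w z k|)
          + 2 * (∫ z in ball (0 : V) 1, F z * √(H z))
          + 4 * ∫ z in ball (0 : V) 1, √(X z) * √(F z * G z) := by
      rw [integral_add g14 j5, integral_add g13 j4,
        integral_add g12 j3, integral_add j1 j2, integral_const_mul, integral_const_mul,
        integral_const_mul, integral_const_mul, integral_const_mul,
        integral_finsetSum _ fun k _ => int_ball (c2 k) 0 1]
    refine (le_of_eq h1).trans ?_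
    have h2 : ∑ k, ∫ z in ball (0 : V) 1, κ z * osq v z * |w z k|
        ≤ 3 * (√(√Q * (Cb * N)) * √N) := by
      calc _ ≤ ∑ _k : Fin 3, √(√Q * (Cb * N)) * √N := Finset.sum_le_sum fun k _ => I2 k
        _ = _ := by simp
    have h3 : (6 * M * A + 6 * S) * (∫ z in ball (0 : V) 1, osq v z)
        ≤ (6 * M * A + 6 * S) * N := mul_le_mul_of_nonneg_left hN1 (by positivity)
    have h4 : 2 * M * (∑ k, ∫ z in ball (0 : V) 1, κ z * osq v z * |w z k|)
        ≤ 2 * M * (3 * (√(√Q * (Cb * N)) * √N)) := mul_le_mul_of_nonneg_left h2 (by positivity)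
    linarith
  have hfin := hnum N S p D (√Q) (√U) hN0 hS0 hp0 hD0 (Real.sqrt_nonneg _) (Real.sqrt_nonneg _)
    (by
      calc √Q ^ 4 = (√Q ^ 2) ^ 2 := by ring
        _ = Q ^ 2 := by rw [Real.sq_sqrt hQ0]
        _ ≤ _ := hP4)
    (by
      calc √U ^ 4 = (√U ^ 2) ^ 2 := by ring
        _ = U ^ 2 := by rw [Real.sq_sqrt hU0]
        _ ≤ _ := hR4)
  rw [← hA] at hfin
  linarith

end Pool.Agent.H946.NS
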