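import Pool.Agent.H946_NS.G2
import Pool.Agent.H946_NS.D3

/-!
The growth of the localised enstrophy at a maximum in terms of the vorticity orthogonal to an axis.
-/

set_option autoImplicit false

open MeasureTheory Set Metric Filter Topology
open scoped ContDiff ENNReal

namespace Pool.Agent.H946.NS

open H459R3.NS W221.NS Pool.Agent.W583.MD

variable {κ : V → ℝ}

theorem xsq_smul_left (c : ℝ) (b a : V) : xsq (c • b) a = c ^ 2 * xsq b a := by
  unfold xsq
  simp only [Fin.sum_univ_three, Pi.smul_apply, smul_eq_mul]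
  ring

theorem xsq_vort_cont {u : V → V} (hu : ContDiff ℝ ∞ u) (a : V) :
    Continuous fun x => xsq (vort u x) a := by
  have e : (fun x => xsq (vort u x) a) = fun x => ∑ i, pe a u i x ^ 2 :=
    funext fun x => (pe_sq a u x).symm
  rw [e]
  exact continuous_finsetSum _ fun i _ => (pe_smooth hu i).continuous.pow 2

/-- The growth at a maximum. -/
theorem ax_loc (hκ : Cut κ) : ∃ C : ℝ, 1 ≤ C ∧ ∀ v : V → V, ContDiff ℝ ∞ v →
    ∀ (r : ℝ) (x : V), 0 < r → (∀ y ∈ ball x (8 * r), dv v y = 0) →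
      (∀ w ∈ ball x (9 * r), enk κ r v w ≤ enk κ r v x) → ∀ (P e : ℝ) (a : V),
        ∫ y in ball x (8 * r), gsq v y ≤ e → ∑ j, a j ^ 2 = 1 →
        ∫ y in ball x (5 * r), xsq (vort v y) a ≤ P →
          Dk κ r x v ≤ C * ((1 / r ^ 2 + P ^ 2 + (1 / r) * e) * enk κ r v x) := by
  obtain ⟨C, hC, hU⟩ := unit_ax hκ
  obtain ⟨C₀, hC₀, hcov⟩ := enk_cover_loc hκ 8
  have hK0 := K0_nonneg
  have hK : 0 ≤ √K0 := Real.sqrt_nonneg _
  refine ⟨C * C₀ * (2 + √K0 + 3 * 4), ?_, ?_⟩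
  · have h1 : 1 ≤ C * C₀ := by nlinarith
    have h2 : 1 ≤ 2 + √K0 + 3 * 4 := by linarith
    exact one_le_mul_of_one_le_of_one_le h1 h2
  intro u hv r x hr hd hmax P e a he ha hP
  have hP0 : 0 ≤ P := (integral_nonneg fun y => xsq_nonneg _ _).trans hP
  have hM0 : 0 ≤ enk κ r u x := enk_nonneg hκ hr u x
  set M := enk κ r u x with hMdef
  unfold Dk
  set v := scv r x u with hvdef
  have hmem : ∀ z ∈ ball (0 : V) 8, x + r • z ∈ ball x (8 * r) := by
    intro z hz
    rw [mem_ball_iff_norm, add_sub_cancel_left, norm_smul, Real.norm_of_nonneg hr.le]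
    rw [mem_ball_zero_iff] at hz
    nlinarith
  have hdiv : ∀ y ∈ ball (0 : V) 8, dv v y = 0 := by
    intro y hy
    rw [hvdef, dv_scv hv, hd _ (hmem y hy), mul_zero]
  have hgc := (gsq_smooth hv).continuous
  have he0 : 0 ≤ e := (integral_nonneg fun y => gsq_nonneg u y).trans he
  set N := ∫ z in ball (0 : V) 8, osq v z with hN
  have hN0 : 0 ≤ N := integral_nonneg fun z => osq_nonneg v z
  have hoc := (osq_smooth hv).continuous
  have hNe : N = r * ∫ y in ball x (8 * r), osq u y := by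
    have h1 : ∀ z, osq v z = r ^ 4 * osq u (x + r • z) := fun z => osq_scv hv z
    rw [hN]
    simp_rw [h1]
    rw [integral_const_mul, cov' (osq u) x hr, mul_comm r 8]
    field_simp
  have hN1 : N ≤ r * (C₀ * M) := by
    rw [hNe]
    refine mul_le_mul_of_nonneg_left ?_ hr.le
    have h2 := hcov u hv r M x hr (fun w hw => hmax w (by
      have e : ((8 : ℕ) + 1 : ℝ) * r = 9 * r := by
        push_cast
        ring
      rwa [e] at hw))
    push_cast at h2
    exact h2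
  have hN2 : N ≤ r * (4 * e) := by
    rw [hNe]
    refine mul_le_mul_of_nonneg_left ?_ hr.le
    have h2 : ∫ y in ball x (8 * r), osq u y ≤ ∫ y in ball x (8 * r), 4 * gsq u y :=
      setIntegral_mono (int_ball hoc _ _) (int_ball (continuous_const.mul hgc) _ _)
        fun y => osq_le_gsq u y
    rw [integral_const_mul] at h2
    linarith
  set S : ℝ := √K0 * √(r * e) with hS
  have hS0 : 0 ≤ S := by positivity
  have hSb : ∀ z ∈ ball (0 : V) 1, ∀ k j, |kv et 1 (pd k (fun y => v y j)) z| ≤ S := by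
    intro z hz k j
    have hvs : ContDiff ℝ ∞ v := scv_smooth hv
    have hpc : Continuous (pd k (fun y => v y j)) := (sm_pd (sm_comp hvs j) k).continuous
    have h2 := kv_sq ker_et hpc 1 z
    have h3 : ∫ w in ball (0 : V) 1, pd k (fun y => v y j) (z + (1 : ℝ) • w) ^ 2 ≤ r * e := by
      rw [cov' (fun y => pd k (fun y => v y j) y ^ 2) z one_pos, one_mul, one_pow, inv_one, one_mul]
      have h4 : ∫ w in ball z 1, pd k (fun y => v y j) w ^ 2 ≤ ∫ w in ball z 1, gsq v w := by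
        refine setIntegral_mono (int_ball (hpc.pow 2) _ _)
          (int_ball (gsq_smooth hvs).continuous _ _) fun w => ?_
        unfold gsq
        exact (Finset.single_le_sum (f := fun k => pd k (fun y => v y j) w ^ 2)
          (fun _ _ => sq_nonneg _) (Finset.mem_univ k)).trans
          (Finset.single_le_sum (f := fun j => ∑ k, pd k (fun y => v y j) w ^ 2)
            (fun _ _ => Finset.sum_nonneg fun _ _ => sq_nonneg _) (Finset.mem_univ j))
      have h5 : ∫ w in ball z 1, gsq v w ≤ ∫ w in ball (0 : V) 8, gsq v w := by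
        refine ball_mono (gsq_smooth hvs).continuous (gsq_nonneg v) (ball_subset_ball' ?_)
        rw [dist_zero_right]
        have := mem_ball_zero_iff.1 hz
        linarith
      have h6 : ∫ w in ball (0 : V) 8, gsq v w = r * ∫ y in ball x (8 * r), gsq u y := by
        have h1 : ∀ z, gsq v z = r ^ 4 * gsq u (x + r • z) := fun z => gsq_scv' hv z
        simp_rw [h1]
        rw [integral_const_mul, cov' (gsq u) x hr, mul_comm r 8]
        field_simp
      rw [h6] at h5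
      exact (h4.trans h5).trans (mul_le_mul_of_nonneg_left he hr.le)
    have h7 : kv et 1 (pd k (fun y => v y j)) z ^ 2 ≤ K0 * (r * e) :=
      h2.trans (mul_le_mul_of_nonneg_left h3 hK0)
    refine (Real.abs_le_sqrt h7).trans (le_of_eq ?_)
    rw [hS, Real.sqrt_mul hK0]
  have hSle : S ≤ r ^ 2 * (√K0 * (1 / r ^ 2 + e / r)) := by
    have h1 : √(r * e) ≤ 1 + r * e := by
      have q : 0 ≤ r * e := by positivity
      rw [Real.sqrt_le_left (by linarith)]
      nlinarith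
    calc S ≤ √K0 * (1 + r * e) := mul_le_mul_of_nonneg_left h1 hK
      _ = _ := by
        field_simp
  have hlm : IsLocalMax (enk κ r u) x := by
    filter_upwards [ball_mem_nhds x (show 0 < 9 * r by positivity)] with y hy
    exact hmax y hy
  obtain ⟨hc1, hc2⟩ := enk_max hκ hv hr hlm
  have hPv : ∫ z in ball (0 : V) 5, xsq (vort v z) a ≤ r * P := by
    have h1 : ∀ z, xsq (vort v z) a = r ^ 4 * xsq (vort u (x + r • z)) a := by
      intro z
      rw [hvdef, vort_scv hv, xsq_smul_left]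
      ring
    simp_rw [h1]
    rw [integral_const_mul, cov' (fun y => xsq (vort u y) a) x hr, mul_comm r 5]
    calc r ^ 4 * ((r ^ 3)⁻¹ * ∫ y in ball x (5 * r), xsq (vort u y) a)
        = r * ∫ y in ball x (5 * r), xsq (vort u y) a := by field_simp
      _ ≤ r * P := mul_le_mul_of_nonneg_left hP hr.le
  have h5 := hU v (scv_smooth hv) hdiv N S (r * P) a ha le_rfl hS0 hSb hPv
  have ePP : (r * P) ^ 2 = r ^ 2 * P ^ 2 := by ring
  rw [ePP] at h5
  have h6 : ∑ k, (∫ w, th w * v w k)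
      * ∫ z in ball (0 : V) 1, osq v z * pd k (fun z : V => κ z * κ z) z = 0 :=
    Finset.sum_eq_zero fun k _ => by rw [hc1 k, mul_zero]
  rw [h6, add_zero] at h5
  have h7 : ∫ z, RR v 0 z * (κ z * κ z) ≤ C * ((1 + S + r ^ 2 * P ^ 2) * N
      + (1 + (√r * 0) ^ 2 + (1 + r ^ 2 * 0) ^ 2) * N ^ 2) := by
    have h8 : C * ((1 + S + r ^ 2 * P ^ 2) * N + N ^ 2) ≤ C * ((1 + S + r ^ 2 * P ^ 2) * N
      + (1 + (√r * 0) ^ 2 + (1 + r ^ 2 * 0) ^ 2) * N ^ 2) := by
      refine mul_le_mul_of_nonneg_left ?_ (by linarith)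
      nlinarith [sq_nonneg N]
    linarith
  have h9 := cf_num2 (ρ := 0) (l := 0) hC hC₀ (by norm_num) hK hN0 hM0 he0 hr (sq_nonneg P) le_rfl hN1 hN2
    hS0 hSle
  have e0 : (1 / r + (0 : ℝ) ^ 2 + r ^ 3 * 0 ^ 2) * e = 1 / r * e := by ring
  rw [e0] at h9
  refine le_trans ?_ h9
  exact mul_le_mul_of_nonneg_left (mul_le_mul_of_nonneg_left h7 (by positivity)) (by positivity)

/-- The criterion. -/
theorem ax_R (hκ : Cut κ) : ∃ ε : ℝ, 0 < ε ∧ ∀ (ν T E : ℝ) (Ω R : Set V)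
    (u : ℝ → V → V) (p : ℝ → V → ℝ), 0 < ν → 0 < T → OSol ν T E Ω u p →
      ∫⁻ t in Ioo 0 T, ∫⁻ y in Ω, ENNReal.ofReal (gsq (u t) y) ≠ ⊤ → IsCompact R → R ⊆ Ω →
        (∀ x ∈ frontier R, ¬ Sing T u x) → ∃ r₀ : ℝ, 0 < r₀ ∧ ∀ (t₀ K : ℝ) (r g : ℝ → ℝ),
          t₀ ∈ Ioo 0 T → AntitoneOn r (Ico t₀ T) → (∀ t ∈ Ico t₀ T, 0 < r t ∧ r t ≤ r₀) →
          (∀ t ∈ Ioo t₀ T, IntegrableOn g (Ioo t₀ t)) →
          (∀ᵐ t ∂((volume : Measure ℝ).restrict (Ioo t₀ T)), ν / r t ^ 2 ≤ g t ∧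
            ((∀ s ∈ Ioo t₀ t, ∀ y ∈ R, ∃ x ∈ R, loc κ (r s) (u s) y ≤ loc κ (r t) (u t) x) →
              ∃ x ∈ R, (∀ y ∈ R, loc κ (r t) (u t) y ≤ loc κ (r t) (u t) x) ∧
                ∃ a : V, ∑ j, a j ^ 2 = 1 ∧
                  (∫ y in ball x (5 * r t) ∩ R, xsq (vort (u t) y) a) ^ 2 / ν ^ 3
                    + (∫ y in ball x (8 * r t) ∩ R, gsq (u t) y) / (r t * ν) ≤ g t)) →
          (∃ᶠ t in 𝓝[<] T, ∫ s in Ioo t₀ t, g s ≤ ε * Real.log (1 / (T - t)) + K) →
          ∀ x ∈ R, ¬ Sing T u x := by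
  obtain ⟨C, hC, hdir⟩ := ax_loc hκ
  refine ⟨min 1 (1 / (32 * C)), lt_min one_pos (by positivity), ?_⟩
  intro ν T E Ω R u p hν hT hu hfin hR hRΩ hreg
  by_cases hS : ∃ x ∈ R, Sing T u x
  swap
  · push Not at hS
    exact ⟨1, one_pos, fun _ _ _ _ _ _ _ _ _ _ => hS⟩
  obtain ⟨r₀, hr₀, key⟩ := loc_nu hκ hν hT hu hfin hR hRΩ hreg hS
  refine ⟨r₀, hr₀, ?_⟩
  intro t₀ K r g ht₀ hr hrp hint hcoh hfreq
  exfalso
  have hC2 : 0 < 2 * C := by positivity
  refine key t₀ (2 * C * K) r (fun t => 2 * C * g t) (fun t x => 0 ≤ g t ∧ ν / r t ^ 2 ≤ g t ∧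
    ∃ a : V, ∑ j, a j ^ 2 = 1 ∧
                  (∫ y in ball x (5 * r t) ∩ R, xsq (vort (u t) y) a) ^ 2 / ν ^ 3
                    + (∫ y in ball x (8 * r t) ∩ R, gsq (u t) y) / (r t * ν) ≤ g t) ht₀ hr hrp
    (fun t ht => (hint t ht).const_mul (2 * C)) ?_ ?_ ?_
  · filter_upwards [hcoh, ae_restrict_mem measurableSet_Ioo] with t ht htI
    have h1 := (hrp t (Ioo_subset_Ico_self htI)).1
    have h2 : 0 ≤ ν / r t ^ 2 := by positivity
    have hg : 0 ≤ g t := h2.trans ht.1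
    refine ⟨ht.1.trans ?_, fun hrec => ?_⟩
    · calc g t = 1 * g t := (one_mul _).symm
        _ ≤ 2 * C * g t := mul_le_mul_of_nonneg_right (by linarith) hg
    · obtain ⟨x, hx, hmax, a, ha, hle⟩ := ht.2 hrec
      exact ⟨x, hx, hmax, hg, ht.1, a, ha, hle⟩
  · intro t htI x ⟨hg0, hgr, a, ha, hle⟩ hb v hv hvu hdv hen hmax
    obtain ⟨hr0, -⟩ := hrp t (Ioo_subset_Ico_self htI)
    have hb8 : ball x (8 * r t) ⊆ R := (ball_subset_ball (by linarith)).trans hb
    set I := ∫ y in ball x (8 * r t) ∩ R, gsq (u t) y with hI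
    have hIe : ∫ y in ball x (8 * r t), gsq v y = ν⁻¹ ^ 2 * I := by
      rw [hI, inter_eq_left.2 hb8, ← integral_const_mul]
      refine setIntegral_congr_fun measurableSet_ball fun y hy => ?_
      have h1 : v =ᶠ[𝓝 y] fun y => ν⁻¹ • u t y := by
        filter_upwards [isOpen_ball.mem_nhds hy] with z hz
        exact hvu z (ball_subset_ball (by linarith) hz)
      simp only [gsq_congr h1, W221.NS.gsq_smul]
    have hb5 : ball x (5 * r t) ⊆ R := (ball_subset_ball (by linarith)).trans hb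
    set J := ∫ y in ball x (5 * r t) ∩ R, xsq (vort (u t) y) a with hJ
    have hJe : ∫ y in ball x (5 * r t), xsq (vort v y) a = ν⁻¹ ^ 2 * J := by
      rw [hJ, inter_eq_left.2 hb5, ← integral_const_mul]
      refine setIntegral_congr_fun measurableSet_ball fun y hy => ?_
      have h1 : v =ᶠ[𝓝 y] fun y => ν⁻¹ • u t y := by
        filter_upwards [isOpen_ball.mem_nhds hy] with z hz
        exact hvu z (ball_subset_ball (by linarith) hz)
      simp only [vort_congr h1, vort_smul', xsq_smul_left]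
    have h4 := hdir v hv (r t) x hr0 (fun y hy => hdv y (ball_subset_ball (by linarith) hy))
      hmax (ν⁻¹ ^ 2 * J) (ν⁻¹ ^ 2 * I) a hIe.le ha hJe.le
    refine h4.trans ?_
    have h5 := enk_nonneg hκ hr0 v x
    have h6 : 1 / r t ^ 2 + (ν⁻¹ ^ 2 * J) ^ 2 + (1 / r t) * (ν⁻¹ ^ 2 * I)
        ≤ 2 * (g t / ν) := by
      have e : 1 / r t ^ 2 + (ν⁻¹ ^ 2 * J) ^ 2 + (1 / r t) * (ν⁻¹ ^ 2 * I)
          = (ν / r t ^ 2 + (J ^ 2 / ν ^ 3 + I / (r t * ν))) / ν := by
        field_simp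
        ring
      rw [e]
      calc (ν / r t ^ 2 + (J ^ 2 / ν ^ 3 + I / (r t * ν))) / ν
          ≤ (g t + g t) / ν := div_le_div_of_nonneg_right (add_le_add hgr hle) hν.le
        _ = _ := by ring
    calc C * ((1 / r t ^ 2 + (ν⁻¹ ^ 2 * J) ^ 2 + (1 / r t) * (ν⁻¹ ^ 2 * I))
          * enk κ (r t) v x)
        ≤ C * ((2 * (g t / ν)) * enk κ (r t) v x) :=
          mul_le_mul_of_nonneg_left (mul_le_mul_of_nonneg_right h6 h5) (by linarith)
      _ = _ := by ring
  · exact freq_mul hC hfreq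

end Pool.Agent.H946.NS
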