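import Pool.Agent.H946_NS.Fin
import Pool.Agent.W398.MD.FLOWX
import Pool.Agent.W496.MD.MOLL

/-!
Periodic solutions: the time of existence in terms of the uniformly local enstrophy.
-/

set_option autoImplicit false

open MeasureTheory Set Metric Filter Topology
open scoped ContDiff ENNReal

namespace Pool.Agent.H946.NS

open H459R3.NS W221.NS Pool.Agent.W583.MD

/-- The ball of radius three is covered by 216 cells. -/
theorem ball3_le {g : V → ℝ} (hg : Continuous g) (hp : Per g) (h0 : ∀ x, 0 ≤ g x) :
    ∫ x in ball (0 : V) 3, g x ≤ 216 * ∫ x in cube, g x := by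
  have hm : Measurable fun x => ENNReal.ofReal (g x) := hg.measurable.ennreal_ofReal
  have hc : MeasurableSet cube := measurableSet_Icc
  have hcell : ∀ m, ∫⁻ x in Pool.Agent.W376.ME.cell m, ENNReal.ofReal (g x) =
      ∫⁻ x in cube, ENNReal.ofReal (g x) := by
    intro m
    have h1 := (measurePreserving_sub_right (volume : Measure V)
      (fun i => (Pool.Agent.W376.ME.shf m i : ℝ))).setLIntegral_comp_preimage hc hm
    rw [← h1]
    refine lintegral_congr fun x => ?_
    have h2 := hp.int (fun i => -Pool.Agent.W376.ME.shf m i) x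
    have h3 : (x + fun i => ((-Pool.Agent.W376.ME.shf m i : ℤ) : ℝ))
        = x - fun i => (Pool.Agent.W376.ME.shf m i : ℝ) := by
      funext i
      simp [sub_eq_add_neg]
    rw [h3] at h2
    rw [h2]
  have hI0 : 0 ≤ ∫ x in cube, g x := integral_nonneg h0
  have hE : ∫⁻ x in cube, ENNReal.ofReal (g x) = ENNReal.ofReal (∫ x in cube, g x) := by
    rw [ofReal_integral_eq_lintegral_ofReal (integrableOn_cube hg) (Eventually.of_forall h0)]
  rw [← ENNReal.ofReal_le_ofReal_iff (by positivity)]
  calc ENNReal.ofReal (∫ x in ball (0 : V) 3, g x)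
      = ∫⁻ y in ball (0 : V) 3, ENNReal.ofReal (g y) := by
        rw [ofReal_integral_eq_lintegral_ofReal (int_ball hg _ _) (Eventually.of_forall h0)]
    _ ≤ ∫⁻ y in ⋃ m, Pool.Agent.W376.ME.cell m, ENNReal.ofReal (g y) :=
        lintegral_mono_set Pool.Agent.W376.ME.cover
    _ ≤ ∑' m, ∫⁻ y in Pool.Agent.W376.ME.cell m, ENNReal.ofReal (g y) := lintegral_iUnion_le _ _
    _ = ENNReal.ofReal (216 * ∫ x in cube, g x) := by
        simp only [hcell, hE]
        rw [tsum_fintype, Finset.sum_const, ENNReal.ofReal_mul (by norm_num), nsmul_eq_mul]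
        congr 1
        simp

/-- The gradient and the vorticity of a periodic field without divergence. -/
theorem cube_gsq {v : V → V} (hv : SPV v) (hd : ∀ x, ∑ i, pd i (fun y => v y i) x = 0) :
    2 * ∫ x in cube, gsq v x = ∫ x in cube, osq v x := by
  have hsp : ∀ i, SP (fun y => v y i) := fun i =>
    ⟨(contDiff_pi.mp hv.1) i, fun j x => by rw [hv.2 j x]⟩
  have hpd : ∀ i j, SP (pd j (fun y => v y i)) := fun i j => (hsp i).pd j
  have hcross : ∑ i, ∑ j, ∫ x in cube, pd i (fun y => v y j) x * pd j (fun y => v y i) x = 0 := by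
    have h1 : ∀ i j, ∫ x in cube, pd i (fun y => v y j) x * pd j (fun y => v y i) x
        = -∫ x in cube, v x j * pd j (pd i (fun y => v y i)) x := by
      intro i j
      rw [ibp (hsp j) (hpd i j) i, pd_comm (hsp i) i j]
    simp_rw [h1]
    rw [Finset.sum_comm]
    refine Finset.sum_eq_zero fun j _ => ?_
    rw [Finset.sum_neg_distrib, ← integral_finsetSum]
    · have h2 : ∀ x, ∑ i, v x j * pd j (pd i (fun y => v y i)) x = 0 := by
        intro x
        rw [← Finset.mul_sum]
        have h3 : ∑ i, pd j (pd i (fun y => v y i)) x = pd j (fun x => ∑ i, pd i (fun y => v y i) x)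
            x := by
          rw [pd_sum (s := Finset.univ) (fun i _ => hpd i i) j x]
        rw [h3]
        have h4 : (fun x => ∑ i, pd i (fun y => v y i) x) = fun _ => (0 : ℝ) := by
          funext x
          exact hd x
        rw [h4]
        unfold pd
        simp
      simp_rw [h2]
      simp
    · intro i _
      exact ((hsp j).mul ((hpd i i).pd j)).int
  have hc : ∀ i j, Continuous (fun x => pd i (fun y => v y j) x) := fun i j => (hpd j i).cont
  have e1 : ∫ x in cube, osq v x = ∑ i, ∑ j, ∫ x in cube, om v i j x ^ 2 := by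
    unfold osq
    have h5 : ∀ i j, Continuous (fun x => om v i j x ^ 2) := fun i j => ((hc i j).sub (hc j i)).pow 2
    rw [integral_finsetSum _ fun i _ => integrableOn_cube (continuous_finsetSum _ fun j _ => h5 i j)]
    refine Finset.sum_congr rfl fun i _ => ?_
    rw [integral_finsetSum _ fun j _ => integrableOn_cube (h5 i j)]
  have e2 : ∫ x in cube, gsq v x = ∑ i, ∑ j, ∫ x in cube, pd j (fun y => v y i) x ^ 2 := by
    unfold gsq
    have h5 : ∀ i j, Continuous (fun x => pd j (fun y => v y i) x ^ 2) := fun i j => (hc j i).pow 2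
    rw [integral_finsetSum _ fun i _ => integrableOn_cube (continuous_finsetSum _ fun j _ => h5 i j)]
    refine Finset.sum_congr rfl fun i _ => ?_
    rw [integral_finsetSum _ fun j _ => integrableOn_cube (h5 i j)]
  have e3 : ∀ i j, ∫ x in cube, om v i j x ^ 2 = (∫ x in cube, pd i (fun y => v y j) x ^ 2)
      + (∫ x in cube, pd j (fun y => v y i) x ^ 2)
      - 2 * ∫ x in cube, pd i (fun y => v y j) x * pd j (fun y => v y i) x := by
    intro i j
    have h6 : ∀ x, om v i j x ^ 2 = (pd i (fun y => v y j) x ^ 2 + pd j (fun y => v y i) x ^ 2)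
        - 2 * (pd i (fun y => v y j) x * pd j (fun y => v y i) x) := by
      intro x
      unfold om
      ring
    simp_rw [h6]
    have i1 : IntegrableOn (fun x => pd i (fun y => v y j) x ^ 2) cube :=
      integrableOn_cube ((hc i j).pow 2)
    have i2 : IntegrableOn (fun x => pd j (fun y => v y i) x ^ 2) cube :=
      integrableOn_cube ((hc j i).pow 2)
    have i3 : IntegrableOn (fun x => 2 * (pd i (fun y => v y j) x * pd j (fun y => v y i) x)) cube :=
      integrableOn_cube (continuous_const.mul ((hc i j).mul (hc j i)))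
    have i12 : IntegrableOn (fun x => pd i (fun y => v y j) x ^ 2 + pd j (fun y => v y i) x ^ 2)
        cube := i1.add i2
    rw [integral_sub i12 i3, integral_add i1 i2, integral_const_mul]
  rw [e1, e2]
  simp_rw [e3, Finset.sum_sub_distrib, Finset.sum_add_distrib, ← Finset.mul_sum]
  rw [hcross, Finset.sum_comm (f := fun i j => ∫ x in cube, pd i (fun y => v y j) x ^ 2)]
  ring

theorem per_comp {v : V → V} (hv : Per v) (j : Fin 3) : Per (fun y => v y j) := fun i x => by
  simp only
  rw [hv i x]

theorem per_pd {f : V → ℝ} (hf : Per f) (j : Fin 3) : Per (pd j f) := by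
  intro i x
  unfold pd
  rw [W398.MD.FLOWX.per_fderiv hf i x]

theorem per_osq {v : V → V} (hv : Per v) : Per (osq v) := by
  intro k x
  unfold osq om
  refine Finset.sum_congr rfl fun i _ => Finset.sum_congr rfl fun j _ => ?_
  rw [per_pd (per_comp hv j) i k x, per_pd (per_comp hv i) j k x]

theorem per_gsq {v : V → V} (hv : Per v) : Per (gsq v) := by
  intro k x
  unfold gsq
  refine Finset.sum_congr rfl fun i _ => Finset.sum_congr rfl fun j _ => ?_
  rw [per_pd (per_comp hv i) j k x]

theorem per_en {v : V → V} (hv : Per v) (r : ℝ) : Per (en r v) := by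
  intro k x
  unfold en
  congr 1
  refine integral_congr_ae (Eventually.of_forall fun z => ?_)
  have e : x + Pi.single k 1 + r • z = (x + r • z) + Pi.single k 1 := by abel
  simp only [e]
  rw [per_osq hv k]

theorem per_kv {f : V → ℝ} (hf : Per f) (k : V → ℝ) (ρ : ℝ) : Per (kv k ρ f) := by
  intro i x
  unfold kv
  refine integral_congr_ae (Eventually.of_forall fun z => ?_)
  have e : x + Pi.single i 1 + ρ • z = (x + ρ • z) + Pi.single i 1 := by abel
  simp only [e]
  rw [hf i]

/-- The mollified gradient at the scale of the period. -/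
theorem per_top {v : V → V} (hv : SPV v) (hd : ∀ x, ∑ i, pd i (fun y => v y i) x = 0) {r M : ℝ}
    (hr : 0 < r) (hr1 : r ≤ 1) (hM : ∀ w, ∫ y in ball w (3 / 4 * r), osq v y ≤ M) (y : V)
    (k j : Fin 3) :
    |kv et 1 (pd k (fun y => v y j)) y| ≤ √(2100 * K0) * √(M / r ^ 3) := by
  have hM0 : 0 ≤ M := (integral_nonneg fun y => osq_nonneg v y).trans (hM 0)
  obtain ⟨y', hy', hyy⟩ := W398.MD.FLOWX.per_cube
    (per_kv (per_pd (per_comp hv.2 j) k) et 1) y
  rw [hyy]
  have h2 := kv_sq ker_et (f := pd k (fun y => v y j)) (sm_pd (sm_comp hv.1 j) k).continuous 1 y'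
  have h3 : ∫ z in ball (0 : V) 1, pd k (fun y => v y j) (y' + (1 : ℝ) • z) ^ 2
      ≤ ∫ x in ball (0 : V) 3, gsq v x := by
    have h4 := cov' (fun x => pd k (fun y => v y j) x ^ 2) y' (r := 1) (ρ := 1) one_pos
    rw [h4]
    simp only [one_pow, inv_one, one_mul]
    have h5 : ∫ x in ball y' 1, pd k (fun y => v y j) x ^ 2 ≤ ∫ x in ball y' 1, gsq v x := by
      refine setIntegral_mono (int_ball ((sm_pd (sm_comp hv.1 j) k).continuous.pow 2) _ _)
        (int_ball (gsq_smooth hv.1).continuous _ _) fun x => ?_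
      unfold gsq
      exact (Finset.single_le_sum (f := fun k => pd k (fun y => v y j) x ^ 2)
        (fun _ _ => sq_nonneg _) (Finset.mem_univ k)).trans
        (Finset.single_le_sum (f := fun j => ∑ k, pd k (fun y => v y j) x ^ 2)
          (fun _ _ => Finset.sum_nonneg fun _ _ => sq_nonneg _) (Finset.mem_univ j))
    refine h5.trans (ball_mono (gsq_smooth hv.1).continuous (gsq_nonneg v) ?_)
    refine ball_subset_ball' ?_
    have h6 : dist y' 0 ≤ 1 := by
      rw [dist_zero_right, pi_norm_le_iff_of_nonneg zero_le_one]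
      intro i
      rw [Real.norm_eq_abs, abs_le]
      exact ⟨by linarith [hy'.1 i, show (0 : V) i = 0 from rfl], hy'.2 i⟩
    linarith
  have h7 := ball3_le (gsq_smooth hv.1).continuous (per_gsq hv.2) (gsq_nonneg v)
  have h8 := cube_gsq hv hd
  set x₁ : V := fun _ => 1 / 2 with hx₁
  have h9 : ∫ x in cube, osq v x ≤ ∫ x in ball x₁ 1, osq v x := by
    refine setIntegral_mono_set (int_ball (osq_smooth hv.1).continuous _ _)
      (Eventually.of_forall fun x => osq_nonneg v x) (Eventually.of_forall fun x hx => ?_)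
    change x ∈ ball x₁ 1
    have hx' : x ∈ cube := hx
    rw [mem_ball, dist_eq_norm, pi_norm_lt_iff one_pos]
    intro i
    rw [Real.norm_eq_abs, abs_lt, Pi.sub_apply]
    have a1 : 0 ≤ x i := hx'.1 i
    have a2 : x i ≤ 1 := hx'.2 i
    have a3 : x₁ i = 1 / 2 := rfl
    rw [a3]
    constructor <;> norm_num <;> linarith
  have h10 := cover (osq_smooth hv.1).continuous (osq_nonneg v) (x := x₁) (ρ := 1)
    (s := 3 / 4 * r) (M := M) one_pos (by positivity) fun w _ => hM w
  have h11 : ((1 + 3 / 4 * r) / (3 / 4 * r)) ^ 3 * M ≤ 19 * (M / r ^ 3) := by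
    have h12 : (1 + 3 / 4 * r) / (3 / 4 * r) ≤ 8 / 3 * (1 / r) := by
      rw [div_le_iff₀ (by positivity)]
      have : 8 / 3 * (1 / r) * (3 / 4 * r) = 2 := by
        field_simp
        norm_num
      rw [this]
      linarith
    calc ((1 + 3 / 4 * r) / (3 / 4 * r)) ^ 3 * M ≤ (8 / 3 * (1 / r)) ^ 3 * M := by
          gcongr
      _ = 512 / 27 * (M / r ^ 3) := by ring
      _ ≤ 19 * (M / r ^ 3) := by
          gcongr
          norm_num
  have h13 : kv et 1 (pd k (fun y => v y j)) y' ^ 2 ≤ (2100 * K0) * (M / r ^ 3) := by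
    have h14 : ∫ x in ball (0 : V) 3, gsq v x ≤ 2100 * (M / r ^ 3) := by
      have : 0 ≤ M / r ^ 3 := by positivity
      linarith
    calc kv et 1 (pd k (fun y => v y j)) y' ^ 2
        ≤ K0 * (2100 * (M / r ^ 3)) :=
          h2.trans (mul_le_mul le_rfl (h3.trans h14) (integral_nonneg fun _ => sq_nonneg _)
            K0_nonneg)
      _ = _ := by ring
  refine (Real.abs_le_sqrt h13).trans (le_of_eq ?_)
  rw [Real.sqrt_mul (mul_nonneg (by norm_num) K0_nonneg)]

end Pool.Agent.H946.NS
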