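import Pool.Agent.H946_NS.Glob

/-!
Periodic solutions: the localised enstrophies stay bounded for a short time.
-/

set_option autoImplicit false

open MeasureTheory Set Metric Filter Topology
open scoped ContDiff ENNReal

namespace Pool.Agent.H946.NS

open H459R3.NS W221.NS Pool.Agent.W583.MD

/-- The global proposition. -/
theorem glob_prop : ∃ C : ℝ, 1 ≤ C ∧ ∀ (T : ℝ) (u : ℝ → V → V) (p : ℝ → V → ℝ), IsSol 1 T u p →
    ∀ r t₀ M : ℝ, 0 < r → r ≤ 1 → t₀ ∈ Ioo 0 T → 0 < M → (∀ x, en r (u t₀) x ≤ M) →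
      (T - t₀) * (C * (M / r ^ 2 + √(M / r ^ 3) * (1 + Real.log (1 / r)) * M + M ^ 3)) < M →
      ∀ t ∈ Ico t₀ T, ∀ x, en r (u t) x < 2 * M := by
  obtain ⟨C₁, hC₁, hP⟩ := en_path
  set A : ℝ := 2 * √(2100 * K0) + 24 * √K2 + 1 with hA
  have hk0 := Real.sqrt_nonneg (2100 * K0)
  have hk2 := Real.sqrt_nonneg K2
  have hA1 : 1 ≤ A := by linarith
  refine ⟨8 * C₁ * A, by nlinarith, ?_⟩
  intro T u p hu r t₀ M hr hr1 ht₀ hM h0 hM3
  have hL := LS.of_IsSol hu
  by_contra hcon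
  push Not at hcon
  obtain ⟨t', ht', x', hm'⟩ := hcon
  have hcont := en_cont hL.smooth_u r
  have hIco : Ico t₀ T ⊆ Ioo 0 T := fun t ht => ⟨ht₀.1.trans_le ht.1, ht.2⟩
  have hper : ∀ t ∈ Ioo 0 T, Per (u t) := fun t ht => hu.per_u t ⟨ht.1.le, ht.2⟩
  obtain ⟨y', hy', hyy⟩ := W398.MD.FLOWX.per_cube (per_en (hper t' (hIco ht')) r) x'
  rw [hyy] at hm'
  obtain ⟨t₁, ht₁, x₁, hx₁, hm₁, hlt'⟩ := barrier (t₀ := t₀) (T := T) (R := cube)
    isCompact_Icc (e := fun q : ℝ × V => en r (u q.1) q.2) (m := 2 * M)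
    (hcont.mono (prod_mono hIco (subset_univ _)))
    (fun x hx => by
      have := h0 x
      simp only
      linarith) ⟨t', ht', y', hy', hm'⟩
  simp only at hm₁ hlt'
  have hlt : ∀ t ∈ Ico t₀ t₁, ∀ x, en r (u t) x < 2 * M := by
    intro t ht x
    obtain ⟨y, hy, e⟩ := W398.MD.FLOWX.per_cube
      (per_en (hper t (hIco ⟨ht.1, ht.2.trans ht₁.2⟩)) r) x
    rw [e]
    exact hlt' t ht y hy
  -- the flow
  have hG := W496.MD.t_MOLL T u p hu r hr
  obtain ⟨X, hX⟩ := W398.MD.FLOWX.t_FLOWX T (mol r u) hG t₀ t₁ ht₀.1 ht₁.1 ht₁.2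
  have hsub : Ioo t₀ t₁ ⊆ Ioo 0 T := Ioo_subset_Ioo ht₀.1.le ht₁.2.le
  have hfin : X t₁ x₁ = x₁ := hX.fin x₁
  have hpc : ContinuousOn (fun τ => X τ x₁) (Icc t₀ t₁) :=
    hX.cont.comp (f := fun τ : ℝ => (τ, x₁)) (by fun_prop) (fun τ hτ => ⟨hτ, mem_univ _⟩)
  set S : ℝ := A * (√(M / r ^ 3) * (1 + Real.log (1 / r))) with hS
  have hlog : 0 ≤ Real.log (1 / r) := Real.log_nonneg ((one_le_div hr).2 hr1)
  have hS0 : 0 ≤ S := by positivity
  have hder : ∀ t ∈ Ioo t₀ t₁, ∃ D : ℝ, HasDerivAt (fun s => en r (u s) (X s x₁)) D t ∧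
      D ≤ C₁ * (2 * M / r ^ 2 + S * (2 * M) + (2 * M) ^ 3) := by
    intro t ht
    have htT := hsub ht
    have hv : ContDiff ℝ ∞ (u t) := W382.ME.cd_slice hL.smooth_u htT
    have htI : t ∈ Ico t₀ t₁ := ⟨ht.1.le, ht.2⟩
    refine hP T univ u p hL r t₀ t₁ hr ht₀.1.le ht₁.2.le (fun τ => X τ x₁)
      (hX.smooth x₁) t ht (hX.ode x₁ t ht) (subset_univ _) (2 * M) S
      (fun w _ => (hlt t htI w).le) hS0 ?_
    intro y hy k j
    have hballs : ∀ w, ∫ y in ball w (3 / 4 * r), osq (u t) y ≤ 2 * M := fun w =>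
      (le_en hr hv w).trans (hlt t htI w).le
    have h1 := grad_log hv (x := y) (r := r) (d := 1) (M := 2 * M) hr hr1
      (fun z _ => hL.divfree t htT z (mem_univ _)) (fun w _ => hballs w) k j
    have h2 := per_top ⟨hv, hper t htT⟩ (fun x => hL.divfree t htT x (mem_univ _)) hr hr1 hballs y
      k j
    refine h1.trans ((add_le_add_left h2 _).trans ?_)
    have h3 : √(2 * M / r ^ 3) ≤ 2 * √(M / r ^ 3) := by
      have e : 2 * M / r ^ 3 = 2 * (M / r ^ 3) := by ring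
      rw [e, Real.sqrt_mul (by norm_num)]
      have h4 : √(2 : ℝ) ≤ 2 := by
        rw [Real.sqrt_le_left (by norm_num)]
        norm_num
      exact mul_le_mul_of_nonneg_right h4 (Real.sqrt_nonneg _)
    have hq := Real.sqrt_nonneg (M / r ^ 3)
    have h5 : √(2100 * K0) * √(2 * M / r ^ 3) ≤ √(2100 * K0) * (2 * √(M / r ^ 3)) :=
      mul_le_mul_of_nonneg_left h3 hk0
    have h6 : 12 * √K2 * √(2 * M / r ^ 3) * Real.log (1 / r)
        ≤ 12 * √K2 * (2 * √(M / r ^ 3)) * Real.log (1 / r) := by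
      gcongr
    have hb : 0 ≤ √(M / r ^ 3) * Real.log (1 / r) := by positivity
    have e : S = (2 * √(2100 * K0)) * √(M / r ^ 3) + (24 * √K2) * (√(M / r ^ 3)
        * Real.log (1 / r)) + (2 * √(2100 * K0)) * (√(M / r ^ 3) * Real.log (1 / r))
        + (24 * √K2) * √(M / r ^ 3) + (√(M / r ^ 3) * (1 + Real.log (1 / r))) := by
      rw [hS, hA]
      ring
    rw [e]
    have p1 : 0 ≤ (2 * √(2100 * K0)) * (√(M / r ^ 3) * Real.log (1 / r)) := by positivity
    have p2 : 0 ≤ (24 * √K2) * √(M / r ^ 3) := by positivity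
    have p3 : 0 ≤ √(M / r ^ 3) * (1 + Real.log (1 / r)) := by positivity
    linarith
  choose! D hD hDle using hder
  have hφc : ContinuousOn (fun s => en r (u s) (X s x₁)) (Icc t₀ t₁) :=
    hcont.comp (f := fun s : ℝ => ((s, X s x₁) : ℝ × V)) (continuousOn_id.prodMk hpc)
      (fun s hs => ⟨⟨ht₀.1.trans_le hs.1, hs.2.trans_lt ht₁.2⟩, mem_univ _⟩)
  have hmv := mvt_up ht₁.1.le hφc hD hDle
  simp only [hfin] at hmv
  have h0' : en r (u t₀) (X t₀ x₁) ≤ M := h0 _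
  have hQ : C₁ * (2 * M / r ^ 2 + S * (2 * M) + (2 * M) ^ 3)
      ≤ 8 * C₁ * A * (M / r ^ 2 + √(M / r ^ 3) * (1 + Real.log (1 / r)) * M + M ^ 3) := by
    have ha : 0 ≤ √(M / r ^ 3) * (1 + Real.log (1 / r)) := by positivity
    have hb : 0 ≤ M / r ^ 2 := by positivity
    have e1 : 2 * M / r ^ 2 = 2 * (M / r ^ 2) := by ring
    rw [e1, hS]
    have h7 := mul_le_mul_of_nonneg_left (lp_num hA1 hb ha hM.le) (by linarith : (0 : ℝ) ≤ C₁)
    refine h7.trans (le_of_eq ?_)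
    ring
  have hfinal : C₁ * (2 * M / r ^ 2 + S * (2 * M) + (2 * M) ^ 3) * (t₁ - t₀) < M := by
    refine lt_of_le_of_lt ?_ hM3
    have h1 : 0 ≤ C₁ * (2 * M / r ^ 2 + S * (2 * M) + (2 * M) ^ 3) := by positivity
    calc C₁ * (2 * M / r ^ 2 + S * (2 * M) + (2 * M) ^ 3) * (t₁ - t₀)
        ≤ C₁ * (2 * M / r ^ 2 + S * (2 * M) + (2 * M) ^ 3) * (T - t₀) :=
          mul_le_mul_of_nonneg_left (by linarith [ht₁.2]) h1
      _ ≤ 8 * C₁ * A * (M / r ^ 2 + √(M / r ^ 3) * (1 + Real.log (1 / r)) * M + M ^ 3)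
          * (T - t₀) :=
          mul_le_mul_of_nonneg_right hQ (by linarith [ht₁.1, ht₁.2])
      _ = _ := by ring
  linarith

/-- If all localised enstrophies stay bounded, there are no singular points. -/
theorem glob_reg {T : ℝ} {u : ℝ → V → V} {p : ℝ → V → ℝ} (hT : 0 < T) (hu : IsSol 1 T u p)
    {r t₀ K : ℝ} (hr : 0 < r) (hr1 : r ≤ 1) (ht₀ : t₀ ∈ Ioo 0 T)
    (hK : ∀ t ∈ Ico t₀ T, ∀ x, en r (u t) x ≤ K) (x : V) : ¬ Sing T u x := by
  intro hS
  obtain ⟨C, hC, hperl⟩ := B.p_perl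
  have hL := hperl T u p hT hu
  have hLS := LS.of_IsSol hu
  have hκ : 0 ≤ C * √(energy (u 0)) := by positivity
  have heq : ∀ t, ∀ y ∈ ball (0 : V) 3, (fun z => zt z • u t z) =ᶠ[𝓝 y] u t := by
    intro t y hy
    filter_upwards [isOpen_ball.mem_nhds hy] with z hz
    rw [Pool.Agent.W975.ME.zt_one hz, one_smul]
  -- shift to the cell
  set m : H459R3.NS.K3 := fun i => ⌊x i⌋ with hm
  set y : V := fun i => Int.fract (x i) with hy
  have hxy : x = y + fun i => (m i : ℝ) := by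
    funext i
    simp [hy, hm]
  have hycube : y ∈ cube := ⟨fun i => Int.fract_nonneg _, fun i => (Int.fract_lt_one _).le⟩
  have hyn : dist y 0 ≤ 1 := by
    rw [dist_zero_right, pi_norm_le_iff_of_nonneg zero_le_one]
    intro i
    rw [Real.norm_eq_abs, abs_le]
    exact ⟨by linarith [hycube.1 i, show (0 : V) i = 0 from rfl], hycube.2 i⟩
  have hSy : Sing T (fun t z => zt z • u t z) y := by
    intro δ hδ M
    obtain ⟨t, ht, w, hw, hM⟩ := hS (min (min δ 1) T) (lt_min (lt_min hδ one_pos) hT) M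
    have hmin1 : min (min δ 1) T ≤ δ := (min_le_left _ _).trans (min_le_left _ _)
    have hmin2 : min (min δ 1) T ≤ 1 := (min_le_left _ _).trans (min_le_right _ _)
    have ht0 : t ∈ Ico 0 T := ⟨by linarith [ht.1, min_le_right (min δ 1) T], ht.2⟩
    refine ⟨t, ⟨by linarith [ht.1], ht.2⟩, w - fun i => (m i : ℝ), ?_, ?_⟩
    · rw [mem_ball, dist_eq_norm] at hw ⊢
      have e : w - (fun i => (m i : ℝ)) - y = w - x := by
        rw [hxy]
        abel
      rw [e]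
      exact hw.trans_le hmin1
    · have hw' : w - (fun i => (m i : ℝ)) ∈ ball (0 : V) 3 := by
        rw [mem_ball] at hw ⊢
        have e : dist (w - fun i => (m i : ℝ)) y = dist w x := by
          rw [dist_eq_norm, dist_eq_norm, hxy]
          congr 1
          abel
        have := dist_triangle (w - fun i => (m i : ℝ)) y 0
        linarith
      simp only [Pool.Agent.W975.ME.zt_one hw', one_smul]
      have hp := (hu.per_u t ht0).int m (w - fun i => (m i : ℝ))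
      rw [sub_add_cancel] at hp
      rw [← hp]
      exact hM
  refine not_sing hκ hκ hL (x₀ := y) (r := 3 / 4 * r) (t₀ := t₀) (K := K) (by positivity)
    (ball_subset_ball' (by linarith)) ht₀ (fun t ht => ?_) hSy
  have ht0 : t ∈ Ioo 0 T := ⟨ht₀.1.trans_le ht.1, ht.2⟩
  have hv : ContDiff ℝ ∞ (u t) := W382.ME.cd_slice hLS.smooth_u ht0
  have hin : ball y (3 / 4 * r) ⊆ ball (0 : V) 3 := ball_subset_ball' (by linarith)
  have e : ∫ w in ball y (3 / 4 * r), osq (fun z => zt z • u t z) w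
      = ∫ w in ball y (3 / 4 * r), osq (u t) w :=
    setIntegral_congr_fun measurableSet_ball fun w hw => osq_congr (heq t w (hin hw))
  rw [e]
  exact (le_en hr hv y).trans (hK t ht y)

/-- The lower bound, viscosity one. -/
theorem life_one : ∃ C : ℝ, 1 ≤ C ∧ ∀ (T : ℝ) (u : ℝ → V → V) (p : ℝ → V → ℝ), 0 < T →
    IsSol 1 T u p → (∃ x, Sing T u x) → ∀ t ∈ Ioo 0 T, ∀ r : ℝ, 0 < r → r ≤ 1 → ∃ x : V,
      1 ≤ C * ((T - t) * (1 / r ^ 2 + (∫ y in ball x r, osq (u t) y) ^ 2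
        + (1 + Real.log (1 / r)) * √((∫ y in ball x r, osq (u t) y) / r ^ 3))) := by
  obtain ⟨C, hC, H⟩ := glob_prop
  refine ⟨4 * C, by linarith, ?_⟩
  intro T u p hT hu ⟨x₀, hx₀⟩ t ht r hr hr1
  have hLS := LS.of_IsSol hu
  have hv : ContDiff ℝ ∞ (u t) := W382.ME.cd_slice hLS.smooth_u ht
  have hper : Per (u t) := hu.per_u t ⟨ht.1.le, ht.2⟩
  have hlog : 0 ≤ Real.log (1 / r) := Real.log_nonneg ((one_le_div hr).2 hr1)
  have hcont : ContinuousOn (fun x => en r (u t) x) cube :=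
    (en_cont hLS.smooth_u r).comp (f := fun x : V => ((t, x) : ℝ × V)) (by fun_prop)
      (fun x _ => ⟨ht, mem_univ _⟩)
  obtain ⟨x₁, hx₁, hmax⟩ := (isCompact_Icc (a := (0 : V)) (b := 1)).exists_isMaxOn
    ⟨0, le_rfl, zero_le_one⟩ hcont
  have hall : ∀ x, en r (u t) x ≤ en r (u t) x₁ := by
    intro x
    obtain ⟨y, hy, e⟩ := W398.MD.FLOWX.per_cube (per_en hper r) x
    rw [e]
    exact hmax hy
  set W := ∫ y in ball x₁ r, osq (u t) y with hW
  refine ⟨x₁, ?_⟩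
  by_contra hcon
  rw [not_le] at hcon
  have hTt : 0 < T - t := by linarith [ht.2]
  have hW0 : 0 ≤ W := integral_nonneg fun y => osq_nonneg _ y
  have he0 := en_nonneg hr (u t) x₁
  have heW : en r (u t) x₁ ≤ W := en_le hr hv x₁
  -- a positive upper bound which still satisfies the inequality
  set f : ℝ → ℝ := fun m => 4 * C * ((T - t) * (1 / r ^ 2 + m ^ 2
    + (1 + Real.log (1 / r)) * √(m / r ^ 3))) with hf
  have hfc : Continuous f := by
    simp only [hf]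
    fun_prop
  have hev : ∀ᶠ m in 𝓝[>] W, f m < 1 :=
    ((hfc.tendsto W).eventually_lt_const hcon).filter_mono nhdsWithin_le_nhds
  obtain ⟨M, hfM, hMW⟩ := (hev.and self_mem_nhdsWithin).exists
  have hMW' : W < M := hMW
  have hM0 : 0 < M := hW0.trans_lt hMW'
  have hkey := H T u p hu r t M hr hr1 ht hM0 (fun x => (hall x).trans (heW.trans hMW'.le)) (by
    have e : (T - t) * (C * (M / r ^ 2 + √(M / r ^ 3) * (1 + Real.log (1 / r)) * M + M ^ 3))
        = C * ((T - t) * (1 / r ^ 2 + M ^ 2 + (1 + Real.log (1 / r)) * √(M / r ^ 3))) * M := by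
      ring
    rw [e]
    have h1 : C * ((T - t) * (1 / r ^ 2 + M ^ 2 + (1 + Real.log (1 / r)) * √(M / r ^ 3))) < 1 := by
      have h2 : 0 ≤ C * ((T - t) * (1 / r ^ 2 + M ^ 2
          + (1 + Real.log (1 / r)) * √(M / r ^ 3))) := by positivity
      simp only [hf] at hfM
      linarith
    calc _ < 1 * M := mul_lt_mul_of_pos_right h1 hM0
      _ = M := one_mul M)
  exact glob_reg hT hu hr hr1 ht (fun s hs x => (hkey s hs x).le) x₀ hx₀

end Pool.Agent.H946.NS
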