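import Pool.Agent.H946_NS.CF3

/-!
The definitions of the criterion with alternatives.
-/

set_option autoImplicit false

open MeasureTheory Set Metric Filter Topology
open scoped ContDiff ENNReal

namespace Pool.Agent.H946.NS

open H459R3.NS W221.NS Pool.Agent.W583.MD

/-- The stretching `ω · (ω · ∇) v`. -/
noncomputable def stre (v : V → V) (y : V) : ℝ :=
  ∑ j, ∑ k, vort v y j * vort v y k * pd k (fun z => v z j) y

/-- The determinant of the gradient. -/
noncomputable def jac (v : V → V) (y : V) : ℝ :=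
  (Matrix.of fun k j : Fin 3 => pd k (fun z => v z j) y).det

/-- The Lamb vector of `v - b`, minus the gradient of `q`. -/
noncomputable def lam (v b : V → V) (q : V → ℝ) (y : V) : V :=
  ![(v y 1 - b y 1) * vort v y 2 - (v y 2 - b y 2) * vort v y 1 - pd 0 q y,
    (v y 2 - b y 2) * vort v y 0 - (v y 0 - b y 0) * vort v y 2 - pd 1 q y,
    (v y 0 - b y 0) * vort v y 1 - (v y 1 - b y 1) * vort v y 0 - pd 2 q y]

/-- In the ball of radius `s` around `x`, at every point at which the vorticity is longer than `Λ`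
and stretched at a rate above `Λ + h²`, with a small `h` in `L³`, the sine of the angle with the
vorticity at a point of the doubled ball, if it is longer than `l`, is at most `R` times the root of
the distance. -/
def CohS (δ R Λ l s : ℝ) (x : V) (v : V → V) : Prop := ∃ h : V → ℝ, Continuous h ∧
  (∀ y ∈ ball x s, 0 ≤ h y) ∧ ∫ y in ball x s, h y ^ 3 ≤ δ ^ 3 ∧
    ∀ y ∈ ball x s, ∀ z ∈ ball x (2 * s), Λ ^ 2 < vsq v y → l ^ 2 < vsq v z →
      (Λ + h y ^ 2) * gsq v y < stre v y →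
        xsq (vort v y) (vort v z) ≤ R ^ 2 * ‖y - z‖ * (vsq v y * vsq v z)

/-- The stretching is at most a fixed multiple of the determinant of the gradient and
`(L + h²) |∇v|²`, with a small `h` in `L³`. -/
def Prd (δ L s : ℝ) (x : V) (v : V → V) : Prop := ∃ (h : V → ℝ) (c : ℝ), Continuous h ∧ |c| ≤ 4 ∧
  (∀ y ∈ ball x s, 0 ≤ h y) ∧ ∫ y in ball x s, h y ^ 3 ≤ δ ^ 3 ∧
    ∀ y ∈ ball x s, stre v y ≤ c * jac v y + (L + h y ^ 2) * gsq v y

/-- For a field `b` with a gradient of at most `m` in the ball of radius `s` around `x` and a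
function `q`, the vector `Y = (v - b) × ω - ∇ q` satisfies `Y · curl ω ≤ (l + h) |ω| |∇ω|`, with a small
`h` in `L³`, and `|Y| ≤ a |ω|`, where the norm of `a` in `L³` is at most `K`. -/
def Lmb (δ l m K s : ℝ) (x : V) (v : V → V) : Prop := ∃ (b : V → V) (q h a : V → ℝ),
  ContDiff ℝ ∞ b ∧ ContDiff ℝ ∞ q ∧ Continuous h ∧ Continuous a ∧
  (∀ y ∈ ball x s, ∀ i j, |pd i (fun y => b y j) y| ≤ m) ∧ (∀ y ∈ ball x s, 0 ≤ h y ∧ 0 ≤ a y) ∧
  ∫ y in ball x s, h y ^ 3 ≤ δ ^ 3 ∧ ∫ y in ball x s, a y ^ 3 ≤ K ^ 3 ∧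
    ∀ y ∈ ball x s, ∑ i, lam v b q y i * vort (vort v) y i
        ≤ (l + h y) * √(vsq v y * gsq (vort v) y) ∧
      ∑ i, lam v b q y i ^ 2 ≤ a y ^ 2 * vsq v y

end Pool.Agent.H946.NS
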