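import Pool.Agent.H946_NS.G3
import Pool.Agent.H946_NS.H0

/-!
The stretching term modulo a multiple of the determinant of the gradient.
-/

set_option autoImplicit false

open MeasureTheory Set Metric Filter Topology
open scoped ContDiff ENNReal

namespace Pool.Agent.H946.NS

open H459R3.NS W221.NS Pool.Agent.W583.MD

variable {κ : V → ℝ}

theorem jac_dgr (v : V → V) (y : V) : jac v y = dgr v y := by
  rw [jac, Matrix.det_fin_three]
  unfold dgr cof
  simp only [Fin.sum_univ_three, Matrix.of_apply, Matrix.cons_val_zero, Matrix.cons_val_one,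
    Matrix.cons_val]
  ring

theorem gsq_sum (v : V → V) (z : V) : gsq v z = ∑ j, ∑ k, pd k (fun y => v y j) z ^ 2 := rfl

/-- The stretching modulo the determinant, after a small change of the gradient. -/
theorem F_close {v w : V → V} {z : V} {s σ q c : ℝ} (hs : 0 ≤ s) (hσ : 0 ≤ σ) (hq : 0 ≤ q)
    (hc : |c| ≤ 4) (hw : gsq w z = s ^ 2)
    (hvw : ∀ k j, |pd k (fun y => v y j) z - pd k (fun y => w y j) z| ≤ σ)
    (h : stre v z - c * dgr v z ≤ q * gsq v z) :
    stre w z - c * dgr w z ≤ (20 * q + 672 * σ) * s ^ 2 := by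
  have ha : ∀ k j, |pd k (fun y => w y j) z| ≤ s := by
    intro k j
    have h1 := pd_le_gsq w k j z
    rwa [hw, Real.sqrt_sq hs] at h1
  have hvort : ∀ i, |vort w z i| ≤ 2 * s := by
    intro i
    have h1 : ∀ a b c d, |pd a (fun y => w y b) z - pd c (fun y => w y d) z| ≤ 2 * s := by
      intro a b c d
      have := abs_sub (pd a (fun y => w y b) z) (pd c (fun y => w y d) z)
      linarith [ha a b, ha c d]
    unfold vort
    fin_cases i
    · exact h1 1 2 2 1
    · exact h1 2 0 0 2
    · exact h1 0 1 1 0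
  have hdv : ∀ i, |vort v z i - vort w z i| ≤ 2 * σ := by
    intro i
    have h1 : ∀ a b c d, |(pd a (fun y => v y b) z - pd c (fun y => v y d) z)
        - (pd a (fun y => w y b) z - pd c (fun y => w y d) z)| ≤ 2 * σ := by
      intro a b c d
      have e : (pd a (fun y => v y b) z - pd c (fun y => v y d) z)
        - (pd a (fun y => w y b) z - pd c (fun y => w y d) z)
        = (pd a (fun y => v y b) z - pd a (fun y => w y b) z)
          - (pd c (fun y => v y d) z - pd c (fun y => w y d) z) := by ring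
      rw [e]
      have := abs_sub (pd a (fun y => v y b) z - pd a (fun y => w y b) z)
        (pd c (fun y => v y d) z - pd c (fun y => w y d) z)
      linarith [hvw a b, hvw c d]
    unfold vort
    fin_cases i
    · exact h1 1 2 2 1
    · exact h1 2 0 0 2
    · exact h1 0 1 1 0
  have h0 : 0 ≤ s ^ 2 * σ := by positivity
  rcases le_total σ s with hcs | hcs
  · have hp : ∀ j k, |vort v z j * vort v z k * pd k (fun y => v y j) z
        - vort w z j * vort w z k * pd k (fun y => w y j) z| ≤ 56 * (s ^ 2 * σ) := by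
      intro j k
      have h1 := prod_close (s := 2 * s) (σ := 2 * σ) (hvort j) (hvort k)
        (show |pd k (fun y => w y j) z| ≤ 2 * s by linarith [ha k j]) (hdv j) (hdv k)
        (show |pd k (fun y => v y j) z - pd k (fun y => w y j) z| ≤ 2 * σ by linarith [hvw k j])
        (by linarith)
      have e : ∀ a b : ℝ, a + (b - a) = b := fun a b => by ring
      rw [e, e, e] at h1
      linarith
    have hst : stre w z ≤ stre v z + 504 * (s ^ 2 * σ) := by
      have h1 : ∀ j k, vort w z j * vort w z k * pd k (fun y => w y j) z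
          ≤ vort v z j * vort v z k * pd k (fun y => v y j) z + 56 * (s ^ 2 * σ) := fun j k => by
        linarith [(abs_le.1 (hp j k)).1]
      unfold stre
      refine (Finset.sum_le_sum fun j _ => Finset.sum_le_sum fun k _ => h1 j k).trans
        (le_of_eq ?_)
      simp only [Fin.sum_univ_three]
      ring
    have hp2 : ∀ i j k l m n, |pd i (fun y => v y j) z * pd k (fun y => v y l) z
          * pd m (fun y => v y n) z
        - pd i (fun y => w y j) z * pd k (fun y => w y l) z * pd m (fun y => w y n) z|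
        ≤ 7 * (s ^ 2 * σ) := by
      intro i j k l m n
      have h1 := prod_close (ha i j) (ha k l) (ha m n) (hvw i j) (hvw k l) (hvw m n) hcs
      have e : ∀ a b : ℝ, a + (b - a) = b := fun a b => by ring
      rwa [e, e, e] at h1
    have hdet : |dgr v z - dgr w z| ≤ 42 * (s ^ 2 * σ) := by
      unfold dgr cof
      simp only [Fin.sum_univ_three, Matrix.cons_val_zero, Matrix.cons_val_one, Matrix.cons_val]
      have p1 := abs_le.1 (hp2 0 0 1 1 2 2)
      have p2 := abs_le.1 (hp2 0 0 2 1 1 2)
      have p3 := abs_le.1 (hp2 1 0 2 1 0 2)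
      have p4 := abs_le.1 (hp2 1 0 0 1 2 2)
      have p5 := abs_le.1 (hp2 2 0 0 1 1 2)
      have p6 := abs_le.1 (hp2 2 0 1 1 0 2)
      rw [abs_le]
      constructor <;> linarith [p1.1, p1.2, p2.1, p2.2, p3.1, p3.2, p4.1, p4.2, p5.1, p5.2,
        p6.1, p6.2]
    have hdc : c * dgr v z - c * dgr w z ≤ 168 * (s ^ 2 * σ) := by
      rw [← mul_sub]
      refine (le_abs_self _).trans ?_
      rw [abs_mul]
      calc |c| * |dgr v z - dgr w z| ≤ 4 * (42 * (s ^ 2 * σ)) :=
            mul_le_mul hc hdet (abs_nonneg _) (by norm_num)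
        _ = _ := by ring
    have hB : gsq v z ≤ 20 * s ^ 2 := by
      have h2 : ∀ j k, pd k (fun y => v y j) z ^ 2
          ≤ 2 * pd k (fun y => w y j) z ^ 2 + 2 * σ ^ 2 := by
        intro j k
        have h3 : (pd k (fun y => v y j) z - pd k (fun y => w y j) z) ^ 2 ≤ σ ^ 2 := by
          rw [← sq_abs]
          exact pow_le_pow_left₀ (abs_nonneg _) (hvw k j) 2
        nlinarith [sq_nonneg (pd k (fun y => v y j) z - pd k (fun y => w y j) z
          - pd k (fun y => w y j) z)]
      have h3 : gsq v z ≤ ∑ j, ∑ k, (2 * pd k (fun y => w y j) z ^ 2 + 2 * σ ^ 2) := by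
        rw [gsq_sum]
        exact Finset.sum_le_sum fun i _ => Finset.sum_le_sum fun j _ => h2 i j
      have h4 : ∑ j, ∑ k, (2 * pd k (fun y => w y j) z ^ 2 + 2 * σ ^ 2)
          = 2 * s ^ 2 + 18 * σ ^ 2 := by
        rw [← hw, gsq_sum]
        simp only [Fin.sum_univ_three]
        ring
      have h5 : σ ^ 2 ≤ s ^ 2 := pow_le_pow_left₀ hσ hcs 2
      linarith
    have h6 := mul_le_mul_of_nonneg_left hB hq
    have e : (20 * q + 672 * σ) * s ^ 2 = q * (20 * s ^ 2) + 672 * (s ^ 2 * σ) := by ring
    rw [e]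
    linarith
  · have hp : ∀ j k, vort w z j * vort w z k * pd k (fun y => w y j) z ≤ (2 * s) ^ 3 := by
      intro j k
      exact (le_abs_self _).trans (prod_le (hvort j) (hvort k)
        (show |pd k (fun y => w y j) z| ≤ 2 * s by linarith [ha k j]))
    have hst : stre w z ≤ 72 * s ^ 3 := by
      unfold stre
      refine (Finset.sum_le_sum fun j _ => Finset.sum_le_sum fun k _ => hp j k).trans
        (le_of_eq ?_)
      simp only [Fin.sum_univ_three]
      ring
    have hp2 : ∀ i j k l m n, |pd i (fun y => w y j) z * pd k (fun y => w y l) z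
          * pd m (fun y => w y n) z| ≤ s ^ 3 := fun i j k l m n =>
      prod_le (ha i j) (ha k l) (ha m n)
    have hdet : |dgr w z| ≤ 6 * s ^ 3 := by
      unfold dgr cof
      simp only [Fin.sum_univ_three, Matrix.cons_val_zero, Matrix.cons_val_one, Matrix.cons_val]
      have p1 := abs_le.1 (hp2 0 0 1 1 2 2)
      have p2 := abs_le.1 (hp2 0 0 2 1 1 2)
      have p3 := abs_le.1 (hp2 1 0 2 1 0 2)
      have p4 := abs_le.1 (hp2 1 0 0 1 2 2)
      have p5 := abs_le.1 (hp2 2 0 0 1 1 2)
      have p6 := abs_le.1 (hp2 2 0 1 1 0 2)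
      rw [abs_le]
      constructor <;> linarith [p1.1, p1.2, p2.1, p2.2, p3.1, p3.2, p4.1, p4.2, p5.1, p5.2,
        p6.1, p6.2]
    have hdc : -(c * dgr w z) ≤ 24 * s ^ 3 := by
      refine (neg_le_abs _).trans ?_
      rw [abs_mul]
      calc |c| * |dgr w z| ≤ 4 * (6 * s ^ 3) := mul_le_mul hc hdet (abs_nonneg _) (by norm_num)
        _ = _ := by ring
    have h1 : s ^ 3 ≤ s ^ 2 * σ := by
      calc s ^ 3 = s ^ 2 * s := by ring
        _ ≤ _ := mul_le_mul_of_nonneg_left hcs (sq_nonneg s)
    have h3 : 0 ≤ q * s ^ 2 := by positivity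
    have e : (20 * q + 672 * σ) * s ^ 2 = 20 * (q * s ^ 2) + 672 * (s ^ 2 * σ) := by ring
    rw [e]
    linarith

/-- The pointwise estimate of the stretching term. -/
theorem pt_prod {v : V → V} (hs : ContDiff ℝ ∞ v) (hd : ∀ y ∈ ball (0 : V) 8, dv v y = 0)
    {N S q d : ℝ} (hN : ∫ x in ball (0 : V) 8, osq v x ≤ N) (hS0 : 0 ≤ S)
    (hS : ∀ x ∈ ball (0 : V) 1, ∀ k j, |kv et 1 (pd k (fun y => v y j)) x| ≤ S) {z : V}
    (hz : z ∈ ball (0 : V) 1) (hq : 0 ≤ q) (hcd : |d| ≤ 4)
    (hdet : stre v z - d * dgr v z ≤ q * gsq v z) :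
    -str v z ≤ 6 * S * osq v z + 4 * d * dgr (bb v) z + (80 * q + 2688 * S) * gsq (bb v) z
      + 144 * √(K0 * N) * gsq (bb v) z + 36 * (K0 * N) * √(gsq (bb v) z) := by
  have hN0 : 0 ≤ N := (integral_nonneg fun x => osq_nonneg v x).trans hN
  have hK0 := K0_nonneg
  have hvs := vsq_nonneg v z
  have hov := osq_vsq v z
  have hdz : dv v z = 0 := hd z (ball_subset_ball (by norm_num) hz)
  have e0 : -str v z = 4 * ∑ j, ∑ k, vort v z j * vort v z k * pd k (fun y => v y j) z := by
    rw [str_vort, hdz]
    ring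
  set w := bb v with hw
  set G := √(gsq w z) with hG
  have hG0 : 0 ≤ G := Real.sqrt_nonneg _
  have hG2 : G ^ 2 = gsq w z := Real.sq_sqrt (gsq_nonneg w z)
  set b := √(K0 * N) with hb
  have hb0 : 0 ≤ b := Real.sqrt_nonneg _
  have hb2 : b ^ 2 = K0 * N := Real.sq_sqrt (by positivity)
  have e1 : ∀ j k, pd k (fun y => v y j) z = kv et 1 (pd k (fun y => v y j)) z
      + pd k (fun y => w y j) z := by
    intro j k
    rw [hw, pd_bb hs k j z]
    ring
  have e2 : ∑ j, ∑ k, vort v z j * vort v z k * pd k (fun y => v y j) z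
      = (∑ j, ∑ k, vort v z j * vort v z k * kv et 1 (pd k (fun y => v y j)) z)
        + ∑ j, ∑ k, vort v z j * vort v z k * pd k (fun y => w y j) z := by
    simp_rw [e1]
    simp only [Fin.sum_univ_three]
    ring
  have b1 : |∑ j, ∑ k, vort v z j * vort v z k * kv et 1 (pd k (fun y => v y j)) z|
      ≤ 3 * (S * vsq v z) := quad_le v z hS0 fun j k => hS z hz k j
  -- the averaged vorticity
  set c : Fin 3 → ℝ := ![kv et 1 (om v 1 2) z, kv et 1 (om v 2 0) z, kv et 1 (om v 0 1) z] with hc
  have hcb : ∀ i, |c i| ≤ b := by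
    have h1 : ∀ i j, |kv et 1 (om v i j) z| ≤ b := by
      intro i j
      apply Real.abs_le_sqrt
      have h2 := kv_sq ker_et (om_smooth hs i j).continuous 1 z
      refine h2.trans (mul_le_mul_of_nonneg_left ?_ hK0)
      rw [cov' (fun y => om v i j y ^ 2) z one_pos, one_mul, one_pow, inv_one, one_mul]
      have h3 : ∫ y in ball z 1, om v i j y ^ 2 ≤ ∫ y in ball z 1, osq v y :=
        setIntegral_mono (int_ball ((om_smooth hs i j).continuous.pow 2) _ _)
          (int_ball (osq_smooth hs).continuous _ _) fun y => om_sq_le v i j y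
      refine h3.trans ((ball_mono (osq_smooth hs).continuous (osq_nonneg v)
        (ball_subset_ball' ?_)).trans hN)
      rw [dist_zero_right]
      have := mem_ball_zero_iff.1 hz
      linarith
    intro i
    fin_cases i
    · exact h1 1 2
    · exact h1 2 0
    · exact h1 0 1
  have hvb : ∀ i, vort v z i = vort w z i + c i := fun i => congrFun (vort_bb hs z) i
  have hg : ∀ k j, |pd k (fun y => w y j) z| ≤ G := fun k j => pd_le_gsq w k j z
  have hvw : ∀ i, |vort w z i| ≤ 2 * G := by
    intro i
    have h1 : ∀ a b c d, |pd a (fun y => w y b) z - pd c (fun y => w y d) z| ≤ 2 * G := by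
      intro a b c d
      have := abs_sub (pd a (fun y => w y b) z) (pd c (fun y => w y d) z)
      linarith [hg a b, hg c d]
    unfold vort
    fin_cases i
    · exact h1 1 2 2 1
    · exact h1 2 0 0 2
    · exact h1 0 1 1 0
  have e3 : ∑ j, ∑ k, vort v z j * vort v z k * pd k (fun y => w y j) z
      = (∑ j, ∑ k, vort w z j * vort w z k * pd k (fun y => w y j) z)
        + ∑ j, ∑ k, (vort w z j * c k + c j * vort w z k + c j * c k)
          * pd k (fun y => w y j) z := by
    simp_rw [hvb]
    simp only [Fin.sum_univ_three]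
    ring
  have b2 : ∑ j, ∑ k, (vort w z j * c k + c j * vort w z k + c j * c k) * pd k (fun y => w y j) z
      ≤ 36 * b * G ^ 2 + 9 * b ^ 2 * G := by
    have h1 : ∀ j k, (vort w z j * c k + c j * vort w z k + c j * c k) * pd k (fun y => w y j) z
        ≤ (4 * (G * b) + b ^ 2) * G := by
      intro j k
      refine (le_abs_self _).trans ?_
      rw [abs_mul]
      refine mul_le_mul ?_ (hg k j) (abs_nonneg _) (by positivity)
      have t1 : |vort w z j * c k| ≤ 2 * G * b := by
        rw [abs_mul]
        exact mul_le_mul (hvw j) (hcb k) (abs_nonneg _) (by positivity)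
      have t2 : |c j * vort w z k| ≤ b * (2 * G) := by
        rw [abs_mul]
        exact mul_le_mul (hcb j) (hvw k) (abs_nonneg _) hb0
      have t3 : |c j * c k| ≤ b * b := by
        rw [abs_mul]
        exact mul_le_mul (hcb j) (hcb k) (abs_nonneg _) hb0
      have t4 := abs_add_le (vort w z j * c k + c j * vort w z k) (c j * c k)
      have t5 := abs_add_le (vort w z j * c k) (c j * vort w z k)
      nlinarith
    have h2 := Finset.sum_le_sum fun (j : Fin 3) (_ : j ∈ Finset.univ) =>
      Finset.sum_le_sum fun (k : Fin 3) (_ : k ∈ Finset.univ) => h1 j k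
    refine h2.trans (le_of_eq ?_)
    simp only [Fin.sum_univ_three]
    ring
  -- the determinant
  have hdet3 : stre w z - d * dgr w z ≤ (20 * q + 672 * S) * gsq w z := by
    have h1 := F_close (v := v) (w := w) (z := z) hG0 hS0 hq hcd hG2.symm (fun k j => by
      rw [e1 j k, add_sub_cancel_right]
      exact hS z hz k j) hdet
    rwa [hG2] at h1
  have hst : ∑ j, ∑ k, vort w z j * vort w z k * pd k (fun y => w y j) z = stre w z := rfl
  rw [e0, e2, e3, hst]
  have a1 := (abs_le.1 b1).2
  rw [← hb2]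
  have a2 : 4 * (36 * b * G ^ 2 + 9 * b ^ 2 * G) = 144 * b * gsq w z + 36 * b ^ 2 * G := by
    rw [hG2]
    ring
  have a3 : 4 * (3 * (S * vsq v z)) = 6 * S * osq v z := by
    rw [hov]
    ring
  linarith

end Pool.Agent.H946.NS
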