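import Pool.Agent.H946_NS.H9

/-!
The periodic case: growth at the record times, for a rate at the levels in a given set.
-/

set_option autoImplicit false

open MeasureTheory Set Metric Filter Topology
open scoped ContDiff ENNReal

namespace Pool.Agent.H946.NS

open H459R3.NS W221.NS Pool.Agent.W583.MD

variable {κ : V → ℝ}

/-- The set of levels, in a bounded interval. -/
theorem lev_split {S : Set ℝ} {a b : ℝ} (hab : 0 ≤ a) :
    (volume (S ∩ Ioo 0 b)).toReal ≤ a + (volume (S ∩ Ioo a b)).toReal := by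
  have h1 : S ∩ Ioo 0 b ⊆ Ioc 0 a ∪ (S ∩ Ioo a b) := by
    rintro z ⟨hzS, hz⟩
    rcases le_or_gt z a with h | h
    · exact Or.inl ⟨hz.1, h⟩
    · exact Or.inr ⟨hzS, h, hz.2⟩
  have hf : volume (S ∩ Ioo a b) ≠ ⊤ :=
    ((measure_mono inter_subset_right).trans_lt
      (by rw [Real.volume_Ioo]; exact ENNReal.ofReal_lt_top)).ne
  have h2 : volume (S ∩ Ioo 0 b) ≤ ENNReal.ofReal a + volume (S ∩ Ioo a b) := by
    refine (measure_mono h1).trans ((measure_union_le _ _).trans ?_)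
    rw [Real.volume_Ioc, sub_zero]
  have h3 := ENNReal.toReal_mono (ENNReal.add_ne_top.2 ⟨ENNReal.ofReal_ne_top, hf⟩) h2
  rwa [ENNReal.toReal_add ENNReal.ofReal_ne_top hf, ENNReal.toReal_ofReal hab] at h3

/-- A shift of the levels. -/
theorem lev_shift {S : Set ℝ} {θ K : ℝ} (c : ℝ) (hθ : 0 < θ)
    (h : ∀ a, 0 ≤ a → θ * a - K ≤ (volume (S ∩ Ioo 0 a)).toReal) :
    ∀ a, 0 ≤ a → θ * a - (|K| + (1 + θ) * |c|)
      ≤ (volume ((fun s => s - c) ⁻¹' S ∩ Ioo 0 a)).toReal := by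
  intro a ha
  have e : (fun s : ℝ => s - c) ⁻¹' S ∩ Ioo 0 a = (fun s => s - c) ⁻¹' (S ∩ Ioo (-c) (a - c)) := by
    ext z
    simp only [mem_inter_iff, mem_preimage, mem_Ioo]
    constructor
    · rintro ⟨h1, h2, h3⟩
      exact ⟨h1, by linarith, by linarith⟩
    · rintro ⟨h1, h2, h3⟩
      exact ⟨h1, by linarith, by linarith⟩
  have e2 : volume ((fun s : ℝ => s - c) ⁻¹' (S ∩ Ioo (-c) (a - c)))
      = volume (S ∩ Ioo (-c) (a - c)) := by
    simp_rw [sub_eq_add_neg]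
    exact measure_preimage_add_right volume (-c) _
  rw [e, e2]
  have h1 : S ∩ Ioo 0 (a - c) ⊆ Ioc 0 |c| ∪ (S ∩ Ioo (-c) (a - c)) := by
    rintro z ⟨hzS, hz⟩
    rcases le_or_gt z |c| with h | h
    · exact Or.inl ⟨hz.1, h⟩
    · exact Or.inr ⟨hzS, (neg_le_abs c).trans_lt h, hz.2⟩
  have hf : volume (S ∩ Ioo (-c) (a - c)) ≠ ⊤ :=
    ((measure_mono inter_subset_right).trans_lt
      (by rw [Real.volume_Ioo]; exact ENNReal.ofReal_lt_top)).ne
  have h2 : volume (S ∩ Ioo 0 (a - c)) ≤ ENNReal.ofReal |c| + volume (S ∩ Ioo (-c) (a - c)) := by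
    refine (measure_mono h1).trans ((measure_union_le _ _).trans ?_)
    rw [Real.volume_Ioc, sub_zero]
  have h3 := ENNReal.toReal_mono (ENNReal.add_ne_top.2 ⟨ENNReal.ofReal_ne_top, hf⟩) h2
  rw [ENNReal.toReal_add ENNReal.ofReal_ne_top hf, ENNReal.toReal_ofReal (abs_nonneg c)] at h3
  have hK := le_abs_self K
  have hc1 := le_abs_self c
  have hc2 := abs_nonneg c
  have h5 : 0 ≤ θ * |c| := by positivity
  rcases le_total 0 (a - c) with hac | hac
  · have h4 := h (a - c) hac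
    have h6 : θ * c ≤ θ * |c| := mul_le_mul_of_nonneg_left hc1 hθ.le
    nlinarith
  · have h4 : 0 ≤ (volume (S ∩ Ioo (-c) (a - c))).toReal := ENNReal.toReal_nonneg
    have h6 : θ * a ≤ θ * |c| := mul_le_mul_of_nonneg_left (by linarith) hθ.le
    have h7 := abs_nonneg K
    nlinarith

/-- The criterion for a rate at the levels in `S`, viscosity one. -/
theorem lev_one (hκ : Cut κ) {T t₀ K θ K' : ℝ} {u : ℝ → V → V} {p : ℝ → V → ℝ} {r g : ℝ → ℝ}
    {S : Set ℝ} (hS : MeasurableSet S) (hθ : 0 < θ)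
    (hSd : ∀ a, 0 ≤ a → θ * a - K' ≤ (volume (S ∩ Ioo 0 a)).toReal) (hu : IsSol 1 T u p) (ht₀ : t₀ ∈ Ioo 0 T) (hr : AntitoneOn r (Ico t₀ T))
    (hrp : ∀ t ∈ Ico t₀ T, 0 < r t ∧ r t ≤ 1) (hint : ∀ t ∈ Ioo t₀ T, IntegrableOn g (Ioo t₀ t))
    (hgr : ∀ᵐ t ∂((volume : Measure ℝ).restrict (Ioo t₀ T)), 0 ≤ g t ∧
      ((∀ s ∈ Ioo t₀ t, ∀ y, ∃ x, enk κ (r s) (u s) y ≤ enk κ (r t) (u t) x) →
        (∀ x, (∀ y, enk κ (r t) (u t) y ≤ enk κ (r t) (u t) x) →
          0 < enk κ (r t) (u t) x ∧ Real.log (enk κ (r t) (u t) x) ∈ S) →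
        ∃ x, (∀ y, enk κ (r t) (u t) y ≤ enk κ (r t) (u t) x) ∧
          Dk κ (r t) x (u t) ≤ g t * enk κ (r t) (u t) x))
    (hfreq : ∃ᶠ t in 𝓝[<] T, (T - t) ^ 9 ≤ r t ^ 16 ∧
      ∫ s in Ioo t₀ t, g s ≤ θ / 32 * Real.log (1 / (T - t)) + K) (x₀ : V) :
    ¬ Sing T u x₀ := by
  obtain ⟨C₁, hC₁, hSt⟩ := star_one
  obtain ⟨a, ha, ha1, hlow⟩ := hκ.low
  intro hx₀
  have hT : 0 < T := ht₀.1.trans ht₀.2
  have hL := LS.of_IsSol hu
  have ht₀I : t₀ ∈ Ico t₀ T := ⟨le_rfl, ht₀.2⟩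
  -- the initial value
  obtain ⟨M₀, hM₀1, h0⟩ : ∃ M₀ : ℝ, 1 ≤ M₀ ∧ ∀ x, enk κ (r t₀) (u t₀) x < M₀ := by
    have hv : ContDiff ℝ ∞ (u t₀) := W382.ME.cd_slice hL.smooth_u ht₀
    obtain ⟨x, hx, hmax⟩ := (isCompact_Icc (a := (0 : V)) (b := 1)).exists_isMaxOn
      ⟨0, le_rfl, zero_le_one⟩ (enk_smooth hκ hv (r t₀)).continuous.continuousOn
    have hn := enk_nonneg hκ (hrp t₀ ht₀I).1 (u t₀) x
    refine ⟨enk κ (r t₀) (u t₀) x + 1, by linarith, fun y => ?_⟩
    obtain ⟨y', hy', e⟩ := W398.MD.FLOWX.per_cube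
      (per_enk κ (hu.per_u t₀ ⟨ht₀.1.le, ht₀.2⟩) (r t₀)) y
    rw [e]
    have : enk κ (r t₀) (u t₀) y' ≤ enk κ (r t₀) (u t₀) x := hmax hy'
    linarith
  have hM₀ : 0 < M₀ := by linarith
  have hlM₀ : 0 ≤ Real.log M₀ := Real.log_nonneg hM₀1
  set A : ℝ := (|K'| + Real.log M₀ + 5 + 2 * |K|) / θ with hA
  have hA0 : 0 ≤ A := by positivity
  set K₁ : ℝ := M₀ * Real.exp A / a ^ 2 with hK₁
  have hK₁0 : 0 < K₁ := by positivity
  set Q : ℝ := C₁ * (K₁ ^ 2 + (10 + 1 / a) * √(K₁ / a ^ 3)) with hQ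
  have hQ0 : 0 < Q := by positivity
  -- small times
  have hq : Tendsto (fun t : ℝ => (T - t) ^ (1 / 16 : ℝ)) (𝓝[<] T) (𝓝 0) := by
    have h1 : Tendsto (fun t : ℝ => T - t) (𝓝[<] T) (𝓝 0) := by
      have : Tendsto (fun t : ℝ => T - t) (𝓝 T) (𝓝 (T - T)) := by
        exact (continuous_const.sub continuous_id).tendsto T
      rw [sub_self] at this
      exact this.mono_left nhdsWithin_le_nhds
    have h2 := h1.rpow_const (p := (1 / 16 : ℝ)) (Or.inr (by norm_num))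
    rwa [Real.zero_rpow (by norm_num)] at h2
  have hev : ∀ᶠ t in 𝓝[<] T, (T - t) ^ (1 / 16 : ℝ) < min 1 (1 / (1 + Q)) :=
    hq.eventually_lt_const (by positivity)
  have hev2 : ∀ᶠ t in 𝓝[<] T, t ∈ Ioo t₀ T := Ioo_mem_nhdsLT ht₀.2
  obtain ⟨t, ⟨hrT, hle⟩, hqt, htI⟩ := (hfreq.and_eventually (hev.and hev2)).exists
  set s := T - t with hs
  have hs0 : 0 < s := by linarith [htI.2]
  set q := s ^ (1 / 16 : ℝ) with hqdef
  have hq0 : 0 < q := by positivity
  have hq1 : q ≤ 1 := hqt.le.trans (min_le_left _ _)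
  have hq2 : q < 1 / (1 + Q) := hqt.trans_le (min_le_right _ _)
  have hsq : s = q ^ 16 := by
    rw [hqdef, ← Real.rpow_natCast, ← Real.rpow_mul hs0.le]
    norm_num
  have htI' : t ∈ Ico t₀ T := ⟨htI.1.le, htI.2⟩
  have ht0T : t ∈ Ioo 0 T := ⟨ht₀.1.trans htI.1, htI.2⟩
  obtain ⟨hr0, hr1⟩ := hrp t htI'
  have hrq : q ^ 9 ≤ r t := by
    have h1 : (q ^ 9) ^ 16 ≤ r t ^ 16 := by
      calc (q ^ 9) ^ 16 = (q ^ 16) ^ 9 := by ring
        _ = s ^ 9 := by rw [← hsq]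
        _ ≤ r t ^ 16 := hrT
    exact (pow_le_pow_iff_left₀ (by positivity) hr0.le (by norm_num)).1 h1
  -- the growth
  have hsub : Ioo t₀ t ⊆ Ioo t₀ T := Ioo_subset_Ioo_right htI.2.le
  have hIcc : Icc t₀ t ⊆ Ico t₀ T := fun τ hτ => ⟨hτ.1, hτ.2.trans_lt htI.2⟩
  have hlog : 0 ≤ Real.log (1 / s) := by
    apply Real.log_nonneg
    rw [one_le_div hs0, hsq]
    exact pow_le_one₀ hq0.le hq1
  have h5 : 1 / 16 * Real.log (1 / s) = Real.log (1 / q) := by
    have : 1 / s = (1 / q) ^ 16 := by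
      rw [hsq]
      field_simp
    rw [this, Real.log_pow]
    push_cast
    ring
  have hgrow : ∀ x, enk κ (r t) (u t) x ≤ M₀ * (Real.exp A / q) := by
    intro x
    have hq1' : 1 ≤ 1 / q := by
      rw [le_div_iff₀ hq0]
      linarith
    have hE1 : 1 ≤ Real.exp A := Real.one_le_exp hA0
    have hEq : 1 ≤ Real.exp A / q := by
      rw [le_div_iff₀ hq0]
      nlinarith
    rcases le_or_gt (enk κ (r t) (u t) x) M₀ with h | h
    · nlinarith
    have h1 := grow_lev hκ hu ht₀.1 htI.1 htI.2 (r := r) (g := g) hS (hr.mono hIcc)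
      (fun τ hτ => (hrp τ (hIcc hτ)).1) (hint t htI)
      (ae_restrict_of_ae_restrict_of_subset hsub hgr) hM₀ h0 h
    set m := enk κ (r t) (u t) x with hm
    have hm0 : 0 < m := hM₀.trans h
    have h2 : Real.log M₀ ≤ Real.log m := Real.log_le_log hM₀ h.le
    have h3 := hSd (Real.log m) (hlM₀.trans h2)
    have h4 := lev_split (S := S) (a := Real.log M₀) (b := Real.log m) hlM₀
    have h6 : θ * Real.log m ≤ |K'| + Real.log M₀ + 5 + 2 * |K| + θ * Real.log (1 / q) := by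
      have h7 : K ≤ |K| := le_abs_self K
      have h8 : K' ≤ |K'| := le_abs_self K'
      have h9 : θ / 32 * Real.log (1 / s) = θ / 2 * Real.log (1 / q) := by
        rw [← h5]
        ring
      rw [h9] at hle
      linarith
    have h7 : Real.log m ≤ A + Real.log (1 / q) := by
      have h8 : A + Real.log (1 / q)
          = (|K'| + Real.log M₀ + 5 + 2 * |K| + θ * Real.log (1 / q)) / θ := by
        rw [hA]
        field_simp
      rw [h8, le_div_iff₀ hθ]
      linarith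
    have h8 : m ≤ Real.exp A / q := by
      calc m = Real.exp (Real.log m) := (Real.exp_log hm0).symm
        _ ≤ Real.exp (A + Real.log (1 / q)) := Real.exp_le_exp.2 h7
        _ = _ := by
          rw [Real.exp_add, Real.exp_log (by positivity)]
          ring
    have h9 : 0 ≤ Real.exp A / q := by positivity
    nlinarith
  -- the lower bound
  have har0 : 0 < a * r t := by positivity
  have har1 : a * r t ≤ 1 := mul_le_one₀ ha1 hr0.le hr1
  obtain ⟨x, hx⟩ := hSt T u p hT hu ⟨x₀, hx₀⟩ t ⟨ht0T.1.le, ht0T.2⟩ (a * r t) har0 har1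
  have hv : ContDiff ℝ ∞ (u t) := W382.ME.cd_slice hL.smooth_u ht0T
  have hW : ∫ y in ball x (a * r t), osq (u t) y ≤ K₁ / q := by
    have h1 := enk_low hκ ha ha1 hlow hr0 hv x
    have h2 := h1.trans (hgrow x)
    have h3 : K₁ / q = (M₀ * (Real.exp A / q)) / a ^ 2 := by
      rw [hK₁]
      field_simp
    rw [h3, le_div_iff₀ (by positivity), mul_comm]
    exact h2
  have hfin := last_num2 hC₁ hK₁0.le ha ha1 hr1 hq0 hq1 hsq hrq
    (integral_nonneg fun y => osq_nonneg _ y) hW hx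
  have h9 : Q * q < 1 := by
    have h1 : q * (1 + Q) < 1 := by
      rwa [lt_div_iff₀ (by positivity)] at hq2
    linarith
  linarith

/-- The criterion for a rate at the levels in `S`, general viscosity. -/
theorem lev_nu (hκ : Cut κ) {ν T t₀ K θ K' : ℝ} {u : ℝ → V → V} {p : ℝ → V → ℝ} {r g : ℝ → ℝ}
    {S : Set ℝ} (hS : MeasurableSet S) (hθ : 0 < θ)
    (hSd : ∀ a, 0 ≤ a → θ * a - K' ≤ (volume (S ∩ Ioo 0 a)).toReal)
    {A : ℝ → V → Prop} (hν : 0 < ν) (hu : IsSol ν T u p) (ht₀ : t₀ ∈ Ioo 0 T)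
    (hr : AntitoneOn r (Ico t₀ T)) (hrp : ∀ t ∈ Ico t₀ T, 0 < r t ∧ r t ≤ 1)
    (hint : ∀ t ∈ Ioo t₀ T, IntegrableOn g (Ioo t₀ t))
    (hcoh : ∀ᵐ t ∂((volume : Measure ℝ).restrict (Ioo t₀ T)), 0 ≤ g t ∧
      ((∀ s ∈ Ioo t₀ t, ∀ y, ∃ x, loc κ (r s) (u s) y ≤ loc κ (r t) (u t) x) →
        (∀ x, (∀ y, loc κ (r t) (u t) y ≤ loc κ (r t) (u t) x) →
          Real.log (loc κ (r t) (u t) x) ∈ S) →
        ∃ x, (∀ y, loc κ (r t) (u t) y ≤ loc κ (r t) (u t) x) ∧ A t x))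
    (hA : ∀ t ∈ Ioo t₀ T, ∀ x, A t x →
      (∀ y, enk κ (r t) (fun z => ν⁻¹ • u t z) y ≤ enk κ (r t) (fun z => ν⁻¹ • u t z) x) →
        Dk κ (r t) x (fun z => ν⁻¹ • u t z) ≤ g t / ν * enk κ (r t) (fun z => ν⁻¹ • u t z) x)
    (hfreq : ∃ᶠ t in 𝓝[<] T, (T - t) ^ 5 ≤ r t ^ 9 ∧
      ∫ s in Ioo t₀ t, g s ≤ θ / 32 * Real.log (1 / (T - t)) + K) (x₀ : V) :
    ¬ Sing T u x₀ := by
  intro hx₀
  have hT : 0 < T := ht₀.1.trans ht₀.2
  have h2 := B.p_scale ν T u p hν hT hu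
  have hback : ∀ s, s ∈ Ico (ν * t₀) (ν * T) → s / ν ∈ Ico t₀ T := by
    intro s hs
    constructor
    · rw [le_div_iff₀ hν]
      linarith [hs.1]
    · rw [div_lt_iff₀ hν]
      linarith [hs.2]
  have hback' : ∀ s, s ∈ Ioo (ν * t₀) (ν * T) → s / ν ∈ Ioo t₀ T := by
    intro s hs
    constructor
    · rw [lt_div_iff₀ hν]
      linarith [hs.1]
    · rw [div_lt_iff₀ hν]
      linarith [hs.2]
  have hII : ∀ t ∈ Ioo t₀ T, IntervalIntegrable g volume t₀ t := fun t ht =>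
    (intervalIntegrable_iff_integrableOn_Ioo_of_le ht.1.le).2 (hint t ht)
  set c : ℝ := Real.log (2 / ν ^ 2) with hc
  refine lev_one hκ (K := K + θ / 32 * |Real.log ν|) (r := fun s => r (s / ν))
    (g := fun s => ν⁻¹ * g (s / ν)) (S := (fun s => s - c) ⁻¹' S)
    (hS.preimage (measurable_id.sub_const c)) hθ (lev_shift c hθ hSd) h2
    ⟨mul_pos hν ht₀.1, mul_lt_mul_of_pos_left ht₀.2 hν⟩
    ?_ ?_ ?_ ?_ ?_ x₀ ((sing_scale hν).2 hx₀)
  · intro s hs s' hs' hss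
    exact hr (hback s hs) (hback s' hs') (div_le_div_of_nonneg_right hss hν.le)
  · intro s hs
    exact hrp (s / ν) (hback s hs)
  · intro s hs
    have hs' := hback' s hs
    have h3 := hII _ hs'
    have h4 := h3.comp_mul_left (c := ν⁻¹)
    have e1 : t₀ / ν⁻¹ = ν * t₀ := by field_simp
    have e2 : s / ν / ν⁻¹ = s := by field_simp
    rw [e1, e2] at h4
    have h5 := (intervalIntegrable_iff_integrableOn_Ioo_of_le hs.1.le).1 h4
    refine IntegrableOn.congr_fun (h5.const_mul ν⁻¹) (fun τ hτ => ?_) measurableSet_Ioo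
    rw [inv_mul_eq_div ν τ]
  · rw [ae_restrict_iff' measurableSet_Ioo] at hcoh ⊢
    have hqm : Measure.QuasiMeasurePreserving (fun s : ℝ => ν⁻¹ * s) volume volume := by
      refine ⟨by fun_prop, ?_⟩
      rw [Real.map_volume_mul_left (by positivity)]
      exact Measure.smul_absolutelyContinuous
    filter_upwards [hqm.ae hcoh] with s hs hsI
    rw [inv_mul_eq_div] at hs
    obtain ⟨h3, h56⟩ := hs (hback' s hsI)
    have hrr := (hrp _ (Ioo_subset_Ico_self (hback' s hsI))).1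
    have h7 : 0 < ν⁻¹ ^ 2 := by positivity
    refine ⟨by positivity, fun hrec hlev => ?_⟩
    obtain ⟨x, h5, h6⟩ := h56 (by
      intro τ hτ y
      have hτI : ν * τ ∈ Ioo (ν * t₀) s := by
        refine ⟨mul_lt_mul_of_pos_left hτ.1 hν, ?_⟩
        have := hτ.2
        rwa [lt_div_iff₀ hν, mul_comm] at this
      obtain ⟨x, hx⟩ := hrec (ν * τ) hτI y
      refine ⟨x, ?_⟩
      have e : ν * τ / ν = τ := by field_simp
      have hττ : τ ∈ Ico t₀ T := ⟨hτ.1.le, hτ.2.trans (hback' s hsI).2⟩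
      simp only [e] at hx
      rw [enk_smul, enk_smul, enk_loc hrr, enk_loc (hrp τ hττ).1] at hx
      have h8 : 2 * loc κ (r τ) (u τ) y ≤ 2 * loc κ (r (s / ν)) (u (s / ν)) x :=
        le_of_mul_le_mul_left hx h7
      linarith) (by
      intro x hx
      obtain ⟨h8, h9⟩ := hlev x (fun y => by
        rw [enk_smul, enk_smul, enk_loc hrr, enk_loc hrr]
        have := hx y
        nlinarith)
      rw [mem_preimage] at h9
      rw [enk_smul, enk_loc hrr] at h8 h9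
      have h10 : 0 < loc κ (r (s / ν)) (u (s / ν)) x := by
        by_contra hcon
        rw [not_lt] at hcon
        nlinarith
      have h11 : ν⁻¹ ^ 2 * (2 * loc κ (r (s / ν)) (u (s / ν)) x)
          = 2 / ν ^ 2 * loc κ (r (s / ν)) (u (s / ν)) x := by
        field_simp
      rw [h11, Real.log_mul (by positivity) h10.ne', ← hc, add_sub_cancel_left] at h9
      exact h9)
    have hmax : ∀ y, enk κ (r (s / ν)) (fun x => ν⁻¹ • u (s / ν) x) y
        ≤ enk κ (r (s / ν)) (fun x => ν⁻¹ • u (s / ν) x) x := by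
      intro y
      rw [enk_smul, enk_smul, enk_loc hrr, enk_loc hrr]
      have := h5 y
      nlinarith
    refine ⟨x, hmax, ?_⟩
    have h9 := hA (s / ν) (hback' s hsI) x h6 hmax
    have e : ν⁻¹ * g (s / ν) = g (s / ν) / ν := by rw [inv_mul_eq_div]
    rw [e]
    exact h9
  · -- the frequency
    have htend : Tendsto (fun t : ℝ => ν * t) (𝓝[<] T) (𝓝[<] (ν * T)) := by
      refine tendsto_nhdsWithin_iff.2 ⟨?_, ?_⟩
      · exact ((continuous_const.mul continuous_id).tendsto T).mono_left nhdsWithin_le_nhds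
      · filter_upwards [self_mem_nhdsWithin] with t ht
        exact mul_lt_mul_of_pos_left ht hν
    refine htend.frequently ?_
    have hev : ∀ᶠ t in 𝓝[<] T, t ∈ Ioo t₀ T := Ioo_mem_nhdsLT ht₀.2
    have hev2 : ∀ᶠ t in 𝓝[<] T, t ∈ Ioo (T - 1 / ν ^ 81) T :=
      Ioo_mem_nhdsLT (by
        have : 0 < 1 / ν ^ 81 := by positivity
        linarith)
    refine (hfreq.and_eventually (hev.and hev2)).mono ?_
    rintro t ⟨⟨hrt, hle⟩, htI, htI2⟩
    have hTt : 0 < T - t := by linarith [htI.2]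
    have e2 : ν * t / ν = t := by field_simp
    refine ⟨?_, ?_⟩
    · simp only [e2]
      have hr0 := (hrp t (Ioo_subset_Ico_self htI)).1
      have h3 : ν ^ 81 * (T - t) ≤ 1 := by
        have h4 : T - t ≤ 1 / ν ^ 81 := by linarith [htI2.1]
        rw [le_div_iff₀ (by positivity)] at h4
        linarith
      have h5 : ((ν * T - ν * t) ^ 9) ^ 9 ≤ (r t ^ 16) ^ 9 := by
        calc ((ν * T - ν * t) ^ 9) ^ 9 = (ν ^ 81 * (T - t)) * (T - t) ^ 80 := by ring
          _ ≤ 1 * (T - t) ^ 80 := mul_le_mul_of_nonneg_right h3 (by positivity)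
          _ = ((T - t) ^ 5) ^ 16 := by ring
          _ ≤ (r t ^ 9) ^ 16 := pow_le_pow_left₀ (by positivity) hrt 16
          _ = _ := by ring
      have h6 : 0 ≤ r t ^ 16 := by positivity
      exact (pow_le_pow_iff_left₀ (by
        have : 0 ≤ ν * T - ν * t := by nlinarith
        positivity) h6 (by norm_num)).1 h5
    have h7 : ∫ s in Ioo (ν * t₀) (ν * t), ν⁻¹ * g (s / ν) = ∫ s in Ioo t₀ t, g s := by
      rw [← integral_Ioc_eq_integral_Ioo, ← integral_Ioc_eq_integral_Ioo,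
        ← intervalIntegral.integral_of_le (mul_le_mul_of_nonneg_left htI.1.le hν.le),
        ← intervalIntegral.integral_of_le htI.1.le, intervalIntegral.integral_const_mul,
        intervalIntegral.integral_comp_div (f := g) hν.ne', smul_eq_mul]
      have e1 : ν * t₀ / ν = t₀ := by field_simp
      rw [e1, e2]
      field_simp
    rw [h7]
    have h8 : Real.log (1 / (ν * T - ν * t)) = Real.log (1 / (T - t)) - Real.log ν := by
      rw [← mul_sub, one_div, one_div, mul_inv, Real.log_mul (by positivity) (by positivity),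
        Real.log_inv]
      ring
    rw [h8]
    have h9 : -(θ / 32 * Real.log ν) ≤ θ / 32 * |Real.log ν| := by
      rw [← mul_neg]
      exact mul_le_mul_of_nonneg_left (neg_le_abs _) (by positivity)
    have h10 : θ / 32 * (Real.log (1 / (T - t)) - Real.log ν)
        = θ / 32 * Real.log (1 / (T - t)) - θ / 32 * Real.log ν := by ring
    have h11 : θ / 32 * Real.log ν ≤ θ / 32 * |Real.log ν| :=
      mul_le_mul_of_nonneg_left (le_abs_self _) (by positivity)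
    linarith

end Pool.Agent.H946.NS
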