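import Pool.Agent.H946_NS.H8
import Pool.Agent.H946_NS.H10

/-!
A regularity criterion with alternatives in one ball, at the levels in a given set.
-/

set_option autoImplicit false

open MeasureTheory Set Metric Filter Topology
open scoped ContDiff ENNReal

namespace Pool.Agent.H946.NS

open H459R3.NS W221.NS Pool.Agent.W583.MD

variable {κ : V → ℝ}

/-- A bound for arbitrarily late times, multiplied by a constant. -/
theorem freq_mul3 {T t₀ K C δ θ : ℝ} {g r : ℝ → ℝ} (hC : 1 ≤ C) (hδ : δ ≤ 1 / (64 * C))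
    (hθ : 0 < θ) (h : ∃ᶠ t in 𝓝[<] T, (T - t) ^ 5 ≤ r t ^ 9 ∧
      ∫ s in Ioo t₀ t, g s ≤ δ * θ * Real.log (1 / (T - t)) + K) :
    ∃ᶠ t in 𝓝[<] T, (T - t) ^ 5 ≤ r t ^ 9 ∧ ∫ s in Ioo t₀ t, 2 * C * g s
      ≤ θ / 32 * Real.log (1 / (T - t)) + 2 * C * K := by
  have hev : ∀ᶠ t in 𝓝[<] T, t ∈ Ioo (T - 1) T := Ioo_mem_nhdsLT (by linarith)
  refine (h.and_eventually hev).mono ?_
  rintro t ⟨⟨hr, hle⟩, htI⟩
  refine ⟨hr, ?_⟩
  rw [integral_const_mul]
  have h1 : 0 < T - t := by linarith [htI.2]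
  have h2 : 0 ≤ Real.log (1 / (T - t)) :=
    Real.log_nonneg ((one_le_div h1).2 (by linarith [htI.1]))
  have h3 : ∫ s in Ioo t₀ t, g s ≤ 1 / (64 * C) * θ * Real.log (1 / (T - t)) + K :=
    hle.trans (add_le_add (mul_le_mul_of_nonneg_right
      (mul_le_mul_of_nonneg_right hδ hθ.le) h2) le_rfl)
  calc 2 * C * ∫ s in Ioo t₀ t, g s
      ≤ 2 * C * (1 / (64 * C) * θ * Real.log (1 / (T - t)) + K) :=
        mul_le_mul_of_nonneg_left h3 (by linarith)
    _ = _ := by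
        field_simp
        ring

/-- The criterion with alternatives, at the levels in a given set. -/
theorem alt_lev (hκ : Cut κ) : ∃ ε : ℝ, 0 < ε ∧ ∀ (ν T t₀ K θ C : ℝ) (S : Set ℝ)
    (u : ℝ → V → V) (p : ℝ → V → ℝ) (r g : ℝ → ℝ), 0 < ν → IsSol ν T u p → t₀ ∈ Ioo 0 T →
      0 < θ → MeasurableSet S → (∀ a, 0 ≤ a → θ * a - C ≤ (volume (S ∩ Ioo 0 a)).toReal) →
      AntitoneOn r (Ico t₀ T) → (∀ t ∈ Ico t₀ T, 0 < r t ∧ r t ≤ 1) →
      (∀ t ∈ Ioo t₀ T, IntegrableOn g (Ioo t₀ t)) →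
      (∀ᵐ t ∂((volume : Measure ℝ).restrict (Ioo t₀ T)), 0 ≤ g t ∧
        ((∀ s ∈ Ioo t₀ t, ∀ y, ∃ x, loc κ (r s) (u s) y ≤ loc κ (r t) (u t) x) →
          (∀ x, (∀ y, loc κ (r t) (u t) y ≤ loc κ (r t) (u t) x) →
            Real.log (loc κ (r t) (u t) x) ∈ S) →
          ν / r t ^ 2 ≤ g t ∧ ∃ x, (∀ y, loc κ (r t) (u t) y ≤ loc κ (r t) (u t) x) ∧
            ((∃ l m k : ℝ, 0 ≤ l ∧ 0 ≤ m ∧ 0 ≤ k ∧ l ^ 2 / ν + m + k ^ 2 / (ν * r t ^ 2) ≤ g t ∧
                Lmb (ε * ν) l m k (r t) x (u t)) ∨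
              (∃ ρ Λ l : ℝ, 0 ≤ ρ ∧ 0 ≤ Λ ∧ 0 ≤ l ∧
                Λ + (1 / r t + ρ ^ 2 + r t ^ 3 * l ^ 2 / ν ^ 2)
                  * (∫ y in ball x (8 * r t), gsq (u t) y) / ν ≤ g t ∧
                CohS (ε * √ν) ρ Λ l (r t) x (u t)) ∨
              (∃ L : ℝ, 0 ≤ L ∧ L + (∫ y in ball x (8 * r t), gsq (u t) y) / (r t * ν) ≤ g t ∧
                Prd (ε * √ν) L (r t) x (u t)) ∨
              (∃ a : V, ∑ j, a j ^ 2 = 1 ∧
                (∫ y in ball x (5 * r t), xsq (vort (u t) y) a) ^ 2 / ν ^ 3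
                  + (∫ y in ball x (8 * r t), gsq (u t) y) / (r t * ν) ≤ g t)))) →
      (∃ᶠ t in 𝓝[<] T, (T - t) ^ 5 ≤ r t ^ 9 ∧
        ∫ s in Ioo t₀ t, g s ≤ ε * θ * Real.log (1 / (T - t)) + K) →
      ∀ x, ¬ Sing T u x := by
  obtain ⟨C1, ε1, hC1, hε1, h1⟩ := lamb_loc hκ
  obtain ⟨C2, ε2, hC2, hε2, h2⟩ := coh_loc hκ
  obtain ⟨C3, ε3, hC3, hε3, h3⟩ := prod_loc hκ
  obtain ⟨C4, hC4, h4⟩ := ax_loc hκ
  set C := C1 + C2 + C3 + C4 with hCdef
  have hC : 1 ≤ C := by linarith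
  set ε := min (min ε1 (min ε2 ε3)) (1 / (64 * C)) with hεdef
  have hε : 0 < ε := lt_min (lt_min hε1 (lt_min hε2 hε3)) (by positivity)
  have hεa : ε ≤ ε1 := (min_le_left _ _).trans (min_le_left _ _)
  have hεb : ε ≤ ε2 := (min_le_left _ _).trans ((min_le_right _ _).trans (min_le_left _ _))
  have hεc : ε ≤ ε3 := (min_le_left _ _).trans ((min_le_right _ _).trans (min_le_right _ _))
  have hεd : ε ≤ 1 / (64 * C) := min_le_right _ _
  refine ⟨ε, hε, ?_⟩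
  intro ν T t₀ K θ C' S u p r g hν hu ht₀ hθ hS hSd hr hrp hint hcoh hfreq
  refine lev_nu hκ hS hθ hSd (g := fun t => 2 * C * g t) (K := 2 * C * K) (A := fun t x => ν / r t ^ 2 ≤ g t ∧
      ((∃ l m k : ℝ, 0 ≤ l ∧ 0 ≤ m ∧ 0 ≤ k ∧ l ^ 2 / ν + m + k ^ 2 / (ν * r t ^ 2) ≤ g t ∧
                Lmb (ε * ν) l m k (r t) x (u t)) ∨
              (∃ ρ Λ l : ℝ, 0 ≤ ρ ∧ 0 ≤ Λ ∧ 0 ≤ l ∧
                Λ + (1 / r t + ρ ^ 2 + r t ^ 3 * l ^ 2 / ν ^ 2)
                  * (∫ y in ball x (8 * r t), gsq (u t) y) / ν ≤ g t ∧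
                CohS (ε * √ν) ρ Λ l (r t) x (u t)) ∨
              (∃ L : ℝ, 0 ≤ L ∧ L + (∫ y in ball x (8 * r t), gsq (u t) y) / (r t * ν) ≤ g t ∧
                Prd (ε * √ν) L (r t) x (u t)) ∨
              (∃ a : V, ∑ j, a j ^ 2 = 1 ∧
                (∫ y in ball x (5 * r t), xsq (vort (u t) y) a) ^ 2 / ν ^ 3
                  + (∫ y in ball x (8 * r t), gsq (u t) y) / (r t * ν) ≤ g t)))
    hν hu ht₀ hr hrp (fun t ht => (hint t ht).const_mul (2 * C)) ?_ ?_ (freq_mul3 hC hεd hθ hfreq)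
  · filter_upwards [hcoh] with t ht
    refine ⟨by have := ht.1; positivity, fun hrec hlev => ?_⟩
    obtain ⟨hg, x, hx, hA⟩ := ht.2 hrec hlev
    exact ⟨x, hx, hg, hA⟩
  · intro t htI x ⟨hgr, hA⟩ hmax
    obtain ⟨hr0, -⟩ := hrp t (Ioo_subset_Ico_self htI)
    have htT : t ∈ Ioo 0 T := ⟨ht₀.1.trans htI.1, htI.2⟩
    have hsu : ContDiff ℝ ∞ (u t) := W382.ME.cd_slice
      (hu.smooth_u.mono (prod_mono Ioo_subset_Ico_self subset_rfl)) htT
    set v : V → V := fun z => ν⁻¹ • u t z with hv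
    have hvs : ContDiff ℝ ∞ v := hsu.const_smul ν⁻¹
    have hdv : ∀ y, dv v y = 0 := by
      intro y
      have e : ∀ i, pd i (fun z => v z i) y = ν⁻¹ * pd i (fun z => u t z i) y := fun i =>
        Pool.Agent.W135.MD.pd_cmul (Pool.Agent.W135.MD.sm_diff (sm_comp hsu i)) _ i y
      unfold dv
      simp_rw [e]
      rw [← Finset.mul_sum, hu.divfree t ⟨htT.1.le, htT.2⟩ y, mul_zero]
    have hE := enk_nonneg hκ hr0 v x
    have hI : ∫ y in ball x (8 * r t), gsq v y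
        = ν⁻¹ ^ 2 * ∫ y in ball x (8 * r t), gsq (u t) y := by
      rw [← integral_const_mul]
      exact setIntegral_congr_fun measurableSet_ball fun y hy => W221.NS.gsq_smul _ _ _
    set I := ∫ y in ball x (8 * r t), gsq (u t) y with hIdef
    have hI0 : 0 ≤ I := integral_nonneg fun y => gsq_nonneg _ y
    have hs0 : 0 < √ν := Real.sqrt_pos.2 hν
    have hg2 : g t + g t = 2 * g t := by ring
    rcases hA with ⟨l, m, k, hl, hm, hk, hle, hL⟩ | ⟨ρ, Λ, l, hρ, hΛ, hl, hle, hL⟩ | ⟨L, hL0, hle, hL⟩ |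
      ⟨a, ha, hle⟩
    · have h5 := h1 v hvs (r t) x hr0 (fun y _ => hdv y) (fun w _ => hmax w) (l / ν) (m / ν)
        (k / ν) (by positivity) (by positivity) (by positivity)
        ((hL.mono (by positivity) (mul_le_mul_of_nonneg_right hεa hν.le)).nu hsu hν)
      refine h5.trans (fin_num hC1 (by linarith) hE (by positivity) ?_)
      have e : 1 / r t ^ 2 + (l / ν) ^ 2 + m / ν + (k / ν) ^ 2 / r t ^ 2
          = (ν / r t ^ 2 + (l ^ 2 / ν + m + k ^ 2 / (ν * r t ^ 2))) / ν := by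
        field_simp
        ring
      rw [e, ← mul_div_assoc, ← hg2]
      exact div_le_div_of_nonneg_right (add_le_add hgr hle) hν.le
    · have h5 := h2 v hvs (r t) x hr0 (fun y _ => hdv y) (fun w _ => hmax w) ρ (Λ / ν) (l / ν)
        (ν⁻¹ ^ 2 * I) hρ (by positivity) (by positivity) hI.le
        ((hL.mono (by positivity) (mul_le_mul_of_nonneg_right hεb hs0.le)).nu hν hr0
          fun y _ => rfl)
      refine h5.trans (fin_num hC2 (by linarith) hE (by positivity) ?_)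
      have e : 1 / r t ^ 2 + Λ / ν + (1 / r t + ρ ^ 2 + r t ^ 3 * (l / ν) ^ 2) * (ν⁻¹ ^ 2 * I)
          = (ν / r t ^ 2 + (Λ + (1 / r t + ρ ^ 2 + r t ^ 3 * l ^ 2 / ν ^ 2) * I / ν)) / ν := by
        field_simp
        ring
      rw [e, ← mul_div_assoc, ← hg2]
      exact div_le_div_of_nonneg_right (add_le_add hgr hle) hν.le
    · have h5 := h3 v hvs (r t) x hr0 (fun y _ => hdv y) (fun w _ => hmax w) (L / ν)
        (ν⁻¹ ^ 2 * I) (by positivity) hI.le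
        ((hL.mono (by positivity) (mul_le_mul_of_nonneg_right hεc hs0.le)).nu hν fun y _ => rfl)
      refine h5.trans (fin_num hC3 (by linarith) hE (by positivity) ?_)
      have e : 1 / r t ^ 2 + L / ν + (1 / r t) * (ν⁻¹ ^ 2 * I)
          = (ν / r t ^ 2 + (L + I / (r t * ν))) / ν := by
        field_simp
        ring
      rw [e, ← mul_div_assoc, ← hg2]
      exact div_le_div_of_nonneg_right (add_le_add hgr hle) hν.le
    · have hJe : ∫ y in ball x (5 * r t), xsq (vort v y) a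
          = ν⁻¹ ^ 2 * ∫ y in ball x (5 * r t), xsq (vort (u t) y) a := by
        rw [← integral_const_mul]
        refine setIntegral_congr_fun measurableSet_ball fun y hy => ?_
        simp only [hv, vort_smul', xsq_smul_left]
      set J := ∫ y in ball x (5 * r t), xsq (vort (u t) y) a with hJ
      have h5 := h4 v hvs (r t) x hr0 (fun y _ => hdv y) (fun w _ => hmax w) (ν⁻¹ ^ 2 * J)
        (ν⁻¹ ^ 2 * I) a hI.le ha hJe.le
      refine h5.trans (fin_num hC4 (by linarith) hE (by positivity) ?_)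
      have e : 1 / r t ^ 2 + (ν⁻¹ ^ 2 * J) ^ 2 + (1 / r t) * (ν⁻¹ ^ 2 * I)
          = (ν / r t ^ 2 + (J ^ 2 / ν ^ 3 + I / (r t * ν))) / ν := by
        field_simp
        ring
      rw [e, ← mul_div_assoc, ← hg2]
      exact div_le_div_of_nonneg_right (add_le_add hgr hle) hν.le

end Pool.Agent.H946.NS
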