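import Pool.Agent.H946_NS.H2

/-!
The local enstrophy inequality at the unit scale, for a given pointwise bound of the stretching term.
-/

set_option autoImplicit false

open MeasureTheory Set Metric Filter Topology
open scoped ContDiff ENNReal

namespace Pool.Agent.H946.NS

open H459R3.NS W221.NS Pool.Agent.W583.MD

variable {κ : V → ℝ}

/-- The numbers. -/
theorem closure_mix {M Cb C4 Cg Kt C6 K₀ Cl K : ℝ} (hM : 1 ≤ M) (hCb : 1 ≤ Cb) (hC4 : 1 ≤ C4)
    (hCg : 1 ≤ Cg) (hKt : 0 ≤ Kt) (hK₀ : 0 ≤ K₀) (hCl : 1 ≤ Cl) (hK : 1 ≤ K) :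
    ∃ C : ℝ, 1 ≤ C ∧ ∀ N S B a D P U R L ε δ : ℝ, 0 ≤ N → 0 ≤ S → 0 ≤ B → 0 ≤ a → 0 ≤ D →
      0 ≤ P → 0 ≤ U → 0 ≤ R → 0 ≤ L →
      P ^ 4 ≤ C4 * N * (D + N) ^ 3 → U ^ 4 ≤ Cg * N * (D + N) ^ 3 → 960 * C6 * ε ^ 2 ≤ 1 →
        δ = 1 / (1 + R * √N) →
          -2 * D + 6 * M * (√(P * (Cb * N)) * √N) + 6 * M * ((6 * S + √(Kt * (Cb * N))) * N)
          + 6 * S * N + 12 * B * (√N * √(Cb * N)) + 2 * (P * √(Cl * (L * √N)))
          + 8 * K * R * (128 * √δ * (P * √N) + 8 * (N * √N) / δ)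
          + 96 * M * (√(U * (Cb * N)) * √(Cb * N)) + a * (Cb * N)
          + 320 * (ε ^ 2 * (C6 * (D + N))) + 144 * √(K₀ * N) * (Cb * N)
          + 36 * (K₀ * N) * (3 * √(Cb * N))
            ≤ C * ((1 + S + B + a) * N + (1 + R ^ 2 + L ^ 2) * N ^ 2) := by
  set M' := 16 * M * √Cb with hM'
  have hsCb : 1 ≤ √Cb := Real.one_le_sqrt.2 hCb
  have hM'1 : 1 ≤ M' := by
    rw [hM']
    nlinarith
  set A1 := 27 * (6 * M) ^ 8 * Cb ^ 4 * C4 with hA1
  set A2 := 6 * M * (1 + Kt * Cb) with hA2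
  set A3 := 27 * (6 * M') ^ 8 * Cb ^ 4 * Cg with hA3
  set A4 := 144 * √K₀ * Cb + 108 * K₀ * √Cb with hA4
  set A5 := 432 * C4 * Cl ^ 2 with hA5
  set A6 := 27 * (1024 * K) ^ 4 * C4 with hA6
  have p1 : 0 ≤ A1 := by positivity
  have p2 : 0 ≤ A2 := by positivity
  have p3 : 0 ≤ A3 := by positivity
  have p4 : 0 ≤ A4 := by positivity
  have p5 : 0 ≤ A5 := by positivity
  have p6 : 0 ≤ A6 := by positivity
  refine ⟨2 + A1 + 36 * M + A2 + 6 + 12 * Cb + A5 + A6 + 96 * K + A3 + Cb + A4, by linarith, ?_⟩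
  intro N S B a D P U R L ε δ hN hS hB ha hD hP hU hR hL hP4 hU4 hε hδ
  have h1 := cf1 hM hCb hC4 hN (by linarith : 0 ≤ D + N) hP hP4
  have h2 := cf2 (S := S) hM hCb hKt hN
  have h3 := cf1 hM'1 hCb hCg hN (by linarith : 0 ≤ D + N) hU hU4
  have h4' := cf4 hCb hN hB
  have h5' := cf5 hCl hC4 hN hL (by linarith : 0 ≤ D + N) hP hP4
  have h6' := cf6 hK hC4 hN hR (by linarith : 0 ≤ D + N) hP hP4 hδ
  rw [← hA1] at h1
  rw [← hA2] at h2
  rw [← hA3] at h3
  rw [← hA5] at h5'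
  rw [← hA6] at h6'
  have e3 : 6 * M' * (√(U * (Cb * N)) * √N) = 96 * M * (√(U * (Cb * N)) * √(Cb * N)) := by
    rw [hM', Real.sqrt_mul (by linarith : 0 ≤ Cb)]
    ring
  rw [e3] at h3
  have h4 : 320 * (ε ^ 2 * (C6 * (D + N))) ≤ (D + N) / 3 := by
    have : 960 * C6 * ε ^ 2 * (D + N) ≤ 1 * (D + N) :=
      mul_le_mul_of_nonneg_right hε (by linarith)
    linarith
  have hsN := sqrt_lin hN
  have h5 : 144 * √(K₀ * N) * (Cb * N) + 36 * (K₀ * N) * (3 * √(Cb * N)) ≤ A4 * (N + N ^ 2) := by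
    rw [Real.sqrt_mul hK₀, Real.sqrt_mul (by linarith : 0 ≤ Cb), hA4]
    calc 144 * (√K₀ * √N) * (Cb * N) + 36 * (K₀ * N) * (3 * (√Cb * √N))
        = (144 * √K₀ * Cb + 108 * K₀ * √Cb) * (√N * N) := by ring
      _ ≤ _ := mul_le_mul_of_nonneg_left hsN (by positivity)
  have q1 : 0 ≤ S * N := by positivity
  have q2 : 0 ≤ B * N := by positivity
  have q3 : 0 ≤ N ^ 2 := by positivity
  have q4 : 0 ≤ R ^ 2 * N ^ 2 := by positivity
  have q5 : 0 ≤ L ^ 2 * N ^ 2 := by positivity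
  have q6 : 0 ≤ a * N := by positivity
  set Z := (1 + S + B + a) * N + (1 + R ^ 2 + L ^ 2) * N ^ 2 with hZ
  have z1 : N + N ^ 2 ≤ Z := by rw [hZ]; linarith
  have z2 : S * N ≤ Z := by rw [hZ]; linarith
  have z3 : B * N ≤ Z := by rw [hZ]; linarith
  have z4 : L ^ 2 * N ^ 2 ≤ Z := by rw [hZ]; linarith
  have z5 : R ^ 2 * N ^ 2 ≤ Z := by rw [hZ]; linarith
  have z6 : N + R ^ 2 * N ^ 2 ≤ Z := by rw [hZ]; linarith
  have z7 : N ≤ Z := by rw [hZ]; linarith
  have z8 : a * N ≤ Z := by rw [hZ]; linarith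
  have w1 : A1 * (N + N ^ 2) ≤ A1 * Z := mul_le_mul_of_nonneg_left z1 p1
  have w2 : A2 * (N + N ^ 2) ≤ A2 * Z := mul_le_mul_of_nonneg_left z1 p2
  have w3 : 36 * M * (S * N) ≤ 36 * M * Z := mul_le_mul_of_nonneg_left z2 (by positivity)
  have w4 : 12 * Cb * (B * N) ≤ 12 * Cb * Z := mul_le_mul_of_nonneg_left z3 (by positivity)
  have w5 : A5 * (L ^ 2 * N ^ 2) ≤ A5 * Z := mul_le_mul_of_nonneg_left z4 p5
  have w6 : A6 * (R ^ 2 * N ^ 2) ≤ A6 * Z := mul_le_mul_of_nonneg_left z5 p6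
  have w7 : 96 * K * (N + R ^ 2 * N ^ 2) ≤ 96 * K * Z := mul_le_mul_of_nonneg_left z6 (by positivity)
  have w8 : 6 * S * N ≤ 6 * Z := by linarith
  have w9 : A3 * (N + N ^ 2) ≤ A3 * Z := mul_le_mul_of_nonneg_left z1 p3
  have w10 : A4 * (N + N ^ 2) ≤ A4 * Z := mul_le_mul_of_nonneg_left z1 p4
  have w11 : Cb * (a * N) ≤ Cb * Z := mul_le_mul_of_nonneg_left z8 (by positivity)
  have e : (2 + A1 + 36 * M + A2 + 6 + 12 * Cb + A5 + A6 + 96 * K + A3 + Cb + A4) * Z
      = 2 * Z + A1 * Z + 36 * M * Z + A2 * Z + 6 * Z + 12 * Cb * Z + A5 * Z + A6 * Z + 96 * K * Z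
        + A3 * Z + Cb * Z + A4 * Z := by
    ring
  rw [e]
  linarith

theorem unit_mix (hκ : Cut κ) {K : ℝ} (hK : 1 ≤ K) : ∃ C ε : ℝ, 1 ≤ C ∧ 0 < ε ∧ ∀ v : V → V,
    ContDiff ℝ ∞ v → (∀ y ∈ ball (0 : V) 8, dv v y = 0) → ∀ (N S B a R L d : ℝ) (h : V → ℝ),
      ∫ x in ball (0 : V) 8, osq v x ≤ N → 0 ≤ S → 0 ≤ B → 0 ≤ a → 0 ≤ R → 0 < L → |d| ≤ 4 →
      Continuous h → (∀ y ∈ ball (0 : V) 1, 0 ≤ h y) → ∫ y in ball (0 : V) 1, h y ^ 3 ≤ ε ^ 3 →
      (∀ x ∈ ball (0 : V) 1, ∀ k j, |kv et 1 (pd k (fun y => v y j)) x| ≤ S) →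
      (∀ z ∈ ball (0 : V) 1, -str v z ≤ 6 * S * osq v z
          + 12 * B * (√(osq v z) * √(gsq (bb v) z)) + 2 * (osq v z * Tl (2 * L ^ 2) v z)
          + 8 * K * R * (osq v z * Ih v z) + 4 * d * dgr (bb v) z
          + (a + 320 * h z ^ 2 + 144 * √(K0 * N)) * gsq (bb v) z
          + 36 * (K0 * N) * √(gsq (bb v) z)) →
        ∫ z, RR v 0 z * (κ z * κ z) ≤ C * ((1 + S + B + a) * N + (1 + R ^ 2 + L ^ 2) * N ^ 2)
          + (∫ z in ball (0 : V) 1, osq v z * lap (fun z : V => κ z * κ z) z)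
          + ∑ k, (∫ w, th w * v w k)
            * ∫ z in ball (0 : V) 1, osq v z * pd k (fun z : V => κ z * κ z) z := by
  obtain ⟨M, hM1, hM⟩ := hκ.bound
  obtain ⟨Cb, hCb, hbb⟩ := bb_bounds
  obtain ⟨C4, hC4, hom4⟩ := om_fourK hκ
  obtain ⟨Cg, hCg, hgb4⟩ := gb_four hκ
  obtain ⟨C6, hC6, hgb6⟩ := gb_six hκ
  obtain ⟨Cl, hCl, hlow⟩ := low_mean
  have hKt := Kt_nonneg
  have hK0 := K0_nonneg
  obtain ⟨C, hC, hnum⟩ := closure_mix (C6 := C6) hM1 hCb hC4 hCg hKt hK0 hCl hK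
  refine ⟨C, √(1 / (960 * C6)), hC, Real.sqrt_pos.2 (by positivity), ?_⟩
  intro v hv hd N S B a R L d h hN hS0 hB ha hR hL hdd hhc hh0 hh3 hS hpt
  set ε := √(1 / (960 * C6)) with hε
  have hε0 : 0 < ε := Real.sqrt_pos.2 (by positivity)
  have hε2 : 960 * C6 * ε ^ 2 ≤ 1 := by
    rw [hε, Real.sq_sqrt (by positivity)]
    apply le_of_eq
    field_simp
  have hN0 : 0 ≤ N := (integral_nonneg fun x => osq_nonneg v x).trans hN
  obtain ⟨hb2, hb4, hbg⟩ := hbb v hv hd N hN
  have hN1 : ∫ x in ball (0 : V) 1, osq v x ≤ N :=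
    (ball_mono (osq_smooth hv).continuous (osq_nonneg v) (ball_subset_ball (by norm_num))).trans hN
  have hP4 := hom4 v hv N hN1
  have hR4 := hgb4 v hv hd N hN
  have hR6 := hgb6 v hv hd N hN
  set D := ∫ x in ball (0 : V) 1, κ x ^ 2 * dsq v x with hD
  have hD0 : 0 ≤ D := integral_nonneg fun x => mul_nonneg (sq_nonneg _) (dsq_nonneg v x)
  set w := bb v with hw
  have hws : ContDiff ℝ ∞ w := bb_smooth hv
  set F : V → ℝ := fun x => κ x ^ 2 * osq v x with hF
  set Q := ∫ x in ball (0 : V) 1, F x ^ 2 with hQ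
  have hQ0 : 0 ≤ Q := integral_nonneg fun x => sq_nonneg _
  set G : V → ℝ := fun x => κ x ^ 2 * gsq w x with hG
  set U := ∫ x in ball (0 : V) 1, G x ^ 2 with hU
  have hU0 : 0 ≤ U := integral_nonneg fun x => sq_nonneg _
  have hkc : Continuous κ := hκ.smooth.continuous
  have hoc := (osq_smooth hv).continuous
  have hgc := (gsq_smooth hws).continuous
  have hF0 : ∀ x, 0 ≤ F x := fun x => mul_nonneg (sq_nonneg _) (osq_nonneg v x)
  have hG0 : ∀ x, 0 ≤ G x := fun x => mul_nonneg (sq_nonneg _) (gsq_nonneg w x)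
  have hFc : Continuous F := (hkc.pow 2).mul hoc
  have hGc : Continuous G := (hkc.pow 2).mul hgc
  have hk2 : ∀ z, κ z ^ 2 ≤ 1 := fun z => pow_le_one₀ (hκ.nonneg z) (hκ.le_one z)
  have hFN : ∫ x in ball (0 : V) 1, F x ≤ N := by
    refine (setIntegral_mono (int_ball hFc 0 1) (int_ball hoc 0 1) fun x => ?_).trans hN1
    calc F x ≤ 1 * osq v x := mul_le_mul_of_nonneg_right (hk2 x) (osq_nonneg v x)
      _ = _ := one_mul _
  have hbc : ∀ k, Continuous fun x => w x k := fun k => (sm_comp hws k).continuous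
  set A := 6 * S + √(Kt * (Cb * N)) with hA
  have hA0 : 0 ≤ A := by positivity
  set b := √(K0 * N) with hb
  have hb0 : 0 ≤ b := Real.sqrt_nonneg _
  set c : V := fun k => ∫ w, th w * v w k with hc
  set δ : ℝ := 1 / (1 + R * √N) with hδ
  have hδ0 : 0 < δ := by positivity
  have hδ1 : δ ≤ 1 := by
    rw [hδ, div_le_one (by positivity)]
    have : 0 ≤ R * √N := by positivity
    linarith
  have e1 : ∀ z k, |pd k (fun z : V => κ z * κ z) z| ≤ 2 * M * κ z := by
    intro z k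
    have hk0 := hκ.nonneg z
    have e : pd k (fun z : V => κ z * κ z) z = κ z * pd k κ z + pd k κ z * κ z :=
      pd_mul' hκ.smooth hκ.smooth k z
    rw [e, show κ z * pd k κ z + pd k κ z * κ z
      = 2 * κ z * pd k κ z by ring, abs_mul, abs_of_nonneg (by positivity)]
    calc 2 * κ z * |pd k κ z| ≤ 2 * κ z * M := by
          gcongr
          exact hM z k
      _ = _ := by ring
  -- the pointwise bound
  have key : ∀ z ∈ ball (0 : V) 1, -2 * (dsq v z * (κ z * κ z))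
      + osq v z * (∑ k, (v z k - c k) * pd k (fun z : V => κ z * κ z) z)
      - str v z * (κ z * κ z)
      ≤ ((((((((-2 * (κ z ^ 2 * dsq v z) + (6 * M * A + 6 * S) * osq v z)
        + 2 * M * ∑ k, κ z * osq v z * |w z k|)
        + 12 * B * (√(osq v z) * √(gsq w z)))
        + 2 * (F z * Tl (2 * L ^ 2) v z)) + 8 * K * R * (F z * Ih v z))
        + 4 * d * (dgr w z * (κ z * κ z)))
        + (a + 144 * b) * gsq w z)
        + 320 * (h z ^ 2 * G z)) + 36 * (K0 * N) * √(gsq w z) := by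
    intro z hz
    have ho := osq_nonneg v z
    have hg := gsq_nonneg w z
    have hk0 := hκ.nonneg z
    have hk1 := hκ.le_one z
    have hkk : κ z * κ z ≤ 1 := mul_le_one₀ hk1 hk0 hk1
    have hkk0 : 0 ≤ κ z * κ z := mul_nonneg hk0 hk0
    have e2 : ∀ k, |v z k - c k| ≤ |w z k| + A := by
      intro k
      have h1 := avg_dev hv hS0 hS hb2 hz k
      have h2 : v z k - c k = w z k + (kv et 1 (fun y => v y k) z - ∫ w, th w * v w k) := by
        rw [hc, hw]
        unfold bb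
        ring
      rw [h2]
      exact (abs_add_le _ _).trans (by linarith)
    have e3 : ∑ k, (v z k - c k) * pd k (fun z : V => κ z * κ z) z
        ≤ 2 * M * (∑ k, κ z * |w z k|) + 6 * M * A := by
      have h1 : ∀ k, (v z k - c k) * pd k (fun z : V => κ z * κ z) z
          ≤ 2 * M * (κ z * |w z k|) + 2 * M * A := by
        intro k
        calc (v z k - c k) * pd k (fun z : V => κ z * κ z) z
            ≤ |v z k - c k| * |pd k (fun z : V => κ z * κ z) z| := by
              rw [← abs_mul]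
              exact le_abs_self _
          _ ≤ (|w z k| + A) * (2 * M * κ z) :=
              mul_le_mul (e2 k) (e1 z k) (abs_nonneg _) (by positivity)
          _ = 2 * M * (κ z * |w z k|) + 2 * M * A * κ z := by ring
          _ ≤ 2 * M * (κ z * |w z k|) + 2 * M * A * 1 := by gcongr
          _ = _ := by ring
      calc _ ≤ ∑ k, (2 * M * (κ z * |w z k|) + 2 * M * A) := Finset.sum_le_sum fun k _ => h1 k
        _ = _ := by
          simp only [Fin.sum_univ_three]
          ring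
    have e4 := hpt z hz
    have e5 : osq v z * (∑ k, (v z k - c k) * pd k (fun z : V => κ z * κ z) z)
        ≤ osq v z * (2 * M * (∑ k, κ z * |w z k|) + 6 * M * A) :=
      mul_le_mul_of_nonneg_left e3 ho
    have e6 := mul_le_mul_of_nonneg_right e4 hkk0
    have e7 : 6 * S * osq v z * (κ z * κ z) ≤ 6 * S * osq v z * 1 :=
      mul_le_mul_of_nonneg_left hkk (by positivity)
    have e7' : (a + 144 * b) * gsq w z * (κ z * κ z) ≤ (a + 144 * b) * gsq w z * 1 :=
      mul_le_mul_of_nonneg_left hkk (by positivity)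
    have e7'' : 36 * (K0 * N) * √(gsq w z) * (κ z * κ z) ≤ 36 * (K0 * N) * √(gsq w z) * 1 :=
      mul_le_mul_of_nonneg_left hkk (by positivity)
    have e7b : 12 * B * (√(osq v z) * √(gsq w z)) * (κ z * κ z)
        ≤ 12 * B * (√(osq v z) * √(gsq w z)) * 1 :=
      mul_le_mul_of_nonneg_left hkk (by positivity)
    have e8 : osq v z * (2 * M * (∑ k, κ z * |w z k|) + 6 * M * A)
        = (6 * M * A) * osq v z + 2 * M * ∑ k, κ z * osq v z * |w z k| := by
      simp only [Fin.sum_univ_three]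
      ring
    have e9 : (6 * S * osq v z
          + 12 * B * (√(osq v z) * √(gsq w z)) + 2 * (osq v z * Tl (2 * L ^ 2) v z)
          + 8 * K * R * (osq v z * Ih v z) + 4 * d * dgr w z
          + (a + 320 * h z ^ 2 + 144 * b) * gsq w z
          + 36 * (K0 * N) * √(gsq w z)) * (κ z * κ z)
        = 6 * S * osq v z * (κ z * κ z) + 12 * B * (√(osq v z) * √(gsq w z)) * (κ z * κ z)
          + 2 * (F z * Tl (2 * L ^ 2) v z) + 8 * K * R * (F z * Ih v z)
          + 4 * d * (dgr w z * (κ z * κ z))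
          + (a + 144 * b) * gsq w z * (κ z * κ z) + 320 * (h z ^ 2 * G z)
          + 36 * (K0 * N) * √(gsq w z) * (κ z * κ z) := by
      simp only [hG, hF]
      ring
    have e10 : -2 * (dsq v z * (κ z * κ z)) = -2 * (κ z ^ 2 * dsq v z) := by ring
    have e11 : -str v z * (κ z * κ z) = -(str v z * (κ z * κ z)) := by ring
    rw [e10]
    linarith
  -- integration
  have c1 : Continuous fun z : V => κ z ^ 2 * dsq v z := (hkc.pow 2).mul (dsq_cont hv)
  have c2 : ∀ k, Continuous fun z : V => κ z * osq v z * |w z k| := fun k =>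
    (hkc.mul hoc).mul (hbc k).abs
  have c3 : Continuous fun z : V => √(osq v z) * √(gsq w z) := hoc.sqrt.mul hgc.sqrt
  have c4 : Continuous fun z : V => ∑ k, κ z * osq v z * |w z k| :=
    continuous_finsetSum _ fun k _ => c2 k
  have hdc : Continuous (dgr w) := continuous_finsetSum _ fun k _ =>
    (sm_pd (sm_comp hws 0) k).continuous.mul (cof_smooth hws k).continuous
  have j1 : IntegrableOn (fun z : V => -2 * (κ z ^ 2 * dsq v z)) (ball 0 1) :=
    int_ball (continuous_const.mul c1) 0 1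
  have j2 : IntegrableOn (fun z : V => (6 * M * A + 6 * S) * osq v z) (ball 0 1) :=
    int_ball (continuous_const.mul hoc) 0 1
  have j3 : IntegrableOn (fun z : V => 2 * M * ∑ k, κ z * osq v z * |w z k|) (ball 0 1) :=
    int_ball (continuous_const.mul c4) 0 1
  have j4 : IntegrableOn (fun z : V => 12 * B * (√(osq v z) * √(gsq w z))) (ball 0 1) :=
    int_ball (continuous_const.mul c3) 0 1
  have j5 : IntegrableOn (fun z : V => 2 * (F z * Tl (2 * L ^ 2) v z)) (ball 0 1) :=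
    int_ball (continuous_const.mul (hFc.mul (Tl_cont hv _))) 0 1
  have j6 : IntegrableOn (fun z : V => 8 * K * R * (F z * Ih v z)) (ball 0 1) :=
    (high_on hv hFc).const_mul _
  have j7 : IntegrableOn (fun z : V => 4 * d * (dgr w z * (κ z * κ z))) (ball 0 1) :=
    int_ball (continuous_const.mul (hdc.mul (hkc.mul hkc))) 0 1
  have j8 : IntegrableOn (fun z : V => (a + 144 * b) * gsq w z) (ball 0 1) :=
    int_ball (continuous_const.mul hgc) 0 1
  have j9 : IntegrableOn (fun z : V => 320 * (h z ^ 2 * G z)) (ball 0 1) :=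
    int_ball (continuous_const.mul ((hhc.pow 2).mul hGc)) 0 1
  have j10 : IntegrableOn (fun z : V => 36 * (K0 * N) * √(gsq w z)) (ball 0 1) :=
    int_ball (continuous_const.mul hgc.sqrt) 0 1
  have hpdc : ∀ k, Continuous (pd k (fun z : V => κ z * κ z)) := fun k =>
    (hκ.ker2.pd k).sm.continuous
  have c5 : Continuous fun z : V => -2 * (dsq v z * (κ z * κ z))
      + osq v z * (∑ k, (v z k - c k) * pd k (fun z : V => κ z * κ z) z)
      - str v z * (κ z * κ z) := by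
    have h3 : Continuous (fun z => ∑ k, (v z k - c k) * pd k (fun z : V => κ z * κ z) z) :=
      continuous_finsetSum _ fun k _ => ((sm_comp hv k).continuous.sub continuous_const).mul
        (hpdc k)
    exact ((continuous_const.mul ((dsq_cont hv).mul (hkc.mul hkc))).add (hoc.mul h3)).sub
      ((str_cont hv).mul (hkc.mul hkc))
  rw [RR_split hκ hv (fun y hy => hd y (ball_subset_ball (by norm_num) hy)) c]
  -- the integrals of products with the remainder
  have Igen : ∀ (g : V → ℝ), Continuous g → (∀ x, 0 ≤ g x) → ∀ (B E : ℝ), 0 ≤ E →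
      ∫ z in ball (0 : V) 1, g z ≤ B → ∫ z in ball (0 : V) 1, (κ z ^ 2 * g z) ^ 2 = E →
      ∀ k, ∫ z in ball (0 : V) 1, κ z * g z * |w z k| ≤ √(√E * (Cb * N)) * √B := by
    intro g hg hg0 B E hE hB hgE k
    have hFg : Continuous fun z => κ z ^ 2 * g z := (hkc.pow 2).mul hg
    have h1 := W162.MD.cs_ball (f := fun z => κ z * √(g z) * |w z k|)
      (g := fun z => √(g z)) ((hkc.mul hg.sqrt).mul (hbc k).abs) hg.sqrt 0 1
    have e1 : ∀ z : V, κ z * √(g z) * |w z k| * √(g z) = κ z * g z * |w z k| := by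
      intro z
      have := Real.mul_self_sqrt (hg0 z)
      calc κ z * √(g z) * |w z k| * √(g z)
          = κ z * (√(g z) * √(g z)) * |w z k| := by ring
        _ = _ := by rw [this]
    have e2 : ∀ z : V, √(g z) ^ 2 = g z := fun z => Real.sq_sqrt (hg0 z)
    have e3 : ∀ z : V, (κ z * √(g z) * |w z k|) ^ 2 = (κ z ^ 2 * g z) * w z k ^ 2 := by
      intro z
      rw [mul_pow, mul_pow, e2, sq_abs]
    simp_rw [e1, e2, e3] at h1
    refine (le_abs_self _).trans (h1.trans ?_)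
    refine mul_le_mul (Real.sqrt_le_sqrt ?_) (Real.sqrt_le_sqrt hB) (Real.sqrt_nonneg _)
      (Real.sqrt_nonneg _)
    have h2 := W162.MD.cs_ball (f := fun z => κ z ^ 2 * g z) (g := fun z => w z k ^ 2) hFg
      ((hbc k).pow 2) 0 1
    have e4 : ∀ z : V, (w z k ^ 2) ^ 2 = w z k ^ 4 := fun z => by ring
    simp_rw [e4] at h2
    rw [hgE] at h2
    refine (le_abs_self _).trans (h2.trans ?_)
    refine mul_le_mul le_rfl ?_ (Real.sqrt_nonneg _) (Real.sqrt_nonneg _)
    calc √(∫ z in ball (0 : V) 1, w z k ^ 4) ≤ √((Cb * N) ^ 2) := Real.sqrt_le_sqrt (hb4 k)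
      _ = Cb * N := Real.sqrt_sq (by positivity)
  have I2 : ∀ k, ∫ z in ball (0 : V) 1, κ z * osq v z * |w z k| ≤ √(√Q * (Cb * N)) * √N :=
    Igen (osq v) hoc (osq_nonneg v) N Q hQ0 hN1 hQ.symm
  have I2g : ∀ k, ∫ z in ball (0 : V) 1, κ z * gsq w z * |w z k|
      ≤ √(√U * (Cb * N)) * √(Cb * N) :=
    Igen (gsq w) hgc (gsq_nonneg w) (Cb * N) U hU0 hbg hU.symm
  have I3 : ∫ z in ball (0 : V) 1, √(osq v z) * √(gsq w z) ≤ √N * √(Cb * N) := by
    have h1 := W162.MD.cs_ball (f := fun z => √(osq v z))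
      (g := fun z => √(gsq w z)) hoc.sqrt hgc.sqrt 0 1
    have e2 : ∀ z : V, √(gsq w z) ^ 2 = gsq w z := fun z => Real.sq_sqrt (gsq_nonneg _ z)
    have e3 : ∀ z : V, √(osq v z) ^ 2 = osq v z := fun z => Real.sq_sqrt (osq_nonneg v z)
    simp_rw [e2, e3] at h1
    refine (le_abs_self _).trans (h1.trans ?_)
    exact mul_le_mul (Real.sqrt_le_sqrt hN1) (Real.sqrt_le_sqrt hbg) (Real.sqrt_nonneg _)
      (Real.sqrt_nonneg _)
  have I5 := hlow v hv F hFc N L hN hL
  have I6 := high_mean hv hFc hF0 hN hFN hδ0 hδ1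
  rw [← hQ] at I5 I6
  -- the determinant of the gradient
  have I7 : |∫ z in ball (0 : V) 1, dgr w z * (κ z * κ z)|
      ≤ 6 * M * (√(√U * (Cb * N)) * √(Cb * N)) := by
    have h1 := dgr_int hws hκ.ker2
    rw [h1, abs_neg, ← Real.norm_eq_abs]
    have h2 : ∀ z, ‖∑ k, pd k (fun z : V => κ z * κ z) z * (w z 0 * cof w k z)‖
        ≤ 6 * M * (κ z * gsq w z * |w z 0|) := by
      intro z
      have hk0 := hκ.nonneg z
      have h3 : ∀ k, ‖pd k (fun z : V => κ z * κ z) z * (w z 0 * cof w k z)‖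
          ≤ 2 * M * (κ z * gsq w z * |w z 0|) := by
        intro k
        rw [Real.norm_eq_abs, abs_mul, abs_mul]
        calc |pd k (fun z : V => κ z * κ z) z| * (|w z 0| * |cof w k z|)
            ≤ (2 * M * κ z) * (|w z 0| * gsq w z) :=
              mul_le_mul (e1 z k) (mul_le_mul_of_nonneg_left (cof_le w k z) (abs_nonneg _))
                (by positivity) (by positivity)
          _ = _ := by ring
      refine (norm_sum_le _ _).trans ((Finset.sum_le_sum fun k _ => h3 k).trans (le_of_eq ?_))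
      simp only [Fin.sum_univ_three]
      ring
    have i2 : IntegrableOn (fun z : V => 6 * M * (κ z * gsq w z * |w z 0|)) (ball 0 1) :=
      int_ball (continuous_const.mul ((hkc.mul hgc).mul (hbc 0).abs)) 0 1
    have h3 : ∫ z in ball (0 : V) 1, 6 * M * (κ z * gsq w z * |w z 0|)
        = 6 * M * ∫ z in ball (0 : V) 1, κ z * gsq w z * |w z 0| := integral_const_mul _ _
    refine (norm_integral_le_of_norm_le i2 (Eventually.of_forall h2)).trans
      (le_of_eq_of_le h3 ?_)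
    exact mul_le_mul_of_nonneg_left (I2g 0) (by positivity)
  have I7' : 4 * d * (∫ z in ball (0 : V) 1, dgr w z * (κ z * κ z))
      ≤ 96 * M * (√(√U * (Cb * N)) * √(Cb * N)) := by
    refine (le_abs_self _).trans ?_
    rw [abs_mul, abs_mul, abs_of_pos (by norm_num : (0 : ℝ) < 4)]
    calc 4 * |d| * |∫ z in ball (0 : V) 1, dgr w z * (κ z * κ z)|
        ≤ (4 * 4) * (6 * M * (√(√U * (Cb * N)) * √(Cb * N))) :=
          mul_le_mul (mul_le_mul_of_nonneg_left hdd (by norm_num)) I7 (abs_nonneg _) (by norm_num)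
      _ = _ := by ring
  -- the small part
  have I9 : ∫ z in ball (0 : V) 1, h z ^ 2 * G z ≤ ε ^ 2 * (C6 * (D + N)) := by
    refine young_opt hε0 (by positivity) hh3 hR6 fun q hq => ?_
    have h1 : ∫ z in ball (0 : V) 1, h z ^ 2 * G z
        ≤ ∫ z in ball (0 : V) 1, (2 * q * h z ^ 3 + G z ^ 3 / q ^ 2) / 3 := by
      refine setIntegral_mono_on (int_ball ((hhc.pow 2).mul hGc) 0 1) (int_ball
        (((continuous_const.mul (hhc.pow 3)).add ((hGc.pow 3).div_const _)).div_const _) 0 1)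
        measurableSet_ball fun z hz => young_pt (hh0 z hz) (hG0 z) hq
    refine h1.trans (le_of_eq ?_)
    have i1 : IntegrableOn (fun z : V => 2 * q * h z ^ 3) (ball 0 1) :=
      int_ball (continuous_const.mul (hhc.pow 3)) 0 1
    have i2 : IntegrableOn (fun z : V => G z ^ 3 / q ^ 2) (ball 0 1) :=
      int_ball ((hGc.pow 3).div_const _) 0 1
    rw [integral_div, integral_add i1 i2, integral_const_mul, integral_div]
  have I10 : ∫ z in ball (0 : V) 1, √(gsq w z) ≤ 3 * √(Cb * N) := by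
    have h3 := W162.MD.cs_ball (f := fun y : V => √(gsq w y)) (g := fun _ => (1 : ℝ))
      hgc.sqrt continuous_const 0 1
    have e1 : ∀ y : V, √(gsq w y) ^ 2 = gsq w y := fun y => Real.sq_sqrt (gsq_nonneg w _)
    simp_rw [e1, mul_one, one_pow] at h3
    rw [setIntegral_const, vol_real _ (by norm_num)] at h3
    have h4 : √(((2 : ℝ) * 1) ^ 3 • (1 : ℝ)) ≤ 3 := by
      rw [smul_eq_mul, Real.sqrt_le_left (by norm_num)]
      norm_num
    calc _ ≤ _ := le_abs_self _
      _ ≤ _ := h3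
      _ ≤ √(Cb * N) * 3 := mul_le_mul (Real.sqrt_le_sqrt hbg) h4 (Real.sqrt_nonneg _)
        (Real.sqrt_nonneg _)
      _ = _ := by ring
  have total : ∫ z in ball (0 : V) 1, (-2 * (dsq v z * (κ z * κ z))
      + osq v z * (∑ k, (v z k - c k) * pd k (fun z : V => κ z * κ z) z)
      - str v z * (κ z * κ z))
      ≤ -2 * D + 6 * M * (√(√Q * (Cb * N)) * √N) + 6 * M * (A * N)
          + 6 * S * N + 12 * B * (√N * √(Cb * N)) + 2 * (√Q * √(Cl * (L * √N)))
          + 8 * K * R * (128 * √δ * (√Q * √N) + 8 * (N * √N) / δ)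
          + 96 * M * (√(√U * (Cb * N)) * √(Cb * N)) + a * (Cb * N)
          + 320 * (ε ^ 2 * (C6 * (D + N))) + 144 * b * (Cb * N)
          + 36 * (K0 * N) * (3 * √(Cb * N)) := by
    let f1 : V → ℝ := fun z => -2 * (κ z ^ 2 * dsq v z)
    let f2 : V → ℝ := fun z => (6 * M * A + 6 * S) * osq v z
    let f3 : V → ℝ := fun z => 2 * M * ∑ k, κ z * osq v z * |w z k|
    let f4 : V → ℝ := fun z => 12 * B * (√(osq v z) * √(gsq w z))
    let f5 : V → ℝ := fun z => 2 * (F z * Tl (2 * L ^ 2) v z)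
    let f6 : V → ℝ := fun z => 8 * K * R * (F z * Ih v z)
    let f7 : V → ℝ := fun z => 4 * d * (dgr w z * (κ z * κ z))
    let f8 : V → ℝ := fun z => (a + 144 * b) * gsq w z
    let f9 : V → ℝ := fun z => 320 * (h z ^ 2 * G z)
    let f10 : V → ℝ := fun z => 36 * (K0 * N) * √(gsq w z)
    have g2 : IntegrableOn (fun z => f1 z + f2 z) (ball 0 1) := j1.add j2
    have g3 : IntegrableOn (fun z => f1 z + f2 z + f3 z) (ball 0 1) := g2.add j3
    have g4 : IntegrableOn (fun z => f1 z + f2 z + f3 z + f4 z) (ball 0 1) := g3.add j4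
    have g5 : IntegrableOn (fun z => f1 z + f2 z + f3 z + f4 z + f5 z) (ball 0 1) := g4.add j5
    have g6 : IntegrableOn (fun z => f1 z + f2 z + f3 z + f4 z + f5 z + f6 z) (ball 0 1) :=
      g5.add j6
    have g7 : IntegrableOn (fun z => f1 z + f2 z + f3 z + f4 z + f5 z + f6 z + f7 z)
      (ball 0 1) := g6.add j7
    have g8 : IntegrableOn (fun z => f1 z + f2 z + f3 z + f4 z + f5 z + f6 z + f7 z + f8 z)
      (ball 0 1) := g7.add j8
    have g9 : IntegrableOn (fun z => f1 z + f2 z + f3 z + f4 z + f5 z + f6 z + f7 z + f8 z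
      + f9 z) (ball 0 1) := g8.add j9
    have g10 : IntegrableOn (fun z => f1 z + f2 z + f3 z + f4 z + f5 z + f6 z + f7 z + f8 z
      + f9 z + f10 z) (ball 0 1) := g9.add j10
    refine (setIntegral_mono_on (int_ball c5 0 1) g10 measurableSet_ball key).trans ?_
    rw [integral_add g9 j10, integral_add g8 j9, integral_add g7 j8, integral_add g6 j7,
      integral_add g5 j6, integral_add g4 j5, integral_add g3 j4, integral_add g2 j3,
      integral_add j1 j2]
    have t1 : ∫ z in ball (0 : V) 1, f1 z = -2 * D := integral_const_mul _ _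
    have t2 : ∫ z in ball (0 : V) 1, f2 z ≤ (6 * M * A + 6 * S) * N := by
      have h1 : ∫ z in ball (0 : V) 1, f2 z
        = (6 * M * A + 6 * S) * ∫ z in ball (0 : V) 1, osq v z := integral_const_mul _ _
      rw [h1]
      exact mul_le_mul_of_nonneg_left hN1 (by positivity)
    have t3 : ∫ z in ball (0 : V) 1, f3 z ≤ 6 * M * (√(√Q * (Cb * N)) * √N) := by
      have h1 : ∫ z in ball (0 : V) 1, f3 z
        = 2 * M * ∫ z in ball (0 : V) 1, ∑ k, κ z * osq v z * |w z k| := integral_const_mul _ _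
      rw [h1, integral_finsetSum _ fun k _ => int_ball (c2 k) 0 1]
      have h2 : ∑ k, ∫ z in ball (0 : V) 1, κ z * osq v z * |w z k|
          ≤ 3 * (√(√Q * (Cb * N)) * √N) := by
        calc _ ≤ ∑ _k : Fin 3, √(√Q * (Cb * N)) * √N := Finset.sum_le_sum fun k _ => I2 k
          _ = _ := by simp
      have h4 := mul_le_mul_of_nonneg_left h2 (by positivity : 0 ≤ 2 * M)
      linarith
    have t4 : ∫ z in ball (0 : V) 1, f4 z ≤ 12 * B * (√N * √(Cb * N)) := by
      have h1 : ∫ z in ball (0 : V) 1, f4 z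
        = 12 * B * ∫ z in ball (0 : V) 1, √(osq v z) * √(gsq w z) := integral_const_mul _ _
      rw [h1]
      exact mul_le_mul_of_nonneg_left I3 (by positivity)
    have t5 : ∫ z in ball (0 : V) 1, f5 z ≤ 2 * (√Q * √(Cl * (L * √N))) := by
      have h1 : ∫ z in ball (0 : V) 1, f5 z
        = 2 * ∫ z in ball (0 : V) 1, F z * Tl (2 * L ^ 2) v z := integral_const_mul _ _
      rw [h1]
      exact mul_le_mul_of_nonneg_left I5 (by norm_num)
    have t6 : ∫ z in ball (0 : V) 1, f6 z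
        ≤ 8 * K * R * (128 * √δ * (√Q * √N) + 8 * (N * √N) / δ) := by
      have h1 : ∫ z in ball (0 : V) 1, f6 z
        = 8 * K * R * ∫ z in ball (0 : V) 1, F z * Ih v z := integral_const_mul _ _
      rw [h1]
      exact mul_le_mul_of_nonneg_left I6 (by positivity)
    have t7 : ∫ z in ball (0 : V) 1, f7 z ≤ 96 * M * (√(√U * (Cb * N)) * √(Cb * N)) := by
      have h1 : ∫ z in ball (0 : V) 1, f7 z
        = 4 * d * ∫ z in ball (0 : V) 1, dgr w z * (κ z * κ z) := integral_const_mul _ _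
      rw [h1]
      exact I7'
    have t8 : ∫ z in ball (0 : V) 1, f8 z ≤ (a + 144 * b) * (Cb * N) := by
      have h1 : ∫ z in ball (0 : V) 1, f8 z
        = (a + 144 * b) * ∫ z in ball (0 : V) 1, gsq w z := integral_const_mul _ _
      rw [h1]
      exact mul_le_mul_of_nonneg_left hbg (by positivity)
    have t9 : ∫ z in ball (0 : V) 1, f9 z ≤ 320 * (ε ^ 2 * (C6 * (D + N))) := by
      have h1 : ∫ z in ball (0 : V) 1, f9 z
        = 320 * ∫ z in ball (0 : V) 1, h z ^ 2 * G z := integral_const_mul _ _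
      rw [h1]
      exact mul_le_mul_of_nonneg_left I9 (by norm_num)
    have t10 : ∫ z in ball (0 : V) 1, f10 z ≤ 36 * (K0 * N) * (3 * √(Cb * N)) := by
      have h1 : ∫ z in ball (0 : V) 1, f10 z
        = 36 * (K0 * N) * ∫ z in ball (0 : V) 1, √(gsq w z) := integral_const_mul _ _
      rw [h1]
      exact mul_le_mul_of_nonneg_left I10 (by positivity)
    linarith
  have hfin := hnum N S B a D (√Q) (√U) R L ε δ hN0 hS0 hB ha hD0 (Real.sqrt_nonneg _)
    (Real.sqrt_nonneg _) hR hL.le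
    (by
      calc √Q ^ 4 = (√Q ^ 2) ^ 2 := by ring
        _ = Q ^ 2 := by rw [Real.sq_sqrt hQ0]
        _ ≤ _ := hP4)
    (by
      calc √U ^ 4 = (√U ^ 2) ^ 2 := by ring
        _ = U ^ 2 := by rw [Real.sq_sqrt hU0]
        _ ≤ _ := hR4) hε2 hδ
  rw [← hA, ← hb] at hfin
  linarith

end Pool.Agent.H946.NS
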