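import Pool.Agent.H946_NS.H3
import Pool.Agent.H946_NS.E5

/-!
The growth of the localised enstrophy at a maximum, if the direction of the vorticity varies little
at the points of stretching, or if the stretching is small modulo the determinant of the gradient.
-/

set_option autoImplicit false

open MeasureTheory Set Metric Filter Topology
open scoped ContDiff ENNReal

namespace Pool.Agent.H946.NS

open H459R3.NS W221.NS Pool.Agent.W583.MD

variable {κ : V → ℝ}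

/-- From the unit scale to a ball around a maximum. -/
theorem loc_gen (hκ : Cut κ) {C : ℝ} (hC : 1 ≤ C) : ∃ C' : ℝ, 1 ≤ C' ∧ ∀ v : V → V,
    ContDiff ℝ ∞ v → ∀ (r : ℝ) (x : V), 0 < r → (∀ y ∈ ball x (8 * r), dv v y = 0) →
      (∀ w ∈ ball x (9 * r), enk κ r v w ≤ enk κ r v x) → ∀ ρ Λ l e : ℝ, 0 ≤ Λ → 0 ≤ l →
        ∫ y in ball x (8 * r), gsq v y ≤ e →
        (ContDiff ℝ ∞ (scv r x v) → (∀ y ∈ ball (0 : V) 8, dv (scv r x v) y = 0) →
          ∀ N S : ℝ, ∫ z in ball (0 : V) 8, osq (scv r x v) z ≤ N → 0 ≤ S →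
          (∀ z ∈ ball (0 : V) 1, ∀ k j, |kv et 1 (pd k (fun y => scv r x v y j)) z| ≤ S) →
          ∫ z, RR (scv r x v) 0 z * (κ z * κ z) ≤ C * ((1 + S + r ^ 2 * Λ) * N
            + (1 + (√r * ρ) ^ 2 + (1 + r ^ 2 * l) ^ 2) * N ^ 2)
          + (∫ z in ball (0 : V) 1, osq (scv r x v) z * lap (fun z : V => κ z * κ z) z)
          + ∑ k, (∫ w, th w * scv r x v w k)
            * ∫ z in ball (0 : V) 1, osq (scv r x v) z * pd k (fun z : V => κ z * κ z) z) →
          Dk κ r x v ≤ C' * ((1 / r ^ 2 + Λ + (1 / r + ρ ^ 2 + r ^ 3 * l ^ 2) * e)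
            * enk κ r v x) := by
  obtain ⟨C₀, hC₀, hcov⟩ := enk_cover_loc hκ 8
  have hK0 := K0_nonneg
  have hK : 0 ≤ √K0 := Real.sqrt_nonneg _
  refine ⟨C * C₀ * (2 + √K0 + 3 * 4), ?_, ?_⟩
  · have h1 : 1 ≤ C * C₀ := by nlinarith
    have h2 : 1 ≤ 2 + √K0 + 3 * 4 := by linarith
    exact one_le_mul_of_one_le_of_one_le h1 h2
  intro u hv r x hr hd hmax ρ Λ l e hΛ hl he hU
  have hM0 : 0 ≤ enk κ r u x := enk_nonneg hκ hr u x
  set M := enk κ r u x with hMdef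
  unfold Dk
  set v := scv r x u with hvdef
  have hmem : ∀ z ∈ ball (0 : V) 8, x + r • z ∈ ball x (8 * r) := by
    intro z hz
    rw [mem_ball_iff_norm, add_sub_cancel_left, norm_smul, Real.norm_of_nonneg hr.le]
    rw [mem_ball_zero_iff] at hz
    nlinarith
  have hdiv : ∀ y ∈ ball (0 : V) 8, dv v y = 0 := by
    intro y hy
    rw [hvdef, dv_scv hv, hd _ (hmem y hy), mul_zero]
  have hgc := (gsq_smooth hv).continuous
  have he0 : 0 ≤ e := (integral_nonneg fun y => gsq_nonneg u y).trans he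
  set N := ∫ z in ball (0 : V) 8, osq v z with hN
  have hN0 : 0 ≤ N := integral_nonneg fun z => osq_nonneg v z
  have hoc := (osq_smooth hv).continuous
  have hNe : N = r * ∫ y in ball x (8 * r), osq u y := by
    have h1 : ∀ z, osq v z = r ^ 4 * osq u (x + r • z) := fun z => osq_scv hv z
    rw [hN]
    simp_rw [h1]
    rw [integral_const_mul, cov' (osq u) x hr, mul_comm r 8]
    field_simp
  have hN1 : N ≤ r * (C₀ * M) := by
    rw [hNe]
    refine mul_le_mul_of_nonneg_left ?_ hr.le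
    have h2 := hcov u hv r M x hr (fun w hw => hmax w (by
      have e : ((8 : ℕ) + 1 : ℝ) * r = 9 * r := by
        push_cast
        ring
      rwa [e] at hw))
    push_cast at h2
    exact h2
  have hN2 : N ≤ r * (4 * e) := by
    rw [hNe]
    refine mul_le_mul_of_nonneg_left ?_ hr.le
    have h2 : ∫ y in ball x (8 * r), osq u y ≤ ∫ y in ball x (8 * r), 4 * gsq u y :=
      setIntegral_mono (int_ball hoc _ _) (int_ball (continuous_const.mul hgc) _ _)
        fun y => osq_le_gsq u y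
    rw [integral_const_mul] at h2
    linarith
  set S : ℝ := √K0 * √(r * e) with hS
  have hS0 : 0 ≤ S := by positivity
  have hSb : ∀ z ∈ ball (0 : V) 1, ∀ k j, |kv et 1 (pd k (fun y => v y j)) z| ≤ S := by
    intro z hz k j
    have hvs : ContDiff ℝ ∞ v := scv_smooth hv
    have hpc : Continuous (pd k (fun y => v y j)) := (sm_pd (sm_comp hvs j) k).continuous
    have h2 := kv_sq ker_et hpc 1 z
    have h3 : ∫ w in ball (0 : V) 1, pd k (fun y => v y j) (z + (1 : ℝ) • w) ^ 2 ≤ r * e := by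
      rw [cov' (fun y => pd k (fun y => v y j) y ^ 2) z one_pos, one_mul, one_pow, inv_one, one_mul]
      have h4 : ∫ w in ball z 1, pd k (fun y => v y j) w ^ 2 ≤ ∫ w in ball z 1, gsq v w := by
        refine setIntegral_mono (int_ball (hpc.pow 2) _ _)
          (int_ball (gsq_smooth hvs).continuous _ _) fun w => ?_
        unfold gsq
        exact (Finset.single_le_sum (f := fun k => pd k (fun y => v y j) w ^ 2)
          (fun _ _ => sq_nonneg _) (Finset.mem_univ k)).trans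
          (Finset.single_le_sum (f := fun j => ∑ k, pd k (fun y => v y j) w ^ 2)
            (fun _ _ => Finset.sum_nonneg fun _ _ => sq_nonneg _) (Finset.mem_univ j))
      have h5 : ∫ w in ball z 1, gsq v w ≤ ∫ w in ball (0 : V) 8, gsq v w := by
        refine ball_mono (gsq_smooth hvs).continuous (gsq_nonneg v) (ball_subset_ball' ?_)
        rw [dist_zero_right]
        have := mem_ball_zero_iff.1 hz
        linarith
      have h6 : ∫ w in ball (0 : V) 8, gsq v w = r * ∫ y in ball x (8 * r), gsq u y := by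
        have h1 : ∀ z, gsq v z = r ^ 4 * gsq u (x + r • z) := fun z => gsq_scv' hv z
        simp_rw [h1]
        rw [integral_const_mul, cov' (gsq u) x hr, mul_comm r 8]
        field_simp
      rw [h6] at h5
      exact (h4.trans h5).trans (mul_le_mul_of_nonneg_left he hr.le)
    have h7 : kv et 1 (pd k (fun y => v y j)) z ^ 2 ≤ K0 * (r * e) :=
      h2.trans (mul_le_mul_of_nonneg_left h3 hK0)
    refine (Real.abs_le_sqrt h7).trans (le_of_eq ?_)
    rw [hS, Real.sqrt_mul hK0]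
  have hSle : S ≤ r ^ 2 * (√K0 * (1 / r ^ 2 + e / r)) := by
    have h1 : √(r * e) ≤ 1 + r * e := by
      have q : 0 ≤ r * e := by positivity
      rw [Real.sqrt_le_left (by linarith)]
      nlinarith
    calc S ≤ √K0 * (1 + r * e) := mul_le_mul_of_nonneg_left h1 hK
      _ = _ := by
        field_simp
  have hlm : IsLocalMax (enk κ r u) x := by
    filter_upwards [ball_mem_nhds x (show 0 < 9 * r by positivity)] with y hy
    exact hmax y hy
  obtain ⟨hc1, hc2⟩ := enk_max hκ hv hr hlm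
  have h5 := hU (scv_smooth hv) hdiv N S le_rfl hS0 hSb
  have h6 : ∑ k, (∫ w, th w * v w k)
      * ∫ z in ball (0 : V) 1, osq v z * pd k (fun z : V => κ z * κ z) z = 0 :=
    Finset.sum_eq_zero fun k _ => by rw [hc1 k, mul_zero]
  rw [h6, add_zero] at h5
  have h7 : ∫ z, RR v 0 z * (κ z * κ z) ≤ C * ((1 + S + r ^ 2 * Λ) * N
      + (1 + (√r * ρ) ^ 2 + (1 + r ^ 2 * l) ^ 2) * N ^ 2) := by linarith
  refine le_trans ?_ (cf_num2 hC hC₀ (by norm_num) hK hN0 hM0 he0 hr hΛ hl hN1 hN2 hS0 hSle)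
  exact mul_le_mul_of_nonneg_left (mul_le_mul_of_nonneg_left h7 (by positivity)) (by positivity)

/-- The stretching term and the determinant of a multiple of the gradient. -/
theorem stre_of_pd {v w : V → V} {y z : V} {c : ℝ}
    (h : ∀ k j, pd k (fun x => w x j) z = c * pd k (fun x => v x j) y) :
    stre w z = c ^ 3 * stre v y ∧ jac w z = c ^ 3 * jac v y ∧ gsq w z = c ^ 2 * gsq v y
      ∧ vort w z = c • vort v y := by
  have hvo : vort w z = c • vort v y := by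
    unfold vort
    ext i
    fin_cases i
    all_goals
      simp only [Pi.smul_apply, smul_eq_mul, h]
      simp only [Fin.zero_eta, Fin.mk_one, Fin.reduceFinMk, Matrix.cons_val_zero,
        Matrix.cons_val_one, Matrix.cons_val]
      ring
  refine ⟨?_, ?_, ?_, hvo⟩
  · unfold stre
    rw [hvo]
    simp only [Pi.smul_apply, smul_eq_mul, h, Fin.sum_univ_three]
    ring
  · unfold jac
    rw [Matrix.det_fin_three, Matrix.det_fin_three]
    simp only [Matrix.of_apply, h]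
    ring
  · rw [gsq_sum, gsq_sum]
    simp only [h, Fin.sum_univ_three]
    ring

theorem pd_nu {ν s : ℝ} {x : V} {v w : V → V} (hvw : ∀ y ∈ ball x s, w y = ν⁻¹ • v y) :
    ∀ y ∈ ball x s, ∀ k j, pd k (fun x => w x j) y = ν⁻¹ * pd k (fun x => v x j) y := by
  intro y hy k j
  have e1 : pd k (fun x => w x j) y = pd k (fun x => ν⁻¹ * v x j) y := by
    refine Pool.Agent.W349.MF.pd_congr' ?_ k
    filter_upwards [isOpen_ball.mem_nhds hy] with z hz
    rw [hvw z hz]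
    rfl
  rw [e1]
  unfold pd
  have e : (fun y => ν⁻¹ * v y j) = ν⁻¹ • fun y => v y j := rfl
  rw [e, fderiv_const_smul_field]
  simp

theorem CohS.mono {δ δ' R Λ l s : ℝ} {x : V} {v : V → V} (h : CohS δ R Λ l s x v) (h0 : 0 ≤ δ)
    (hle : δ ≤ δ') : CohS δ' R Λ l s x v := by
  obtain ⟨q, hq, h1, h2, h3⟩ := h
  exact ⟨q, hq, h1, h2.trans (pow_le_pow_left₀ h0 hle 3), h3⟩

theorem Prd.mono {δ δ' L s : ℝ} {x : V} {v : V → V} (h : Prd δ L s x v) (h0 : 0 ≤ δ)
    (hle : δ ≤ δ') : Prd δ' L s x v := by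
  obtain ⟨q, c, hq, hc, h1, h2, h3⟩ := h
  exact ⟨q, c, hq, hc, h1, h2.trans (pow_le_pow_left₀ h0 hle 3), h3⟩

theorem h_scale {r δ : ℝ} {x : V} (hr : 0 < r) {h : V → ℝ} (hh : Continuous h)
    (h1 : ∀ y ∈ ball x r, 0 ≤ h y) (h2 : ∫ y in ball x r, h y ^ 3 ≤ δ ^ 3) :
    Continuous (fun z : V => r * h (x + r • z)) ∧
      (∀ y ∈ ball (0 : V) 1, x + r • y ∈ ball x r) ∧
      (∀ y ∈ ball (0 : V) 1, 0 ≤ r * h (x + r • y)) ∧
      ∫ z in ball (0 : V) 1, (r * h (x + r • z)) ^ 3 ≤ δ ^ 3 := by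
  have hmy : ∀ y ∈ ball (0 : V) 1, x + r • y ∈ ball x r := by
    intro y hy
    rw [mem_ball_iff_norm, add_sub_cancel_left, norm_smul, Real.norm_of_nonneg hr.le]
    rw [mem_ball_zero_iff] at hy
    nlinarith
  refine ⟨continuous_const.mul (hh.comp (continuous_const.add (continuous_id.const_smul r))), hmy,
    fun y hy => mul_nonneg hr.le (h1 _ (hmy y hy)), ?_⟩
  have e1 : ∀ z : V, (r * h (x + r • z)) ^ 3 = r ^ 3 * h (x + r • z) ^ 3 := fun z => by ring
  simp_rw [e1]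
  rw [integral_const_mul, cov' (fun y => h y ^ 3) x hr, mul_one]
  calc r ^ 3 * ((r ^ 3)⁻¹ * ∫ y in ball x r, h y ^ 3) = ∫ y in ball x r, h y ^ 3 := by
        field_simp
    _ ≤ _ := h2

theorem h_nu {s δ ν : ℝ} {x : V} (hν : 0 < ν) {h : V → ℝ} (hh : Continuous h)
    (h1 : ∀ y ∈ ball x s, 0 ≤ h y) (h2 : ∫ y in ball x s, h y ^ 3 ≤ (δ * √ν) ^ 3) :
    Continuous (fun z : V => h z / √ν) ∧ (∀ y ∈ ball x s, 0 ≤ h y / √ν) ∧
      ∫ z in ball x s, (h z / √ν) ^ 3 ≤ δ ^ 3 := by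
  have hs0 : 0 < √ν := Real.sqrt_pos.2 hν
  refine ⟨hh.div_const _, fun y hy => div_nonneg (h1 y hy) hs0.le, ?_⟩
  have e1 : ∀ z : V, (h z / √ν) ^ 3 = (√ν ^ 3)⁻¹ * h z ^ 3 := fun z => by
    rw [div_pow, div_eq_inv_mul]
  simp_rw [e1]
  rw [integral_const_mul]
  calc (√ν ^ 3)⁻¹ * ∫ y in ball x s, h y ^ 3 ≤ (√ν ^ 3)⁻¹ * (δ * √ν) ^ 3 :=
        mul_le_mul_of_nonneg_left h2 (by positivity)
    _ = _ := by
      field_simp

theorem CohS.scale {δ R Λ l r : ℝ} {x : V} {v : V → V} (hv : ContDiff ℝ ∞ v) (hr : 0 < r)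
    (hl : 0 ≤ l) (h : CohS δ R Λ l r x v) :
    CohS δ (√r * R) (r ^ 2 * Λ) (1 + r ^ 2 * l) 1 0 (scv r x v) := by
  obtain ⟨q, hq, h1, h2, h3⟩ := h
  obtain ⟨i1, hmy, i3, i4⟩ := h_scale hr hq h1 h2
  refine ⟨_, i1, i3, i4, ?_⟩
  intro y hy z hz hyL hzL hst
  rw [mul_one] at hz
  have hmz : x + r • z ∈ ball x (2 * r) := by
    rw [mem_ball_iff_norm, add_sub_cancel_left, norm_smul, Real.norm_of_nonneg hr.le]
    rw [mem_ball_zero_iff] at hz
    nlinarith
  obtain ⟨s1, -, s3, -⟩ := stre_of_pd (v := v) (w := scv r x v) (y := x + r • y) (z := y)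
      (c := r ^ 2) fun k j => pd_scv hv k j y
  have hlow1 : Λ ^ 2 < vsq v (x + r • y) := by
    rw [vsq_scv hv] at hyL
    have h1 : r ^ 4 * Λ ^ 2 = (r ^ 2 * Λ) ^ 2 := by ring
    exact lt_of_mul_lt_mul_left (h1.trans_lt hyL) (by positivity)
  have hlow2 : l ^ 2 < vsq v (x + r • z) := by
    rw [vsq_scv hv] at hzL
    have h1 : r ^ 4 * l ^ 2 ≤ (1 + r ^ 2 * l) ^ 2 := by
      have : 0 ≤ r ^ 2 * l := by positivity
      nlinarith
    exact lt_of_mul_lt_mul_left (h1.trans_lt hzL) (by positivity)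
  have hst' : (Λ + q (x + r • y) ^ 2) * gsq v (x + r • y) < stre v (x + r • y) := by
    rw [s1, s3] at hst
    refine lt_of_mul_lt_mul_left (a := (r ^ 2) ^ 3) (lt_of_eq_of_lt ?_ hst) (by positivity)
    ring
  have h1 := h3 _ (hmy y hy) _ hmz hlow1 hlow2 hst'
  rw [vort_scv hv, vort_scv hv, xsq_smul, vsq_scv hv, vsq_scv hv]
  have e1 : ‖x + r • y - (x + r • z)‖ = r * ‖y - z‖ := by
    rw [add_sub_add_left_eq_sub, ← smul_sub, norm_smul, Real.norm_of_nonneg hr.le]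
  rw [e1] at h1
  have e2 : (√r * R) ^ 2 = r * R ^ 2 := by rw [mul_pow, Real.sq_sqrt hr.le]
  rw [e2]
  calc (r ^ 2) ^ 4 * xsq (vort v (x + r • y)) (vort v (x + r • z))
      ≤ (r ^ 2) ^ 4 * (R ^ 2 * (r * ‖y - z‖) * (vsq v (x + r • y) * vsq v (x + r • z))) :=
        mul_le_mul_of_nonneg_left h1 (by positivity)
    _ = _ := by ring

theorem CohS.nu {δ R Λ l s ν : ℝ} {x : V} {v w : V → V} (hν : 0 < ν) (hs : 0 < s)
    (h : CohS (δ * √ν) R Λ l s x v) (hvw : ∀ y ∈ ball x (2 * s), w y = ν⁻¹ • v y) :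
    CohS δ R (Λ / ν) (l / ν) s x w := by
  obtain ⟨q, hq, h1, h2, h3⟩ := h
  obtain ⟨i1, i3, i4⟩ := h_nu hν hq h1 h2
  have hpd := pd_nu hvw
  have hs0 : 0 < √ν := Real.sqrt_pos.2 hν
  have hsν : √ν ^ 2 = ν := Real.sq_sqrt hν.le
  have hvs : ∀ y ∈ ball x (2 * s), vsq w y = ν⁻¹ ^ 2 * vsq v y := by
    intro y hy
    obtain ⟨-, -, -, s4⟩ := stre_of_pd (hpd y hy)
    unfold vsq
    rw [s4, Finset.mul_sum]
    refine Finset.sum_congr rfl fun i _ => ?_
    rw [Pi.smul_apply, smul_eq_mul, mul_pow]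
  have hlow : ∀ a y, y ∈ ball x (2 * s) → (a / ν) ^ 2 < vsq w y → a ^ 2 < vsq v y := by
    intro a y hy hw
    rw [hvs y hy, div_eq_inv_mul, mul_pow] at hw
    exact lt_of_mul_lt_mul_left hw (by positivity)
  refine ⟨_, i1, i3, i4, ?_⟩
  intro y hy z hz hyL hzL hst
  have hy2 : y ∈ ball x (2 * s) := ball_subset_ball (by linarith) hy
  obtain ⟨s1, -, s3, s4⟩ := stre_of_pd (hpd y hy2)
  obtain ⟨-, -, -, s4'⟩ := stre_of_pd (hpd z hz)
  have hst' : (Λ + q y ^ 2) * gsq v y < stre v y := by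
    rw [s1, s3, div_pow, hsν] at hst
    refine lt_of_mul_lt_mul_left (a := ν⁻¹ ^ 3) (lt_of_eq_of_lt ?_ hst) (by positivity)
    field_simp
  have h1 := h3 y hy z hz (hlow Λ y hy2 hyL) (hlow l z hz hzL) hst'
  rw [s4, s4', xsq_smul, hvs y hy2, hvs z hz]
  calc ν⁻¹ ^ 4 * xsq (vort v y) (vort v z)
      ≤ ν⁻¹ ^ 4 * (R ^ 2 * ‖y - z‖ * (vsq v y * vsq v z)) :=
        mul_le_mul_of_nonneg_left h1 (by positivity)
    _ = _ := by ring

theorem Prd.scale {δ L r : ℝ} {x : V} {v : V → V} (hv : ContDiff ℝ ∞ v) (hr : 0 < r)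
    (h : Prd δ L r x v) : Prd δ (r ^ 2 * L) 1 0 (scv r x v) := by
  obtain ⟨q, c, hq, hc, h1, h2, h3⟩ := h
  obtain ⟨i1, hmy, i3, i4⟩ := h_scale hr hq h1 h2
  refine ⟨_, c, i1, hc, i3, i4, ?_⟩
  intro y hy
  obtain ⟨s1, s2, s3, -⟩ := stre_of_pd (v := v) (w := scv r x v) (y := x + r • y) (z := y)
      (c := r ^ 2) fun k j => pd_scv hv k j y
  rw [s1, s2, s3]
  calc (r ^ 2) ^ 3 * stre v (x + r • y) ≤ (r ^ 2) ^ 3 * (c * jac v (x + r • y)
        + (L + q (x + r • y) ^ 2) * gsq v (x + r • y)) :=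
        mul_le_mul_of_nonneg_left (h3 _ (hmy y hy)) (by positivity)
    _ = _ := by ring

theorem Prd.nu {δ L s ν : ℝ} {x : V} {v w : V → V} (hν : 0 < ν)
    (h : Prd (δ * √ν) L s x v) (hvw : ∀ y ∈ ball x s, w y = ν⁻¹ • v y) :
    Prd δ (L / ν) s x w := by
  obtain ⟨q, c, hq, hc, h1, h2, h3⟩ := h
  obtain ⟨i1, i3, i4⟩ := h_nu hν hq h1 h2
  have hpd := pd_nu hvw
  have hs0 : 0 < √ν := Real.sqrt_pos.2 hν
  have hsν : √ν ^ 2 = ν := Real.sq_sqrt hν.le
  refine ⟨_, c, i1, hc, i3, i4, ?_⟩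
  intro y hy
  obtain ⟨s1, s2, s3, -⟩ := stre_of_pd (hpd y hy)
  rw [s1, s2, s3, div_pow, hsν]
  calc ν⁻¹ ^ 3 * stre v y ≤ ν⁻¹ ^ 3 * (c * jac v y + (L + q y ^ 2) * gsq v y) :=
        mul_le_mul_of_nonneg_left (h3 y hy) (by positivity)
    _ = _ := by
      field_simp

/-- The growth at a maximum, if the direction varies little at the points of stretching. -/
theorem coh_loc (hκ : Cut κ) : ∃ C ε : ℝ, 1 ≤ C ∧ 0 < ε ∧ ∀ v : V → V, ContDiff ℝ ∞ v →
    ∀ (r : ℝ) (x : V), 0 < r → (∀ y ∈ ball x (8 * r), dv v y = 0) →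
      (∀ w ∈ ball x (9 * r), enk κ r v w ≤ enk κ r v x) → ∀ ρ Λ l e : ℝ, 0 ≤ ρ → 0 ≤ Λ → 0 ≤ l →
        ∫ y in ball x (8 * r), gsq v y ≤ e → CohS ε ρ Λ l r x v →
          Dk κ r x v ≤ C * ((1 / r ^ 2 + Λ + (1 / r + ρ ^ 2 + r ^ 3 * l ^ 2) * e) * enk κ r v x) := by
  obtain ⟨K, hK, hpt⟩ := pt_ineq3
  obtain ⟨C, ε, hC, hε, hU⟩ := unit_mix hκ hK
  obtain ⟨C', hC', hloc⟩ := loc_gen hκ (C := 2689 * C) (by linarith)
  refine ⟨C', ε, hC', hε, ?_⟩
  intro u hv r x hr hd hmax ρ Λ l e hρ hΛ hl he hcoh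
  refine hloc u hv r x hr hd hmax ρ Λ l e hΛ hl he ?_
  intro hvs hdiv N S hN hS0 hSb
  set v := scv r x u with hvdef
  obtain ⟨h, hhc, hh0, hh3, hcp⟩ := hcoh.scale hv hr hl
  rw [← hvdef] at hcp
  have hN0 : 0 ≤ N := (integral_nonneg fun z => osq_nonneg v z).trans hN
  have hK0 := K0_nonneg
  set Λ' := r ^ 2 * Λ with hΛ'
  have hΛ0 : 0 ≤ Λ' := by positivity
  have h1 := hU v hvs hdiv N S Λ' (80 * Λ' + 2688 * S) (√r * ρ) (1 + r ^ 2 * l) 0 h hN hS0 hΛ0
    (by positivity) (by positivity) (by positivity) (by norm_num) hhc hh0 hh3 hSb (by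
      intro z hz
      have ho := osq_nonneg v z
      have hT := Tl_nonneg (2 * (1 + r ^ 2 * l) ^ 2) v z
      have hI := Ih_nonneg v z
      have hg := gsq_nonneg (bb v) z
      have p1 : 0 ≤ 12 * Λ' * (√(osq v z) * √(gsq (bb v) z)) := by positivity
      have p2 : 0 ≤ 2 * (osq v z * Tl (2 * (1 + r ^ 2 * l) ^ 2) v z) := by positivity
      have p3 : 0 ≤ 8 * K * (√r * ρ) * (osq v z * Ih v z) := by positivity
      have p4 : 0 ≤ 80 * Λ' * gsq (bb v) z := by positivity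
      have p4' : 0 ≤ 2688 * S * gsq (bb v) z := by positivity
      have p5 : 0 ≤ h z ^ 2 * gsq (bb v) z := by positivity
      have p6 : 0 ≤ 144 * √(K0 * N) * gsq (bb v) z := by positivity
      have p7 : 0 ≤ 36 * (K0 * N) * √(gsq (bb v) z) := by positivity
      have e1 : (80 * Λ' + 2688 * S + 320 * h z ^ 2 + 144 * √(K0 * N)) * gsq (bb v) z
          = 80 * Λ' * gsq (bb v) z + 2688 * S * gsq (bb v) z + 320 * (h z ^ 2 * gsq (bb v) z)
            + 144 * √(K0 * N) * gsq (bb v) z := by ring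
      rw [e1, mul_zero, zero_mul, add_zero]
      rcases le_or_gt (vsq v z) (Λ' ^ 2) with hs | hs
      · have h2 := pt_small hvs hΛ0 hS0 hSb hz
          (hdiv z (ball_subset_ball (by norm_num) hz)) hs
        linarith
      · rcases le_or_gt (stre v z) ((Λ' + h z ^ 2) * gsq v z) with hs2 | hs2
        · have h2 := pt_prod hvs hdiv hN hS0 hSb hz (q := Λ' + h z ^ 2) (d := 0)
            (by positivity) (by norm_num) (by rw [zero_mul, sub_zero]; exact hs2)
          have e2 : (80 * (Λ' + h z ^ 2) + 2688 * S) * gsq (bb v) z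
              = 80 * Λ' * gsq (bb v) z + 2688 * S * gsq (bb v) z + 80 * (h z ^ 2 * gsq (bb v) z) := by
            ring
          rw [e2, mul_zero, zero_mul, add_zero] at h2
          linarith
        · have h2 := hpt v hvs (fun y hy => hdiv y (ball_subset_ball (by norm_num) hy))
            (√r * ρ) (1 + r ^ 2 * l) S (by positivity) (by positivity) hS0 hSb z hz (by
              intro y hy hyL
              exact hcp z hz y (by rw [mul_one]; exact hy) hs hyL hs2)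
          linarith)
  refine h1.trans ?_
  have h3 : C * ((1 + S + Λ' + (80 * Λ' + 2688 * S)) * N
      + (1 + (√r * ρ) ^ 2 + (1 + r ^ 2 * l) ^ 2) * N ^ 2)
      ≤ 2689 * C * ((1 + S + Λ') * N + (1 + (√r * ρ) ^ 2 + (1 + r ^ 2 * l) ^ 2) * N ^ 2) := by
    have q1 : 0 ≤ C * (1 * N) := by positivity
    have q2 : 0 ≤ C * (Λ' * N) := by positivity
    have q3 : 0 ≤ C * ((1 + (√r * ρ) ^ 2 + (1 + r ^ 2 * l) ^ 2) * N ^ 2) := by positivity
    have e3 : 2689 * C * ((1 + S + Λ') * N + (1 + (√r * ρ) ^ 2 + (1 + r ^ 2 * l) ^ 2) * N ^ 2)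
        = C * ((1 + S + Λ' + (80 * Λ' + 2688 * S)) * N
          + (1 + (√r * ρ) ^ 2 + (1 + r ^ 2 * l) ^ 2) * N ^ 2)
          + (2688 * (C * (1 * N)) + 2608 * (C * (Λ' * N))
          + 2688 * (C * ((1 + (√r * ρ) ^ 2 + (1 + r ^ 2 * l) ^ 2) * N ^ 2))) := by ring
    rw [e3]
    linarith
  linarith

/-- The growth at a maximum, if the stretching is small modulo the determinant of the gradient. -/
theorem prod_loc (hκ : Cut κ) : ∃ C ε : ℝ, 1 ≤ C ∧ 0 < ε ∧ ∀ v : V → V, ContDiff ℝ ∞ v →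
    ∀ (r : ℝ) (x : V), 0 < r → (∀ y ∈ ball x (8 * r), dv v y = 0) →
      (∀ w ∈ ball x (9 * r), enk κ r v w ≤ enk κ r v x) → ∀ L e : ℝ, 0 ≤ L →
        ∫ y in ball x (8 * r), gsq v y ≤ e → Prd ε L r x v →
          Dk κ r x v ≤ C * ((1 / r ^ 2 + L + (1 / r) * e) * enk κ r v x) := by
  obtain ⟨C, ε, hC, hε, hU⟩ := unit_mix hκ (K := 1) le_rfl
  obtain ⟨C', hC', hloc⟩ := loc_gen hκ (C := 2689 * C) (by linarith)
  refine ⟨C', ε, hC', hε, ?_⟩
  intro u hv r x hr hd hmax Λ e hΛ he hcoh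
  have e0 : (1 / r + (0 : ℝ) ^ 2 + r ^ 3 * 0 ^ 2) * e = 1 / r * e := by ring
  rw [← e0]
  refine hloc u hv r x hr hd hmax 0 Λ 0 e hΛ le_rfl he ?_
  intro hvs hdiv N S hN hS0 hSb
  set v := scv r x u with hvdef
  obtain ⟨h, c, hhc, hc, hh0, hh3, hcp⟩ := hcoh.scale hv hr
  rw [← hvdef] at hcp
  have hN0 : 0 ≤ N := (integral_nonneg fun z => osq_nonneg v z).trans hN
  have hK0 := K0_nonneg
  set Λ' := r ^ 2 * Λ with hΛ'
  have hΛ0 : 0 ≤ Λ' := by positivity
  have h1 := hU v hvs hdiv N S 0 (80 * Λ' + 2688 * S) 0 1 c h hN hS0 le_rfl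
    (by positivity) le_rfl one_pos hc hhc hh0 hh3 hSb (by
      intro z hz
      have ho := osq_nonneg v z
      have hT := Tl_nonneg (2 * (1 : ℝ) ^ 2) v z
      have hg := gsq_nonneg (bb v) z
      have p2 : 0 ≤ 2 * (osq v z * Tl (2 * 1 ^ 2) v z) := by positivity
      have p5 : 0 ≤ h z ^ 2 * gsq (bb v) z := by positivity
      have e1 : (80 * Λ' + 2688 * S + 320 * h z ^ 2 + 144 * √(K0 * N)) * gsq (bb v) z
          = 80 * Λ' * gsq (bb v) z + 2688 * S * gsq (bb v) z + 320 * (h z ^ 2 * gsq (bb v) z)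
            + 144 * √(K0 * N) * gsq (bb v) z := by ring
      rw [e1, mul_zero, zero_mul, add_zero, mul_zero, zero_mul, add_zero]
      have hs2 : stre v z - c * dgr v z ≤ (Λ' + h z ^ 2) * gsq v z := by
        have h3 := hcp z hz
        rw [jac_dgr] at h3
        linarith
      have h2 := pt_prod hvs hdiv hN hS0 hSb hz (q := Λ' + h z ^ 2) (d := c)
        (by positivity) hc hs2
      have e2 : (80 * (Λ' + h z ^ 2) + 2688 * S) * gsq (bb v) z
          = 80 * Λ' * gsq (bb v) z + 2688 * S * gsq (bb v) z + 80 * (h z ^ 2 * gsq (bb v) z) := by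
        ring
      rw [e2] at h2
      linarith)
  refine h1.trans ?_
  have h3 : C * ((1 + S + 0 + (80 * Λ' + 2688 * S)) * N
      + (1 + (0 : ℝ) ^ 2 + 1 ^ 2) * N ^ 2)
      ≤ 2689 * C * ((1 + S + Λ') * N + (1 + (√r * 0) ^ 2 + (1 + r ^ 2 * 0) ^ 2) * N ^ 2) := by
    have q1 : 0 ≤ C * (1 * N) := by positivity
    have q2 : 0 ≤ C * (Λ' * N) := by positivity
    have q3 : 0 ≤ C * N ^ 2 := by positivity
    have e3 : 2689 * C * ((1 + S + Λ') * N + (1 + (√r * 0) ^ 2 + (1 + r ^ 2 * 0) ^ 2) * N ^ 2)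
        = C * ((1 + S + 0 + (80 * Λ' + 2688 * S)) * N + (1 + (0 : ℝ) ^ 2 + 1 ^ 2) * N ^ 2)
          + (2688 * (C * (1 * N)) + 2609 * (C * (Λ' * N)) + 5376 * (C * N ^ 2)) := by ring
    rw [e3]
    linarith
  linarith

end Pool.Agent.H946.NS
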