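import Pool.Agent.H946_NS.H1

/-!
The local enstrophy inequality with the Lamb vector: the estimate at the unit scale.
-/

set_option autoImplicit false

open MeasureTheory Set Metric Filter Topology
open scoped ContDiff ENNReal

namespace Pool.Agent.H946.NS

open H459R3.NS W221.NS Pool.Agent.W583.MD

variable {κ : V → ℝ}

/-- The algebra. -/
theorem lamb_alg {o : Fin 3 → Fin 3 → ℝ} {d : Fin 3 → Fin 3 → Fin 3 → ℝ} (f : ℝ) (g w : Fin 3 → ℝ)
    (ho : ∀ i j, o j i = -o i j) (hd : ∀ k i j, d k j i = -d k i j)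
    (hdiv : d 0 1 2 + d 1 2 0 + d 2 0 1 = 0) :
    (∑ i, ∑ j, o i j ^ 2) * ∑ k, w k * g k
      + ∑ i, ∑ j, ∑ k, w j * (4 * (o i j * o i k) * g k
        + 4 * (o i j * d k i k + d k i j * o i k) * f)
      - ∑ i, ∑ j, ∑ k, w k * ((o i j * o i j) * g k + (o i j * d k i j + d k i j * o i j) * f)
    = 4 * ((w 1 * o 0 1 - w 2 * o 2 0)
          * ((g 1 * o 0 1 + f * d 1 0 1) - (g 2 * o 2 0 + f * d 2 2 0))
        + (w 2 * o 1 2 - w 0 * o 0 1)
          * ((g 2 * o 1 2 + f * d 2 1 2) - (g 0 * o 0 1 + f * d 0 0 1))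
        + (w 0 * o 2 0 - w 1 * o 1 2)
          * ((g 0 * o 2 0 + f * d 0 2 0) - (g 1 * o 1 2 + f * d 1 1 2))) := by
  have o0 : ∀ i, o i i = 0 := fun i => by linarith [ho i i]
  have d0 : ∀ k i, d k i i = 0 := fun k i => by linarith [hd k i i]
  have e : d 2 0 1 = -d 0 1 2 - d 1 2 0 := by linarith
  simp only [Fin.sum_univ_three, o0, d0, ho 0 1, ho 1 2, ho 2 0, hd 0 0 1, hd 0 1 2, hd 0 2 0,
    hd 1 0 1, hd 1 1 2, hd 1 2 0, hd 2 0 1, hd 2 1 2, hd 2 2 0, e]
  ring

theorem lamb_num {A O W k m M o f η : ℝ} (ho : 0 ≤ o) (hη : 0 < η)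
    (hOo : O ^ 2 = k ^ 2 * o) :
    -2 * A ^ 2 + 18 * M * m * o + 111 * m * o + (2 * (W * (A * O)) + 48 * M * (f * (k * o)))
      ≤ -(3 / 2) * A ^ 2 + 2 * (W ^ 2 * (k ^ 2 * o)) + η * (f ^ 2 * (k ^ 2 * o))
        + (576 * M ^ 2 / η + (18 * M + 111) * m) * o := by
  have h1 : 2 * (W * (A * O)) ≤ 1 / 2 * A ^ 2 + 2 * (W ^ 2 * O ^ 2) := by
    nlinarith [sq_nonneg (A - 2 * (W * O))]
  have h2 : 48 * M * (f * (k * o)) ≤ η * (f ^ 2 * (k ^ 2 * o)) + 576 * M ^ 2 / η * o := by
    have h3 : 0 ≤ (η * (f * k) - 24 * M) ^ 2 / η * o := by positivity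
    have h4 : (η * (f * k) - 24 * M) ^ 2 / η * o
        = η * (f ^ 2 * (k ^ 2 * o)) + 576 * M ^ 2 / η * o - 48 * M * (f * (k * o)) := by
      field_simp
      ring
    linarith
  rw [hOo] at h1
  linarith

theorem vort_om (v : V → V) : (fun y => vort v y 0) = om v 1 2 ∧ (fun y => vort v y 1) = om v 2 0 ∧
    (fun y => vort v y 2) = om v 0 1 := ⟨rfl, rfl, rfl⟩

theorem vort_vort (v : V → V) (z : V) :
    vort (vort v) z 0 = pd 1 (om v 0 1) z - pd 2 (om v 2 0) z ∧
      vort (vort v) z 1 = pd 2 (om v 1 2) z - pd 0 (om v 0 1) z ∧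
      vort (vort v) z 2 = pd 0 (om v 2 0) z - pd 1 (om v 1 2) z := ⟨rfl, rfl, rfl⟩

theorem dsq_gsq {v : V → V} (hv : ContDiff ℝ ∞ v) (z : V) : dsq v z = 2 * gsq (vort v) z := by
  obtain ⟨e0, e1, e2⟩ := vort_om v
  have hpom : ∀ k i j, pd k (om v i j) z
      = pd k (pd i fun y => v y j) z - pd k (pd j fun y => v y i) z := fun k i j =>
    Pool.Agent.W135.MD.pd_sub' (Pool.Agent.W135.MD.sm_diff (sm_pd (sm_comp hv j) i))
      (Pool.Agent.W135.MD.sm_diff (sm_pd (sm_comp hv i) j)) k z
  have hdom : ∀ k i j, pd k (om v j i) z = -pd k (om v i j) z := fun k i j => by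
    rw [hpom, hpom]
    ring
  have d0 : ∀ k i, pd k (om v i i) z = 0 := fun k i => by linarith [hdom k i i]
  unfold dsq
  rw [gsq_sum]
  simp only [Fin.sum_univ_three, e0, e1, e2, d0, hdom _ 0 1, hdom _ 1 2, hdom _ 2 0]
  ring

/-- The local enstrophy inequality with the Lamb vector. -/
theorem unit_lamb (hκ : Cut κ) : ∃ C ε : ℝ, 1 ≤ C ∧ 0 < ε ∧ ∀ v : V → V, ContDiff ℝ ∞ v →
    (∀ y ∈ ball (0 : V) 1, dv v y = 0) → ∀ (c : V) (b : V → V) (q h a : V → ℝ), ContDiff ℝ ∞ b →
      ContDiff ℝ ∞ q → Continuous h → Continuous a → ∀ N l m K : ℝ,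
      ∫ x in ball (0 : V) 1, osq v x ≤ N → 0 ≤ l → 0 ≤ m → 0 ≤ K →
      (∀ y ∈ ball (0 : V) 1, ∀ i j, |pd i (fun y => b y j) y| ≤ m) →
      (∀ y ∈ ball (0 : V) 1, ∀ k, |b y k| ≤ 3 * m) → (∀ y ∈ ball (0 : V) 1, 0 ≤ h y ∧ 0 ≤ a y) →
      ∫ x in ball (0 : V) 1, h x ^ 3 ≤ ε ^ 3 → ∫ x in ball (0 : V) 1, a x ^ 3 ≤ K ^ 3 →
      (∀ y ∈ ball (0 : V) 1, ∑ i, lam v (fun y => c + b y) q y i * vort (vort v) y i
        ≤ (l + h y) * √(vsq v y * gsq (vort v) y)) →
      (∀ y ∈ ball (0 : V) 1, ∑ i, lam v (fun y => c + b y) q y i ^ 2 ≤ a y ^ 2 * vsq v y) →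
        ∫ z, RR v 0 z * (κ z * κ z) ≤ C * ((1 + l ^ 2 + m + K ^ 2) * N)
          + (∫ z in ball (0 : V) 1, osq v z * lap (fun z : V => κ z * κ z) z)
          + ∑ k, c k * ∫ z in ball (0 : V) 1, osq v z * pd k (fun z : V => κ z * κ z) z := by
  obtain ⟨M, hM1, hM⟩ := hκ.bound
  obtain ⟨C6, hC6, h6⟩ := om_six hκ
  refine ⟨5 + 18 * M + 111 + 4608 * M ^ 2 * C6, 1 / (16 * C6), ?_, by positivity, ?_⟩
  · have : 0 ≤ 4608 * M ^ 2 * C6 := by positivity
    linarith
  intro v hv hd c b q h a hb hq hhc hac N l m K hN hl hm hK hbd hbs hh0 hw ha3 hone hlam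
  have hN0 : 0 ≤ N := (integral_nonneg fun x => osq_nonneg v x).trans hN
  set D := ∫ x in ball (0 : V) 1, κ x ^ 2 * dsq v x with hD
  have hD0 : 0 ≤ D := integral_nonneg fun x => mul_nonneg (sq_nonneg _) (dsq_nonneg v x)
  set φ : V → ℝ := fun z => κ z * κ z with hφ
  have hkφ : Ker φ := hκ.ker2
  set w : V → V := fun x k => v x k - c k - b x k with hwdef
  have hws : ContDiff ℝ ∞ w := contDiff_pi.2 fun k =>
    ((sm_comp hv k).sub contDiff_const).sub (sm_comp hb k)
  have hwc : Continuous w := hws.continuous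
  have hkc : Continuous κ := hκ.smooth.continuous
  have hoc := (osq_smooth hv).continuous
  let P : Fin 3 → Fin 3 → Fin 3 → V → ℝ := fun i j k z => 4 * (om v i j z * om v i k z) * φ z
  let Q : Fin 3 → Fin 3 → V → ℝ := fun i j z => (om v i j z * om v i j z) * φ z
  let G : Fin 3 → Fin 3 → V → ℝ := fun i j z => om v i j z * φ z
  let E : Fin 3 → Fin 3 → Fin 3 → Fin 3 → Fin 3 → Fin 3 → V → ℝ := fun a i j a' i' j' z =>
    pd a q z * G i j z - pd a' q z * G i' j' z
  have hO : ∀ i j k, ContDiff ℝ ∞ (fun z => 4 * (om v i j z * om v i k z)) := fun i j k =>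
    contDiff_const.mul ((om_smooth hv i j).mul (om_smooth hv i k))
  have hO2 : ∀ i j, ContDiff ℝ ∞ (fun z => om v i j z * om v i j z) := fun i j =>
    (om_smooth hv i j).mul (om_smooth hv i j)
  have hP : ∀ i j k, Ker (P i j k) := fun i j k =>
    ⟨(hO i j k).mul hkφ.sm, fun z hz => by simp only [P, hkφ.zero z hz, mul_zero]⟩
  have hQ : ∀ i j, Ker (Q i j) := fun i j =>
    ⟨(hO2 i j).mul hkφ.sm, fun z hz => by simp only [Q, hkφ.zero z hz, mul_zero]⟩
  have hG : ∀ i j, Ker (G i j) := fun i j =>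
    ⟨(om_smooth hv i j).mul hkφ.sm, fun z hz => by simp only [G, hkφ.zero z hz, mul_zero]⟩
  have hE : ∀ a i j a' i' j', Ker (E a i j a' i' j') := fun a i j a' i' j' =>
    ⟨((sm_pd hq a).mul (hG i j).sm).sub ((sm_pd hq a').mul (hG i' j').sm), fun z hz => by
      simp only [E, (hG i j).zero z hz, (hG i' j').zero z hz, mul_zero, sub_zero]⟩
  let cr : V → ℝ := fun z =>
    (w z 1 * om v 0 1 z - w z 2 * om v 2 0 z - pd 0 q z) * (pd 1 (G 0 1) z - pd 2 (G 2 0) z)
      + (w z 2 * om v 1 2 z - w z 0 * om v 0 1 z - pd 1 q z) * (pd 2 (G 1 2) z - pd 0 (G 0 1) z)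
      + (w z 0 * om v 2 0 z - w z 1 * om v 1 2 z - pd 2 q z) * (pd 0 (G 2 0) z - pd 1 (G 1 2) z)
  let I : V → ℝ := fun z => -2 * (dsq v z * φ z) + osq v z * (∑ k, b z k * pd k φ z)
    - (∑ i, ∑ j, ∑ k, P i j k z * pd k (fun y => b y j) z)
    + osq v z * φ z * (∑ k, pd k (fun y => b y k) z) + 4 * cr z
  let J : V → ℝ := fun z => (∑ i, ∑ j, ∑ k, (pd k (fun z => w z j * P i j k z) z
    - pd k (fun z => w z k * Q i j z) z))
    + 4 * (pd 0 (E 1 0 1 2 2 0) z + pd 1 (E 2 1 2 0 0 1) z + pd 2 (E 0 2 0 1 1 2) z)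
  -- derivatives
  have hpw : ∀ k j z, pd k (fun y => w y j) z
      = pd k (fun y => v y j) z - pd k (fun y => b y j) z := by
    intro k j z
    have e : (fun y => w y j) = fun y => (v y j - c j) - b y j := rfl
    rw [e, Pool.Agent.W135.MD.pd_sub' (Pool.Agent.W135.MD.sm_diff
      ((sm_comp hv j).sub contDiff_const)) (Pool.Agent.W135.MD.sm_diff (sm_comp hb j)),
      Pool.Agent.W135.MD.pd_sub' (Pool.Agent.W135.MD.sm_diff (sm_comp hv j))
          (differentiable_const _), Pool.Agent.W135.MD.pd_const', sub_zero]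
  have hpwP : ∀ i j k z, pd k (fun z => w z j * P i j k z) z
      = w z j * pd k (P i j k) z + pd k (fun y => w y j) z * P i j k z := fun i j k z =>
    pd_mul' (sm_comp hws j) (hP i j k).sm k z
  have hpwQ : ∀ i j k z, pd k (fun z => w z k * Q i j z) z
      = w z k * pd k (Q i j) z + pd k (fun y => w y k) z * Q i j z := fun i j k z =>
    pd_mul' (sm_comp hws k) (hQ i j).sm k z
  have hpG : ∀ i j k z, pd k (G i j) z = om v i j z * pd k φ z + pd k (om v i j) z * φ z :=
    fun i j k z => pd_mul' (om_smooth hv i j) hkφ.sm k z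
  have hpP : ∀ i j k z, pd k (P i j k) z = 4 * (om v i j z * om v i k z) * pd k φ z
      + 4 * (om v i j z * pd k (om v i k) z + pd k (om v i j) z * om v i k z) * φ z := by
    intro i j k z
    have a1 : pd k (P i j k) z = 4 * (om v i j z * om v i k z) * pd k φ z
        + pd k (fun z => 4 * (om v i j z * om v i k z)) z * φ z :=
      pd_mul' (hO i j k) hkφ.sm k z
    have a2 : pd k (fun z => 4 * (om v i j z * om v i k z)) z
        = 4 * (om v i j z * pd k (om v i k) z + pd k (om v i j) z * om v i k z) := by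
      rw [Pool.Agent.W135.MD.pd_cmul (Pool.Agent.W135.MD.sm_diff
        ((om_smooth hv i j).mul (om_smooth hv i k)))]
      congr 1
      exact pd_mul' (om_smooth hv i j) (om_smooth hv i k) k z
    rw [a1, a2]
  have hpQ : ∀ i j k z, pd k (Q i j) z = (om v i j z * om v i j z) * pd k φ z
      + (om v i j z * pd k (om v i j) z + pd k (om v i j) z * om v i j z) * φ z := by
    intro i j k z
    have a1 : pd k (Q i j) z = (om v i j z * om v i j z) * pd k φ z
        + pd k (fun z => om v i j z * om v i j z) z * φ z :=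
      pd_mul' (hO2 i j) hkφ.sm k z
    have a2 : pd k (fun z => om v i j z * om v i j z) z
        = om v i j z * pd k (om v i j) z + pd k (om v i j) z * om v i j z :=
      pd_mul' (om_smooth hv i j) (om_smooth hv i j) k z
    rw [a1, a2]
  have hpE : ∀ a i j a' i' j' k z, pd k (E a i j a' i' j') z
      = (pd a q z * pd k (G i j) z + pd k (pd a q) z * G i j z)
        - (pd a' q z * pd k (G i' j') z + pd k (pd a' q) z * G i' j' z) := by
    intro a i j a' i' j' k z
    have a1 : pd k (E a i j a' i' j') z = pd k (fun z => pd a q z * G i j z) z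
        - pd k (fun z => pd a' q z * G i' j' z) z :=
      Pool.Agent.W135.MD.pd_sub' (Pool.Agent.W135.MD.sm_diff ((sm_pd hq a).mul (hG i j).sm))
        (Pool.Agent.W135.MD.sm_diff ((sm_pd hq a').mul (hG i' j').sm)) k z
    rw [a1]
    congr 1
    · exact pd_mul' (sm_pd hq a) (hG i j).sm k z
    · exact pd_mul' (sm_pd hq a') (hG i' j').sm k z
  have hom : ∀ i j z, om v j i z = -om v i j z := fun i j z => by
    unfold om
    ring
  have hpom : ∀ k i j z, pd k (om v i j) z
      = pd k (pd i fun y => v y j) z - pd k (pd j fun y => v y i) z := fun k i j z =>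
    Pool.Agent.W135.MD.pd_sub' (Pool.Agent.W135.MD.sm_diff (sm_pd (sm_comp hv j) i))
      (Pool.Agent.W135.MD.sm_diff (sm_pd (sm_comp hv i) j)) k z
  have hdom : ∀ k i j z, pd k (om v j i) z = -pd k (om v i j) z := fun k i j z => by
    rw [hpom, hpom]
    ring
  have hdiv0 : ∀ z, pd 0 (om v 1 2) z + pd 1 (om v 2 0) z + pd 2 (om v 0 1) z = 0 := by
    intro z
    rw [hpom, hpom, hpom, Pool.Agent.W135.MD.pd_comm' (sm_comp hv 2) 0 1 z,
      Pool.Agent.W135.MD.pd_comm' (sm_comp hv 1) 0 2 z,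
      Pool.Agent.W135.MD.pd_comm' (sm_comp hv 0) 1 2 z]
    ring
  have hkw : ∀ i j k, Ker (fun z => w z j * P i j k z) := fun i j k =>
    (hP i j k).mul (sm_comp hws j)
  have hkq : ∀ i j k, Ker (fun z => w z k * Q i j z) := fun i j k =>
    (hQ i j).mul (sm_comp hws k)
  have hJc : Continuous J := by
    refine (continuous_finsetSum _ fun i _ => continuous_finsetSum _ fun j _ =>
      continuous_finsetSum _ fun k _ => ?_).add (continuous_const.mul ((Continuous.add ?_ ?_).add ?_))
    · exact ((hkw i j k).pd k).sm.continuous.sub ((hkq i j k).pd k).sm.continuous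
    · exact ((hE _ _ _ _ _ _).pd _).sm.continuous
    · exact ((hE _ _ _ _ _ _).pd _).sm.continuous
    · exact ((hE _ _ _ _ _ _).pd _).sm.continuous
  have hZ : ∫ z in ball (0 : V) 1, J z = 0 := by
    have hz0 : ∀ z, z ∉ ball (0 : V) 1 → J z = 0 := by
      intro z hz
      simp only [J]
      rw [Finset.sum_eq_zero fun i _ => Finset.sum_eq_zero fun j _ => Finset.sum_eq_zero
        fun k _ => by rw [((hkw i j k).pd k).zero z hz, ((hkq i j k).pd k).zero z hz, sub_zero],
        ((hE _ _ _ _ _ _).pd _).zero z hz, ((hE _ _ _ _ _ _).pd _).zero z hz,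
        ((hE _ _ _ _ _ _).pd _).zero z hz]
      ring
    rw [setIntegral_eq_integral_of_forall_compl_eq_zero hz0]
    have i1 : ∀ i j k, Z fun z => pd k (fun z => w z j * P i j k z) z
        - pd k (fun z => w z k * Q i j z) z := fun i j k =>
      (Z_pd (hkw i j k).sm (hkw i j k).cs k).sub (Z_pd (hkq i j k).sm (hkq i j k).cs k)
    have i2 := Z_pd (hE 1 0 1 2 2 0).sm (hE 1 0 1 2 2 0).cs 0
    have i3 := Z_pd (hE 2 1 2 0 0 1).sm (hE 2 1 2 0 0 1).cs 1
    have i4 := Z_pd (hE 0 2 0 1 1 2).sm (hE 0 2 0 1 1 2).cs 2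
    exact ((Z.sum fun i => Z.sum fun j => Z.sum fun k => i1 i j k).add
      (((i2.add i3).add i4).smul 4)).2
  have hpdc : ∀ k, Continuous (pd k φ) := fun k => (hkφ.pd k).sm.continuous
  have hlapc : Continuous (lap φ) := by
    unfold lap
    exact continuous_finsetSum _ fun k _ => ((hkφ.pd k).pd k).sm.continuous
  have hbc : ∀ k, Continuous fun z => b z k := fun k => (sm_comp hb k).continuous
  have hwk : ∀ k, Continuous fun z => w z k := fun k => (sm_comp hws k).continuous
  have homc : ∀ i j, Continuous (om v i j) := fun i j => (om_smooth hv i j).continuous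
  have hqc : ∀ k, Continuous (pd k q) := fun k => (sm_pd hq k).continuous
  have hGc : ∀ i j k, Continuous (pd k (G i j)) := fun i j k => ((hG i j).pd k).sm.continuous
  have hcrc : Continuous cr := by
    refine ((Continuous.mul ?_ ?_).add (Continuous.mul ?_ ?_)).add (Continuous.mul ?_ ?_)
    · exact (((hwk 1).mul (homc 0 1)).sub ((hwk 2).mul (homc 2 0))).sub (hqc 0)
    · exact (hGc _ _ _).sub (hGc _ _ _)
    · exact (((hwk 2).mul (homc 1 2)).sub ((hwk 0).mul (homc 0 1))).sub (hqc 1)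
    · exact (hGc _ _ _).sub (hGc _ _ _)
    · exact (((hwk 0).mul (homc 2 0)).sub ((hwk 1).mul (homc 1 2))).sub (hqc 2)
    · exact (hGc _ _ _).sub (hGc _ _ _)
  have hIc : Continuous I := by
    refine (((Continuous.add ?_ ?_).sub ?_).add ?_).add ?_
    · exact continuous_const.mul ((dsq_cont hv).mul hkφ.sm.continuous)
    · exact hoc.mul (continuous_finsetSum _ fun k _ => (hbc k).mul (hpdc k))
    · exact continuous_finsetSum _ fun i _ => continuous_finsetSum _ fun j _ =>
        continuous_finsetSum _ fun k _ =>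
          (hP i j k).sm.continuous.mul (sm_pd (sm_comp hb j) k).continuous
    · exact (hoc.mul hkφ.sm.continuous).mul (continuous_finsetSum _ fun k _ =>
        (sm_pd (sm_comp hb k) k).continuous)
    · exact continuous_const.mul hcrc
  have hsplit : ∫ z, RR v 0 z * φ z = (∫ z in ball (0 : V) 1, I z)
      + (∫ z in ball (0 : V) 1, osq v z * lap φ z)
      + ∑ k, c k * ∫ z in ball (0 : V) 1, osq v z * pd k φ z := by
    have h0 := RR_int hv hd 0 hkφ
    rw [h0]
    have e1 : ∀ z ∈ ball (0 : V) 1, -2 * (dsq v z * φ z) + osq v z * (lap φ z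
        + ∑ k, (v z k - (0 : V) k) * pd k φ z) - str v z * φ z
        = ((I z + osq v z * lap φ z) + ∑ k, c k * (osq v z * pd k φ z)) - J z := by
      intro z hz
      have ha := lamb_alg (o := fun i j => om v i j z) (d := fun k i j => pd k (om v i j) z)
        (φ z) (fun k => pd k φ z) (w z) (fun i j => hom i j z) (fun k i j => hdom k i j z)
        (hdiv0 z)
      have hE' : pd 0 (E 1 0 1 2 2 0) z + pd 1 (E 2 1 2 0 0 1) z + pd 2 (E 0 2 0 1 1 2) z
          = -(pd 0 q z * (pd 1 (G 0 1) z - pd 2 (G 2 0) z)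
            + pd 1 q z * (pd 2 (G 1 2) z - pd 0 (G 0 1) z)
            + pd 2 q z * (pd 0 (G 2 0) z - pd 1 (G 1 2) z)) := by
        rw [hpE, hpE, hpE, Pool.Agent.W135.MD.pd_comm' hq 0 1 z,
          Pool.Agent.W135.MD.pd_comm' hq 0 2 z, Pool.Agent.W135.MD.pd_comm' hq 1 2 z]
        ring
      set A := ∑ i, ∑ j, ∑ k, w z j * pd k (P i j k) z with hA
      set B := ∑ i, ∑ j, ∑ k, w z k * pd k (Q i j) z with hB
      have hJ : J z = A - B + (∑ i, ∑ j, ∑ k, pd k (fun y => w y j) z * P i j k z)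
          - (∑ i, ∑ j, ∑ k, pd k (fun y => w y k) z * Q i j z)
          - 4 * (pd 0 q z * (pd 1 (G 0 1) z - pd 2 (G 2 0) z)
            + pd 1 q z * (pd 2 (G 1 2) z - pd 0 (G 0 1) z)
            + pd 2 q z * (pd 0 (G 2 0) z - pd 1 (G 1 2) z)) := by
        simp only [J]
        rw [hE', hA, hB]
        have e2 : (∑ i, ∑ j, ∑ k, (pd k (fun z => w z j * P i j k z) z
            - pd k (fun z => w z k * Q i j z) z))
            = ∑ i, ∑ j, ∑ k, ((w z j * pd k (P i j k) z + pd k (fun y => w y j) z * P i j k z)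
              - (w z k * pd k (Q i j) z + pd k (fun y => w y k) z * Q i j z)) :=
          Finset.sum_congr rfl fun i _ => Finset.sum_congr rfl fun j _ => Finset.sum_congr rfl
            fun k _ => by rw [hpwP, hpwQ]
        rw [e2]
        simp only [Finset.sum_sub_distrib, Finset.sum_add_distrib]
        ring
      have hP' : ∑ i, ∑ j, ∑ k, pd k (fun y => w y j) z * P i j k z
          = str v z * φ z - ∑ i, ∑ j, ∑ k, P i j k z * pd k (fun y => b y j) z := by
        simp_rw [hpw]
        rw [str_eq]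
        simp only [P, Fin.sum_univ_three]
        ring
      have hQ' : ∑ i, ∑ j, ∑ k, pd k (fun y => w y k) z * Q i j z
          = -(osq v z * φ z * ∑ k, pd k (fun y => b y k) z) := by
        have h1 : ∑ k, pd k (fun y => v y k) z = 0 := hd z hz
        have h2 : ∑ k, pd k (fun y => w y k) z = -∑ k, pd k (fun y => b y k) z := by
          simp_rw [hpw]
          rw [Finset.sum_sub_distrib, h1, zero_sub]
        have h3 : ∀ i j, ∑ k, pd k (fun y => w y k) z * Q i j z
            = -(∑ k, pd k (fun y => b y k) z) * Q i j z := fun i j => by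
          rw [← Finset.sum_mul, h2]
        simp_rw [h3, ← Finset.mul_sum]
        have h4 : ∑ i, ∑ j, Q i j z = osq v z * φ z := by
          simp only [Q]
          simp_rw [← Finset.sum_mul]
          congr 1
          unfold osq
          exact Finset.sum_congr rfl fun i _ => Finset.sum_congr rfl fun j _ => (sq _).symm
        rw [h4]
        ring
      have ha' : osq v z * (∑ k, w z k * pd k φ z) + A - B
          = 4 * ((w z 1 * om v 0 1 z - w z 2 * om v 2 0 z) * (pd 1 (G 0 1) z - pd 2 (G 2 0) z)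
            + (w z 2 * om v 1 2 z - w z 0 * om v 0 1 z) * (pd 2 (G 1 2) z - pd 0 (G 0 1) z)
            + (w z 0 * om v 2 0 z - w z 1 * om v 1 2 z) * (pd 0 (G 2 0) z - pd 1 (G 1 2) z)) := by
        have hA' : A = ∑ i, ∑ j, ∑ k, w z j * (4 * (om v i j z * om v i k z) * pd k φ z
            + 4 * (om v i j z * pd k (om v i k) z + pd k (om v i j) z * om v i k z) * φ z) := by
          rw [hA]
          exact Finset.sum_congr rfl fun i _ => Finset.sum_congr rfl fun j _ =>
            Finset.sum_congr rfl fun k _ => by rw [hpP]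
        have hB' : B = ∑ i, ∑ j, ∑ k, w z k * ((om v i j z * om v i j z) * pd k φ z
            + (om v i j z * pd k (om v i j) z + pd k (om v i j) z * om v i j z) * φ z) := by
          rw [hB]
          exact Finset.sum_congr rfl fun i _ => Finset.sum_congr rfl fun j _ =>
            Finset.sum_congr rfl fun k _ => by rw [hpQ]
        rw [hA', hB', hpG, hpG, hpG, hpG, hpG, hpG]
        refine Eq.trans ha ?_
        ring
      have hw' : osq v z * (∑ k, w z k * pd k φ z) = osq v z * (∑ k, (v z k - (0 : V) k) * pd k φ z)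
          - (∑ k, c k * (osq v z * pd k φ z)) - osq v z * (∑ k, b z k * pd k φ z) := by
        have e3 : ∀ k, w z k = v z k - c k - b z k := fun k => rfl
        simp only [e3, Fin.sum_univ_three, Pi.zero_apply]
        ring
      rw [hJ, hP', hQ']
      simp only [I, cr]
      linarith
    rw [setIntegral_congr_fun measurableSet_ball e1]
    have i0 : IntegrableOn I (ball 0 1) := int_ball hIc 0 1
    have i1 : IntegrableOn (fun z : V => osq v z * lap φ z) (ball 0 1) :=
      int_ball (hoc.mul hlapc) 0 1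
    have i2 : ∀ k, IntegrableOn (fun z : V => c k * (osq v z * pd k φ z))
        (ball 0 1) := fun k => int_ball (continuous_const.mul (hoc.mul (hpdc k))) 0 1
    have i3 : IntegrableOn (fun z : V => ∑ k, c k * (osq v z * pd k φ z)) (ball 0 1) :=
      int_ball (continuous_finsetSum _ fun k _ =>
          continuous_const.mul (hoc.mul (hpdc k))) 0 1
    have i4 : IntegrableOn J (ball 0 1) := int_ball hJc 0 1
    have i01 : IntegrableOn (fun z : V => I z + osq v z * lap φ z) (ball 0 1) := i0.add i1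
    have i013 : IntegrableOn (fun z : V => (I z + osq v z * lap φ z)
        + ∑ k, c k * (osq v z * pd k φ z)) (ball 0 1) := i01.add i3
    rw [integral_sub i013 i4, hZ, sub_zero, integral_add i01 i3, integral_add i0 i1,
      integral_finsetSum _ fun k _ => i2 k]
    simp_rw [integral_const_mul]
  -- the pointwise bound
  set f : V → ℝ := fun z => max (h z) 0 with hf
  have hfc : Continuous f := hhc.max continuous_const
  have hf0 : ∀ z, 0 ≤ f z := fun z => le_max_right _ _
  have hfh : ∀ z ∈ ball (0 : V) 1, f z = h z := fun z hz => max_eq_left (hh0 z hz).1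
  set a' : V → ℝ := fun z => max (a z) 0 with ha'
  have hac' : Continuous a' := hac.max continuous_const
  have ha0' : ∀ z, 0 ≤ a' z := fun z => le_max_right _ _
  have haa : ∀ z ∈ ball (0 : V) 1, a' z = a z := fun z hz => max_eq_left (hh0 z hz).2
  set η : ℝ := 1 / (4 * C6 * (K + 1) ^ 2) with hη
  have hη0 : 0 < η := by positivity
  have key : ∀ z ∈ ball (0 : V) 1, I z ≤ ((-(3 / 2) * (κ z ^ 2 * dsq v z)
      + 2 * ((l + f z) ^ 2 * (κ z ^ 2 * osq v z))) + η * (a' z ^ 2 * (κ z ^ 2 * osq v z)))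
      + (576 * M ^ 2 / η + (18 * M + 111) * m) * osq v z := by
    intro z hz
    have ho := osq_nonneg v z
    have hk0 := hκ.nonneg z
    have hk1 := hκ.le_one z
    have hφ0 : 0 ≤ φ z := mul_nonneg hk0 hk0
    have hφ1 : φ z ≤ 1 := mul_le_one₀ hk1 hk0 hk1
    have hW0 : 0 ≤ l + f z := by linarith [hf0 z]
    have e1 : ∀ k, |pd k φ z| ≤ 2 * M * κ z := by
      intro k
      have e : pd k φ z = κ z * pd k κ z + pd k κ z * κ z :=
        pd_mul' hκ.smooth hκ.smooth k z
      rw [e, show κ z * pd k κ z + pd k κ z * κ z = 2 * κ z * pd k κ z by ring, abs_mul,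
        abs_of_nonneg (by positivity)]
      calc 2 * κ z * |pd k κ z| ≤ 2 * κ z * M := by
            gcongr
            exact hM z k
        _ = _ := by ring
    have e2 : ∀ i j, |om v i j z| ≤ √(osq v z) := fun i j => Real.abs_le_sqrt (om_sq_le v i j z)
    have e3 : ∀ i j k, |pd k (om v i j) z| ≤ √(dsq v z) := by
      intro i j k
      apply Real.abs_le_sqrt
      exact (Finset.single_le_sum (f := fun k => pd k (om v i j) z ^ 2)
          (fun _ _ => sq_nonneg _) (Finset.mem_univ k)).trans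
        ((Finset.single_le_sum (f := fun j => ∑ k, pd k (om v i j) z ^ 2)
          (fun _ _ => Finset.sum_nonneg fun _ _ => sq_nonneg _) (Finset.mem_univ j)).trans
          (Finset.single_le_sum (f := fun i => ∑ j, ∑ k, pd k (om v i j) z ^ 2)
            (fun _ _ => Finset.sum_nonneg fun _ _ => Finset.sum_nonneg fun _ _ => sq_nonneg _)
            (Finset.mem_univ i)))
    have hso := Real.sqrt_nonneg (osq v z)
    have hsd := Real.sqrt_nonneg (dsq v z)
    have hoo : √(osq v z) * √(osq v z) = osq v z := Real.mul_self_sqrt ho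
    have e4 : ∀ i j k, |om v i j z * om v i k z| ≤ osq v z := by
      intro i j k
      rw [abs_mul, ← hoo]
      exact mul_le_mul (e2 i j) (e2 i k) (abs_nonneg _) hso
    have e5 : ∀ i j k, |P i j k z| ≤ 4 * osq v z := by
      intro i j k
      change |4 * (om v i j z * om v i k z) * φ z| ≤ _
      rw [abs_mul, abs_mul, abs_of_nonneg hφ0, abs_of_nonneg (by norm_num : (0 : ℝ) ≤ 4)]
      calc 4 * |om v i j z * om v i k z| * φ z ≤ 4 * osq v z * 1 :=
            mul_le_mul (mul_le_mul_of_nonneg_left (e4 i j k) (by norm_num)) hφ1 hφ0 (by positivity)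
        _ = _ := mul_one _
    -- the sums
    have s1 : osq v z * (∑ k, b z k * pd k φ z) ≤ 18 * M * m * osq v z := by
      have h1 : ∀ k, b z k * pd k φ z ≤ 3 * m * (2 * M) := by
        intro k
        calc b z k * pd k φ z ≤ |b z k| * |pd k φ z| := by
              rw [← abs_mul]
              exact le_abs_self _
          _ ≤ _ := mul_le_mul (hbs z hz k) ((e1 k).trans (by nlinarith)) (abs_nonneg _)
              (by positivity)
      have h2 : ∑ k, b z k * pd k φ z ≤ 3 * (3 * m * (2 * M)) := by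
        calc _ ≤ ∑ _k : Fin 3, 3 * m * (2 * M) := Finset.sum_le_sum fun k _ => h1 k
          _ = _ := by simp
      have h5 := mul_le_mul_of_nonneg_left h2 ho
      linarith
    have s2 : -(∑ i, ∑ j, ∑ k, P i j k z * pd k (fun y => b y j) z) ≤ 108 * m * osq v z := by
      have h1 : ∀ i j k, -(P i j k z * pd k (fun y => b y j) z) ≤ 4 * osq v z * m := by
        intro i j k
        calc -(P i j k z * pd k (fun y => b y j) z) ≤ |P i j k z| * |pd k (fun y => b y j) z| := by
              rw [← abs_mul]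
              exact neg_le_abs _
          _ ≤ _ := mul_le_mul (e5 i j k) (hbd z hz k j) (abs_nonneg _) (by positivity)
      rw [← Finset.sum_neg_distrib]
      simp_rw [← Finset.sum_neg_distrib]
      calc _ ≤ ∑ _i : Fin 3, ∑ _j : Fin 3, ∑ _k : Fin 3, 4 * osq v z * m :=
            Finset.sum_le_sum fun i _ => Finset.sum_le_sum fun j _ => Finset.sum_le_sum
              fun k _ => h1 i j k
        _ = _ := by
          simp only [Fin.sum_univ_three]
          ring
    have s3 : osq v z * φ z * (∑ k, pd k (fun y => b y k) z) ≤ 3 * m * osq v z := by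
      have h1 : ∑ k, pd k (fun y => b y k) z ≤ 3 * m := by
        calc _ ≤ ∑ _k : Fin 3, m :=
              Finset.sum_le_sum fun k _ => (le_abs_self _).trans (hbd z hz k k)
          _ = _ := by simp
      calc osq v z * φ z * (∑ k, pd k (fun y => b y k) z) ≤ osq v z * φ z * (3 * m) :=
            mul_le_mul_of_nonneg_left h1 (by positivity)
        _ ≤ osq v z * 1 * (3 * m) :=
            mul_le_mul_of_nonneg_right (mul_le_mul_of_nonneg_left hφ1 ho) (by positivity)
        _ = _ := by ring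
    have s4 : 4 * cr z ≤ 2 * ((l + f z) * ((κ z * √(dsq v z)) * (κ z * √(osq v z))))
        + 48 * M * (a' z * (κ z * osq v z)) := by
      obtain ⟨w0, w1, w2⟩ := vort_vort v z
      have hvs : vsq v z ≤ osq v z := by
        have h1 := osq_vsq v z
        have h2 := vsq_nonneg v z
        linarith
      have hY : ∀ i, |lam v (fun y => c + b y) q z i| ≤ a' z * √(osq v z) := by
        intro i
        have h1 := hlam z hz
        have h2 : lam v (fun y => c + b y) q z i ^ 2 ≤ (a' z * √(osq v z)) ^ 2 := by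
          have h3 := Finset.single_le_sum (f := fun i => lam v (fun y => c + b y) q z i ^ 2)
            (fun _ _ => sq_nonneg _) (Finset.mem_univ i)
          have h4 : a z ^ 2 * vsq v z ≤ a z ^ 2 * osq v z :=
            mul_le_mul_of_nonneg_left hvs (sq_nonneg _)
          rw [mul_pow, Real.sq_sqrt ho, haa z hz]
          exact (h3.trans h1).trans h4
        exact abs_le_of_sq_le_sq h2 (mul_nonneg (ha0' z) hso)
      have hC : ∀ i j k i' j' k', |om v i j z * pd k φ z - om v i' j' z * pd k' φ z|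
          ≤ 4 * M * (κ z * √(osq v z)) := by
        have h1 : ∀ i j k, |om v i j z * pd k φ z| ≤ √(osq v z) * (2 * M * κ z) := by
          intro i j k
          rw [abs_mul]
          exact mul_le_mul (e2 i j) (e1 k) (abs_nonneg _) hso
        intro i j k i' j' k'
        have h2 := abs_sub (om v i j z * pd k φ z) (om v i' j' z * pd k' φ z)
        linarith [h1 i j k, h1 i' j' k']
      have hYC : ∀ y C : ℝ, |y| ≤ a' z * √(osq v z) →
          |C| ≤ 4 * M * (κ z * √(osq v z)) → y * C ≤ 4 * M * (a' z * (κ z * osq v z)) := by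
        intro y C hy hC
        calc y * C ≤ |y| * |C| := by
              rw [← abs_mul]
              exact le_abs_self _
          _ ≤ (a' z * √(osq v z)) * (4 * M * (κ z * √(osq v z))) :=
              mul_le_mul hy hC (abs_nonneg _) (mul_nonneg (ha0' z) hso)
          _ = 4 * M * (a' z * (κ z * (√(osq v z) * √(osq v z)))) := by ring
          _ = _ := by rw [hoo]
      have t0 : lam v (fun y => c + b y) q z 0
          = w z 1 * om v 0 1 z - w z 2 * om v 2 0 z - pd 0 q z := by
        simp only [lam, Matrix.cons_val_zero, Pi.add_apply, hwdef]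
        unfold vort om
        simp only [Matrix.cons_val_one, Matrix.cons_val]
        ring
      have t1 : lam v (fun y => c + b y) q z 1
          = w z 2 * om v 1 2 z - w z 0 * om v 0 1 z - pd 1 q z := by
        simp only [lam, Matrix.cons_val_one, Matrix.cons_val_zero, Pi.add_apply, hwdef]
        unfold vort om
        simp only [Matrix.cons_val_zero, Matrix.cons_val]
        ring
      have t2 : lam v (fun y => c + b y) q z 2
          = w z 0 * om v 2 0 z - w z 1 * om v 1 2 z - pd 2 q z := by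
        simp only [lam, Matrix.cons_val, Pi.add_apply, hwdef]
        unfold vort om
        simp only [Matrix.cons_val_zero, Matrix.cons_val_one]
        ring
      have u0 := hYC _ _ (hY 0) (hC 0 1 1 2 0 2)
      have u1 := hYC _ _ (hY 1) (hC 1 2 2 0 1 0)
      have u2 := hYC _ _ (hY 2) (hC 2 0 0 1 2 1)
      have hon := hone z hz
      rw [Fin.sum_univ_three, w0, w1, w2] at hon
      have hsq : √(vsq v z * gsq (vort v) z) = 1 / 2 * (√(osq v z) * √(dsq v z)) := by
        have h1 := osq_vsq v z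
        have h2 := dsq_gsq hv z
        have h3 : vsq v z * gsq (vort v) z = (1 / 2) ^ 2 * (osq v z * dsq v z) := by
          rw [h1, h2]
          ring
        rw [h3, Real.sqrt_mul (by norm_num), Real.sqrt_sq (by norm_num), Real.sqrt_mul ho]
      rw [hsq, ← hfh z hz] at hon
      have hφe : φ z = κ z ^ 2 := by
        rw [hφ]
        ring
      have hon2 := mul_le_mul_of_nonneg_left hon hφ0
      have hcr : cr z = φ z * (lam v (fun y => c + b y) q z 0 * (pd 1 (om v 0 1) z
            - pd 2 (om v 2 0) z) + lam v (fun y => c + b y) q z 1 * (pd 2 (om v 1 2) z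
            - pd 0 (om v 0 1) z) + lam v (fun y => c + b y) q z 2 * (pd 0 (om v 2 0) z
            - pd 1 (om v 1 2) z))
          + (lam v (fun y => c + b y) q z 0 * (om v 0 1 z * pd 1 φ z - om v 2 0 z * pd 2 φ z)
            + lam v (fun y => c + b y) q z 1 * (om v 1 2 z * pd 2 φ z - om v 0 1 z * pd 0 φ z)
            + lam v (fun y => c + b y) q z 2 * (om v 2 0 z * pd 0 φ z - om v 1 2 z * pd 1 φ z)) := by
        rw [t0, t1, t2]
        simp only [cr, hpG]
        ring
      have e9 : φ z * ((l + f z) * (1 / 2 * (√(osq v z) * √(dsq v z))))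
          = 1 / 2 * ((l + f z) * ((κ z * √(dsq v z)) * (κ z * √(osq v z)))) := by
        rw [hφe]
        ring
      rw [e9] at hon2
      rw [hcr]
      linarith
    have hnum := lamb_num (A := κ z * √(dsq v z)) (O := κ z * √(osq v z)) (W := l + f z)
      (o := osq v z) (k := κ z) (m := m) (M := M) (f := a' z) ho hη0
      (by rw [mul_pow, Real.sq_sqrt ho])
    have hA2 : (κ z * √(dsq v z)) ^ 2 = κ z ^ 2 * dsq v z := by
      rw [mul_pow, Real.sq_sqrt (dsq_nonneg v z)]
    rw [hA2] at hnum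
    have hI : I z = -2 * (κ z ^ 2 * dsq v z) + osq v z * (∑ k, b z k * pd k φ z)
        - (∑ i, ∑ j, ∑ k, P i j k z * pd k (fun y => b y j) z)
        + osq v z * φ z * (∑ k, pd k (fun y => b y k) z) + 4 * cr z := by
      simp only [I, hφ]
      ring
    rw [hI]
    linarith
  -- integration
  have c1 : Continuous fun z : V => κ z ^ 2 * dsq v z := (hkc.pow 2).mul (dsq_cont hv)
  have c2 : Continuous fun z : V => κ z ^ 2 * osq v z := (hkc.pow 2).mul hoc
  have c3 : Continuous fun z : V => (l + f z) ^ 2 * (κ z ^ 2 * osq v z) :=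
    ((continuous_const.add hfc).pow 2).mul c2
  have c4 : Continuous fun z : V => a' z ^ 2 * (κ z ^ 2 * osq v z) := (hac'.pow 2).mul c2
  have hint : ∫ z in ball (0 : V) 1, I z ≤ -(3 / 2) * D
      + 2 * (∫ z in ball (0 : V) 1, (l + f z) ^ 2 * (κ z ^ 2 * osq v z))
      + η * (∫ z in ball (0 : V) 1, a' z ^ 2 * (κ z ^ 2 * osq v z))
      + (576 * M ^ 2 / η + (18 * M + 111) * m) * N := by
    have j1 : IntegrableOn (fun z : V => -(3 / 2) * (κ z ^ 2 * dsq v z)) (ball 0 1) :=
      int_ball (continuous_const.mul c1) 0 1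
    have j2 : IntegrableOn (fun z : V => 2 * ((l + f z) ^ 2 * (κ z ^ 2 * osq v z)))
        (ball 0 1) := int_ball (continuous_const.mul c3) 0 1
    have j4 : IntegrableOn (fun z : V => η * (a' z ^ 2 * (κ z ^ 2 * osq v z)))
        (ball 0 1) := int_ball (continuous_const.mul c4) 0 1
    have j3 : IntegrableOn (fun z : V => (576 * M ^ 2 / η + (18 * M + 111) * m) * osq v z)
        (ball 0 1) := int_ball (continuous_const.mul hoc) 0 1
    have j12 : IntegrableOn (fun z : V => -(3 / 2) * (κ z ^ 2 * dsq v z)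
      + 2 * ((l + f z) ^ 2 * (κ z ^ 2 * osq v z))) (ball 0 1) := j1.add j2
    have j124 : IntegrableOn (fun z : V => (-(3 / 2) * (κ z ^ 2 * dsq v z)
      + 2 * ((l + f z) ^ 2 * (κ z ^ 2 * osq v z))) + η * (a' z ^ 2 * (κ z ^ 2 * osq v z)))
      (ball 0 1) := j12.add j4
    refine (setIntegral_mono_on (int_ball hIc 0 1) (j124.add j3) measurableSet_ball key).trans ?_
    change ∫ z in ball (0 : V) 1, (((-(3 / 2) * (κ z ^ 2 * dsq v z)
      + 2 * ((l + f z) ^ 2 * (κ z ^ 2 * osq v z))) + η * (a' z ^ 2 * (κ z ^ 2 * osq v z)))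
      + (576 * M ^ 2 / η + (18 * M + 111) * m) * osq v z) ≤ _
    rw [integral_add j124 j3, integral_add j12 j4, integral_add j1 j2, integral_const_mul,
      integral_const_mul, integral_const_mul, integral_const_mul]
    have h1 : (576 * M ^ 2 / η + (18 * M + 111) * m) * (∫ z in ball (0 : V) 1, osq v z)
        ≤ (576 * M ^ 2 / η + (18 * M + 111) * m) * N :=
      mul_le_mul_of_nonneg_left hN (by positivity)
    linarith
  set ε : ℝ := 1 / (16 * C6) with hε
  have hε0 : 0 < ε := by positivity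
  have hg0 : ∀ z, 0 ≤ κ z ^ 2 * osq v z := fun z => mul_nonneg (sq_nonneg _) (osq_nonneg v z)
  have hw' : ∫ z in ball (0 : V) 1, f z ^ 3 ≤ ε ^ 3 := by
    have e : ∫ z in ball (0 : V) 1, f z ^ 3 = ∫ z in ball (0 : V) 1, h z ^ 3 :=
      setIntegral_congr_fun measurableSet_ball fun z hz => by simp only [hfh z hz]
    rw [e]
    exact hw
  have hXg : ∀ (f : V → ℝ) (ε : ℝ), Continuous f → (∀ z, 0 ≤ f z) → 0 < ε →
      ∫ z in ball (0 : V) 1, f z ^ 3 ≤ ε ^ 3 →
      ∫ z in ball (0 : V) 1, f z ^ 2 * (κ z ^ 2 * osq v z) ≤ ε ^ 2 * (C6 * (D + N)) := by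
    intro f ε hfc hf0 hε0 hw'
    refine young_opt (F3 := ∫ z in ball (0 : V) 1, f z ^ 3)
      (G3 := ∫ z in ball (0 : V) 1, (κ z ^ 2 * osq v z) ^ 3) hε0 (by positivity) hw'
      (h6 v hv N hN) ?_
    intro q hq
    have i1 : IntegrableOn (fun z : V => f z ^ 2 * (κ z ^ 2 * osq v z)) (ball 0 1) :=
      int_ball ((hfc.pow 2).mul c2) 0 1
    have i2 : IntegrableOn (fun z : V => f z ^ 3) (ball 0 1) := int_ball (hfc.pow 3) 0 1
    have i3 : IntegrableOn (fun z : V => (κ z ^ 2 * osq v z) ^ 3) (ball 0 1) :=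
      int_ball (c2.pow 3) 0 1
    have h1 : ∫ z in ball (0 : V) 1, f z ^ 2 * (κ z ^ 2 * osq v z)
        ≤ ∫ z in ball (0 : V) 1, ((2 * q / 3) * f z ^ 3 + (1 / (3 * q ^ 2))
          * (κ z ^ 2 * osq v z) ^ 3) := by
      refine setIntegral_mono i1 ((i2.const_mul _).add (i3.const_mul _)) fun z => ?_
      refine (young_pt (hf0 z) (hg0 z) hq).trans (le_of_eq ?_)
      field_simp
    refine h1.trans (le_of_eq ?_)
    rw [integral_add (i2.const_mul _) (i3.const_mul _), integral_const_mul, integral_const_mul]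
    field_simp
  have hX := hXg f ε hfc hf0 hε0 hw'
  have hwa : ∫ z in ball (0 : V) 1, a' z ^ 3 ≤ (K + 1) ^ 3 := by
    have e : ∫ z in ball (0 : V) 1, a' z ^ 3 = ∫ z in ball (0 : V) 1, a z ^ 3 :=
      setIntegral_congr_fun measurableSet_ball fun z hz => by simp only [haa z hz]
    rw [e]
    exact ha3.trans (pow_le_pow_left₀ hK (by linarith) 3)
  have hXa := hXg a' (K + 1) hac' ha0' (by linarith) hwa
  have hY : ∫ z in ball (0 : V) 1, (l + f z) ^ 2 * (κ z ^ 2 * osq v z)
      ≤ 2 * l ^ 2 * N + 2 * (ε ^ 2 * (C6 * (D + N))) := by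
    have i1 : IntegrableOn (fun z : V => f z ^ 2 * (κ z ^ 2 * osq v z)) (ball 0 1) :=
      int_ball ((hfc.pow 2).mul c2) 0 1
    have i2 : IntegrableOn (fun z : V => osq v z) (ball 0 1) := int_ball hoc 0 1
    have h1 : ∫ z in ball (0 : V) 1, (l + f z) ^ 2 * (κ z ^ 2 * osq v z)
        ≤ ∫ z in ball (0 : V) 1, ((2 * l ^ 2) * osq v z
          + 2 * (f z ^ 2 * (κ z ^ 2 * osq v z))) := by
      refine setIntegral_mono (int_ball c3 0 1) ((i2.const_mul _).add (i1.const_mul _)) fun z => ?_
      change (l + f z) ^ 2 * (κ z ^ 2 * osq v z) ≤ (2 * l ^ 2) * osq v z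
          + 2 * (f z ^ 2 * (κ z ^ 2 * osq v z))
      have h3 : (l + f z) ^ 2 ≤ 2 * l ^ 2 + 2 * f z ^ 2 := by
        nlinarith [sq_nonneg (l - f z)]
      have h5 : κ z ^ 2 * osq v z ≤ 1 * osq v z :=
        mul_le_mul_of_nonneg_right (pow_le_one₀ (hκ.nonneg z) (hκ.le_one z)) (osq_nonneg v z)
      calc (l + f z) ^ 2 * (κ z ^ 2 * osq v z) ≤ (2 * l ^ 2 + 2 * f z ^ 2) * (κ z ^ 2 * osq v z) :=
            mul_le_mul_of_nonneg_right h3 (hg0 z)
        _ = 2 * l ^ 2 * (κ z ^ 2 * osq v z) + 2 * (f z ^ 2 * (κ z ^ 2 * osq v z)) := by ring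
        _ ≤ 2 * l ^ 2 * (1 * osq v z) + 2 * (f z ^ 2 * (κ z ^ 2 * osq v z)) := by
            have := mul_le_mul_of_nonneg_left h5 (show (0 : ℝ) ≤ 2 * l ^ 2 by positivity)
            linarith
        _ = _ := by ring
    refine h1.trans ?_
    rw [integral_add (i2.const_mul _) (i1.const_mul _), integral_const_mul, integral_const_mul]
    have h2 : 2 * l ^ 2 * (∫ z in ball (0 : V) 1, osq v z) ≤ 2 * l ^ 2 * N :=
      mul_le_mul_of_nonneg_left hN (by positivity)
    linarith
  rw [hsplit]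
  have hεC : 16 * (ε ^ 2 * C6) ≤ 1 := by
    have h1 : ε ^ 2 * C6 = 1 / (16 ^ 2 * C6) := by
      rw [hε]
      field_simp
    rw [h1, mul_one_div, div_le_one (by positivity)]
    linarith
  have hfin : ∫ z in ball (0 : V) 1, I z
      ≤ (5 + 18 * M + 111 + 4608 * M ^ 2 * C6) * ((1 + l ^ 2 + m + K ^ 2) * N) := by
    have h1 : 2 * (2 * (ε ^ 2 * (C6 * (D + N)))) ≤ (D + N) / 4 := by
      have h2 : 2 * (2 * (ε ^ 2 * (C6 * (D + N)))) = 4 * (ε ^ 2 * C6) * (D + N) := by ring
      rw [h2]
      have h3 : 4 * (ε ^ 2 * C6) ≤ 1 / 4 := by linarith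
      have h4 := mul_le_mul_of_nonneg_right h3 (show 0 ≤ D + N by positivity)
      linarith
    have h1' : η * (∫ z in ball (0 : V) 1, a' z ^ 2 * (κ z ^ 2 * osq v z)) ≤ (D + N) / 4 := by
      calc η * (∫ z in ball (0 : V) 1, a' z ^ 2 * (κ z ^ 2 * osq v z))
          ≤ η * ((K + 1) ^ 2 * (C6 * (D + N))) := mul_le_mul_of_nonneg_left hXa hη0.le
        _ = _ := by
          rw [hη]
          field_simp
    have h1'' : 576 * M ^ 2 / η ≤ 4608 * M ^ 2 * C6 * (1 + K ^ 2) := by
      have h2 : 576 * M ^ 2 / η = 2304 * M ^ 2 * C6 * (K + 1) ^ 2 := by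
        rw [hη]
        field_simp
        ring
      rw [h2]
      have h3 : (K + 1) ^ 2 ≤ 2 * (1 + K ^ 2) := by nlinarith [sq_nonneg (K - 1)]
      calc 2304 * M ^ 2 * C6 * (K + 1) ^ 2 ≤ 2304 * M ^ 2 * C6 * (2 * (1 + K ^ 2)) :=
            mul_le_mul_of_nonneg_left h3 (by positivity)
        _ = _ := by ring
    have h2' := mul_le_mul_of_nonneg_right h1'' hN0
    have h3 : 0 ≤ l ^ 2 * N := by positivity
    have h4 : 0 ≤ m * N := by positivity
    have h5 : 0 ≤ M ^ 2 * C6 * (l ^ 2 * N) := by positivity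
    have h6 : 0 ≤ M ^ 2 * C6 * (m * N) := by positivity
    have h7 : 0 ≤ M * (l ^ 2 * N) := by positivity
    have h8 : 0 ≤ M * N := by positivity
    have h9 : 0 ≤ K ^ 2 * N := by positivity
    have h10 : 0 ≤ M * (K ^ 2 * N) := by positivity
    have e : (5 + 18 * M + 111 + 4608 * M ^ 2 * C6) * ((1 + l ^ 2 + m + K ^ 2) * N)
        = 4608 * M ^ 2 * C6 * (1 + K ^ 2) * N + 116 * N + 116 * (l ^ 2 * N) + 116 * (m * N)
          + 116 * (K ^ 2 * N) + 4608 * (M ^ 2 * C6 * (l ^ 2 * N))
          + 4608 * (M ^ 2 * C6 * (m * N)) + 18 * (M * N) + 18 * (M * (l ^ 2 * N))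
          + 18 * M * m * N + 18 * (M * (K ^ 2 * N)) := by ring
    rw [e]
    have e2 : (576 * M ^ 2 / η + (18 * M + 111) * m) * N
        = 576 * M ^ 2 / η * N + 18 * M * m * N + 111 * (m * N) := by ring
    rw [e2] at hint
    linarith
  linarith

end Pool.Agent.H946.NS
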