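import Pool.Agent.H946_NS.H4
import Pool.Agent.H946_NS.H5

/-!
The growth of the localised enstrophy at a maximum in terms of the Lamb vector.
-/

set_option autoImplicit false

open MeasureTheory Set Metric Filter Topology
open scoped ContDiff ENNReal

namespace Pool.Agent.H946.NS

open H459R3.NS W221.NS Pool.Agent.W583.MD

variable {κ : V → ℝ}

theorem Lmb.mono {δ δ' l m K s : ℝ} {x : V} {v : V → V} (h : Lmb δ l m K s x v) (h0 : 0 ≤ δ)
    (hle : δ ≤ δ') : Lmb δ' l m K s x v := by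
  obtain ⟨b, q, h, a, hb, hq, hh, ha, h1, h2, h3, h4, h5⟩ := h
  exact ⟨b, q, h, a, hb, hq, hh, ha, h1, h2, h3.trans (pow_le_pow_left₀ h0 hle 3), h4, h5⟩

theorem h_nu2 {s δ ν : ℝ} {x : V} (hν : 0 < ν) {h : V → ℝ} (hh : Continuous h)
    (h1 : ∀ y ∈ ball x s, 0 ≤ h y) (h2 : ∫ y in ball x s, h y ^ 3 ≤ (δ * ν) ^ 3) :
    Continuous (fun z : V => h z / ν) ∧ (∀ y ∈ ball x s, 0 ≤ h y / ν) ∧
      ∫ z in ball x s, (h z / ν) ^ 3 ≤ δ ^ 3 := by
  refine ⟨hh.div_const _, fun y hy => div_nonneg (h1 y hy) hν.le, ?_⟩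
  have e1 : ∀ z : V, (h z / ν) ^ 3 = (ν ^ 3)⁻¹ * h z ^ 3 := fun z => by
    rw [div_pow, div_eq_inv_mul]
  simp_rw [e1]
  rw [integral_const_mul]
  calc (ν ^ 3)⁻¹ * ∫ y in ball x s, h y ^ 3 ≤ (ν ^ 3)⁻¹ * (δ * ν) ^ 3 :=
        mul_le_mul_of_nonneg_left h2 (by positivity)
    _ = _ := by
      field_simp

theorem lam_of {v b v' b' : V → V} {q q' : V → ℝ} {y z : V} {a c : ℝ}
    (hv : ∀ k, v' z k = a * v y k) (hb : ∀ k, b' z k = a * b y k)
    (ho : vort v' z = c • vort v y) (hq : ∀ k, pd k q' z = a * c * pd k q y) (i : Fin 3) :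
    lam v' b' q' z i = a * c * lam v b q y i := by
  unfold lam
  simp only [hv, hb, ho, hq, Pi.smul_apply, smul_eq_mul]
  fin_cases i
  all_goals
    simp only [Fin.zero_eta, Fin.mk_one, Fin.reduceFinMk, Matrix.cons_val_zero,
      Matrix.cons_val_one, Matrix.cons_val]
    ring

/-- The second derivatives of a multiple. -/
theorem sec_of {v w : V → V} {z y : V} {c : ℝ} (h : ∀ k i j, pd k (pd i fun x => w x j) z
      = c * pd k (pd i fun x => v x j) y) (hv : ContDiff ℝ ∞ v) (hw : ContDiff ℝ ∞ w) :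
    (∀ i, vort (vort w) z i = c * vort (vort v) y i) ∧
      gsq (vort w) z = c ^ 2 * gsq (vort v) y := by
  have hpom : ∀ {v : V → V}, ContDiff ℝ ∞ v → ∀ k i j z, pd k (om v i j) z
      = pd k (pd i fun y => v y j) z - pd k (pd j fun y => v y i) z := fun hv k i j z =>
    Pool.Agent.W135.MD.pd_sub' (Pool.Agent.W135.MD.sm_diff (sm_pd (sm_comp hv j) i))
      (Pool.Agent.W135.MD.sm_diff (sm_pd (sm_comp hv i) j)) k z
  have e : ∀ k i j, pd k (om w i j) z = c * pd k (om v i j) y := fun k i j => by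
    rw [hpom hw, hpom hv, h, h]
    ring
  constructor
  · obtain ⟨a0, a1, a2⟩ := vort_vort v y
    obtain ⟨b0, b1, b2⟩ := vort_vort w z
    intro i
    fin_cases i
    · change vort (vort w) z 0 = c * vort (vort v) y 0
      rw [a0, b0, e, e]
      ring
    · change vort (vort w) z 1 = c * vort (vort v) y 1
      rw [a1, b1, e, e]
      ring
    · change vort (vort w) z 2 = c * vort (vort v) y 2
      rw [a2, b2, e, e]
      ring
  · obtain ⟨a0, a1, a2⟩ := vort_om v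
    obtain ⟨b0, b1, b2⟩ := vort_om w
    rw [gsq_sum, gsq_sum]
    simp only [Fin.sum_univ_three, a0, a1, a2, b0, b1, b2, e]
    ring

theorem Lmb.nu {δ l m K s ν : ℝ} {x : V} {v : V → V} (hv : ContDiff ℝ ∞ v) (hν : 0 < ν)
    (h : Lmb (δ * ν) l m K s x v) :
    Lmb δ (l / ν) (m / ν) (K / ν) s x (fun y => ν⁻¹ • v y) := by
  obtain ⟨b, q, h, a, hb, hq, hh, ha, h1, h2, h3, h5, h4⟩ := h
  obtain ⟨i1, i3, i4⟩ := h_nu2 hν hh (fun y hy => (h2 y hy).1) h3
  have h5' : ∫ y in ball x s, a y ^ 3 ≤ (K / ν * ν) ^ 3 := by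
    rw [div_mul_cancel₀ _ hν.ne']
    exact h5
  obtain ⟨j1, j3, j4⟩ := h_nu2 hν ha (fun y hy => (h2 y hy).2) h5'
  set w : V → V := fun y => ν⁻¹ • v y with hw
  have hws : ContDiff ℝ ∞ w := hv.const_smul ν⁻¹
  have hvw : ∀ y ∈ ball x s, w y = ν⁻¹ • v y := fun y _ => rfl
  have hpd := pd_nu hvw
  have hb' : ∀ j, ContDiff ℝ ∞ fun y => ν⁻¹ * b y j := fun j =>
    contDiff_const.mul (sm_comp hb j)
  refine ⟨fun y j => ν⁻¹ * b y j, fun y => ν⁻¹ ^ 2 * q y, _, _, contDiff_pi.2 hb',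
    contDiff_const.mul hq, i1, j1, ?_, fun y hy => ⟨i3 y hy, j3 y hy⟩, i4, j4, ?_⟩
  · intro y hy i j
    rw [Pool.Agent.W135.MD.pd_cmul (Pool.Agent.W135.MD.sm_diff (sm_comp hb j)), abs_mul,
      abs_of_nonneg (by positivity), inv_mul_eq_div]
    exact div_le_div_of_nonneg_right (h1 y hy i j) hν.le
  · intro y hy
    obtain ⟨-, -, -, s4⟩ := stre_of_pd (hpd y hy)
    have hvs : vsq w y = ν⁻¹ ^ 2 * vsq v y := by
      unfold vsq
      rw [s4, Finset.mul_sum]
      refine Finset.sum_congr rfl fun i _ => ?_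
      rw [Pi.smul_apply, smul_eq_mul, mul_pow]
    have e : ∀ i, lam w (fun y j => ν⁻¹ * b y j) (fun y => ν⁻¹ ^ 2 * q y) y i
        = ν⁻¹ * ν⁻¹ * lam v b q y i := lam_of (a := ν⁻¹) (c := ν⁻¹)
      (fun k => by rw [hvw y hy]; rfl) (fun k => rfl) s4 (fun k => by
        rw [Pool.Agent.W135.MD.pd_cmul (Pool.Agent.W135.MD.sm_diff hq)]
        ring)
    have hsec := sec_of (v := v) (w := w) (z := y) (y := y) (c := ν⁻¹) (fun k i j => by
      have e1 : pd i (fun x => w x j) = fun x => ν⁻¹ * pd i (fun x => v x j) x := funext fun x =>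
        Pool.Agent.W135.MD.pd_cmul (Pool.Agent.W135.MD.sm_diff (sm_comp hv j)) _ i x
      rw [e1]
      exact Pool.Agent.W135.MD.pd_cmul (Pool.Agent.W135.MD.sm_diff (sm_pd (sm_comp hv j) i)) _ k y)
      hv hws
    obtain ⟨g1, g2⟩ := hsec
    obtain ⟨h41, h42⟩ := h4 y hy
    constructor
    · simp_rw [e, g1]
      rw [g2, hvs]
      have e5 : ν⁻¹ ^ 2 * vsq v y * (ν⁻¹ ^ 2 * gsq (vort v) y)
          = (ν⁻¹ ^ 2) ^ 2 * (vsq v y * gsq (vort v) y) := by ring
      rw [e5, Real.sqrt_mul (by positivity), Real.sqrt_sq (by positivity)]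
      have e6 : ∑ i, ν⁻¹ * ν⁻¹ * lam v b q y i * (ν⁻¹ * vort (vort v) y i)
          = ν⁻¹ ^ 3 * ∑ i, lam v b q y i * vort (vort v) y i := by
        rw [Finset.mul_sum]
        exact Finset.sum_congr rfl fun i _ => by ring
      rw [e6]
      calc ν⁻¹ ^ 3 * ∑ i, lam v b q y i * vort (vort v) y i
          ≤ ν⁻¹ ^ 3 * ((l + h y) * √(vsq v y * gsq (vort v) y)) :=
            mul_le_mul_of_nonneg_left h41 (by positivity)
        _ = _ := by
          field_simp
    · simp_rw [e, mul_pow]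
      rw [← Finset.mul_sum, hvs]
      calc ν⁻¹ ^ 2 * ν⁻¹ ^ 2 * ∑ i, lam v b q y i ^ 2
          ≤ ν⁻¹ ^ 2 * ν⁻¹ ^ 2 * (a y ^ 2 * vsq v y) :=
            mul_le_mul_of_nonneg_left h42 (by positivity)
        _ = _ := by
          field_simp

/-- The growth at a maximum, estimated by the Lamb vector. -/
theorem lamb_loc (hκ : Cut κ) : ∃ C ε : ℝ, 1 ≤ C ∧ 0 < ε ∧ ∀ v : V → V, ContDiff ℝ ∞ v →
    ∀ (r : ℝ) (x : V), 0 < r → (∀ y ∈ ball x r, dv v y = 0) →
      (∀ w ∈ ball x (2 * r), enk κ r v w ≤ enk κ r v x) → ∀ l m K : ℝ, 0 ≤ l → 0 ≤ m → 0 ≤ K →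
        Lmb ε l m K r x v →
          Dk κ r x v ≤ C * ((1 / r ^ 2 + l ^ 2 + m + K ^ 2 / r ^ 2) * enk κ r v x) := by
  obtain ⟨C, ε, hC, hε, hU⟩ := unit_lamb hκ
  obtain ⟨C₀, hC₀, hcov⟩ := enk_cover_loc hκ 1
  refine ⟨C * C₀, ε, by nlinarith, hε, ?_⟩
  intro u hv r x hr hd hmax l m K hl hm hK
    ⟨b, q, h, a, hb, hq, hh, ha, hbd, hh0, hh3, ha3, hlam⟩
  have hM0 : 0 ≤ enk κ r u x := enk_nonneg hκ hr u x
  set M := enk κ r u x with hMdef
  unfold Dk
  set v := scv r x u with hvdef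
  set b' : V → V := fun z k => r * (b (x + r • z) k - b x k) with hb'
  set c' : V := fun k => r * b x k with hc'
  obtain ⟨i1, hmem, i3, i4⟩ := h_scale hr hh (fun y hy => (hh0 y hy).1) hh3
  obtain ⟨j1, -, j3, j4⟩ := h_scale hr ha (fun y hy => (hh0 y hy).2) ha3
  have hb's : ContDiff ℝ ∞ b' := contDiff_pi.2 fun k =>
    contDiff_const.mul ((sm_scal (sm_comp hb k) x r).sub contDiff_const)
  have hpb : ∀ i k z, pd i (fun y => b' y k) z = r ^ 2 * pd i (fun y => b y k) (x + r • z) := by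
    intro i k z
    have h1 : pd i (fun y => b' y k) z = r * pd i (fun y => b (x + r • y) k - b x k) z :=
      Pool.Agent.W135.MD.pd_cmul (Pool.Agent.W135.MD.sm_diff
        ((sm_scal (sm_comp hb k) x r).sub contDiff_const)) r i z
    have h2 : pd i (fun y => b (x + r • y) k - b x k) z = pd i (fun y => b (x + r • y) k) z := by
      rw [Pool.Agent.W135.MD.pd_sub' (Pool.Agent.W135.MD.sm_diff (sm_scal (sm_comp hb k) x r))
          (differentiable_const _), Pool.Agent.W135.MD.pd_const', sub_zero]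
    rw [h1, h2, pd_scal (sm_comp hb k) x r i z]
    ring
  have hdiv : ∀ y ∈ ball (0 : V) 1, dv v y = 0 := by
    intro y hy
    rw [hvdef, dv_scv hv, hd (x + r • y) (hmem y hy), mul_zero]
  have hN : ∫ z in ball (0 : V) 1, osq v z ≤ r * (C₀ * M) := by
    have h1 : ∀ z, osq v z = r ^ 4 * osq u (x + r • z) := fun z => osq_scv hv z
    simp_rw [h1]
    rw [integral_const_mul, cov' (osq u) x hr, mul_one]
    have h2 := hcov u hv r M x hr (fun w hw => hmax w (by
      have e : ((1 : ℕ) + 1 : ℝ) * r = 2 * r := by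
        push_cast
        ring
      rwa [e] at hw))
    rw [Nat.cast_one, one_mul] at h2
    calc r ^ 4 * ((r ^ 3)⁻¹ * ∫ y in ball x r, osq u y)
        = r * ∫ y in ball x r, osq u y := by field_simp
      _ ≤ _ := mul_le_mul_of_nonneg_left h2 hr.le
  have hbd' : ∀ y ∈ ball (0 : V) 1, ∀ i j, |pd i (fun y => b' y j) y| ≤ r ^ 2 * m := by
    intro y hy i j
    rw [hpb, abs_mul, abs_of_nonneg (by positivity)]
    exact mul_le_mul_of_nonneg_left (hbd _ (hmem y hy) i j) (by positivity)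
  have hbs : ∀ y ∈ ball (0 : V) 1, ∀ k, |b' y k| ≤ 3 * (r ^ 2 * m) := by
    intro y hy k
    have h1 : ∀ z ∈ ball (0 : V) 1, ‖fderiv ℝ (fun y => b' y k) z‖ ≤ 3 * (r ^ 2 * m) := by
      intro z hz
      refine (Pool.Agent.W440.MD.fderiv_norm_le z).trans ?_
      calc ∑ j, |pd j (fun y => b' y k) z| ≤ ∑ _j : Fin 3, r ^ 2 * m :=
            Finset.sum_le_sum fun j _ => hbd' z hz j k
        _ = 3 * (r ^ 2 * m) := by simp
    have h2 := (convex_ball (0 : V) 1).norm_image_sub_le_of_norm_fderiv_le (𝕜 := ℝ)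
      (f := fun y => b' y k) (x := 0) (y := y)
      (fun x _ => ((sm_comp hb's k).differentiable (by simp)) x) h1
      (mem_ball_self one_pos) hy
    have h3 : b' 0 k = 0 := by simp [hb']
    rw [h3, sub_zero, sub_zero, Real.norm_eq_abs] at h2
    have h4 : ‖y‖ ≤ 1 := by
      rw [mem_ball_zero_iff] at hy
      exact hy.le
    have h5 : 0 ≤ 3 * (r ^ 2 * m) := by positivity
    calc |b' y k| ≤ 3 * (r ^ 2 * m) * ‖y‖ := h2
      _ ≤ 3 * (r ^ 2 * m) * 1 := mul_le_mul_of_nonneg_left h4 h5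
      _ = _ := mul_one _
  set q' : V → ℝ := fun z => r ^ 2 * q (x + r • z) with hq'
  have hq's : ContDiff ℝ ∞ q' := contDiff_const.mul (sm_scal hq x r)
  have hpq : ∀ k z, pd k q' z = r * r ^ 2 * pd k q (x + r • z) := by
    intro k z
    have h1 : pd k q' z = r ^ 2 * pd k (fun y => q (x + r • y)) z :=
      Pool.Agent.W135.MD.pd_cmul (Pool.Agent.W135.MD.sm_diff (sm_scal hq x r)) _ k z
    rw [h1, pd_scal hq x r k z]
    ring
  have hlam' : ∀ y ∈ ball (0 : V) 1, ∑ i, lam v (fun y => c' + b' y) q' y i * vort (vort v) y i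
        ≤ (r * l + r * h (x + r • y)) * √(vsq v y * gsq (vort v) y) ∧
      ∑ i, lam v (fun y => c' + b' y) q' y i ^ 2 ≤ (r * a (x + r • y)) ^ 2 * vsq v y := by
    intro y hy
    obtain ⟨-, -, -, s4⟩ := stre_of_pd (v := u) (w := v) (y := x + r • y) (z := y)
      (c := r ^ 2) fun k j => pd_scv hv k j y
    have hvs : vsq v y = r ^ 4 * vsq u (x + r • y) := vsq_scv hv y
    have e : ∀ i, lam v (fun y => c' + b' y) q' y i = r * r ^ 2 * lam u b q (x + r • y) i :=
      lam_of (a := r) (c := r ^ 2) (fun k => rfl) (fun k => by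
        simp only [Pi.add_apply, hc', hb']
        ring) s4 (fun k => hpq k y)
    have hsec := sec_of (v := u) (w := v) (z := y) (y := x + r • y) (c := r ^ 3) (fun k i j => by
      have e1 : pd i (fun x => v x j) = fun z => r ^ 2 * pd i (fun y => u y j) (x + r • z) :=
        funext fun z => pd_scv hv i j z
      rw [e1]
      have e2 : pd k (fun z => r ^ 2 * pd i (fun y => u y j) (x + r • z)) y
          = r ^ 2 * pd k (fun z => pd i (fun y => u y j) (x + r • z)) y :=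
        Pool.Agent.W135.MD.pd_cmul (Pool.Agent.W135.MD.sm_diff
          (sm_scal (sm_pd (sm_comp hv j) i) x r)) _ k y
      rw [e2, pd_scal (sm_pd (sm_comp hv j) i) x r k y]
      ring) hv (scv_smooth hv)
    obtain ⟨g1, g2⟩ := hsec
    obtain ⟨h41, h42⟩ := hlam _ (hmem y hy)
    constructor
    · simp_rw [e, g1]
      rw [g2, hvs]
      have e5 : r ^ 4 * vsq u (x + r • y) * ((r ^ 3) ^ 2 * gsq (vort u) (x + r • y))
          = (r ^ 5) ^ 2 * (vsq u (x + r • y) * gsq (vort u) (x + r • y)) := by ring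
      rw [e5, Real.sqrt_mul (by positivity), Real.sqrt_sq (by positivity)]
      have e6 : ∑ i, r * r ^ 2 * lam u b q (x + r • y) i * (r ^ 3 * vort (vort u) (x + r • y) i)
          = r ^ 6 * ∑ i, lam u b q (x + r • y) i * vort (vort u) (x + r • y) i := by
        rw [Finset.mul_sum]
        exact Finset.sum_congr rfl fun i _ => by ring
      rw [e6]
      calc r ^ 6 * ∑ i, lam u b q (x + r • y) i * vort (vort u) (x + r • y) i
          ≤ r ^ 6 * ((l + h (x + r • y)) * √(vsq u (x + r • y) * gsq (vort u) (x + r • y))) :=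
            mul_le_mul_of_nonneg_left h41 (by positivity)
        _ = _ := by ring
    · simp_rw [e, mul_pow]
      rw [← Finset.mul_sum, hvs]
      calc r ^ 2 * (r ^ 2) ^ 2 * ∑ i, lam u b q (x + r • y) i ^ 2
          ≤ r ^ 2 * (r ^ 2) ^ 2 * (a (x + r • y) ^ 2 * vsq u (x + r • y)) :=
            mul_le_mul_of_nonneg_left h42 (by positivity)
        _ = _ := by ring
  have hlm : IsLocalMax (enk κ r u) x := by
    filter_upwards [ball_mem_nhds x (show 0 < 2 * r by positivity)] with y hy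
    exact hmax y hy
  obtain ⟨hc1, hc2⟩ := enk_max hκ hv hr hlm
  have h5 := hU v (scv_smooth hv) hdiv c' b' q' _ _ hb's hq's i1 j1 (r * (C₀ * M)) (r * l)
    (r ^ 2 * m) K hN (by positivity) (by positivity) hK hbd' hbs
    (fun y hy => ⟨i3 y hy, j3 y hy⟩) i4 j4 (fun y hy => (hlam' y hy).1)
    (fun y hy => (hlam' y hy).2)
  have h6 : ∑ k, c' k * ∫ z in ball (0 : V) 1, osq v z * pd k (fun z : V => κ z * κ z) z = 0 :=
    Finset.sum_eq_zero fun k _ => by rw [hc1 k, mul_zero]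
  rw [h6, add_zero] at h5
  have h7 : ∫ z, RR v 0 z * (κ z * κ z)
      ≤ C * ((1 + (r * l) ^ 2 + r ^ 2 * m + K ^ 2) * (r * (C₀ * M))) := by linarith
  calc r ^ 3 * ((r ^ 6)⁻¹ * ∫ z, RR v 0 z * (κ z * κ z))
      ≤ r ^ 3 * ((r ^ 6)⁻¹ * (C * ((1 + (r * l) ^ 2 + r ^ 2 * m + K ^ 2)
          * (r * (C₀ * M))))) := by
        gcongr
    _ = _ := by
        field_simp

end Pool.Agent.H946.NS
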