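import Pool.Agent.H946_NS.H7

/-!
The growth of the largest localised enstrophy, if its rate is known only for levels in a given set.
-/

set_option autoImplicit false

open MeasureTheory Set Metric Filter Topology
open scoped ContDiff ENNReal

namespace Pool.Agent.H946.NS

open H459R3.NS W221.NS Pool.Agent.W583.MD

variable {κ : V → ℝ}

/-- A bound of the rates on a compact time interval. -/
theorem rate_bd (hκ : Cut κ) {T t₀ t' : ℝ} {u : ℝ → V → V} {p : ℝ → V → ℝ} (hu : IsSol 1 T u p)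
    (ht₀ : 0 < t₀) (htt : t₀ < t') (ht' : t' < T) {r : ℝ → ℝ}
    (hr : AntitoneOn r (Icc t₀ t')) (hrp : ∀ t ∈ Icc t₀ t', 0 < r t) :
    ∃ Λ : ℝ, 0 ≤ Λ ∧ ∀ t ∈ Icc t₀ t', ∀ x, (∀ y, enk κ (r t) (u t) y ≤ enk κ (r t) (u t) x) →
      Dk κ (r t) x (u t) ≤ Λ * enk κ (r t) (u t) x := by
  have hL := LS.of_IsSol hu
  obtain ⟨C, ε, hC, hε, hvel⟩ := vel_loc hκ
  have hsub : Icc t₀ t' ⊆ Ioo 0 T := fun t ht => ⟨ht₀.trans_le ht.1, ht.2.trans_lt ht'⟩
  have hc : ContinuousOn (fun z : ℝ × V => gsq (u z.1) z.2) (Icc t₀ t' ×ˢ cube) :=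
    (gsq_joint (α := 0) (β := T) hL.smooth_u).continuousOn.mono
      (prod_mono hsub (subset_univ _))
  obtain ⟨B, hB⟩ := (isCompact_Icc.prod (isCompact_Icc (a := (0 : V)) (b := 1))).exists_bound_of_continuousOn hc
  have hB0 : 0 ≤ B := by
    have h1 := hB (t₀, 0) ⟨left_mem_Icc.2 htt.le, left_mem_Icc.2 zero_le_one⟩
    exact (norm_nonneg _).trans h1
  have ht'I : t' ∈ Icc t₀ t' := right_mem_Icc.2 htt.le
  have hr' := hrp t' ht'I
  refine ⟨C * (1 / r t' ^ 2 + 0 ^ 2 + √B), by positivity, ?_⟩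
  intro t ht x hmax
  have hper := hu.per_u t ⟨(hsub ht).1.le, (hsub ht).2⟩
  have hv : ContDiff ℝ ∞ (u t) := W382.ME.cd_slice hL.smooth_u (hsub ht)
  have hgb : ∀ y, gsq (u t) y ≤ B := by
    intro y
    obtain ⟨y', hy', e⟩ := W398.MD.FLOWX.per_cube (per_gsq hper) y
    rw [e]
    have h1 := hB (t, y') ⟨ht, hy'⟩
    exact (le_abs_self _).trans h1
  have hsp : Split ε 0 (√B) (r t) x (u t) := by
    refine ⟨0, u t, hv, fun y _ i j =>
      (pd_le_gsq (u t) i j y).trans (Real.sqrt_le_sqrt (hgb y)), ?_⟩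
    have e0 : ∀ y, ‖u t y - 0 - u t y‖ = 0 := fun y => by
      rw [sub_zero (u t y), sub_self, norm_zero]
    have e : ∀ y, (max (‖u t y - 0 - u t y‖ - 0) 0) ^ 3 = 0 := fun y => by
      rw [e0, sub_zero, max_self, zero_pow (by norm_num)]
    simp_rw [e]
    rw [integral_zero]
    positivity
  have h1 := hvel (u t) hv (r t) x (hrp t ht)
    (fun y _ => hL.divfree t (hsub ht) y (mem_univ _)) (fun w _ => hmax w) 0 (√B) le_rfl
    (Real.sqrt_nonneg _) hsp
  refine h1.trans ?_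
  have hE := enk_nonneg hκ (hrp t ht) (u t) x
  have h2 : r t' ≤ r t := hr ht ht'I ht.2
  have h3 : 1 / r t ^ 2 ≤ 1 / r t' ^ 2 := by
    apply one_div_le_one_div_of_le (by positivity)
    exact pow_le_pow_left₀ hr'.le h2 2
  rw [← mul_assoc]
  refine mul_le_mul_of_nonneg_right ?_ hE
  exact mul_le_mul_of_nonneg_left (by linarith) (by linarith)

/-- A lower bound of a derivative. -/
theorem deriv_ge {F : ℝ → ℝ} {F' c t : ℝ} (hd : HasDerivAt F F' t)
    (h : ∀ᶠ s in 𝓝[<] t, c * (t - s) ≤ F t - F s) : c ≤ F' := by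
  by_contra hcon
  rw [not_le] at hcon
  have h4 := (hasDerivAt_iff_tendsto_slope.1 hd).mono_left
    (nhdsWithin_mono t (show Iio t ⊆ {t}ᶜ from fun s hs => ne_of_lt hs))
  have h5 := h4.eventually_lt_const hcon
  obtain ⟨s, hs1, hs2, hs3⟩ := (h5.and (h.and self_mem_nhdsWithin)).exists
  have hst : s < t := hs3
  rw [slope_def_field, div_lt_iff_of_neg (by linarith)] at hs1
  linarith

/-- The change of the levels. -/
noncomputable def Ph (δ : ℝ) (K : Set ℝ) (s : ℝ) : ℝ :=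
  δ * s + (1 - δ) * (volume (K ∩ Iic s)).toReal

theorem Ph_sub {δ : ℝ} {K : Set ℝ} (hK : IsCompact K) {a b : ℝ} (hab : a ≤ b) :
    Ph δ K b - Ph δ K a = δ * (b - a) + (1 - δ) * (volume (K ∩ Ioc a b)).toReal := by
  have hKf : volume K < ⊤ := hK.measure_lt_top
  have hf : ∀ A : Set ℝ, volume (K ∩ A) ≠ ⊤ := fun A =>
    ((measure_mono inter_subset_left).trans_lt hKf).ne
  have e : K ∩ Iic b = (K ∩ Iic a) ∪ (K ∩ Ioc a b) := by
    rw [← inter_union_distrib_left, Iic_union_Ioc_eq_Iic hab]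
  have hd : Disjoint (K ∩ Iic a) (K ∩ Ioc a b) := by
    rw [Set.disjoint_left]
    intro x hx hx'
    exact absurd hx'.2.1 (not_lt.2 hx.2)
  have h1 : (volume (K ∩ Iic b)).toReal
      = (volume (K ∩ Iic a)).toReal + (volume (K ∩ Ioc a b)).toReal := by
    rw [e, measure_union hd (hK.measurableSet.inter measurableSet_Ioc),
      ENNReal.toReal_add (hf _) (hf _)]
  unfold Ph
  rw [h1]
  ring

theorem Ph_up {δ : ℝ} {K : Set ℝ} (hK : IsCompact K) (hδ : δ ≤ 1) {a b : ℝ}
    (hab : a ≤ b) : Ph δ K b - Ph δ K a ≤ b - a := by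
  rw [Ph_sub hK hab]
  have h1 : (volume (K ∩ Ioc a b)).toReal ≤ b - a := by
    have h2 : volume (K ∩ Ioc a b) ≤ ENNReal.ofReal (b - a) := by
      rw [← Real.volume_Ioc]
      exact measure_mono inter_subset_right
    have h3 := ENNReal.toReal_mono ENNReal.ofReal_ne_top h2
    rwa [ENNReal.toReal_ofReal (by linarith)] at h3
  nlinarith

theorem Ph_low {δ : ℝ} {K : Set ℝ} (hK : IsCompact K) (hδ : δ ≤ 1) {a b : ℝ} (hab : a ≤ b) :
    δ * (b - a) ≤ Ph δ K b - Ph δ K a := by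
  rw [Ph_sub hK hab]
  have h1 : 0 ≤ (volume (K ∩ Ioc a b)).toReal := ENNReal.toReal_nonneg
  nlinarith

theorem Ph_gap {δ : ℝ} {K : Set ℝ} (hK : IsCompact K) {a b : ℝ} (hab : a ≤ b)
    (h : K ∩ Ioc a b = ∅) : Ph δ K b - Ph δ K a = δ * (b - a) := by
  rw [Ph_sub hK hab, h]
  simp

theorem Ph_strict {δ : ℝ} {K : Set ℝ} (hK : IsCompact K) (hδ0 : 0 < δ) (hδ : δ ≤ 1) :
    StrictMono (Ph δ K) := by
  intro a b hab
  have h1 := Ph_low hK hδ hab.le
  have h2 : 0 < δ * (b - a) := mul_pos hδ0 (by linarith)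
  linarith

theorem Ph_cont {δ : ℝ} {K : Set ℝ} (hK : IsCompact K) (hδ0 : 0 < δ) (hδ : δ ≤ 1) :
    Continuous (Ph δ K) := by
  refine (LipschitzWith.of_le_add_mul 1 fun a b => ?_).continuous
  rw [NNReal.coe_one, one_mul, Real.dist_eq]
  rcases le_total a b with h | h
  · have h1 := (Ph_strict hK hδ0 hδ).monotone h
    have h2 := abs_nonneg (a - b)
    linarith
  · have h1 := Ph_up hK hδ h
    have h2 := le_abs_self (a - b)
    linarith

/-- The largest localised enstrophy at shrinking scales, for a rate at the levels in `S`. -/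
theorem grow_lev (hκ : Cut κ) {T : ℝ} {u : ℝ → V → V} {p : ℝ → V → ℝ} (hu : IsSol 1 T u p)
    {t₀ t' : ℝ} (ht₀ : 0 < t₀) (htt : t₀ < t') (ht' : t' < T) {r g : ℝ → ℝ} {S : Set ℝ}
    (hS : MeasurableSet S) (hr : AntitoneOn r (Icc t₀ t')) (hrp : ∀ t ∈ Icc t₀ t', 0 < r t)
    (hint : IntegrableOn g (Ioo t₀ t'))
    (hsplit : ∀ᵐ t ∂((volume : Measure ℝ).restrict (Ioo t₀ t')), 0 ≤ g t ∧
      ((∀ s ∈ Ioo t₀ t, ∀ y, ∃ x, enk κ (r s) (u s) y ≤ enk κ (r t) (u t) x) →
        (∀ x, (∀ y, enk κ (r t) (u t) y ≤ enk κ (r t) (u t) x) →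
          0 < enk κ (r t) (u t) x ∧ Real.log (enk κ (r t) (u t) x) ∈ S) →
        ∃ x, (∀ y, enk κ (r t) (u t) y ≤ enk κ (r t) (u t) x) ∧
          Dk κ (r t) x (u t) ≤ g t * enk κ (r t) (u t) x))
    {M₀ : ℝ} (hM₀ : 0 < M₀) (h0 : ∀ x, enk κ (r t₀) (u t₀) x < M₀) {x' : V}
    (hm : M₀ < enk κ (r t') (u t') x') :
    (volume (S ∩ Ioo (Real.log M₀) (Real.log (enk κ (r t') (u t') x')))).toReal
      ≤ 2 * (∫ t in Ioo t₀ t', g t) + 5 := by
  have hL := LS.of_IsSol hu
  have hsub : Icc t₀ t' ⊆ Ioo 0 T := fun t ht => ⟨ht₀.trans_le ht.1, ht.2.trans_lt ht'⟩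
  have hper : ∀ t ∈ Icc t₀ t', Per (u t) := fun t ht => hu.per_u t ⟨(hsub ht).1.le, (hsub ht).2⟩
  have hsm : ∀ t ∈ Icc t₀ t', ContDiff ℝ ∞ (u t) := fun t ht =>
    W382.ME.cd_slice hL.smooth_u (hsub ht)
  have ht'I : t' ∈ Icc t₀ t' := right_mem_Icc.2 htt.le
  obtain ⟨Λ, hΛ0, hΛ⟩ := rate_bd hκ hu ht₀ htt ht' hr hrp
  set a := Real.log M₀ with ha
  set m' := enk κ (r t') (u t') x' with hm'
  set b' := Real.log m' with hb'
  have hm0 : 0 < m' := hM₀.trans hm
  have hab : a < b' := Real.log_lt_log hM₀ hm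
  -- the compact set of levels
  have hAf : volume (S ∩ Ioo a b') ≠ ⊤ :=
    ((measure_mono inter_subset_right).trans_lt (by rw [Real.volume_Ioo]; exact ENNReal.ofReal_lt_top)).ne
  obtain ⟨K, hKA, hK, hKv⟩ := (hS.inter measurableSet_Ioo).exists_isCompact_lt_add hAf
    (ε := 1) one_ne_zero
  have hKf : volume K ≠ ⊤ := hK.measure_lt_top.ne
  have hKv' : (volume (S ∩ Ioo a b')).toReal ≤ (volume K).toReal + 1 := by
    have h1 := ENNReal.toReal_mono (ENNReal.add_ne_top.2 ⟨hKf, ENNReal.one_ne_top⟩) hKv.le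
    rwa [ENNReal.toReal_add hKf ENNReal.one_ne_top, ENNReal.toReal_one] at h1
  -- the constants
  set η : ℝ := 1 / (t' - t₀) with hη
  have hη0 : 0 < η := one_div_pos.2 (by linarith)
  set δ : ℝ := min (1 / 2) (η / (Λ + 1)) with hδ
  have hδ0 : 0 < δ := lt_min (by norm_num) (by positivity)
  have hδ2 : δ ≤ 1 / 2 := min_le_left _ _
  have hδ1 : δ ≤ 1 := by linarith
  have hδη : (Λ + 1) * δ ≤ η := by
    have h1 : δ ≤ η / (Λ + 1) := min_le_right _ _
    rw [le_div_iff₀ (by linarith)] at h1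
    linarith
  have hΦs : StrictMono (Ph δ K) := Ph_strict hK hδ0 hδ1
  have hΦc : Continuous (Ph δ K) := Ph_cont hK hδ0 hδ1
  set Rec : ℝ → Prop := fun t => ∀ s ∈ Ioo t₀ t, ∀ y, ∃ x,
    enk κ (r s) (u s) y ≤ enk κ (r t) (u t) x with hRec
  set Lev : ℝ → Prop := fun t => ∀ x, (∀ y, enk κ (r t) (u t) y ≤ enk κ (r t) (u t) x) →
          0 < enk κ (r t) (u t) x ∧ Real.log (enk κ (r t) (u t) x) ∈ S with hLev
  set P : ℝ → Prop := fun t => 0 ≤ g t ∧ (Rec t → Lev t →
    ∃ x, (∀ y, enk κ (r t) (u t) y ≤ enk κ (r t) (u t) x) ∧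
          Dk κ (r t) x (u t) ≤ g t * enk κ (r t) (u t) x) with hP
  -- the maximum
  have hmaxex : ∀ t ∈ Icc t₀ t', ∃ x, ∀ y, enk κ (r t) (u t) y ≤ enk κ (r t) (u t) x := by
    intro t ht
    obtain ⟨x, hx, hmax⟩ := (isCompact_Icc (a := (0 : V)) (b := 1)).exists_isMaxOn
      ⟨0, le_rfl, zero_le_one⟩ (enk_smooth hκ (hsm t ht) (r t)).continuous.continuousOn
    refine ⟨x, fun y => ?_⟩
    obtain ⟨y', hy', e⟩ := W398.MD.FLOWX.per_cube (per_enk κ (hper t ht) (r t)) y
    rw [e]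
    exact hmax hy'
  -- the rate
  have hrate : ∀ t, ∃ γ : ℝ, 0 ≤ γ ∧ (P t → γ = g t) ∧ (t ∈ Ioo t₀ t' → Rec t → Lev t →
      ∃ x, (∀ y, enk κ (r t) (u t) y ≤ enk κ (r t) (u t) x) ∧
        Dk κ (r t) x (u t) ≤ γ * enk κ (r t) (u t) x) := by
    intro t
    by_cases hPt : P t
    · obtain ⟨hg0, hPx⟩ := hPt
      exact ⟨g t, hg0, fun _ => rfl, fun ht hRt hLt => hPx hRt hLt⟩
    · refine ⟨Λ, hΛ0, fun h => absurd h hPt, fun ht _ _ => ?_⟩
      obtain ⟨x, hmax⟩ := hmaxex t (Ioo_subset_Icc_self ht)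
      exact ⟨x, hmax, hΛ t (Ioo_subset_Icc_self ht) x hmax⟩
  choose g' hg'0 hg'1 hg'2 using hrate
  have hae : g' =ᵐ[(volume : Measure ℝ).restrict (Ioo t₀ t')] g := by
    filter_upwards [hsplit] with t ht
    exact hg'1 t ht
  have hint' : IntegrableOn g' (Ioo t₀ t') := hint.congr hae.symm
  have hval : ∫ t in Ioo t₀ t', g' t = ∫ t in Ioo t₀ t', g t := integral_congr_ae hae
  set f : ℝ → ℝ := (Ioo t₀ t').indicator (fun t => g' t + η) with hf
  have hci : IntegrableOn (fun _ : ℝ => η) (Ioo t₀ t') := integrableOn_const (by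
    rw [Real.volume_Ioo]
    exact ENNReal.ofReal_ne_top)
  have hfi : Integrable f := (integrable_indicator_iff measurableSet_Ioo).2 (hint'.add hci)
  have hfv : ∫ t, f t = (∫ t in Ioo t₀ t', g t) + 1 := by
    rw [hf, integral_indicator measurableSet_Ioo, integral_add hint' hci, hval,
      setIntegral_const, measureReal_def, Real.volume_Ioo,
      ENNReal.toReal_ofReal (by linarith), smul_eq_mul, hη, mul_one_div,
      div_self (by linarith : t' - t₀ ≠ 0)]
  obtain ⟨B, hfB, hBl, hBi, hBt, hBv⟩ := exists_lt_lowerSemicontinuous_integral_lt f hfi one_pos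
  set Br : ℝ → ℝ := fun t => (B t).toReal with hBr
  have hlow : ∀ᵐ t, f t ≤ Br t := by
    filter_upwards [hBt] with t ht
    have h1 : ((f t : ℝ) : EReal) < B t := hfB t
    have h2 : B t ≠ ⊤ := ht.ne
    have h3 : B t ≠ ⊥ := (bot_le.trans_lt h1).ne'
    have h4 : ((Br t : ℝ) : EReal) = B t := EReal.coe_toReal h2 h3
    rw [← h4, EReal.coe_lt_coe_iff] at h1
    exact h1.le
  have hf0 : ∀ t, 0 ≤ f t := fun t => indicator_nonneg (fun t _ => by
    have := hg'0 t
    positivity) t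
  have hBr0 : ∀ᵐ t, 0 ≤ Br t := by
    filter_upwards [hlow] with t ht
    exact (hf0 t).trans ht
  set G : ℝ → ℝ := fun s => ∫ τ in t₀..s, Br τ with hG
  have hGm : Monotone G := by
    intro s s' hss
    have h3 : G s' - G s = ∫ τ in s..s', Br τ :=
      intervalIntegral.integral_interval_sub_left hBi.intervalIntegrable hBi.intervalIntegrable
    have h4 : 0 ≤ ∫ τ in s..s', Br τ :=
      intervalIntegral.integral_nonneg_of_ae hss hBr0
    linarith
  have hG0 : G t₀ = 0 := by simp only [hG, intervalIntegral.integral_same]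
  have hGc : Continuous G := intervalIntegral.continuous_primitive
    (fun a b => hBi.intervalIntegrable) t₀
  set m₀ : ℝ := M₀ / 2 with hm₀
  have hm₀0 : 0 < m₀ := by positivity
  have hm₀M : m₀ < M₀ := by linarith
  set Ψ : ℝ → ℝ := fun w => Ph δ K (Real.log (max w m₀)) with hΨ
  have hmxp : ∀ w, 0 < max w m₀ := fun w => hm₀0.trans_le (le_max_right _ _)
  have hΨm : Monotone Ψ := fun w w' h =>
    hΦs.monotone (Real.log_le_log (hmxp w) (max_le_max_right m₀ h))
  have hΨc : Continuous Ψ := by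
    refine hΦc.comp (Continuous.log (continuous_id.max continuous_const) fun w => (hmxp w).ne')
  set L : ℝ → ℝ := fun s => Ph δ K a + G s with hLdef
  have hLc : Continuous L := continuous_const.add hGc
  -- the level is not reached before the last time
  have hmain : ∀ t ∈ Ico t₀ t', ∀ x ∈ cube, Ψ (enk κ (r t) (u t) x) < L t := by
    by_contra hcon
    push Not at hcon
    obtain ⟨t₂, ht₂, x₂, hx₂, hL₂⟩ := hcon
    have hIco : Ico t₀ t' ⊆ Icc t₀ t' := Ico_subset_Icc_self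
    obtain ⟨t₁, ht₁, ⟨x₁, hx₁, hLx⟩, hbefore, hbefore2⟩ := barrier_r (t₀ := t₀) (T := t') (r := r)
      (L := L) (e := fun ρ t x => Ψ (enk κ ρ (u t) x)) (hr.mono hIco)
      (fun t ht => hrp t (hIco ht))
      (fun ρ => hΨc.comp_continuousOn
        ((enk_cont hκ hL.smooth_u ρ).mono (prod_mono (hIco.trans hsub) (subset_univ _))))
      (fun t ht ρ ρ' hρ' hle x => hΨm (enk_mono hκ (hsm t (hIco ht)) hρ' hle x)) hLc.continuousOn
      (fun x hx => by
        simp only [hLdef, hG0, add_zero]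
        exact hΦs (Real.log_lt_log (hmxp _) (max_lt (h0 x) hm₀M)))
      ⟨t₂, ht₂, x₂, hx₂, hL₂⟩
    have ht₁I : t₁ ∈ Icc t₀ t' := Ioo_subset_Icc_self ht₁
    have hGt₁ : 0 ≤ G t₁ := by
      rw [← hG0]
      exact hGm ht₁.1.le
    have hbefore' : ∀ s ∈ Ico t₀ t₁, ∀ x, Ψ (enk κ (r t₁) (u s) x) < L s := by
      intro s hs x
      have hsI : s ∈ Icc t₀ t' := ⟨hs.1, (hs.2.trans ht₁.2).le⟩
      obtain ⟨y, hy, e⟩ := W398.MD.FLOWX.per_cube (per_enk κ (hper s hsI) (r t₁)) x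
      rw [e]
      exact hbefore s hs y hy
    -- the maximum points at the first time
    have hmaxv : ∀ x, (∀ y, enk κ (r t₁) (u t₁) y ≤ enk κ (r t₁) (u t₁) x) →
        M₀ ≤ enk κ (r t₁) (u t₁) x ∧ L t₁ ≤ Ph δ K (Real.log (enk κ (r t₁) (u t₁) x)) := by
      intro x hmax
      have h1 : L t₁ ≤ Ψ (enk κ (r t₁) (u t₁) x) := hLx.trans (hΨm (hmax x₁))
      have h2 : Ph δ K a ≤ Ph δ K (Real.log (max (enk κ (r t₁) (u t₁) x) m₀)) := by
        refine le_trans ?_ h1
        simp only [hLdef]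
        linarith
      have h3 : a ≤ Real.log (max (enk κ (r t₁) (u t₁) x) m₀) := hΦs.le_iff_le.1 h2
      have h4 : M₀ ≤ max (enk κ (r t₁) (u t₁) x) m₀ := (Real.log_le_log_iff hM₀ (hmxp _)).1 h3
      have h5 : M₀ ≤ enk κ (r t₁) (u t₁) x := by
        rcases le_max_iff.1 h4 with h | h
        · exact h
        · linarith
      refine ⟨h5, h1.trans (le_of_eq ?_)⟩
      simp only [hΨ]
      rw [max_eq_left (by linarith)]
    have hR₁ : Rec t₁ := by
      intro s hs y
      have hsI : s ∈ Icc t₀ t' := ⟨hs.1.le, (hs.2.trans ht₁.2).le⟩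
      obtain ⟨y', hy', e⟩ := W398.MD.FLOWX.per_cube (per_enk κ (hper s hsI) (r s)) y
      refine ⟨x₁, ?_⟩
      rw [e]
      have h1 := hbefore2 s ⟨hs.1.le, hs.2⟩ y' hy'
      have h2 : L s ≤ L t₁ := by
        simp only [hLdef]
        linarith [hGm hs.2.le]
      by_contra hlt
      rw [not_le] at hlt
      have h3 := hΨm hlt.le
      linarith
    -- the derivative at a maximum point
    have hder : ∀ x, (∀ y, enk κ (r t₁) (u t₁) y ≤ enk κ (r t₁) (u t₁) x) → ∀ b : ℝ, f t₁ < b →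
        ((b : ℝ) : EReal) < B t₁ → ∀ c : ℝ, 0 < c → (∃ ρ : ℝ, 0 < ρ ∧ ∀ s,
          Real.log (enk κ (r t₁) (u t₁) x) - ρ < s → s ≤ Real.log (enk κ (r t₁) (u t₁) x) →
          c * (Ph δ K (Real.log (enk κ (r t₁) (u t₁) x)) - Ph δ K s)
            ≤ Real.log (enk κ (r t₁) (u t₁) x) - s) →
        c * b * enk κ (r t₁) (u t₁) x ≤ Dk κ (r t₁) x (u t₁) := by
      intro x hmax b hb1 hb2 c hc ⟨ρ, hρ, hρc⟩
      obtain ⟨hxM, hxL⟩ := hmaxv x hmax
      set w := enk κ (r t₁) (u t₁) x with hw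
      have hw0 : 0 < w := hM₀.trans_le hxM
      have hD := enk_deriv hκ hL (hrp t₁ ht₁I) (hsub ht₁I) x
      have hlog : HasDerivAt (fun s => Real.log (enk κ (r t₁) (u s) x))
          (Dk κ (r t₁) x (u t₁) / w) t₁ := by
        have h1 : HasDerivAt (fun s => enk κ (r t₁) (u s) x) (Dk κ (r t₁) x (u t₁)) t₁ := hD
        exact h1.log hw0.ne'
      have hcb : c * b ≤ Dk κ (r t₁) x (u t₁) / w := by
        refine deriv_ge hlog ?_
        obtain ⟨δ₁, hδ₁, hball⟩ := Metric.eventually_nhds_iff_ball.1 (hBl t₁ b hb2)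
        have hcont : ContinuousAt (fun s => enk κ (r t₁) (u s) x) t₁ := hD.continuousAt
        have hev1 : ∀ᶠ s in 𝓝[<] t₁, m₀ < enk κ (r t₁) (u s) x :=
          (hcont.tendsto.eventually_const_lt (show m₀ < w by linarith)).filter_mono
            nhdsWithin_le_nhds
        have hev2 : ∀ᶠ s in 𝓝[<] t₁, Real.log w - ρ < Real.log (enk κ (r t₁) (u s) x) :=
          (hlog.continuousAt.tendsto.eventually_const_lt
            (show Real.log w - ρ < Real.log w by linarith)).filter_mono nhdsWithin_le_nhds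
        have hev3 : ∀ᶠ s in 𝓝[<] t₁, s ∈ Ioo (max t₀ (t₁ - δ₁)) t₁ :=
          Ioo_mem_nhdsLT (max_lt ht₁.1 (by linarith))
        filter_upwards [hev1, hev2, hev3] with s hs1 hs2 hs3
        have hs4 : t₀ < s := (le_max_left _ _).trans_lt hs3.1
        have hs5 : t₁ - δ₁ < s := (le_max_right _ _).trans_lt hs3.1
        set v := enk κ (r t₁) (u s) x with hv
        have hv0 : 0 < v := hm₀0.trans hs1
        have h1 : Ph δ K (Real.log v) < L s := by
          have h2 := hbefore' s ⟨hs4.le, hs3.2⟩ x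
          simp only [hΨ] at h2
          rwa [max_eq_left hs1.le] at h2
        have h2 : b * (t₁ - s) ≤ G t₁ - G s := by
          have h3 : G t₁ - G s = ∫ τ in s..t₁, Br τ :=
            intervalIntegral.integral_interval_sub_left hBi.intervalIntegrable
              hBi.intervalIntegrable
          rw [h3]
          have h4 : ∫ _ in s..t₁, b = b * (t₁ - s) := by
            rw [intervalIntegral.integral_const, smul_eq_mul, mul_comm]
          rw [← h4]
          refine intervalIntegral.integral_mono_ae_restrict hs3.2.le intervalIntegrable_const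
            hBi.intervalIntegrable ?_
          filter_upwards [ae_restrict_mem measurableSet_Icc, ae_restrict_of_ae hBt] with τ hτ hτt
          have hb3 : ((b : ℝ) : EReal) < B τ := hball τ (by
            rw [Real.ball_eq_Ioo]
            exact ⟨by linarith [hτ.1], by linarith [hτ.2]⟩)
          have h7 : B τ ≠ ⊥ := (bot_le.trans_lt hb3).ne'
          have h8 : ((Br τ : ℝ) : EReal) = B τ := EReal.coe_toReal hτt.ne h7
          rw [← h8, EReal.coe_lt_coe_iff] at hb3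
          exact hb3.le
        have hb0 : 0 < b := (hf0 t₁).trans_lt hb1
        have h3 : b * (t₁ - s) ≤ Ph δ K (Real.log w) - Ph δ K (Real.log v) := by
          have h4 : L t₁ - L s = G t₁ - G s := by
            simp only [hLdef]
            ring
          linarith
        have h5 : 0 < b * (t₁ - s) := mul_pos hb0 (by linarith [hs3.2])
        have h6 : Real.log v ≤ Real.log w := by
          refine (hΦs.lt_iff_lt.1 ?_).le
          linarith
        have h7 := hρc (Real.log v) hs2 h6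
        calc c * b * (t₁ - s) = c * (b * (t₁ - s)) := by ring
          _ ≤ c * (Ph δ K (Real.log w) - Ph δ K (Real.log v)) :=
              mul_le_mul_of_nonneg_left h3 hc.le
          _ ≤ _ := h7
      rwa [le_div_iff₀ hw0] at hcb
    obtain ⟨b, hb1, hb2⟩ := EReal.lt_iff_exists_real_btwn.1 (hfB t₁)
    have hb1' : f t₁ < b := by exact_mod_cast hb1
    have hf₁ : f t₁ = g' t₁ + η := by rw [hf, indicator_of_mem ht₁]
    obtain ⟨x₀, hx₀⟩ := hmaxex t₁ ht₁I
    obtain ⟨hx₀M, -⟩ := hmaxv x₀ hx₀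
    have hw₀ : 0 < enk κ (r t₁) (u t₁) x₀ := hM₀.trans_le hx₀M
    by_cases hlK : Real.log (enk κ (r t₁) (u t₁) x₀) ∈ K
    · -- a level in `K`
      have hLev₁ : Lev t₁ := by
        intro x hx
        have e : enk κ (r t₁) (u t₁) x = enk κ (r t₁) (u t₁) x₀ := le_antisymm (hx₀ x) (hx x₀)
        rw [e]
        exact ⟨hw₀, (hKA hlK).1⟩
      obtain ⟨x, hmax, hDle⟩ := hg'2 t₁ ht₁ hR₁ hLev₁
      have h1 := hder x hmax b hb1' hb2 1 one_pos ⟨1, one_pos, fun s _ hs => by
        rw [one_mul]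
        exact Ph_up hK hδ1 hs⟩
      have hw : 0 < enk κ (r t₁) (u t₁) x := hM₀.trans_le (hmaxv x hmax).1
      rw [one_mul] at h1
      have h2 : b * enk κ (r t₁) (u t₁) x ≤ g' t₁ * enk κ (r t₁) (u t₁) x := h1.trans hDle
      have h3 := le_of_mul_le_mul_right h2 hw
      linarith
    · -- another level
      have hopen : IsOpen Kᶜ := hK.isClosed.isOpen_compl
      obtain ⟨ρ, hρ, hρK⟩ := Metric.isOpen_iff.1 hopen _ hlK
      have h1 := hder x₀ hx₀ b hb1' hb2 (1 / δ) (by positivity) ⟨ρ, hρ, fun s hs1 hs2 => by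
        rw [Ph_gap hK hs2]
        · rw [← mul_assoc, one_div, inv_mul_cancel₀ hδ0.ne', one_mul]
        · rw [Set.eq_empty_iff_forall_notMem]
          rintro z ⟨hzK, hz⟩
          refine hρK ?_ hzK
          rw [Real.ball_eq_Ioo]
          exact ⟨by linarith [hz.1], by linarith [hz.2]⟩⟩
      have h2 := h1.trans (hΛ t₁ ht₁I x₀ hx₀)
      have h3 := le_of_mul_le_mul_right h2 hw₀
      rw [one_div, inv_mul_le_iff₀ hδ0] at h3
      have h4 := hg'0 t₁
      nlinarith
  -- the last time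
  have hlast : Ψ m' ≤ L t' := by
    have hcx : ContinuousWithinAt (fun s => Ψ (enk κ (r t') (u s) x')) (Ico t₀ t') t' := by
      have h2 : ContinuousAt (fun q : ℝ × V => enk κ (r t') (u q.1) q.2) (t', x') :=
        ((enk_cont hκ hL.smooth_u (r t')) (t', x') ⟨hsub ht'I, mem_univ _⟩).continuousAt
          ((isOpen_Ioo.prod isOpen_univ).mem_nhds ⟨hsub ht'I, mem_univ _⟩)
      exact (hΨc.continuousAt.comp
        (h2.comp (f := fun s : ℝ => ((s, x') : ℝ × V)) (by fun_prop))).continuousWithinAt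
    have hcl : t' ∈ closure (Ico t₀ t') := by
      rw [closure_Ico htt.ne]
      exact ht'I
    refine hcx.closure_le hcl hLc.continuousAt.continuousWithinAt (fun s hs => ?_)
    have hsI : s ∈ Icc t₀ t' := Ico_subset_Icc_self hs
    refine (hΨm (enk_mono hκ (hsm s hsI) (hrp t' ht'I) (hr hsI ht'I hs.2.le) x')).trans ?_
    obtain ⟨y, hy, e⟩ := W398.MD.FLOWX.per_cube (per_enk κ (hper s hsI) (r s)) x'
    rw [e]
    exact (hmain s hs y hy).le
  have hlast2 : Ph δ K b' - Ph δ K a ≤ G t' := by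
    simp only [hΨ, hLdef] at hlast
    rw [max_eq_left (by linarith)] at hlast
    linarith
  rw [Ph_sub hK hab.le] at hlast2
  have hKI : K ∩ Ioc a b' = K := by
    refine inter_eq_left.2 fun z hz => ?_
    have := (hKA hz).2
    exact ⟨this.1, this.2.le⟩
  rw [hKI] at hlast2
  -- the integral
  have h1 : G t' ≤ ∫ τ, Br τ := by
    have h2 : G t' = ∫ τ in Ioc t₀ t', Br τ := intervalIntegral.integral_of_le htt.le
    have h3 := integral_add_compl (μ := volume) (measurableSet_Ioc (a := t₀) (b := t')) hBi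
    have h4 : 0 ≤ ∫ τ in (Ioc t₀ t')ᶜ, Br τ := by
      refine integral_nonneg_of_ae ?_
      exact ae_restrict_of_ae hBr0
    linarith
  have h5 : 0 ≤ (volume K).toReal := ENNReal.toReal_nonneg
  have h6 : 0 ≤ δ * (b' - a) := mul_nonneg hδ0.le (by linarith)
  have h7 : (1 - δ) * (volume K).toReal ≤ (∫ t in Ioo t₀ t', g t) + 2 := by
    linarith
  have h8 : 1 / 2 * (volume K).toReal ≤ (1 - δ) * (volume K).toReal :=
    mul_le_mul_of_nonneg_right (by linarith) h5
  linarith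

end Pool.Agent.H946.NS
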