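import Pool.Agent.H946_NS.CF12

/-!
The growth of the localised enstrophy in a compact set.
-/

set_option autoImplicit false

open MeasureTheory Set Metric Filter Topology
open scoped ContDiff ENNReal

namespace Pool.Agent.H946.NS

open H459R3.NS W221.NS Pool.Agent.W583.MD

variable {κ : V → ℝ}

/-- The derivative in time of the localised enstrophy, in terms of the field. -/
noncomputable def Dk (κ : V → ℝ) (r : ℝ) (x : V) (v : V → V) : ℝ :=
  r ^ 3 * ((r ^ 6)⁻¹ * ∫ z, RR (scv r x v) 0 z * (κ z * κ z))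

/-- The derivative in time at a fixed point. -/
theorem enk_deriv_loc (hκ : Cut κ) {T : ℝ} {O : Set V} {u : ℝ → V → V} {p : ℝ → V → ℝ}
    (hL : LS T O u p) {r : ℝ} (hr : 0 < r) {t : ℝ} (ht : t ∈ Ioo 0 T) {x : V}
    (hO : ball x r ⊆ O) : HasDerivAt (fun s => enk κ r (u s) x) (Dk κ r x (u t)) t := by
  have hu : ContDiffOn ℝ ∞ (fun z : ℝ × V => u z.1 z.2) (Ioo 0 T ×ˢ univ) := hL.smooth_u
  have hv : ContDiff ℝ ∞ (u t) := W382.ME.cd_slice hL.smooth_u ht
  let F : ℝ → V → ℝ := fun s z => osq (u s) (x + r • z) * (κ z * κ z)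
  have hF : ContDiffOn ℝ ∞ (fun z : ℝ × V => F z.1 z.2) (Ioo 0 T ×ˢ univ) := by
    have h1 : ContDiffOn ℝ ∞ (fun q : ℝ × V => ((q.1, x + r • q.2) : ℝ × V))
        (Ioo 0 T ×ˢ univ) :=
      contDiffOn_fst.prodMk (contDiffOn_const.add (contDiff_snd.const_smul r).contDiffOn)
    have h2 : ContDiffOn ℝ ∞ (fun q : ℝ × V => osq (u q.1) (x + r • q.2))
        (Ioo 0 T ×ˢ univ) :=
      ContDiffOn.comp (g := fun z : ℝ × V => osq (u z.1) z.2)
        (f := fun q : ℝ × V => ((q.1, x + r • q.2) : ℝ × V)) (osq_joint hu) h1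
        (fun q hq => ⟨hq.1, mem_univ _⟩)
    have h3 : ContDiff ℝ ∞ (fun q : ℝ × V => κ q.2 * κ q.2) :=
      ContDiff.comp (g := fun z : V => κ z * κ z) (f := Prod.snd)
        (hκ.smooth.mul hκ.smooth) contDiff_snd
    have h4 : ContDiffOn ℝ ∞ (fun q : ℝ × V => osq (u q.1) (x + r • q.2)
        * (κ q.2 * κ q.2)) (Ioo 0 T ×ˢ univ) := h2.mul h3.contDiffOn
    exact h4
  have hd := hd_int (F := F) hF (fun s _ z hz => by
    change osq (u s) (x + r • z) * (κ z * κ z) = 0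
    rw [hκ.zero z hz]; ring) ht
  have hder : ∀ z, deriv (fun s => F s z) t = (r ^ 6)⁻¹ * (RR (scv r x (u t)) 0 z
      * (κ z * κ z)) := by
    intro z
    by_cases hz : z ∈ ball (0 : V) 1
    · have hyO : x + r • z ∈ O := hO (by
        rw [mem_ball_iff_norm, add_sub_cancel_left, norm_smul, Real.norm_of_nonneg hr.le]
        rw [mem_ball_zero_iff] at hz
        nlinarith)
      have h1 : ∀ i j, HasDerivAt (fun s => om (u s) i j (x + r • z))
          (lap (om (u t) i j) (x + r • z)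
            - ∑ k, (u t (x + r • z) k - (0 : V) k) * pd k (om (u t) i j) (x + r • z)
            - ∑ k, (om (u t) i k (x + r • z) * pd k (fun y => u t y j) (x + r • z)
              + pd k (fun y => u t y i) (x + r • z) * om (u t) k j (x + r • z))) t := by
        intro i j
        have h2 := along (f := fun s => om (u s) i j) (om_joint hu i j) ht
          (hasDerivAt_const t x) (r • z)
        refine h2.congr_deriv ?_
        rw [vort_eq hL ht hyO i j]
        simp only [Fin.sum_univ_three, Pi.zero_apply]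
        ring
      have h3 : HasDerivAt (fun s => osq (u s) (x + r • z)) (RR (u t) 0 (x + r • z)) t := by
        unfold osq RR
        refine HasDerivAt.fun_sum fun i _ => HasDerivAt.fun_sum fun j _ => ?_
        refine ((h1 i j).pow 2).congr_deriv ?_
        norm_num
      have h4 : HasDerivAt (fun s => F s z) (RR (u t) 0 (x + r • z) * (κ z * κ z)) t :=
        h3.mul_const _
      have h5 := RR_scv (r := r) (x := x) hv 0 z
      have h6 : (fun k => r * (0 : V) k) = (0 : V) := by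
        funext k
        simp
      rw [h6] at h5
      rw [h4.deriv, h5]
      field_simp
    · have h1 : ∀ s, F s z = 0 := fun s => by
        change osq (u s) (x + r • z) * (κ z * κ z) = 0
        rw [hκ.zero z hz]
        ring
      simp_rw [h1, hκ.zero z hz]
      simp
  simp_rw [hder] at hd
  rw [integral_const_mul] at hd
  exact hd.const_mul (r ^ 3)

/-- A first time at which the largest localised enstrophy reaches a moving level. -/
theorem barrier_loc {t₀ T : ℝ} {R : Set V} (hR : IsCompact R) {r L : ℝ → ℝ} {e : ℝ → ℝ → V → ℝ}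
    (hr : AntitoneOn r (Ico t₀ T)) (hrp : ∀ t ∈ Ico t₀ T, 0 < r t)
    (hcont : ∀ ρ, ContinuousOn (fun q : ℝ × V => e ρ q.1 q.2) (Ico t₀ T ×ˢ R))
    (hmono : ∀ t ∈ Ico t₀ T, ∀ ρ ρ' : ℝ, 0 < ρ' → ρ' ≤ ρ → ∀ x, e ρ' t x ≤ e ρ t x)
    (hL : ContinuousOn L (Ico t₀ T)) (h0 : ∀ x ∈ R, e (r t₀) t₀ x < L t₀)
    (hex : ∃ t ∈ Ico t₀ T, ∃ x ∈ R, L t ≤ e (r t) t x) :
    ∃ t₁ ∈ Ioo t₀ T, (∃ x ∈ R, L t₁ ≤ e (r t₁) t₁ x) ∧
      (∀ s ∈ Ico t₀ t₁, ∀ x ∈ R, e (r t₁) s x < L s) ∧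
        ∀ s ∈ Ico t₀ t₁, ∀ x ∈ R, e (r s) s x < L s := by
  set A : Set ℝ := {t | t ∈ Ico t₀ T ∧ ∃ x ∈ R, L t ≤ e (r t) t x} with hA
  obtain ⟨t', ht', x', hx', hm'⟩ := hex
  have hne : A.Nonempty := ⟨t', ht', x', hx', hm'⟩
  have hbd : BddBelow A := ⟨t₀, fun t ht => ht.1.1⟩
  set t₁ := sInf A with ht₁
  have h1 : t₀ ≤ t₁ := le_csInf hne fun t ht => ht.1.1
  have h2 : t₁ < T := (csInf_le hbd ⟨ht', x', hx', hm'⟩).trans_lt ht'.2
  have ht₁I : t₁ ∈ Ico t₀ T := ⟨h1, h2⟩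
  have hbefore : ∀ s ∈ Ico t₀ t₁, ∀ x ∈ R, e (r s) s x < L s := by
    intro s hs x hx
    by_contra hcon
    have : t₁ ≤ s := csInf_le hbd ⟨⟨hs.1, hs.2.trans h2⟩, x, hx, not_lt.1 hcon⟩
    exact absurd this (not_le.2 hs.2)
  have hat : ∃ x ∈ R, L t₁ ≤ e (r t₁) t₁ x := by
    by_contra hcon
    push Not at hcon
    have hev : ∀ᶠ s in 𝓝 t₁, ∀ y ∈ R, s ∈ Ico t₀ T → e (r t₁) s y < L s := by
      have hopen := hR.eventually_forall_of_forall_eventually
        (P := fun s y => (s ∈ Ico t₀ T ∧ y ∈ R) → e (r t₁) s y < L s) (x₀ := t₁) fun y hy => by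
          have h3 : ContinuousWithinAt (fun q : ℝ × V => e (r t₁) q.1 q.2 - L q.1)
              (Ico t₀ T ×ˢ R) (t₁, y) :=
            ((hcont (r t₁)).sub (hL.comp (f := Prod.fst) continuousOn_fst fun q hq => hq.1))
              (t₁, y) ⟨ht₁I, hy⟩
          have h4 : e (r t₁) t₁ y - L t₁ < 0 := by linarith [hcon y hy]
          have h5 := h3.tendsto.eventually_lt_const h4
          rw [nhdsWithin, eventually_inf_principal] at h5
          filter_upwards [h5] with q hq hqI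
          have := hq ⟨hqI.1, hqI.2⟩
          linarith
      filter_upwards [hopen] with s hs y hy hsI
      exact hs y hy ⟨hsI, hy⟩
    obtain ⟨δ, hδ, hb⟩ := Metric.eventually_nhds_iff_ball.1 hev
    obtain ⟨a, haA, haδ⟩ := exists_lt_of_csInf_lt hne (show sInf A < t₁ + δ by linarith)
    have ha1 : t₁ ≤ a := csInf_le hbd haA
    obtain ⟨y, hy, hLy⟩ := haA.2
    have h6 := hb a (by rw [Real.ball_eq_Ioo]; exact ⟨by linarith, haδ⟩) y hy haA.1
    have h7 := hmono a haA.1 (r t₁) (r a) (hrp a haA.1) (hr ht₁I haA.1 ha1) y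
    linarith
  have hne' : t₀ ≠ t₁ := by
    intro h
    obtain ⟨x, hx, hLx⟩ := hat
    rw [← h] at hLx
    linarith [h0 x hx]
  refine ⟨t₁, ⟨lt_of_le_of_ne h1 hne', h2⟩, hat, fun s hs x hx => ?_, hbefore⟩
  have hsI : s ∈ Ico t₀ T := ⟨hs.1, hs.2.trans h2⟩
  exact (hmono s hsI (r s) (r t₁) (hrp t₁ ht₁I) (hr hsI ht₁I hs.2.le) x).trans_lt
    (hbefore s hs x hx)

/-- The largest localised enstrophy in a compact set, for a given rate. -/
theorem grow_loc (hκ : Cut κ) {T : ℝ} {O : Set V} {u : ℝ → V → V} {p : ℝ → V → ℝ}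
    (hL : LS T O u p) {R : Set V} (hRc : IsCompact R) (hRn : R.Nonempty) (hRO : R ⊆ O)
    {tr t₀ t' B : ℝ} (ht₀ : 0 < t₀) (htt : t₀ < t') (ht' : t' < T) {r g : ℝ → ℝ}
    (hr : AntitoneOn r (Icc t₀ t')) (hrp : ∀ t ∈ Icc t₀ t', 0 < r t)
    (hin : ∀ t ∈ Icc t₀ t', ∀ x ∈ R, B < enk κ (r t) (u t) x → ball x (9 * r t) ⊆ R)
    (hint : IntegrableOn g (Ioo t₀ t'))
    (hsplit : ∀ᵐ t ∂((volume : Measure ℝ).restrict (Ioo t₀ t')), 0 ≤ g t ∧
      ((∀ s ∈ Ioo tr t, ∀ y ∈ R, ∃ x ∈ R, enk κ (r s) (u s) y ≤ enk κ (r t) (u t) x) →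
        ∃ x ∈ R, (∀ y ∈ R, enk κ (r t) (u t) y ≤ enk κ (r t) (u t) x) ∧
          (ball x (9 * r t) ⊆ R → Dk κ (r t) x (u t) ≤ g t * enk κ (r t) (u t) x)))
    {M₀ : ℝ} (hM₀ : 0 < M₀) (hBM : B < M₀) (h0 : ∀ x ∈ R, enk κ (r t₀) (u t₀) x < M₀)
    (h00 : ∀ s ∈ Ioo tr t₀, ∀ x ∈ R, enk κ (r s) (u s) x ≤ M₀) {x' : V}
    (hx' : x' ∈ R) :
    enk κ (r t') (u t') x' ≤ M₀ * Real.exp ((∫ t in Ioo t₀ t', g t) + 1) := by
  have hsub : Icc t₀ t' ⊆ Ioo 0 T := fun t ht => ⟨ht₀.trans_le ht.1, ht.2.trans_lt ht'⟩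
  have hsm : ∀ t ∈ Icc t₀ t', ContDiff ℝ ∞ (u t) := fun t ht =>
    W382.ME.cd_slice hL.smooth_u (hsub ht)
  set Rec : ℝ → Prop := fun t => ∀ s ∈ Ioo tr t, ∀ y ∈ R, ∃ x ∈ R,
    enk κ (r s) (u s) y ≤ enk κ (r t) (u t) x with hRec
  set P : ℝ → Prop := fun t => 0 ≤ g t ∧
          (Rec t → ∃ x ∈ R, (∀ y ∈ R, enk κ (r t) (u t) y ≤ enk κ (r t) (u t) x) ∧
          (ball x (9 * r t) ⊆ R → Dk κ (r t) x (u t) ≤ g t * enk κ (r t) (u t) x)) with hP
  -- the maximum
  have hmaxex : ∀ t ∈ Icc t₀ t', ∃ x ∈ R, ∀ y ∈ R, enk κ (r t) (u t) y ≤ enk κ (r t) (u t) x := by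
    intro t ht
    obtain ⟨x, hx, hmax⟩ := hRc.exists_isMaxOn hRn
      (enk_smooth hκ (hsm t ht) (r t)).continuous.continuousOn
    exact ⟨x, hx, fun y hy => hmax hy⟩
  -- the rate
  have hrate : ∀ t, ∃ γ : ℝ, 0 ≤ γ ∧ (P t → γ = g t) ∧ (t ∈ Ioo t₀ t' → Rec t →
      ∃ x ∈ R, (∀ y ∈ R, enk κ (r t) (u t) y ≤ enk κ (r t) (u t) x) ∧
        (ball x (9 * r t) ⊆ R → 0 < enk κ (r t) (u t) x →
          Dk κ (r t) x (u t) ≤ γ * enk κ (r t) (u t) x)) := by
    intro t
    by_cases hPt : P t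
    · obtain ⟨hg0, hPx⟩ := hPt
      refine ⟨g t, hg0, fun _ => rfl, fun ht hRt => ?_⟩
      obtain ⟨x, hxR, hmax, hD⟩ := hPx hRt
      exact ⟨x, hxR, hmax, fun hb _ => hD hb⟩
    · by_cases ht : t ∈ Ioo t₀ t'
      · obtain ⟨x, hxR, hmax⟩ := hmaxex t (Ioo_subset_Icc_self ht)
        refine ⟨|Dk κ (r t) x (u t) / enk κ (r t) (u t) x|, abs_nonneg _, fun h => absurd h hPt,
          fun _ _ => ⟨x, hxR, hmax, fun _ hpos => ?_⟩⟩
        rw [abs_div, abs_of_pos hpos, div_mul_cancel₀ _ hpos.ne']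
        exact le_abs_self _
      · exact ⟨0, le_rfl, fun h => absurd h hPt, fun h => absurd h ht⟩
  choose g' hg'0 hg'1 hg'2 using hrate
  have hae : g' =ᵐ[(volume : Measure ℝ).restrict (Ioo t₀ t')] g := by
    filter_upwards [hsplit] with t ht
    exact hg'1 t ht
  have hint' : IntegrableOn g' (Ioo t₀ t') := hint.congr hae.symm
  have hval : ∫ t in Ioo t₀ t', g' t = ∫ t in Ioo t₀ t', g t := integral_congr_ae hae
  set f : ℝ → ℝ := (Ioo t₀ t').indicator g' with hf
  have hfi : Integrable f := (integrable_indicator_iff measurableSet_Ioo).2 hint'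
  have hfv : ∫ t, f t = ∫ t in Ioo t₀ t', g t := by
    rw [hf, integral_indicator measurableSet_Ioo, hval]
  obtain ⟨Bf', hfB, hBl, hBi, hBt, hBv⟩ := exists_lt_lowerSemicontinuous_integral_lt f hfi one_pos
  set Br : ℝ → ℝ := fun t => (Bf' t).toReal with hBr
  have hlow : ∀ᵐ t, f t ≤ Br t := by
    filter_upwards [hBt] with t ht
    have h1 : ((f t : ℝ) : EReal) < Bf' t := hfB t
    have h2 : Bf' t ≠ ⊤ := ht.ne
    have h3 : Bf' t ≠ ⊥ := (bot_le.trans_lt h1).ne'
    have h4 : ((Br t : ℝ) : EReal) = Bf' t := EReal.coe_toReal h2 h3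
    rw [← h4, EReal.coe_lt_coe_iff] at h1
    exact h1.le
  set G : ℝ → ℝ := fun s => ∫ τ in t₀..s, Br τ with hG
  have hBr0 : ∀ᵐ t, 0 ≤ Br t := by
    filter_upwards [hlow] with t ht
    refine le_trans ?_ ht
    rw [hf]
    exact indicator_nonneg (fun t _ => hg'0 t) t
  have hGm : Monotone G := by
    intro s s' hss
    have h3 : G s' - G s = ∫ τ in s..s', Br τ :=
      intervalIntegral.integral_interval_sub_left hBi.intervalIntegrable hBi.intervalIntegrable
    have h4 : 0 ≤ ∫ τ in s..s', Br τ :=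
      intervalIntegral.integral_nonneg_of_ae hss hBr0
    linarith
  have hG0 : G t₀ = 0 := by simp [hG]
  have hGc : Continuous G := intervalIntegral.continuous_primitive
    (fun a b => hBi.intervalIntegrable) t₀
  set L : ℝ → ℝ := fun s => M₀ * Real.exp (G s) with hLdef
  have hLc : Continuous L := continuous_const.mul hGc.rexp
  have hLpos : ∀ s, 0 < L s := fun s => by positivity
  have hLM : ∀ s, t₀ ≤ s → M₀ ≤ L s := by
    intro s hs
    have h1 : 0 ≤ G s := hG0 ▸ hGm hs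
    have h2 := Real.one_le_exp h1
    simp only [hLdef]
    nlinarith
  -- the level is not reached before the last time
  have hmain : ∀ t ∈ Ico t₀ t', ∀ x ∈ R, enk κ (r t) (u t) x < L t := by
    by_contra hcon
    push Not at hcon
    obtain ⟨t₂, ht₂, x₂, hx₂, hL₂⟩ := hcon
    have hIco : Ico t₀ t' ⊆ Icc t₀ t' := Ico_subset_Icc_self
    obtain ⟨t₁, ht₁, ⟨x₁, hx₁, hLx⟩, hbefore, hbefore2⟩ := barrier_loc (t₀ := t₀) (T := t')
      (r := r) (L := L) hRc
      (e := fun ρ t x => enk κ ρ (u t) x) (hr.mono hIco) (fun t ht => hrp t (hIco ht))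
      (fun ρ => (enk_cont hκ hL.smooth_u ρ).mono (prod_mono (hIco.trans hsub) (subset_univ _)))
      (fun t ht ρ ρ' hρ' hle x => enk_mono hκ (hsm t (hIco ht)) hρ' hle x) hLc.continuousOn
      (fun x hx => by
        simp only [hLdef, hG, intervalIntegral.integral_same, Real.exp_zero, mul_one]
        exact h0 x hx) ⟨t₂, ht₂, x₂, hx₂, hL₂⟩
    have ht₁I : t₁ ∈ Icc t₀ t' := Ioo_subset_Icc_self ht₁
    have hle : ∀ x ∈ R, enk κ (r t₁) (u t₁) x ≤ L t₁ := by
      intro x hx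
      have hcx : ContinuousWithinAt (fun s => enk κ (r t₁) (u s) x) (Ico t₀ t₁) t₁ := by
        have h2 : ContinuousAt (fun q : ℝ × V => enk κ (r t₁) (u q.1) q.2) (t₁, x) :=
          ((enk_cont hκ hL.smooth_u (r t₁)) (t₁, x) ⟨hsub ht₁I, mem_univ _⟩).continuousAt
            ((isOpen_Ioo.prod isOpen_univ).mem_nhds ⟨hsub ht₁I, mem_univ _⟩)
        exact (h2.comp (f := fun s : ℝ => ((s, x) : ℝ × V)) (by fun_prop)).continuousWithinAt
      have hcl : t₁ ∈ closure (Ico t₀ t₁) := by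
        rw [closure_Ico ht₁.1.ne]
        exact right_mem_Icc.2 ht₁.1.le
      exact hcx.closure_le hcl hLc.continuousAt.continuousWithinAt
        (fun s hs => (hbefore s hs x hx).le)
    have hR₁ : Rec t₁ := by
      intro s hs y hy
      refine ⟨x₁, hx₁, ?_⟩
      rcases lt_or_ge s t₀ with hst | hst
      · have h1 := h00 s ⟨hs.1, hst⟩ y hy
        have h2 := hLM t₁ ht₁.1.le
        linarith
      have h1 := hbefore2 s ⟨hst, hs.2⟩ y hy
      have h2 : L s ≤ L t₁ :=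
        mul_le_mul_of_nonneg_left (Real.exp_le_exp.2 (hGm hs.2.le)) hM₀.le
      linarith
    obtain ⟨x, hxR, hmax, hDle⟩ := hg'2 t₁ ht₁ hR₁
    have hxL : L t₁ ≤ enk κ (r t₁) (u t₁) x := hLx.trans (hmax x₁ hx₁)
    have hball : ball x (9 * r t₁) ⊆ R :=
      hin t₁ ht₁I x hxR ((hBM.trans_le (hLM t₁ ht₁.1.le)).trans_le hxL)
    have hrr := hrp t₁ ht₁I
    have hD := enk_deriv_loc hκ hL hrr (hsub ht₁I) (x := x)
      (((ball_subset_ball (by linarith)).trans hball).trans hRO)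
    have hDle' : Dk κ (r t₁) x (u t₁) ≤ g' t₁ * L t₁ := by
      have h1 := hDle hball ((hLpos t₁).trans_le hxL)
      rwa [le_antisymm (hle x hxR) hxL] at h1
    -- a number between
    have hf₁ : f t₁ = g' t₁ := by rw [hf, indicator_of_mem ht₁]
    obtain ⟨b, hb1, hb2⟩ := EReal.lt_iff_exists_real_btwn.1 (hfB t₁)
    have hb1' : g' t₁ < b := by
      rw [← hf₁]
      exact_mod_cast hb1
    obtain ⟨δ, hδ, hball2⟩ := Metric.eventually_nhds_iff_ball.1 (hBl t₁ b hb2)
    set δ' := min δ (t₁ - t₀) with hδ'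
    have hδ'0 : 0 < δ' := lt_min hδ (by linarith [ht₁.1])
    have hbL : L t₁ * b ≤ Dk κ (r t₁) x (u t₁) := by
      refine deriv_left2 hδ'0 hD (fun s hs => ?_) hxL
      have hs1 : t₁ - δ < s := by linarith [hs.1, min_le_left δ (t₁ - t₀)]
      have hs2 : t₀ < s := by linarith [hs.1, min_le_right δ (t₁ - t₀)]
      have h1 := (hbefore s ⟨hs2.le, hs.2⟩ x hxR).le
      refine h1.trans ?_
      have h2 : b * (t₁ - s) ≤ G t₁ - G s := by
        have h3 : G t₁ - G s = ∫ τ in s..t₁, Br τ :=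
          intervalIntegral.integral_interval_sub_left hBi.intervalIntegrable
            hBi.intervalIntegrable
        rw [h3]
        have h4 : ∫ _ in s..t₁, b = b * (t₁ - s) := by
          rw [intervalIntegral.integral_const, smul_eq_mul, mul_comm]
        rw [← h4]
        refine intervalIntegral.integral_mono_ae_restrict hs.2.le intervalIntegrable_const
          hBi.intervalIntegrable ?_
        filter_upwards [ae_restrict_mem measurableSet_Icc, ae_restrict_of_ae hBt] with τ hτ hτt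
        have hb3 : ((b : ℝ) : EReal) < Bf' τ := hball2 τ (by
          rw [Real.ball_eq_Ioo]
          exact ⟨by linarith [hτ.1], by linarith [hτ.2]⟩)
        have h7 : Bf' τ ≠ ⊥ := (bot_le.trans_lt hb3).ne'
        have h8 : ((Br τ : ℝ) : EReal) = Bf' τ := EReal.coe_toReal hτt.ne h7
        rw [← h8, EReal.coe_lt_coe_iff] at hb3
        exact hb3.le
      have h5 : L s = L t₁ * Real.exp (G s - G t₁) := by
        simp only [hLdef]
        rw [mul_assoc, ← Real.exp_add]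
        congr 2
        ring
      rw [h5]
      refine mul_le_mul_of_nonneg_left (Real.exp_le_exp.2 ?_) (hLpos t₁).le
      linarith
    nlinarith [hLpos t₁]
  -- the last time
  have ht'I : t' ∈ Icc t₀ t' := right_mem_Icc.2 htt.le
  have hlast : enk κ (r t') (u t') x' ≤ L t' := by
    have hcx : ContinuousWithinAt (fun s => enk κ (r t') (u s) x') (Ico t₀ t') t' := by
      have h2 : ContinuousAt (fun q : ℝ × V => enk κ (r t') (u q.1) q.2) (t', x') :=
        ((enk_cont hκ hL.smooth_u (r t')) (t', x') ⟨hsub ht'I, mem_univ _⟩).continuousAt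
          ((isOpen_Ioo.prod isOpen_univ).mem_nhds ⟨hsub ht'I, mem_univ _⟩)
      exact (h2.comp (f := fun s : ℝ => ((s, x') : ℝ × V)) (by fun_prop)).continuousWithinAt
    have hcl : t' ∈ closure (Ico t₀ t') := by
      rw [closure_Ico htt.ne]
      exact ht'I
    refine hcx.closure_le hcl hLc.continuousAt.continuousWithinAt (fun s hs => ?_)
    have hsI : s ∈ Icc t₀ t' := Ico_subset_Icc_self hs
    exact (enk_mono hκ (hsm s hsI) (hrp t' ht'I) (hr hsI ht'I hs.2.le) x').trans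
      (hmain s hs x' hx').le
  refine hlast.trans ?_
  refine mul_le_mul_of_nonneg_left (Real.exp_le_exp.2 ?_) hM₀.le
  -- the integral
  have h1 : G t' ≤ ∫ τ, Br τ := by
    have h2 : G t' = ∫ τ in Ioc t₀ t', Br τ := intervalIntegral.integral_of_le htt.le
    have h3 := integral_add_compl (μ := volume) (measurableSet_Ioc (a := t₀) (b := t')) hBi
    have h4 : 0 ≤ ∫ τ in (Ioc t₀ t')ᶜ, Br τ := by
      refine integral_nonneg_of_ae ?_
      filter_upwards [ae_restrict_mem measurableSet_Ioc.compl, ae_restrict_of_ae hlow] with τ hτ hτf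
      have h5 : f τ = 0 := by
        rw [hf, indicator_of_notMem fun h => hτ (Ioo_subset_Ioc_self h)]
      rw [h5] at hτf
      exact hτf
    linarith
  linarith

end Pool.Agent.H946.NS
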