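import Pool.Agent.H946_NS.L1

/-!
A criterion in a compact set the frontier of which has no singular points, viscosity one.
-/

set_option autoImplicit false

open MeasureTheory Set Metric Filter Topology
open scoped ContDiff ENNReal

namespace Pool.Agent.H946.NS

open H459R3.NS W221.NS Pool.Agent.W583.MD

variable {κ : V → ℝ}

/-- A bound from above. -/
theorem enk_up (hκ : Cut κ) {r : ℝ} (hr : 0 < r) {v : V → V} (hv : ContDiff ℝ ∞ v) (x : V) :
    enk κ r v x ≤ ∫ y in ball x r, osq v y := by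
  have hc : Continuous fun z : V => osq v (x + r • z) := (osq_smooth hv).continuous.comp (by fun_prop)
  have hk : Continuous κ := hκ.smooth.continuous
  have h1 : ∫ z, osq v (x + r • z) * (κ z * κ z) ≤ ∫ z in ball (0 : V) 1, osq v (x + r • z) := by
    have h5 : ∫ z, osq v (x + r • z) * (κ z * κ z)
        = ∫ z in ball (0 : V) 1, osq v (x + r • z) * (κ z * κ z) := by
      rw [setIntegral_eq_integral_of_forall_compl_eq_zero]
      intro z hz
      rw [hκ.zero z hz]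
      ring
    rw [h5]
    refine setIntegral_mono_on (int_ball (hc.mul (hk.mul hk)) 0 1) (int_ball hc 0 1)
      measurableSet_ball fun z _ => ?_
    have h3 := hκ.nonneg z
    have h4 : κ z * κ z ≤ 1 := mul_le_one₀ (hκ.le_one z) h3 (hκ.le_one z)
    calc osq v (x + r • z) * (κ z * κ z) ≤ osq v (x + r • z) * 1 :=
          mul_le_mul_of_nonneg_left h4 (osq_nonneg v _)
      _ = _ := mul_one _
  rw [cov' (osq v) x hr, mul_one] at h1
  unfold enk
  calc r ^ 3 * ∫ z, osq v (x + r • z) * (κ z * κ z)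
      ≤ r ^ 3 * ((r ^ 3)⁻¹ * ∫ y in ball x r, osq v y) :=
        mul_le_mul_of_nonneg_left h1 (by positivity)
    _ = _ := by
        field_simp

/-- A ball which is not contained in a closed set. -/
theorem ball_frontier {R : Set V} (hR : IsClosed R) {x : V} {ρ : ℝ} (hρ : 0 < ρ) (hx : x ∈ R)
    (h : ¬ ball x ρ ⊆ R) : ∃ y ∈ frontier R, y ∈ ball x ρ := by
  by_contra hcon
  push Not at hcon
  obtain ⟨z, hz, hzR⟩ := not_subset.1 h
  have hpre := (convex_ball x ρ).isPreconnected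
  have hcov : ball x ρ ⊆ interior R ∪ Rᶜ := by
    intro y hy
    by_cases hyR : y ∈ R
    · left
      by_contra hyi
      refine hcon y ?_ hy
      rw [hR.frontier_eq]
      exact ⟨hyR, hyi⟩
    · right
      exact hyR
  obtain ⟨w, -, hw1, hw2⟩ := hpre (interior R) Rᶜ isOpen_interior hR.isOpen_compl hcov
    ⟨x, mem_ball_self hρ, by
      rcases hcov (mem_ball_self hρ) with h | h
      · exact h
      · exact absurd hx h⟩ ⟨z, hz, hzR⟩
  exact hw2 (interior_subset hw1)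

/-- The numbers in the last step. -/
theorem last_num3 {c K₁ a ρ s q W : ℝ} (hK : 0 ≤ K₁) (ha : 0 < a)
    (hc : 0 < c) (hq0 : 0 < q) (hq1 : q ≤ 1) (hs : s = q ^ 16) (hρ : a * q ^ 9 ≤ ρ)
    (hl : 0 < Real.log (1 / s)) (hW : W ≤ K₁ / q)
    (h : c * ρ ^ 3 / (s ^ 2 * Real.log (1 / s) ^ 2) < W) :
    c * a ^ 3 ≤ 256 * K₁ * q := by
  have hlog : Real.log (1 / s) ≤ 16 * (1 / q) := by
    have h1 : 1 / s = (1 / q) ^ 16 := by
      rw [hs]
      field_simp
    rw [h1, Real.log_pow]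
    have h5 := Real.log_le_self (show 0 ≤ 1 / q by positivity)
    push_cast
    linarith
  have h1 : c * (a * q ^ 9) ^ 3 / ((q ^ 16) ^ 2 * (16 * (1 / q)) ^ 2)
      ≤ c * ρ ^ 3 / (s ^ 2 * Real.log (1 / s) ^ 2) := by
    rw [← hs]
    have h2 : 0 < s ^ 2 * Real.log (1 / s) ^ 2 := by
      rw [hs]
      rw [hs] at hl
      positivity
    have h3 : s ^ 2 * Real.log (1 / s) ^ 2 ≤ s ^ 2 * (16 * (1 / q)) ^ 2 := by
      gcongr
    have h4 : 0 < ρ := lt_of_lt_of_le (by positivity) hρ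
    gcongr
  have h2 := (h1.trans_lt h).le.trans hW
  have h3 : c * (a * q ^ 9) ^ 3 / ((q ^ 16) ^ 2 * (16 * (1 / q)) ^ 2) = c * a ^ 3 / (256 * q ^ 3) := by
    field_simp
    ring
  rw [h3, div_le_div_iff₀ (by positivity) hq0] at h2
  have h4 : c * a ^ 3 * q ≤ (256 * K₁ * q ^ 2) * q := by
    linarith
  have h5 := le_of_mul_le_mul_right h4 hq0
  have h6 : q ^ 2 ≤ q := by nlinarith
  calc c * a ^ 3 ≤ 256 * K₁ * q ^ 2 := h5
    _ ≤ 256 * K₁ * q := by gcongr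

/-- Growth at a rate with a small logarithmic integral is impossible, if there is a singular point
in the compact set. -/
theorem loc_one (hκ : Cut κ) {T κ' E : ℝ} {O : Set V} {u : ℝ → V → V} {p : ℝ → V → ℝ} (hT : 0 < T)
    (hκ' : 0 ≤ κ') (hE : 0 ≤ E) (hL : LSol T κ' E O u p)
    (hfin : ∫⁻ t in Ioo 0 T, ∫⁻ y in O, ENNReal.ofReal (gsq (u t) y) ≠ ⊤) {R : Set V}
    (hR : IsCompact R) (hRO : R ⊆ O) (hreg : ∀ z ∈ frontier R, ¬ Sing T u z) {x₁ : V} {η : ℝ}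
    (hη : 0 < η) (hx₁ : closedBall x₁ η ⊆ R) (hS : Sing T u x₁)
    (hrad : ∀ a : ℝ, 0 < a → a ≤ η → ∃ d₀ ∈ Ioo 0 a, ∀ z, dist z x₁ = d₀ → ¬ Sing T u z) :
    ∃ r₀ : ℝ, 0 < r₀ ∧ ∀ (t₀ K : ℝ) (r g : ℝ → ℝ), t₀ ∈ Ioo 0 T → AntitoneOn r (Ico t₀ T) →
      (∀ t ∈ Ico t₀ T, 0 < r t ∧ r t ≤ r₀) → (∀ t ∈ Ioo t₀ T, IntegrableOn g (Ioo t₀ t)) →
      (∀ᵐ t ∂((volume : Measure ℝ).restrict (Ioo t₀ T)), 1 / r t ^ 2 ≤ g t ∧
        ((∀ s ∈ Ioo t₀ t, ∀ y ∈ R, ∃ x ∈ R, enk κ (r s) (u s) y ≤ enk κ (r t) (u t) x) →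
          ∃ x ∈ R, (∀ y ∈ R, enk κ (r t) (u t) y ≤ enk κ (r t) (u t) x) ∧
            (ball x (9 * r t) ⊆ R → Dk κ (r t) x (u t) ≤ g t * enk κ (r t) (u t) x))) →
      ¬ ∃ᶠ t in 𝓝[<] T, ∫ s in Ioo t₀ t, g s ≤ 1 / 16 * Real.log (1 / (T - t)) + K := by
  obtain ⟨c, hc, hconc⟩ := conc_all
  obtain ⟨a, ha, ha1, hlow⟩ := hκ.low
  have hLS := LS.of_LSol hL
  have hv : ∀ t ∈ Ioo 0 T, ContDiff ℝ ∞ (u t) := fun t ht => W382.ME.cd_slice hL.smooth_u ht
  have hfc : IsCompact (frontier R) := hR.of_isClosed_subset isClosed_frontier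
    hR.isClosed.frontier_subset
  obtain ⟨δ, hδ, hδT, B, hB⟩ := compact_bound hT hLS hfin hfc
    (hR.isClosed.frontier_subset.trans hRO) hreg
  have hev₁ := hconc T κ' E O u p hT hκ' hE hL x₁ η hη (hx₁.trans hRO) hS hfin hrad
  refine ⟨min (δ / 9) 1, lt_min (by positivity) one_pos, ?_⟩
  intro t₀ K r g ht₀ hr hrp hint hcoh hfreq
  have hx₁R : x₁ ∈ R := hx₁ (mem_closedBall_self hη.le)
  have hRn : R.Nonempty := ⟨x₁, hx₁R⟩
  have ht₀I : t₀ ∈ Ico t₀ T := ⟨le_rfl, ht₀.2⟩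
  -- the starting time
  set T₁ := max t₀ (T - δ / 2) with hT₁
  have hT₁T : T₁ < T := max_lt ht₀.2 (by linarith)
  have hT₁0 : t₀ ≤ T₁ := le_max_left _ _
  have hT₁δ : T - δ < T₁ := lt_of_lt_of_le (by linarith) (le_max_right _ _)
  have hT₁I : T₁ ∈ Ico t₀ T := ⟨hT₁0, hT₁T⟩
  -- the initial value
  obtain ⟨M₀, hM₀, hBM, h0⟩ : ∃ M₀ : ℝ, 0 < M₀ ∧ B < M₀ ∧
      ∀ s ∈ Icc t₀ T₁, ∀ x ∈ R, enk κ (r s) (u s) x < M₀ := by
    have hsub : Icc t₀ T₁ ⊆ Ioo 0 T := fun t ht => ⟨ht₀.1.trans_le ht.1, ht.2.trans_lt hT₁T⟩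
    have hcomp : IsCompact (Icc t₀ T₁ ×ˢ R) := isCompact_Icc.prod hR
    have hcn : ContinuousOn (fun q : ℝ × V => enk κ (r t₀) (u q.1) q.2) (Icc t₀ T₁ ×ˢ R) :=
      (enk_cont hκ hL.smooth_u (r t₀)).mono (prod_mono hsub (subset_univ _))
    obtain ⟨q, hq, hmax'⟩ := hcomp.exists_isMaxOn
      ⟨(t₀, x₁), ⟨left_mem_Icc.2 hT₁0, hx₁R⟩⟩ hcn
    have hmax := fun s x (h : (s, x) ∈ Icc t₀ T₁ ×ˢ R) => isMaxOn_iff.1 hmax' (s, x) h
    clear hmax'
    dsimp only at hmax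
    refine ⟨max (enk κ (r t₀) (u q.1) q.2) (max B 0) + 1, ?_, ?_, fun s hs x hx => ?_⟩
    · linarith [le_max_right (enk κ (r t₀) (u q.1) q.2) (max B 0), le_max_right B 0]
    · linarith [le_max_right (enk κ (r t₀) (u q.1) q.2) (max B 0), le_max_left B 0]
    · have hsI : s ∈ Ico t₀ T := ⟨hs.1, hs.2.trans_lt hT₁T⟩
      have h1 := enk_mono hκ (hv s (hsub hs)) (hrp s hsI).1 (hr ht₀I hsI hs.1) x
      have h2 : enk κ (r t₀) (u s) x ≤ enk κ (r t₀) (u q.1) q.2 := hmax s x (mk_mem_prod hs hx)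
      linarith [le_max_left (enk κ (r t₀) (u q.1) q.2) (max B 0)]
  set K₁ : ℝ := 2 * M₀ * Real.exp (|K| + 1) / a ^ 2 with hK₁
  have hK₁0 : 0 < K₁ := by positivity
  set Q : ℝ := 256 * K₁ / (c * a ^ 3) with hQ
  have hQ0 : 0 < Q := by positivity
  set Bd : ℝ := 2 + |K| with hBd
  have hBd0 : 0 < Bd := by positivity
  -- small times
  have hq' : Tendsto (fun t : ℝ => 2 * (T - t)) (𝓝[<] T) (𝓝 0) := by
    have : Tendsto (fun t : ℝ => 2 * (T - t)) (𝓝 T) (𝓝 (2 * (T - T))) := by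
      exact (continuous_const.mul (continuous_const.sub continuous_id)).tendsto T
    rw [sub_self, mul_zero] at this
    exact this.mono_left nhdsWithin_le_nhds
  have hq : Tendsto (fun t : ℝ => (2 * (T - t)) ^ (1 / 16 : ℝ)) (𝓝[<] T) (𝓝 0) := by
    have h2 := hq'.rpow_const (p := (1 / 16 : ℝ)) (Or.inr (by norm_num))
    rwa [Real.zero_rpow (by norm_num)] at h2
  have hq3 : Tendsto (fun t : ℝ => 2 * (T - t)) (𝓝[<] T) (𝓝[>] 0) := by
    refine tendsto_nhdsWithin_iff.2 ⟨hq', ?_⟩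
    filter_upwards [self_mem_nhdsWithin] with t ht
    have ht' : t < T := ht
    have : 0 < 2 * (T - t) := by linarith
    exact this
  have hev : ∀ᶠ t in 𝓝[<] T, (2 * (T - t)) ^ (1 / 16 : ℝ) < min (min 1 (1 / (2 * Bd)))
      (1 / (1 + Q)) := hq.eventually_lt_const (by positivity)
  have hev2 : ∀ᶠ t in 𝓝[<] T, t ∈ Ioo ((T₁ + T) / 2) T := Ioo_mem_nhdsLT (by linarith)
  have hev3 := hq3.eventually (hev₁.and (ev_log 1))
  obtain ⟨t₂, hle, ⟨hcc, hl1⟩, hqt, ht₂⟩ :=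
    (hfreq.and_eventually (hev3.and (hev.and hev2))).exists
  set t := 2 * t₂ - T with ht
  have ht₂T : t₂ < T := ht₂.2
  have htT₁ : T₁ < t := by linarith [ht₂.1]
  have htt₀ : t₀ < t := by linarith
  have htt₂ : t < t₂ := by linarith
  have htT : t < T := htt₂.trans ht₂T
  set s := T - t with hs
  have hss : s = 2 * (T - t₂) := by
    rw [hs, ht]
    ring
  have hs0 : 0 < s := by linarith
  rw [← hss] at hqt hcc hl1
  set q := s ^ (1 / 16 : ℝ) with hqdef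
  have hq0 : 0 < q := by positivity
  have hq1 : q ≤ 1 := (hqt.le.trans (min_le_left _ _)).trans (min_le_left _ _)
  have hqB : q ≤ 1 / (2 * Bd) := (hqt.le.trans (min_le_left _ _)).trans (min_le_right _ _)
  have hq2 : q < 1 / (1 + Q) := hqt.trans_le (min_le_right _ _)
  have hsq : s = q ^ 16 := by
    rw [hqdef, ← Real.rpow_natCast, ← Real.rpow_mul hs0.le]
    norm_num
  have htI : t ∈ Ioo t₀ T := ⟨htt₀, htT⟩
  have ht₂I : t₂ ∈ Ioo t₀ T := ⟨htt₀.trans htt₂, ht₂T⟩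
  have htI' : t ∈ Ico t₀ T := ⟨htI.1.le, htI.2⟩
  have ht0T : t ∈ Ioo 0 T := ⟨ht₀.1.trans htI.1, htI.2⟩
  obtain ⟨hr0, hr1⟩ := hrp t htI'
  have hr1' : r t ≤ 1 := hr1.trans (min_le_right _ _)
  -- the rate
  have hg0 : ∀ᵐ τ ∂((volume : Measure ℝ).restrict (Ioo t₀ T)), 1 / r τ ^ 2 ≤ g τ := by
    filter_upwards [hcoh] with τ hτ
    exact hτ.1
  have hg00 : ∀ᵐ τ ∂((volume : Measure ℝ).restrict (Ioo t₀ T)), 0 ≤ g τ := by
    filter_upwards [hg0] with τ hτ
    exact le_trans (by positivity) hτ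
  set G₂ := ∫ τ in Ioo t₀ t₂, g τ with hG₂
  have hi₂ := hint t₂ ht₂I
  have hi₁ := hint t htI
  have hsub₂ : Ioo t₀ t₂ ⊆ Ioo t₀ T := Ioo_subset_Ioo_right ht₂T.le
  have hG₁ : ∫ τ in Ioo T₁ t, g τ ≤ G₂ :=
    setIntegral_mono_set hi₂ (ae_restrict_of_ae_restrict_of_subset hsub₂ hg00)
      (Ioo_subset_Ioo hT₁0 htt₂.le).eventuallyLE
  have hG₃ : (T - t₂) * (1 / r t ^ 2) ≤ G₂ := by
    have h1 : ∫ τ in Ioo t t₂, g τ ≤ G₂ :=
      setIntegral_mono_set hi₂ (ae_restrict_of_ae_restrict_of_subset hsub₂ hg00)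
        (Ioo_subset_Ioo_left htt₀.le).eventuallyLE
    have h2 : ∫ _ in Ioo t t₂, 1 / r t ^ 2 ≤ ∫ τ in Ioo t t₂, g τ := by
      refine setIntegral_mono_ae_restrict (integrableOn_const (by simp))
        (hi₂.mono_set (Ioo_subset_Ioo_left htt₀.le)) ?_
      have hsub₃ : Ioo t t₂ ⊆ Ioo t₀ T := (Ioo_subset_Ioo_left htt₀.le).trans hsub₂
      filter_upwards [ae_restrict_of_ae_restrict_of_subset hsub₃ hg0,
        ae_restrict_mem measurableSet_Ioo] with τ hτ hτI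
      refine le_trans ?_ hτ
      have h3 : τ ∈ Ico t₀ T := Ioo_subset_Ico_self (hsub₃ hτI)
      have h4 : r τ ≤ r t := hr htI' h3 hτI.1.le
      have h5 := (hrp τ h3).1
      exact one_div_le_one_div_of_le (by positivity) (pow_le_pow_left₀ h5.le h4 2)
    have h3 : ∫ _ in Ioo t t₂, 1 / r t ^ 2 = (T - t₂) * (1 / r t ^ 2) := by
      rw [setIntegral_const, Measure.real, Real.volume_Ioo, ENNReal.toReal_ofReal (by linarith),
        smul_eq_mul]
      congr 1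
      rw [ht]
      ring
    linarith
  have hlogs : Real.log (1 / (T - t₂)) ≤ 1 + 16 * (1 / q) := by
    have h1 : 1 / (T - t₂) = 2 * (1 / q) ^ 16 := by
      have h2 : T - t₂ = q ^ 16 / 2 := by
        rw [← hsq, hss]
        ring
      rw [h2]
      field_simp
    rw [h1, Real.log_mul (by norm_num) (by positivity), Real.log_pow]
    have h3 := Real.log_le_self (show 0 ≤ 1 / q by positivity)
    have h4 : Real.log 2 ≤ 1 := by
      have := Real.log_two_lt_d9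
      linarith
    push_cast
    linarith
  have hG₄ : G₂ ≤ Bd / q := by
    have h1 : G₂ ≤ 1 / 16 * (1 + 16 * (1 / q)) + |K| :=
      hle.trans (add_le_add (mul_le_mul_of_nonneg_left hlogs (by norm_num)) (le_abs_self K))
    have h2 : 1 ≤ 1 / q := (one_le_div hq0).2 hq1
    have h4 : |K| * 1 ≤ |K| * (1 / q) := mul_le_mul_of_nonneg_left h2 (abs_nonneg K)
    have h5 : Bd / q = 2 * (1 / q) + |K| * (1 / q) := by
      rw [hBd]
      ring
    linarith
  have hrq : q ^ 9 ≤ r t := by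
    have h1 : (T - t₂) * (1 / r t ^ 2) ≤ Bd / q := hG₃.trans hG₄
    have h2 : T - t₂ = q ^ 16 / 2 := by
      rw [← hsq, hss]
      ring
    rw [h2] at h1
    have h3 : q ^ 16 / 2 * (1 / r t ^ 2) = q ^ 16 / (2 * r t ^ 2) := by
      field_simp
    rw [h3, div_le_div_iff₀ (by positivity) hq0] at h1
    have h4 : q * (2 * Bd) ≤ 1 := by
      rwa [le_div_iff₀ (by positivity)] at hqB
    have h5 : (q ^ 9) ^ 2 ≤ r t ^ 2 := by
      have h6 : q * (q ^ 16 * q) ≤ q * (Bd * (2 * r t ^ 2)) := mul_le_mul_of_nonneg_left h1 hq0.le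
      have h7 : q * (Bd * (2 * r t ^ 2)) = (q * (2 * Bd)) * r t ^ 2 := by ring
      have h8 : (q * (2 * Bd)) * r t ^ 2 ≤ 1 * r t ^ 2 :=
        mul_le_mul_of_nonneg_right h4 (sq_nonneg _)
      calc (q ^ 9) ^ 2 = q * (q ^ 16 * q) := by ring
        _ ≤ _ := h6
        _ = _ := h7
        _ ≤ _ := h8
        _ = _ := one_mul _
    exact (pow_le_pow_iff_left₀ (by positivity) hr0.le two_ne_zero).1 h5
  -- the growth
  have hsub : Ioo T₁ t ⊆ Ioo t₀ T := Ioo_subset_Ioo hT₁0 htI.2.le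
  have hIcc : Icc T₁ t ⊆ Ico t₀ T := fun τ hτ => ⟨hT₁0.trans hτ.1, hτ.2.trans_lt htI.2⟩
  have hgrow := fun x' hx' => grow_loc hκ hLS hR hRn hRO (tr := t₀) (t₀ := T₁) (B := B)
    (ht₀.1.trans_le hT₁0) htT₁ htI.2 (r := r) (g := g) (hr.mono hIcc)
    (fun τ hτ => (hrp τ (hIcc hτ)).1)
    (fun τ hτ x hx hlt => by
      by_contra hcon
      have hrτ := hrp τ (hIcc hτ)
      obtain ⟨y, hy, hyx⟩ := ball_frontier hR.isClosed (by linarith [hrτ.1]) hx hcon
      have h1 : 9 * r τ ≤ δ := by linarith [hrτ.2.trans (min_le_left (δ / 9) 1)]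
      have hτT : τ ∈ Ioo (T - δ) T := ⟨hT₁δ.trans_le hτ.1, (hIcc hτ).2⟩
      have hτ0 : τ ∈ Ioo 0 T := ⟨ht₀.1.trans_le (hIcc hτ).1, (hIcc hτ).2⟩
      have h2 := hB y hy x (ball_subset_ball h1 (by rw [mem_ball, dist_comm]; exact hyx)) τ hτT
      have h3 := (enk_up hκ hrτ.1 (hv τ hτ0) x).trans (ball_mono
        (osq_smooth (hv τ hτ0)).continuous (osq_nonneg _)
        (ball_subset_ball (show r τ ≤ δ by linarith [hrτ.1])))
      linarith)
    (hi₁.mono_set (Ioo_subset_Ioo_left hT₁0))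
    (by
      filter_upwards [ae_restrict_of_ae_restrict_of_subset hsub hcoh,
        ae_restrict_of_ae_restrict_of_subset hsub hg00] with τ hτ hτ0
      exact ⟨hτ0, hτ.2⟩) hM₀ hBM (fun x hx => h0 T₁ (right_mem_Icc.2 hT₁0) x hx)
      (fun s hs x hx => (h0 s (Ioo_subset_Icc_self hs) x hx).le) (x' := x') hx'
  have hexp : Real.exp ((∫ τ in Ioo T₁ t, g τ) + 1) ≤ 2 * Real.exp (|K| + 1) / q := by
    have h1 : (∫ τ in Ioo T₁ t, g τ) + 1 ≤ (|K| + 1) + 1 / 16 * Real.log (1 / (T - t₂)) := by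
      have h2 := hG₁.trans hle
      have h4 : K ≤ |K| := le_abs_self K
      linarith
    have h5 : 1 / 16 * Real.log (1 / (T - t₂)) ≤ Real.log (2 / q) := by
      have h6 : 1 / (T - t₂) = 2 * (1 / q) ^ 16 := by
        have h2 : T - t₂ = q ^ 16 / 2 := by
          rw [← hsq, hss]
          ring
        rw [h2]
        field_simp
      have h7 : 1 / (T - t₂) ≤ (2 / q) ^ 16 := by
        rw [h6]
        have h8 : (2 / q) ^ 16 = 65536 * (1 / q) ^ 16 := by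
          rw [div_eq_mul_one_div, mul_pow]
          norm_num
        rw [h8]
        exact mul_le_mul_of_nonneg_right (by norm_num) (by positivity)
      have h9 : Real.log (1 / (T - t₂)) ≤ Real.log ((2 / q) ^ 16) :=
        Real.log_le_log (by rw [h6]; positivity) h7
      rw [Real.log_pow] at h9
      push_cast at h9
      linarith
    calc _ ≤ Real.exp ((|K| + 1) + Real.log (2 / q)) := Real.exp_le_exp.2 (by linarith)
      _ = _ := by
        rw [Real.exp_add, Real.exp_log (by positivity)]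
        ring
  -- the lower bound
  set ρ := a * min (r t) √s with hρ
  have hsq8 : √s = q ^ 8 := by
    rw [hsq, show q ^ 16 = (q ^ 8) ^ 2 by ring, Real.sqrt_sq (by positivity)]
  have hmin : q ^ 9 ≤ min (r t) √s := by
    refine le_min hrq ?_
    rw [hsq8]
    exact pow_le_pow_of_le_one hq0.le hq1 (by norm_num)
  have hmin0 : 0 < min (r t) √s := lt_of_lt_of_le (by positivity) hmin
  have hρ0 : 0 < ρ := by positivity
  have hρs : ρ ≤ √s := by
    calc ρ ≤ 1 * √s := mul_le_mul ha1 (min_le_right _ _) hmin0.le zero_le_one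
      _ = _ := one_mul _
  obtain ⟨x, hx, hxb, hlt⟩ := hcc ρ hρ0 (by
    calc ρ ^ 3 ≤ √s ^ 3 := pow_le_pow_left₀ hρ0.le hρs 3
      _ = √s ^ 3 * 1 := (mul_one _).symm
      _ ≤ √s ^ 3 * Real.log (1 / s) ^ 2 := by
          refine mul_le_mul_of_nonneg_left (one_le_pow₀ hl1) (by positivity))
  have hxR : x ∈ R := hx₁ (ball_subset_closedBall hx)
  have ets : T - s = t := by
    rw [hs]
    ring
  rw [ets] at hlt
  have hW : ∫ y in ball x ρ, osq (u t) y ≤ K₁ / q := by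
    have h0' : ∫ y in ball x ρ, osq (u t) y ≤ ∫ y in ball x (a * r t), osq (u t) y :=
      ball_mono (osq_smooth (hv t ht0T)).continuous (osq_nonneg _)
        (ball_subset_ball (mul_le_mul_of_nonneg_left (min_le_left _ _) ha.le))
    have h1 := enk_low hκ ha ha1 hlow hr0 (hv t ht0T) x
    have h2 := (h1.trans (hgrow x hxR)).trans (mul_le_mul_of_nonneg_left hexp hM₀.le)
    have h3 : K₁ / q = (M₀ * (2 * Real.exp (|K| + 1) / q)) / a ^ 2 := by
      rw [hK₁]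
      field_simp
    refine h0'.trans ?_
    rw [h3, le_div_iff₀ (by positivity), mul_comm]
    exact h2
  have hfin2 := last_num3 hK₁0.le ha hc hq0 hq1 hsq
    (mul_le_mul_of_nonneg_left hmin ha.le) (by linarith) hW hlt
  have h9 : Q * q < 1 := by
    have h1 : q * (1 + Q) < 1 := by
      rwa [lt_div_iff₀ (by positivity)] at hq2
    linarith
  have h10 : Q * q = 256 * K₁ * q / (c * a ^ 3) := by
    rw [hQ]
    ring
  rw [h10, div_lt_one (by positivity)] at h9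
  linarith

end Pool.Agent.H946.NS
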