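import Pool.Agent.H946_NS.L2

/-!
A criterion in a compact subset of a domain, viscosity one.
-/

set_option autoImplicit false

open MeasureTheory Set Metric Filter Topology
open scoped ContDiff ENNReal

namespace Pool.Agent.H946.NS

open H459R3.NS W221.NS Pool.Agent.W583.MD

variable {κ : V → ℝ}

theorem enk_congr (hκ : Cut κ) {r : ℝ} (hr : 0 < r) {x : V} {v w : V → V}
    (h : ∀ y ∈ ball x r, v y = w y) : enk κ r v x = enk κ r w x := by
  unfold enk
  congr 1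
  refine integral_congr_ae (Eventually.of_forall fun z => ?_)
  by_cases hz : z ∈ ball (0 : V) 1
  · have hy : x + r • z ∈ ball x r := by
      rw [mem_ball_iff_norm, add_sub_cancel_left, norm_smul, Real.norm_of_nonneg hr.le]
      rw [mem_ball_zero_iff] at hz
      nlinarith
    have h1 : v =ᶠ[𝓝 (x + r • z)] w := by
      filter_upwards [isOpen_ball.mem_nhds hy] with y hy
      exact h y hy
    simp only
    rw [osq_congr h1]
  · simp only
    rw [hκ.zero z hz]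
    ring

/-- The condition on the growth: it has to be verified for smooth fields which coincide with the
velocity in a ball. -/
def Gro (κ : V → ℝ) (ν E t₀ T : ℝ) (R : Set V) (u : ℝ → V → V) (r g : ℝ → ℝ)
    (A : ℝ → V → Prop) : Prop :=
  ∀ t ∈ Ioo t₀ T, ∀ x, A t x → ball x (9 * r t) ⊆ R → ∀ v : V → V, ContDiff ℝ ∞ v →
    (∀ y ∈ ball x (9 * r t), v y = ν⁻¹ • u t y) → (∀ y ∈ ball x (9 * r t), dv v y = 0) →
      ∫ y in ball x (9 * r t), nsq v y ≤ (E / ν) ^ 2 →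
        (∀ y ∈ ball x (9 * r t), enk κ (r t) v y ≤ enk κ (r t) v x) →
          Dk κ (r t) x v ≤ g t / ν * enk κ (r t) v x

theorem loc_O1 (hκ : Cut κ) {T E : ℝ} {Ω : Set V} {u : ℝ → V → V} {p : ℝ → V → ℝ}
    (hT : 0 < T) (hu' : OSol 1 T E Ω u p)
    (hfin : ∫⁻ t in Ioo 0 T, ∫⁻ y in Ω, ENNReal.ofReal (gsq (u t) y) ≠ ⊤) {R : Set V}
    (hR : IsCompact R) (hRΩ : R ⊆ Ω) (hreg : ∀ z ∈ frontier R, ¬ Sing T u z)
    (hS : ∃ x ∈ R, Sing T u x) :
    ∃ r₀ : ℝ, 0 < r₀ ∧ ∀ (t₀ K : ℝ) (r g : ℝ → ℝ) (A : ℝ → V → Prop), t₀ ∈ Ioo 0 T →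
      AntitoneOn r (Ico t₀ T) → (∀ t ∈ Ico t₀ T, 0 < r t ∧ r t ≤ r₀) →
      (∀ t ∈ Ioo t₀ T, IntegrableOn g (Ioo t₀ t)) →
      (∀ᵐ t ∂((volume : Measure ℝ).restrict (Ioo t₀ T)), 1 / r t ^ 2 ≤ g t ∧
        ((∀ s ∈ Ioo t₀ t, ∀ y ∈ R, ∃ x ∈ R, enk κ (r s) (u s) y ≤ enk κ (r t) (u t) x) →
          ∃ x ∈ R, (∀ y ∈ R, enk κ (r t) (u t) y ≤ enk κ (r t) (u t) x) ∧ A t x)) →
      Gro κ 1 E t₀ T R u r g A →
      ¬ ∃ᶠ t in 𝓝[<] T, ∫ s in Ioo t₀ t, g s ≤ 1 / 16 * Real.log (1 / (T - t)) + K := by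
  obtain ⟨Cω, hCω, hcount⟩ := omega_all B.p_omega1 B.p_osc
  have hu : OSol 1 T |E| Ω u p :=
    { hu' with en := fun t ht => by rw [sq_abs]; exact hu'.en t ht }
  have hE : 0 ≤ |E| := abs_nonneg E
  obtain ⟨x₁, hx₁R, hx₁S⟩ := hS
  have hx₁i : x₁ ∈ interior R := by
    by_contra hcon
    refine hreg x₁ ?_ hx₁S
    rw [hR.isClosed.frontier_eq]
    exact ⟨hx₁R, hcon⟩
  obtain ⟨ρ, hρ, hρR⟩ := Metric.isOpen_iff.1 isOpen_interior x₁ hx₁i
  set η := ρ / 2 with hη
  have hη0 : 0 < η := by positivity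
  have hηR : closedBall x₁ η ⊆ R :=
    ((closedBall_subset_ball (by linarith)).trans hρR).trans interior_subset
  obtain ⟨ζ, δ, hδ, hζ, hζc, hts, h01, h1, hOΩ⟩ :=
    Pool.Agent.W349.MF.cutoff hR hu.openO hRΩ
  obtain ⟨Bζ, hB0, hB⟩ := Pool.Agent.W349.MF.pd_bd hζ hζc
  set O : Set V := thickening δ R with hO
  have hOo : IsOpen O := isOpen_thickening
  have hRO : R ⊆ O := self_subset_thickening hδ _
  have hL := Pool.Agent.W349.MF.cut_sol hE hu hζ hζc hts h01 hOo hOΩ h1 hB0 hB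
  have heq : ∀ t, ∀ x ∈ O, (fun y => ζ y • u t y) =ᶠ[𝓝 x] u t := by
    intro t x hx
    filter_upwards [hOo.mem_nhds hx] with y hy
    rw [h1 y hy, one_smul]
  have hSiff : ∀ z ∈ O, Sing T (fun t x => ζ x • u t x) z ↔ Sing T u z := by
    intro z hz
    obtain ⟨ρ', hρ', hρO⟩ := Metric.isOpen_iff.1 hOo z hz
    constructor
    · intro h ε hε M
      obtain ⟨t, ht, y, hy, hM⟩ := h (min ε ρ') (lt_min hε hρ') M
      refine ⟨t, ⟨by linarith [ht.1, min_le_left ε ρ'], ht.2⟩, y,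
        ball_subset_ball (min_le_left _ _) hy, ?_⟩
      have hyO : y ∈ O := hρO (ball_subset_ball (min_le_right _ _) hy)
      simp only [h1 y hyO, one_smul] at hM
      exact hM
    · intro h ε hε M
      obtain ⟨t, ht, y, hy, hM⟩ := h (min ε ρ') (lt_min hε hρ') M
      refine ⟨t, ⟨by linarith [ht.1, min_le_left ε ρ'], ht.2⟩, y,
        ball_subset_ball (min_le_left _ _) hy, ?_⟩
      have hyO : y ∈ O := hρO (ball_subset_ball (min_le_right _ _) hy)
      simp only [h1 y hyO, one_smul]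
      exact hM
  have hfin' : ∫⁻ t in Ioo 0 T, ∫⁻ y in O, ENNReal.ofReal (gsq (fun x => ζ x • u t x) y) ≠ ⊤ := by
    refine ne_top_of_le_ne_top hfin (lintegral_mono fun t => ?_)
    have h3 : ∫⁻ y in O, ENNReal.ofReal (gsq (fun x => ζ x • u t x) y) =
        ∫⁻ y in O, ENNReal.ofReal (gsq (u t) y) :=
      setLIntegral_congr_fun hOo.measurableSet fun y hy => by
        simp only [gsq_congr (heq t y hy)]
    rw [h3]
    exact lintegral_mono_set hOΩ
  -- radii without singular points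
  have hrad : ∀ a : ℝ, 0 < a → a ≤ η → ∃ d₀ ∈ Ioo 0 a, ∀ z, dist z x₁ = d₀ →
      ¬ Sing T (fun t x => ζ x • u t x) z := by
    intro a ha haη
    obtain ⟨r₁, hr₁, hcnt⟩ := hcount 1 T |E| Ω u p one_pos hT hE hu _
      (isCompact_closedBall x₁ η) (hηR.trans hRΩ)
    obtain ⟨d₀, hd₀, hd⟩ := radius_exists (Z := {z | z ∈ closedBall x₁ η ∧ Sing T u z}) (by
      intro ε hε
      obtain ⟨r₂, hr₂, H2⟩ := tail_lint (c := 32 / 1) hT (by positivity) hfin
        (ε := ENNReal.ofReal (ε / (Cω / 1))) (ENNReal.ofReal_pos.2 (by positivity))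
      refine ⟨min r₁ r₂, lt_min hr₁ hr₂, ?_⟩
      intro r hr hrr S hSZ hsep
      obtain ⟨ha, hb⟩ := H2 r hr (hrr.trans_le (min_le_right _ _))
      have e : 32 / 1 * r ^ 2 = 32 * r ^ 2 / 1 := by ring
      rw [e] at ha hb
      have h5 := hcnt r hr (hrr.trans_le (min_le_left _ _)) S hSZ hsep
      have h6 := h5.trans (mul_le_mul_right hb _)
      rw [← ENNReal.ofReal_mul (by positivity)] at h6
      have h7 : Cω / 1 * (ε / (Cω / 1)) = ε := by field_simp
      rw [h7] at h6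
      exact (ENNReal.ofReal_le_ofReal_iff hε.le).1 h6) x₁ ha
    refine ⟨d₀, hd₀, fun z hz hzS => ?_⟩
    have hzK : z ∈ closedBall x₁ η := by
      rw [mem_closedBall, hz]
      exact hd₀.2.le.trans haη
    exact hd z ⟨hzK, (hSiff z (hRO (hηR hzK))).1 hzS⟩ hz
  obtain ⟨r₀, hr₀, key⟩ := loc_one hκ hT (by positivity) hE hL hfin' hR hRO
    (fun z hz hzS => hreg z hz ((hSiff z (hRO (hR.isClosed.frontier_subset hz))).1 hzS))
    hη0 hηR ((hSiff x₁ (hRO hx₁R)).2 hx₁S) hrad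
  refine ⟨min r₀ (δ / 9), lt_min hr₀ (by positivity), ?_⟩
  intro t₀ K r g A ht₀ hr hrp hint hcoh hA
  have hball : ∀ t ∈ Ico t₀ T, ∀ x ∈ R, ball x (9 * r t) ⊆ O := by
    intro t ht x hx y hy
    rw [hO, mem_thickening_iff]
    refine ⟨x, hx, ?_⟩
    rw [mem_ball] at hy
    linarith [(hrp t ht).2.trans (min_le_right r₀ (δ / 9))]
  have henk : ∀ t ∈ Ico t₀ T, ∀ x ∈ R,
      enk κ (r t) (fun y => ζ y • u t y) x = enk κ (r t) (u t) x := by
    intro t ht x hx
    refine enk_congr hκ (hrp t ht).1 fun y hy => ?_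
    have hyO : y ∈ O := hball t ht x hx (ball_subset_ball (by linarith [(hrp t ht).1]) hy)
    rw [h1 y hyO, one_smul]
  refine key t₀ K r g ht₀ hr (fun t ht => ⟨(hrp t ht).1, (hrp t ht).2.trans (min_le_left _ _)⟩)
    hint ?_
  filter_upwards [hcoh, ae_restrict_mem measurableSet_Ioo] with t ht htI
  have htI' : t ∈ Ico t₀ T := Ioo_subset_Ico_self htI
  have ht0 : t ∈ Ioo 0 T := ⟨ht₀.1.trans htI.1, htI.2⟩
  refine ⟨ht.1, fun hrec => ?_⟩
  obtain ⟨x, hxR, hmax, hAx⟩ := ht.2 (by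
    intro s hs y hy
    obtain ⟨x, hx, hle⟩ := hrec s hs y hy
    have hsI : s ∈ Ico t₀ T := ⟨hs.1.le, hs.2.trans htI.2⟩
    rw [henk s hsI y hy, henk t htI' x hx] at hle
    exact ⟨x, hx, hle⟩)
  refine ⟨x, hxR, fun y hy => ?_, fun hxb => ?_⟩
  · rw [henk t htI' y hy, henk t htI' x hxR]
    exact hmax y hy
  · have hsm : ContDiff ℝ ∞ (fun y => ζ y • u t y) :=
      W382.ME.cd_slice (u := fun t x => ζ x • u t x) hL.smooth_u ht0
    have hgr := hA t htI x hAx hxb (fun y => ζ y • u t y) hsm (fun y hy => by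
      rw [h1 y (hRO (hxb hy)), inv_one])
      (fun y hy => hL.divfree t ht0 y (hRO (hxb hy))) (by
        have e1 : ∫ y in ball x (9 * r t), nsq (fun y => ζ y • u t y) y
            = ∫ y in ball x (9 * r t), nsq (u t) y := by
          refine setIntegral_congr_fun measurableSet_ball fun y hy => ?_
          simp only [nsq, h1 y (hRO (hxb hy)), one_smul]
        rw [e1, div_one]
        exact (setIntegral_mono_set (hu'.en_int t ht0)
          (Eventually.of_forall fun y => nsq_nonneg _ y)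
          (hxb.trans hRΩ).eventuallyLE).trans (hu'.en t ht0))
      (fun y hy => by
        have hyR : y ∈ R := hxb hy
        rw [henk t htI' y hyR, henk t htI' x hxR]
        exact hmax y hyR)
    rwa [div_one] at hgr

end Pool.Agent.H946.NS
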