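import Pool.Agent.H946_NS.L3

/-!
A criterion in a compact subset of a domain, general viscosity.
-/

set_option autoImplicit false

open MeasureTheory Set Metric Filter Topology
open scoped ContDiff ENNReal

namespace Pool.Agent.H946.NS

open H459R3.NS W221.NS Pool.Agent.W583.MD

variable {κ : V → ℝ}

theorem sing_scale {T ν : ℝ} (hν : 0 < ν) {u : ℝ → V → V} {x₀ : V} :
    Sing (ν * T) (fun t x => ν⁻¹ • u (t / ν) x) x₀ ↔ Sing T u x₀ := by
  constructor
  · intro h δ hδ M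
    obtain ⟨t, ht, y, hy, hM⟩ := h (min δ (δ * ν)) (lt_min hδ (by positivity)) (ν⁻¹ * M)
    refine ⟨t / ν, ⟨?_, ?_⟩, y, ball_subset_ball (min_le_left _ _) hy, ?_⟩
    · rw [lt_div_iff₀ hν]
      have := min_le_right δ (δ * ν)
      nlinarith [ht.1]
    · rw [div_lt_iff₀ hν]
      linarith [ht.2]
    · rw [norm_smul, Real.norm_eq_abs, abs_of_pos (by positivity)] at hM
      exact lt_of_mul_lt_mul_left hM (by positivity)
  · intro h δ hδ M
    obtain ⟨t, ht, y, hy, hM⟩ := h (min δ (δ / ν)) (lt_min hδ (by positivity)) (ν * M)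
    refine ⟨ν * t, ⟨?_, ?_⟩, y, ball_subset_ball (min_le_left _ _) hy, ?_⟩
    · have h3 : T - δ / ν < t := by linarith [ht.1, min_le_right δ (δ / ν)]
      have h4 : ν * (T - δ / ν) < ν * t := mul_lt_mul_of_pos_left h3 hν
      have h5 : ν * (T - δ / ν) = ν * T - δ := by field_simp
      linarith
    · exact mul_lt_mul_of_pos_left ht.2 hν
    · have e : ν * t / ν = t := by field_simp
      simp only [e]
      rw [norm_smul, Real.norm_eq_abs, abs_of_pos (by positivity), inv_mul_eq_div,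
        lt_div_iff₀ hν, mul_comm]
      exact hM

theorem loc_nu (hκ : Cut κ) {ν T E : ℝ} {Ω : Set V} {u : ℝ → V → V} {p : ℝ → V → ℝ}
    (hν : 0 < ν) (hT : 0 < T) (hu : OSol ν T E Ω u p)
    (hfin : ∫⁻ t in Ioo 0 T, ∫⁻ y in Ω, ENNReal.ofReal (gsq (u t) y) ≠ ⊤) {R : Set V}
    (hR : IsCompact R) (hRΩ : R ⊆ Ω) (hreg : ∀ z ∈ frontier R, ¬ Sing T u z)
    (hS : ∃ x ∈ R, Sing T u x) :
    ∃ r₀ : ℝ, 0 < r₀ ∧ ∀ (t₀ K : ℝ) (r g : ℝ → ℝ) (A : ℝ → V → Prop), t₀ ∈ Ioo 0 T →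
      AntitoneOn r (Ico t₀ T) → (∀ t ∈ Ico t₀ T, 0 < r t ∧ r t ≤ r₀) →
      (∀ t ∈ Ioo t₀ T, IntegrableOn g (Ioo t₀ t)) →
      (∀ᵐ t ∂((volume : Measure ℝ).restrict (Ioo t₀ T)), ν / r t ^ 2 ≤ g t ∧
        ((∀ s ∈ Ioo t₀ t, ∀ y ∈ R, ∃ x ∈ R, loc κ (r s) (u s) y ≤ loc κ (r t) (u t) x) →
          ∃ x ∈ R, (∀ y ∈ R, loc κ (r t) (u t) y ≤ loc κ (r t) (u t) x) ∧ A t x)) →
      Gro κ ν E t₀ T R u r g A →
      ¬ ∃ᶠ t in 𝓝[<] T, ∫ s in Ioo t₀ t, g s ≤ 1 / 16 * Real.log (1 / (T - t)) + K := by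
  have h2 := B.p_osc ν T E Ω u p hν hu
  have hfin' : ∫⁻ t in Ioo 0 (ν * T), ∫⁻ y in Ω,
      ENNReal.ofReal (gsq (fun x => ν⁻¹ • u (t / ν) x) y) ≠ ⊤ := by
    have e1 : ∀ t, ∫⁻ y in Ω, ENNReal.ofReal (gsq (fun x => ν⁻¹ • u (t / ν) x) y)
        = ENNReal.ofReal (ν⁻¹ ^ 2) * ∫⁻ y in Ω, ENNReal.ofReal (gsq (u (t / ν)) y) := by
      intro t
      rw [← lintegral_const_mul' _ _ ENNReal.ofReal_ne_top]
      refine lintegral_congr fun y => ?_
      rw [W221.NS.gsq_smul, ENNReal.ofReal_mul (by positivity)]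
    simp_rw [e1]
    rw [lintegral_const_mul' _ _ ENNReal.ofReal_ne_top]
    refine ENNReal.mul_ne_top ENNReal.ofReal_ne_top ?_
    have h3 := lint_scale hν (fun t => ∫⁻ y in Ω, ENNReal.ofReal (gsq (u t) y)) 0 T
    rw [mul_zero] at h3
    rw [h3]
    exact ENNReal.mul_ne_top ENNReal.ofReal_ne_top hfin
  obtain ⟨xs, hxs, hxsS⟩ := hS
  obtain ⟨r₀, hr₀, key⟩ := loc_O1 hκ (by positivity) h2 hfin' hR hRΩ
    (fun z hz hzS => hreg z hz ((sing_scale hν).1 hzS)) ⟨xs, hxs, (sing_scale hν).2 hxsS⟩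
  refine ⟨r₀, hr₀, ?_⟩
  intro t₀ K r g A ht₀ hr hrp hint hcoh hA hfreq
  have hback : ∀ s, s ∈ Ico (ν * t₀) (ν * T) → s / ν ∈ Ico t₀ T := by
    intro s hs
    constructor
    · rw [le_div_iff₀ hν]
      linarith [hs.1]
    · rw [div_lt_iff₀ hν]
      linarith [hs.2]
  have hback' : ∀ s, s ∈ Ioo (ν * t₀) (ν * T) → s / ν ∈ Ioo t₀ T := by
    intro s hs
    constructor
    · rw [lt_div_iff₀ hν]
      linarith [hs.1]
    · rw [div_lt_iff₀ hν]
      linarith [hs.2]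
  have hII : ∀ t ∈ Ioo t₀ T, IntervalIntegrable g volume t₀ t := fun t ht =>
    (intervalIntegrable_iff_integrableOn_Ioo_of_le ht.1.le).2 (hint t ht)
  have hsubI : ∀ s ∈ Ioo (ν * t₀) (ν * T), Ioo (ν * t₀) s ⊆ Ioo (ν * t₀) (ν * T) := fun s hs =>
    Ioo_subset_Ioo_right hs.2.le
  refine key (ν * t₀) (K + 1 / 16 * |Real.log ν|) (fun s => r (s / ν)) (fun s => ν⁻¹ * g (s / ν))
    (fun s x => A (s / ν) x) ⟨mul_pos hν ht₀.1, mul_lt_mul_of_pos_left ht₀.2 hν⟩ ?_ ?_ ?_ ?_ ?_ ?_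
  · intro s hs s' hs' hss
    exact hr (hback s hs) (hback s' hs') (div_le_div_of_nonneg_right hss hν.le)
  · intro s hs
    exact hrp (s / ν) (hback s hs)
  · intro s hs
    have hs' := hback' s hs
    have h3 := hII _ hs'
    have h4 := h3.comp_mul_left (c := ν⁻¹)
    have e1 : t₀ / ν⁻¹ = ν * t₀ := by field_simp
    have e2 : s / ν / ν⁻¹ = s := by field_simp
    rw [e1, e2] at h4
    have h5 := (intervalIntegrable_iff_integrableOn_Ioo_of_le hs.1.le).1 h4
    refine IntegrableOn.congr_fun (h5.const_mul ν⁻¹) (fun τ hτ => ?_) measurableSet_Ioo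
    rw [inv_mul_eq_div ν τ]
  · rw [ae_restrict_iff' measurableSet_Ioo] at hcoh ⊢
    have hqm : Measure.QuasiMeasurePreserving (fun s : ℝ => ν⁻¹ * s) volume volume := by
      refine ⟨by fun_prop, ?_⟩
      rw [Real.map_volume_mul_left (by positivity)]
      exact Measure.smul_absolutelyContinuous
    filter_upwards [hqm.ae hcoh] with s hs hsI
    rw [inv_mul_eq_div] at hs
    obtain ⟨h3, h56⟩ := hs (hback' s hsI)
    have hrr := (hrp _ (Ioo_subset_Ico_self (hback' s hsI))).1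
    have h7 : 0 < ν⁻¹ ^ 2 := by positivity
    refine ⟨?_, fun hrec => ?_⟩
    · calc 1 / r (s / ν) ^ 2 = ν⁻¹ * (ν / r (s / ν) ^ 2) := by field_simp
        _ ≤ ν⁻¹ * g (s / ν) := mul_le_mul_of_nonneg_left h3 (by positivity)
    obtain ⟨x, hxR, h5, h6⟩ := h56 (by
      intro τ hτ y hy
      have hτI : ν * τ ∈ Ioo (ν * t₀) s := by
        refine ⟨mul_lt_mul_of_pos_left hτ.1 hν, ?_⟩
        have := hτ.2
        rwa [lt_div_iff₀ hν, mul_comm] at this
      obtain ⟨x, hxR, hx⟩ := hrec (ν * τ) hτI y hy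
      refine ⟨x, hxR, ?_⟩
      have e : ν * τ / ν = τ := by field_simp
      have hττ : τ ∈ Ico t₀ T := ⟨hτ.1.le, hτ.2.trans (hback' s hsI).2⟩
      simp only [e] at hx
      rw [enk_smul, enk_smul, enk_loc hrr, enk_loc (hrp τ hττ).1] at hx
      have h8 : 2 * loc κ (r τ) (u τ) y ≤ 2 * loc κ (r (s / ν)) (u (s / ν)) x :=
        le_of_mul_le_mul_left hx h7
      linarith)
    refine ⟨x, hxR, fun y hy => ?_, h6⟩
    rw [enk_smul, enk_smul, enk_loc hrr, enk_loc hrr]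
    have := h5 y hy
    nlinarith
  · intro t ht x hAx hb v hv hvu hdv hen hmax
    have h3 := hA (t / ν) (hback' t ht) x hAx hb v hv (fun y hy => by
      rw [hvu y hy, inv_one, one_smul]) hdv (by rwa [div_one] at hen) hmax
    have e : ν⁻¹ * g (t / ν) / 1 = g (t / ν) / ν := by
      rw [div_one, inv_mul_eq_div]
    simp only [e]
    exact h3
  · -- the frequency
    have htend : Tendsto (fun t : ℝ => ν * t) (𝓝[<] T) (𝓝[<] (ν * T)) := by
      refine tendsto_nhdsWithin_iff.2 ⟨?_, ?_⟩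
      · exact ((continuous_const.mul continuous_id).tendsto T).mono_left nhdsWithin_le_nhds
      · filter_upwards [self_mem_nhdsWithin] with t ht
        exact mul_lt_mul_of_pos_left ht hν
    refine htend.frequently ?_
    have hev : ∀ᶠ t in 𝓝[<] T, t ∈ Ioo t₀ T := Ioo_mem_nhdsLT ht₀.2
    refine (hfreq.and_eventually hev).mono ?_
    rintro t ⟨hle, htI⟩
    have h7 : ∫ s in Ioo (ν * t₀) (ν * t), ν⁻¹ * g (s / ν) = ∫ s in Ioo t₀ t, g s := by
      rw [← integral_Ioc_eq_integral_Ioo, ← integral_Ioc_eq_integral_Ioo,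
        ← intervalIntegral.integral_of_le (mul_le_mul_of_nonneg_left htI.1.le hν.le),
        ← intervalIntegral.integral_of_le htI.1.le, intervalIntegral.integral_const_mul,
        intervalIntegral.integral_comp_div (f := g) hν.ne', smul_eq_mul]
      have e1 : ν * t₀ / ν = t₀ := by field_simp
      have e2 : ν * t / ν = t := by field_simp
      rw [e1, e2]
      field_simp
    rw [h7]
    have hTt : 0 < T - t := by linarith [htI.2]
    have h8 : Real.log (1 / (ν * T - ν * t)) = Real.log (1 / (T - t)) - Real.log ν := by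
      rw [← mul_sub, one_div, one_div, mul_inv, Real.log_mul (by positivity) (by positivity),
        Real.log_inv]
      ring
    rw [h8]
    have h9 : 1 / 16 * Real.log ν ≤ 1 / 16 * |Real.log ν| :=
      mul_le_mul_of_nonneg_left (le_abs_self _) (by norm_num)
    linarith

end Pool.Agent.H946.NS
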