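import Pool.Agent.H946_NS.Evo2
import Pool.Agent.W221.NS.Asm2

/-!
The local proposition: the localised enstrophies stay bounded as long as they are bounded on a
shell.
-/

set_option autoImplicit false

open MeasureTheory Set Metric Filter Topology
open scoped ContDiff

namespace Pool.Agent.H946.NS

open H459R3.NS W221.NS

/-- A continuous function on a compact set reaches a level at a first time. -/
theorem barrier {t₀ T : ℝ} {R : Set V} (hR : IsCompact R) {e : ℝ × V → ℝ}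
    (he : ContinuousOn e (Ico t₀ T ×ˢ R)) {m : ℝ} (h0 : ∀ x ∈ R, e (t₀, x) < m)
    (hex : ∃ t ∈ Ico t₀ T, ∃ x ∈ R, m ≤ e (t, x)) :
    ∃ t₁ ∈ Ioo t₀ T, ∃ x₁ ∈ R, m ≤ e (t₁, x₁) ∧ ∀ t ∈ Ico t₀ t₁, ∀ x ∈ R, e (t, x) < m := by
  obtain ⟨t', ht', x', hx', hm'⟩ := hex
  have hK : IsCompact (Icc t₀ t' ×ˢ R) := isCompact_Icc.prod hR
  have hsub : Icc t₀ t' ×ˢ R ⊆ Ico t₀ T ×ˢ R := by
    rintro ⟨t, x⟩ ⟨ht, hx⟩
    exact ⟨⟨ht.1, ht.2.trans_lt ht'.2⟩, hx⟩
  have hA : IsCompact ((Icc t₀ t' ×ˢ R) ∩ e ⁻¹' Ici m) :=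
    hK.of_isClosed_subset ((he.mono hsub).preimage_isClosed_of_isClosed hK.isClosed isClosed_Ici)
      inter_subset_left
  obtain ⟨⟨t₁, x₁⟩, hq, hmin⟩ := hA.exists_isMinOn ⟨(t', x'), ⟨⟨⟨ht'.1, le_rfl⟩, hx'⟩, hm'⟩⟩
    (continuous_fst.continuousOn (s := (Icc t₀ t' ×ˢ R) ∩ e ⁻¹' Ici m))
  have h1 : m ≤ e (t₁, x₁) := hq.2
  have h2 : t₀ ≠ t₁ := by
    rintro rfl
    exact absurd h1 (not_le.2 (h0 x₁ hq.1.2))
  refine ⟨t₁, ⟨lt_of_le_of_ne hq.1.1.1 h2, hq.1.1.2.trans_lt ht'.2⟩, x₁, hq.1.2, h1, ?_⟩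
  intro t ht x hx
  by_contra hcon
  have h3 : (t, x) ∈ (Icc t₀ t' ×ˢ R) ∩ e ⁻¹' Ici m :=
    ⟨⟨⟨ht.1, ht.2.le.trans hq.1.1.2⟩, hx⟩, not_lt.1 hcon⟩
  have h4 : t₁ ≤ t := hmin h3
  exact absurd h4 (not_le.2 ht.2)

/-- Integrals of the squares of the derivatives of the mollifier. -/
noncomputable def K3 : ℝ := ∑ k, ∫ z in ball (0 : V) 1, pd k et z ^ 2

theorem K3_nonneg : 0 ≤ K3 := Finset.sum_nonneg fun _ _ => integral_nonneg fun _ => sq_nonneg _

theorem K3_le (k : Fin 3) : ∫ z in ball (0 : V) 1, pd k et z ^ 2 ≤ K3 :=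
  Finset.single_le_sum (f := fun k => ∫ z in ball (0 : V) 1, pd k et z ^ 2)
    (fun _ _ => integral_nonneg fun _ => sq_nonneg _) (Finset.mem_univ k)

/-- The mollified gradient at a fixed scale is bounded by the energy. -/
theorem top_bound {v : V → V} (hv : ContDiff ℝ ∞ v) (hi : Integrable (nsq v)) {E : ℝ}
    (hE0 : 0 ≤ E) (hE : ∫ x, nsq v x ≤ E ^ 2) {d : ℝ} (hd : 0 < d) (x : V) (k j : Fin 3) :
    |kv et d (pd k (fun y => v y j)) x| ≤ √K3 * (E / (d * √(d ^ 3))) := by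
  have h1 := kv_ibp ker_et (sm_comp hv j) d k x
  have h2 := kv_sq (ker_et.pd k) (sm_comp hv j).continuous d x
  have h3 : ∫ z in ball (0 : V) 1, v (x + d • z) j ^ 2 ≤ (d ^ 3)⁻¹ * E ^ 2 := by
    have h4 := cov' (fun y => v y j ^ 2) x (r := d) (ρ := 1) hd
    rw [h4]
    refine mul_le_mul_of_nonneg_left ?_ (by positivity)
    have h5 : ∫ y in ball x (d * 1), v y j ^ 2 ≤ ∫ y in ball x (d * 1), nsq v y := by
      refine setIntegral_mono (int_ball ((sm_comp hv j).continuous.pow 2) _ _)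
        (int_ball (nsq_smooth hv).continuous _ _) fun y => ?_
      exact Finset.single_le_sum (f := fun j => v y j ^ 2) (fun _ _ => sq_nonneg _)
        (Finset.mem_univ j)
    refine h5.trans (le_trans ?_ hE)
    exact setIntegral_le_integral hi (Eventually.of_forall fun y => nsq_nonneg v y)
  have h6 : kv (pd k et) d (fun y => v y j) x ^ 2 ≤ K3 * ((d ^ 3)⁻¹ * E ^ 2) :=
    h2.trans (mul_le_mul (K3_le k) h3 (integral_nonneg fun _ => sq_nonneg _) K3_nonneg)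
  have h7 : |kv (pd k et) d (fun y => v y j) x| ≤ √K3 * (E / √(d ^ 3)) := by
    refine Real.abs_le_sqrt h6 |>.trans (le_of_eq ?_)
    rw [Real.sqrt_mul K3_nonneg, Real.sqrt_mul (by positivity), Real.sqrt_sq hE0, Real.sqrt_inv]
    ring
  rw [h1, abs_neg, abs_mul, abs_of_pos hd] at h7
  have hs : 0 < √(d ^ 3) := Real.sqrt_pos.2 (by positivity)
  calc |kv et d (pd k (fun y => v y j)) x|
      = (d * |kv et d (pd k (fun y => v y j)) x|) / d := by field_simp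
    _ ≤ (√K3 * (E / √(d ^ 3))) / d := div_le_div_of_nonneg_right h7 hd.le
    _ = _ := by
        field_simp

/-- The bound for a function of one variable. -/
theorem mvt_up {f f' : ℝ → ℝ} {a b K : ℝ} (hab : a ≤ b) (hf : ContinuousOn f (Icc a b))
    (hd : ∀ t ∈ Ioo a b, HasDerivAt f (f' t) t) (hK : ∀ t ∈ Ioo a b, f' t ≤ K) :
    f b - f a ≤ K * (b - a) := by
  have h := (convex_Icc a b).image_sub_le_mul_sub_of_deriv_le (f := f) (C := K) hf
    (fun t ht => by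
      rw [interior_Icc] at ht
      exact (hd t ht).differentiableAt.differentiableWithinAt)
    (fun t ht => by
      rw [interior_Icc] at ht
      rw [(hd t ht).deriv]
      exact hK t ht) a (left_mem_Icc.2 hab) b (right_mem_Icc.2 hab) hab
  exact h

theorem lp_num {A b Y M : ℝ} (hA : 1 ≤ A) (hb : 0 ≤ b) (hY : 0 ≤ Y) (hM : 0 ≤ M) :
    2 * b + A * Y * (2 * M) + (2 * M) ^ 3 ≤ 8 * A * (b + Y * M + M ^ 3) := by
  have h1 : 0 ≤ (A - 1) * b := mul_nonneg (sub_nonneg.2 hA) hb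
  have h2 : 0 ≤ (A - 1) * M ^ 3 := mul_nonneg (sub_nonneg.2 hA) (by positivity)
  have h3 : 0 ≤ A * (Y * M) := mul_nonneg (by linarith) (mul_nonneg hY hM)
  nlinarith

/-- The local proposition. -/
theorem local_prop : ∃ C : ℝ, 1 ≤ C ∧ ∀ (T κ E : ℝ) (O : Set V) (u : ℝ → V → V)
    (p : ℝ → V → ℝ), 0 ≤ κ → 0 ≤ E → LSol T κ E O u p → ∀ (x₀ : V) (d₀ d r t₀ M : ℝ),
      closedBall x₀ d₀ ⊆ O → 0 < d → 4 * d ≤ d₀ → 0 < r → 3 * r ≤ d → t₀ ∈ Ioo 0 T → 0 < M →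
      (T - t₀) * (C * E / √(r ^ 3)) ≤ d →
      (∀ t ∈ Ioo t₀ T, ∀ x, d₀ - 4 * d ≤ dist x x₀ → dist x x₀ ≤ d₀ → en r (u t) x < 2 * M) →
      (∀ x ∈ closedBall x₀ d₀, en r (u t₀) x ≤ M) →
      (T - t₀) * (C * (M / r ^ 2 + (E / (d * √(d ^ 3)) + √(M / r ^ 3) * Real.log (d / r)) * M
        + M ^ 3)) < M →
      ∀ t ∈ Ico t₀ T, ∀ x ∈ closedBall x₀ d₀, en r (u t) x < 2 * M := by
  obtain ⟨C₁, hC₁, hP⟩ := en_path
  obtain ⟨C₂, hC₂, hMo⟩ := B.p_moll2
  set A : ℝ := √K3 + 24 * √K2 + 1 with hA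
  have hA1 : 1 ≤ A := by
    have := Real.sqrt_nonneg K3
    have := Real.sqrt_nonneg K2
    linarith
  have h1A : 8 * C₁ ≤ 8 * C₁ * A := by nlinarith
  refine ⟨8 * C₁ * A + C₂, by nlinarith, ?_⟩
  intro T κ E O u p hκ hE hL x₀ d₀ d r t₀ M hO hd hdd hr hrd ht₀ hM hdis hsh h0 hM3
  by_contra hcon
  push Not at hcon
  obtain ⟨t', ht', x', hx', hm'⟩ := hcon
  have hcont := en_cont hL.smooth_u r
  have hIco : Ico t₀ T ⊆ Ioo 0 T := fun t ht => ⟨ht₀.1.trans_le ht.1, ht.2⟩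
  obtain ⟨t₁, ht₁, x₁, hx₁, hm₁, hlt⟩ := barrier (t₀ := t₀) (T := T) (isCompact_closedBall x₀ d₀)
    (e := fun q : ℝ × V => en r (u q.1) q.2) (m := 2 * M)
    (hcont.mono (prod_mono hIco (subset_univ _)))
    (fun x hx => by
      have := h0 x hx
      simp only
      linarith) ⟨t', ht', x', hx', hm'⟩
  simp only at hm₁ hlt
  -- the point is not in the shell
  have hx₁' : dist x₁ x₀ < d₀ - 4 * d := by
    by_contra hc
    have := hsh t₁ ht₁ x₁ (not_lt.1 hc) hx₁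
    linarith
  -- the flow
  have hM2 : (0 : ℝ) < 2 * M := by positivity
  obtain ⟨L, hG⟩ := hMo T κ E O u p hκ hE hL r hr
  obtain ⟨X, hX⟩ := B.p_flowx2 T _ _ _ _ hG t₀ t₁ ht₀.1 ht₁.1 ht₁.2
  have hsub : Ioo t₀ t₁ ⊆ Ioo 0 T := Ioo_subset_Ioo ht₀.1.le ht₁.2.le
  have hV : ∀ t ∈ Ioo t₀ t₁, ∀ x, ‖mol r u t x‖ ≤ C₂ * E / √(r ^ 3) := fun t ht x =>
    hG.bd t (hsub ht) x
  have hs3 : 0 < √(r ^ 3) := Real.sqrt_pos.2 (by positivity)
  have hdis2 : C₂ * E / √(r ^ 3) * (t₁ - t₀) ≤ d := by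
    refine le_trans ?_ hdis
    have hTt : 0 ≤ T - t₀ := by linarith [ht₁.1, ht₁.2]
    have h1 : C₂ * E / √(r ^ 3) ≤ (8 * C₁ * A + C₂) * E / √(r ^ 3) := by
      have : 0 ≤ 8 * C₁ * A := by positivity
      gcongr
      linarith
    have h2 : 0 ≤ C₂ * E / √(r ^ 3) := by positivity
    calc C₂ * E / √(r ^ 3) * (t₁ - t₀) ≤ C₂ * E / √(r ^ 3) * (T - t₀) :=
          mul_le_mul_of_nonneg_left (by linarith [ht₁.2]) h2
      _ ≤ (8 * C₁ * A + C₂) * E / √(r ^ 3) * (T - t₀) := mul_le_mul_of_nonneg_right h1 hTt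
      _ = _ := by ring
  have hfin : X t₁ x₁ = x₁ := hX.fin x₁
  have hpc : ContinuousOn (fun τ => X τ x₁) (Icc t₀ t₁) :=
    hX.cont.comp (f := fun τ : ℝ => (τ, x₁)) (by fun_prop) (fun τ hτ => ⟨hτ, mem_univ _⟩)
  have hmove : ∀ t ∈ Ioo t₀ t₁, dist (X t x₁) x₁ ≤ d := by
    intro t ht
    have h1 := W382.ME.speed hX hV ht x₁
    rw [hfin, ← dist_eq_norm, dist_comm] at h1
    refine h1.trans (le_trans ?_ hdis2)
    refine mul_le_mul_of_nonneg_left (by linarith [ht.1]) ?_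
    positivity
  have hmove0 : dist (X t₀ x₁) x₁ ≤ d := by
    have h1 : ContinuousWithinAt (fun τ => X τ x₁) (Ioo t₀ t₁) t₀ :=
      (hpc t₀ (left_mem_Icc.2 ht₁.1.le)).mono Ioo_subset_Icc_self
    have h2 : t₀ ∈ closure (Ioo t₀ t₁) := by
      rw [closure_Ioo ht₁.1.ne]
      exact left_mem_Icc.2 ht₁.1.le
    have h3 : X t₀ x₁ ∈ closure ((fun τ => X τ x₁) '' Ioo t₀ t₁) := h1.mem_closure_image h2
    have h4 : closure ((fun τ => X τ x₁) '' Ioo t₀ t₁) ⊆ closedBall x₁ d := by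
      refine closure_minimal ?_ isClosed_closedBall
      rintro _ ⟨t, ht, rfl⟩
      exact hmove t ht
    exact h4 h3
  -- the estimate of the derivative
  set S : ℝ := A * (E / (d * √(d ^ 3)) + √(M / r ^ 3) * Real.log (d / r)) with hS
  have hrd' : r ≤ d := by linarith
  have hlog : 0 ≤ Real.log (d / r) := Real.log_nonneg ((one_le_div hr).2 hrd')
  have hsd : 0 < √(d ^ 3) := Real.sqrt_pos.2 (by positivity)
  have hS0 : 0 ≤ S := by positivity
  have hder : ∀ t ∈ Ioo t₀ t₁, ∃ D : ℝ, HasDerivAt (fun s => en r (u s) (X s x₁)) D t ∧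
      D ≤ C₁ * (2 * M / r ^ 2 + S * (2 * M) + (2 * M) ^ 3) := by
    intro t ht
    have htT := hsub ht
    have hv : ContDiff ℝ ∞ (u t) := W382.ME.cd_slice hL.smooth_u htT
    have hmt := hmove t ht
    have hin : ∀ w, dist w (X t x₁) < 3 * d → w ∈ closedBall x₀ d₀ := by
      intro w hw
      rw [mem_closedBall]
      have := dist_triangle w (X t x₁) x₀
      have := dist_triangle (X t x₁) x₁ x₀
      linarith
    refine hP T O u p (LS.of_LSol hL) r t₀ t₁ hr ht₀.1.le ht₁.2.le (fun τ => X τ x₁)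
      (hX.smooth x₁) t ht (hX.ode x₁ t ht) ?_ (2 * M) S ?_ hS0 ?_
    · intro w hw
      exact hO (hin w (by rw [mem_ball] at hw; linarith))
    · intro w hw
      exact (hlt t ⟨ht.1.le, ht.2⟩ w (hin w (by rw [mem_ball] at hw; linarith))).le
    · intro y hy k j
      rw [mem_ball] at hy
      have h1 := grad_log hv (x := y) (r := r) (d := d) (M := 2 * M) hr hrd'
        (fun z hz => by
          rw [mem_ball] at hz
          refine hL.divfree t htT z (hO (hin z ?_))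
          have := dist_triangle z y (X t x₁)
          linarith)
        (fun w hw => by
          rw [mem_ball] at hw
          refine (le_en hr hv w).trans (hlt t ⟨ht.1.le, ht.2⟩ w (hin w ?_)).le
          have := dist_triangle w y (X t x₁)
          linarith) k j
      have h2 := top_bound hv (hL.en_int t htT) hE (hL.en t htT) hd y k j
      refine h1.trans ((add_le_add_left h2 _).trans ?_)
      have h3 : √(2 * M / r ^ 3) ≤ 2 * √(M / r ^ 3) := by
        have e : 2 * M / r ^ 3 = 2 * (M / r ^ 3) := by ring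
        rw [e, Real.sqrt_mul (by norm_num)]
        have h4 : √(2 : ℝ) ≤ 2 := by
          rw [Real.sqrt_le_left (by norm_num)]
          norm_num
        exact mul_le_mul_of_nonneg_right h4 (Real.sqrt_nonneg _)
      have hk2 := Real.sqrt_nonneg K2
      have hk3 := Real.sqrt_nonneg K3
      have h5 : 12 * √K2 * √(2 * M / r ^ 3) * Real.log (d / r)
          ≤ 24 * √K2 * (√(M / r ^ 3) * Real.log (d / r)) := by
        have h6 : 12 * √K2 * √(2 * M / r ^ 3) ≤ 12 * √K2 * (2 * √(M / r ^ 3)) :=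
          mul_le_mul_of_nonneg_left h3 (by positivity)
        calc 12 * √K2 * √(2 * M / r ^ 3) * Real.log (d / r)
            ≤ 12 * √K2 * (2 * √(M / r ^ 3)) * Real.log (d / r) :=
              mul_le_mul_of_nonneg_right h6 hlog
          _ = _ := by ring
      have ha : 0 ≤ E / (d * √(d ^ 3)) := by positivity
      have hb : 0 ≤ √(M / r ^ 3) * Real.log (d / r) := by positivity
      rw [hS, hA]
      nlinarith
  choose! D hD hDle using hder
  have hφc : ContinuousOn (fun s => en r (u s) (X s x₁)) (Icc t₀ t₁) :=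
    hcont.comp (f := fun s : ℝ => ((s, X s x₁) : ℝ × V)) (continuousOn_id.prodMk hpc)
      (fun s hs => ⟨⟨ht₀.1.trans_le hs.1, hs.2.trans_lt ht₁.2⟩, mem_univ _⟩)
  have hmv := mvt_up ht₁.1.le hφc hD hDle
  simp only [hfin] at hmv
  have h0' : en r (u t₀) (X t₀ x₁) ≤ M := by
    refine h0 _ ?_
    rw [mem_closedBall]
    have := dist_triangle (X t₀ x₁) x₁ x₀
    linarith
  have hQ : C₁ * (2 * M / r ^ 2 + S * (2 * M) + (2 * M) ^ 3)
      ≤ (8 * C₁ * A + C₂) * (M / r ^ 2 + (E / (d * √(d ^ 3)) + √(M / r ^ 3) * Real.log (d / r)) * M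
        + M ^ 3) := by
    have ha : 0 ≤ E / (d * √(d ^ 3)) + √(M / r ^ 3) * Real.log (d / r) := by positivity
    set Y := E / (d * √(d ^ 3)) + √(M / r ^ 3) * Real.log (d / r) with hY
    have hb : 0 ≤ M / r ^ 2 := by positivity
    have e1 : 2 * M / r ^ 2 = 2 * (M / r ^ 2) := by ring
    have h1 : C₁ * (2 * M / r ^ 2 + S * (2 * M) + (2 * M) ^ 3)
        ≤ 8 * C₁ * A * (M / r ^ 2 + Y * M + M ^ 3) := by
      rw [e1, hS]
      have h7 := mul_le_mul_of_nonneg_left (lp_num hA1 hb ha hM.le) (by linarith : (0 : ℝ) ≤ C₁)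
      refine h7.trans (le_of_eq ?_)
      ring
    have h2 : 0 ≤ C₂ * (M / r ^ 2 + Y * M + M ^ 3) := by positivity
    linarith
  have hfinal : C₁ * (2 * M / r ^ 2 + S * (2 * M) + (2 * M) ^ 3) * (t₁ - t₀) < M := by
    refine lt_of_le_of_lt ?_ hM3
    have h1 : 0 ≤ C₁ * (2 * M / r ^ 2 + S * (2 * M) + (2 * M) ^ 3) := by positivity
    calc C₁ * (2 * M / r ^ 2 + S * (2 * M) + (2 * M) ^ 3) * (t₁ - t₀)
        ≤ C₁ * (2 * M / r ^ 2 + S * (2 * M) + (2 * M) ^ 3) * (T - t₀) :=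
          mul_le_mul_of_nonneg_left (by linarith [ht₁.2]) h1
      _ ≤ (8 * C₁ * A + C₂) * (M / r ^ 2 + (E / (d * √(d ^ 3)) + √(M / r ^ 3) * Real.log (d / r))
          * M + M ^ 3) * (T - t₀) :=
          mul_le_mul_of_nonneg_right hQ (by linarith [ht₁.1, ht₁.2])
      _ = _ := by ring
  linarith

end Pool.Agent.H946.NS
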