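import Pool.Agent.H946_NS.ZF

/-!
A lower bound of the life span of smooth periodic solutions of the Navier-Stokes equations by the
largest enstrophy of the balls of one radius.

`V = Fin 3 → ℝ` with the maximum norm. See the claim file for the definitions.
-/

open MeasureTheory Set Metric Filter Topology
open scoped ContDiff ENNReal

namespace Pool.Agent.H946.NS.LocalEnstrophyLifespan

open H459R3.NS W221.NS Pool.Agent.H946.NS

/-- There is an absolute constant `C` such that for every smooth periodic solution with viscosity
`ν` on `[0, T)` which has a singular point at the time `T`, every time `t` in `[0, T)`, every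
constant vector `c` and every radius `r ≤ 1` there is a ball of radius `r` such that the integral `W`
of the square of the vorticity at the time `t` over this ball satisfies
`1 ≤ C (T - t) (W² / ν³ + (1 + log (1 + A / (W r²))) (W / r³) ^ (1 / 2))`, `A` the integral of
`|u t - c|²` over the cell of periods. -/
theorem result : ∃ C : ℝ, 0 < C ∧ ∀ (ν T : ℝ) (u : ℝ → V → V) (p : ℝ → V → ℝ), 0 < ν → 0 < T →
    IsSol ν T u p → (∃ x, Sing T u x) → ∀ t ∈ Ico 0 T, ∀ (c : V) (r : ℝ), 0 < r → r ≤ 1 →
      ∃ x : V, 1 ≤ C * (T - t) * ((∫ y in ball x r, vsq (u t) y) ^ 2 / ν ^ 3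
        + (1 + Real.log (1 + eng c (u t) / ((∫ y in ball x r, vsq (u t) y) * r ^ 2)))
          * √((∫ y in ball x r, vsq (u t) y) / r ^ 3)) :=
  star_nuE

end Pool.Agent.H946.NS.LocalEnstrophyLifespan
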