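import Pool.Agent.H946_NS.Reg2

/-!
The local enstrophy inequality at a point where the localised enstrophy has a maximum: no linear
term.
-/

set_option autoImplicit false

open MeasureTheory Set Metric Filter Topology
open scoped ContDiff

namespace Pool.Agent.H946.NS

open H459R3.NS W221.NS Pool.Agent.W583.MD

theorem key_P {G C4 N D P : ℝ} (hG : 1 ≤ G) (hC4 : 1 ≤ C4) (hN : 0 ≤ N) (hD : 0 ≤ D) (hP : 0 ≤ P)
    (hP4 : P ^ 4 ≤ C4 * N * (D + N) ^ 3) :
    G * (P * √N) ≤ 2 * D + (2 * G * C4 + 8 * G ^ 4 * C4) * (N * √N + N ^ 3) := by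
  have hs := Real.sqrt_nonneg N
  have hNs : 0 ≤ N * √N := by positivity
  have hN3 : 0 ≤ N ^ 3 := by positivity
  rcases le_total D N with h | h
  · have h1 : P ≤ 2 * C4 * N := by
      have h2 : P ^ 4 ≤ (2 * C4 * N) ^ 4 := by
        have h3 : (D + N) ^ 3 ≤ (2 * N) ^ 3 := by gcongr; linarith
        have h4 : C4 ≤ C4 ^ 4 := by
          have : C4 * 1 ≤ C4 * C4 ^ 3 := by gcongr; exact one_le_pow₀ hC4
          calc C4 = C4 * 1 := by ring
            _ ≤ C4 * C4 ^ 3 := this
            _ = _ := by ring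
        calc P ^ 4 ≤ C4 * N * (D + N) ^ 3 := hP4
          _ ≤ C4 * N * (2 * N) ^ 3 := by gcongr
          _ = 8 * C4 * N ^ 4 := by ring
          _ ≤ 16 * C4 ^ 4 * N ^ 4 := by
              have : 0 ≤ C4 ^ 4 := by positivity
              gcongr ?_ * N ^ 4
              linarith
          _ = _ := by ring
      exact (pow_le_pow_iff_left₀ hP (by positivity) (by norm_num : (4 : ℕ) ≠ 0)).1 h2
    have h5 : G * (P * √N) ≤ 2 * G * C4 * (N * √N) := by
      calc G * (P * √N) ≤ G * (2 * C4 * N * √N) := by gcongr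
        _ = _ := by ring
    have h6 : 0 ≤ 8 * G ^ 4 * C4 * (N * √N) := by positivity
    have h7 : 0 ≤ (2 * G * C4 + 8 * G ^ 4 * C4) * N ^ 3 := by positivity
    linarith
  · have h1 : G * (P * √N) ≤ D + 8 * G ^ 4 * C4 * N ^ 3 := by
      apply amgm4 hD (by positivity)
      have h3 : (D + N) ^ 3 ≤ (2 * D) ^ 3 := by gcongr; linarith
      have e : (G * (P * √N)) ^ 4 = G ^ 4 * P ^ 4 * N ^ 2 := by
        have : √N ^ 4 = N ^ 2 := by
          calc √N ^ 4 = (√N ^ 2) ^ 2 := by ring
            _ = _ := by rw [Real.sq_sqrt hN]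
        calc (G * (P * √N)) ^ 4 = G ^ 4 * P ^ 4 * √N ^ 4 := by ring
          _ = _ := by rw [this]
      rw [e]
      calc G ^ 4 * P ^ 4 * N ^ 2 ≤ G ^ 4 * (C4 * N * (2 * D) ^ 3) * N ^ 2 := by
            have := hP4.trans (mul_le_mul_of_nonneg_left h3 (by positivity))
            gcongr
        _ = _ := by ring
    have h6 : 0 ≤ 2 * G * C4 * N ^ 3 := by positivity
    have h7 : 0 ≤ (2 * G * C4 + 8 * G ^ 4 * C4) * (N * √N) := by positivity
    linarith

/-- The numerical part. -/
theorem closure_max {M Cb C4 Kt N S D P : ℝ} (hM : 1 ≤ M) (hCb : 1 ≤ Cb) (hC4 : 1 ≤ C4)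
    (hKt : 0 ≤ Kt) (hN : 0 ≤ N) (hS : 0 ≤ S) (hD : 0 ≤ D) (hP : 0 ≤ P)
    (hP4 : P ^ 4 ≤ C4 * N * (D + N) ^ 3) :
    -2 * D + 6 * M * (√(P * (Cb * N)) * √N) + 6 * M * ((6 * S + √(Kt * (Cb * N))) * N)
      + 12 * (S * N) + 12 * (P * √(Cb * N))
      ≤ ((2 * (15 * M * Cb) * C4 + 8 * (15 * M * Cb) ^ 4 * C4) + 3 * M * Cb + 48 * M
        + 6 * M * (1 + Kt * Cb)) * (S * N + N * √N + N ^ 3) := by
  have hs := Real.sqrt_nonneg N
  have hNs : 0 ≤ N * √N := by positivity
  have hPs : 0 ≤ P * √N := by positivity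
  have hN3 : 0 ≤ N ^ 3 := by positivity
  have hSN : 0 ≤ S * N := by positivity
  have hsq : √N * √N = N := Real.mul_self_sqrt hN
  have hG : 1 ≤ 15 * M * Cb := by nlinarith
  have h0 := key_P hG hC4 hN hD hP hP4
  have hsCb : √Cb ≤ Cb := by
    rw [Real.sqrt_le_left (by linarith)]
    nlinarith
  have h1 : √(P * (Cb * N)) * √N ≤ Cb * ((P * √N + N * √N) / 2) := by
    have e : √(P * (Cb * N)) * √N = √Cb * (√P * N) := by
      rw [Real.sqrt_mul hP, Real.sqrt_mul (by linarith)]
      calc √P * (√Cb * √N) * √N = √Cb * (√P * (√N * √N)) := by ring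
        _ = _ := by rw [hsq]
    rw [e]
    have h2 : √P * N ≤ (P * √N + N * √N) / 2 := by
      have hq := Real.sqrt_nonneg (√N)
      have e1 : √(√N) ^ 2 = √N := Real.sq_sqrt hs
      have e2 : √P ^ 2 = P := Real.sq_sqrt hP
      have e3 : √P * N = (√P * √(√N)) * (√(√N) * √N) := by
        calc √P * N = √P * (√N * √N) := by rw [hsq]
          _ = √P * (√(√N) ^ 2 * √N) := by rw [e1]
          _ = _ := by ring
      have e4 : (√P * √(√N)) ^ 2 = P * √N := by rw [mul_pow, e1, e2]
      have e5 : (√(√N) * √N) ^ 2 = N * √N := by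
        calc (√(√N) * √N) ^ 2 = √(√N) ^ 2 * (√N * √N) := by ring
          _ = N * √N := by rw [e1, hsq]; ring
      rw [e3]
      nlinarith [sq_nonneg (√P * √(√N) - √(√N) * √N)]
    calc √Cb * (√P * N) ≤ Cb * ((P * √N + N * √N) / 2) :=
          mul_le_mul hsCb h2 (by positivity) (by linarith)
      _ = _ := rfl
  have h3 : √(Kt * (Cb * N)) ≤ (1 + Kt * Cb) * √N := by
    have e : Kt * (Cb * N) = Kt * Cb * N := by ring
    rw [e, Real.sqrt_mul (by positivity)]
    refine mul_le_mul_of_nonneg_right ?_ hs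
    have hk : 0 ≤ Kt * Cb := by positivity
    rw [Real.sqrt_le_left (by linarith)]
    nlinarith
  have h4 : P * √(Cb * N) ≤ Cb * (P * √N) := by
    rw [Real.sqrt_mul (by linarith)]
    calc P * (√Cb * √N) = √Cb * (P * √N) := by ring
      _ ≤ _ := mul_le_mul_of_nonneg_right hsCb hPs
  have h5 : 6 * M * (√(P * (Cb * N)) * √N) ≤ 3 * M * Cb * (P * √N) + 3 * M * Cb * (N * √N) := by
    calc 6 * M * (√(P * (Cb * N)) * √N) ≤ 6 * M * (Cb * ((P * √N + N * √N) / 2)) := by gcongr
      _ = _ := by ring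
  have h6 : 6 * M * ((6 * S + √(Kt * (Cb * N))) * N) ≤ 36 * M * (S * N)
      + 6 * M * (1 + Kt * Cb) * (N * √N) := by
    calc 6 * M * ((6 * S + √(Kt * (Cb * N))) * N)
        ≤ 6 * M * ((6 * S + (1 + Kt * Cb) * √N) * N) := by gcongr
      _ = _ := by ring
  have h7 : 12 * (P * √(Cb * N)) ≤ 12 * M * Cb * (P * √N) := by
    have : Cb * (P * √N) ≤ M * (Cb * (P * √N)) := le_mul_of_one_le_left (by positivity) hM
    linarith
  have h8 : 12 * (S * N) ≤ 12 * M * (S * N) := by
    have : S * N ≤ M * (S * N) := le_mul_of_one_le_left hSN hM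
    linarith
  have p1 : 0 ≤ ((2 * (15 * M * Cb) * C4 + 8 * (15 * M * Cb) ^ 4 * C4) + 3 * M * Cb
      + 6 * M * (1 + Kt * Cb)) * (S * N) := by positivity
  have p2 : 0 ≤ 48 * M * (N * √N) := by positivity
  have p3 : 0 ≤ (3 * M * Cb + 48 * M + 6 * M * (1 + Kt * Cb)) * N ^ 3 := by positivity
  linarith

/-- The local enstrophy inequality with the terms of the maximum principle. -/
theorem unit_gen : ∃ C : ℝ, 1 ≤ C ∧ ∀ v : V → V, ContDiff ℝ ∞ v →
    (∀ y ∈ ball (0 : V) 8, dv v y = 0) → ∀ N S : ℝ, ∫ x in ball (0 : V) 8, osq v x ≤ N → 0 ≤ S →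
      (∀ x ∈ ball (0 : V) 1, ∀ k j, |kv et 1 (pd k (fun y => v y j)) x| ≤ S) →
        ∫ z, RR v 0 z * (kap z * kap z) ≤ C * (S * N + N * √N + N ^ 3)
          + (∫ z in ball (0 : V) 1, osq v z * lap (fun z : V => kap z * kap z) z)
          + ∑ k, (∫ w, th w * v w k)
            * ∫ z in ball (0 : V) 1, osq v z * pd k (fun z : V => kap z * kap z) z := by
  obtain ⟨M, hM1, hM, hMl⟩ := kap2_lap
  obtain ⟨Cb, hCb, hbb⟩ := bb_bounds
  obtain ⟨C4, hC4, hom4⟩ := om_four
  have hKt := Kt_nonneg
  refine ⟨(2 * (15 * M * Cb) * C4 + 8 * (15 * M * Cb) ^ 4 * C4) + 3 * M * Cb + 48 * M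
        + 6 * M * (1 + Kt * Cb), ?_, ?_⟩
  · have : 0 ≤ (2 * (15 * M * Cb) * C4 + 8 * (15 * M * Cb) ^ 4 * C4) + 3 * M * Cb
        + 6 * M * (1 + Kt * Cb) := by positivity
    linarith
  intro v hv hd N S hN hS0 hS
  have hN0 : 0 ≤ N := (integral_nonneg fun x => osq_nonneg v x).trans hN
  obtain ⟨hb2, hb4, hbg⟩ := hbb v hv hd N hN
  have hN1 : ∫ x in ball (0 : V) 1, osq v x ≤ N :=
    (ball_mono (osq_smooth hv).continuous (osq_nonneg v) (ball_subset_ball (by norm_num))).trans hN
  have hP4 := hom4 v hv N hN1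
  set D := ∫ x in ball (0 : V) 1, kap x ^ 2 * dsq v x with hD
  have hD0 : 0 ≤ D := integral_nonneg fun x => mul_nonneg (sq_nonneg _) (dsq_nonneg v x)
  set Q := ∫ x in ball (0 : V) 1, (kap x ^ 2 * osq v x) ^ 2 with hQ
  have hQ0 : 0 ≤ Q := integral_nonneg fun x => sq_nonneg _
  have hkc : Continuous fun z : V => kap z := kap_smooth.continuous
  have hoc := (osq_smooth hv).continuous
  have hbc : ∀ k, Continuous fun x => bb v x k := fun k => (sm_comp (bb_smooth hv) k).continuous
  have hgc := (gsq_smooth (bb_smooth hv)).continuous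
  set A := 6 * S + √(Kt * (Cb * N)) with hA
  have hA0 : 0 ≤ A := by positivity
  set c : V := fun k => ∫ w, th w * v w k with hc
  -- the pointwise bound
  have key : ∀ z ∈ ball (0 : V) 1, -2 * (dsq v z * (kap z * kap z))
      + osq v z * (∑ k, (v z k - c k) * pd k (fun z : V => kap z * kap z) z)
      - str v z * (kap z * kap z)
      ≤ (-2 * (kap z ^ 2 * dsq v z) + (6 * M * A + 12 * S) * osq v z
        + 2 * M * ∑ k, kap z * osq v z * |bb v z k|)
        + 12 * (kap z ^ 2 * osq v z * √(gsq (bb v) z)) := by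
    intro z hz
    have ho := osq_nonneg v z
    have hk0 := kap_nonneg z
    have hk1 := kap_le_one z
    have e1 : ∀ k, |pd k (fun z : V => kap z * kap z) z| ≤ 2 * M * kap z := by
      intro k
      have e : pd k (fun z : V => kap z * kap z) z
          = kap z * pd k (fun z : V => kap z) z + pd k (fun z : V => kap z) z * kap z :=
        pd_mul' kap_smooth kap_smooth k z
      rw [e, show kap z * pd k (fun z : V => kap z) z + pd k (fun z : V => kap z) z * kap z
        = 2 * kap z * pd k (fun z : V => kap z) z by ring, abs_mul, abs_of_nonneg (by positivity)]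
      calc 2 * kap z * |pd k (fun z : V => kap z) z| ≤ 2 * kap z * M := by
            gcongr
            exact hM z k
        _ = _ := by ring
    have e2 : ∀ k, |v z k - c k| ≤ |bb v z k| + A := by
      intro k
      have h1 := avg_dev hv hS0 hS hb2 hz k
      have h2 : v z k - c k = bb v z k + (kv et 1 (fun y => v y k) z - ∫ w, th w * v w k) := by
        rw [hc]
        unfold bb
        ring
      rw [h2]
      exact (abs_add_le _ _).trans (by linarith)
    have e3 : ∑ k, (v z k - c k) * pd k (fun z : V => kap z * kap z) z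
        ≤ 2 * M * (∑ k, kap z * |bb v z k|) + 6 * M * A := by
      have h1 : ∀ k, (v z k - c k) * pd k (fun z : V => kap z * kap z) z
          ≤ 2 * M * (kap z * |bb v z k|) + 2 * M * A := by
        intro k
        calc (v z k - c k) * pd k (fun z : V => kap z * kap z) z
            ≤ |v z k - c k| * |pd k (fun z : V => kap z * kap z) z| := by
              rw [← abs_mul]
              exact le_abs_self _
          _ ≤ (|bb v z k| + A) * (2 * M * kap z) :=
              mul_le_mul (e2 k) (e1 k) (abs_nonneg _) (by positivity)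
          _ = 2 * M * (kap z * |bb v z k|) + 2 * M * A * kap z := by ring
          _ ≤ 2 * M * (kap z * |bb v z k|) + 2 * M * A * 1 := by gcongr
          _ = _ := by ring
      calc _ ≤ ∑ k, (2 * M * (kap z * |bb v z k|) + 2 * M * A) := Finset.sum_le_sum fun k _ => h1 k
        _ = _ := by
          simp only [Fin.sum_univ_three]
          ring
    have e4 : -str v z ≤ 12 * (S + √(gsq (bb v) z)) * osq v z := by
      apply str_le
      intro k j
      have h1 := pd_bb hv k j z
      have h2 : pd k (fun y => v y j) z = kv et 1 (pd k (fun y => v y j)) z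
          + pd k (fun y => bb v y j) z := by
        rw [h1]
        ring
      rw [h2]
      refine (abs_add_le _ _).trans (add_le_add (hS z hz k j) (pd_le_gsq (bb v) k j z))
    have e5 : osq v z * (∑ k, (v z k - c k) * pd k (fun z : V => kap z * kap z) z)
        ≤ osq v z * (2 * M * (∑ k, kap z * |bb v z k|) + 6 * M * A) :=
      mul_le_mul_of_nonneg_left e3 ho
    have e6 : -str v z * (kap z * kap z)
        ≤ 12 * (S + √(gsq (bb v) z)) * osq v z * (kap z * kap z) :=
      mul_le_mul_of_nonneg_right e4 (by positivity)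
    have e7 : 12 * S * osq v z * (kap z * kap z) ≤ 12 * S * osq v z * 1 := by
      apply mul_le_mul_of_nonneg_left _ (by positivity)
      nlinarith
    have e8 : osq v z * (2 * M * (∑ k, kap z * |bb v z k|) + 6 * M * A)
        = (6 * M * A) * osq v z + 2 * M * ∑ k, kap z * osq v z * |bb v z k| := by
      simp only [Fin.sum_univ_three]
      ring
    have e9 : 12 * (S + √(gsq (bb v) z)) * osq v z * (kap z * kap z)
        = 12 * S * osq v z * (kap z * kap z) + 12 * (kap z ^ 2 * osq v z * √(gsq (bb v) z)) := by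
      ring
    have e10 : -2 * (dsq v z * (kap z * kap z)) = -2 * (kap z ^ 2 * dsq v z) := by ring
    rw [e10]
    linarith
  -- integration
  have c1 : Continuous fun z : V => kap z ^ 2 * dsq v z := (hkc.pow 2).mul (dsq_cont hv)
  have c2 : ∀ k, Continuous fun z : V => kap z * osq v z * |bb v z k| := fun k =>
    (hkc.mul hoc).mul (hbc k).abs
  have c3 : Continuous fun z : V => kap z ^ 2 * osq v z * √(gsq (bb v) z) :=
    ((hkc.pow 2).mul hoc).mul hgc.sqrt
  have c4 : Continuous fun z : V => ∑ k, kap z * osq v z * |bb v z k| :=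
    continuous_finsetSum _ fun k _ => c2 k
  have j1 : IntegrableOn (fun z : V => -2 * (kap z ^ 2 * dsq v z)) (ball 0 1) :=
    int_ball (continuous_const.mul c1) 0 1
  have j2 : IntegrableOn (fun z : V => (6 * M * A + 12 * S) * osq v z) (ball 0 1) :=
    int_ball (continuous_const.mul hoc) 0 1
  have j3 : IntegrableOn (fun z : V => 2 * M * ∑ k, kap z * osq v z * |bb v z k|) (ball 0 1) :=
    int_ball (continuous_const.mul c4) 0 1
  have j4 : IntegrableOn (fun z : V => 12 * (kap z ^ 2 * osq v z * √(gsq (bb v) z))) (ball 0 1) :=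
    int_ball (continuous_const.mul c3) 0 1
  have hlapc : Continuous (lap (fun z : V => kap z * kap z)) := by
    unfold lap
    exact continuous_finsetSum _ fun k _ => ((ker_kap2.pd k).pd k).sm.continuous
  have hpdc : ∀ k, Continuous (pd k (fun z : V => kap z * kap z)) := fun k =>
    (ker_kap2.pd k).sm.continuous
  have c5 : Continuous fun z : V => -2 * (dsq v z * (kap z * kap z))
      + osq v z * (∑ k, (v z k - c k) * pd k (fun z : V => kap z * kap z) z)
      - str v z * (kap z * kap z) := by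
    have h3 : Continuous (fun z => ∑ k, (v z k - c k) * pd k (fun z : V => kap z * kap z) z) :=
      continuous_finsetSum _ fun k _ => ((sm_comp hv k).continuous.sub continuous_const).mul
        (hpdc k)
    exact ((continuous_const.mul ((dsq_cont hv).mul (hkc.mul hkc))).add (hoc.mul h3)).sub
      ((str_cont hv).mul (hkc.mul hkc))
  rw [RR_int hv (fun y hy => hd y (ball_subset_ball (by norm_num) hy)) 0 ker_kap2]
  have hsplit : ∫ z in ball (0 : V) 1, (-2 * (dsq v z * (kap z * kap z))
      + osq v z * (lap (fun z : V => kap z * kap z) z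
        + ∑ k, (v z k - (0 : V) k) * pd k (fun z : V => kap z * kap z) z)
      - str v z * (kap z * kap z))
      = (∫ z in ball (0 : V) 1, (-2 * (dsq v z * (kap z * kap z))
      + osq v z * (∑ k, (v z k - c k) * pd k (fun z : V => kap z * kap z) z)
      - str v z * (kap z * kap z)))
      + (∫ z in ball (0 : V) 1, osq v z * lap (fun z : V => kap z * kap z) z)
      + ∑ k, c k * ∫ z in ball (0 : V) 1, osq v z * pd k (fun z : V => kap z * kap z) z := by
    have i1 : IntegrableOn (fun z : V => osq v z * lap (fun z : V => kap z * kap z) z) (ball 0 1) :=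
      int_ball (hoc.mul hlapc) 0 1
    have i2 : ∀ k, IntegrableOn (fun z : V => c k * (osq v z * pd k (fun z : V => kap z * kap z) z))
        (ball 0 1) := fun k => int_ball (continuous_const.mul (hoc.mul (hpdc k))) 0 1
    have i5 := int_ball c5 0 1
    have e1 : ∀ z : V, -2 * (dsq v z * (kap z * kap z))
      + osq v z * (lap (fun z : V => kap z * kap z) z
        + ∑ k, (v z k - (0 : V) k) * pd k (fun z : V => kap z * kap z) z)
      - str v z * (kap z * kap z)
        = ((-2 * (dsq v z * (kap z * kap z))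
      + osq v z * (∑ k, (v z k - c k) * pd k (fun z : V => kap z * kap z) z)
      - str v z * (kap z * kap z)) + osq v z * lap (fun z : V => kap z * kap z) z)
      + ∑ k, c k * (osq v z * pd k (fun z : V => kap z * kap z) z) := by
      intro z
      simp only [Fin.sum_univ_three, Pi.zero_apply]
      ring
    simp_rw [e1]
    have i6 : IntegrableOn (fun z : V => (-2 * (dsq v z * (kap z * kap z))
      + osq v z * (∑ k, (v z k - c k) * pd k (fun z : V => kap z * kap z) z)
      - str v z * (kap z * kap z)) + osq v z * lap (fun z : V => kap z * kap z) z) (ball 0 1) :=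
      i5.add i1
    have i7 : IntegrableOn (fun z : V => ∑ k, c k * (osq v z * pd k (fun z : V => kap z * kap z) z))
        (ball 0 1) := int_ball (continuous_finsetSum _ fun k _ =>
          continuous_const.mul (hoc.mul (hpdc k))) 0 1
    rw [integral_add i6 i7, integral_add i5 i1, integral_finsetSum _ fun k _ => i2 k]
    simp_rw [integral_const_mul]
  rw [hsplit]
  have I2 : ∀ k, ∫ z in ball (0 : V) 1, kap z * osq v z * |bb v z k| ≤ √(√Q * (Cb * N)) * √N := by
    intro k
    have h1 := W162.MD.cs_ball (f := fun z => kap z * √(osq v z) * |bb v z k|)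
      (g := fun z => √(osq v z)) ((hkc.mul hoc.sqrt).mul (hbc k).abs) hoc.sqrt 0 1
    have e1 : ∀ z : V, kap z * √(osq v z) * |bb v z k| * √(osq v z) = kap z * osq v z * |bb v z k| := by
      intro z
      have := Real.mul_self_sqrt (osq_nonneg v z)
      calc kap z * √(osq v z) * |bb v z k| * √(osq v z)
          = kap z * (√(osq v z) * √(osq v z)) * |bb v z k| := by ring
        _ = _ := by rw [this]
    have e2 : ∀ z : V, √(osq v z) ^ 2 = osq v z := fun z => Real.sq_sqrt (osq_nonneg v z)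
    have e3 : ∀ z : V, (kap z * √(osq v z) * |bb v z k|) ^ 2 = kap z ^ 2 * osq v z * bb v z k ^ 2 := by
      intro z
      rw [mul_pow, mul_pow, e2, sq_abs]
    simp_rw [e1, e2, e3] at h1
    refine (le_abs_self _).trans (h1.trans ?_)
    refine mul_le_mul (Real.sqrt_le_sqrt ?_) (Real.sqrt_le_sqrt hN1) (Real.sqrt_nonneg _)
      (Real.sqrt_nonneg _)
    have h2 := W162.MD.cs_ball (f := fun z => kap z ^ 2 * osq v z) (g := fun z => bb v z k ^ 2)
      ((hkc.pow 2).mul hoc) ((hbc k).pow 2) 0 1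
    have e4 : ∀ z : V, (bb v z k ^ 2) ^ 2 = bb v z k ^ 4 := fun z => by ring
    simp_rw [e4] at h2
    refine (le_abs_self _).trans (h2.trans ?_)
    refine mul_le_mul le_rfl ?_ (Real.sqrt_nonneg _) (Real.sqrt_nonneg _)
    calc √(∫ z in ball (0 : V) 1, bb v z k ^ 4) ≤ √((Cb * N) ^ 2) := Real.sqrt_le_sqrt (hb4 k)
      _ = Cb * N := Real.sqrt_sq (by positivity)
  have I3 : ∫ z in ball (0 : V) 1, kap z ^ 2 * osq v z * √(gsq (bb v) z) ≤ √Q * √(Cb * N) := by
    have h1 := W162.MD.cs_ball (f := fun z => kap z ^ 2 * osq v z)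
      (g := fun z => √(gsq (bb v) z)) ((hkc.pow 2).mul hoc) hgc.sqrt 0 1
    have e2 : ∀ z : V, √(gsq (bb v) z) ^ 2 = gsq (bb v) z := fun z => Real.sq_sqrt (gsq_nonneg _ z)
    simp_rw [e2] at h1
    refine (le_abs_self _).trans (h1.trans ?_)
    exact mul_le_mul le_rfl (Real.sqrt_le_sqrt hbg) (Real.sqrt_nonneg _) (Real.sqrt_nonneg _)
  have total : ∫ z in ball (0 : V) 1, (-2 * (dsq v z * (kap z * kap z))
      + osq v z * (∑ k, (v z k - c k) * pd k (fun z : V => kap z * kap z) z)
      - str v z * (kap z * kap z))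
      ≤ -2 * D + (6 * M * A + 12 * S) * N + 2 * M * (3 * (√(√Q * (Cb * N)) * √N))
        + 12 * (√Q * √(Cb * N)) := by
    have h1 : ∫ z in ball (0 : V) 1, ((-2 * (kap z ^ 2 * dsq v z) + (6 * M * A + 12 * S) * osq v z
        + 2 * M * ∑ k, kap z * osq v z * |bb v z k|)
        + 12 * (kap z ^ 2 * osq v z * √(gsq (bb v) z)))
        = -2 * D + (6 * M * A + 12 * S) * (∫ z in ball (0 : V) 1, osq v z)
          + 2 * M * (∑ k, ∫ z in ball (0 : V) 1, kap z * osq v z * |bb v z k|)
          + 12 * ∫ z in ball (0 : V) 1, kap z ^ 2 * osq v z * √(gsq (bb v) z) := by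
      have j12 : IntegrableOn (fun z : V => -2 * (kap z ^ 2 * dsq v z)
          + (6 * M * A + 12 * S) * osq v z) (ball 0 1) := j1.add j2
      have j123 : IntegrableOn (fun z : V => -2 * (kap z ^ 2 * dsq v z)
          + (6 * M * A + 12 * S) * osq v z
          + 2 * M * ∑ k, kap z * osq v z * |bb v z k|) (ball 0 1) := j12.add j3
      rw [integral_add j123 j4, integral_add j12 j3, integral_add j1 j2, integral_const_mul,
        integral_const_mul, integral_const_mul, integral_const_mul,
        integral_finsetSum _ fun k _ => int_ball (c2 k) 0 1]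
    refine (setIntegral_mono_on (int_ball c5 0 1) (((j1.add j2).add j3).add j4) measurableSet_ball
      key).trans ?_
    change ∫ z in ball (0 : V) 1, ((-2 * (kap z ^ 2 * dsq v z) + (6 * M * A + 12 * S) * osq v z
        + 2 * M * ∑ k, kap z * osq v z * |bb v z k|)
        + 12 * (kap z ^ 2 * osq v z * √(gsq (bb v) z))) ≤ _
    rw [h1]
    have h2 : ∑ k, ∫ z in ball (0 : V) 1, kap z * osq v z * |bb v z k|
        ≤ 3 * (√(√Q * (Cb * N)) * √N) := by
      calc _ ≤ ∑ _k : Fin 3, √(√Q * (Cb * N)) * √N := Finset.sum_le_sum fun k _ => I2 k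
        _ = _ := by simp
    have h3 : (6 * M * A + 12 * S) * (∫ z in ball (0 : V) 1, osq v z)
        ≤ (6 * M * A + 12 * S) * N := mul_le_mul_of_nonneg_left hN1 (by positivity)
    have h4 : 2 * M * (∑ k, ∫ z in ball (0 : V) 1, kap z * osq v z * |bb v z k|)
        ≤ 2 * M * (3 * (√(√Q * (Cb * N)) * √N)) := mul_le_mul_of_nonneg_left h2 (by positivity)
    linarith
  have hnum := closure_max (M := M) (Cb := Cb) (C4 := C4) (Kt := Kt) (N := N) (S := S) (D := D)
    (P := √Q) hM1 hCb hC4 hKt hN0 hS0 hD0 (Real.sqrt_nonneg _) (by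
      calc √Q ^ 4 = (√Q ^ 2) ^ 2 := by ring
        _ = Q ^ 2 := by rw [Real.sq_sqrt hQ0]
        _ ≤ _ := hP4)
  have hfin := total.trans (le_trans (le_of_eq (by rw [hA]; ring)) hnum)
  linarith

/-- The local enstrophy inequality at a maximum of the localised enstrophy. -/
theorem unit_max : ∃ C : ℝ, 1 ≤ C ∧ ∀ v : V → V, ContDiff ℝ ∞ v →
    (∀ y ∈ ball (0 : V) 8, dv v y = 0) → ∀ N S : ℝ, ∫ x in ball (0 : V) 8, osq v x ≤ N → 0 ≤ S →
      (∀ x ∈ ball (0 : V) 1, ∀ k j, |kv et 1 (pd k (fun y => v y j)) x| ≤ S) →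
      (∀ k, ∫ z in ball (0 : V) 1, osq v z * pd k (fun z : V => kap z * kap z) z = 0) →
      ∫ z in ball (0 : V) 1, osq v z * lap (fun z : V => kap z * kap z) z ≤ 0 →
        ∫ z, RR v 0 z * (kap z * kap z) ≤ C * (S * N + N * √N + N ^ 3) := by
  obtain ⟨C, hC, H⟩ := unit_gen
  refine ⟨C, hC, fun v hv hd N S hN hS0 hS hm1 hm2 => ?_⟩
  have h := H v hv hd N S hN hS0 hS
  simp_rw [hm1, mul_zero, Finset.sum_const_zero, add_zero] at h
  linarith

end Pool.Agent.H946.NS
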