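import Pool.Agent.H946_NS.Max
import Pool.Agent.H946_NS.Glob3

/-!
Periodic solutions: the maximum principle for the localised enstrophy.
-/

set_option autoImplicit false

open MeasureTheory Set Metric Filter Topology
open scoped ContDiff ENNReal

namespace Pool.Agent.H946.NS

open H459R3.NS W221.NS Pool.Agent.W583.MD

theorem pd_localmax {g : V → ℝ} {x : V} (hx : IsLocalMax g x) (k : Fin 3) :
    pd k g x = 0 := by
  unfold pd
  rw [hx.fderiv_eq_zero]
  rfl

theorem line_deriv {g : V → ℝ} (hg : ContDiff ℝ ∞ g) (x : V) (k : Fin 3) :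
    deriv (fun s : ℝ => g (x + s • (Pi.single k 1 : V)))
      = fun s => pd k g (x + s • (Pi.single k 1 : V)) := by
  funext s
  have h1 : HasDerivAt (fun s : ℝ => x + s • (Pi.single k 1 : V)) (Pi.single k 1) s := by
    simpa using ((hasDerivAt_id s).smul_const (Pi.single k 1 : V)).const_add x
  have h2 : HasFDerivAt g (fderiv ℝ g (x + s • (Pi.single k 1 : V)))
      (x + s • (Pi.single k 1 : V)) := (hg.differentiable (by simp) _).hasFDerivAt
  exact (h2.comp_hasDerivAt s h1).deriv

theorem pd2_localmax {g : V → ℝ} (hg : ContDiff ℝ ∞ g) {x : V} (hx : IsLocalMax g x) (k : Fin 3) :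
    pd k (pd k g) x ≤ 0 := by
  by_contra hcon
  rw [not_le] at hcon
  set f : ℝ → ℝ := fun s => g (x + s • (Pi.single k 1 : V)) with hf
  have h1 : deriv f = fun s => pd k g (x + s • (Pi.single k 1 : V)) := line_deriv hg x k
  have h2 : deriv (deriv f) = fun s => pd k (pd k g) (x + s • (Pi.single k 1 : V)) := by
    rw [h1]
    exact line_deriv (sm_pd hg k) x k
  have hline : Continuous fun s : ℝ => x + s • (Pi.single k 1 : V) := by fun_prop
  have h0 : x + (0 : ℝ) • (Pi.single k 1 : V) = x := by simp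
  have hmax : IsLocalMax f 0 := by
    have h3 : ∀ᶠ s in 𝓝 (0 : ℝ), g (x + s • (Pi.single k 1 : V)) ≤ g x :=
      (hline.tendsto' 0 x h0).eventually hx
    filter_upwards [h3] with s hs
    simp only [hf, h0]
    exact hs
  have hmin : IsLocalMin f 0 := by
    apply isLocalMin_of_deriv_deriv_pos
    · rw [h2]
      simp only [h0]
      exact hcon
    · rw [h1]
      simp only [h0]
      exact pd_localmax hx k
    · exact (hg.continuous.comp hline).continuousAt
  have hconst : f =ᶠ[𝓝 0] fun _ => f 0 := by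
    filter_upwards [hmax, hmin] with s h3 h4
    exact le_antisymm h3 h4
  have h5 : deriv (deriv f) 0 = 0 := by
    have h6 : deriv f =ᶠ[𝓝 0] deriv (fun _ => f 0) := hconst.deriv
    rw [h6.deriv_eq]
    simp
  rw [h2] at h5
  simp only [h0] at h5
  linarith

theorem en_kv (r : ℝ) (v : V → V) (x : V) :
    en r v x = r ^ 3 * kv (fun z : V => kap z * kap z) r (osq v) x := by
  unfold en kv
  congr 1
  refine integral_congr_ae (Eventually.of_forall fun z => ?_)
  simp only
  ring

theorem en_smooth {v : V → V} (hv : ContDiff ℝ ∞ v) (r : ℝ) : ContDiff ℝ ∞ (en r v) := by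
  have e : en r v = fun x => r ^ 3 * kv (fun z : V => kap z * kap z) r (osq v) x :=
    funext fun x => en_kv r v x
  rw [e]
  exact contDiff_const.mul (kv_smooth_x ker_kap2 (osq_smooth hv) r)

/-- The conditions at a local maximum. -/
theorem max_cond {v : V → V} (hv : ContDiff ℝ ∞ v) {r : ℝ} (hr : 0 < r) {x : V}
    (hx : IsLocalMax (en r v) x) :
    (∀ k, ∫ z in ball (0 : V) 1, osq (scv r x v) z * pd k (fun z : V => kap z * kap z) z = 0) ∧
      ∫ z in ball (0 : V) 1, osq (scv r x v) z * lap (fun z : V => kap z * kap z) z ≤ 0 := by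
  have hos := osq_smooth hv
  have hx' : IsLocalMax (kv (fun z : V => kap z * kap z) r (osq v)) x := by
    filter_upwards [hx] with y hy
    rw [en_kv, en_kv] at hy
    exact le_of_mul_le_mul_left hy (by positivity)
  have hks := kv_smooth_x ker_kap2 hos r
  have hconv : ∀ (φ : V → ℝ), Ker φ → ∫ z in ball (0 : V) 1, osq (scv r x v) z * φ z
      = r ^ 4 * kv φ r (osq v) x := by
    intro φ hφ
    unfold kv
    rw [← integral_const_mul, setIntegral_eq_integral_of_forall_compl_eq_zero fun z hz => by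
      rw [hφ.zero z hz, mul_zero]]
    refine integral_congr_ae (Eventually.of_forall fun z => ?_)
    simp only [osq_scv hv]
    ring
  constructor
  · intro k
    rw [hconv _ (ker_kap2.pd k), kv_ibp ker_kap2 hos]
    have h1 := pd_localmax hx' k
    rw [pd_kv ker_kap2 hos] at h1
    rw [h1]
    ring
  · have hsum : ∫ z in ball (0 : V) 1, osq (scv r x v) z * lap (fun z : V => kap z * kap z) z
        = ∑ k, ∫ z in ball (0 : V) 1, osq (scv r x v) z
          * pd k (pd k (fun z : V => kap z * kap z)) z := by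
      unfold lap
      simp_rw [Finset.mul_sum]
      have hint : ∀ k ∈ (Finset.univ : Finset (Fin 3)), Integrable (fun z : V =>
          osq (scv r x v) z * pd k (pd k (fun z : V => kap z * kap z)) z)
          (volume.restrict (ball (0 : V) 1)) := fun k _ => int_ball
        ((osq_smooth (scv_smooth hv)).continuous.mul ((ker_kap2.pd k).pd k).sm.continuous) 0 1
      rw [integral_finsetSum _ hint]
    rw [hsum]
    refine Finset.sum_nonpos fun k _ => ?_
    rw [hconv _ ((ker_kap2.pd k).pd k), kv_ibp (ker_kap2.pd k) hos,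
      kv_ibp ker_kap2 (sm_pd hos k)]
    have h1 := pd2_localmax hks hx' k
    have h2 : pd k (kv (fun z : V => kap z * kap z) r (osq v))
        = kv (fun z : V => kap z * kap z) r (pd k (osq v)) :=
      funext fun y => pd_kv ker_kap2 hos r k y
    rw [h2, pd_kv ker_kap2 (sm_pd hos k)] at h1
    have e : r ^ 4 * -(r * -(r * kv (fun z : V => kap z * kap z) r (pd k (pd k (osq v))) x))
        = r ^ 6 * kv (fun z : V => kap z * kap z) r (pd k (pd k (osq v))) x := by ring
    rw [e]
    exact mul_nonpos_of_nonneg_of_nonpos (by positivity) h1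

/-- The derivative in time at a local maximum in space. -/
theorem en_max : ∃ C : ℝ, 1 ≤ C ∧ ∀ (T : ℝ) (O : Set V) (u : ℝ → V → V) (p : ℝ → V → ℝ),
    LS T O u p → ∀ (r : ℝ) (x : V), 0 < r → ball x (8 * r) ⊆ O → ∀ t ∈ Ioo 0 T,
      IsLocalMax (en r (u t)) x → ∀ M S : ℝ, (∀ w ∈ ball x (9 * r), en r (u t) w ≤ M) → 0 ≤ S →
          (∀ y ∈ ball x r, ∀ k j, |kv et r (pd k (fun y => u t y j)) y| ≤ S) →
            ∃ D : ℝ, HasDerivAt (fun s => en r (u s) x) D t ∧
              D ≤ C * (S * M + √(M / r ^ 3) * M + M ^ 3) := by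
  obtain ⟨C, hC, hU⟩ := unit_max
  refine ⟨C * 1588 ^ 3, by nlinarith, ?_⟩
  intro T O u p hL r x hr hO t ht hmax M S hM hS0 hS
  have hv : ContDiff ℝ ∞ (u t) := W382.ME.cd_slice hL.smooth_u ht
  have hM0 : 0 ≤ M := (en_nonneg hr (u t) x).trans (hM x (mem_ball_self (by positivity)))
  have h1 := en_deriv hL (X := fun _ => x) hr le_rfl le_rfl contDiffOn_const ht
    (hasDerivAt_const t x) ((ball_subset_ball (by linarith)).trans hO)
  refine ⟨_, h1, ?_⟩
  have e0 : (fun k : Fin 3 => r * (0 : V) k) = (0 : V) := by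
    funext k
    simp
  rw [e0]
  have hN : ∫ z in ball (0 : V) 8, osq (scv r x (u t)) z ≤ 1588 * (r * M) := by
    have h1 : ∀ z, osq (scv r x (u t)) z = r ^ 4 * osq (u t) (x + r • z) := fun z => osq_scv hv z
    simp_rw [h1]
    rw [integral_const_mul, cov' (osq (u t)) x hr]
    have h2 := cover (osq_smooth hv).continuous (osq_nonneg (u t)) (x := x) (ρ := r * 8)
      (s := 3 / 4 * r) (M := M) (by positivity) (by positivity) (fun w hw =>
        (le_en hr hv w).trans (hM w (ball_subset_ball (by linarith) hw)))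
    have h3 : ((r * 8 + 3 / 4 * r) / (3 / 4 * r)) ^ 3 ≤ 1588 := by
      have : (r * 8 + 3 / 4 * r) / (3 / 4 * r) = 35 / 3 := by
        field_simp
        ring
      rw [this]
      norm_num
    have h4 : ∫ y in ball x (r * 8), osq (u t) y ≤ 1588 * M :=
      h2.trans (mul_le_mul_of_nonneg_right h3 hM0)
    calc r ^ 4 * ((r ^ 3)⁻¹ * ∫ y in ball x (r * 8), osq (u t) y)
        = r * ∫ y in ball x (r * 8), osq (u t) y := by
          field_simp
      _ ≤ r * (1588 * M) := mul_le_mul_of_nonneg_left h4 hr.le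
      _ = _ := by ring
  have hdiv : ∀ y ∈ ball (0 : V) 8, dv (scv r x (u t)) y = 0 := by
    intro y hy
    rw [dv_scv hv, hL.divfree t ht (x + r • y) (hO ?_), mul_zero]
    rw [mem_ball_iff_norm, add_sub_cancel_left, norm_smul, Real.norm_of_nonneg hr.le]
    rw [mem_ball_zero_iff] at hy
    nlinarith
  have hS' : ∀ y ∈ ball (0 : V) 1, ∀ k j,
      |kv et 1 (pd k (fun y => scv r x (u t) y j)) y| ≤ r ^ 2 * S := by
    intro y hy k j
    rw [kv_scv hv, abs_mul, abs_of_nonneg (by positivity)]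
    refine mul_le_mul_of_nonneg_left (hS _ ?_ k j) (by positivity)
    rw [mem_ball_iff_norm, add_sub_cancel_left, norm_smul, Real.norm_of_nonneg hr.le]
    rw [mem_ball_zero_iff] at hy
    nlinarith
  obtain ⟨hc1, hc2⟩ := max_cond hv hr hmax
  have h5 := hU (scv r x (u t)) (scv_smooth hv) hdiv (1588 * (r * M)) (r ^ 2 * S) hN (by positivity)
    hS' hc1 hc2
  have hsq : √(1588 * (r * M)) ≤ 1588 * √(r * M) := by
    rw [Real.sqrt_mul (by norm_num)]
    refine mul_le_mul_of_nonneg_right ?_ (Real.sqrt_nonneg _)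
    rw [Real.sqrt_le_left (by norm_num)]
    norm_num
  have h6 : r ^ 2 * S * (1588 * (r * M)) + 1588 * (r * M) * √(1588 * (r * M))
      + (1588 * (r * M)) ^ 3
      ≤ 1588 ^ 3 * (r ^ 3 * (S * M) + (r * M) * √(r * M) + (r * M) ^ 3) := by
    have a1 : 0 ≤ (r * M) * √(r * M) := by positivity
    have a2 : 0 ≤ r ^ 3 * (S * M) := by positivity
    have a3 : r ^ 2 * S * (1588 * (r * M)) = 1588 * (r ^ 3 * (S * M)) := by ring
    have a4 : 1588 * (r * M) * √(1588 * (r * M)) ≤ 1588 * (r * M) * (1588 * √(r * M)) :=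
      mul_le_mul_of_nonneg_left hsq (by positivity)
    have a5 : 1588 * (r * M) * (1588 * √(r * M)) = 1588 ^ 2 * ((r * M) * √(r * M)) := by ring
    rw [a3]
    nlinarith
  have hsr : (r * M) * √(r * M) = r ^ 3 * (√(M / r ^ 3) * M) := by
    have h7 : √(M / r ^ 3) = √(r * M) / r ^ 2 := by
      have : M / r ^ 3 = (r * M) / (r ^ 2) ^ 2 := by
        field_simp
      rw [this, Real.sqrt_div (by positivity), Real.sqrt_sq (by positivity)]
    rw [h7]
    field_simp
  calc r ^ 3 * ((r ^ 6)⁻¹ * ∫ z, RR (scv r x (u t)) 0 z * (kap z * kap z))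
      ≤ r ^ 3 * ((r ^ 6)⁻¹ * (C * (1588 ^ 3 * (r ^ 3 * (S * M) + (r * M) * √(r * M)
        + (r * M) ^ 3)))) := by
        have h7 : ∫ z, RR (scv r x (u t)) 0 z * (kap z * kap z)
            ≤ C * (1588 ^ 3 * (r ^ 3 * (S * M) + (r * M) * √(r * M) + (r * M) ^ 3)) :=
          h5.trans (mul_le_mul_of_nonneg_left h6 (by linarith))
        gcongr
    _ = _ := by
        rw [hsr]
        field_simp

/-- A bound of the derivative from the left. -/
theorem deriv_left {f : ℝ → ℝ} {D K t₀ t : ℝ} (ht : t₀ < t) (hd : HasDerivAt f D t)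
    (h : ∀ s ∈ Ico t₀ t, f s - K * s < f t - K * t) : K ≤ D := by
  by_contra hcon
  rw [not_le] at hcon
  have h1 : HasDerivAt (fun s => f s - K * s) (D - K) t := by
    have h2 : HasDerivAt (fun s : ℝ => K * s) K t := by
      simpa using (hasDerivAt_id t).const_mul K
    exact hd.sub h2
  have h3 : ∀ᶠ s in 𝓝[<] t, (f t - K * t) < f s - K * s := by
    have h4 := (hasDerivAt_iff_tendsto_slope.1 h1).mono_left
      (nhdsWithin_mono t (show Iio t ⊆ {t}ᶜ from fun s hs => ne_of_lt hs))
    have h5 := h4.eventually_lt_const (show D - K < 0 by linarith)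
    filter_upwards [h5, self_mem_nhdsWithin] with s hs hst
    have hst' : s < t := hst
    rw [slope_def_field, div_lt_iff_of_neg (by linarith)] at hs
    simp only [zero_mul] at hs
    linarith
  have h6 : ∀ᶠ s in 𝓝[<] t, s ∈ Ico t₀ t := Ico_mem_nhdsLT ht
  obtain ⟨s, hs1, hs2⟩ := (h3.and h6).exists
  linarith [h s hs2]

/-- The global proposition by the maximum principle. -/
theorem glob_max : ∃ C : ℝ, 1 ≤ C ∧ ∀ (T : ℝ) (u : ℝ → V → V) (p : ℝ → V → ℝ), IsSol 1 T u p →
    ∀ r t₀ M : ℝ, 0 < r → r ≤ 1 → t₀ ∈ Ioo 0 T → 0 < M → (∀ x, en r (u t₀) x < M) →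
      (T - t₀) * (C * (√(M / r ^ 3) * (1 + Real.log (1 / r)) * M + M ^ 3)) ≤ M →
      ∀ t ∈ Ico t₀ T, ∀ x, en r (u t) x ≤ 2 * M := by
  obtain ⟨C₁, hC₁, hP⟩ := en_max
  set A : ℝ := 2 * √(2100 * K0) + 24 * √K2 + 3 with hA
  have hk0 := Real.sqrt_nonneg (2100 * K0)
  have hk2 := Real.sqrt_nonneg K2
  have hA1 : 3 ≤ A := by linarith
  refine ⟨16 * C₁ * A, by nlinarith, ?_⟩
  intro T u p hu r t₀ M hr hr1 ht₀ hM h0 hM3
  have hL := LS.of_IsSol hu
  set Λ := √(M / r ^ 3) * (1 + Real.log (1 / r)) with hΛ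
  set K := 16 * C₁ * A * (Λ * M + M ^ 3) with hK
  have hlog : 0 ≤ Real.log (1 / r) := Real.log_nonneg ((one_le_div hr).2 hr1)
  have hsq0 : 0 < √(M / r ^ 3) := Real.sqrt_pos.2 (by positivity)
  have hΛ0 : 0 < Λ := by positivity
  have hK0 : 0 < K := by positivity
  have hcont := en_cont hL.smooth_u r
  have hIco : Ico t₀ T ⊆ Ioo 0 T := fun t ht => ⟨ht₀.1.trans_le ht.1, ht.2⟩
  have hper : ∀ t ∈ Ioo 0 T, Per (u t) := fun t ht => hu.per_u t ⟨ht.1.le, ht.2⟩
  have hKT : K * (T - t₀) ≤ M := by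
    calc K * (T - t₀) = (T - t₀) * (16 * C₁ * A * (√(M / r ^ 3) * (1 + Real.log (1 / r)) * M
          + M ^ 3)) := by rw [hK, hΛ]; ring
      _ ≤ M := hM3
  -- the moving level is never reached
  have hmain : ∀ t ∈ Ico t₀ T, ∀ x ∈ cube, en r (u t) x - K * (t - t₀) < M := by
    by_contra hcon
    push Not at hcon
    obtain ⟨t', ht', x', hx', hm'⟩ := hcon
    have hec : ContinuousOn (fun q : ℝ × V => en r (u q.1) q.2 - K * (q.1 - t₀))
        (Ioo 0 T ×ˢ univ) := hcont.sub (by fun_prop)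
    obtain ⟨t₁, ht₁, x₁, hx₁, hm₁, hlt'⟩ := barrier (t₀ := t₀) (T := T) (R := cube)
      isCompact_Icc (e := fun q : ℝ × V => en r (u q.1) q.2 - K * (q.1 - t₀)) (m := M)
      (hec.mono (prod_mono hIco (subset_univ _)))
      (fun x hx => by
        have := h0 x
        simp only [sub_self, mul_zero, sub_zero]
        exact this) ⟨t', ht', x', hx', hm'⟩
    simp only at hm₁ hlt'
    have ht₁T : t₁ ∈ Ioo 0 T := ⟨ht₀.1.trans ht₁.1, ht₁.2⟩
    have hv : ContDiff ℝ ∞ (u t₁) := W382.ME.cd_slice hL.smooth_u ht₁T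
    -- at the first time the level is not exceeded
    have hle1 : ∀ x ∈ cube, en r (u t₁) x ≤ M + K * (t₁ - t₀) := by
      intro x hx
      have hcx : ContinuousWithinAt (fun s => en r (u s) x - K * (s - t₀)) (Ico t₀ t₁) t₁ := by
        have h1 : ContinuousAt (fun s => en r (u s) x - K * (s - t₀)) t₁ := by
          have h2 : ContinuousAt (fun q : ℝ × V => en r (u q.1) q.2 - K * (q.1 - t₀)) (t₁, x) :=
            (hec (t₁, x) ⟨ht₁T, mem_univ _⟩).continuousAt
              ((isOpen_Ioo.prod isOpen_univ).mem_nhds ⟨ht₁T, mem_univ _⟩)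
          exact h2.comp (f := fun s : ℝ => ((s, x) : ℝ × V)) (by fun_prop)
        exact h1.continuousWithinAt
      have hcl : t₁ ∈ closure (Ico t₀ t₁) := by
        rw [closure_Ico ht₁.1.ne]
        exact right_mem_Icc.2 ht₁.1.le
      have h3 := hcx.closure_le hcl continuousWithinAt_const (fun s hs => (hlt' s hs x hx).le)
      linarith
    have hle : ∀ x, en r (u t₁) x ≤ M + K * (t₁ - t₀) := by
      intro x
      obtain ⟨y, hy, e⟩ := W398.MD.FLOWX.per_cube (per_en (hper t₁ ht₁T) r) x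
      rw [e]
      exact hle1 y hy
    have hm2 : M + K * (t₁ - t₀) ≤ 2 * M := by
      have : K * (t₁ - t₀) ≤ K * (T - t₀) := mul_le_mul_of_nonneg_left (by linarith [ht₁.2]) hK0.le
      linarith
    have hmax : IsLocalMax (en r (u t₁)) x₁ := by
      refine Eventually.of_forall fun y => ?_
      have := hle y
      linarith
    have hle2 : ∀ x, en r (u t₁) x ≤ 2 * M := fun x => (hle x).trans hm2
    have hballs : ∀ w, ∫ y in ball w (3 / 4 * r), osq (u t₁) y ≤ 2 * M := fun w =>
      (le_en hr hv w).trans (hle2 w)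
    have h3 : √(2 * M / r ^ 3) ≤ 2 * √(M / r ^ 3) := by
      have e : 2 * M / r ^ 3 = 2 * (M / r ^ 3) := by ring
      rw [e, Real.sqrt_mul (by norm_num)]
      have h4 : √(2 : ℝ) ≤ 2 := by
        rw [Real.sqrt_le_left (by norm_num)]
        norm_num
      exact mul_le_mul_of_nonneg_right h4 (Real.sqrt_nonneg _)
    set S : ℝ := (2 * √(2100 * K0) + 24 * √K2) * Λ with hS
    have hS0 : 0 ≤ S := by positivity
    obtain ⟨D, hD, hDle⟩ := hP T univ u p hL r x₁ hr (subset_univ _) t₁ ht₁T hmax (2 * M) S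
      (fun w _ => hle2 w) hS0 (by
        intro y hy k j
        have h1 := grad_log hv (x := y) (r := r) (d := 1) (M := 2 * M) hr hr1
          (fun z _ => hL.divfree t₁ ht₁T z (mem_univ _)) (fun w _ => hballs w) k j
        have h2 := per_top ⟨hv, hper t₁ ht₁T⟩ (fun x => hL.divfree t₁ ht₁T x (mem_univ _)) hr hr1
          hballs y k j
        refine h1.trans ((add_le_add_left h2 _).trans ?_)
        have hq := Real.sqrt_nonneg (M / r ^ 3)
        have h5 : √(2100 * K0) * √(2 * M / r ^ 3) ≤ √(2100 * K0) * (2 * √(M / r ^ 3)) :=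
          mul_le_mul_of_nonneg_left h3 hk0
        have h6 : 12 * √K2 * √(2 * M / r ^ 3) * Real.log (1 / r)
            ≤ 12 * √K2 * (2 * √(M / r ^ 3)) * Real.log (1 / r) := by
          gcongr
        have e : S = (2 * √(2100 * K0)) * √(M / r ^ 3) + (24 * √K2) * (√(M / r ^ 3)
            * Real.log (1 / r)) + (2 * √(2100 * K0)) * (√(M / r ^ 3) * Real.log (1 / r))
            + (24 * √K2) * √(M / r ^ 3) := by
          rw [hS, hΛ]
          ring
        rw [e]
        have p1 : 0 ≤ (2 * √(2100 * K0)) * (√(M / r ^ 3) * Real.log (1 / r)) := by positivity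
        have p2 : 0 ≤ (24 * √K2) * √(M / r ^ 3) := by positivity
        linarith)
    have hKD : K ≤ D := by
      refine deriv_left (t₀ := t₀) ht₁.1 hD fun s hs => ?_
      have := hlt' s hs x₁ hx₁
      linarith
    have hDK : D < K := by
      refine lt_of_le_of_lt hDle ?_
      have h7 : √(2 * M / r ^ 3) ≤ 2 * Λ := by
        refine h3.trans ?_
        have : √(M / r ^ 3) ≤ Λ := by
          rw [hΛ]
          nlinarith
        linarith
      have h8 : S * (2 * M) + √(2 * M / r ^ 3) * (2 * M) + (2 * M) ^ 3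
          ≤ 8 * A * (Λ * M + M ^ 3) := by
        have q1 : √(2 * M / r ^ 3) * (2 * M) ≤ 2 * Λ * (2 * M) :=
          mul_le_mul_of_nonneg_right h7 (by positivity)
        have q2 : 0 ≤ (A - 1) * M ^ 3 := mul_nonneg (by linarith) (by positivity)
        have q3 : S * (2 * M) = 2 * ((A - 3) * (Λ * M)) := by
          rw [hS, hA]
          ring
        have q4 : 0 ≤ A * (Λ * M) := by positivity
        rw [q3]
        nlinarith [mul_pos hΛ0 hM]
      have h9 : 0 < C₁ * (8 * A * (Λ * M + M ^ 3)) := by positivity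
      calc C₁ * (S * (2 * M) + √(2 * M / r ^ 3) * (2 * M) + (2 * M) ^ 3)
          ≤ C₁ * (8 * A * (Λ * M + M ^ 3)) := mul_le_mul_of_nonneg_left h8 (by linarith)
        _ < 2 * (C₁ * (8 * A * (Λ * M + M ^ 3))) := by linarith
        _ = K := by rw [hK]; ring
    linarith
  intro t ht x
  obtain ⟨y, hy, e⟩ := W398.MD.FLOWX.per_cube (per_en (hper t (hIco ht)) r) x
  rw [e]
  have h1 := hmain t ht y hy
  have : K * (t - t₀) ≤ K * (T - t₀) := mul_le_mul_of_nonneg_left (by linarith [ht.2]) hK0.le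
  linarith

end Pool.Agent.H946.NS
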