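import Pool.Agent.H946_NS.MaxG

/-!
Periodic solutions: the time of existence and the local enstrophies.
-/

set_option autoImplicit false

open MeasureTheory Set Metric Filter Topology
open scoped ContDiff ENNReal

namespace Pool.Agent.H946.NS

open H459R3.NS W221.NS Pool.Agent.W583.MD

/-- The lower bound, viscosity one, all times. -/
theorem star_one : ∃ C : ℝ, 1 ≤ C ∧ ∀ (T : ℝ) (u : ℝ → V → V) (p : ℝ → V → ℝ), 0 < T →
    IsSol 1 T u p → (∃ x, Sing T u x) → ∀ t ∈ Ico 0 T, ∀ r : ℝ, 0 < r → r ≤ 1 → ∃ x : V,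
      1 ≤ C * ((T - t) * ((∫ y in ball x r, osq (u t) y) ^ 2
        + (1 + Real.log (1 / r)) * √((∫ y in ball x r, osq (u t) y) / r ^ 3))) := by
  obtain ⟨C, hC, H⟩ := glob_max
  refine ⟨C, hC, ?_⟩
  intro T u p hT hu ⟨x₀, hx₀⟩ t ht r hr hr1
  have hLS := LS.of_IsSol hu
  have hv : ContDiff ℝ ∞ (u t) := slice0 hu.smooth_u ht
  have hper : Per (u t) := hu.per_u t ht
  have hlog : 0 ≤ Real.log (1 / r) := Real.log_nonneg ((one_le_div hr).2 hr1)
  have hcont0 := en_cont0 hu.smooth_u r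
  have hcont : ContinuousOn (fun x => en r (u t) x) cube :=
    hcont0.comp (f := fun x : V => ((t, x) : ℝ × V)) (by fun_prop)
      (fun x _ => ⟨ht, mem_univ _⟩)
  obtain ⟨x₁, hx₁, hmax⟩ := (isCompact_Icc (a := (0 : V)) (b := 1)).exists_isMaxOn
    ⟨0, le_rfl, zero_le_one⟩ hcont
  set W := ∫ y in ball x₁ r, osq (u t) y with hW
  refine ⟨x₁, ?_⟩
  by_contra hcon
  rw [not_le] at hcon
  have hTt : 0 < T - t := by linarith [ht.2]
  have hW0 : 0 ≤ W := integral_nonneg fun y => osq_nonneg _ y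
  have heW : en r (u t) x₁ ≤ W := en_le hr hv x₁
  set f : ℝ → ℝ := fun m => C * ((T - t) * (m ^ 2
    + (1 + Real.log (1 / r)) * √(m / r ^ 3))) with hf
  have hfc : Continuous f := by
    simp only [hf]
    fun_prop
  have hev : ∀ᶠ m in 𝓝[>] W, f m < 1 :=
    ((hfc.tendsto W).eventually_lt_const hcon).filter_mono nhdsWithin_le_nhds
  obtain ⟨M, hfM, hMW⟩ := (hev.and self_mem_nhdsWithin).exists
  have hMW' : W < M := hMW
  have hM0 : 0 < M := hW0.trans_lt hMW'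
  -- a slightly later time
  have htube : ∀ᶠ s in 𝓝 t, ∀ y ∈ cube, s ∈ Ico 0 T → en r (u s) y < M := by
    refine (isCompact_Icc (a := (0 : V)) (b := 1)).eventually_forall_of_forall_eventually
      (P := fun s y => s ∈ Ico 0 T → en r (u s) y < M) fun y hy => ?_
    have h1 : en r (u t) y < M := (hmax hy).trans_lt (heW.trans_lt hMW')
    have h2 := hcont0 (t, y) ⟨ht, mem_univ y⟩
    have h3 := h2.tendsto.eventually_lt_const h1
    rw [nhdsWithin, eventually_inf_principal] at h3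
    filter_upwards [h3] with q hq hqI
    exact hq ⟨hqI, mem_univ _⟩
  have hlater : ∃ s ∈ Ioo t T, ∀ y ∈ cube, en r (u s) y < M := by
    have h1 : ∀ᶠ s in 𝓝[>] t, ∀ y ∈ cube, s ∈ Ico 0 T → en r (u s) y < M :=
      htube.filter_mono nhdsWithin_le_nhds
    have h2 : ∀ᶠ s in 𝓝[>] t, s ∈ Ioo t T := Ioo_mem_nhdsGT ht.2
    obtain ⟨s, hs1, hs2⟩ := (h1.and h2).exists
    exact ⟨s, hs2, fun y hy => hs1 y hy ⟨ht.1.trans hs2.1.le, hs2.2⟩⟩
  obtain ⟨s, hs, hsM⟩ := hlater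
  have hs0 : s ∈ Ioo 0 T := ⟨ht.1.trans_lt hs.1, hs.2⟩
  have hall : ∀ x, en r (u s) x < M := by
    intro x
    obtain ⟨y, hy, e⟩ := W398.MD.FLOWX.per_cube (per_en (hu.per_u s ⟨hs0.1.le, hs0.2⟩) r) x
    rw [e]
    exact hsM y hy
  have hkey := H T u p hu r s M hr hr1 hs0 hM0 hall (by
    have e : (T - s) * (C * (√(M / r ^ 3) * (1 + Real.log (1 / r)) * M + M ^ 3))
        = C * ((T - s) * (M ^ 2 + (1 + Real.log (1 / r)) * √(M / r ^ 3))) * M := by
      ring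
    rw [e]
    have h1 : C * ((T - s) * (M ^ 2 + (1 + Real.log (1 / r)) * √(M / r ^ 3))) ≤ 1 := by
      have h0 : 0 ≤ M ^ 2 + (1 + Real.log (1 / r)) * √(M / r ^ 3) := by positivity
      have h3 : C * ((T - s) * (M ^ 2 + (1 + Real.log (1 / r)) * √(M / r ^ 3)))
          ≤ C * ((T - t) * (M ^ 2 + (1 + Real.log (1 / r)) * √(M / r ^ 3))) :=
        mul_le_mul_of_nonneg_left (mul_le_mul_of_nonneg_right (by linarith [hs.1]) h0)
          (by linarith)
      simp only [hf] at hfM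
      linarith
    calc _ ≤ 1 * M := mul_le_mul_of_nonneg_right h1 hM0.le
      _ = M := one_mul M)
  exact glob_reg hT hu hr hr1 hs0 (K := 2 * M) hkey x₀ hx₀

/-- The lower bound, general viscosity. -/
theorem star_nu : ∃ C : ℝ, 0 < C ∧ ∀ (ν T : ℝ) (u : ℝ → V → V) (p : ℝ → V → ℝ), 0 < ν → 0 < T →
    IsSol ν T u p → (∃ x, Sing T u x) → ∀ t ∈ Ico 0 T, ∀ r : ℝ, 0 < r → r ≤ 1 → ∃ x : V,
      1 ≤ C * (T - t) * ((∫ y in ball x r, vsq (u t) y) ^ 2 / ν ^ 3
        + (1 + Real.log (1 / r)) * √((∫ y in ball x r, vsq (u t) y) / r ^ 3)) := by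
  obtain ⟨C, hC, H⟩ := star_one
  refine ⟨4 * C, by linarith, ?_⟩
  intro ν T u p hν hT hu ⟨x₀, hx₀⟩ t ht r hr hr1
  have h2 := B.p_scale ν T u p hν hT hu
  have hS' : Sing (ν * T) (fun t x => ν⁻¹ • u (t / ν) x) x₀ := by
    intro δ hδ M
    obtain ⟨t, ht, y, hy, hM⟩ := hx₀ (min δ (δ / ν)) (lt_min hδ (by positivity)) (ν * M)
    refine ⟨ν * t, ⟨?_, ?_⟩, y, ball_subset_ball (min_le_left _ _) hy, ?_⟩
    · have h3 : T - δ / ν < t := by linarith [ht.1, min_le_right δ (δ / ν)]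
      have h4 : ν * (T - δ / ν) < ν * t := mul_lt_mul_of_pos_left h3 hν
      have h5 : ν * (T - δ / ν) = ν * T - δ := by field_simp
      linarith
    · exact mul_lt_mul_of_pos_left ht.2 hν
    · have e : ν * t / ν = t := by field_simp
      simp only [e]
      rw [norm_smul, Real.norm_eq_abs, abs_of_pos (by positivity), inv_mul_eq_div,
        lt_div_iff₀ hν, mul_comm]
      exact hM
  have hνt : ν * t ∈ Ico 0 (ν * T) :=
    ⟨mul_nonneg hν.le ht.1, mul_lt_mul_of_pos_left ht.2 hν⟩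
  obtain ⟨x, hx⟩ := H (ν * T) (fun t x => ν⁻¹ • u (t / ν) x) (fun t x => (ν ^ 2)⁻¹ * p (t / ν) x)
    (by positivity) h2 ⟨x₀, hS'⟩ (ν * t) hνt r hr hr1
  refine ⟨x, hx.trans ?_⟩
  have et : ν * t / ν = t := by field_simp
  simp only [et]
  simp_rw [osq_smul, osq_vsq]
  rw [integral_const_mul, integral_const_mul]
  set I := ∫ y in ball x r, vsq (u t) y with hI
  have hI0 : 0 ≤ I := integral_nonneg fun y => vsq_nonneg _ y
  have hTt : 0 < T - t := by linarith [ht.2]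
  have hlog : 0 ≤ Real.log (1 / r) := Real.log_nonneg ((one_le_div hr).2 hr1)
  have e1 : ν⁻¹ ^ 2 * (2 * I) = 2 * (I / ν ^ 2) := by
    field_simp
  have e2 : √(2 * (I / ν ^ 2) / r ^ 3) ≤ 2 * (√(I / r ^ 3) / ν) := by
    have e3 : 2 * (I / ν ^ 2) / r ^ 3 = 2 * (I / r ^ 3 / ν ^ 2) := by ring
    rw [e3, Real.sqrt_mul (by norm_num), Real.sqrt_div (by positivity), Real.sqrt_sq hν.le]
    have h4 : √(2 : ℝ) ≤ 2 := by
      rw [Real.sqrt_le_left (by norm_num)]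
      norm_num
    exact mul_le_mul_of_nonneg_right h4 (by positivity)
  rw [e1]
  have h5 : (1 + Real.log (1 / r)) * √(2 * (I / ν ^ 2) / r ^ 3)
      ≤ (1 + Real.log (1 / r)) * (2 * (√(I / r ^ 3) / ν)) :=
    mul_le_mul_of_nonneg_left e2 (by positivity)
  have h6 : (2 * (I / ν ^ 2)) ^ 2 + (1 + Real.log (1 / r))
      * √(2 * (I / ν ^ 2) / r ^ 3) ≤ 4 / ν * (I ^ 2 / ν ^ 3
        + (1 + Real.log (1 / r)) * √(I / r ^ 3)) := by
    have e4 : 4 / ν * (I ^ 2 / ν ^ 3 + (1 + Real.log (1 / r)) * √(I / r ^ 3))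
        = (2 * (I / ν ^ 2)) ^ 2
          + 2 * ((1 + Real.log (1 / r)) * (2 * (√(I / r ^ 3) / ν))) := by
      field_simp
      ring
    rw [e4]
    have h8 : 0 ≤ (1 + Real.log (1 / r)) * (2 * (√(I / r ^ 3) / ν)) := by positivity
    linarith
  calc C * ((ν * T - ν * t) * ((2 * (I / ν ^ 2)) ^ 2 + (1 + Real.log (1 / r))
      * √(2 * (I / ν ^ 2) / r ^ 3)))
      ≤ C * ((ν * T - ν * t) * (4 / ν * (I ^ 2 / ν ^ 3
        + (1 + Real.log (1 / r)) * √(I / r ^ 3)))) := by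
        have : 0 ≤ ν * T - ν * t := by nlinarith
        gcongr
    _ = _ := by
        field_simp

end Pool.Agent.H946.NS
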