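import Pool.Agent.H946_NS.ZF

/-!
The local enstrophy inequality with the velocity: the estimate at the unit scale.
-/

set_option autoImplicit false

open MeasureTheory Set Metric Filter Topology
open scoped ContDiff ENNReal

namespace Pool.Agent.H946.NS

open H459R3.NS W221.NS Pool.Agent.W583.MD

/-- Cut-off functions which do not increase along the rays. -/
structure Cut (κ : V → ℝ) : Prop where
  smooth : ContDiff ℝ ∞ κ
  zero : ∀ z ∉ ball (0 : V) 1, κ z = 0
  nonneg : ∀ z, 0 ≤ κ z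
  le_one : ∀ z, κ z ≤ 1
  pos : 0 < κ 0
  ray : ∀ (z : V) (s : ℝ), 1 ≤ s → κ (s • z) ≤ κ z

variable {κ : V → ℝ}

theorem Cut.ker (h : Cut κ) : Ker κ := ⟨h.smooth, h.zero⟩

theorem Cut.ker2 (h : Cut κ) : Ker (fun z : V => κ z * κ z) := h.ker.mul h.smooth

theorem Cut.bound (h : Cut κ) : ∃ M : ℝ, 1 ≤ M ∧ ∀ z i, |pd i κ z| ≤ M := by
  have h1 : ∀ i : Fin 3, ∃ C, ∀ z : V, ‖pd i κ z‖ ≤ C := fun i =>
    (h.ker.pd i).cs.exists_bound_of_continuous (h.ker.pd i).sm.continuous
  choose C hC using h1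
  have hC0 : ∀ i, 0 ≤ C i := fun i => (norm_nonneg _).trans (hC i 0)
  refine ⟨1 + ∑ i, C i, ?_, fun z i => ?_⟩
  · linarith [Finset.sum_nonneg fun i (_ : i ∈ Finset.univ) => hC0 i]
  · have h3 := hC i z
    rw [Real.norm_eq_abs] at h3
    have h4 := Finset.single_le_sum (f := C) (fun j _ => hC0 j) (Finset.mem_univ i)
    linarith

/-- A ball on which the cut-off function is not small. -/
theorem Cut.low (h : Cut κ) : ∃ a : ℝ, 0 < a ∧ a ≤ 1 ∧ ∀ z ∈ ball (0 : V) a, a ≤ κ z := by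
  have h1 : ∀ᶠ z in 𝓝 (0 : V), κ 0 / 2 < κ z :=
    h.smooth.continuous.continuousAt.eventually_const_lt (by linarith [h.pos])
  obtain ⟨δ, hδ, hb⟩ := Metric.eventually_nhds_iff_ball.1 h1
  have hp := h.pos
  refine ⟨min (min δ (κ 0 / 2)) 1, by positivity, min_le_right _ _, fun z hz => ?_⟩
  have h2 := hb z (ball_subset_ball ((min_le_left _ _).trans (min_le_left _ _)) hz)
  exact ((min_le_left _ _).trans (min_le_right _ _)).trans h2.le

/-- The sixth power of the localised vorticity. -/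
theorem om_six (hκ : Cut κ) : ∃ C : ℝ, 1 ≤ C ∧ ∀ v : V → V, ContDiff ℝ ∞ v → ∀ N : ℝ,
    ∫ x in ball (0 : V) 1, osq v x ≤ N →
      ∫ x in ball (0 : V) 1, (κ x ^ 2 * osq v x) ^ 3
        ≤ (C * ((∫ x in ball (0 : V) 1, κ x ^ 2 * dsq v x) + N)) ^ 3 := by
  obtain ⟨M, hM1, hM⟩ := hκ.bound
  obtain ⟨K, hK0, hK⟩ := Pool.Agent.W440.MD.scalar
  refine ⟨(1 + 729 * K) * (3 + 6 * M ^ 2), ?_, ?_⟩
  · have h1 : 1 ≤ 1 + 729 * K := by linarith
    have h2 : 1 ≤ 3 + 6 * M ^ 2 := by nlinarith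
    nlinarith
  intro v hv N hN
  have hN0 : 0 ≤ N := (integral_nonneg fun x => osq_nonneg v x).trans hN
  set D := ∫ x in ball (0 : V) 1, κ x ^ 2 * dsq v x with hD
  have hD0 : 0 ≤ D := integral_nonneg fun x => mul_nonneg (sq_nonneg _) (dsq_nonneg v x)
  let f : Fin 3 → Fin 3 → V → ℝ := fun i j z => κ z * om v i j z
  have hf : ∀ i j, ContDiff ℝ ∞ (f i j) := fun i j => hκ.smooth.mul (om_smooth hv i j)
  have hkc : Continuous κ := hκ.smooth.continuous
  have hkz : ∀ i, ∀ z ∉ ball (0 : V) 1, pd i κ z = 0 := fun i =>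
    (hκ.ker.pd i).zero
  have fd : ∀ i j, ∫ x in ball (0 : V) (2 * 1), ((∑ k, pd k (f i j) x ^ 2)
      + ((1 : ℝ) ^ 2)⁻¹ * f i j x ^ 2) ≤ 2 * D + (1 + 6 * M ^ 2) * N := by
    intro i j
    have hc1 : Continuous fun x => (∑ k, pd k (f i j) x ^ 2) + ((1 : ℝ) ^ 2)⁻¹ * f i j x ^ 2 :=
      (continuous_finsetSum _ fun k _ => (sm_pd (hf i j) k).continuous.pow 2).add
        (continuous_const.mul ((hf i j).continuous.pow 2))
    have hpd : ∀ k z, pd k (f i j) z = κ z * pd k (om v i j) z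
        + pd k κ z * om v i j z := fun k z =>
      pd_mul' hκ.smooth (om_smooth hv i j) k z
    have h1 : ∫ x in ball (0 : V) (2 * 1), ((∑ k, pd k (f i j) x ^ 2)
        + ((1 : ℝ) ^ 2)⁻¹ * f i j x ^ 2) = ∫ x in ball (0 : V) 1, ((∑ k, pd k (f i j) x ^ 2)
        + ((1 : ℝ) ^ 2)⁻¹ * f i j x ^ 2) := by
      refine setIntegral_eq_of_subset_of_forall_sdiff_eq_zero measurableSet_ball
        (ball_subset_ball (by norm_num)) fun z hz => ?_
      have e0 : f i j z = 0 := by
        change κ z * om v i j z = 0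
        rw [hκ.zero z hz.2, zero_mul]
      have e1 : ∀ k, pd k (f i j) z = 0 := fun k => by
        rw [hpd, hκ.zero z hz.2, hkz k z hz.2]
        ring
      simp [e0, e1]
    rw [h1]
    have hc2 : Continuous fun x : V => 2 * (κ x ^ 2 * dsq v x) :=
      continuous_const.mul ((hkc.pow 2).mul (dsq_cont hv))
    have hc3 : Continuous fun x : V => (1 + 6 * M ^ 2) * osq v x :=
      continuous_const.mul (osq_smooth hv).continuous
    have h2 : ∫ x in ball (0 : V) 1, ((∑ k, pd k (f i j) x ^ 2) + ((1 : ℝ) ^ 2)⁻¹ * f i j x ^ 2)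
        ≤ ∫ x in ball (0 : V) 1, (2 * (κ x ^ 2 * dsq v x) + (1 + 6 * M ^ 2) * osq v x) := by
      refine setIntegral_mono (int_ball hc1 0 1) (int_ball (hc2.add hc3) 0 1) fun z => ?_
      change (∑ k, pd k (f i j) z ^ 2) + ((1 : ℝ) ^ 2)⁻¹ * f i j z ^ 2 ≤ _
      have h3 : ∀ k, pd k (f i j) z ^ 2 ≤ 2 * (κ z ^ 2 * pd k (om v i j) z ^ 2)
          + 2 * M ^ 2 * om v i j z ^ 2 := by
        intro k
        rw [hpd]
        have h4 : pd k κ z ^ 2 ≤ M ^ 2 := by
          rw [← sq_abs]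
          exact pow_le_pow_left₀ (abs_nonneg _) (hM z k) 2
        nlinarith [sq_nonneg (κ z * pd k (om v i j) z - pd k κ z * om v i j z),
          mul_le_mul_of_nonneg_right h4 (sq_nonneg (om v i j z))]
      have h5 : ∑ k, pd k (om v i j) z ^ 2 ≤ dsq v z :=
        (Finset.single_le_sum (f := fun j => ∑ k, pd k (om v i j) z ^ 2)
          (fun _ _ => Finset.sum_nonneg fun _ _ => sq_nonneg _) (Finset.mem_univ j)).trans
          (Finset.single_le_sum (f := fun i => ∑ j, ∑ k, pd k (om v i j) z ^ 2)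
            (fun _ _ => Finset.sum_nonneg fun _ _ => Finset.sum_nonneg fun _ _ => sq_nonneg _)
            (Finset.mem_univ i))
      have h6 : f i j z ^ 2 ≤ om v i j z ^ 2 := by
        have h7 : κ z ^ 2 ≤ 1 := pow_le_one₀ (hκ.nonneg z) (hκ.le_one z)
        change (κ z * om v i j z) ^ 2 ≤ _
        nlinarith [mul_le_mul_of_nonneg_right h7 (sq_nonneg (om v i j z))]
      have h8 := om_sq_le v i j z
      have h9 : ∑ k, pd k (f i j) z ^ 2 ≤ 2 * (κ z ^ 2 * ∑ k, pd k (om v i j) z ^ 2)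
          + 6 * M ^ 2 * om v i j z ^ 2 := by
        have := Finset.sum_le_sum fun k (_ : k ∈ Finset.univ) => h3 k
        refine this.trans (le_of_eq ?_)
        simp only [Fin.sum_univ_three]
        ring
      have h10 : κ z ^ 2 * ∑ k, pd k (om v i j) z ^ 2 ≤ κ z ^ 2 * dsq v z :=
        mul_le_mul_of_nonneg_left h5 (sq_nonneg _)
      have h11 : (1 + 6 * M ^ 2) * om v i j z ^ 2 ≤ (1 + 6 * M ^ 2) * osq v z :=
        mul_le_mul_of_nonneg_left h8 (by positivity)
      simp only [one_pow, inv_one, one_mul]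
      linarith
    refine h2.trans ?_
    rw [integral_add (int_ball hc2 0 1) (int_ball hc3 0 1), integral_const_mul, integral_const_mul]
    have : (1 + 6 * M ^ 2) * ∫ x in ball (0 : V) 1, osq v x ≤ (1 + 6 * M ^ 2) * N :=
      mul_le_mul_of_nonneg_left hN (by positivity)
    linarith
  have f6 : ∀ i j, ∫ x in ball (0 : V) 1, f i j x ^ 6
      ≤ K * (2 * D + (1 + 6 * M ^ 2) * N) ^ 3 := by
    intro i j
    have h1 := hK (f i j) (hf i j) 0 1 one_pos
    have h2 : 0 ≤ ∫ x in ball (0 : V) (2 * 1), ((∑ k, pd k (f i j) x ^ 2)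
      + ((1 : ℝ) ^ 2)⁻¹ * f i j x ^ 2) := integral_nonneg fun x => by positivity
    exact h1.trans (mul_le_mul_of_nonneg_left (pow_le_pow_left₀ h2 (fd i j) 3) hK0)
  have hc6 : ∀ i j, Continuous fun x => f i j x ^ 6 := fun i j => (hf i j).continuous.pow 6
  have h1 : ∫ x in ball (0 : V) 1, (κ x ^ 2 * osq v x) ^ 3
      ≤ 729 * (K * (2 * D + (1 + 6 * M ^ 2) * N) ^ 3) := by
    have h2 : ∀ x, (κ x ^ 2 * osq v x) ^ 3 ≤ 81 * ∑ i, ∑ j, f i j x ^ 6 := by
      intro x
      have e : κ x ^ 2 * osq v x = ∑ i, ∑ j, f i j x ^ 2 := by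
        unfold osq
        rw [Finset.mul_sum]
        refine Finset.sum_congr rfl fun i _ => ?_
        rw [Finset.mul_sum]
        refine Finset.sum_congr rfl fun j _ => ?_
        change _ = (κ x * om v i j x) ^ 2
        ring
      rw [e]
      have h3 : ∀ g : Fin 3 → ℝ, (∀ i, 0 ≤ g i) → (∑ i, g i) ^ 3 ≤ 9 * ∑ i, g i ^ 3 := by
        intro g hg
        simp only [Fin.sum_univ_three]
        have h0 := hg 0
        have h1 := hg 1
        have h2 := hg 2
        nlinarith [mul_nonneg (add_nonneg h0 h1) (sq_nonneg (g 0 - g 1)),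
          mul_nonneg (add_nonneg h0 h2) (sq_nonneg (g 0 - g 2)),
          mul_nonneg (add_nonneg h1 h2) (sq_nonneg (g 1 - g 2)),
          mul_nonneg h0 (sq_nonneg (g 1 - g 2)), mul_nonneg h1 (sq_nonneg (g 0 - g 2)),
          mul_nonneg h2 (sq_nonneg (g 0 - g 1))]
      calc (∑ i, ∑ j, f i j x ^ 2) ^ 3 ≤ 9 * ∑ i, (∑ j, f i j x ^ 2) ^ 3 :=
            h3 _ fun i => Finset.sum_nonneg fun j _ => sq_nonneg _
        _ ≤ 9 * ∑ i, 9 * ∑ j, (f i j x ^ 2) ^ 3 := by
            gcongr with i _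
            exact h3 _ fun j => sq_nonneg _
        _ = 81 * ∑ i, ∑ j, f i j x ^ 6 := by
            rw [← Finset.mul_sum]
            have : ∀ i j, (f i j x ^ 2) ^ 3 = f i j x ^ 6 := fun i j => by ring
            simp_rw [this]
            ring
    have hc5 : Continuous fun x : V => (κ x ^ 2 * osq v x) ^ 3 :=
      ((hkc.pow 2).mul (osq_smooth hv).continuous).pow 3
    have hc7 : Continuous fun x => 81 * ∑ i, ∑ j, f i j x ^ 6 :=
      continuous_const.mul (continuous_finsetSum _ fun i _ => continuous_finsetSum _ fun j _ =>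
        hc6 i j)
    refine (setIntegral_mono (int_ball hc5 0 1) (int_ball hc7 0 1) h2).trans ?_
    have hi : ∀ i j, IntegrableOn (fun x => f i j x ^ 6) (ball (0 : V) 1) := fun i j =>
      int_ball (hc6 i j) 0 1
    rw [integral_const_mul, integral_finsetSum _ fun i _ => integrable_finsetSum _ fun j _ => hi i j]
    simp_rw [integral_finsetSum _ fun j _ => hi _ j]
    calc 81 * ∑ i, ∑ j, ∫ x in ball (0 : V) 1, f i j x ^ 6
        ≤ 81 * ∑ _i : Fin 3, ∑ _j : Fin 3, K * (2 * D + (1 + 6 * M ^ 2) * N) ^ 3 := by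
          gcongr with i _ j _
          exact f6 i j
      _ = _ := by
          simp only [Fin.sum_univ_three]
          ring
  refine h1.trans ?_
  have h2 : 2 * D + (1 + 6 * M ^ 2) * N ≤ (3 + 6 * M ^ 2) * (D + N) := by
    have : 0 ≤ M ^ 2 * D := by positivity
    nlinarith
  have h3 : 729 * K ≤ (1 + 729 * K) ^ 3 := by
    have h4 : 1 + 729 * K ≤ (1 + 729 * K) ^ 3 := le_self_pow₀ (by linarith) (by norm_num)
    linarith
  calc 729 * (K * (2 * D + (1 + 6 * M ^ 2) * N) ^ 3)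
      = (729 * K) * (2 * D + (1 + 6 * M ^ 2) * N) ^ 3 := by ring
    _ ≤ (1 + 729 * K) ^ 3 * ((3 + 6 * M ^ 2) * (D + N)) ^ 3 := by
        refine mul_le_mul h3 (pow_le_pow_left₀ (by positivity) h2 3) (by positivity) (by positivity)
    _ = _ := by ring

/-- The stretching term in another form. -/
theorem str_eq (v : V → V) (z : V) : str v z = ∑ i, ∑ j, ∑ k,
    4 * (om v i j z * om v i k z) * pd k (fun y => v y j) z := by
  unfold str om
  simp only [Fin.sum_univ_three]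
  ring

end Pool.Agent.H946.NS
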