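import Pool.Agent.H946_NS.One

/-!
The local enstrophy inequality with the velocity: the estimate at the unit scale.
-/

set_option autoImplicit false

open MeasureTheory Set Metric Filter Topology
open scoped ContDiff ENNReal

namespace Pool.Agent.H946.NS

open H459R3.NS W221.NS Pool.Agent.W583.MD

variable {κ : V → ℝ}

theorem young_opt {X F3 G3 ε H : ℝ} (hε : 0 < ε) (hH : 0 ≤ H) (hF : F3 ≤ ε ^ 3) (hG : G3 ≤ H ^ 3)
    (hX : ∀ q : ℝ, 0 < q → X ≤ (2 * q * F3 + G3 / q ^ 2) / 3) : X ≤ ε ^ 2 * H := by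
  refine le_of_forall_pos_le_add fun η hη => ?_
  set H' := H + η / ε ^ 2 with hH'
  have hη' : 0 < η / ε ^ 2 := by positivity
  have hH'0 : 0 < H' := by linarith
  have h1 := hX (H' / ε) (by positivity)
  have h2 : G3 ≤ H' ^ 3 := hG.trans (pow_le_pow_left₀ hH (by linarith) 3)
  have h3 : 2 * (H' / ε) * F3 ≤ 2 * (H' / ε) * ε ^ 3 :=
    mul_le_mul_of_nonneg_left hF (by positivity)
  have h4 : 2 * (H' / ε) * ε ^ 3 = 2 * (ε ^ 2 * H') := by
    field_simp
  have h5 : G3 / (H' / ε) ^ 2 ≤ H' ^ 3 / (H' / ε) ^ 2 :=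
    div_le_div_of_nonneg_right h2 (by positivity)
  have h6 : H' ^ 3 / (H' / ε) ^ 2 = ε ^ 2 * H' := by
    field_simp
  have h7 : ε ^ 2 * H' = ε ^ 2 * H + η := by
    rw [hH']
    field_simp
  linarith

theorem young_pt {f g q : ℝ} (hf : 0 ≤ f) (hg : 0 ≤ g) (hq : 0 < q) :
    f ^ 2 * g ≤ (2 * q * f ^ 3 + g ^ 3 / q ^ 2) / 3 := by
  have h1 : 0 ≤ (q * f - g) ^ 2 * (2 * (q * f) + g) := by positivity
  have h2 : (2 * q * f ^ 3 + g ^ 3 / q ^ 2) / 3 - f ^ 2 * g
      = ((q * f - g) ^ 2 * (2 * (q * f) + g)) / (3 * q ^ 2) := by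
    field_simp
    ring
  have h3 : 0 ≤ ((q * f - g) ^ 2 * (2 * (q * f) + g)) / (3 * q ^ 2) := by positivity
  linarith

theorem vel_num {A O W o k m M : ℝ} (ho : 0 ≤ o) (hOo : O ^ 2 = k ^ 2 * o) :
    -2 * A ^ 2 + (6 * M * (k * o * W) + 18 * M * m * o) + 108 * m * o
      + (216 * (W * (A * O)) + 216 * M * (W * (k * o)))
      ≤ -(3 / 2) * A ^ 2 + 23329 * (W ^ 2 * (k ^ 2 * o))
        + (12321 * M ^ 2 + (18 * M + 108) * m) * o := by
  have h1 : 216 * (W * (A * O)) ≤ 1 / 2 * A ^ 2 + 23328 * (W ^ 2 * O ^ 2) := by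
    nlinarith [sq_nonneg (A - 216 * (W * O))]
  have h2 : 222 * M * (W * (k * o)) ≤ W ^ 2 * (k ^ 2 * o) + 12321 * M ^ 2 * o := by
    have h3 : 0 ≤ (W * k - 111 * M) ^ 2 * o := by positivity
    nlinarith
  rw [hOo] at h1
  linarith

/-- The local enstrophy inequality with the velocity. -/
theorem unit_vel (hκ : Cut κ) : ∃ C ε : ℝ, 1 ≤ C ∧ 0 < ε ∧ ∀ v : V → V, ContDiff ℝ ∞ v →
    (∀ y ∈ ball (0 : V) 1, dv v y = 0) → ∀ (c : V) (b : V → V), ContDiff ℝ ∞ b → ∀ N l m : ℝ,
      ∫ x in ball (0 : V) 1, osq v x ≤ N → 0 ≤ l → 0 ≤ m →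
      (∀ y ∈ ball (0 : V) 1, ∀ i j, |pd i (fun y => b y j) y| ≤ m) →
      (∀ y ∈ ball (0 : V) 1, ∀ k, |b y k| ≤ 3 * m) →
      ∫ x in ball (0 : V) 1, (max (‖v x - c - b x‖ - l) 0) ^ 3 ≤ ε ^ 3 →
        ∫ z, RR v 0 z * (κ z * κ z) ≤ C * ((1 + l ^ 2 + m) * N)
          + (∫ z in ball (0 : V) 1, osq v z * lap (fun z : V => κ z * κ z) z)
          + ∑ k, c k * ∫ z in ball (0 : V) 1, osq v z * pd k (fun z : V => κ z * κ z) z := by
  obtain ⟨M, hM1, hM⟩ := hκ.bound
  obtain ⟨C6, hC6, h6⟩ := om_six hκ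
  refine ⟨46658 + 12321 * M ^ 2 + 18 * M + 108, 1 / (50000 * C6), ?_, by positivity, ?_⟩
  · have : 0 ≤ 12321 * M ^ 2 := by positivity
    linarith
  intro v hv hd c b hb N l m hN hl hm hbd hbs hw
  have hN0 : 0 ≤ N := (integral_nonneg fun x => osq_nonneg v x).trans hN
  set D := ∫ x in ball (0 : V) 1, κ x ^ 2 * dsq v x with hD
  have hD0 : 0 ≤ D := integral_nonneg fun x => mul_nonneg (sq_nonneg _) (dsq_nonneg v x)
  set φ : V → ℝ := fun z => κ z * κ z with hφ
  have hkφ : Ker φ := hκ.ker2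
  set w : V → V := fun x k => v x k - c k - b x k with hwdef
  have hwe : ∀ x, v x - c - b x = w x := fun x => rfl
  have hws : ContDiff ℝ ∞ w := contDiff_pi.2 fun k =>
    ((sm_comp hv k).sub contDiff_const).sub (sm_comp hb k)
  have hwc : Continuous w := hws.continuous
  have hkc : Continuous κ := hκ.smooth.continuous
  have hoc := (osq_smooth hv).continuous
  let P : Fin 3 → Fin 3 → Fin 3 → V → ℝ := fun i j k z => 4 * (om v i j z * om v i k z) * φ z
  have hO : ∀ i j k, ContDiff ℝ ∞ (fun z => 4 * (om v i j z * om v i k z)) := fun i j k =>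
    contDiff_const.mul ((om_smooth hv i j).mul (om_smooth hv i k))
  have hP : ∀ i j k, Ker (P i j k) := fun i j k =>
    ⟨(hO i j k).mul hkφ.sm, fun z hz => by simp only [P, hkφ.zero z hz, mul_zero]⟩
  let I : V → ℝ := fun z => -2 * (dsq v z * φ z) + osq v z * (∑ k, (w z k + b z k) * pd k φ z)
    - (∑ i, ∑ j, ∑ k, P i j k z * pd k (fun y => b y j) z)
    + ∑ i, ∑ j, ∑ k, w z j * pd k (P i j k) z
  -- derivatives
  have hpw : ∀ k j z, pd k (fun y => w y j) z
      = pd k (fun y => v y j) z - pd k (fun y => b y j) z := by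
    intro k j z
    have e : (fun y => w y j) = fun y => (v y j - c j) - b y j := rfl
    rw [e, Pool.Agent.W135.MD.pd_sub' (Pool.Agent.W135.MD.sm_diff
      ((sm_comp hv j).sub contDiff_const)) (Pool.Agent.W135.MD.sm_diff (sm_comp hb j)),
      Pool.Agent.W135.MD.pd_sub' (Pool.Agent.W135.MD.sm_diff (sm_comp hv j))
          (differentiable_const _), Pool.Agent.W135.MD.pd_const', sub_zero]
  have hpwP : ∀ i j k z, pd k (fun z => w z j * P i j k z) z
      = w z j * pd k (P i j k) z + pd k (fun y => w y j) z * P i j k z := fun i j k z =>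
    pd_mul' (sm_comp hws j) (hP i j k).sm k z
  have hKw : ∀ i j k, Ker (fun z => w z j * P i j k z) := fun i j k =>
    (hP i j k).mul (sm_comp hws j)
  have hZ : ∫ z in ball (0 : V) 1, ∑ i, ∑ j, ∑ k, pd k (fun z => w z j * P i j k z) z = 0 := by
    rw [setIntegral_eq_integral_of_forall_compl_eq_zero fun z hz => Finset.sum_eq_zero fun i _ =>
      Finset.sum_eq_zero fun j _ => Finset.sum_eq_zero fun k _ => ((hKw i j k).pd k).zero z hz]
    exact (Z.sum fun i => Z.sum fun j => Z.sum fun k => Z_pd (hKw i j k).sm (hKw i j k).cs k).2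
  have hpdc : ∀ k, Continuous (pd k φ) := fun k => (hkφ.pd k).sm.continuous
  have hlapc : Continuous (lap φ) := by
    unfold lap
    exact continuous_finsetSum _ fun k _ => ((hkφ.pd k).pd k).sm.continuous
  have hbc : ∀ k, Continuous fun z => b z k := fun k => (sm_comp hb k).continuous
  have hwk : ∀ k, Continuous fun z => w z k := fun k => (sm_comp hws k).continuous
  have hIc : Continuous I := by
    refine ((Continuous.add ?_ ?_).sub ?_).add ?_
    · exact continuous_const.mul ((dsq_cont hv).mul hkφ.sm.continuous)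
    · exact hoc.mul (continuous_finsetSum _ fun k _ => ((hwk k).add (hbc k)).mul (hpdc k))
    · exact continuous_finsetSum _ fun i _ => continuous_finsetSum _ fun j _ =>
        continuous_finsetSum _ fun k _ =>
          (hP i j k).sm.continuous.mul (sm_pd (sm_comp hb j) k).continuous
    · exact continuous_finsetSum _ fun i _ => continuous_finsetSum _ fun j _ =>
        continuous_finsetSum _ fun k _ => (hwk j).mul ((hP i j k).pd k).sm.continuous
  have hsplit : ∫ z, RR v 0 z * φ z = (∫ z in ball (0 : V) 1, I z)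
      + (∫ z in ball (0 : V) 1, osq v z * lap φ z)
      + ∑ k, c k * ∫ z in ball (0 : V) 1, osq v z * pd k φ z := by
    have h0 := RR_int hv hd 0 hkφ
    rw [h0]
    have e1 : ∀ z : V, -2 * (dsq v z * φ z) + osq v z * (lap φ z
        + ∑ k, (v z k - (0 : V) k) * pd k φ z) - str v z * φ z
        = ((I z + osq v z * lap φ z) + ∑ k, c k * (osq v z * pd k φ z))
          - ∑ i, ∑ j, ∑ k, pd k (fun z => w z j * P i j k z) z := by
      intro z
      have e2 : (∑ i, ∑ j, ∑ k, pd k (fun z => w z j * P i j k z) z)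
          = ∑ i, ∑ j, ∑ k, (w z j * pd k (P i j k) z
            + (pd k (fun y => v y j) z - pd k (fun y => b y j) z) * P i j k z) :=
        Finset.sum_congr rfl fun i _ => Finset.sum_congr rfl fun j _ => Finset.sum_congr rfl
          fun k _ => by rw [hpwP, hpw]
      have e3 : ∀ k, w z k = v z k - c k - b z k := fun k => rfl
      have e4 : ∀ i j k, P i j k z = 4 * (om v i j z * om v i k z) * φ z := fun _ _ _ => rfl
      rw [e2, str_eq]
      simp only [I]
      obtain ⟨Q, hQ⟩ : ∃ Q : Fin 3 → Fin 3 → Fin 3 → ℝ, ∀ i j k, pd k (P i j k) z = Q i j k :=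
        ⟨fun i j k => pd k (P i j k) z, fun _ _ _ => rfl⟩
      simp only [hQ, e3, e4, Fin.sum_univ_three, Pi.zero_apply]
      ring
    simp_rw [e1]
    have i0 : IntegrableOn I (ball 0 1) := int_ball hIc 0 1
    have i1 : IntegrableOn (fun z : V => osq v z * lap φ z) (ball 0 1) :=
      int_ball (hoc.mul hlapc) 0 1
    have i2 : ∀ k, IntegrableOn (fun z : V => c k * (osq v z * pd k φ z))
        (ball 0 1) := fun k => int_ball (continuous_const.mul (hoc.mul (hpdc k))) 0 1
    have i3 : IntegrableOn (fun z : V => ∑ k, c k * (osq v z * pd k φ z)) (ball 0 1) :=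
      int_ball (continuous_finsetSum _ fun k _ =>
          continuous_const.mul (hoc.mul (hpdc k))) 0 1
    have i4 : IntegrableOn (fun z : V => ∑ i, ∑ j, ∑ k, pd k (fun z => w z j * P i j k z) z)
        (ball 0 1) :=
      int_ball (continuous_finsetSum _ fun i _ => continuous_finsetSum _ fun j _ =>
        continuous_finsetSum _ fun k _ => ((hKw i j k).pd k).sm.continuous) 0 1
    have i01 : IntegrableOn (fun z : V => I z + osq v z * lap φ z) (ball 0 1) := i0.add i1
    have i013 : IntegrableOn (fun z : V => (I z + osq v z * lap φ z)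
        + ∑ k, c k * (osq v z * pd k φ z)) (ball 0 1) := i01.add i3
    rw [integral_sub i013 i4, hZ, sub_zero, integral_add i01 i3, integral_add i0 i1,
      integral_finsetSum _ fun k _ => i2 k]
    simp_rw [integral_const_mul]
  -- the pointwise bound
  have key : ∀ z ∈ ball (0 : V) 1, I z ≤ (-(3 / 2) * (κ z ^ 2 * dsq v z)
      + 23329 * (‖w z‖ ^ 2 * (κ z ^ 2 * osq v z)))
      + (12321 * M ^ 2 + (18 * M + 108) * m) * osq v z := by
    intro z hz
    have ho := osq_nonneg v z
    have hk0 := hκ.nonneg z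
    have hk1 := hκ.le_one z
    have hW0 := norm_nonneg (w z)
    have hφ0 : 0 ≤ φ z := mul_nonneg hk0 hk0
    have e1 : ∀ k, |pd k φ z| ≤ 2 * M * κ z := by
      intro k
      have e : pd k φ z = κ z * pd k κ z + pd k κ z * κ z :=
        pd_mul' hκ.smooth hκ.smooth k z
      rw [e, show κ z * pd k κ z + pd k κ z * κ z = 2 * κ z * pd k κ z by ring, abs_mul,
        abs_of_nonneg (by positivity)]
      calc 2 * κ z * |pd k κ z| ≤ 2 * κ z * M := by
            gcongr
            exact hM z k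
        _ = _ := by ring
    have e2 : ∀ i j, |om v i j z| ≤ √(osq v z) := fun i j => Real.abs_le_sqrt (om_sq_le v i j z)
    have e3 : ∀ i j k, |pd k (om v i j) z| ≤ √(dsq v z) := by
      intro i j k
      apply Real.abs_le_sqrt
      exact (Finset.single_le_sum (f := fun k => pd k (om v i j) z ^ 2)
          (fun _ _ => sq_nonneg _) (Finset.mem_univ k)).trans
        ((Finset.single_le_sum (f := fun j => ∑ k, pd k (om v i j) z ^ 2)
          (fun _ _ => Finset.sum_nonneg fun _ _ => sq_nonneg _) (Finset.mem_univ j)).trans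
          (Finset.single_le_sum (f := fun i => ∑ j, ∑ k, pd k (om v i j) z ^ 2)
            (fun _ _ => Finset.sum_nonneg fun _ _ => Finset.sum_nonneg fun _ _ => sq_nonneg _)
            (Finset.mem_univ i)))
    have hso := Real.sqrt_nonneg (osq v z)
    have hsd := Real.sqrt_nonneg (dsq v z)
    have hoo : √(osq v z) * √(osq v z) = osq v z := Real.mul_self_sqrt ho
    have e4 : ∀ i j k, |om v i j z * om v i k z| ≤ osq v z := by
      intro i j k
      rw [abs_mul, ← hoo]
      exact mul_le_mul (e2 i j) (e2 i k) (abs_nonneg _) hso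
    have e5 : ∀ i j k, |P i j k z| ≤ 4 * osq v z := by
      intro i j k
      change |4 * (om v i j z * om v i k z) * φ z| ≤ _
      rw [abs_mul, abs_mul, abs_of_nonneg hφ0, abs_of_nonneg (by norm_num : (0 : ℝ) ≤ 4)]
      have h1 : φ z ≤ 1 := mul_le_one₀ hk1 hk0 hk1
      calc 4 * |om v i j z * om v i k z| * φ z ≤ 4 * osq v z * 1 :=
            mul_le_mul (mul_le_mul_of_nonneg_left (e4 i j k) (by norm_num)) h1 hφ0 (by positivity)
        _ = _ := mul_one _
    have e6 : ∀ i j k, |pd k (P i j k) z| ≤ 8 * (√(dsq v z) * √(osq v z)) * κ z ^ 2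
        + 8 * M * (κ z * osq v z) := by
      intro i j k
      have a1 : pd k (P i j k) z = 4 * (om v i j z * om v i k z) * pd k φ z
          + pd k (fun z => 4 * (om v i j z * om v i k z)) z * φ z :=
        pd_mul' (hO i j k) hkφ.sm k z
      have a2 : pd k (fun z => 4 * (om v i j z * om v i k z)) z
          = 4 * (om v i j z * pd k (om v i k) z + pd k (om v i j) z * om v i k z) := by
        rw [Pool.Agent.W135.MD.pd_cmul (Pool.Agent.W135.MD.sm_diff
          ((om_smooth hv i j).mul (om_smooth hv i k)))]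
        congr 1
        exact pd_mul' (om_smooth hv i j) (om_smooth hv i k) k z
      rw [a1, a2]
      have b1 : |4 * (om v i j z * om v i k z) * pd k φ z| ≤ 4 * osq v z * (2 * M * κ z) := by
        rw [abs_mul, abs_mul, abs_of_nonneg (by norm_num : (0 : ℝ) ≤ 4)]
        exact mul_le_mul (mul_le_mul_of_nonneg_left (e4 i j k) (by norm_num)) (e1 k)
          (abs_nonneg _) (by positivity)
      have b2 : |4 * (om v i j z * pd k (om v i k) z + pd k (om v i j) z * om v i k z) * φ z|
          ≤ 8 * (√(dsq v z) * √(osq v z)) * κ z ^ 2 := by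
        rw [abs_mul, abs_mul, abs_of_nonneg (by norm_num : (0 : ℝ) ≤ 4), abs_of_nonneg hφ0]
        have b3 : |om v i j z * pd k (om v i k) z + pd k (om v i j) z * om v i k z|
            ≤ 2 * (√(dsq v z) * √(osq v z)) := by
          refine (abs_add_le _ _).trans ?_
          rw [abs_mul, abs_mul]
          have b4 : |om v i j z| * |pd k (om v i k) z| ≤ √(osq v z) * √(dsq v z) :=
            mul_le_mul (e2 i j) (e3 i k k) (abs_nonneg _) hso
          have b5 : |pd k (om v i j) z| * |om v i k z| ≤ √(dsq v z) * √(osq v z) :=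
            mul_le_mul (e3 i j k) (e2 i k) (abs_nonneg _) hsd
          linarith
        calc 4 * |om v i j z * pd k (om v i k) z + pd k (om v i j) z * om v i k z| * φ z
            ≤ 4 * (2 * (√(dsq v z) * √(osq v z))) * φ z := by gcongr
          _ = _ := by rw [hφ]; ring
      refine (abs_add_le _ _).trans ?_
      calc _ ≤ 4 * osq v z * (2 * M * κ z) + 8 * (√(dsq v z) * √(osq v z)) * κ z ^ 2 :=
            add_le_add b1 b2
        _ = _ := by ring
    have e7 : ∀ k, |w z k| ≤ ‖w z‖ := fun k => norm_le_pi_norm (w z) k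
    -- the three sums
    have s1 : osq v z * (∑ k, (w z k + b z k) * pd k φ z)
        ≤ 6 * M * (κ z * osq v z * ‖w z‖) + 18 * M * m * osq v z := by
      have h1 : ∀ k, (w z k + b z k) * pd k φ z ≤ (‖w z‖ + 3 * m) * (2 * M * κ z) := by
        intro k
        calc (w z k + b z k) * pd k φ z ≤ |w z k + b z k| * |pd k φ z| := by
              rw [← abs_mul]
              exact le_abs_self _
          _ ≤ _ := mul_le_mul ((abs_add_le _ _).trans (add_le_add (e7 k) (hbs z hz k))) (e1 k)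
              (abs_nonneg _) (by positivity)
      have h2 : ∑ k, (w z k + b z k) * pd k φ z ≤ 3 * ((‖w z‖ + 3 * m) * (2 * M * κ z)) := by
        calc _ ≤ ∑ _k : Fin 3, (‖w z‖ + 3 * m) * (2 * M * κ z) := Finset.sum_le_sum fun k _ => h1 k
          _ = _ := by simp
      have h3 : osq v z * (3 * ((‖w z‖ + 3 * m) * (2 * M * κ z)))
          = 6 * M * (κ z * osq v z * ‖w z‖) + 18 * M * m * osq v z * κ z := by ring
      have h4 : 18 * M * m * osq v z * κ z ≤ 18 * M * m * osq v z * 1 :=
        mul_le_mul_of_nonneg_left hk1 (by positivity)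
      have h5 := mul_le_mul_of_nonneg_left h2 ho
      linarith
    have s2 : -(∑ i, ∑ j, ∑ k, P i j k z * pd k (fun y => b y j) z) ≤ 108 * m * osq v z := by
      have h1 : ∀ i j k, -(P i j k z * pd k (fun y => b y j) z) ≤ 4 * osq v z * m := by
        intro i j k
        calc -(P i j k z * pd k (fun y => b y j) z) ≤ |P i j k z| * |pd k (fun y => b y j) z| := by
              rw [← abs_mul]
              exact neg_le_abs _
          _ ≤ _ := mul_le_mul (e5 i j k) (hbd z hz k j) (abs_nonneg _) (by positivity)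
      rw [← Finset.sum_neg_distrib]
      simp_rw [← Finset.sum_neg_distrib]
      calc _ ≤ ∑ _i : Fin 3, ∑ _j : Fin 3, ∑ _k : Fin 3, 4 * osq v z * m :=
            Finset.sum_le_sum fun i _ => Finset.sum_le_sum fun j _ => Finset.sum_le_sum
              fun k _ => h1 i j k
        _ = _ := by
          simp only [Fin.sum_univ_three]
          ring
    have s3 : ∑ i, ∑ j, ∑ k, w z j * pd k (P i j k) z
        ≤ 216 * (‖w z‖ * ((κ z * √(dsq v z)) * (κ z * √(osq v z))))
          + 216 * M * (‖w z‖ * (κ z * osq v z)) := by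
      have h1 : ∀ i j k, w z j * pd k (P i j k) z ≤ ‖w z‖ * (8 * (√(dsq v z) * √(osq v z))
          * κ z ^ 2 + 8 * M * (κ z * osq v z)) := by
        intro i j k
        calc w z j * pd k (P i j k) z ≤ |w z j| * |pd k (P i j k) z| := by
              rw [← abs_mul]
              exact le_abs_self _
          _ ≤ _ := mul_le_mul (e7 j) (e6 i j k) (abs_nonneg _) hW0
      calc _ ≤ ∑ _i : Fin 3, ∑ _j : Fin 3, ∑ _k : Fin 3, ‖w z‖ * (8 * (√(dsq v z) * √(osq v z))
          * κ z ^ 2 + 8 * M * (κ z * osq v z)) :=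
            Finset.sum_le_sum fun i _ => Finset.sum_le_sum fun j _ => Finset.sum_le_sum
              fun k _ => h1 i j k
        _ = _ := by
          simp only [Fin.sum_univ_three]
          ring
    have hnum := vel_num (A := κ z * √(dsq v z)) (O := κ z * √(osq v z)) (W := ‖w z‖)
      (o := osq v z) (k := κ z) (m := m) (M := M) ho (by rw [mul_pow, Real.sq_sqrt ho])
    have hA2 : (κ z * √(dsq v z)) ^ 2 = κ z ^ 2 * dsq v z := by
      rw [mul_pow, Real.sq_sqrt (dsq_nonneg v z)]
    rw [hA2] at hnum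
    have hI : I z = -2 * (κ z ^ 2 * dsq v z) + osq v z * (∑ k, (w z k + b z k) * pd k φ z)
        - (∑ i, ∑ j, ∑ k, P i j k z * pd k (fun y => b y j) z)
        + ∑ i, ∑ j, ∑ k, w z j * pd k (P i j k) z := by
      simp only [I, hφ]
      ring
    rw [hI]
    linarith
  -- integration
  have hnw : Continuous fun z => ‖w z‖ := hwc.norm
  have c1 : Continuous fun z : V => κ z ^ 2 * dsq v z := (hkc.pow 2).mul (dsq_cont hv)
  have c2 : Continuous fun z : V => κ z ^ 2 * osq v z := (hkc.pow 2).mul hoc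
  have c3 : Continuous fun z : V => ‖w z‖ ^ 2 * (κ z ^ 2 * osq v z) := (hnw.pow 2).mul c2
  have hint : ∫ z in ball (0 : V) 1, I z ≤ -(3 / 2) * D
      + 23329 * (∫ z in ball (0 : V) 1, ‖w z‖ ^ 2 * (κ z ^ 2 * osq v z))
      + (12321 * M ^ 2 + (18 * M + 108) * m) * N := by
    have j1 : IntegrableOn (fun z : V => -(3 / 2) * (κ z ^ 2 * dsq v z)) (ball 0 1) :=
      int_ball (continuous_const.mul c1) 0 1
    have j2 : IntegrableOn (fun z : V => 23329 * (‖w z‖ ^ 2 * (κ z ^ 2 * osq v z))) (ball 0 1) :=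
      int_ball (continuous_const.mul c3) 0 1
    have j3 : IntegrableOn (fun z : V => (12321 * M ^ 2 + (18 * M + 108) * m) * osq v z)
        (ball 0 1) := int_ball (continuous_const.mul hoc) 0 1
    have j12 : IntegrableOn (fun z : V => -(3 / 2) * (κ z ^ 2 * dsq v z)
      + 23329 * (‖w z‖ ^ 2 * (κ z ^ 2 * osq v z))) (ball 0 1) := j1.add j2
    refine (setIntegral_mono_on (int_ball hIc 0 1) (j12.add j3) measurableSet_ball key).trans ?_
    change ∫ z in ball (0 : V) 1, ((-(3 / 2) * (κ z ^ 2 * dsq v z)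
      + 23329 * (‖w z‖ ^ 2 * (κ z ^ 2 * osq v z)))
      + (12321 * M ^ 2 + (18 * M + 108) * m) * osq v z) ≤ _
    rw [integral_add j12 j3, integral_add j1 j2, integral_const_mul, integral_const_mul,
      integral_const_mul]
    have h1 : (12321 * M ^ 2 + (18 * M + 108) * m) * (∫ z in ball (0 : V) 1, osq v z)
        ≤ (12321 * M ^ 2 + (18 * M + 108) * m) * N := mul_le_mul_of_nonneg_left hN (by positivity)
    linarith
  set ε : ℝ := 1 / (50000 * C6) with hε
  have hε0 : 0 < ε := by positivity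
  set f : V → ℝ := fun z => max (‖w z‖ - l) 0 with hf
  have hfc : Continuous f := (hnw.sub continuous_const).max continuous_const
  have hf0 : ∀ z, 0 ≤ f z := fun z => le_max_right _ _
  have hg0 : ∀ z, 0 ≤ κ z ^ 2 * osq v z := fun z => mul_nonneg (sq_nonneg _) (osq_nonneg v z)
  have hX : ∫ z in ball (0 : V) 1, f z ^ 2 * (κ z ^ 2 * osq v z) ≤ ε ^ 2 * (C6 * (D + N)) := by
    refine young_opt (F3 := ∫ z in ball (0 : V) 1, f z ^ 3)
      (G3 := ∫ z in ball (0 : V) 1, (κ z ^ 2 * osq v z) ^ 3) hε0 (by positivity) hw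
      (h6 v hv N hN) ?_
    intro q hq
    have i1 : IntegrableOn (fun z : V => f z ^ 2 * (κ z ^ 2 * osq v z)) (ball 0 1) :=
      int_ball ((hfc.pow 2).mul c2) 0 1
    have i2 : IntegrableOn (fun z : V => f z ^ 3) (ball 0 1) := int_ball (hfc.pow 3) 0 1
    have i3 : IntegrableOn (fun z : V => (κ z ^ 2 * osq v z) ^ 3) (ball 0 1) :=
      int_ball (c2.pow 3) 0 1
    have h1 : ∫ z in ball (0 : V) 1, f z ^ 2 * (κ z ^ 2 * osq v z)
        ≤ ∫ z in ball (0 : V) 1, ((2 * q / 3) * f z ^ 3 + (1 / (3 * q ^ 2))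
          * (κ z ^ 2 * osq v z) ^ 3) := by
      refine setIntegral_mono i1 ((i2.const_mul _).add (i3.const_mul _)) fun z => ?_
      refine (young_pt (hf0 z) (hg0 z) hq).trans (le_of_eq ?_)
      field_simp
    refine h1.trans (le_of_eq ?_)
    rw [integral_add (i2.const_mul _) (i3.const_mul _), integral_const_mul, integral_const_mul]
    field_simp
  have hY : ∫ z in ball (0 : V) 1, ‖w z‖ ^ 2 * (κ z ^ 2 * osq v z)
      ≤ 2 * l ^ 2 * N + 2 * (ε ^ 2 * (C6 * (D + N))) := by
    have i1 : IntegrableOn (fun z : V => f z ^ 2 * (κ z ^ 2 * osq v z)) (ball 0 1) :=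
      int_ball ((hfc.pow 2).mul c2) 0 1
    have i2 : IntegrableOn (fun z : V => osq v z) (ball 0 1) := int_ball hoc 0 1
    have h1 : ∫ z in ball (0 : V) 1, ‖w z‖ ^ 2 * (κ z ^ 2 * osq v z)
        ≤ ∫ z in ball (0 : V) 1, ((2 * l ^ 2) * osq v z
          + 2 * (f z ^ 2 * (κ z ^ 2 * osq v z))) := by
      refine setIntegral_mono (int_ball c3 0 1) ((i2.const_mul _).add (i1.const_mul _)) fun z => ?_
      change ‖w z‖ ^ 2 * (κ z ^ 2 * osq v z) ≤ (2 * l ^ 2) * osq v z
          + 2 * (f z ^ 2 * (κ z ^ 2 * osq v z))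
      have h2 : ‖w z‖ ≤ l + f z := by
        have := le_max_left (‖w z‖ - l) 0
        simp only [hf]
        linarith
      have h3 : ‖w z‖ ^ 2 ≤ 2 * l ^ 2 + 2 * f z ^ 2 := by
        have h4 : ‖w z‖ ^ 2 ≤ (l + f z) ^ 2 := pow_le_pow_left₀ (norm_nonneg _) h2 2
        nlinarith [sq_nonneg (l - f z)]
      have h5 : κ z ^ 2 * osq v z ≤ 1 * osq v z :=
        mul_le_mul_of_nonneg_right (pow_le_one₀ (hκ.nonneg z) (hκ.le_one z)) (osq_nonneg v z)
      calc ‖w z‖ ^ 2 * (κ z ^ 2 * osq v z) ≤ (2 * l ^ 2 + 2 * f z ^ 2) * (κ z ^ 2 * osq v z) :=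
            mul_le_mul_of_nonneg_right h3 (hg0 z)
        _ = 2 * l ^ 2 * (κ z ^ 2 * osq v z) + 2 * (f z ^ 2 * (κ z ^ 2 * osq v z)) := by ring
        _ ≤ 2 * l ^ 2 * (1 * osq v z) + 2 * (f z ^ 2 * (κ z ^ 2 * osq v z)) := by
            have := mul_le_mul_of_nonneg_left h5 (show (0 : ℝ) ≤ 2 * l ^ 2 by positivity)
            linarith
        _ = _ := by ring
    refine h1.trans ?_
    rw [integral_add (i2.const_mul _) (i1.const_mul _), integral_const_mul, integral_const_mul]
    have h2 : 2 * l ^ 2 * (∫ z in ball (0 : V) 1, osq v z) ≤ 2 * l ^ 2 * N :=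
      mul_le_mul_of_nonneg_left hN (by positivity)
    linarith
  rw [hsplit]
  have hεC : 46658 * (ε ^ 2 * C6) ≤ 1 := by
    have h1 : ε ^ 2 * C6 = 1 / (50000 ^ 2 * C6) := by
      rw [hε]
      field_simp
    rw [h1, mul_one_div, div_le_one (by positivity)]
    linarith
  have hfin : ∫ z in ball (0 : V) 1, I z
      ≤ (46658 + 12321 * M ^ 2 + 18 * M + 108) * ((1 + l ^ 2 + m) * N) := by
    have h1 : 23329 * (2 * (ε ^ 2 * (C6 * (D + N)))) ≤ 1 * (D + N) := by
      have h2 : 23329 * (2 * (ε ^ 2 * (C6 * (D + N)))) = 46658 * (ε ^ 2 * C6) * (D + N) := by ring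
      rw [h2]
      exact mul_le_mul_of_nonneg_right hεC (by positivity)
    have h3 : 0 ≤ l ^ 2 * N := by positivity
    have h4 : 0 ≤ m * N := by positivity
    have h5 : 0 ≤ M ^ 2 * (l ^ 2 * N) := by positivity
    have h6 : 0 ≤ M ^ 2 * (m * N) := by positivity
    have h7 : 0 ≤ M * (l ^ 2 * N) := by positivity
    have h8 : 0 ≤ M * N := by positivity
    have e : (46658 + 12321 * M ^ 2 + 18 * M + 108) * ((1 + l ^ 2 + m) * N)
        = 46766 * N + 46766 * (l ^ 2 * N) + 46766 * (m * N) + 12321 * M ^ 2 * N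
          + 12321 * (M ^ 2 * (l ^ 2 * N)) + 12321 * (M ^ 2 * (m * N)) + 18 * (M * N)
          + 18 * (M * (l ^ 2 * N)) + 18 * M * m * N := by ring
    rw [e]
    linarith
  linarith

end Pool.Agent.H946.NS
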