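import Pool.Agent.H946_NS.One2

/-!
The localised enstrophy for a general cut-off function.
-/

set_option autoImplicit false

open MeasureTheory Set Metric Filter Topology
open scoped ContDiff ENNReal

namespace Pool.Agent.H946.NS

open H459R3.NS W221.NS Pool.Agent.W583.MD

variable {κ : V → ℝ}

/-- The localised enstrophy at the scale `r` around the point `x`. -/
noncomputable def enk (κ : V → ℝ) (r : ℝ) (v : V → V) (x : V) : ℝ :=
  r ^ 3 * ∫ z, osq v (x + r • z) * (κ z * κ z)

theorem enk_kv (κ : V → ℝ) (r : ℝ) (v : V → V) (x : V) :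
    enk κ r v x = r ^ 3 * kv (fun z : V => κ z * κ z) r (osq v) x := by
  unfold enk kv
  congr 1
  refine integral_congr_ae (Eventually.of_forall fun z => ?_)
  simp only
  ring

theorem enk_smooth (hκ : Cut κ) {v : V → V} (hv : ContDiff ℝ ∞ v) (r : ℝ) :
    ContDiff ℝ ∞ (enk κ r v) := by
  have e : enk κ r v = fun x => r ^ 3 * kv (fun z : V => κ z * κ z) r (osq v) x :=
    funext fun x => enk_kv κ r v x
  rw [e]
  exact contDiff_const.mul (kv_smooth_x hκ.ker2 (osq_smooth hv) r)

theorem enk_nonneg (hκ : Cut κ) {r : ℝ} (hr : 0 < r) (v : V → V) (x : V) : 0 ≤ enk κ r v x :=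
  mul_nonneg (by positivity) (integral_nonneg fun z => mul_nonneg (osq_nonneg v _)
    (mul_nonneg (hκ.nonneg z) (hκ.nonneg z)))

theorem per_enk (κ : V → ℝ) {v : V → V} (hv : Per v) (r : ℝ) : Per (enk κ r v) := by
  intro k x
  unfold enk
  congr 1
  refine integral_congr_ae (Eventually.of_forall fun z => ?_)
  have e : x + Pi.single k 1 + r • z = (x + r • z) + Pi.single k 1 := by abel
  simp only [e]
  rw [per_osq hv k]

theorem enk_cont (hκ : Cut κ) {α β : ℝ} {u : ℝ → V → V}
    (hu : ContDiffOn ℝ ∞ (fun z : ℝ × V => u z.1 z.2) (Ioo α β ×ˢ univ)) (r : ℝ) :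
    ContinuousOn (fun q : ℝ × V => enk κ r (u q.1) q.2) (Ioo α β ×ˢ univ) := by
  unfold enk
  refine continuousOn_const.mul ?_
  refine continuousOn_integral_of_compact_support (isCompact_closedBall (0 : V) 1)
    (f := fun (q : ℝ × V) (z : V) => osq (u q.1) (q.2 + r • z) * (κ z * κ z)) ?_ ?_
  · have h1 : ContinuousOn (fun q : (ℝ × V) × V => osq (u q.1.1) (q.1.2 + r • q.2))
        ((Ioo α β ×ˢ univ) ×ˢ univ) :=
      (osq_joint hu).continuousOn.comp (f := fun q : (ℝ × V) × V => ((q.1.1, q.1.2 + r • q.2) : ℝ × V))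
        (by fun_prop) (fun q hq => ⟨hq.1.1, mem_univ _⟩)
    have h2 : Continuous fun q : (ℝ × V) × V => κ q.2 :=
      hκ.smooth.continuous.comp continuous_snd
    exact h1.mul (h2.mul h2).continuousOn
  · intro q z _ hz
    change osq (u q.1) (q.2 + r • z) * (κ z * κ z) = 0
    rw [hκ.zero z fun h => hz (ball_subset_closedBall h)]
    ring

/-- The localised enstrophy increases with the scale. -/
theorem enk_mono (hκ : Cut κ) {v : V → V} (hv : ContDiff ℝ ∞ v) {r r' : ℝ} (hr' : 0 < r')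
    (h : r' ≤ r) (x : V) : enk κ r' v x ≤ enk κ r v x := by
  have hr : 0 < r := hr'.trans_le h
  set s := r / r' with hs
  have hs1 : 1 ≤ s := (one_le_div hr').2 h
  have hs0 : 0 < s := by linarith
  unfold enk
  have h1 := Measure.integral_comp_smul (volume : Measure V)
    (fun z => osq v (x + r' • z) * (κ z * κ z)) s
  rw [Module.finrank_fin_fun, abs_of_nonneg (by positivity), smul_eq_mul] at h1
  have h2 : ∫ z, osq v (x + r' • z) * (κ z * κ z)
      = s ^ 3 * ∫ z, osq v (x + r' • s • z) * (κ (s • z) * κ (s • z)) := by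
    rw [h1]
    field_simp
  have h3 : ∀ z : V, r' • s • z = r • z := fun z => by
    rw [smul_smul, hs, mul_div_cancel₀ _ hr'.ne']
  rw [h2]
  simp_rw [h3]
  have h4 : r' ^ 3 * (s ^ 3 * ∫ z, osq v (x + r • z) * (κ (s • z) * κ (s • z)))
      = r ^ 3 * ∫ z, osq v (x + r • z) * (κ (s • z) * κ (s • z)) := by
    rw [← mul_assoc, ← mul_pow, hs, mul_div_cancel₀ _ hr'.ne']
  rw [h4]
  refine mul_le_mul_of_nonneg_left ?_ (by positivity)
  have hoc : Continuous fun z : V => osq v (x + r • z) :=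
    (osq_smooth hv).continuous.comp (by fun_prop)
  refine integral_mono_of_nonneg (Eventually.of_forall fun z => mul_nonneg (osq_nonneg v _)
    (mul_nonneg (hκ.nonneg _) (hκ.nonneg _))) (int_cs (hoc.mul hκ.ker2.sm.continuous)
      hκ.ker2.cs.mul_left) (Eventually.of_forall fun z => ?_)
  exact mul_le_mul_of_nonneg_left (mul_le_mul (hκ.ray z s hs1) (hκ.ray z s hs1) (hκ.nonneg _)
    (hκ.nonneg _)) (osq_nonneg v _)

/-- The enstrophy of a small ball. -/
theorem enk_low (hκ : Cut κ) {a : ℝ} (ha : 0 < a) (ha1 : a ≤ 1)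
    (hlow : ∀ z ∈ ball (0 : V) a, a ≤ κ z) {r : ℝ} (hr : 0 < r) {v : V → V}
    (hv : ContDiff ℝ ∞ v) (x : V) :
    a ^ 2 * ∫ y in ball x (a * r), osq v y ≤ enk κ r v x := by
  have hc : Continuous fun z : V => osq v (x + r • z) := (osq_smooth hv).continuous.comp (by fun_prop)
  have hk : Continuous κ := hκ.smooth.continuous
  have h1 : a ^ 2 * ∫ z in ball (0 : V) a, osq v (x + r • z)
      ≤ ∫ z, osq v (x + r • z) * (κ z * κ z) := by
    rw [← integral_const_mul]
    have h2 : ∫ z in ball (0 : V) a, a ^ 2 * osq v (x + r • z)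
        ≤ ∫ z in ball (0 : V) a, osq v (x + r • z) * (κ z * κ z) := by
      refine setIntegral_mono_on (int_ball (continuous_const.mul hc) 0 a)
        (int_ball (hc.mul (hk.mul hk)) 0 a) measurableSet_ball fun z hz => ?_
      have h3 := hlow z hz
      have h4 : a ^ 2 ≤ κ z * κ z := by nlinarith
      calc a ^ 2 * osq v (x + r • z) ≤ (κ z * κ z) * osq v (x + r • z) :=
            mul_le_mul_of_nonneg_right h4 (osq_nonneg v _)
        _ = _ := by ring
    have h5 : ∫ z, osq v (x + r • z) * (κ z * κ z)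
        = ∫ z in ball (0 : V) 1, osq v (x + r • z) * (κ z * κ z) := by
      rw [setIntegral_eq_integral_of_forall_compl_eq_zero]
      intro z hz
      rw [hκ.zero z hz]
      ring
    rw [h5]
    exact h2.trans (ball_mono (hc.mul (hk.mul hk)) (fun z => mul_nonneg (osq_nonneg v _)
      (mul_nonneg (hκ.nonneg z) (hκ.nonneg z))) (ball_subset_ball ha1))
  rw [cov' (osq v) x hr, mul_comm r] at h1
  unfold enk
  calc a ^ 2 * ∫ y in ball x (a * r), osq v y
      = r ^ 3 * (a ^ 2 * ((r ^ 3)⁻¹ * ∫ y in ball x (a * r), osq v y)) := by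
        field_simp
    _ ≤ _ := mul_le_mul_of_nonneg_left h1 (by positivity)

/-- The enstrophy of a ball, if the localised enstrophies are bounded. -/
theorem enk_cover (hκ : Cut κ) : ∃ C : ℝ, 1 ≤ C ∧ ∀ v : V → V, ContDiff ℝ ∞ v →
    ∀ (r M : ℝ) (x : V), 0 < r → (∀ w, enk κ r v w ≤ M) → ∫ y in ball x r, osq v y ≤ C * M := by
  obtain ⟨a, ha, ha1, hlow⟩ := hκ.low
  refine ⟨(2 / a) ^ 3 / a ^ 2, ?_, ?_⟩
  · have h1 : 1 ≤ 2 / a := by
      rw [le_div_iff₀ ha]
      linarith
    rw [le_div_iff₀ (by positivity), one_mul]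
    have h2 : a ^ 2 ≤ 1 := pow_le_one₀ ha.le ha1
    have h3 : 1 ≤ (2 / a) ^ 3 := one_le_pow₀ h1
    linarith
  intro v hv r M x hr hM
  have hM0 : 0 ≤ M := (enk_nonneg hκ hr v 0).trans (hM 0)
  have h1 : ∀ w ∈ ball x (r + a * r), ∫ y in ball w (a * r), osq v y ≤ M / a ^ 2 := by
    intro w _
    rw [le_div_iff₀ (by positivity), mul_comm]
    exact (enk_low hκ ha ha1 hlow hr hv w).trans (hM w)
  have h2 := cover (osq_smooth hv).continuous (osq_nonneg v) (x := x) (ρ := r) (s := a * r)
    (M := M / a ^ 2) hr (by positivity) h1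
  refine h2.trans ?_
  have h3 : (r + a * r) / (a * r) ≤ 2 / a := by
    have : (r + a * r) / (a * r) = (1 + a) / a := by
      field_simp
    rw [this]
    exact div_le_div_of_nonneg_right (by linarith) ha.le
  calc ((r + a * r) / (a * r)) ^ 3 * (M / a ^ 2) ≤ (2 / a) ^ 3 * (M / a ^ 2) := by
        have : 0 ≤ (r + a * r) / (a * r) := by positivity
        gcongr
    _ = _ := by ring

/-- The conditions at a maximum. -/
theorem enk_max (hκ : Cut κ) {v : V → V} (hv : ContDiff ℝ ∞ v) {r : ℝ} (hr : 0 < r) {x : V}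
    (hx : IsLocalMax (enk κ r v) x) :
    (∀ k, ∫ z in ball (0 : V) 1, osq (scv r x v) z * pd k (fun z : V => κ z * κ z) z = 0) ∧
      ∫ z in ball (0 : V) 1, osq (scv r x v) z * lap (fun z : V => κ z * κ z) z ≤ 0 := by
  have hos := osq_smooth hv
  have hx' : IsLocalMax (kv (fun z : V => κ z * κ z) r (osq v)) x := by
    filter_upwards [hx] with y hy
    rw [enk_kv, enk_kv] at hy
    exact le_of_mul_le_mul_left hy (by positivity)
  have hks := kv_smooth_x hκ.ker2 hos r
  have hconv : ∀ (φ : V → ℝ), Ker φ → ∫ z in ball (0 : V) 1, osq (scv r x v) z * φ z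
      = r ^ 4 * kv φ r (osq v) x := by
    intro φ hφ
    unfold kv
    rw [← integral_const_mul, setIntegral_eq_integral_of_forall_compl_eq_zero fun z hz => by
      rw [hφ.zero z hz, mul_zero]]
    refine integral_congr_ae (Eventually.of_forall fun z => ?_)
    simp only [osq_scv hv]
    ring
  constructor
  · intro k
    rw [hconv _ (hκ.ker2.pd k), kv_ibp hκ.ker2 hos]
    have h1 := pd_localmax hx' k
    rw [pd_kv hκ.ker2 hos] at h1
    rw [h1]
    ring
  · have hsum : ∫ z in ball (0 : V) 1, osq (scv r x v) z * lap (fun z : V => κ z * κ z) z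
        = ∑ k, ∫ z in ball (0 : V) 1, osq (scv r x v) z
          * pd k (pd k (fun z : V => κ z * κ z)) z := by
      unfold lap
      simp_rw [Finset.mul_sum]
      have hint : ∀ k ∈ (Finset.univ : Finset (Fin 3)), Integrable (fun z : V =>
          osq (scv r x v) z * pd k (pd k (fun z : V => κ z * κ z)) z)
          (volume.restrict (ball (0 : V) 1)) := fun k _ => int_ball
        ((osq_smooth (scv_smooth hv)).continuous.mul ((hκ.ker2.pd k).pd k).sm.continuous) 0 1
      rw [integral_finsetSum _ hint]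
    rw [hsum]
    refine Finset.sum_nonpos fun k _ => ?_
    rw [hconv _ ((hκ.ker2.pd k).pd k), kv_ibp (hκ.ker2.pd k) hos,
      kv_ibp hκ.ker2 (sm_pd hos k)]
    have h1 := pd2_localmax hks hx' k
    have h2 : pd k (kv (fun z : V => κ z * κ z) r (osq v))
        = kv (fun z : V => κ z * κ z) r (pd k (osq v)) :=
      funext fun y => pd_kv hκ.ker2 hos r k y
    rw [h2, pd_kv hκ.ker2 (sm_pd hos k)] at h1
    have e : r ^ 4 * -(r * -(r * kv (fun z : V => κ z * κ z) r (pd k (pd k (osq v))) x))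
        = r ^ 6 * kv (fun z : V => κ z * κ z) r (pd k (pd k (osq v))) x := by ring
    rw [e]
    exact mul_nonpos_of_nonneg_of_nonpos (by positivity) h1

/-- The derivative in time at a fixed point. -/
theorem enk_deriv (hκ : Cut κ) {T : ℝ} {u : ℝ → V → V} {p : ℝ → V → ℝ} (hL : LS T univ u p)
    {r : ℝ} (hr : 0 < r) {t : ℝ} (ht : t ∈ Ioo 0 T) (x : V) :
    HasDerivAt (fun s => enk κ r (u s) x)
      (r ^ 3 * ((r ^ 6)⁻¹ * ∫ z, RR (scv r x (u t)) 0 z * (κ z * κ z))) t := by
  have hu : ContDiffOn ℝ ∞ (fun z : ℝ × V => u z.1 z.2) (Ioo 0 T ×ˢ univ) := hL.smooth_u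
  have hv : ContDiff ℝ ∞ (u t) := W382.ME.cd_slice hL.smooth_u ht
  let F : ℝ → V → ℝ := fun s z => osq (u s) (x + r • z) * (κ z * κ z)
  have hF : ContDiffOn ℝ ∞ (fun z : ℝ × V => F z.1 z.2) (Ioo 0 T ×ˢ univ) := by
    have h1 : ContDiffOn ℝ ∞ (fun q : ℝ × V => ((q.1, x + r • q.2) : ℝ × V))
        (Ioo 0 T ×ˢ univ) :=
      contDiffOn_fst.prodMk (contDiffOn_const.add (contDiff_snd.const_smul r).contDiffOn)
    have h2 : ContDiffOn ℝ ∞ (fun q : ℝ × V => osq (u q.1) (x + r • q.2))
        (Ioo 0 T ×ˢ univ) :=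
      ContDiffOn.comp (g := fun z : ℝ × V => osq (u z.1) z.2)
        (f := fun q : ℝ × V => ((q.1, x + r • q.2) : ℝ × V)) (osq_joint hu) h1
        (fun q hq => ⟨hq.1, mem_univ _⟩)
    have h3 : ContDiff ℝ ∞ (fun q : ℝ × V => κ q.2 * κ q.2) :=
      ContDiff.comp (g := fun z : V => κ z * κ z) (f := Prod.snd)
        (hκ.smooth.mul hκ.smooth) contDiff_snd
    have h4 : ContDiffOn ℝ ∞ (fun q : ℝ × V => osq (u q.1) (x + r • q.2)
        * (κ q.2 * κ q.2)) (Ioo 0 T ×ˢ univ) := h2.mul h3.contDiffOn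
    exact h4
  have hd := hd_int (F := F) hF (fun s _ z hz => by
    change osq (u s) (x + r • z) * (κ z * κ z) = 0
    rw [hκ.zero z hz]; ring) ht
  have hder : ∀ z, deriv (fun s => F s z) t = (r ^ 6)⁻¹ * (RR (scv r x (u t)) 0 z
      * (κ z * κ z)) := by
    intro z
    have hyO : x + r • z ∈ (univ : Set V) := mem_univ _
    have h1 : ∀ i j, HasDerivAt (fun s => om (u s) i j (x + r • z))
        (lap (om (u t) i j) (x + r • z)
          - ∑ k, (u t (x + r • z) k - (0 : V) k) * pd k (om (u t) i j) (x + r • z)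
          - ∑ k, (om (u t) i k (x + r • z) * pd k (fun y => u t y j) (x + r • z)
            + pd k (fun y => u t y i) (x + r • z) * om (u t) k j (x + r • z))) t := by
      intro i j
      have h2 := along (f := fun s => om (u s) i j) (om_joint hu i j) ht
        (hasDerivAt_const t x) (r • z)
      refine h2.congr_deriv ?_
      rw [vort_eq hL ht hyO i j]
      simp only [Fin.sum_univ_three, Pi.zero_apply]
      ring
    have h3 : HasDerivAt (fun s => osq (u s) (x + r • z)) (RR (u t) 0 (x + r • z)) t := by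
      unfold osq RR
      refine HasDerivAt.fun_sum fun i _ => HasDerivAt.fun_sum fun j _ => ?_
      refine ((h1 i j).pow 2).congr_deriv ?_
      norm_num
    have h4 : HasDerivAt (fun s => F s z) (RR (u t) 0 (x + r • z) * (κ z * κ z)) t :=
      h3.mul_const _
    have h5 := RR_scv (r := r) (x := x) hv 0 z
    have h6 : (fun k => r * (0 : V) k) = (0 : V) := by
      funext k
      simp
    rw [h6] at h5
    rw [h4.deriv, h5]
    field_simp
  simp_rw [hder] at hd
  rw [integral_const_mul] at hd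
  exact hd.const_mul (r ^ 3)

end Pool.Agent.H946.NS
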