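import Pool.Agent.H946_NS.One3

/-!
The growth of the largest localised enstrophy, estimated by the velocity in one ball.
-/

set_option autoImplicit false

open MeasureTheory Set Metric Filter Topology
open scoped ContDiff ENNReal

namespace Pool.Agent.H946.NS

open H459R3.NS W221.NS Pool.Agent.W583.MD

variable {κ : V → ℝ}

/-- The decomposition of the velocity in a ball: a constant, a field with bounded gradient, a
bounded field and a field with small critical norm. -/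
def Split (ε l m r : ℝ) (x : V) (v : V → V) : Prop :=
  ∃ (c : V) (b : V → V), ContDiff ℝ ∞ b ∧ (∀ y ∈ ball x r, ∀ i j, |pd i (fun y => b y j) y| ≤ m) ∧
    ∫ y in ball x r, (max (‖v y - c - b y‖ - l) 0) ^ 3 ≤ ε ^ 3

/-- The derivative in time at a local maximum in space. -/
theorem enk_vel (hκ : Cut κ) : ∃ C ε : ℝ, 1 ≤ C ∧ 0 < ε ∧
    ∀ (T : ℝ) (u : ℝ → V → V) (p : ℝ → V → ℝ), LS T univ u p → ∀ (r : ℝ) (x : V), 0 < r →
      ∀ t ∈ Ioo 0 T, IsLocalMax (enk κ r (u t)) x → ∀ M l m : ℝ, (∀ w, enk κ r (u t) w ≤ M) →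
        0 ≤ l → 0 ≤ m → Split ε l m r x (u t) →
          ∃ D : ℝ, HasDerivAt (fun s => enk κ r (u s) x) D t ∧
            D ≤ C * ((1 / r ^ 2 + l ^ 2 + m) * M) := by
  obtain ⟨C, ε, hC, hε, hU⟩ := unit_vel hκ
  obtain ⟨C₀, hC₀, hcov⟩ := enk_cover hκ
  refine ⟨C * C₀, ε, by nlinarith, hε, ?_⟩
  intro T u p hL r x hr t ht hmax M l m hM hl hm ⟨c, b, hb, hbd, hS⟩
  have hv : ContDiff ℝ ∞ (u t) := W382.ME.cd_slice hL.smooth_u ht
  have hM0 : 0 ≤ M := (enk_nonneg hκ hr (u t) x).trans (hM x)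
  refine ⟨_, enk_deriv hκ hL hr ht x, ?_⟩
  set v := scv r x (u t) with hvdef
  set b' : V → V := fun z k => r * (b (x + r • z) k - b x k) with hb'
  set c' : V := fun k => r * (c k + b x k) with hc'
  have hmem : ∀ z ∈ ball (0 : V) 1, x + r • z ∈ ball x r := by
    intro z hz
    rw [mem_ball_iff_norm, add_sub_cancel_left, norm_smul, Real.norm_of_nonneg hr.le]
    rw [mem_ball_zero_iff] at hz
    nlinarith
  have hb's : ContDiff ℝ ∞ b' := contDiff_pi.2 fun k =>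
    contDiff_const.mul ((sm_scal (sm_comp hb k) x r).sub contDiff_const)
  have hpb : ∀ i k z, pd i (fun y => b' y k) z = r ^ 2 * pd i (fun y => b y k) (x + r • z) := by
    intro i k z
    have h1 : pd i (fun y => b' y k) z = r * pd i (fun y => b (x + r • y) k - b x k) z :=
      Pool.Agent.W135.MD.pd_cmul (Pool.Agent.W135.MD.sm_diff
        ((sm_scal (sm_comp hb k) x r).sub contDiff_const)) r i z
    have h2 : pd i (fun y => b (x + r • y) k - b x k) z = pd i (fun y => b (x + r • y) k) z := by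
      rw [Pool.Agent.W135.MD.pd_sub' (Pool.Agent.W135.MD.sm_diff (sm_scal (sm_comp hb k) x r))
          (differentiable_const _), Pool.Agent.W135.MD.pd_const', sub_zero]
    rw [h1, h2, pd_scal (sm_comp hb k) x r i z]
    ring
  have hdiv : ∀ y ∈ ball (0 : V) 1, dv v y = 0 := by
    intro y _
    rw [hvdef, dv_scv hv, hL.divfree t ht (x + r • y) (mem_univ _), mul_zero]
  have hN : ∫ z in ball (0 : V) 1, osq v z ≤ r * (C₀ * M) := by
    have h1 : ∀ z, osq v z = r ^ 4 * osq (u t) (x + r • z) := fun z => osq_scv hv z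
    simp_rw [h1]
    rw [integral_const_mul, cov' (osq (u t)) x hr, mul_one]
    have h2 := hcov (u t) hv r M x hr hM
    calc r ^ 4 * ((r ^ 3)⁻¹ * ∫ y in ball x r, osq (u t) y)
        = r * ∫ y in ball x r, osq (u t) y := by field_simp
      _ ≤ _ := mul_le_mul_of_nonneg_left h2 hr.le
  have hbd' : ∀ y ∈ ball (0 : V) 1, ∀ i j, |pd i (fun y => b' y j) y| ≤ r ^ 2 * m := by
    intro y hy i j
    rw [hpb, abs_mul, abs_of_nonneg (by positivity)]
    exact mul_le_mul_of_nonneg_left (hbd _ (hmem y hy) i j) (by positivity)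
  have hbs : ∀ y ∈ ball (0 : V) 1, ∀ k, |b' y k| ≤ 3 * (r ^ 2 * m) := by
    intro y hy k
    have h1 : ∀ z ∈ ball (0 : V) 1, ‖fderiv ℝ (fun y => b' y k) z‖ ≤ 3 * (r ^ 2 * m) := by
      intro z hz
      refine (Pool.Agent.W440.MD.fderiv_norm_le z).trans ?_
      calc ∑ j, |pd j (fun y => b' y k) z| ≤ ∑ _j : Fin 3, r ^ 2 * m :=
            Finset.sum_le_sum fun j _ => hbd' z hz j k
        _ = 3 * (r ^ 2 * m) := by simp
    have h2 := (convex_ball (0 : V) 1).norm_image_sub_le_of_norm_fderiv_le (𝕜 := ℝ)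
      (f := fun y => b' y k) (x := 0) (y := y)
      (fun x _ => ((sm_comp hb's k).differentiable (by simp)) x) h1
      (mem_ball_self one_pos) hy
    have h3 : b' 0 k = 0 := by simp [hb']
    rw [h3, sub_zero, sub_zero, Real.norm_eq_abs] at h2
    have h4 : ‖y‖ ≤ 1 := by
      rw [mem_ball_zero_iff] at hy
      exact hy.le
    have h5 : 0 ≤ 3 * (r ^ 2 * m) := by positivity
    calc |b' y k| ≤ 3 * (r ^ 2 * m) * ‖y‖ := h2
      _ ≤ 3 * (r ^ 2 * m) * 1 := mul_le_mul_of_nonneg_left h4 h5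
      _ = _ := mul_one _
  have hw : ∫ z in ball (0 : V) 1, (max (‖v z - c' - b' z‖ - r * l) 0) ^ 3 ≤ ε ^ 3 := by
    have h1 : ∀ z, (max (‖v z - c' - b' z‖ - r * l) 0) ^ 3
        = r ^ 3 * (max (‖u t (x + r • z) - c - b (x + r • z)‖ - l) 0) ^ 3 := by
      intro z
      have h2 : v z - c' - b' z = r • (u t (x + r • z) - c - b (x + r • z)) := by
        funext k
        simp only [hvdef, scv, hb', hc', Pi.sub_apply, Pi.smul_apply, smul_eq_mul]
        ring
      have h3 : r * ‖u t (x + r • z) - c - b (x + r • z)‖ - r * l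
          = r * (‖u t (x + r • z) - c - b (x + r • z)‖ - l) := by ring
      have h4 : max (r * (‖u t (x + r • z) - c - b (x + r • z)‖ - l)) 0
          = r * max (‖u t (x + r • z) - c - b (x + r • z)‖ - l) 0 := by
        rw [mul_max_of_nonneg _ _ hr.le, mul_zero]
      rw [h2, norm_smul, Real.norm_of_nonneg hr.le, h3, h4, mul_pow]
    simp_rw [h1]
    rw [integral_const_mul, cov' (fun y => (max (‖u t y - c - b y‖ - l) 0) ^ 3) x hr, mul_one]
    calc r ^ 3 * ((r ^ 3)⁻¹ * ∫ y in ball x r, (max (‖u t y - c - b y‖ - l) 0) ^ 3)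
        = ∫ y in ball x r, (max (‖u t y - c - b y‖ - l) 0) ^ 3 := by field_simp
      _ ≤ _ := hS
  obtain ⟨hc1, hc2⟩ := enk_max hκ hv hr hmax
  have h5 := hU v (scv_smooth hv) hdiv c' b' hb's (r * (C₀ * M)) (r * l) (r ^ 2 * m) hN
    (by positivity) (by positivity) hbd' hbs hw
  have h6 : ∑ k, c' k * ∫ z in ball (0 : V) 1, osq v z * pd k (fun z : V => κ z * κ z) z = 0 :=
    Finset.sum_eq_zero fun k _ => by rw [hc1 k, mul_zero]
  rw [h6, add_zero] at h5
  have h7 : ∫ z, RR v 0 z * (κ z * κ z)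
      ≤ C * ((1 + (r * l) ^ 2 + r ^ 2 * m) * (r * (C₀ * M))) := by linarith
  calc r ^ 3 * ((r ^ 6)⁻¹ * ∫ z, RR v 0 z * (κ z * κ z))
      ≤ r ^ 3 * ((r ^ 6)⁻¹ * (C * ((1 + (r * l) ^ 2 + r ^ 2 * m) * (r * (C₀ * M))))) := by
        gcongr
    _ = _ := by
        field_simp

/-- A first time at which the largest localised enstrophy reaches a moving level, for radii which
do not increase. -/
theorem barrier_r {t₀ T : ℝ} {r L : ℝ → ℝ} {e : ℝ → ℝ → V → ℝ}
    (hr : AntitoneOn r (Ico t₀ T)) (hrp : ∀ t ∈ Ico t₀ T, 0 < r t)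
    (hcont : ∀ ρ, ContinuousOn (fun q : ℝ × V => e ρ q.1 q.2) (Ico t₀ T ×ˢ cube))
    (hmono : ∀ t ∈ Ico t₀ T, ∀ ρ ρ' : ℝ, 0 < ρ' → ρ' ≤ ρ → ∀ x, e ρ' t x ≤ e ρ t x)
    (hL : ContinuousOn L (Ico t₀ T)) (h0 : ∀ x ∈ cube, e (r t₀) t₀ x < L t₀)
    (hex : ∃ t ∈ Ico t₀ T, ∃ x ∈ cube, L t ≤ e (r t) t x) :
    ∃ t₁ ∈ Ioo t₀ T, (∃ x ∈ cube, L t₁ ≤ e (r t₁) t₁ x) ∧
      (∀ s ∈ Ico t₀ t₁, ∀ x ∈ cube, e (r t₁) s x < L s) ∧
        ∀ s ∈ Ico t₀ t₁, ∀ x ∈ cube, e (r s) s x < L s := by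
  set A : Set ℝ := {t | t ∈ Ico t₀ T ∧ ∃ x ∈ cube, L t ≤ e (r t) t x} with hA
  obtain ⟨t', ht', x', hx', hm'⟩ := hex
  have hne : A.Nonempty := ⟨t', ht', x', hx', hm'⟩
  have hbd : BddBelow A := ⟨t₀, fun t ht => ht.1.1⟩
  set t₁ := sInf A with ht₁
  have h1 : t₀ ≤ t₁ := le_csInf hne fun t ht => ht.1.1
  have h2 : t₁ < T := (csInf_le hbd ⟨ht', x', hx', hm'⟩).trans_lt ht'.2
  have ht₁I : t₁ ∈ Ico t₀ T := ⟨h1, h2⟩
  have hbefore : ∀ s ∈ Ico t₀ t₁, ∀ x ∈ cube, e (r s) s x < L s := by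
    intro s hs x hx
    by_contra hcon
    have : t₁ ≤ s := csInf_le hbd ⟨⟨hs.1, hs.2.trans h2⟩, x, hx, not_lt.1 hcon⟩
    exact absurd this (not_le.2 hs.2)
  have hat : ∃ x ∈ cube, L t₁ ≤ e (r t₁) t₁ x := by
    by_contra hcon
    push Not at hcon
    have hev : ∀ᶠ s in 𝓝 t₁, ∀ y ∈ cube, s ∈ Ico t₀ T → e (r t₁) s y < L s := by
      have hopen := (isCompact_Icc (a := (0 : V)) (b := 1)).eventually_forall_of_forall_eventually
        (P := fun s y => (s ∈ Ico t₀ T ∧ y ∈ cube) → e (r t₁) s y < L s) (x₀ := t₁) fun y hy => by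
          have h3 : ContinuousWithinAt (fun q : ℝ × V => e (r t₁) q.1 q.2 - L q.1)
              (Ico t₀ T ×ˢ cube) (t₁, y) :=
            ((hcont (r t₁)).sub (hL.comp (f := Prod.fst) continuousOn_fst fun q hq => hq.1))
              (t₁, y) ⟨ht₁I, hy⟩
          have h4 : e (r t₁) t₁ y - L t₁ < 0 := by linarith [hcon y hy]
          have h5 := h3.tendsto.eventually_lt_const h4
          rw [nhdsWithin, eventually_inf_principal] at h5
          filter_upwards [h5] with q hq hqI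
          have := hq ⟨hqI.1, hqI.2⟩
          linarith
      filter_upwards [hopen] with s hs y hy hsI
      exact hs y hy ⟨hsI, hy⟩
    obtain ⟨δ, hδ, hb⟩ := Metric.eventually_nhds_iff_ball.1 hev
    obtain ⟨a, haA, haδ⟩ := exists_lt_of_csInf_lt hne (show sInf A < t₁ + δ by linarith)
    have ha1 : t₁ ≤ a := csInf_le hbd haA
    obtain ⟨y, hy, hLy⟩ := haA.2
    have h6 := hb a (by rw [Real.ball_eq_Ioo]; exact ⟨by linarith, haδ⟩) y hy haA.1
    have h7 := hmono a haA.1 (r t₁) (r a) (hrp a haA.1) (hr ht₁I haA.1 ha1) y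
    linarith
  have hne' : t₀ ≠ t₁ := by
    intro h
    obtain ⟨x, hx, hLx⟩ := hat
    rw [← h] at hLx
    linarith [h0 x hx]
  refine ⟨t₁, ⟨lt_of_le_of_ne h1 hne', h2⟩, hat, fun s hs x hx => ?_, hbefore⟩
  have hsI : s ∈ Ico t₀ T := ⟨hs.1, hs.2.trans h2⟩
  exact (hmono s hsI (r s) (r t₁) (hrp t₁ ht₁I) (hr hsI ht₁I hs.2.le) x).trans_lt
    (hbefore s hs x hx)

end Pool.Agent.H946.NS
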