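import Pool.Agent.H946_NS.One4

/-!
The growth of the largest localised enstrophy, estimated by the velocity in one ball.
-/

set_option autoImplicit false

open MeasureTheory Set Metric Filter Topology
open scoped ContDiff ENNReal

namespace Pool.Agent.H946.NS

open H459R3.NS W221.NS Pool.Agent.W583.MD

variable {κ : V → ℝ}

theorem deriv_left2 {h : ℝ → ℝ} {D L b δ t : ℝ} (hδ : 0 < δ) (hd : HasDerivAt h D t)
    (hs : ∀ s ∈ Ioo (t - δ) t, h s ≤ L * Real.exp (b * (s - t))) (ht : L ≤ h t) : L * b ≤ D := by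
  by_contra hcon
  rw [not_le] at hcon
  have h0 : HasDerivAt (fun s => L * Real.exp (b * (s - t))) (L * b) t := by
    have h1 : HasDerivAt (fun s : ℝ => b * (s - t)) b t := by
      simpa using ((hasDerivAt_id t).sub_const t).const_mul b
    have h2 := (h1.exp).const_mul L
    refine h2.congr_deriv ?_
    simp
  have h1 : HasDerivAt (fun s => h s - L * Real.exp (b * (s - t))) (D - L * b) t := hd.sub h0
  have h3 : ∀ᶠ s in 𝓝[<] t, 0 < h s - L * Real.exp (b * (s - t)) := by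
    have h4 := (hasDerivAt_iff_tendsto_slope.1 h1).mono_left
      (nhdsWithin_mono t (show Iio t ⊆ {t}ᶜ from fun s hs => ne_of_lt hs))
    have h5 := h4.eventually_lt_const (show D - L * b < 0 by linarith)
    filter_upwards [h5, self_mem_nhdsWithin] with s hs hst
    have hst' : s < t := hst
    rw [slope_def_field, div_lt_iff_of_neg (by linarith)] at hs
    simp only [zero_mul, sub_self, mul_zero, Real.exp_zero, mul_one] at hs
    linarith
  have h6 : ∀ᶠ s in 𝓝[<] t, s ∈ Ioo (t - δ) t := Ioo_mem_nhdsLT (by linarith)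
  obtain ⟨s, hs1, hs2⟩ := (h3.and h6).exists
  linarith [hs s hs2]

/-- The largest localised enstrophy at shrinking scales. -/
theorem grow (hκ : Cut κ) : ∃ C ε : ℝ, 1 ≤ C ∧ 0 < ε ∧
    ∀ (T : ℝ) (u : ℝ → V → V) (p : ℝ → V → ℝ), IsSol 1 T u p → ∀ t₀ t' : ℝ, 0 < t₀ → t₀ < t' →
      t' < T → ∀ r l m : ℝ → ℝ, AntitoneOn r (Icc t₀ t') → (∀ t ∈ Icc t₀ t', 0 < r t) →
        IntegrableOn (fun t => 1 / r t ^ 2 + l t ^ 2 + m t) (Ioo t₀ t') →
        (∀ᵐ t ∂((volume : Measure ℝ).restrict (Ioo t₀ t')), 0 ≤ l t ∧ 0 ≤ m t ∧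
          ((∀ s ∈ Ioo t₀ t, ∀ y, ∃ x, enk κ (r s) (u s) y ≤ enk κ (r t) (u t) x) →
            ∃ x, (∀ y, enk κ (r t) (u t) y ≤ enk κ (r t) (u t) x) ∧
              Split ε (l t) (m t) (r t) x (u t))) →
          ∀ M₀ : ℝ, 0 < M₀ → (∀ x, enk κ (r t₀) (u t₀) x < M₀) →
            ∀ x, enk κ (r t') (u t') x
              ≤ M₀ * Real.exp (C * (∫ t in Ioo t₀ t', (1 / r t ^ 2 + l t ^ 2 + m t)) + 1) := by
  obtain ⟨C, ε, hC, hε, hE⟩ := enk_vel hκ
  refine ⟨C, ε, hC, hε, ?_⟩
  intro T u p hu t₀ t' ht₀ htt ht' r l m hr hrp hint hsplit M₀ hM₀ h0 x'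
  have hL := LS.of_IsSol hu
  have hsub : Icc t₀ t' ⊆ Ioo 0 T := fun t ht => ⟨ht₀.trans_le ht.1, ht.2.trans_lt ht'⟩
  have hper : ∀ t ∈ Icc t₀ t', Per (u t) := fun t ht => hu.per_u t ⟨(hsub ht).1.le, (hsub ht).2⟩
  have hsm : ∀ t ∈ Icc t₀ t', ContDiff ℝ ∞ (u t) := fun t ht =>
    W382.ME.cd_slice hL.smooth_u (hsub ht)
  set g : ℝ → ℝ := fun t => 1 / r t ^ 2 + l t ^ 2 + m t with hg
  set Rec : ℝ → Prop := fun t => ∀ s ∈ Ioo t₀ t, ∀ y, ∃ x,
    enk κ (r s) (u s) y ≤ enk κ (r t) (u t) x with hRec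
  set P : ℝ → Prop := fun t => 0 ≤ l t ∧ 0 ≤ m t ∧
          (Rec t → ∃ x, (∀ y, enk κ (r t) (u t) y ≤ enk κ (r t) (u t) x) ∧
            Split ε (l t) (m t) (r t) x (u t)) with hP
  -- the maximum
  have hmaxex : ∀ t ∈ Icc t₀ t', ∃ x, ∀ y, enk κ (r t) (u t) y ≤ enk κ (r t) (u t) x := by
    intro t ht
    obtain ⟨x, hx, hmax⟩ := (isCompact_Icc (a := (0 : V)) (b := 1)).exists_isMaxOn
      ⟨0, le_rfl, zero_le_one⟩ (enk_smooth hκ (hsm t ht) (r t)).continuous.continuousOn
    refine ⟨x, fun y => ?_⟩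
    obtain ⟨y', hy', e⟩ := W398.MD.FLOWX.per_cube (per_enk κ (hper t ht) (r t)) y
    rw [e]
    exact hmax hy'
  -- the rate
  have hrate : ∀ t, ∃ γ : ℝ, 0 ≤ γ ∧ (P t → γ = C * g t) ∧ (t ∈ Ioo t₀ t' → Rec t →
      ∃ x, (∀ y, enk κ (r t) (u t) y ≤ enk κ (r t) (u t) x) ∧ ∃ D : ℝ,
        HasDerivAt (fun s => enk κ (r t) (u s) x) D t ∧
          (0 < enk κ (r t) (u t) x → D ≤ γ * enk κ (r t) (u t) x)) := by
    intro t
    by_cases hPt : P t
    · obtain ⟨hl, hm, hPx⟩ := hPt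
      refine ⟨C * g t, by positivity, fun _ => rfl, fun ht hRt => ?_⟩
      obtain ⟨x, hmax, hS⟩ := hPx hRt
      have htI := Ioo_subset_Icc_self ht
      obtain ⟨D, hD, hDle⟩ := hE T u p hL (r t) x (hrp t htI) t (hsub htI)
        (Eventually.of_forall hmax) (enk κ (r t) (u t) x) (l t) (m t) hmax hl hm hS
      refine ⟨x, hmax, D, hD, fun _ => hDle.trans (le_of_eq ?_)⟩
      rw [hg]
      ring
    · by_cases ht : t ∈ Ioo t₀ t'
      · obtain ⟨x, hmax⟩ := hmaxex t (Ioo_subset_Icc_self ht)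
        have hD := enk_deriv hκ hL (hrp t (Ioo_subset_Icc_self ht)) (hsub (Ioo_subset_Icc_self ht)) x
        refine ⟨|(r t ^ 3 * ((r t ^ 6)⁻¹ * ∫ z, RR (scv (r t) x (u t)) 0 z * (κ z * κ z)))
          / enk κ (r t) (u t) x|, abs_nonneg _, fun h => absurd h hPt,
          fun _ _ => ⟨x, hmax, _, hD, fun hpos => ?_⟩⟩
        rw [abs_div, abs_of_pos hpos, div_mul_cancel₀ _ hpos.ne']
        exact le_abs_self _
      · exact ⟨0, le_rfl, fun h => absurd h hPt, fun h => absurd h ht⟩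
  choose g' hg'0 hg'1 hg'2 using hrate
  have hae : g' =ᵐ[(volume : Measure ℝ).restrict (Ioo t₀ t')] fun t => C * g t := by
    filter_upwards [hsplit] with t ht
    exact hg'1 t ht
  have hint' : IntegrableOn g' (Ioo t₀ t') := (hint.const_mul C).congr hae.symm
  have hval : ∫ t in Ioo t₀ t', g' t = C * ∫ t in Ioo t₀ t', g t := by
    rw [integral_congr_ae hae, integral_const_mul]
  set f : ℝ → ℝ := (Ioo t₀ t').indicator g' with hf
  have hfi : Integrable f := (integrable_indicator_iff measurableSet_Ioo).2 hint'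
  have hfv : ∫ t, f t = C * ∫ t in Ioo t₀ t', g t := by
    rw [hf, integral_indicator measurableSet_Ioo, hval]
  obtain ⟨B, hfB, hBl, hBi, hBt, hBv⟩ := exists_lt_lowerSemicontinuous_integral_lt f hfi one_pos
  set Br : ℝ → ℝ := fun t => (B t).toReal with hBr
  have hlow : ∀ᵐ t, f t ≤ Br t := by
    filter_upwards [hBt] with t ht
    have h1 : ((f t : ℝ) : EReal) < B t := hfB t
    have h2 : B t ≠ ⊤ := ht.ne
    have h3 : B t ≠ ⊥ := (bot_le.trans_lt h1).ne'
    have h4 : ((Br t : ℝ) : EReal) = B t := EReal.coe_toReal h2 h3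
    rw [← h4, EReal.coe_lt_coe_iff] at h1
    exact h1.le
  set G : ℝ → ℝ := fun s => ∫ τ in t₀..s, Br τ with hG
  have hBr0 : ∀ᵐ t, 0 ≤ Br t := by
    filter_upwards [hlow] with t ht
    refine le_trans ?_ ht
    rw [hf]
    exact indicator_nonneg (fun t _ => hg'0 t) t
  have hGm : Monotone G := by
    intro s s' hss
    have h3 : G s' - G s = ∫ τ in s..s', Br τ :=
      intervalIntegral.integral_interval_sub_left hBi.intervalIntegrable hBi.intervalIntegrable
    have h4 : 0 ≤ ∫ τ in s..s', Br τ :=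
      intervalIntegral.integral_nonneg_of_ae hss hBr0
    linarith
  have hGc : Continuous G := intervalIntegral.continuous_primitive
    (fun a b => hBi.intervalIntegrable) t₀
  set L : ℝ → ℝ := fun s => M₀ * Real.exp (G s) with hLdef
  have hLc : Continuous L := continuous_const.mul hGc.rexp
  have hLpos : ∀ s, 0 < L s := fun s => by positivity
  -- the level is not reached before the last time
  have hmain : ∀ t ∈ Ico t₀ t', ∀ x ∈ cube, enk κ (r t) (u t) x < L t := by
    by_contra hcon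
    push Not at hcon
    obtain ⟨t₂, ht₂, x₂, hx₂, hL₂⟩ := hcon
    have hIco : Ico t₀ t' ⊆ Icc t₀ t' := Ico_subset_Icc_self
    obtain ⟨t₁, ht₁, ⟨x₁, hx₁, hLx⟩, hbefore, hbefore2⟩ := barrier_r (t₀ := t₀) (T := t') (r := r) (L := L)
      (e := fun ρ t x => enk κ ρ (u t) x) (hr.mono hIco) (fun t ht => hrp t (hIco ht))
      (fun ρ => (enk_cont hκ hL.smooth_u ρ).mono (prod_mono (hIco.trans hsub) (subset_univ _)))
      (fun t ht ρ ρ' hρ' hle x => enk_mono hκ (hsm t (hIco ht)) hρ' hle x) hLc.continuousOn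
      (fun x hx => by
        simp only [hLdef, hG, intervalIntegral.integral_same, Real.exp_zero, mul_one]
        exact h0 x) ⟨t₂, ht₂, x₂, hx₂, hL₂⟩
    have ht₁I : t₁ ∈ Icc t₀ t' := Ioo_subset_Icc_self ht₁
    have hbefore' : ∀ s ∈ Ico t₀ t₁, ∀ x, enk κ (r t₁) (u s) x < L s := by
      intro s hs x
      have hsI : s ∈ Icc t₀ t' := ⟨hs.1, (hs.2.trans ht₁.2).le⟩
      obtain ⟨y, hy, e⟩ := W398.MD.FLOWX.per_cube (per_enk κ (hper s hsI) (r t₁)) x
      rw [e]
      exact hbefore s hs y hy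
    have hle : ∀ x, enk κ (r t₁) (u t₁) x ≤ L t₁ := by
      intro x
      have hcx : ContinuousWithinAt (fun s => enk κ (r t₁) (u s) x) (Ico t₀ t₁) t₁ := by
        have h2 : ContinuousAt (fun q : ℝ × V => enk κ (r t₁) (u q.1) q.2) (t₁, x) :=
          ((enk_cont hκ hL.smooth_u (r t₁)) (t₁, x) ⟨hsub ht₁I, mem_univ _⟩).continuousAt
            ((isOpen_Ioo.prod isOpen_univ).mem_nhds ⟨hsub ht₁I, mem_univ _⟩)
        exact (h2.comp (f := fun s : ℝ => ((s, x) : ℝ × V)) (by fun_prop)).continuousWithinAt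
      have hcl : t₁ ∈ closure (Ico t₀ t₁) := by
        rw [closure_Ico ht₁.1.ne]
        exact right_mem_Icc.2 ht₁.1.le
      exact hcx.closure_le hcl hLc.continuousAt.continuousWithinAt
        (fun s hs => (hbefore' s hs x).le)
    have hR₁ : Rec t₁ := by
      intro s hs y
      have hsI : s ∈ Icc t₀ t' := ⟨hs.1.le, (hs.2.trans ht₁.2).le⟩
      obtain ⟨y', hy', e⟩ := W398.MD.FLOWX.per_cube (per_enk κ (hper s hsI) (r s)) y
      refine ⟨x₁, ?_⟩
      rw [e]
      have h1 := hbefore2 s ⟨hs.1.le, hs.2⟩ y' hy'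
      have h2 : L s ≤ L t₁ :=
        mul_le_mul_of_nonneg_left (Real.exp_le_exp.2 (hGm hs.2.le)) hM₀.le
      linarith
    obtain ⟨x, hmax, D, hD, hDle⟩ := hg'2 t₁ ht₁ hR₁
    have hxL : L t₁ ≤ enk κ (r t₁) (u t₁) x := hLx.trans (hmax x₁)
    have hDle' : D ≤ g' t₁ * L t₁ := by
      have h1 := hDle ((hLpos t₁).trans_le hxL)
      rwa [le_antisymm (hle x) hxL] at h1
    -- a number between
    have hf₁ : f t₁ = g' t₁ := by rw [hf, indicator_of_mem ht₁]
    obtain ⟨b, hb1, hb2⟩ := EReal.lt_iff_exists_real_btwn.1 (hfB t₁)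
    have hb1' : g' t₁ < b := by
      rw [← hf₁]
      exact_mod_cast hb1
    obtain ⟨δ, hδ, hball⟩ := Metric.eventually_nhds_iff_ball.1 (hBl t₁ b hb2)
    set δ' := min δ (t₁ - t₀) with hδ'
    have hδ'0 : 0 < δ' := lt_min hδ (by linarith [ht₁.1])
    have hbL : L t₁ * b ≤ D := by
      refine deriv_left2 hδ'0 hD (fun s hs => ?_) hxL
      have hs1 : t₁ - δ < s := by linarith [hs.1, min_le_left δ (t₁ - t₀)]
      have hs2 : t₀ < s := by linarith [hs.1, min_le_right δ (t₁ - t₀)]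
      have h1 := (hbefore' s ⟨hs2.le, hs.2⟩ x).le
      refine h1.trans ?_
      have h2 : b * (t₁ - s) ≤ G t₁ - G s := by
        have h3 : G t₁ - G s = ∫ τ in s..t₁, Br τ :=
          intervalIntegral.integral_interval_sub_left hBi.intervalIntegrable
            hBi.intervalIntegrable
        rw [h3]
        have h4 : ∫ _ in s..t₁, b = b * (t₁ - s) := by
          rw [intervalIntegral.integral_const, smul_eq_mul, mul_comm]
        rw [← h4]
        refine intervalIntegral.integral_mono_ae_restrict hs.2.le intervalIntegrable_const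
          hBi.intervalIntegrable ?_
        filter_upwards [ae_restrict_mem measurableSet_Icc, ae_restrict_of_ae hBt] with τ hτ hτt
        have hb3 : ((b : ℝ) : EReal) < B τ := hball τ (by
          rw [Real.ball_eq_Ioo]
          exact ⟨by linarith [hτ.1], by linarith [hτ.2]⟩)
        have h7 : B τ ≠ ⊥ := (bot_le.trans_lt hb3).ne'
        have h8 : ((Br τ : ℝ) : EReal) = B τ := EReal.coe_toReal hτt.ne h7
        rw [← h8, EReal.coe_lt_coe_iff] at hb3
        exact hb3.le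
      have h5 : L s = L t₁ * Real.exp (G s - G t₁) := by
        simp only [hLdef]
        rw [mul_assoc, ← Real.exp_add]
        congr 2
        ring
      rw [h5]
      refine mul_le_mul_of_nonneg_left (Real.exp_le_exp.2 ?_) (hLpos t₁).le
      linarith
    nlinarith [hLpos t₁]
  -- the last time
  have ht'I : t' ∈ Icc t₀ t' := right_mem_Icc.2 htt.le
  have hlast : enk κ (r t') (u t') x' ≤ L t' := by
    have hcx : ContinuousWithinAt (fun s => enk κ (r t') (u s) x') (Ico t₀ t') t' := by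
      have h2 : ContinuousAt (fun q : ℝ × V => enk κ (r t') (u q.1) q.2) (t', x') :=
        ((enk_cont hκ hL.smooth_u (r t')) (t', x') ⟨hsub ht'I, mem_univ _⟩).continuousAt
          ((isOpen_Ioo.prod isOpen_univ).mem_nhds ⟨hsub ht'I, mem_univ _⟩)
      exact (h2.comp (f := fun s : ℝ => ((s, x') : ℝ × V)) (by fun_prop)).continuousWithinAt
    have hcl : t' ∈ closure (Ico t₀ t') := by
      rw [closure_Ico htt.ne]
      exact ht'I
    refine hcx.closure_le hcl hLc.continuousAt.continuousWithinAt (fun s hs => ?_)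
    have hsI : s ∈ Icc t₀ t' := Ico_subset_Icc_self hs
    refine (enk_mono hκ (hsm s hsI) (hrp t' ht'I) (hr hsI ht'I hs.2.le) x').trans ?_
    obtain ⟨y, hy, e⟩ := W398.MD.FLOWX.per_cube (per_enk κ (hper s hsI) (r s)) x'
    rw [e]
    exact (hmain s hs y hy).le
  refine hlast.trans ?_
  refine mul_le_mul_of_nonneg_left (Real.exp_le_exp.2 ?_) hM₀.le
  -- the integral
  have h1 : G t' ≤ ∫ τ, Br τ := by
    have h2 : G t' = ∫ τ in Ioc t₀ t', Br τ := intervalIntegral.integral_of_le htt.le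
    have h3 := integral_add_compl (μ := volume) (measurableSet_Ioc (a := t₀) (b := t')) hBi
    have h4 : 0 ≤ ∫ τ in (Ioc t₀ t')ᶜ, Br τ := by
      refine integral_nonneg_of_ae ?_
      filter_upwards [ae_restrict_mem measurableSet_Ioc.compl, ae_restrict_of_ae hlow] with τ hτ hτf
      have h5 : f τ = 0 := by
        rw [hf, indicator_of_notMem fun h => hτ (Ioo_subset_Ioc_self h)]
      rw [h5] at hτf
      exact hτf
    linarith
  linarith

end Pool.Agent.H946.NS
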