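import Pool.Agent.H946_NS.One5

/-!
The criterion in one ball, viscosity one.
-/

set_option autoImplicit false

open MeasureTheory Set Metric Filter Topology
open scoped ContDiff ENNReal

namespace Pool.Agent.H946.NS

open H459R3.NS W221.NS Pool.Agent.W583.MD

variable {κ : V → ℝ}

theorem Split.mono {ε ε' l m r : ℝ} {x : V} {v : V → V} (h : Split ε l m r x v) (h0 : 0 ≤ ε)
    (he : ε ≤ ε') : Split ε' l m r x v := by
  obtain ⟨c, b, hb, hbd, hS⟩ := h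
  exact ⟨c, b, hb, hbd, hS.trans (pow_le_pow_left₀ h0 he 3)⟩

/-- The numbers in the last step. -/
theorem last_num {C K₁ a r s q W : ℝ} (hC : 1 ≤ C) (hK : 0 ≤ K₁) (ha : 0 < a) (ha1 : a ≤ 1)
    (hr1 : r ≤ 1) (hq0 : 0 < q) (hq1 : q ≤ 1) (hs : s = q ^ 16) (hr : q ^ 8 ≤ r) (hW0 : 0 ≤ W)
    (hW : W ≤ K₁ / q ^ 2) (h : 1 ≤ C * (s * (W ^ 2 + (1 + Real.log (1 / (a * r)))
      * √(W / (a * r) ^ 3)))) :
    1 ≤ C * (K₁ ^ 2 + (9 + 1 / a) * √(K₁ / a ^ 3)) * q ^ 2 := by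
  have hr0 : 0 < r := (by positivity : (0 : ℝ) < q ^ 8).trans_le hr
  have hsq := Real.sqrt_nonneg (K₁ / a ^ 3)
  have h1 : √(W / (a * r) ^ 3) ≤ √(K₁ / a ^ 3) / q ^ 13 := by
    have h2 : W / (a * r) ^ 3 ≤ (K₁ / q ^ 2) / (a * q ^ 8) ^ 3 := by
      have : (a * q ^ 8) ^ 3 ≤ (a * r) ^ 3 := by gcongr
      calc W / (a * r) ^ 3 ≤ (K₁ / q ^ 2) / (a * r) ^ 3 := by gcongr
        _ ≤ _ := div_le_div_of_nonneg_left (by positivity) (by positivity) this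
    have h3 : (K₁ / q ^ 2) / (a * q ^ 8) ^ 3 = (K₁ / a ^ 3) / (q ^ 13) ^ 2 := by
      field_simp
    calc √(W / (a * r) ^ 3) ≤ √((K₁ / a ^ 3) / (q ^ 13) ^ 2) :=
          Real.sqrt_le_sqrt (h2.trans (le_of_eq h3))
      _ = _ := by rw [Real.sqrt_div (by positivity), Real.sqrt_sq (by positivity)]
  have har : a * r ≤ 1 := mul_le_one₀ ha1 hr0.le hr1
  have hlog0 : 0 ≤ Real.log (1 / (a * r)) :=
    Real.log_nonneg ((one_le_div (by positivity)).2 har)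
  have hlog : Real.log (1 / (a * r)) ≤ 1 / a + 8 * (1 / q) := by
    have h2 : Real.log (1 / (a * r)) ≤ Real.log (1 / a * (1 / q) ^ 8) := by
      apply Real.log_le_log (by positivity)
      have h3 : 1 / a * (1 / q) ^ 8 = 1 / (a * q ^ 8) := by
        field_simp
      rw [h3]
      exact one_div_le_one_div_of_le (by positivity) (by gcongr)
    rw [Real.log_mul (by positivity) (by positivity), Real.log_pow] at h2
    have h4 := Real.log_le_self (show 0 ≤ 1 / a by positivity)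
    have h5 := Real.log_le_self (show 0 ≤ 1 / q by positivity)
    push_cast at h2
    linarith
  have hA : 1 + Real.log (1 / (a * r)) ≤ (9 + 1 / a) / q := by
    rw [le_div_iff₀ hq0]
    have h2 : (1 + Real.log (1 / (a * r))) * q ≤ (1 + (1 / a + 8 * (1 / q))) * q := by gcongr
    have h3 : (1 + (1 / a + 8 * (1 / q))) * q = (1 + 1 / a) * q + 8 := by
      field_simp
      ring
    have h4 : (1 + 1 / a) * q ≤ (1 + 1 / a) * 1 :=
      mul_le_mul_of_nonneg_left hq1 (by positivity)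
    linarith
  have h6 : s * (W ^ 2 + (1 + Real.log (1 / (a * r))) * √(W / (a * r) ^ 3))
      ≤ q ^ 16 * ((K₁ / q ^ 2) ^ 2 + ((9 + 1 / a) / q) * (√(K₁ / a ^ 3) / q ^ 13)) := by
    rw [hs]
    refine mul_le_mul_of_nonneg_left ?_ (by positivity)
    refine add_le_add (pow_le_pow_left₀ hW0 hW 2) ?_
    exact mul_le_mul hA h1 (Real.sqrt_nonneg _) (by positivity)
  have h7 : q ^ 16 * ((K₁ / q ^ 2) ^ 2 + ((9 + 1 / a) / q) * (√(K₁ / a ^ 3) / q ^ 13))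
      = (K₁ ^ 2 * q ^ 10 + (9 + 1 / a) * √(K₁ / a ^ 3)) * q ^ 2 := by
    field_simp
  have h8 : K₁ ^ 2 * q ^ 10 ≤ K₁ ^ 2 * 1 :=
    mul_le_mul_of_nonneg_left (pow_le_one₀ hq0.le hq1) (by positivity)
  calc 1 ≤ C * (s * (W ^ 2 + (1 + Real.log (1 / (a * r))) * √(W / (a * r) ^ 3))) := h
    _ ≤ C * ((K₁ ^ 2 * q ^ 10 + (9 + 1 / a) * √(K₁ / a ^ 3)) * q ^ 2) := by
        rw [← h7]
        exact mul_le_mul_of_nonneg_left h6 (by linarith)
    _ ≤ C * ((K₁ ^ 2 + (9 + 1 / a) * √(K₁ / a ^ 3)) * q ^ 2) := by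
        refine mul_le_mul_of_nonneg_left ?_ (by linarith)
        refine mul_le_mul_of_nonneg_right ?_ (by positivity)
        linarith
    _ = _ := by ring

/-- The criterion, viscosity one. -/
theorem one_one (hκ : Cut κ) : ∃ ε : ℝ, 0 < ε ∧ ∀ (T t₀ K : ℝ) (u : ℝ → V → V) (p : ℝ → V → ℝ)
    (r l m : ℝ → ℝ), IsSol 1 T u p → t₀ ∈ Ioo 0 T → AntitoneOn r (Ico t₀ T) →
      (∀ t ∈ Ico t₀ T, 0 < r t ∧ r t ≤ 1 ∧ T - t ≤ r t ^ 2) →
        (∀ t ∈ Ioo t₀ T, IntegrableOn (fun s => 1 / r s ^ 2 + l s ^ 2 + m s) (Ioo t₀ t)) →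
          (∀ᵐ t ∂((volume : Measure ℝ).restrict (Ioo t₀ T)), 0 ≤ l t ∧ 0 ≤ m t ∧
            ((∀ s ∈ Ioo t₀ t, ∀ y, ∃ x, enk κ (r s) (u s) y ≤ enk κ (r t) (u t) x) →
              ∃ x, (∀ y, enk κ (r t) (u t) y ≤ enk κ (r t) (u t) x) ∧
                Split ε (l t) (m t) (r t) x (u t))) →
            (∃ᶠ t in 𝓝[<] T, ∫ s in Ioo t₀ t, (1 / r s ^ 2 + l s ^ 2 + m s)
              ≤ ε * Real.log (1 / (T - t)) + K) → ∀ x, ¬ Sing T u x := by
  obtain ⟨C, ε₀, hC, hε₀, hG⟩ := grow hκ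
  obtain ⟨C₁, hC₁, hS⟩ := star_one
  obtain ⟨a, ha, ha1, hlow⟩ := hκ.low
  refine ⟨min ε₀ (1 / (8 * C)), by positivity, ?_⟩
  intro T t₀ K u p r l m hu ht₀ hr hrp hint hsplit hfreq x₀ hx₀
  set ε := min ε₀ (1 / (8 * C)) with hε
  have hε0 : 0 < ε := by positivity
  have hCε : C * ε ≤ 1 / 8 := by
    calc C * ε ≤ C * (1 / (8 * C)) := mul_le_mul_of_nonneg_left (min_le_right _ _) (by linarith)
      _ = 1 / 8 := by field_simp
  have hT : 0 < T := ht₀.1.trans ht₀.2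
  have hL := LS.of_IsSol hu
  have ht₀I : t₀ ∈ Ico t₀ T := ⟨le_rfl, ht₀.2⟩
  -- the initial value
  obtain ⟨M₀, hM₀, h0⟩ : ∃ M₀ : ℝ, 0 < M₀ ∧ ∀ x, enk κ (r t₀) (u t₀) x < M₀ := by
    have hv : ContDiff ℝ ∞ (u t₀) := W382.ME.cd_slice hL.smooth_u ht₀
    obtain ⟨x, hx, hmax⟩ := (isCompact_Icc (a := (0 : V)) (b := 1)).exists_isMaxOn
      ⟨0, le_rfl, zero_le_one⟩ (enk_smooth hκ hv (r t₀)).continuous.continuousOn
    have hn := enk_nonneg hκ (hrp t₀ ht₀I).1 (u t₀) x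
    refine ⟨enk κ (r t₀) (u t₀) x + 1, by linarith, fun y => ?_⟩
    obtain ⟨y', hy', e⟩ := W398.MD.FLOWX.per_cube
      (per_enk κ (hu.per_u t₀ ⟨ht₀.1.le, ht₀.2⟩) (r t₀)) y
    rw [e]
    have : enk κ (r t₀) (u t₀) y' ≤ enk κ (r t₀) (u t₀) x := hmax hy'
    linarith
  set K₁ : ℝ := M₀ * Real.exp (C * |K| + 1) / a ^ 2 with hK₁
  have hK₁0 : 0 < K₁ := by positivity
  set Q : ℝ := C₁ * (K₁ ^ 2 + (9 + 1 / a) * √(K₁ / a ^ 3)) with hQ
  have hQ0 : 0 < Q := by positivity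
  -- small times
  have hq : Tendsto (fun t : ℝ => (T - t) ^ (1 / 16 : ℝ)) (𝓝[<] T) (𝓝 0) := by
    have h1 : Tendsto (fun t : ℝ => T - t) (𝓝[<] T) (𝓝 0) := by
      have : Tendsto (fun t : ℝ => T - t) (𝓝 T) (𝓝 (T - T)) := by
        exact (continuous_const.sub continuous_id).tendsto T
      rw [sub_self] at this
      exact this.mono_left nhdsWithin_le_nhds
    have h2 := h1.rpow_const (p := (1 / 16 : ℝ)) (Or.inr (by norm_num))
    rwa [Real.zero_rpow (by norm_num)] at h2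
  have hev : ∀ᶠ t in 𝓝[<] T, (T - t) ^ (1 / 16 : ℝ) < min 1 (1 / (1 + Q)) :=
    hq.eventually_lt_const (by positivity)
  have hev2 : ∀ᶠ t in 𝓝[<] T, t ∈ Ioo t₀ T := Ioo_mem_nhdsLT ht₀.2
  obtain ⟨t, hle, hqt, htI⟩ := (hfreq.and_eventually (hev.and hev2)).exists
  set s := T - t with hs
  have hs0 : 0 < s := by linarith [htI.2]
  set q := s ^ (1 / 16 : ℝ) with hqdef
  have hq0 : 0 < q := by positivity
  have hq1 : q ≤ 1 := hqt.le.trans (min_le_left _ _)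
  have hq2 : q < 1 / (1 + Q) := hqt.trans_le (min_le_right _ _)
  have hsq : s = q ^ 16 := by
    rw [hqdef, ← Real.rpow_natCast, ← Real.rpow_mul hs0.le]
    norm_num
  have htI' : t ∈ Ico t₀ T := ⟨htI.1.le, htI.2⟩
  have ht0T : t ∈ Ioo 0 T := ⟨ht₀.1.trans htI.1, htI.2⟩
  obtain ⟨hr0, hr1, hrs⟩ := hrp t htI'
  have hrq : q ^ 8 ≤ r t := by
    have h1 : (q ^ 8) ^ 2 ≤ r t ^ 2 := by
      calc (q ^ 8) ^ 2 = q ^ 16 := by ring
        _ = s := hsq.symm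
        _ ≤ r t ^ 2 := hrs
    exact (pow_le_pow_iff_left₀ (by positivity) hr0.le two_ne_zero).1 h1
  -- the growth
  have hsub : Ioo t₀ t ⊆ Ioo t₀ T := Ioo_subset_Ioo_right htI.2.le
  have hIcc : Icc t₀ t ⊆ Ico t₀ T := fun τ hτ => ⟨hτ.1, hτ.2.trans_lt htI.2⟩
  have hgrow := hG T u p hu t₀ t ht₀.1 htI.1 htI.2 r l m (hr.mono hIcc)
    (fun τ hτ => (hrp τ (hIcc hτ)).1) (hint t htI)
    ((ae_restrict_of_ae_restrict_of_subset hsub hsplit).mono fun τ hτ => by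
      obtain ⟨h1, h2, h3⟩ := hτ
      refine ⟨h1, h2, fun hrec => ?_⟩
      obtain ⟨x, h4, h5⟩ := h3 hrec
      exact ⟨x, h4, h5.mono hε0.le (min_le_left _ _)⟩) M₀ hM₀ h0
  have hlog : 0 ≤ Real.log (1 / s) := by
    apply Real.log_nonneg
    rw [one_le_div hs0, hsq]
    exact pow_le_one₀ hq0.le hq1
  have hexp : Real.exp (C * (∫ τ in Ioo t₀ t, (1 / r τ ^ 2 + l τ ^ 2 + m τ)) + 1)
      ≤ Real.exp (C * |K| + 1) / q ^ 2 := by
    have h1 : C * (∫ τ in Ioo t₀ t, (1 / r τ ^ 2 + l τ ^ 2 + m τ)) + 1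
        ≤ (C * |K| + 1) + 1 / 8 * Real.log (1 / s) := by
      have h2 : C * (∫ τ in Ioo t₀ t, (1 / r τ ^ 2 + l τ ^ 2 + m τ))
          ≤ C * (ε * Real.log (1 / s) + K) := mul_le_mul_of_nonneg_left hle (by linarith)
      have h3 : C * ε * Real.log (1 / s) ≤ 1 / 8 * Real.log (1 / s) :=
        mul_le_mul_of_nonneg_right hCε hlog
      have h4 : C * K ≤ C * |K| := mul_le_mul_of_nonneg_left (le_abs_self K) (by linarith)
      linarith
    have h5 : 1 / 8 * Real.log (1 / s) = Real.log (1 / q ^ 2) := by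
      have : 1 / s = (1 / q ^ 2) ^ 8 := by
        rw [hsq]
        field_simp
      rw [this, Real.log_pow]
      push_cast
      ring
    calc _ ≤ Real.exp ((C * |K| + 1) + 1 / 8 * Real.log (1 / s)) := Real.exp_le_exp.2 h1
      _ = _ := by
        rw [Real.exp_add, h5, Real.exp_log (by positivity)]
        ring
  -- the lower bound
  have har0 : 0 < a * r t := by positivity
  have har1 : a * r t ≤ 1 := mul_le_one₀ ha1 hr0.le hr1
  obtain ⟨x, hx⟩ := hS T u p hT hu ⟨x₀, hx₀⟩ t ⟨ht0T.1.le, ht0T.2⟩ (a * r t) har0 har1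
  have hv : ContDiff ℝ ∞ (u t) := W382.ME.cd_slice hL.smooth_u ht0T
  have hW : ∫ y in ball x (a * r t), osq (u t) y ≤ K₁ / q ^ 2 := by
    have h1 := enk_low hκ ha ha1 hlow hr0 hv x
    have h2 := (h1.trans (hgrow x)).trans (mul_le_mul_of_nonneg_left hexp hM₀.le)
    have h3 : K₁ / q ^ 2 = (M₀ * (Real.exp (C * |K| + 1) / q ^ 2)) / a ^ 2 := by
      rw [hK₁]
      field_simp
    rw [h3, le_div_iff₀ (by positivity), mul_comm]
    exact h2
  have hfin := last_num hC₁ hK₁0.le ha ha1 hr1 hq0 hq1 hsq hrq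
    (integral_nonneg fun y => osq_nonneg _ y) hW hx
  have h9 : Q * q ^ 2 < 1 := by
    have h1 : q * (1 + Q) < 1 := by
      rwa [lt_div_iff₀ (by positivity)] at hq2
    have h2 : q ^ 2 ≤ q := by
      calc q ^ 2 = q * q := by ring
        _ ≤ q * 1 := mul_le_mul_of_nonneg_left hq1 hq0.le
        _ = q := mul_one q
    have h3 : Q * q ^ 2 ≤ Q * q := mul_le_mul_of_nonneg_left h2 hQ0.le
    linarith
  linarith

end Pool.Agent.H946.NS
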