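import Pool.Agent.H946_NS.One6

/-!
The criterion in one ball, general viscosity.
-/

set_option autoImplicit false

open MeasureTheory Set Metric Filter Topology
open scoped ContDiff ENNReal

namespace Pool.Agent.H946.NS

open H459R3.NS W221.NS Pool.Agent.W583.MD

variable {κ : V → ℝ}

/-- The enstrophy around the point `x` at the scale `r`, localised by the cut-off function `κ`. -/
noncomputable def loc (κ : V → ℝ) (r : ℝ) (v : V → V) (x : V) : ℝ :=
  ∫ y, κ (r⁻¹ • (y - x)) ^ 2 * vsq v y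

theorem enk_loc {r : ℝ} (hr : 0 < r) (v : V → V) (x : V) : enk κ r v x = 2 * loc κ r v x := by
  unfold enk loc
  set F : V → ℝ := fun w => κ (r⁻¹ • w) ^ 2 * vsq v (x + w) with hF
  have h1 := Measure.integral_comp_smul (volume : Measure V) F r
  rw [Module.finrank_fin_fun, abs_of_nonneg (by positivity), smul_eq_mul] at h1
  have h2 : ∀ z : V, F (r • z) = 1 / 2 * (osq v (x + r • z) * (κ z * κ z)) := by
    intro z
    simp only [hF]
    rw [smul_smul, inv_mul_cancel₀ hr.ne', one_smul, osq_vsq]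
    ring
  simp_rw [h2] at h1
  rw [integral_const_mul] at h1
  have h3 : ∫ w, F w = ∫ y, κ (r⁻¹ • (y - x)) ^ 2 * vsq v y := by
    rw [← integral_add_left_eq_self (fun y => κ (r⁻¹ • (y - x)) ^ 2 * vsq v y) x]
    refine integral_congr_ae (Eventually.of_forall fun w => ?_)
    simp only [hF, add_sub_cancel_left]
  rw [h3] at h1
  have h4 : ∫ z, osq v (x + r • z) * (κ z * κ z)
      = 2 * ((r ^ 3)⁻¹ * ∫ y, κ (r⁻¹ • (y - x)) ^ 2 * vsq v y) := by linarith
  rw [h4]
  field_simp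

theorem enk_smul (κ : V → ℝ) (r c : ℝ) (v : V → V) (x : V) :
    enk κ r (fun x => c • v x) x = c ^ 2 * enk κ r v x := by
  unfold enk
  simp_rw [osq_smul]
  have e : ∀ z : V, c ^ 2 * osq v (x + r • z) * (κ z * κ z)
      = c ^ 2 * (osq v (x + r • z) * (κ z * κ z)) := fun z => by ring
  simp_rw [e]
  rw [integral_const_mul]
  ring

theorem Split.scale {ε l m r ν : ℝ} (hν : 0 < ν) {x : V} {v : V → V}
    (h : Split (ε * ν) l m r x v) : Split ε (l / ν) (m / ν) r x (fun x => ν⁻¹ • v x) := by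
  obtain ⟨c, b, hb, hbd, hS⟩ := h
  refine ⟨ν⁻¹ • c, fun y => ν⁻¹ • b y, hb.const_smul ν⁻¹, ?_, ?_⟩
  · intro y hy i j
    have h1 : pd i (fun y => (ν⁻¹ • b y) j) y = ν⁻¹ * pd i (fun y => b y j) y :=
      Pool.Agent.W135.MD.pd_cmul (Pool.Agent.W135.MD.sm_diff (sm_comp hb j)) ν⁻¹ i y
    rw [h1, abs_mul, abs_of_pos (by positivity), div_eq_inv_mul]
    exact mul_le_mul_of_nonneg_left (hbd y hy i j) (by positivity)
  · have h1 : ∀ y, (max (‖ν⁻¹ • v y - ν⁻¹ • c - ν⁻¹ • b y‖ - l / ν) 0) ^ 3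
        = (ν ^ 3)⁻¹ * (max (‖v y - c - b y‖ - l) 0) ^ 3 := by
      intro y
      have h2 : ν⁻¹ • v y - ν⁻¹ • c - ν⁻¹ • b y = ν⁻¹ • (v y - c - b y) := by
        rw [smul_sub, smul_sub]
      have h3 : ν⁻¹ * ‖v y - c - b y‖ - l / ν = ν⁻¹ * (‖v y - c - b y‖ - l) := by
        rw [div_eq_inv_mul]
        ring
      have h4 : max (ν⁻¹ * (‖v y - c - b y‖ - l)) 0 = ν⁻¹ * max (‖v y - c - b y‖ - l) 0 := by
        rw [mul_max_of_nonneg _ _ (by positivity), mul_zero]
      rw [h2, norm_smul, Real.norm_of_nonneg (by positivity), h3, h4, mul_pow, inv_pow]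
    simp_rw [h1]
    rw [integral_const_mul]
    calc (ν ^ 3)⁻¹ * ∫ y in ball x r, (max (‖v y - c - b y‖ - l) 0) ^ 3
        ≤ (ν ^ 3)⁻¹ * (ε * ν) ^ 3 := mul_le_mul_of_nonneg_left hS (by positivity)
      _ = ε ^ 3 := by field_simp

/-- The criterion, general viscosity. -/
theorem one_nu (hκ : Cut κ) : ∃ ε : ℝ, 0 < ε ∧ ∀ (ν T t₀ K : ℝ) (u : ℝ → V → V) (p : ℝ → V → ℝ)
    (r l m : ℝ → ℝ), 0 < ν → IsSol ν T u p → t₀ ∈ Ioo 0 T → AntitoneOn r (Ico t₀ T) →
      (∀ t ∈ Ico t₀ T, 0 < r t ∧ r t ≤ 1 ∧ ν * (T - t) ≤ r t ^ 2) →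
        (∀ t ∈ Ioo t₀ T, IntegrableOn (fun s => ν / r s ^ 2 + l s ^ 2 / ν + m s) (Ioo t₀ t)) →
          (∀ᵐ t ∂((volume : Measure ℝ).restrict (Ioo t₀ T)), 0 ≤ l t ∧ 0 ≤ m t ∧
            ((∀ s ∈ Ioo t₀ t, ∀ y, ∃ x, loc κ (r s) (u s) y ≤ loc κ (r t) (u t) x) →
              ∃ x, (∀ y, loc κ (r t) (u t) y ≤ loc κ (r t) (u t) x) ∧
                Split (ε * ν) (l t) (m t) (r t) x (u t))) →
            (∃ᶠ t in 𝓝[<] T, ∫ s in Ioo t₀ t, (ν / r s ^ 2 + l s ^ 2 / ν + m s)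
              ≤ ε * Real.log (1 / (T - t)) + K) → ∀ x, ¬ Sing T u x := by
  obtain ⟨ε, hε, H⟩ := one_one hκ
  refine ⟨ε, hε, ?_⟩
  intro ν T t₀ K u p r l m hν hu ht₀ hr hrp hint hsplit hfreq x₀ hx₀
  have hT : 0 < T := ht₀.1.trans ht₀.2
  have h2 := B.p_scale ν T u p hν hT hu
  have hS' : Sing (ν * T) (fun t x => ν⁻¹ • u (t / ν) x) x₀ := by
    intro δ hδ M
    obtain ⟨t, ht, y, hy, hM⟩ := hx₀ (min δ (δ / ν)) (lt_min hδ (by positivity)) (ν * M)
    refine ⟨ν * t, ⟨?_, ?_⟩, y, ball_subset_ball (min_le_left _ _) hy, ?_⟩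
    · have h3 : T - δ / ν < t := by linarith [ht.1, min_le_right δ (δ / ν)]
      have h4 : ν * (T - δ / ν) < ν * t := mul_lt_mul_of_pos_left h3 hν
      have h5 : ν * (T - δ / ν) = ν * T - δ := by field_simp
      linarith
    · exact mul_lt_mul_of_pos_left ht.2 hν
    · have e : ν * t / ν = t := by field_simp
      simp only [e]
      rw [norm_smul, Real.norm_eq_abs, abs_of_pos (by positivity), inv_mul_eq_div,
        lt_div_iff₀ hν, mul_comm]
      exact hM
  set g : ℝ → ℝ := fun s => ν / r s ^ 2 + l s ^ 2 / ν + m s with hg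
  have hback : ∀ s, s ∈ Ico (ν * t₀) (ν * T) → s / ν ∈ Ico t₀ T := by
    intro s hs
    constructor
    · rw [le_div_iff₀ hν]
      linarith [hs.1]
    · rw [div_lt_iff₀ hν]
      linarith [hs.2]
  have hback' : ∀ s, s ∈ Ioo (ν * t₀) (ν * T) → s / ν ∈ Ioo t₀ T := by
    intro s hs
    constructor
    · rw [lt_div_iff₀ hν]
      linarith [hs.1]
    · rw [div_lt_iff₀ hν]
      linarith [hs.2]
  have hgs : ∀ s, 1 / r (s / ν) ^ 2 + (l (s / ν) / ν) ^ 2 + m (s / ν) / ν = ν⁻¹ * g (s / ν) := by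
    intro s
    simp only [hg]
    rcases eq_or_ne (r (s / ν)) 0 with h | h
    · rw [h]
      norm_num
      field_simp
    · field_simp
  have hII : ∀ t ∈ Ioo t₀ T, IntervalIntegrable g volume t₀ t := fun t ht =>
    (intervalIntegrable_iff_integrableOn_Ioo_of_le ht.1.le).2 (hint t ht)
  refine H (ν * T) (ν * t₀) (K + ε * |Real.log ν|) _ _ (fun s => r (s / ν)) (fun s => l (s / ν) / ν)
    (fun s => m (s / ν) / ν) h2 ⟨mul_pos hν ht₀.1, mul_lt_mul_of_pos_left ht₀.2 hν⟩ ?_ ?_ ?_ ?_ ?_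
    x₀ hS'
  · intro s hs s' hs' hss
    exact hr (hback s hs) (hback s' hs') (div_le_div_of_nonneg_right hss hν.le)
  · intro s hs
    obtain ⟨h3, h4, h5⟩ := hrp (s / ν) (hback s hs)
    refine ⟨h3, h4, ?_⟩
    have e : ν * (T - s / ν) = ν * T - s := by field_simp
    rwa [e] at h5
  · intro s hs
    have hs' := hback' s hs
    have h3 := hII _ hs'
    have h4 := h3.comp_mul_left (c := ν⁻¹)
    have e1 : t₀ / ν⁻¹ = ν * t₀ := by field_simp
    have e2 : s / ν / ν⁻¹ = s := by field_simp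
    rw [e1, e2] at h4
    have h5 := (intervalIntegrable_iff_integrableOn_Ioo_of_le hs.1.le).1 h4
    have h6 : (fun s => 1 / r (s / ν) ^ 2 + (l (s / ν) / ν) ^ 2 + m (s / ν) / ν)
        = fun s => ν⁻¹ * g (ν⁻¹ * s) := by
      funext s
      rw [hgs, inv_mul_eq_div ν s]
    rw [h6]
    exact h5.const_mul ν⁻¹
  · rw [ae_restrict_iff' measurableSet_Ioo] at hsplit ⊢
    have hqm : Measure.QuasiMeasurePreserving (fun s : ℝ => ν⁻¹ * s) volume volume := by
      refine ⟨by fun_prop, ?_⟩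
      rw [Real.map_volume_mul_left (by positivity)]
      exact Measure.smul_absolutelyContinuous
    filter_upwards [hqm.ae hsplit] with s hs hsI
    rw [inv_mul_eq_div] at hs
    obtain ⟨h3, h4, h56⟩ := hs (hback' s hsI)
    have hrr := (hrp _ (Ioo_subset_Ico_self (hback' s hsI))).1
    have h7 : 0 < ν⁻¹ ^ 2 := by positivity
    refine ⟨by positivity, by positivity, fun hrec => ?_⟩
    obtain ⟨x, h5, h6⟩ := h56 (by
      intro τ hτ y
      have hτI : ν * τ ∈ Ioo (ν * t₀) s := by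
        refine ⟨mul_lt_mul_of_pos_left hτ.1 hν, ?_⟩
        have := hτ.2
        rwa [lt_div_iff₀ hν, mul_comm] at this
      obtain ⟨x, hx⟩ := hrec (ν * τ) hτI y
      refine ⟨x, ?_⟩
      have e : ν * τ / ν = τ := by field_simp
      have hττ : τ ∈ Ico t₀ T := ⟨hτ.1.le, hτ.2.trans (hback' s hsI).2⟩
      simp only [e] at hx
      rw [enk_smul, enk_smul, enk_loc hrr, enk_loc (hrp τ hττ).1] at hx
      have h8 : 2 * loc κ (r τ) (u τ) y ≤ 2 * loc κ (r (s / ν)) (u (s / ν)) x :=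
        le_of_mul_le_mul_left hx h7
      linarith)
    refine ⟨x, fun y => ?_, h6.scale hν⟩
    rw [enk_smul, enk_smul, enk_loc hrr, enk_loc hrr]
    have := h5 y
    nlinarith
  · -- the frequency
    have htend : Tendsto (fun t : ℝ => ν * t) (𝓝[<] T) (𝓝[<] (ν * T)) := by
      refine tendsto_nhdsWithin_iff.2 ⟨?_, ?_⟩
      · exact ((continuous_const.mul continuous_id).tendsto T).mono_left nhdsWithin_le_nhds
      · filter_upwards [self_mem_nhdsWithin] with t ht
        exact mul_lt_mul_of_pos_left ht hν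
    refine htend.frequently ?_
    have hev : ∀ᶠ t in 𝓝[<] T, t ∈ Ioo t₀ T := Ioo_mem_nhdsLT ht₀.2
    refine (hfreq.and_eventually hev).mono ?_
    rintro t ⟨hle, htI⟩
    have h6 : (fun s => 1 / r (s / ν) ^ 2 + (l (s / ν) / ν) ^ 2 + m (s / ν) / ν)
        = fun s => ν⁻¹ * g (s / ν) := by
      funext s
      rw [hgs]
    have h7 : ∫ s in Ioo (ν * t₀) (ν * t), (1 / r (s / ν) ^ 2 + (l (s / ν) / ν) ^ 2
        + m (s / ν) / ν) = ∫ s in Ioo t₀ t, g s := by
      rw [h6, ← integral_Ioc_eq_integral_Ioo, ← integral_Ioc_eq_integral_Ioo,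
        ← intervalIntegral.integral_of_le (mul_le_mul_of_nonneg_left htI.1.le hν.le),
        ← intervalIntegral.integral_of_le htI.1.le, intervalIntegral.integral_const_mul,
        intervalIntegral.integral_comp_div (f := g) hν.ne', smul_eq_mul]
      have e1 : ν * t₀ / ν = t₀ := by field_simp
      have e2 : ν * t / ν = t := by field_simp
      rw [e1, e2]
      field_simp
    change ∫ s in Ioo (ν * t₀) (ν * t), (1 / r (s / ν) ^ 2 + (l (s / ν) / ν) ^ 2
        + m (s / ν) / ν) ≤ ε * Real.log (1 / (ν * T - ν * t)) + (K + ε * |Real.log ν|)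
    rw [h7]
    have hTt : 0 < T - t := by linarith [htI.2]
    have h8 : Real.log (1 / (ν * T - ν * t)) = Real.log (1 / (T - t)) - Real.log ν := by
      rw [← mul_sub, one_div, one_div, mul_inv, Real.log_mul (by positivity) (by positivity),
        Real.log_inv]
      ring
    rw [h8]
    have h9 : ε * Real.log ν ≤ ε * |Real.log ν| := mul_le_mul_of_nonneg_left (le_abs_self _) hε.le
    linarith

end Pool.Agent.H946.NS
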