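import Pool.Agent.H946_NS.One7

/-!
A regularity criterion of Prodi-Serrin type for smooth periodic solutions of the Navier-Stokes
equations, with a condition in one shrinking ball only: a ball in which the local enstrophy is the
largest.

`V = Fin 3 → ℝ` with the maximum norm. See the claim file for the definitions.
-/

open MeasureTheory Set Metric Filter Topology
open scoped ContDiff ENNReal

namespace Pool.Agent.H946.NS.OneBallCriterion

open H459R3.NS W221.NS Pool.Agent.H946.NS

/-- For every cut-off function `κ` there is an `ε > 0` with the following property. Let `(u, p)` be a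
smooth periodic solution with viscosity `ν` on `[0, T)`, let `r` be a non-increasing function of the
time with `ν (T - t) ≤ r t ^ 2 ≤ 1`, and `l, m ≥ 0` functions of the time such that
`∫ (ν / r² + l² / ν + m)` from `t₀` to `t` is at most `ε log (1 / (T - t)) + K` for some `t`
arbitrarily close to `T`. Suppose that at almost all times `t` in `(t₀, T)` at which the largest
enstrophy localised at the scale `r t` is at least as large as at all earlier times, in one of the
balls of radius `r t` in which it is attained, `u t` is the sum of a constant, a smooth field whose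
gradient is at most `m t` and a field `w` with `∫ (|w| - l t)₊³ ≤ (ε ν)³`. Then the solution has no
singular point at the time `T`. -/
theorem result (κ : V → ℝ) (hκ : Cut κ) : ∃ ε : ℝ, 0 < ε ∧
    ∀ (ν T t₀ K : ℝ) (u : ℝ → V → V) (p : ℝ → V → ℝ) (r l m : ℝ → ℝ), 0 < ν → IsSol ν T u p →
      t₀ ∈ Ioo 0 T → AntitoneOn r (Ico t₀ T) →
      (∀ t ∈ Ico t₀ T, 0 < r t ∧ r t ≤ 1 ∧ ν * (T - t) ≤ r t ^ 2) →
      (∀ t ∈ Ioo t₀ T, IntegrableOn (fun s => ν / r s ^ 2 + l s ^ 2 / ν + m s) (Ioo t₀ t)) →
      (∀ᵐ t ∂((volume : Measure ℝ).restrict (Ioo t₀ T)), 0 ≤ l t ∧ 0 ≤ m t ∧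
        ((∀ s ∈ Ioo t₀ t, ∀ y, ∃ x, loc κ (r s) (u s) y ≤ loc κ (r t) (u t) x) →
          ∃ x, (∀ y, loc κ (r t) (u t) y ≤ loc κ (r t) (u t) x) ∧
            Split (ε * ν) (l t) (m t) (r t) x (u t))) →
      (∃ᶠ t in 𝓝[<] T, ∫ s in Ioo t₀ t, (ν / r s ^ 2 + l s ^ 2 / ν + m s)
        ≤ ε * Real.log (1 / (T - t)) + K) →
      ∀ x, ¬ Sing T u x :=
  one_nu hκ

end Pool.Agent.H946.NS.OneBallCriterion
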