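import Pool.Agent.H946_NS.CF12

/-!
A regularity criterion in terms of the direction of the vorticity for smooth periodic solutions of
the Navier-Stokes equations, with a condition in one ball only: a ball in which the local enstrophy
is the largest.

`V = Fin 3 → ℝ` with the maximum norm. See the claim file for the definitions.
-/

open MeasureTheory Set Metric Filter Topology
open scoped ContDiff ENNReal

namespace Pool.Agent.H946.NS.OneBallDirection

open H459R3.NS W221.NS Pool.Agent.H946.NS

/-- For every cut-off function `κ` there is an `ε > 0` with the following property. Let `(u, p)` be a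
smooth periodic solution with viscosity `ν` on `[0, T)`, let `r ≤ 1` be a non-increasing positive
function of the time, and `ρ, Λ ≥ 0` functions of the time such that the integral of
`ν / r² + Λ + (1 / r + ρ² + r³ Λ² / ν²) ‖ω‖² / ν` from `t₀` to `t` is at most
`ε log (1 / (T - t)) + K` for some `t` arbitrarily close to `T`, where `‖ω‖²` is the integral of the
square of the vorticity over the period cell. Suppose that at almost all times `t` in `(t₀, T)` at
which the largest enstrophy localised at the scale `r t` is at least as large as at all earlier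
times, around one of the points in which it is attained there is a ball of radius `2 r t` in which
the sine of the angle between the vorticities at `y` and `z` is at most `ρ t |y - z| ^ (1 / 2)` if
both are longer than `Λ t`. Then the solution has no singular point at the time `T`. -/
theorem result (κ : V → ℝ) (hκ : Cut κ) : ∃ ε : ℝ, 0 < ε ∧
    ∀ (ν T t₀ K : ℝ) (u : ℝ → V → V) (p : ℝ → V → ℝ) (r ρ Λ : ℝ → ℝ), 0 < ν → IsSol ν T u p →
      t₀ ∈ Ioo 0 T → AntitoneOn r (Ico t₀ T) → (∀ t ∈ Ico t₀ T, 0 < r t ∧ r t ≤ 1) →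
      (∀ t ∈ Ioo t₀ T, IntegrableOn (fun s => ν / r s ^ 2 + Λ s
        + (1 / r s + ρ s ^ 2 + r s ^ 3 * Λ s ^ 2 / ν ^ 2) * (∫ x in cube, vsq (u s) x) / ν)
          (Ioo t₀ t)) →
      (∀ᵐ t ∂((volume : Measure ℝ).restrict (Ioo t₀ T)), 0 ≤ ρ t ∧ 0 ≤ Λ t ∧
        ((∀ s ∈ Ioo t₀ t, ∀ y, ∃ x, loc κ (r s) (u s) y ≤ loc κ (r t) (u t) x) →
          ∃ x, (∀ y, loc κ (r t) (u t) y ≤ loc κ (r t) (u t) x) ∧
            Coh (ρ t) (Λ t) (2 * r t) x (u t))) →
      (∃ᶠ t in 𝓝[<] T, ∫ s in Ioo t₀ t, (ν / r s ^ 2 + Λ s
        + (1 / r s + ρ s ^ 2 + r s ^ 3 * Λ s ^ 2 / ν ^ 2) * (∫ x in cube, vsq (u s) x) / ν)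
          ≤ ε * Real.log (1 / (T - t)) + K) →
      ∀ x, ¬ Sing T u x :=
  dir_nu hκ

end Pool.Agent.H946.NS.OneBallDirection
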