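import Pool.Agent.W221.NS.Stm2
import Pool.Agent.W583.MD.EN

/-!
A radial mollifier and integrals against smooth kernels of compact support.
-/

set_option autoImplicit false

open MeasureTheory Set Metric Filter Topology
open scoped ContDiff

namespace Pool.Agent.H946.NS

open H459R3.NS W221.NS Pool.Agent.W583.MD

/-- The square of the Euclidean length. -/
noncomputable def sq3 (z : V) : ℝ := ∑ i, z i ^ 2

/-- A bump function on the line. -/
noncomputable def gb : ContDiffBump (0 : ℝ) := ⟨1 / 2, 1, by norm_num, by norm_num⟩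

/-- A primitive of `gb / 2`. -/
noncomputable def Gb (s : ℝ) : ℝ := (1 / 2) * ∫ τ in (1 : ℝ)..s, gb τ

theorem gb_smooth : ContDiff ℝ ∞ (fun s : ℝ => gb s) := gb.contDiff

theorem gb_zero {s : ℝ} (hs : 1 ≤ s) : gb s = 0 := by
  apply gb.zero_of_le_dist
  rw [Real.dist_eq, sub_zero]
  exact hs.trans (le_abs_self s)

theorem Gb_deriv (s : ℝ) : HasDerivAt Gb (gb s / 2) s := by
  have h := (gb.continuous.integral_hasStrictDerivAt 1 s).hasDerivAt.const_mul (1 / 2)
  refine h.congr_deriv ?_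
  ring

theorem Gb_smooth : ContDiff ℝ ∞ Gb := by
  rw [contDiff_infty_iff_deriv]
  refine ⟨fun s => (Gb_deriv s).differentiableAt, ?_⟩
  have e : deriv Gb = fun s => gb s / 2 := funext fun s => (Gb_deriv s).deriv
  rw [e]
  exact gb_smooth.div_const 2

theorem Gb_zero {s : ℝ} (hs : 1 ≤ s) : Gb s = 0 := by
  unfold Gb
  rw [intervalIntegral.integral_of_le hs, setIntegral_eq_zero_of_forall_eq_zero, mul_zero]
  intro τ hτ
  exact gb_zero hτ.1.le

theorem sq3_smooth : ContDiff ℝ ∞ sq3 := by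
  unfold sq3
  exact ContDiff.sum fun i _ => (contDiff_apply ℝ ℝ i).pow 2

theorem sq3_ge {z : V} (hz : z ∉ ball (0 : V) 1) : 1 ≤ sq3 z := by
  rw [mem_ball_zero_iff, not_lt] at hz
  obtain ⟨i, hi⟩ : ∃ i, 1 ≤ |z i| := by
    by_contra hcon
    push Not at hcon
    have : ‖z‖ < 1 := (pi_norm_lt_iff one_pos).2 fun i => hcon i
    linarith
  have h1 : (1 : ℝ) ≤ z i ^ 2 := by
    rw [← sq_abs]
    nlinarith
  exact h1.trans (Finset.single_le_sum (f := fun i => z i ^ 2) (fun j _ => sq_nonneg (z j))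
    (Finset.mem_univ i))

theorem pd_sq3 (i : Fin 3) (z : V) : pd i sq3 z = 2 * z i := by
  unfold pd sq3
  have h : ∀ j : Fin 3, HasFDerivAt (fun y : V => y j ^ 2)
      ((2 * z j) • (ContinuousLinearMap.proj j : V →L[ℝ] ℝ)) z := by
    intro j
    have h1 : HasFDerivAt (fun y : V => y j) (ContinuousLinearMap.proj j : V →L[ℝ] ℝ) z :=
      (ContinuousLinearMap.proj j : V →L[ℝ] ℝ).hasFDerivAt
    refine (h1.pow 2).congr_fderiv ?_
    simp
  have h2 : HasFDerivAt (fun y : V => ∑ j, y j ^ 2)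
      (∑ j, (2 * z j) • (ContinuousLinearMap.proj j : V →L[ℝ] ℝ)) z :=
    HasFDerivAt.fun_sum fun j _ => h j
  rw [h2.fderiv]
  simp [Pi.single_apply]

/-- The normalising constant. -/
noncomputable def c0 : ℝ := (∫ z : V, gb (sq3 z))⁻¹

theorem c0_pos : 0 < c0 := by
  unfold c0
  apply inv_pos.2
  have hc : Continuous (fun z : V => gb (sq3 z)) := gb.continuous.comp sq3_smooth.continuous
  refine hc.integral_pos_of_hasCompactSupport_nonneg_nonzero (x := 0) ?_ ?_ ?_
  · refine HasCompactSupport.intro (isCompact_closedBall (0 : V) 1) fun z hz => ?_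
    exact gb_zero (sq3_ge fun h => hz (ball_subset_closedBall h))
  · exact fun z => gb.nonneg
  · have : sq3 0 = 0 := by simp [sq3]
    rw [this, gb.one_of_mem_closedBall (mem_closedBall_self (by simp [gb]))]
    exact one_ne_zero

/-- The radial mollifier. -/
noncomputable def et (z : V) : ℝ := c0 * gb (sq3 z)

/-- The gradient of `eE` is `z * et z`. -/
noncomputable def eE (z : V) : ℝ := c0 * Gb (sq3 z)

theorem et_smooth : ContDiff ℝ ∞ et := contDiff_const.mul (gb_smooth.comp sq3_smooth)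

theorem eE_smooth : ContDiff ℝ ∞ eE := contDiff_const.mul (Gb_smooth.comp sq3_smooth)

theorem et_nonneg (z : V) : 0 ≤ et z := mul_nonneg c0_pos.le gb.nonneg

theorem et_zero {z : V} (hz : z ∉ ball (0 : V) 1) : et z = 0 := by
  unfold et
  rw [gb_zero (sq3_ge hz), mul_zero]

theorem eE_zero {z : V} (hz : z ∉ ball (0 : V) 1) : eE z = 0 := by
  unfold eE
  rw [Gb_zero (sq3_ge hz), mul_zero]

theorem et_int : ∫ z, et z = 1 := by
  unfold et
  rw [integral_const_mul]
  exact inv_mul_cancel₀ (inv_pos.1 (c0_pos : 0 < (∫ z : V, gb (sq3 z))⁻¹)).ne'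

theorem pd_eE (i : Fin 3) (z : V) : pd i eE z = z i * et z := by
  have h1 : HasFDerivAt sq3 (fderiv ℝ sq3 z) z :=
    (sq3_smooth.differentiable (by norm_cast) z).hasFDerivAt
  have h2 : HasFDerivAt (fun y => Gb (sq3 y)) ((gb (sq3 z) / 2) • fderiv ℝ sq3 z) z :=
    (Gb_deriv (sq3 z)).comp_hasFDerivAt z h1
  have h3 := h2.const_mul c0
  have h4 : fderiv ℝ eE z = c0 • ((gb (sq3 z) / 2) • fderiv ℝ sq3 z) := h3.fderiv
  unfold pd
  rw [h4]
  have h5 := pd_sq3 i z
  unfold pd at h5
  simp only [smul_apply, smul_eq_mul, h5]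
  unfold et
  ring

/-! ### Kernels -/

/-- A smooth kernel with support in the unit ball. -/
structure Ker (k : V → ℝ) : Prop where
  sm : ContDiff ℝ ∞ k
  zero : ∀ z ∉ ball (0 : V) 1, k z = 0

theorem ker_et : Ker et := ⟨et_smooth, fun _ hz => et_zero hz⟩

theorem ker_eE : Ker eE := ⟨eE_smooth, fun _ hz => eE_zero hz⟩

theorem Ker.cs {k : V → ℝ} (hk : Ker k) : HasCompactSupport k := hcs hk.zero

theorem Ker.mul {k : V → ℝ} (hk : Ker k) {g : V → ℝ} (hg : ContDiff ℝ ∞ g) :
    Ker (fun z => g z * k z) :=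
  ⟨hg.mul hk.sm, fun z hz => by rw [hk.zero z hz, mul_zero]⟩

theorem Ker.coord {k : V → ℝ} (hk : Ker k) (i : Fin 3) : Ker (fun z => z i * k z) :=
  hk.mul (contDiff_apply ℝ ℝ i)

theorem pd_zero_of_zero {k : V → ℝ} (hk : Ker k) (j : Fin 3) : ∀ z ∉ ball (0 : V) 1,
    pd j k z = 0 := by
  -- the support of the derivative is contained in the closure of the support
  intro z hz
  have hc : Continuous (pd j k) := (sm_pd hk.sm j).continuous
  -- outside the closed ball the derivative vanishes; on the sphere use continuity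
  have hout : ∀ y : V, y ∉ closedBall (0 : V) 1 → pd j k y = 0 := by
    intro y hy
    have hev : k =ᶠ[𝓝 y] fun _ => 0 := by
      filter_upwards [isClosed_closedBall.isOpen_compl.mem_nhds hy] with w hw
      exact hk.zero w fun h => hw (ball_subset_closedBall h)
    unfold pd
    rw [hev.fderiv_eq]
    simp
  by_cases hz' : z ∈ closedBall (0 : V) 1
  · -- approximate `z` by `(1 + 1/n) z`
    have hlim : Tendsto (fun n : ℕ => (1 + 1 / ((n : ℝ) + 1)) • z) atTop (𝓝 ((1 + 0 : ℝ) • z)) :=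
      (tendsto_const_nhds.add tendsto_one_div_add_atTop_nhds_zero_nat).smul_const z
    rw [add_zero, one_smul] at hlim
    have hl2 := (hc.tendsto z).comp hlim
    have hl3 : Tendsto (fun n : ℕ => pd j k ((1 + 1 / ((n : ℝ) + 1)) • z)) atTop (𝓝 0) := by
      refine tendsto_const_nhds.congr fun n => (hout _ ?_).symm
      rw [mem_closedBall_zero_iff, not_le, norm_smul]
      rw [mem_ball_zero_iff, not_lt] at hz
      have h1 : (0 : ℝ) < 1 / ((n : ℝ) + 1) := by positivity
      rw [Real.norm_of_nonneg (by positivity)]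
      nlinarith
    exact tendsto_nhds_unique hl2 hl3
  · exact hout z hz'

theorem Ker.pd {k : V → ℝ} (hk : Ker k) (j : Fin 3) : Ker (pd j k) :=
  ⟨sm_pd hk.sm j, pd_zero_of_zero hk j⟩

/-- The integral of `f` against the kernel `k`, at the point `x` and the scale `ρ`. -/
noncomputable def kv (k : V → ℝ) (ρ : ℝ) (f : V → ℝ) (x : V) : ℝ := ∫ z, k z * f (x + ρ • z)

theorem kv_cont_int {k : V → ℝ} (hk : Ker k) {f : V → ℝ} (hf : Continuous f) (ρ : ℝ) (x : V) :
    Integrable (fun z => k z * f (x + ρ • z)) :=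
  int_cs (hk.sm.continuous.mul (hf.comp (by fun_prop))) hk.cs.mul_right

theorem kv_smooth {k : V → ℝ} (hk : Ker k) {f : V → ℝ} (hf : ContDiff ℝ ∞ f) :
    ContDiff ℝ ∞ (fun q : ℝ × V => kv k q.1 f q.2) := by
  let g : (ℝ × V) → V → ℝ := fun z y => k y * f (z.2 + z.1 • y)
  have hg : ContDiffOn ℝ ∞ (↿g) ((univ : Set (ℝ × V)) ×ˢ (univ : Set V)) := by
    have h2 : ContDiff ℝ ∞ (fun q : (ℝ × V) × V => q.1.2 + q.1.1 • q.2) :=
      (contDiff_snd.comp contDiff_fst).add ((contDiff_fst.comp contDiff_fst).smul contDiff_snd)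
    have h1 : ContDiff ℝ ∞ (fun q : (ℝ × V) × V => k q.2 * f (q.1.2 + q.1.1 • q.2)) :=
      (hk.sm.comp contDiff_snd).mul (hf.comp h2)
    exact h1.contDiffOn
  have key := contDiffOn_convolution_right_with_param_comp (𝕜 := ℝ) (n := ⊤)
    (ContinuousLinearMap.mul ℝ ℝ) (s := (univ : Set (ℝ × V)))
    (v := fun _ : ℝ × V => (0 : V)) contDiffOn_const (f := fun _ : V => (1 : ℝ)) (g := g)
    (k := closedBall (0 : V) 1) isOpen_univ (isCompact_closedBall 0 1)
    (fun z y _ hy => by
      have : k y = 0 := hk.zero y fun h => hy (ball_subset_closedBall h)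
      simp [g, this]) (μ := (volume : Measure V))
    (locallyIntegrable_const 1) hg
  rw [contDiffOn_univ] at key
  have e : (fun q : ℝ × V => kv k q.1 f q.2) = fun x => convolution (fun _ : V => (1 : ℝ)) (g x)
      (ContinuousLinearMap.mul ℝ ℝ) volume 0 := by
    funext z
    simp only [convolution_def, ContinuousLinearMap.mul_apply', one_mul, zero_sub]
    exact (integral_neg_eq_self (fun y => g z y) volume).symm
  rw [e]
  exact key

theorem kv_smooth_x {k : V → ℝ} (hk : Ker k) {f : V → ℝ} (hf : ContDiff ℝ ∞ f) (ρ : ℝ) :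
    ContDiff ℝ ∞ (kv k ρ f) :=
  (kv_smooth hk hf).comp (contDiff_const.prodMk contDiff_id)

/-- The total derivative in the scale and the point. -/
theorem kv_fderiv {k : V → ℝ} (hk : Ker k) {f : V → ℝ} (hf : ContDiff ℝ ∞ f) (ρ : ℝ) (x : V) :
    HasFDerivAt (fun q : ℝ × V => kv k q.1 f q.2)
      (∫ z, k z • (fderiv ℝ f (x + ρ • z)).comp
        (ContinuousLinearMap.snd ℝ ℝ V + (ContinuousLinearMap.fst ℝ ℝ V).smulRight z)) (ρ, x) := by
  have hfd : Continuous (fderiv ℝ f) := hf.continuous_fderiv (by simp)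
  have hkc : Continuous k := hk.sm.continuous
  let L : V → (ℝ × V →L[ℝ] V) := fun z =>
    ContinuousLinearMap.snd ℝ ℝ V + (ContinuousLinearMap.fst ℝ ℝ V).smulRight z
  have hL : Continuous L := by
    have h : Continuous fun z : V => (ContinuousLinearMap.fst ℝ ℝ V).smulRight z :=
      (ContinuousLinearMap.smulRightL ℝ (ℝ × V) V (ContinuousLinearMap.fst ℝ ℝ V)).continuous
    exact continuous_const.add h
  have hF : Continuous fun q : (ℝ × V) × V => (fderiv ℝ f (q.1.2 + q.1.1 • q.2)).comp (L q.2) :=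
    (hfd.comp (by fun_prop)).clm_comp (hL.comp continuous_snd)
  have hcomp : IsCompact (closedBall ((ρ, x) : ℝ × V) 1 ×ˢ closedBall (0 : V) 1) :=
    (isCompact_closedBall _ 1).prod (isCompact_closedBall 0 1)
  obtain ⟨C, hC⟩ := hcomp.exists_bound_of_continuousOn hF.continuousOn
  refine hasFDerivAt_integral_of_dominated_of_fderiv_le
    (F := fun q : ℝ × V => fun z => k z * f (q.2 + q.1 • z))
    (F' := fun q z => k z • (fderiv ℝ f (q.2 + q.1 • z)).comp (L z))
    (bound := fun z => |k z| * C) (s := closedBall (ρ, x) 1)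
    (closedBall_mem_nhds _ one_pos) ?_ ?_ ?_ ?_ ?_ ?_
  · filter_upwards with q
    exact (hkc.mul (hf.continuous.comp (by fun_prop))).aestronglyMeasurable
  · exact kv_cont_int hk hf.continuous ρ x
  · have h : Continuous fun z => k z • (fderiv ℝ f (x + ρ • z)).comp (L z) :=
      hkc.smul (hF.comp (f := fun z : V => (((ρ, x), z) : (ℝ × V) × V)) (by fun_prop))
    exact h.aestronglyMeasurable
  · filter_upwards with z q hq
    by_cases hz : z ∈ closedBall (0 : V) 1
    · rw [norm_smul, Real.norm_eq_abs]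
      exact mul_le_mul_of_nonneg_left (hC (q, z) ⟨hq, hz⟩) (abs_nonneg _)
    · rw [hk.zero z fun h => hz (ball_subset_closedBall h)]
      simp
  · exact ((int_cs hkc hk.cs).abs).mul_const C
  · filter_upwards with z q _
    have h1 : HasFDerivAt f (fderiv ℝ f (q.2 + q.1 • z)) (q.2 + q.1 • z) :=
      (hf.differentiable (by simp) _).hasFDerivAt
    have h2 : HasFDerivAt (fun q : ℝ × V => q.2 + q.1 • z) (L z) q :=
      (hasFDerivAt_snd).add ((hasFDerivAt_fst).smul_const z)
    exact (h1.comp q h2).const_mul (k z)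

theorem kv_int_fd {k : V → ℝ} (hk : Ker k) {f : V → ℝ} (hf : ContDiff ℝ ∞ f) (ρ : ℝ) (x : V) :
    Integrable (fun z => k z • (fderiv ℝ f (x + ρ • z)).comp
        (ContinuousLinearMap.snd ℝ ℝ V + (ContinuousLinearMap.fst ℝ ℝ V).smulRight z)) := by
  have hfd : Continuous (fderiv ℝ f) := hf.continuous_fderiv (by simp)
  have hkc : Continuous k := hk.sm.continuous
  have hL : Continuous (fun z : V =>
      ContinuousLinearMap.snd ℝ ℝ V + (ContinuousLinearMap.fst ℝ ℝ V).smulRight z) := by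
    have h : Continuous fun z : V => (ContinuousLinearMap.fst ℝ ℝ V).smulRight z :=
      (ContinuousLinearMap.smulRightL ℝ (ℝ × V) V (ContinuousLinearMap.fst ℝ ℝ V)).continuous
    exact continuous_const.add h
  have hc : Continuous fun z => k z • (fderiv ℝ f (x + ρ • z)).comp
        (ContinuousLinearMap.snd ℝ ℝ V + (ContinuousLinearMap.fst ℝ ℝ V).smulRight z) :=
    hkc.smul ((hfd.comp (by fun_prop)).clm_comp hL)
  refine hc.integrable_of_hasCompactSupport ?_
  refine HasCompactSupport.intro (isCompact_closedBall (0 : V) 1) fun z hz => ?_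
  rw [hk.zero z fun h => hz (ball_subset_closedBall h), zero_smul]

theorem pd_kv {k : V → ℝ} (hk : Ker k) {f : V → ℝ} (hf : ContDiff ℝ ∞ f) (ρ : ℝ) (j : Fin 3)
    (x : V) : pd j (kv k ρ f) x = kv k ρ (pd j f) x := by
  have h1 : HasFDerivAt (kv k ρ f) _ x :=
    (kv_fderiv hk hf ρ x).comp x (hasFDerivAt_prodMk_right ρ x)
  unfold pd
  rw [h1.fderiv, ContinuousLinearMap.comp_apply, ContinuousLinearMap.integral_apply (kv_int_fd hk hf ρ x)]
  unfold kv
  congr 1
  funext z
  simp

theorem clm_coord (L : V →L[ℝ] ℝ) (z : V) : L z = ∑ i, z i * L (Pi.single i 1) := by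
  have e : z = ∑ i, z i • (Pi.single i (1 : ℝ) : V) := by
    conv_lhs => rw [← Finset.univ_sum_single z]
    refine Finset.sum_congr rfl fun i _ => ?_
    rw [← Pi.single_smul]
    simp
  calc L z = L (∑ i, z i • (Pi.single i (1 : ℝ) : V)) := congrArg L e
    _ = _ := by
      rw [map_sum]
      refine Finset.sum_congr rfl fun i _ => ?_
      rw [map_smul, smul_eq_mul]

/-- The derivative in the scale. -/
theorem kv_scale {k : V → ℝ} (hk : Ker k) {f : V → ℝ} (hf : ContDiff ℝ ∞ f) (ρ : ℝ) (x : V) :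
    HasDerivAt (fun ρ => kv k ρ f x) (∑ i, kv (fun z => z i * k z) ρ (pd i f) x) ρ := by
  have h1 : HasFDerivAt (fun ρ : ℝ => kv k ρ f x) _ ρ :=
    HasFDerivAt.comp (g := fun q : ℝ × V => kv k q.1 f q.2) (f := fun ρ : ℝ => (ρ, x)) ρ
      (kv_fderiv hk hf ρ x) (hasFDerivAt_prodMk_left ρ x)
  have h2 := h1.hasDerivAt
  refine h2.congr_deriv ?_
  rw [ContinuousLinearMap.comp_apply, ContinuousLinearMap.integral_apply (kv_int_fd hk hf ρ x)]
  have h3 : ∀ i : Fin 3, Integrable (fun z : V => z i * k z * pd i f (x + ρ • z)) := fun i =>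
    kv_cont_int (hk.coord i) (sm_pd hf i).continuous ρ x
  unfold kv
  rw [← integral_finsetSum _ fun i _ => h3 i]
  congr 1
  funext z
  have e2 : fderiv ℝ f (x + ρ • z) z = ∑ i, z i * pd i f (x + ρ • z) :=
    clm_coord (fderiv ℝ f (x + ρ • z)) z
  simp only [smul_apply, ContinuousLinearMap.comp_apply, add_apply,
    ContinuousLinearMap.inl_apply, ContinuousLinearMap.coe_snd', ContinuousLinearMap.smulRight_apply,
    ContinuousLinearMap.coe_fst', one_smul, zero_add, smul_eq_mul, e2, Finset.mul_sum]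
  refine Finset.sum_congr rfl fun i _ => ?_
  ring

theorem pd_scal {f : V → ℝ} (hf : ContDiff ℝ ∞ f) (x : V) (ρ : ℝ) (i : Fin 3) (z : V) :
    pd i (fun z => f (x + ρ • z)) z = ρ * pd i f (x + ρ • z) := by
  unfold pd
  have h1 : HasFDerivAt (fun z : V => x + ρ • z) (ρ • ContinuousLinearMap.id ℝ V) z :=
    ((hasFDerivAt_id z).const_smul ρ).const_add x
  have h2 : HasFDerivAt (fun z => f (x + ρ • z))
      ((fderiv ℝ f (x + ρ • z)).comp (ρ • ContinuousLinearMap.id ℝ V)) z :=
    ((hf.differentiable (by norm_cast) (x + ρ • z)).hasFDerivAt).comp z h1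
  rw [h2.fderiv]
  simp

theorem sm_scal {f : V → ℝ} (hf : ContDiff ℝ ∞ f) (x : V) (ρ : ℝ) :
    ContDiff ℝ ∞ (fun z : V => f (x + ρ • z)) :=
  hf.comp (contDiff_const.add (contDiff_const_smul ρ))

/-- Integration by parts. -/
theorem kv_ibp {k : V → ℝ} (hk : Ker k) {f : V → ℝ} (hf : ContDiff ℝ ∞ f) (ρ : ℝ) (i : Fin 3)
    (x : V) : kv (pd i k) ρ f x = -(ρ * kv k ρ (pd i f) x) := by
  have hg := sm_scal hf x ρ
  have h := Z_pd (hk.sm.mul hg) (hk.cs.mul_right) i
  have e : ∀ z, pd i (fun z => k z * f (x + ρ • z)) z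
      = ρ * (k z * pd i f (x + ρ • z)) + pd i k z * f (x + ρ • z) := by
    intro z
    rw [pd_mul' hk.sm hg, pd_scal hf]
    ring
  have i1 : Integrable fun z => ρ * (k z * pd i f (x + ρ • z)) :=
    (kv_cont_int hk (sm_pd hf i).continuous ρ x).const_mul ρ
  have i2 := kv_cont_int (hk.pd i) hf.continuous ρ x
  have h2 := h.2
  simp_rw [e] at h2
  rw [integral_add i1 i2, integral_const_mul] at h2
  unfold kv
  linarith

end Pool.Agent.H946.NS
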