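import Pool.Agent.H946_NS.LP

/-!
The growth of the local enstrophy around a regular point.
-/

set_option autoImplicit false

open MeasureTheory Set Metric Filter Topology
open scoped ContDiff ENNReal

namespace Pool.Agent.H946.NS

open H459R3.NS W221.NS Pool.Agent.W583.MD

/-- The stretching term after an integration by parts. -/
noncomputable def SS (v : V → V) (φ : V → ℝ) (z : V) : ℝ := ∑ i, ∑ j, ∑ k,
  2 * (v z j * (pd k (om v i j) z * om v i k z * φ z + om v i j z * pd k (om v i k) z * φ z
      + om v i j z * om v i k z * pd k φ z)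
    + v z i * (pd k (om v i j) z * om v k j z * φ z + om v i j z * pd k (om v k j) z * φ z
      + om v i j z * om v k j z * pd k φ z))

theorem SS_cont {v : V → V} (hv : ContDiff ℝ ∞ v) {φ : V → ℝ} (hφ : Ker φ) :
    Continuous (SS v φ) := by
  unfold SS
  refine continuous_finsetSum _ fun i _ => continuous_finsetSum _ fun j _ =>
    continuous_finsetSum _ fun k _ => ?_
  have h1 := (sm_comp hv j).continuous
  have h2 := (sm_comp hv i).continuous
  have h3 := (sm_pd (om_smooth hv i j) k).continuous
  have h4 := (om_smooth hv i k).continuous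
  have h5 := (om_smooth hv i j).continuous
  have h6 := (sm_pd (om_smooth hv i k) k).continuous
  have h7 := (om_smooth hv k j).continuous
  have h8 := (sm_pd (om_smooth hv k j) k).continuous
  have h9 := hφ.sm.continuous
  have h10 := (hφ.pd k).sm.continuous
  fun_prop

theorem str_ibp {v : V → V} (hv : ContDiff ℝ ∞ v) {φ : V → ℝ} (hφ : Ker φ) :
    ∫ z in ball (0 : V) 1, (str v z * φ z + SS v φ z) = 0 := by
  let F : Fin 3 → Fin 3 → Fin 3 → V → ℝ := fun i j k z =>
    2 * (v z j * (om v i j z * om v i k z * φ z) + v z i * (om v i j z * om v k j z * φ z))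
  have s1 : ∀ i j k, ContDiff ℝ ∞ (fun z => om v i j z * om v i k z * φ z) := fun i j k =>
    ((om_smooth hv i j).mul (om_smooth hv i k)).mul hφ.sm
  have s2 : ∀ i j k, ContDiff ℝ ∞ (fun z => om v i j z * om v k j z * φ z) := fun i j k =>
    ((om_smooth hv i j).mul (om_smooth hv k j)).mul hφ.sm
  have s3 : ∀ i j k, ContDiff ℝ ∞ (fun z => v z j * (om v i j z * om v i k z * φ z)) :=
    fun i j k => (sm_comp hv j).mul (s1 i j k)
  have s4 : ∀ i j k, ContDiff ℝ ∞ (fun z => v z i * (om v i j z * om v k j z * φ z)) :=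
    fun i j k => (sm_comp hv i).mul (s2 i j k)
  have hFs : ∀ i j k, Ker (F i j k) := fun i j k =>
    ⟨contDiff_const.mul ((s3 i j k).add (s4 i j k)), fun z hz => by
      simp only [F, hφ.zero z hz, mul_zero, add_zero]⟩
  have key : ∀ z, str v z * φ z + SS v φ z = ∑ i, ∑ j, ∑ k, pd k (F i j k) z := by
    intro z
    have e1 : ∀ i j k, pd k (F i j k) z =
        2 * (v z j * (pd k (om v i j) z * om v i k z * φ z + om v i j z * pd k (om v i k) z * φ z
            + om v i j z * om v i k z * pd k φ z)
          + v z i * (pd k (om v i j) z * om v k j z * φ z + om v i j z * pd k (om v k j) z * φ z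
            + om v i j z * om v k j z * pd k φ z))
        + 2 * om v i j z * (om v i k z * pd k (fun y => v y j) z
          + pd k (fun y => v y i) z * om v k j z) * φ z := by
      intro i j k
      have b1 : pd k (F i j k) z = 2 * pd k (fun z => v z j * (om v i j z * om v i k z * φ z)
          + v z i * (om v i j z * om v k j z * φ z)) z :=
        Pool.Agent.W135.MD.pd_cmul (Pool.Agent.W135.MD.sm_diff ((s3 i j k).add (s4 i j k))) 2 k z
      have b2 : pd k (fun z => v z j * (om v i j z * om v i k z * φ z)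
          + v z i * (om v i j z * om v k j z * φ z)) z
          = pd k (fun z => v z j * (om v i j z * om v i k z * φ z)) z
            + pd k (fun z => v z i * (om v i j z * om v k j z * φ z)) z := by
        unfold pd
        have := fderiv_add (x := z) ((s3 i j k).differentiable (by simp) z)
          ((s4 i j k).differentiable (by simp) z)
        change (fderiv ℝ ((fun z => v z j * (om v i j z * om v i k z * φ z))
          + fun z => v z i * (om v i j z * om v k j z * φ z)) z) _ = _
        rw [this]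
        rfl
      have b3 : pd k (fun z => v z j * (om v i j z * om v i k z * φ z)) z
          = v z j * pd k (fun z => om v i j z * om v i k z * φ z) z
            + pd k (fun y => v y j) z * (om v i j z * om v i k z * φ z) :=
        pd_mul' (sm_comp hv j) (s1 i j k) k z
      have b4 : pd k (fun z => v z i * (om v i j z * om v k j z * φ z)) z
          = v z i * pd k (fun z => om v i j z * om v k j z * φ z) z
            + pd k (fun y => v y i) z * (om v i j z * om v k j z * φ z) :=
        pd_mul' (sm_comp hv i) (s2 i j k) k z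
      have b5 : pd k (fun z => om v i j z * om v i k z * φ z) z
          = om v i j z * om v i k z * pd k φ z + pd k (fun z => om v i j z * om v i k z) z * φ z :=
        pd_mul' ((om_smooth hv i j).mul (om_smooth hv i k)) hφ.sm k z
      have b6 : pd k (fun z => om v i j z * om v k j z * φ z) z
          = om v i j z * om v k j z * pd k φ z + pd k (fun z => om v i j z * om v k j z) z * φ z :=
        pd_mul' ((om_smooth hv i j).mul (om_smooth hv k j)) hφ.sm k z
      have b7 : pd k (fun z => om v i j z * om v i k z) z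
          = om v i j z * pd k (om v i k) z + pd k (om v i j) z * om v i k z :=
        pd_mul' (om_smooth hv i j) (om_smooth hv i k) k z
      have b8 : pd k (fun z => om v i j z * om v k j z) z
          = om v i j z * pd k (om v k j) z + pd k (om v i j) z * om v k j z :=
        pd_mul' (om_smooth hv i j) (om_smooth hv k j) k z
      rw [b1, b2, b3, b4, b5, b6, b7, b8]
      ring
    have e2 : str v z * φ z = ∑ i, ∑ j, ∑ k, 2 * om v i j z * (om v i k z * pd k (fun y => v y j) z
        + pd k (fun y => v y i) z * om v k j z) * φ z := by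
      unfold str
      simp only [Fin.sum_univ_three]
      ring
    rw [e2]
    simp_rw [e1, Finset.sum_add_distrib]
    unfold SS
    rw [add_comm]
  simp_rw [key]
  rw [setIntegral_eq_integral_of_forall_compl_eq_zero fun z hz => Finset.sum_eq_zero fun i _ =>
    Finset.sum_eq_zero fun j _ => Finset.sum_eq_zero fun k _ => ((hFs i j k).pd k).zero z hz]
  have hZ : Z (fun z => ∑ i, ∑ j, ∑ k, pd k (F i j k) z) :=
    Z.sum fun i => Z.sum fun j => Z.sum fun k => Z_pd (hFs i j k).sm (hFs i j k).cs k
  exact hZ.2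

/-- A product bound. -/
theorem young {w x y φ B : ℝ} (hw : |w| ≤ B) (hφ : 0 ≤ φ) :
    2 * (w * (x * y * φ)) ≤ (1 / 8 * x ^ 2 + 8 * B ^ 2 * y ^ 2) * φ := by
  have h1 : w ^ 2 ≤ B ^ 2 := by
    rw [← sq_abs w]
    exact pow_le_pow_left₀ (abs_nonneg _) hw 2
  have h2 : 2 * (w * x * y) ≤ 1 / 8 * x ^ 2 + 8 * (w ^ 2 * y ^ 2) := by
    nlinarith [sq_nonneg (x - 8 * (w * y))]
  have h3 : w ^ 2 * y ^ 2 ≤ B ^ 2 * y ^ 2 := mul_le_mul_of_nonneg_right h1 (sq_nonneg y)
  calc 2 * (w * (x * y * φ)) = 2 * (w * x * y) * φ := by ring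
    _ ≤ (1 / 8 * x ^ 2 + 8 * B ^ 2 * y ^ 2) * φ := by
        apply mul_le_mul_of_nonneg_right _ hφ
        linarith

theorem young2 {w x y g B G : ℝ} (hw : |w| ≤ B) (hg : |g| ≤ G) :
    2 * (w * (x * y * g)) ≤ B * G * (x ^ 2 + y ^ 2) := by
  have hB : 0 ≤ B := (abs_nonneg _).trans hw
  have hG : 0 ≤ G := (abs_nonneg _).trans hg
  have h1 : |w * g| ≤ B * G := by
    rw [abs_mul]
    exact mul_le_mul hw hg (abs_nonneg _) hB
  have h2 := two_le (x := x) (y := y) (A := -(w * g)) (G := B * G) (by rwa [abs_neg])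
  calc 2 * (w * (x * y * g)) = -(2 * (x * y) * -(w * g)) := by ring
    _ ≤ _ := h2

theorem SS_le {v : V → V} {φ : V → ℝ} {z : V} {B G : ℝ} (hB : ∀ k, |v z k| ≤ B)
    (h0 : 0 ≤ φ z) (h1 : φ z ≤ 1) (hG : ∀ k, |pd k φ z| ≤ G) :
    SS v φ z ≤ 2 * (dsq v z * φ z) + (96 * B ^ 2 + 12 * (B * G)) * osq v z := by
  have hB0 : 0 ≤ B := (abs_nonneg _).trans (hB 0)
  have key : ∀ i j k, 2 * (v z j * (pd k (om v i j) z * om v i k z * φ z
        + om v i j z * pd k (om v i k) z * φ z + om v i j z * om v i k z * pd k φ z)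
      + v z i * (pd k (om v i j) z * om v k j z * φ z + om v i j z * pd k (om v k j) z * φ z
        + om v i j z * om v k j z * pd k φ z))
      ≤ ((1 / 8 * pd k (om v i j) z ^ 2 + 8 * B ^ 2 * om v i k z ^ 2) * φ z
        + (1 / 8 * pd k (om v i k) z ^ 2 + 8 * B ^ 2 * om v i j z ^ 2) * φ z
        + B * G * (om v i j z ^ 2 + om v i k z ^ 2))
        + ((1 / 8 * pd k (om v i j) z ^ 2 + 8 * B ^ 2 * om v k j z ^ 2) * φ z
        + (1 / 8 * pd k (om v k j) z ^ 2 + 8 * B ^ 2 * om v i j z ^ 2) * φ z
        + B * G * (om v i j z ^ 2 + om v k j z ^ 2)) := by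
    intro i j k
    have a1 := young (x := pd k (om v i j) z) (y := om v i k z) (hB j) h0
    have a2 := young (x := pd k (om v i k) z) (y := om v i j z) (hB j) h0
    have a3 := young2 (x := om v i j z) (y := om v i k z) (hB j) (hG k)
    have a4 := young (x := pd k (om v i j) z) (y := om v k j z) (hB i) h0
    have a5 := young (x := pd k (om v k j) z) (y := om v i j z) (hB i) h0
    have a6 := young2 (x := om v i j z) (y := om v k j z) (hB i) (hG k)
    linarith
  have hsum : SS v φ z ≤ ∑ i, ∑ j, ∑ k,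
      (((1 / 8 * pd k (om v i j) z ^ 2 + 8 * B ^ 2 * om v i k z ^ 2) * φ z
        + (1 / 8 * pd k (om v i k) z ^ 2 + 8 * B ^ 2 * om v i j z ^ 2) * φ z
        + B * G * (om v i j z ^ 2 + om v i k z ^ 2))
        + ((1 / 8 * pd k (om v i j) z ^ 2 + 8 * B ^ 2 * om v k j z ^ 2) * φ z
        + (1 / 8 * pd k (om v k j) z ^ 2 + 8 * B ^ 2 * om v i j z ^ 2) * φ z
        + B * G * (om v i j z ^ 2 + om v k j z ^ 2))) :=
    Finset.sum_le_sum fun i _ => Finset.sum_le_sum fun j _ => Finset.sum_le_sum fun k _ =>
      key i j k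
  refine hsum.trans ?_
  have hP : ∑ i, ∑ k, pd k (om v i k) z ^ 2 ≤ dsq v z := by
    unfold dsq
    refine Finset.sum_le_sum fun i _ => ?_
    rw [Finset.sum_comm]
    exact Finset.sum_le_sum fun k _ => Finset.single_le_sum (f := fun j => pd k (om v i j) z ^ 2)
      (fun _ _ => sq_nonneg _) (Finset.mem_univ k)
  have hQ : ∑ j, ∑ k, pd k (om v k j) z ^ 2 ≤ dsq v z := by
    unfold dsq
    rw [Finset.sum_comm (f := fun i j => ∑ k, pd k (om v i j) z ^ 2)]
    refine Finset.sum_le_sum fun j _ => ?_
    rw [Finset.sum_comm]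
    exact Finset.sum_le_sum fun k _ => Finset.single_le_sum (f := fun i => pd k (om v i j) z ^ 2)
      (fun _ _ => sq_nonneg _) (Finset.mem_univ k)
  have e : ∑ i, ∑ j, ∑ k,
      (((1 / 8 * pd k (om v i j) z ^ 2 + 8 * B ^ 2 * om v i k z ^ 2) * φ z
        + (1 / 8 * pd k (om v i k) z ^ 2 + 8 * B ^ 2 * om v i j z ^ 2) * φ z
        + B * G * (om v i j z ^ 2 + om v i k z ^ 2))
        + ((1 / 8 * pd k (om v i j) z ^ 2 + 8 * B ^ 2 * om v k j z ^ 2) * φ z
        + (1 / 8 * pd k (om v k j) z ^ 2 + 8 * B ^ 2 * om v i j z ^ 2) * φ z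
        + B * G * (om v i j z ^ 2 + om v k j z ^ 2)))
      = 1 / 4 * (dsq v z * φ z) + 3 / 8 * ((∑ i, ∑ k, pd k (om v i k) z ^ 2) * φ z)
        + 3 / 8 * ((∑ j, ∑ k, pd k (om v k j) z ^ 2) * φ z) + 96 * B ^ 2 * (osq v z * φ z)
        + 12 * (B * G) * osq v z := by
    unfold dsq osq
    simp only [Fin.sum_univ_three]
    ring
  rw [e]
  have h2 := mul_le_mul_of_nonneg_right hP h0
  have h3 := mul_le_mul_of_nonneg_right hQ h0
  have h4 : osq v z * φ z ≤ osq v z := mul_le_of_le_one_right (osq_nonneg v z) h1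
  have h5 : 96 * B ^ 2 * (osq v z * φ z) ≤ 96 * B ^ 2 * osq v z :=
    mul_le_mul_of_nonneg_left h4 (by positivity)
  have h6 : 0 ≤ dsq v z * φ z := mul_nonneg (dsq_nonneg v z) h0
  linarith

/-- The unit scale bound for bounded fields. -/
theorem unit_reg : ∃ C : ℝ, 1 ≤ C ∧ ∀ v : V → V, ContDiff ℝ ∞ v →
    (∀ y ∈ ball (0 : V) 1, dv v y = 0) → ∀ B : ℝ, (∀ z ∈ ball (0 : V) 1, ∀ k, |v z k| ≤ B) →
      ∫ z, RR v 0 z * (kap z * kap z) ≤ C * (1 + B) ^ 2 * ∫ z in ball (0 : V) 1, osq v z := by
  obtain ⟨M, hM1, hM, hMl⟩ := kap2_lap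
  refine ⟨96 + 31 * M, by linarith, ?_⟩
  intro v hv hd B hB
  have hB0 : 0 ≤ B := (abs_nonneg _).trans (hB 0 (mem_ball_self one_pos) 0)
  have hkc : Continuous fun z : V => kap z := kap_smooth.continuous
  have hoc := (osq_smooth hv).continuous
  rw [RR_int hv hd 0 ker_kap2]
  have hlapc : Continuous (lap (fun z : V => kap z * kap z)) := by
    unfold lap
    exact continuous_finsetSum _ fun k _ => ((ker_kap2.pd k).pd k).sm.continuous
  have c5 : Continuous fun z : V => -2 * (dsq v z * (kap z * kap z))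
      + osq v z * (lap (fun z : V => kap z * kap z) z
        + ∑ k, (v z k - (0 : V) k) * pd k (fun z : V => kap z * kap z) z)
      - str v z * (kap z * kap z) := by
    have h3 : Continuous (fun z => ∑ k, (v z k - (0 : V) k) * pd k (fun z : V => kap z * kap z) z) :=
      continuous_finsetSum _ fun k _ => ((sm_comp hv k).continuous.sub continuous_const).mul
        (ker_kap2.pd k).sm.continuous
    exact ((continuous_const.mul ((dsq_cont hv).mul (hkc.mul hkc))).add (hoc.mul (hlapc.add h3))).sub
      ((str_cont hv).mul (hkc.mul hkc))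
  have c6 : Continuous fun z : V => str v z * (kap z * kap z)
      + SS v (fun z : V => kap z * kap z) z :=
    ((str_cont hv).mul (hkc.mul hkc)).add (SS_cont hv ker_kap2)
  have h1 : ∫ z in ball (0 : V) 1, (-2 * (dsq v z * (kap z * kap z))
      + osq v z * (lap (fun z : V => kap z * kap z) z
        + ∑ k, (v z k - (0 : V) k) * pd k (fun z : V => kap z * kap z) z)
      - str v z * (kap z * kap z))
      = ∫ z in ball (0 : V) 1, ((-2 * (dsq v z * (kap z * kap z))
      + osq v z * (lap (fun z : V => kap z * kap z) z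
        + ∑ k, (v z k - (0 : V) k) * pd k (fun z : V => kap z * kap z) z)
      - str v z * (kap z * kap z)) + (str v z * (kap z * kap z)
      + SS v (fun z : V => kap z * kap z) z)) := by
    rw [integral_add (int_ball c5 0 1) (int_ball c6 0 1), str_ibp hv ker_kap2, add_zero]
  rw [h1, ← integral_const_mul]
  refine setIntegral_mono_on (int_ball (c5.add c6) 0 1) (int_ball (continuous_const.mul hoc) 0 1)
    measurableSet_ball fun z hz => ?_
  have ho := osq_nonneg v z
  have hk0 := kap_nonneg z
  have hk1 := kap_le_one z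
  have e1 : ∀ k, |pd k (fun z : V => kap z * kap z) z| ≤ 2 * M := by
    intro k
    have e : pd k (fun z : V => kap z * kap z) z
        = kap z * pd k (fun z : V => kap z) z + pd k (fun z : V => kap z) z * kap z :=
      pd_mul' kap_smooth kap_smooth k z
    rw [e, show kap z * pd k (fun z : V => kap z) z + pd k (fun z : V => kap z) z * kap z
      = 2 * kap z * pd k (fun z : V => kap z) z by ring, abs_mul, abs_of_nonneg (by positivity)]
    calc 2 * kap z * |pd k (fun z : V => kap z) z| ≤ 2 * 1 * M := by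
          gcongr
          exact hM z k
      _ = _ := by ring
  have h2 := SS_le (v := v) (φ := fun z : V => kap z * kap z) (z := z) (hB z hz)
    (mul_nonneg hk0 hk0) (mul_le_one₀ hk1 hk0 hk1) e1
  have h3 : lap (fun z : V => kap z * kap z) z
      + ∑ k, (v z k - (0 : V) k) * pd k (fun z : V => kap z * kap z) z ≤ M + 6 * (B * M) := by
    have h4 : ∀ k, (v z k - (0 : V) k) * pd k (fun z : V => kap z * kap z) z ≤ 2 * (B * M) := by
      intro k
      calc (v z k - (0 : V) k) * pd k (fun z : V => kap z * kap z) z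
          ≤ |v z k - (0 : V) k| * |pd k (fun z : V => kap z * kap z) z| := by
            rw [← abs_mul]
            exact le_abs_self _
        _ ≤ B * (2 * M) := by
            refine mul_le_mul ?_ (e1 k) (abs_nonneg _) hB0
            rw [Pi.zero_apply, sub_zero]
            exact hB z hz k
        _ = _ := by ring
    have h5 : ∑ k, (v z k - (0 : V) k) * pd k (fun z : V => kap z * kap z) z
        ≤ ∑ _k : Fin 3, 2 * (B * M) := Finset.sum_le_sum fun k _ => h4 k
    have h6 : ∑ _k : Fin 3, 2 * (B * M) = 6 * (B * M) := by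
      simp
      ring
    have h7 := (le_abs_self _).trans (hMl z)
    linarith
  have h4 := mul_le_mul_of_nonneg_left h3 ho
  have h5 : osq v z * (M + 6 * (B * M)) + (96 * B ^ 2 + 12 * (B * (2 * M))) * osq v z
      ≤ (96 + 31 * M) * (1 + B) ^ 2 * osq v z := by
    have h6 : (M + 6 * (B * M)) + (96 * B ^ 2 + 12 * (B * (2 * M)))
        ≤ (96 + 31 * M) * (1 + B) ^ 2 := by
      nlinarith [mul_nonneg hB0 (by linarith : (0 : ℝ) ≤ M),
        mul_nonneg (sq_nonneg B) (by linarith : (0 : ℝ) ≤ M)]
    have h7 := mul_le_mul_of_nonneg_right h6 ho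
    linarith
  linarith

end Pool.Agent.H946.NS
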