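import Pool.Agent.H946_NS.Reg

/-!
The local enstrophy stays bounded around a regular point.
-/

set_option autoImplicit false

open MeasureTheory Set Metric Filter Topology
open scoped ContDiff ENNReal

namespace Pool.Agent.H946.NS

open H459R3.NS W221.NS Pool.Agent.W583.MD

/-- A localised integral. -/
noncomputable def wn (r : ℝ) (F : V → ℝ) (x : V) : ℝ :=
  r ^ 3 * ∫ z, F (x + r • z) * (kap z * kap z)

theorem wn_ball {r : ℝ} (F : V → ℝ) (x : V) :
    wn r F x = r ^ 3 * ∫ z in ball (0 : V) 1, F (x + r • z) * (kap z * kap z) := by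
  unfold wn
  congr 1
  rw [setIntegral_eq_integral_of_forall_compl_eq_zero]
  intro z hz
  rw [kap_zero hz]
  ring

theorem wn_le {r : ℝ} (hr : 0 < r) {F : V → ℝ} (hF : Continuous F) (h0 : ∀ x, 0 ≤ F x) (x : V) :
    wn r F x ≤ ∫ y in ball x r, F y := by
  have hc : Continuous fun z : V => F (x + r • z) := hF.comp (by fun_prop)
  have hk : Continuous fun z : V => kap z := kap_smooth.continuous
  rw [wn_ball]
  have h1 : ∫ z in ball (0 : V) 1, F (x + r • z) * (kap z * kap z)
      ≤ ∫ z in ball (0 : V) 1, F (x + r • z) := by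
    refine setIntegral_mono (int_ball (hc.mul (hk.mul hk)) 0 1) (int_ball hc 0 1) fun z => ?_
    have h2 : kap z * kap z ≤ 1 := mul_le_one₀ (kap_le_one z) (kap_nonneg z) (kap_le_one z)
    exact mul_le_of_le_one_right (h0 _) h2
  rw [cov' F x hr, mul_one] at h1
  calc r ^ 3 * _ ≤ r ^ 3 * ((r ^ 3)⁻¹ * ∫ y in ball x r, F y) :=
        mul_le_mul_of_nonneg_left h1 (by positivity)
    _ = _ := by
        rw [← mul_assoc, mul_inv_cancel₀ (by positivity), one_mul]

theorem le_wn {r : ℝ} (hr : 0 < r) {F : V → ℝ} (hF : Continuous F) (h0 : ∀ x, 0 ≤ F x) (x : V) :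
    ∫ y in ball x (3 / 4 * r), F y ≤ wn r F x := by
  have hc : Continuous fun z : V => F (x + r • z) := hF.comp (by fun_prop)
  have hk : Continuous fun z : V => kap z := kap_smooth.continuous
  rw [wn_ball]
  have h1 : ∫ z in ball (0 : V) (3 / 4), F (x + r • z)
      ≤ ∫ z in ball (0 : V) 1, F (x + r • z) * (kap z * kap z) := by
    have h2 : ∫ z in ball (0 : V) (3 / 4), F (x + r • z)
        = ∫ z in ball (0 : V) (3 / 4), F (x + r • z) * (kap z * kap z) := by
      refine setIntegral_congr_fun measurableSet_ball fun z hz => ?_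
      simp only [kap_one hz, mul_one]
    rw [h2]
    exact ball_mono (hc.mul (hk.mul hk)) (fun z => mul_nonneg (h0 _)
      (mul_nonneg (kap_nonneg z) (kap_nonneg z))) (ball_subset_ball (by norm_num))
  rw [cov' F x hr, mul_comm r] at h1
  calc ∫ y in ball x (3 / 4 * r), F y
      = r ^ 3 * ((r ^ 3)⁻¹ * ∫ y in ball x (3 / 4 * r), F y) := by
        rw [← mul_assoc, mul_inv_cancel₀ (by positivity), one_mul]
    _ ≤ _ := mul_le_mul_of_nonneg_left h1 (by positivity)

theorem osq_le_gsq (v : V → V) (x : V) : osq v x ≤ 4 * gsq v x := by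
  unfold osq gsq om
  simp only [Fin.sum_univ_three]
  nlinarith [sq_nonneg (pd 0 (fun y => v y 0) x), sq_nonneg (pd 1 (fun y => v y 1) x),
    sq_nonneg (pd 2 (fun y => v y 2) x),
    sq_nonneg (pd 0 (fun y => v y 1) x + pd 1 (fun y => v y 0) x),
    sq_nonneg (pd 0 (fun y => v y 2) x + pd 2 (fun y => v y 0) x),
    sq_nonneg (pd 1 (fun y => v y 2) x + pd 2 (fun y => v y 1) x)]

section

variable {α β : ℝ} {u : ℝ → V → V}

theorem gsq_joint (hu : ContDiffOn ℝ ∞ (fun z : ℝ × V => u z.1 z.2) (Ioo α β ×ˢ univ)) :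
    ContDiffOn ℝ ∞ (fun z : ℝ × V => gsq (u z.1) z.2) (Ioo α β ×ˢ univ) := by
  have hc : ∀ i, ContDiffOn ℝ ∞ (fun z : ℝ × V => u z.1 z.2 i) (Ioo α β ×ˢ univ) := fun i =>
    contDiffOn_pi.1 hu i
  exact ContDiffOn.sum fun i _ => ContDiffOn.sum fun j _ =>
    (pd_joint (f := fun s y => u s y i) (hc i) j).pow 2

theorem gn_cont (hu : ContDiffOn ℝ ∞ (fun z : ℝ × V => u z.1 z.2) (Ioo α β ×ˢ univ)) (r : ℝ)
    (x : V) : ContinuousOn (fun t => wn r (gsq (u t)) x) (Ioo α β) := by
  unfold wn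
  refine continuousOn_const.mul ?_
  refine continuousOn_integral_of_compact_support (isCompact_closedBall (0 : V) 1)
    (f := fun (t : ℝ) (z : V) => gsq (u t) (x + r • z) * (kap z * kap z)) ?_ ?_
  · have h1 : ContinuousOn (fun q : ℝ × V => gsq (u q.1) (x + r • q.2)) (Ioo α β ×ˢ univ) :=
      (gsq_joint hu).continuousOn.comp (f := fun q : ℝ × V => ((q.1, x + r • q.2) : ℝ × V))
        (by fun_prop) (fun q hq => ⟨hq.1, mem_univ _⟩)
    have h2 : Continuous fun q : ℝ × V => kap q.2 := kap_smooth.continuous.comp continuous_snd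
    exact h1.mul (h2.mul h2).continuousOn
  · intro q z _ hz
    change gsq (u q) (x + r • z) * (kap z * kap z) = 0
    rw [kap_zero fun h => hz (ball_subset_closedBall h)]
    ring

end

/-- The derivative of the localised enstrophy along a path. -/
theorem en_deriv {T : ℝ} {O : Set V} {u : ℝ → V → V} {p : ℝ → V → ℝ} (hL : LS T O u p)
    {r α β : ℝ} (hr : 0 < r) (hα : 0 ≤ α) (hβ : β ≤ T) {X : ℝ → V}
    (hX : ContDiffOn ℝ ∞ X (Ioo α β)) {t : ℝ} (ht : t ∈ Ioo α β) {c : V}
    (hXt : HasDerivAt X c t) (hO : ball (X t) r ⊆ O) :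
    HasDerivAt (fun s => en r (u s) (X s))
      (r ^ 3 * ((r ^ 6)⁻¹ * ∫ z, RR (scv r (X t) (u t)) (fun k => r * c k) z * (kap z * kap z)))
        t := by
  have hsub : Ioo α β ⊆ Ioo 0 T := Ioo_subset_Ioo hα hβ
  have htT : t ∈ Ioo 0 T := hsub ht
  have hu : ContDiffOn ℝ ∞ (fun z : ℝ × V => u z.1 z.2) (Ioo α β ×ˢ univ) :=
    hL.smooth_u.mono (prod_mono hsub subset_rfl)
  have hv : ContDiff ℝ ∞ (u t) := W382.ME.cd_slice hL.smooth_u htT
  set x := X t with hx
  let F : ℝ → V → ℝ := fun s z => osq (u s) (X s + r • z) * (kap z * kap z)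
  have hF : ContDiffOn ℝ ∞ (fun z : ℝ × V => F z.1 z.2) (Ioo α β ×ˢ univ) := by
    have h1 : ContDiffOn ℝ ∞ (fun q : ℝ × V => ((q.1, X q.1 + r • q.2) : ℝ × V))
        (Ioo α β ×ˢ univ) := by
      refine contDiffOn_fst.prodMk (ContDiffOn.add ?_ ?_)
      · exact hX.comp contDiffOn_fst fun q hq => hq.1
      · exact (contDiff_snd.const_smul r).contDiffOn
    have h2 : ContDiffOn ℝ ∞ (fun q : ℝ × V => osq (u q.1) (X q.1 + r • q.2))
        (Ioo α β ×ˢ univ) :=
      ContDiffOn.comp (g := fun z : ℝ × V => osq (u z.1) z.2)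
        (f := fun q : ℝ × V => ((q.1, X q.1 + r • q.2) : ℝ × V)) (osq_joint hu) h1
        (fun q hq => ⟨hq.1, mem_univ _⟩)
    have h3 : ContDiff ℝ ∞ (fun q : ℝ × V => kap q.2 * kap q.2) :=
      ContDiff.comp (g := fun z : V => kap z * kap z) (f := Prod.snd)
        (kap_smooth.mul kap_smooth) contDiff_snd
    have h4 : ContDiffOn ℝ ∞ (fun q : ℝ × V => osq (u q.1) (X q.1 + r • q.2)
        * (kap q.2 * kap q.2)) (Ioo α β ×ˢ univ) := h2.mul h3.contDiffOn
    exact h4
  have hd := hd_int (F := F) hF (fun s _ z hz => by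
    change osq (u s) (X s + r • z) * (kap z * kap z) = 0
    rw [kap_zero hz]; ring) ht
  have hder : ∀ z, deriv (fun s => F s z) t = (r ^ 6)⁻¹ * (RR (scv r x (u t)) (fun k => r * c k) z
      * (kap z * kap z)) := by
    intro z
    by_cases hz : z ∈ ball (0 : V) 1
    · have hyO : x + r • z ∈ O := hO (by
        rw [mem_ball_iff_norm, add_sub_cancel_left, norm_smul, Real.norm_of_nonneg hr.le]
        rw [mem_ball_zero_iff] at hz
        nlinarith)
      have h1 : ∀ i j, HasDerivAt (fun s => om (u s) i j (X s + r • z))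
          (lap (om (u t) i j) (x + r • z)
            - ∑ k, (u t (x + r • z) k - c k) * pd k (om (u t) i j) (x + r • z)
            - ∑ k, (om (u t) i k (x + r • z) * pd k (fun y => u t y j) (x + r • z)
              + pd k (fun y => u t y i) (x + r • z) * om (u t) k j (x + r • z))) t := by
        intro i j
        have h2 := along (f := fun s => om (u s) i j) (om_joint hu i j) ht hXt (r • z)
        refine h2.congr_deriv ?_
        rw [vort_eq hL htT hyO i j]
        simp only [Fin.sum_univ_three]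
        ring
      have h3 : HasDerivAt (fun s => osq (u s) (X s + r • z)) (RR (u t) c (x + r • z)) t := by
        unfold osq RR
        refine HasDerivAt.fun_sum fun i _ => HasDerivAt.fun_sum fun j _ => ?_
        refine ((h1 i j).pow 2).congr_deriv ?_
        norm_num
        exact Or.inl rfl
      have h4 : HasDerivAt (fun s => F s z) (RR (u t) c (x + r • z) * (kap z * kap z)) t :=
        h3.mul_const _
      rw [h4.deriv, RR_scv hv]
      field_simp
    · have e : (fun s => F s z) = fun _ => 0 := by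
        funext s
        change osq (u s) (X s + r • z) * (kap z * kap z) = 0
        rw [kap_zero hz]
        ring
      rw [e, deriv_const, kap_zero hz]
      ring
  simp_rw [hder] at hd
  rw [integral_const_mul] at hd
  exact hd.const_mul (r ^ 3)

/-- The bound of the derivative at a fixed point where the field is bounded. -/
theorem en_fix : ∃ C : ℝ, 1 ≤ C ∧ ∀ (T : ℝ) (O : Set V) (u : ℝ → V → V) (p : ℝ → V → ℝ),
    LS T O u p → ∀ (r : ℝ) (x : V), 0 < r → ball x r ⊆ O → ∀ t ∈ Ioo 0 T, ∀ B : ℝ,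
      (∀ y ∈ ball x r, ∀ k, |u t y k| ≤ B) →
        ∃ D : ℝ, HasDerivAt (fun s => en r (u s) x) D t ∧
          D ≤ C * (1 + r * B) ^ 2 / r ^ 2 * ∫ y in ball x r, osq (u t) y := by
  obtain ⟨C, hC, hU⟩ := unit_reg
  refine ⟨C, hC, ?_⟩
  intro T O u p hL r x hr hO t ht B hB
  have hv : ContDiff ℝ ∞ (u t) := W382.ME.cd_slice hL.smooth_u ht
  have h1 := en_deriv hL (X := fun _ => x) hr le_rfl le_rfl contDiffOn_const ht
    (hasDerivAt_const t x) hO
  refine ⟨_, h1, ?_⟩
  have hmem : ∀ y ∈ ball (0 : V) 1, x + r • y ∈ ball x r := by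
    intro y hy
    rw [mem_ball_iff_norm, add_sub_cancel_left, norm_smul, Real.norm_of_nonneg hr.le]
    rw [mem_ball_zero_iff] at hy
    nlinarith
  have h2 := hU (scv r x (u t)) (scv_smooth hv) (fun y hy => by
    rw [dv_scv hv, hL.divfree t ht (x + r • y) (hO (hmem y hy)), mul_zero]) (r * B)
    (fun z hz k => by
      change |r * u t (x + r • z) k| ≤ r * B
      rw [abs_mul, abs_of_pos hr]
      exact mul_le_mul_of_nonneg_left (hB _ (hmem z hz) k) hr.le)
  have e0 : (fun k : Fin 3 => r * (0 : V) k) = (0 : V) := by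
    funext k
    simp
  rw [e0]
  have h3 : ∫ z in ball (0 : V) 1, osq (scv r x (u t)) z = r * ∫ y in ball x r, osq (u t) y := by
    simp_rw [osq_scv hv]
    rw [integral_const_mul, cov' (osq (u t)) x hr, mul_one]
    field_simp
  rw [h3] at h2
  calc r ^ 3 * ((r ^ 6)⁻¹ * ∫ z, RR (scv r x (u t)) 0 z * (kap z * kap z))
      ≤ r ^ 3 * ((r ^ 6)⁻¹ * (C * (1 + r * B) ^ 2 * (r * ∫ y in ball x r, osq (u t) y))) := by
        gcongr
    _ = _ := by
        field_simp

/-- The localised enstrophy stays bounded around a regular point. -/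
theorem reg_bound {T : ℝ} {O : Set V} {u : ℝ → V → V} {p : ℝ → V → ℝ} (hL : LS T O u p)
    {r B t₁ : ℝ} {x : V} (hr : 0 < r) (hO : ball x (2 * r) ⊆ O) (ht₁ : t₁ ∈ Ioo 0 T)
    (hB : ∀ t ∈ Ioo t₁ T, ∀ y ∈ ball x r, ∀ k, |u t y k| ≤ B)
    (hfin : ∫⁻ t in Ioo 0 T, ∫⁻ y in O, ENNReal.ofReal (gsq (u t) y) ≠ ⊤) :
    ∃ K : ℝ, ∀ t ∈ Ico t₁ T, en r (u t) x ≤ K := by
  obtain ⟨C, hC, hF⟩ := en_fix
  set A := C * (1 + r * B) ^ 2 / r ^ 2 with hA
  have hA0 : 0 ≤ A := by positivity
  set I := (∫⁻ t in Ioo 0 T, ∫⁻ y in O, ENNReal.ofReal (gsq (u t) y)).toReal with hI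
  refine ⟨en r (u t₁) x + A * (4 * I), ?_⟩
  intro t ht
  have hsub : Ioo t₁ t ⊆ Ioo 0 T := Ioo_subset_Ioo ht₁.1.le ht.2.le
  have hsubc : Icc t₁ t ⊆ Ioo 0 T := fun s hs => ⟨ht₁.1.trans_le hs.1, hs.2.trans_lt ht.2⟩
  have hOr : ball x r ⊆ O := (ball_subset_ball (by linarith)).trans hO
  have hder : ∀ s ∈ Ioo t₁ t, ∃ D : ℝ, HasDerivAt (fun s => en r (u s) x) D s ∧
      D ≤ A * ∫ y in ball x r, osq (u s) y := fun s hs =>
    hF T O u p hL r x hr hOr s (hsub hs) B fun y hy k => hB s ⟨hs.1, hs.2.trans ht.2⟩ y hy k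
  choose! D hD hDle using hder
  set g : ℝ → ℝ := fun s => A * (4 * wn (2 * r) (gsq (u s)) x) with hg
  have hgc : ContinuousOn g (Icc t₁ t) :=
    continuousOn_const.mul (continuousOn_const.mul ((gn_cont hL.smooth_u (2 * r) x).mono hsubc))
  have hDg : ∀ s ∈ Ioo t₁ t, D s ≤ g s := by
    intro s hs
    have hv : ContDiff ℝ ∞ (u s) := W382.ME.cd_slice hL.smooth_u (hsub hs)
    refine (hDle s hs).trans (mul_le_mul_of_nonneg_left ?_ hA0)
    have h1 : ∫ y in ball x r, osq (u s) y ≤ 4 * ∫ y in ball x r, gsq (u s) y := by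
      rw [← integral_const_mul]
      exact setIntegral_mono (int_ball (osq_smooth hv).continuous _ _)
        (int_ball (continuous_const.mul (gsq_smooth hv).continuous) _ _) fun y => osq_le_gsq _ y
    have h2 : ∫ y in ball x r, gsq (u s) y ≤ ∫ y in ball x (3 / 4 * (2 * r)), gsq (u s) y :=
      ball_mono (gsq_smooth hv).continuous (gsq_nonneg _) (ball_subset_ball (by linarith))
    have h3 := le_wn (r := 2 * r) (by positivity) (gsq_smooth hv).continuous (gsq_nonneg (u s)) x
    linarith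
  have hec : ContinuousOn (fun s => en r (u s) x) (Icc t₁ t) :=
    (en_cont hL.smooth_u r).comp (f := fun s : ℝ => ((s, x) : ℝ × V)) (by fun_prop)
      (fun s hs => ⟨hsubc hs, mem_univ _⟩)
  have h1 := intervalIntegral.sub_le_integral_of_hasDeriv_right_of_le ht.1 hec
    (fun s hs => (hD s hs).hasDerivWithinAt) (hgc.integrableOn_Icc) hDg
  have h2 : ∫ s in t₁..t, g s ≤ A * (4 * I) := by
    rw [hg, intervalIntegral.integral_const_mul, intervalIntegral.integral_const_mul]
    refine mul_le_mul_of_nonneg_left (mul_le_mul_of_nonneg_left ?_ (by norm_num)) hA0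
    rw [intervalIntegral.integral_of_le ht.1, hI]
    have hgi : IntegrableOn (fun s => wn (2 * r) (gsq (u s)) x) (Ioc t₁ t) :=
      (((gn_cont hL.smooth_u (2 * r) x).mono hsubc).integrableOn_Icc).mono_set Ioc_subset_Icc_self
    have h0 : ∀ s, 0 ≤ wn (2 * r) (gsq (u s)) x := fun s =>
      mul_nonneg (by positivity) (integral_nonneg fun z => mul_nonneg (gsq_nonneg _ _)
        (mul_nonneg (kap_nonneg z) (kap_nonneg z)))
    rw [← ENNReal.ofReal_le_iff_le_toReal hfin, ofReal_integral_eq_lintegral_ofReal hgi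
      (Eventually.of_forall h0)]
    have h3 : ∫⁻ s in Ioc t₁ t, ENNReal.ofReal (wn (2 * r) (gsq (u s)) x)
        ≤ ∫⁻ s in Ioc t₁ t, ∫⁻ y in O, ENNReal.ofReal (gsq (u s) y) := by
      refine setLIntegral_mono' measurableSet_Ioc fun s hs => ?_
      have hv : ContDiff ℝ ∞ (u s) := W382.ME.cd_slice hL.smooth_u (hsubc (Ioc_subset_Icc_self hs))
      refine (ENNReal.ofReal_le_ofReal (wn_le (by positivity) (gsq_smooth hv).continuous
        (gsq_nonneg (u s)) x)).trans ?_
      rw [ofReal_integral_eq_lintegral_ofReal (int_ball (gsq_smooth hv).continuous _ _)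
        (Eventually.of_forall (gsq_nonneg (u s)))]
      exact lintegral_mono_set hO
    exact h3.trans (lintegral_mono_set fun s hs => hsubc (Ioc_subset_Icc_self hs))
  linarith

end Pool.Agent.H946.NS
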