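import Pool.Agent.H946_NS.Reg2
import Pool.Agent.W221.NS.Fin3

/-!
A shell without singular points, and the criterion of regularity.
-/

set_option autoImplicit false

open MeasureTheory Set Metric Filter Topology
open scoped ContDiff ENNReal

namespace Pool.Agent.H946.NS

open H459R3.NS W221.NS Pool.Agent.W583.MD

/-- A small set has spheres without its points. -/
theorem radius_exists {Z : Set V} (hZ : ∀ ε : ℝ, 0 < ε → ∃ r₀ : ℝ, 0 < r₀ ∧ ∀ r : ℝ, 0 < r →
      r < r₀ → ∀ S : Finset V, (∀ x ∈ S, x ∈ Z) → (∀ x ∈ S, ∀ y ∈ S, x ≠ y → r ≤ ‖x - y‖) →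
        S.card * r ≤ ε) (x₀ : V) {a b : ℝ} (hab : a < b) :
    ∃ d ∈ Ioo a b, ∀ z ∈ Z, dist z x₀ ≠ d := by
  have hvol : volume ((fun z => dist z x₀) '' Z) = 0 := by
    refine le_antisymm (ENNReal.le_of_forall_pos_le_add fun ε hε _ => ?_) zero_le
    obtain ⟨r₀, hr₀, H⟩ := hZ (ε / 2) (by positivity)
    set r := r₀ / 2 with hr
    have hr0 : 0 < r := by positivity
    obtain ⟨F, hF1, hF2⟩ := W591.MF.cover (Z := Z) (N := ε / 2 / r) hr0 (fun S h1 h2 => by
      rw [le_div_iff₀ hr0]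
      exact H r hr0 (by linarith) S h1 h2)
    have hsub : (fun z => dist z x₀) '' Z ⊆ ⋃ y ∈ F, ball (dist y x₀) r := by
      rintro _ ⟨z, hz, rfl⟩
      obtain ⟨y, hy, hzy⟩ := hF2 z hz
      rw [mem_iUnion₂]
      refine ⟨y, hy, ?_⟩
      rw [mem_ball, Real.dist_eq]
      refine lt_of_le_of_lt ?_ hzy
      exact abs_dist_sub_le z y x₀
    rw [zero_add]
    calc volume ((fun z => dist z x₀) '' Z) ≤ volume (⋃ y ∈ F, ball (dist y x₀) r) :=
          measure_mono hsub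
      _ ≤ ∑ y ∈ F, volume (ball (dist y x₀) r) := measure_biUnion_finset_le _ _
      _ = ∑ _y ∈ F, ENNReal.ofReal (2 * r) := by
          refine Finset.sum_congr rfl fun y _ => ?_
          rw [Real.volume_ball]
      _ = ENNReal.ofReal (F.card * (2 * r)) := by
          rw [Finset.sum_const, nsmul_eq_mul, ENNReal.ofReal_mul (p := (F.card : ℝ))
            (Nat.cast_nonneg _), ENNReal.ofReal_natCast]
      _ ≤ ENNReal.ofReal ε := by
          refine ENNReal.ofReal_le_ofReal ?_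
          rw [le_div_iff₀ hr0] at hF1
          linarith
      _ = ε := ENNReal.ofReal_coe_nnreal
  by_contra hcon
  push Not at hcon
  have h1 : Ioo a b ⊆ (fun z => dist z x₀) '' Z := by
    intro d hd
    obtain ⟨z, hz, hzd⟩ := hcon d hd
    exact ⟨z, hz, hzd⟩
  have h2 := (measure_mono h1).trans hvol.le
  rw [Real.volume_Ioo] at h2
  have h3 : 0 < ENNReal.ofReal (b - a) := ENNReal.ofReal_pos.2 (by linarith)
  exact absurd h2 (not_le.2 h3)

/-- The enstrophy is bounded around a compact set of regular points. -/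
theorem compact_bound {T : ℝ} {O : Set V} {u : ℝ → V → V} {p : ℝ → V → ℝ} (hT : 0 < T)
    (hL : LS T O u p)
    (hfin : ∫⁻ t in Ioo 0 T, ∫⁻ y in O, ENNReal.ofReal (gsq (u t) y) ≠ ⊤) {K : Set V}
    (hK : IsCompact K) (hKO : K ⊆ O) (hreg : ∀ z ∈ K, ¬ Sing T u z) :
    ∃ δ : ℝ, 0 < δ ∧ δ < T ∧ ∃ B : ℝ, ∀ y ∈ K, ∀ x ∈ ball y δ, ∀ t ∈ Ioo (T - δ) T,
      ∫ w in ball x δ, osq (u t) w ≤ B := by
  have hv : ∀ t ∈ Ioo 0 T, ContDiff ℝ ∞ (u t) := fun t ht => W382.ME.cd_slice hL.smooth_u ht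
  refine hK.induction_on (p := fun s => ∃ δ : ℝ, 0 < δ ∧ δ < T ∧ ∃ B : ℝ, ∀ y ∈ s, ∀ x ∈ ball y δ,
    ∀ t ∈ Ioo (T - δ) T, ∫ w in ball x δ, osq (u t) w ≤ B) ?_ ?_ ?_ ?_
  · exact ⟨T / 2, by linarith, by linarith, 0, by simp⟩
  · rintro s t hst ⟨δ, h1, h2, B, h3⟩
    exact ⟨δ, h1, h2, B, fun y hy => h3 y (hst hy)⟩
  · rintro s t ⟨δ, h1, h2, B, h3⟩ ⟨δ', h1', h2', B', h3'⟩
    refine ⟨min δ δ', lt_min h1 h1', (min_le_left _ _).trans_lt h2, max B B', ?_⟩
    intro y hy x hx t ht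
    have ht0 : t ∈ Ioo 0 T := ⟨by
      have := min_le_left δ δ'
      linarith [ht.1], ht.2⟩
    have hm : ∀ δ'' : ℝ, min δ δ' ≤ δ'' → ∫ w in ball x (min δ δ'), osq (u t) w
        ≤ ∫ w in ball x δ'', osq (u t) w := fun δ'' h => ball_mono
      (osq_smooth (hv t ht0)).continuous (osq_nonneg _) (ball_subset_ball h)
    rcases hy with hy | hy
    · refine (hm δ (min_le_left _ _)).trans ((h3 y hy x
        (ball_subset_ball (min_le_left _ _) hx) t ⟨?_, ht.2⟩).trans (le_max_left _ _))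
      linarith [ht.1, min_le_left δ δ']
    · refine (hm δ' (min_le_right _ _)).trans ((h3' y hy x
        (ball_subset_ball (min_le_right _ _) hx) t ⟨?_, ht.2⟩).trans (le_max_right _ _))
      linarith [ht.1, min_le_right δ δ']
  · intro z hz
    have hzs := hreg z hz
    unfold Sing at hzs
    push Not at hzs
    obtain ⟨δ, hδ, B, hB⟩ := hzs
    obtain ⟨ρ, hρ, hρO⟩ := Metric.isOpen_iff.1 hL.openO z (hKO hz)
    set r := min δ (ρ / 2) with hr
    have hr0 : 0 < r := lt_min hδ (by positivity)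
    set t₁ := max (T / 2) (T - δ) with ht₁
    have ht₁T : t₁ ∈ Ioo 0 T := ⟨(by positivity : 0 < T / 2).trans_le (le_max_left _ _),
      max_lt (by linarith) (by linarith)⟩
    obtain ⟨A, hA⟩ := reg_bound hL (r := r) (B := B) (t₁ := t₁) (x := z) hr0
      ((ball_subset_ball (by linarith [min_le_right δ (ρ / 2)])).trans hρO) ht₁T
      (fun t ht y hy k => by
        have h1 := hB t ⟨(le_max_right _ _).trans_lt ht.1, ht.2⟩ y
          (ball_subset_ball (min_le_left _ _) hy)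
        exact (norm_le_pi_norm (u t y) k).trans h1) hfin
    refine ⟨ball z (r / 4), mem_nhdsWithin_of_mem_nhds (ball_mem_nhds z (by positivity)),
      min (r / 4) (T - t₁), lt_min (by positivity) (by linarith [ht₁T.2]),
      (min_le_right _ _).trans_lt (by linarith [ht₁T.1]), A, ?_⟩
    intro y hy x hx t ht
    have htt : t ∈ Ico t₁ T := ⟨by linarith [ht.1, min_le_right (r / 4) (T - t₁)], ht.2⟩
    have ht0 : t ∈ Ioo 0 T := ⟨ht₁T.1.trans_le htt.1, ht.2⟩
    refine le_trans ?_ ((le_en hr0 (hv t ht0) z).trans (hA t htt))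
    refine ball_mono (osq_smooth (hv t ht0)).continuous (osq_nonneg _) ?_
    refine ball_subset_ball' ?_
    rw [mem_ball] at hx hy
    have h1 := min_le_left (r / 4) (T - t₁)
    have h2 := dist_triangle x y z
    linarith

/-- The shell. -/
theorem shell {T : ℝ} {O : Set V} {u : ℝ → V → V} {p : ℝ → V → ℝ} (hT : 0 < T)
    (hL : LS T O u p)
    (hfin : ∫⁻ t in Ioo 0 T, ∫⁻ y in O, ENNReal.ofReal (gsq (u t) y) ≠ ⊤) {x₀ : V} {d₀ : ℝ}
    (hd₀ : 0 < d₀) (hO : closedBall x₀ d₀ ⊆ O) (hreg : ∀ z, dist z x₀ = d₀ → ¬ Sing T u z) :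
    ∃ d B : ℝ, 0 < d ∧ 4 * d ≤ d₀ ∧ d < T ∧ ∀ x, d₀ - 4 * d ≤ dist x x₀ → dist x x₀ ≤ d₀ →
      ∀ t ∈ Ioo (T - d) T, ∫ w in ball x d, osq (u t) w ≤ B := by
  obtain ⟨δ, hδ, hδT, B, hB⟩ := compact_bound hT hL hfin (isCompact_sphere x₀ d₀)
    (sphere_subset_closedBall.trans hO) (fun z hz => hreg z hz)
  set d := min (δ / 5) (d₀ / 5) with hd
  have hd1 : d ≤ δ / 5 := min_le_left _ _
  have hd2 : d ≤ d₀ / 5 := min_le_right _ _
  have hd0 : 0 < d := lt_min (by positivity) (by positivity)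
  refine ⟨d, B, hd0, by linarith, by linarith, ?_⟩
  intro x hx1 hx2 t ht
  have hx0 : 0 < dist x x₀ := by linarith
  set y := x₀ + (d₀ / dist x x₀) • (x - x₀) with hy
  have hyS : y ∈ sphere x₀ d₀ := by
    rw [mem_sphere, dist_eq_norm, hy, add_sub_cancel_left, norm_smul, Real.norm_eq_abs,
      abs_of_pos (by positivity), ← dist_eq_norm]
    field_simp
  have hxy : x ∈ ball y δ := by
    have e : x - y = -((d₀ / dist x x₀ - 1) • (x - x₀)) := by
      rw [hy, sub_smul, one_smul]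
      abel
    rw [mem_ball, dist_eq_norm, e, norm_neg, norm_smul, Real.norm_eq_abs, ← dist_eq_norm]
    have h1 : 0 ≤ d₀ / dist x x₀ - 1 := by
      rw [sub_nonneg, one_le_div hx0]
      exact hx2
    rw [abs_of_nonneg h1]
    have h2 : (d₀ / dist x x₀ - 1) * dist x x₀ = d₀ - dist x x₀ := by field_simp
    rw [h2]
    linarith
  have ht0 : t ∈ Ioo 0 T := ⟨by linarith [ht.1], ht.2⟩
  have hv : ContDiff ℝ ∞ (u t) := W382.ME.cd_slice hL.smooth_u ht0
  refine (ball_mono (osq_smooth hv).continuous (osq_nonneg _)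
    (ball_subset_ball (show d ≤ δ by linarith))).trans ?_
  exact hB y hyS x hxy t ⟨by linarith [ht.1], ht.2⟩

/-- If the local enstrophy stays bounded around a point, the point is regular. -/
theorem not_sing {T κ E : ℝ} {O : Set V} {u : ℝ → V → V} {p : ℝ → V → ℝ} (hκ : 0 ≤ κ)
    (hE : 0 ≤ E) (hL : LSol T κ E O u p) {x₀ : V} {r t₀ K : ℝ} (hr : 0 < r)
    (hO : ball x₀ r ⊆ O) (ht₀ : t₀ ∈ Ioo 0 T)
    (hK : ∀ t ∈ Ico t₀ T, ∫ w in ball x₀ r, osq (u t) w ≤ K) : ¬ Sing T u x₀ := by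
  intro hS
  obtain ⟨M, hM1, hM, -⟩ := kap2_lap
  have hK0 : 0 ≤ K := (integral_nonneg fun y => osq_nonneg _ y).trans (hK t₀ ⟨le_rfl, ht₀.2⟩)
  set ψ : V → ℝ := fun z => kap (-(r⁻¹ • x₀) + r⁻¹ • z) with hψ
  have hψs : ContDiff ℝ ∞ ψ := sm_scal kap_smooth (-(r⁻¹ • x₀)) r⁻¹
  have harg : ∀ z, -(r⁻¹ • x₀) + r⁻¹ • z = r⁻¹ • (z - x₀) := fun z => by
    rw [smul_sub]
    abel
  have hnorm : ∀ z, ‖r⁻¹ • (z - x₀)‖ = r⁻¹ * dist z x₀ := fun z => by
    rw [norm_smul, Real.norm_eq_abs, abs_of_pos (by positivity), dist_eq_norm]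
  have hψ0 : ∀ z ∉ ball x₀ r, ψ z = 0 := by
    intro z hz
    simp only [hψ]
    apply kap_zero
    rw [harg, mem_ball_zero_iff, hnorm]
    rw [mem_ball, not_lt] at hz
    rw [not_lt, ← div_eq_inv_mul, one_le_div hr]
    exact hz
  have hψ1 : ∀ z ∈ ball x₀ (3 / 4 * r), ψ z = 1 := by
    intro z hz
    simp only [hψ]
    apply kap_one
    rw [harg, mem_ball_zero_iff, hnorm, ← div_eq_inv_mul, div_lt_iff₀ hr]
    exact hz
  have hψd : ∀ z i, |pd i ψ z| ≤ M / r := by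
    intro z i
    have h1 : pd i ψ z = r⁻¹ * pd i (fun z : V => kap z) (-(r⁻¹ • x₀) + r⁻¹ • z) :=
      pd_scal kap_smooth (-(r⁻¹ • x₀)) r⁻¹ i z
    rw [h1, abs_mul, abs_of_pos (by positivity : 0 < r⁻¹), div_eq_inv_mul]
    exact mul_le_mul_of_nonneg_left (hM _ i) (by positivity)
  have hψb : ∀ z, |ψ z| ≤ 1 := fun z => by
    simp only [hψ]
    rw [abs_of_nonneg (kap_nonneg _)]
    exact kap_le_one _
  set K' := K + 12 * (M / r) ^ 2 * E ^ 2 with hK'
  have hK'0 : 0 ≤ K' := by positivity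
  have hg : ∀ t ∈ Ico t₀ T, ∫ w in ball x₀ (3 / 4 * r), gsq (u t) w ≤ K' := by
    intro t ht
    have ht0 : t ∈ Ioo 0 T := ⟨ht₀.1.trans_le ht.1, ht.2⟩
    have hv : ContDiff ℝ ∞ (u t) := W382.ME.cd_slice hL.smooth_u ht0
    have h1 := divcurl hv hψs hψ0 hψd hψb (fun y hy => hL.divfree t ht0 y (hO hy))
    have h2 : ∫ w in ball x₀ r, nsq (u t) w ≤ E ^ 2 :=
      (setIntegral_le_integral (hL.en_int t ht0)
        (Eventually.of_forall fun y => nsq_nonneg _ y)).trans (hL.en t ht0)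
    have hc : Continuous fun z => ψ z ^ 2 * gsq (u t) z :=
      (hψs.continuous.pow 2).mul (gsq_smooth hv).continuous
    have h3 : ∫ w in ball x₀ (3 / 4 * r), gsq (u t) w
        = ∫ w in ball x₀ (3 / 4 * r), ψ w ^ 2 * gsq (u t) w := by
      refine setIntegral_congr_fun measurableSet_ball fun z hz => ?_
      simp only [hψ1 z hz, one_pow, one_mul]
    have h4 : ∫ w in ball x₀ (3 / 4 * r), ψ w ^ 2 * gsq (u t) w
        ≤ ∫ w in ball x₀ r, ψ w ^ 2 * gsq (u t) w :=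
      ball_mono hc (fun x => mul_nonneg (sq_nonneg _) (gsq_nonneg _ x))
        (ball_subset_ball (by linarith))
    have h5 : 12 * (M / r) ^ 2 * ∫ w in ball x₀ r, nsq (u t) w ≤ 12 * (M / r) ^ 2 * E ^ 2 :=
      mul_le_mul_of_nonneg_left h2 (by positivity)
    have h6 := hK t ht
    rw [h3]
    linarith
  -- the contradiction
  obtain ⟨C, hC, hcount⟩ := B.p_count2
  set O' := ball x₀ (3 / 4 * r) with hO'
  have hO'O : O' ⊆ O := (ball_subset_ball (by linarith)).trans hO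
  have hL' : LSol T κ E O' u p :=
    { openO := isOpen_ball
      smooth_u := hL.smooth_u
      smooth_p := hL.smooth_p
      divfree := fun t ht x hx => hL.divfree t ht x (hO'O hx)
      momentum := fun t ht x hx => hL.momentum t ht x (hO'O hx)
      en_int := hL.en_int
      en := hL.en
      dv_int := hL.dv_int
      dvb := hL.dvb }
  have c1 : Continuous fun s : ℝ => 2 * s ^ 2 := by fun_prop
  have c2 : Continuous fun s : ℝ => C * κ * √s := by fun_prop
  have c3 : Continuous fun s : ℝ => C * (s + E * √s) := by fun_prop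
  have c4 : Continuous fun s : ℝ => C * K' * (2 * s) := by fun_prop
  have l1 : ∀ᶠ s : ℝ in 𝓝 0, 2 * s ^ 2 < T - t₀ := by
    have := c1.tendsto 0
    simp only [mul_zero, ne_eq, OfNat.ofNat_ne_zero, not_false_eq_true, zero_pow] at this
    exact this.eventually_lt_const (by linarith [ht₀.2])
  have l2 : ∀ᶠ s : ℝ in 𝓝 0, C * κ * √s < 1 := by
    have := c2.tendsto 0
    simp only [mul_zero, Real.sqrt_zero] at this
    exact this.eventually_lt_const one_pos
  have l3 : ∀ᶠ s : ℝ in 𝓝 0, C * (s + E * √s) < 3 / 4 * r := by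
    have := c3.tendsto 0
    simp only [mul_zero, Real.sqrt_zero, add_zero] at this
    exact this.eventually_lt_const (by positivity)
  have l4 : ∀ᶠ s : ℝ in 𝓝 0, C * K' * (2 * s) < 1 := by
    have := c4.tendsto 0
    simp only [mul_zero] at this
    exact this.eventually_lt_const one_pos
  obtain ⟨s, ⟨hs1, hs2, hs3, hs4⟩, hs0⟩ :=
    (((l1.and (l2.and (l3.and l4))).filter_mono nhdsWithin_le_nhds).and
      (self_mem_nhdsWithin (s := Ioi (0 : ℝ)))).exists
  have hs0' : (0 : ℝ) < s := hs0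
  have key := hcount T κ E O' u p hκ hE hL' s hs0' (by linarith [ht₀.1]) hs2.le {x₀}
    (by simpa using hS) (by
      intro x hx
      rw [Finset.mem_singleton] at hx
      rw [hx]
      exact ball_subset_ball hs3.le) (by
      intro x hx y hy hxy
      rw [Finset.mem_singleton] at hx hy
      exact absurd (hx.trans hy.symm) hxy)
  rw [Finset.card_singleton, Nat.cast_one, one_mul] at key
  have h1 : ∫⁻ τ in Ioo (T - 2 * s ^ 2) T, ∫⁻ y in O', ENNReal.ofReal (gsq (u τ) y)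
      ≤ ENNReal.ofReal (K' * (2 * s ^ 2)) := by
    have h2 : ∫⁻ τ in Ioo (T - 2 * s ^ 2) T, ∫⁻ y in O', ENNReal.ofReal (gsq (u τ) y)
        ≤ ∫⁻ τ in Ioo (T - 2 * s ^ 2) T, ENNReal.ofReal K' := by
      refine setLIntegral_mono' measurableSet_Ioo fun τ hτ => ?_
      have hτ' : τ ∈ Ico t₀ T := ⟨by linarith [hτ.1], hτ.2⟩
      have hτ0 : τ ∈ Ioo 0 T := ⟨ht₀.1.trans_le hτ'.1, hτ.2⟩
      have hv : ContDiff ℝ ∞ (u τ) := W382.ME.cd_slice hL.smooth_u hτ0
      rw [← ofReal_integral_eq_lintegral_ofReal (int_ball (gsq_smooth hv).continuous _ _)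
        (Eventually.of_forall (gsq_nonneg (u τ)))]
      exact ENNReal.ofReal_le_ofReal (hg τ hτ')
    refine h2.trans (le_of_eq ?_)
    rw [setLIntegral_const, Real.volume_Ioo, ENNReal.ofReal_mul hK'0]
    congr 2
    ring
  have h3 := key.trans (mul_le_mul_right h1 _)
  rw [← ENNReal.ofReal_mul hC.le] at h3
  have h4 : s ≤ C * (K' * (2 * s ^ 2)) :=
    (ENNReal.ofReal_le_ofReal_iff (by positivity)).1 h3
  have h5 : C * (K' * (2 * s ^ 2)) = C * K' * (2 * s) * s := by ring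
  rw [h5] at h4
  have h6 : C * K' * (2 * s) * s < 1 * s := mul_lt_mul_of_pos_right hs4 hs0'
  linarith

end Pool.Agent.H946.NS
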