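import Pool.Agent.H946_NS.Biot2
import Pool.Agent.W440.MD.SOB
import Pool.Agent.W496.MD.MOLL

/-!
The local enstrophy inequality at the unit scale at one time.
-/

set_option autoImplicit false

open MeasureTheory Set Metric Filter Topology
open scoped ContDiff

namespace Pool.Agent.H946.NS

open H459R3.NS W221.NS Pool.Agent.W583.MD

/-! ### The cut-off function -/

theorem kap_smooth : ContDiff ℝ ∞ (fun z : V => kap z) := kap.contDiff

theorem kap_zero {z : V} (hz : z ∉ ball (0 : V) 1) : kap z = 0 := by
  by_contra h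
  have h1 : z ∈ Function.support (fun z : V => kap z) := h
  rw [show Function.support (fun z : V => kap z) = ball (0 : V) 1 from kap.support_eq] at h1
  exact hz h1

theorem ker_kap : Ker (fun z : V => kap z) := ⟨kap_smooth, fun _ hz => kap_zero hz⟩

theorem kap_nonneg (z : V) : 0 ≤ kap z := kap.nonneg

theorem kap_le_one (z : V) : kap z ≤ 1 := kap.le_one

theorem kap_one {z : V} (hz : z ∈ ball (0 : V) (3 / 4)) : kap z = 1 :=
  kap.one_of_mem_closedBall (ball_subset_closedBall hz)

theorem ker_kap2 : Ker (fun z : V => kap z * kap z) := ker_kap.mul kap_smooth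

theorem kap2_lap : ∃ M : ℝ, 1 ≤ M ∧ (∀ z i, |pd i (fun z : V => kap z) z| ≤ M) ∧
    ∀ z, |lap (fun z : V => kap z * kap z) z| ≤ M := by
  have h1 : ∀ i : Fin 3, ∃ C, ∀ z : V, ‖pd i (fun z : V => kap z) z‖ ≤ C := fun i =>
    (ker_kap.pd i).cs.exists_bound_of_continuous (ker_kap.pd i).sm.continuous
  choose C hC using h1
  have h2 : ∀ i : Fin 3, ∃ C, ∀ z : V, ‖pd i (pd i (fun z : V => kap z * kap z)) z‖ ≤ C := fun i =>
    ((ker_kap2.pd i).pd i).cs.exists_bound_of_continuous ((ker_kap2.pd i).pd i).sm.continuous
  choose D hD using h2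
  have hC0 : ∀ i, 0 ≤ C i := fun i => (norm_nonneg _).trans (hC i 0)
  have hD0 : ∀ i, 0 ≤ D i := fun i => (norm_nonneg _).trans (hD i 0)
  refine ⟨1 + ∑ i, C i + ∑ i, D i, ?_, fun z i => ?_, fun z => ?_⟩
  · linarith [Finset.sum_nonneg fun i (_ : i ∈ Finset.univ) => hC0 i,
      Finset.sum_nonneg fun i (_ : i ∈ Finset.univ) => hD0 i]
  · have h3 := hC i z
    rw [Real.norm_eq_abs] at h3
    have h4 := Finset.single_le_sum (f := C) (fun j _ => hC0 j) (Finset.mem_univ i)
    linarith [Finset.sum_nonneg fun i (_ : i ∈ Finset.univ) => hD0 i]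
  · unfold lap
    refine (Finset.abs_sum_le_sum_abs _ _).trans ?_
    have h3 : ∑ i, |pd i (pd i (fun z : V => kap z * kap z)) z| ≤ ∑ i, D i :=
      Finset.sum_le_sum fun i _ => hD i z
    linarith [Finset.sum_nonneg fun i (_ : i ∈ Finset.univ) => hC0 i]

/-! ### The terms of the vorticity equation -/

/-- The sum of the squares of the derivatives of the vorticity. -/
noncomputable def dsq (v : V → V) (z : V) : ℝ := ∑ i, ∑ j, ∑ k, pd k (om v i j) z ^ 2

/-- The stretching term, multiplied by twice the vorticity. -/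
noncomputable def str (v : V → V) (z : V) : ℝ := ∑ i, ∑ j, 2 * om v i j z *
  ∑ k, (om v i k z * pd k (fun y => v y j) z + pd k (fun y => v y i) z * om v k j z)

/-- The time derivative of the square of the vorticity in a frame with the velocity `c`. -/
noncomputable def RR (v : V → V) (c : V) (z : V) : ℝ :=
  ∑ i, ∑ j, 2 * om v i j z * (lap (om v i j) z - ∑ k, (v z k - c k) * pd k (om v i j) z
    - ∑ k, (om v i k z * pd k (fun y => v y j) z + pd k (fun y => v y i) z * om v k j z))

theorem dsq_cont {v : V → V} (hv : ContDiff ℝ ∞ v) : Continuous (dsq v) :=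
  continuous_finsetSum _ fun i _ => continuous_finsetSum _ fun j _ => continuous_finsetSum _
    fun k _ => (sm_pd (om_smooth hv i j) k).continuous.pow 2

theorem dsq_nonneg (v : V → V) (x : V) : 0 ≤ dsq v x :=
  Finset.sum_nonneg fun _ _ => Finset.sum_nonneg fun _ _ => Finset.sum_nonneg fun _ _ => sq_nonneg _

theorem str_cont {v : V → V} (hv : ContDiff ℝ ∞ v) : Continuous (str v) := by
  unfold str
  refine continuous_finsetSum _ fun i _ => continuous_finsetSum _ fun j _ => ?_
  refine (continuous_const.mul (om_smooth hv i j).continuous).mul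
    (continuous_finsetSum _ fun k _ => ?_)
  exact ((om_smooth hv i k).continuous.mul (sm_pd (sm_comp hv j) k).continuous).add
    ((sm_pd (sm_comp hv i) k).continuous.mul (om_smooth hv k j).continuous)

/-- The integrated identity. -/
theorem RR_int {v : V → V} (hv : ContDiff ℝ ∞ v) (hd : ∀ y ∈ ball (0 : V) 1, dv v y = 0) (c : V)
    {φ : V → ℝ} (hφ : Ker φ) :
    ∫ z, RR v c z * φ z = ∫ z in ball (0 : V) 1, (-2 * (dsq v z * φ z)
      + osq v z * (lap φ z + ∑ k, (v z k - c k) * pd k φ z) - str v z * φ z) := by
  let F : Fin 3 → Fin 3 → Fin 3 → V → ℝ := fun i j k z =>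
    2 * (om v i j z * pd k (om v i j) z) * φ z - om v i j z * om v i j z * pd k φ z
      - (v z k - c k) * (om v i j z * om v i j z) * φ z
  have hsv : ∀ k, ContDiff ℝ ∞ (fun z : V => v z k - c k) := fun k =>
    (sm_comp hv k).sub contDiff_const
  have hF1 : ∀ i j k, ContDiff ℝ ∞ (fun z => 2 * (om v i j z * pd k (om v i j) z)) := fun i j k =>
    contDiff_const.mul ((om_smooth hv i j).mul (sm_pd (om_smooth hv i j) k))
  have hF2 : ∀ i j, ContDiff ℝ ∞ (fun z => om v i j z * om v i j z) := fun i j =>
    (om_smooth hv i j).mul (om_smooth hv i j)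
  have hF3 : ∀ i j k, ContDiff ℝ ∞ (fun z => (v z k - c k) * (om v i j z * om v i j z)) :=
    fun i j k => (hsv k).mul (hF2 i j)
  have hZ : Z (fun z => ∑ i, ∑ j, ∑ k, pd k (F i j k) z) := by
    refine Z.sum fun i => Z.sum fun j => Z.sum fun k => ?_
    have e : pd k (F i j k) = fun z => (pd k (fun z => 2 * (om v i j z * pd k (om v i j) z) * φ z) z
        - pd k (fun z => om v i j z * om v i j z * pd k φ z) z)
        - pd k (fun z => (v z k - c k) * (om v i j z * om v i j z) * φ z) z := by
      funext z
      have d1 : Differentiable ℝ (fun z => 2 * (om v i j z * pd k (om v i j) z) * φ z) :=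
        Pool.Agent.W135.MD.sm_diff ((hF1 i j k).mul hφ.sm)
      have d2 : Differentiable ℝ (fun z => om v i j z * om v i j z * pd k φ z) :=
        Pool.Agent.W135.MD.sm_diff ((hF2 i j).mul (hφ.pd k).sm)
      have d3 : Differentiable ℝ (fun z => (v z k - c k) * (om v i j z * om v i j z) * φ z) :=
        Pool.Agent.W135.MD.sm_diff ((hF3 i j k).mul hφ.sm)
      rw [← Pool.Agent.W135.MD.pd_sub' d1 d2]
      exact Pool.Agent.W135.MD.pd_sub' (d1.sub d2) d3 k z
    rw [e]
    exact Z.sub (Z.sub (Z_pd ((hF1 i j k).mul hφ.sm) hφ.cs.mul_left k)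
      (Z_pd ((hF2 i j).mul (hφ.pd k).sm) (hφ.pd k).cs.mul_left k))
      (Z_pd ((hF3 i j k).mul hφ.sm) hφ.cs.mul_left k)
  have key : ∀ z ∈ ball (0 : V) 1, RR v c z * φ z = (∑ i, ∑ j, ∑ k, pd k (F i j k) z)
      + (-2 * (dsq v z * φ z) + osq v z * (lap φ z + ∑ k, (v z k - c k) * pd k φ z)
        - str v z * φ z) := by
    intro z hz
    have e1 : ∀ i j k, pd k (F i j k) z =
        2 * (om v i j z * pd k (pd k (om v i j)) z + pd k (om v i j) z * pd k (om v i j) z) * φ z
        - om v i j z * om v i j z * pd k (pd k φ) z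
        - ((v z k - c k) * (2 * (om v i j z * pd k (om v i j) z)) * φ z
          + pd k (fun y => v y k) z * (om v i j z * om v i j z) * φ z
          + (v z k - c k) * (om v i j z * om v i j z) * pd k φ z) := by
      intro i j k
      have d1 : Differentiable ℝ (fun z => 2 * (om v i j z * pd k (om v i j) z) * φ z) :=
        Pool.Agent.W135.MD.sm_diff ((hF1 i j k).mul hφ.sm)
      have d2 : Differentiable ℝ (fun z => om v i j z * om v i j z * pd k φ z) :=
        Pool.Agent.W135.MD.sm_diff ((hF2 i j).mul (hφ.pd k).sm)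
      have d3 : Differentiable ℝ (fun z => (v z k - c k) * (om v i j z * om v i j z) * φ z) :=
        Pool.Agent.W135.MD.sm_diff ((hF3 i j k).mul hφ.sm)
      have a0 : pd k (F i j k) z = (pd k (fun z => 2 * (om v i j z * pd k (om v i j) z) * φ z) z
          - pd k (fun z => om v i j z * om v i j z * pd k φ z) z)
          - pd k (fun z => (v z k - c k) * (om v i j z * om v i j z) * φ z) z := by
        rw [← Pool.Agent.W135.MD.pd_sub' d1 d2]
        exact Pool.Agent.W135.MD.pd_sub' (d1.sub d2) d3 k z
      have a1 : pd k (fun z => 2 * (om v i j z * pd k (om v i j) z) * φ z) z =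
          2 * (om v i j z * pd k (om v i j) z) * pd k φ z
            + pd k (fun z => 2 * (om v i j z * pd k (om v i j) z)) z * φ z :=
        pd_mul' (hF1 i j k) hφ.sm k z
      have a2 : pd k (fun z => 2 * (om v i j z * pd k (om v i j) z)) z
          = 2 * pd k (fun z => om v i j z * pd k (om v i j) z) z :=
        Pool.Agent.W135.MD.pd_cmul (Pool.Agent.W135.MD.sm_diff
          ((om_smooth hv i j).mul (sm_pd (om_smooth hv i j) k))) 2 k z
      have a3 : pd k (fun z => om v i j z * pd k (om v i j) z) z
          = om v i j z * pd k (pd k (om v i j)) z + pd k (om v i j) z * pd k (om v i j) z :=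
        pd_mul' (om_smooth hv i j) (sm_pd (om_smooth hv i j) k) k z
      have a4 : pd k (fun z => om v i j z * om v i j z * pd k φ z) z
          = om v i j z * om v i j z * pd k (pd k φ) z
            + pd k (fun z => om v i j z * om v i j z) z * pd k φ z :=
        pd_mul' (hF2 i j) (hφ.pd k).sm k z
      have a5 : pd k (fun z => om v i j z * om v i j z) z
          = om v i j z * pd k (om v i j) z + pd k (om v i j) z * om v i j z :=
        pd_mul' (om_smooth hv i j) (om_smooth hv i j) k z
      have a6 : pd k (fun z => (v z k - c k) * (om v i j z * om v i j z) * φ z) z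
          = (v z k - c k) * (om v i j z * om v i j z) * pd k φ z
            + pd k (fun z => (v z k - c k) * (om v i j z * om v i j z)) z * φ z :=
        pd_mul' (hF3 i j k) hφ.sm k z
      have a7 : pd k (fun z => (v z k - c k) * (om v i j z * om v i j z)) z
          = (v z k - c k) * pd k (fun z => om v i j z * om v i j z) z
            + pd k (fun z => v z k - c k) z * (om v i j z * om v i j z) :=
        pd_mul' (hsv k) (hF2 i j) k z
      have a8 : pd k (fun z => v z k - c k) z = pd k (fun y => v y k) z := by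
        rw [Pool.Agent.W135.MD.pd_sub' (Pool.Agent.W135.MD.sm_diff (sm_comp hv k))
          (differentiable_const _), Pool.Agent.W135.MD.pd_const', sub_zero]
      rw [a0, a1, a2, a3, a4, a5, a6, a7, a8, a5]
      ring
    have hdz := hd z hz
    unfold dv at hdz
    have e2 : ∀ i j, ∑ k, pd k (F i j k) z =
        2 * om v i j z * (lap (om v i j) z - ∑ k, (v z k - c k) * pd k (om v i j) z) * φ z
        + 2 * (∑ k, pd k (om v i j) z ^ 2) * φ z
        - om v i j z ^ 2 * (lap φ z + ∑ k, (v z k - c k) * pd k φ z) := by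
      intro i j
      simp_rw [e1]
      unfold lap
      simp only [Fin.sum_univ_three] at hdz ⊢
      linear_combination (-(om v i j z * om v i j z) * φ z) * hdz
    simp_rw [e2]
    unfold RR dsq osq str
    simp only [Finset.sum_sub_distrib, Finset.sum_add_distrib, Finset.mul_sum, Finset.sum_mul,
      mul_sub, sub_mul, mul_add, add_mul]
    simp only [Fin.sum_univ_three]
    ring
  have hRc : Continuous (fun z => RR v c z) := by
    unfold RR
    refine continuous_finsetSum _ fun i _ => continuous_finsetSum _ fun j _ => ?_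
    refine (continuous_const.mul (om_smooth hv i j).continuous).mul ((Continuous.sub ?_ ?_).sub ?_)
    · unfold lap
      exact continuous_finsetSum _ fun k _ => (sm_pd (sm_pd (om_smooth hv i j) k) k).continuous
    · exact continuous_finsetSum _ fun k _ =>
        (hsv k).continuous.mul (sm_pd (om_smooth hv i j) k).continuous
    · exact continuous_finsetSum _ fun k _ =>
        ((om_smooth hv i k).continuous.mul (sm_pd (sm_comp hv j) k).continuous).add
          ((sm_pd (sm_comp hv i) k).continuous.mul (om_smooth hv k j).continuous)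
  have h1 : ∫ z, RR v c z * φ z = ∫ z in ball (0 : V) 1, RR v c z * φ z := by
    rw [setIntegral_eq_integral_of_forall_compl_eq_zero]
    intro z hz
    rw [hφ.zero z hz, mul_zero]
  have hFs : ∀ i j k, Ker (F i j k) := fun i j k =>
    ⟨(((hF1 i j k).mul hφ.sm).sub ((hF2 i j).mul (hφ.pd k).sm)).sub ((hF3 i j k).mul hφ.sm),
      fun z hz => by simp only [F, hφ.zero z hz, (hφ.pd k).zero z hz, mul_zero, sub_zero]⟩
  have hZ2 : ∫ z in ball (0 : V) 1, ∑ i, ∑ j, ∑ k, pd k (F i j k) z = 0 := by
    rw [setIntegral_eq_integral_of_forall_compl_eq_zero fun z hz => Finset.sum_eq_zero fun i _ =>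
      Finset.sum_eq_zero fun j _ => Finset.sum_eq_zero fun k _ => ((hFs i j k).pd k).zero z hz]
    exact hZ.2
  have hc1 : Continuous (fun z => ∑ i, ∑ j, ∑ k, pd k (F i j k) z) :=
    continuous_finsetSum _ fun i _ => continuous_finsetSum _ fun j _ => continuous_finsetSum _
      fun k _ => ((hFs i j k).pd k).sm.continuous
  have hlap : Continuous (lap φ) := by
    unfold lap
    exact continuous_finsetSum _ fun k _ => ((hφ.pd k).pd k).sm.continuous
  have hc2 : Continuous (fun z => -2 * (dsq v z * φ z)
      + osq v z * (lap φ z + ∑ k, (v z k - c k) * pd k φ z) - str v z * φ z) := by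
    have h3 : Continuous (fun z => ∑ k, (v z k - c k) * pd k φ z) :=
      continuous_finsetSum _ fun k _ => (hsv k).continuous.mul (hφ.pd k).sm.continuous
    have h4 := dsq_cont hv
    have h5 := (osq_smooth hv).continuous
    have h6 := str_cont hv
    have h7 := hφ.sm.continuous
    fun_prop
  rw [h1, setIntegral_congr_fun measurableSet_ball key,
    integral_add (int_ball hc1 0 1) (int_ball hc2 0 1), hZ2, zero_add]

end Pool.Agent.H946.NS
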