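import Pool.Agent.H946_NS.Unit

/-!
Bounds for the remainder, the averaged field and the vorticity at the unit scale.
-/

set_option autoImplicit false

open MeasureTheory Set Metric Filter Topology
open scoped ContDiff

namespace Pool.Agent.H946.NS

open H459R3.NS W221.NS Pool.Agent.W583.MD

theorem chi_smooth : ContDiff ℝ ∞ (fun z : V => chi z) := chi.contDiff

theorem chi_zero {z : V} (hz : z ∉ ball (0 : V) 4) : chi z = 0 := by
  by_contra h
  have h1 : z ∈ Function.support (fun z : V => chi z) := h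
  rw [show Function.support (fun z : V => chi z) = ball (0 : V) 4 from chi.support_eq] at h1
  exact hz h1

theorem chi_bound : ∃ M : ℝ, 0 ≤ M ∧ ∀ z i, |pd i (fun z : V => chi z) z| ≤ M := by
  have hcs : HasCompactSupport (fun z : V => chi z) := chi.hasCompactSupport
  have h1 : ∀ i : Fin 3, ∃ C, ∀ z : V, ‖pd i (fun z : V => chi z) z‖ ≤ C := fun i =>
    (cs_pd hcs i).exists_bound_of_continuous (sm_pd chi_smooth i).continuous
  choose C hC using h1
  have hC0 : ∀ i, 0 ≤ C i := fun i => (norm_nonneg _).trans (hC i 0)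
  refine ⟨∑ i, C i, Finset.sum_nonneg fun i _ => hC0 i, fun z i => ?_⟩
  have h3 := hC i z
  rw [Real.norm_eq_abs] at h3
  exact h3.trans (Finset.single_le_sum (f := C) (fun j _ => hC0 j) (Finset.mem_univ i))

/-- All bounds for the remainder. -/
theorem bb_bounds : ∃ C : ℝ, 1 ≤ C ∧ ∀ v : V → V, ContDiff ℝ ∞ v →
    (∀ y ∈ ball (0 : V) 8, dv v y = 0) → ∀ N : ℝ, ∫ x in ball (0 : V) 8, osq v x ≤ N →
      (∀ k, ∫ x in ball (0 : V) 1, bb v x k ^ 2 ≤ C * N) ∧
      (∀ k, ∫ x in ball (0 : V) 1, bb v x k ^ 4 ≤ (C * N) ^ 2) ∧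
      ∫ x in ball (0 : V) 1, gsq (bb v) x ≤ C * N := by
  obtain ⟨M, hM0, hM⟩ := chi_bound
  obtain ⟨K, hK0, hK⟩ := Pool.Agent.W440.MD.scalar
  have hK1 := K1_nonneg
  have hKz := K0_nonneg
  set C1 : ℝ := 72 * K1 with hC1
  set C2 : ℝ := (2 + 16 * K0) + 12 * M ^ 2 * (3 * C1) with hC2
  have hC10 : 0 ≤ C1 := by positivity
  have hC20 : 0 ≤ C2 := by positivity
  refine ⟨1 + (K + 1) * (C1 + C2), ?_, ?_⟩
  · have : 0 ≤ (K + 1) * (C1 + C2) := by positivity
    linarith
  intro v hv hd N hN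
  have hN0 : 0 ≤ N := (integral_nonneg fun x => osq_nonneg v x).trans hN
  have hbc : ∀ k, Continuous fun x => bb v x k := fun k => (sm_comp (bb_smooth hv) k).continuous
  have hosq : ∀ s ≤ (8 : ℝ), ∫ x in ball (0 : V) s, osq v x ≤ N := fun s hs =>
    (ball_mono (osq_smooth hv).continuous (osq_nonneg v) (ball_subset_ball hs)).trans hN
  have b4 : ∀ k, ∫ x in ball (0 : V) 4, bb v x k ^ 2 ≤ C1 * N := by
    intro k
    refine (bb_L2 hv (a := 0) (r := 4) (fun y hy => hd y (ball_subset_ball (by norm_num) hy)) k).trans ?_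
    exact mul_le_mul_of_nonneg_left (hosq _ (by norm_num)) hC10
  have bsub : ∀ k, ∀ s ≤ (4 : ℝ), ∫ x in ball (0 : V) s, bb v x k ^ 2 ≤ C1 * N := fun k s hs =>
    (ball_mono ((hbc k).pow 2) (fun x => sq_nonneg _) (ball_subset_ball hs)).trans (b4 k)
  -- the gradient
  have hg : ∫ x in ball (0 : V) 2, gsq (bb v) x ≤ C2 * N := by
    have h1 := divcurl (bb_smooth hv) chi_smooth (a := 0) (s := 4) (M := M)
      (fun z hz => chi_zero hz) hM (fun z => by
        rw [abs_of_nonneg chi.nonneg]; exact chi.le_one)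
      (fun y hy => dv_bb hv fun w hw => hd w (by
        rw [mem_ball_zero_iff] at hy ⊢
        rw [mem_ball_iff_norm] at hw
        have := norm_le_norm_add_norm_sub' w y
        linarith))
    have h2 : ∫ x in ball (0 : V) 2, gsq (bb v) x ≤ ∫ z in ball (0 : V) 4, chi z ^ 2 * gsq (bb v) z := by
      have hc : Continuous fun z : V => chi z ^ 2 * gsq (bb v) z :=
        (chi_smooth.continuous.pow 2).mul (gsq_smooth (bb_smooth hv)).continuous
      have h3 : ∫ x in ball (0 : V) 2, gsq (bb v) x = ∫ x in ball (0 : V) 2, chi x ^ 2 * gsq (bb v) x := by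
        refine setIntegral_congr_fun measurableSet_ball fun z hz => ?_
        have : chi z = 1 := chi.one_of_mem_closedBall (ball_subset_closedBall hz)
        simp only [this]
        ring
      rw [h3]
      exact ball_mono hc (fun x => mul_nonneg (sq_nonneg _) (gsq_nonneg _ _))
        (ball_subset_ball (by norm_num))
    have h4 : ∫ z in ball (0 : V) 4, nsq (bb v) z ≤ 3 * C1 * N := by
      have hi4 : ∀ i, IntegrableOn (fun x => bb v x i ^ 2) (ball (0 : V) 4) := fun i =>
        int_ball ((hbc i).pow 2) 0 4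
      unfold nsq
      rw [integral_finsetSum _ fun i _ => hi4 i]
      calc ∑ i, ∫ z in ball (0 : V) 4, bb v z i ^ 2 ≤ ∑ _i : Fin 3, C1 * N :=
            Finset.sum_le_sum fun i _ => b4 i
        _ = _ := by simp; ring
    have h5 : ∫ z in ball (0 : V) 4, osq (bb v) z ≤ (2 + 16 * K0) * N :=
      (osq_bb hv 0 4).trans (mul_le_mul_of_nonneg_left (hosq _ (by norm_num)) (by positivity))
    calc ∫ x in ball (0 : V) 2, gsq (bb v) x ≤ _ := h2.trans h1
      _ ≤ (2 + 16 * K0) * N + 12 * M ^ 2 * (3 * C1 * N) := by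
          apply add_le_add h5
          exact mul_le_mul_of_nonneg_left h4 (by positivity)
      _ = C2 * N := by rw [hC2]; ring
  have hC1N : 0 ≤ C1 * N := by positivity
  have hC2N : 0 ≤ C2 * N := by positivity
  refine ⟨fun k => ?_, fun k => ?_, ?_⟩
  · refine (bsub k 1 (by norm_num)).trans (mul_le_mul_of_nonneg_right ?_ hN0)
    have h15 : (K + 1) * (C1 + C2) = K * (C1 + C2) + (C1 + C2) := by ring
    have h16 := mul_nonneg hK0 (add_nonneg hC10 hC20)
    linarith
  · -- the sixth powers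
    have h1 := hK (fun x => bb v x k) (sm_comp (bb_smooth hv) k) 0 1 one_pos
    have h2 : ∫ x in ball (0 : V) (2 * 1), ((∑ j, pd j (fun x => bb v x k) x ^ 2)
        + ((1 : ℝ) ^ 2)⁻¹ * bb v x k ^ 2) ≤ (C1 + C2) * N := by
      have hc1 : Continuous fun x => ∑ j, pd j (fun x => bb v x k) x ^ 2 :=
        continuous_finsetSum _ fun j _ => (sm_pd (sm_comp (bb_smooth hv) k) j).continuous.pow 2
      have hc2 : Continuous fun x => ((1 : ℝ) ^ 2)⁻¹ * bb v x k ^ 2 :=
        continuous_const.mul ((hbc k).pow 2)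
      rw [integral_add (int_ball hc1 _ _) (int_ball hc2 _ _)]
      have h3 : ∫ x in ball (0 : V) (2 * 1), ∑ j, pd j (fun x => bb v x k) x ^ 2 ≤ C2 * N := by
        refine le_trans ?_ hg
        rw [mul_one]
        refine setIntegral_mono (int_ball hc1 0 2) (int_ball (gsq_smooth (bb_smooth hv)).continuous 0 2)
          fun x => ?_
        exact Finset.single_le_sum (f := fun i => ∑ j, pd j (fun y => bb v y i) x ^ 2)
          (fun _ _ => Finset.sum_nonneg fun _ _ => sq_nonneg _) (Finset.mem_univ k)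
      have h4 : ∫ x in ball (0 : V) (2 * 1), ((1 : ℝ) ^ 2)⁻¹ * bb v x k ^ 2 ≤ C1 * N := by
        simp only [one_pow, inv_one, one_mul, mul_one]
        exact bsub k 2 (by norm_num)
      have h5 : (C1 + C2) * N = C2 * N + C1 * N := by ring
      rw [h5]
      exact add_le_add h3 h4
    have h2' : 0 ≤ ∫ x in ball (0 : V) (2 * 1), ((∑ j, pd j (fun x => bb v x k) x ^ 2)
        + ((1 : ℝ) ^ 2)⁻¹ * bb v x k ^ 2) := integral_nonneg fun x => by positivity
    have h6 : ∫ x in ball (0 : V) 1, bb v x k ^ 6 ≤ K * ((C1 + C2) * N) ^ 3 :=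
      h1.trans (mul_le_mul_of_nonneg_left (pow_le_pow_left₀ h2' h2 3) hK0)
    have h7 := W162.MD.cs_ball (hbc k) ((hbc k).pow 3) 0 1
    have e1 : ∀ x, bb v x k * bb v x k ^ 3 = bb v x k ^ 4 := fun x => by ring
    have e2 : ∀ x, (bb v x k ^ 3) ^ 2 = bb v x k ^ 6 := fun x => by ring
    simp only [Pi.pow_apply, e1, e2] at h7
    have h8 : 0 ≤ ∫ x in ball (0 : V) 1, bb v x k ^ 4 := integral_nonneg fun x => by positivity
    rw [abs_of_nonneg h8] at h7
    have h9 : 0 ≤ ∫ x in ball (0 : V) 1, bb v x k ^ 2 := integral_nonneg fun x => by positivity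
    have h10 : 0 ≤ ∫ x in ball (0 : V) 1, bb v x k ^ 6 := integral_nonneg fun x => by positivity
    have h11 : (∫ x in ball (0 : V) 1, bb v x k ^ 4) ^ 2
        ≤ (((K + 1) * (C1 + C2) * N) ^ 2) ^ 2 := by
      calc (∫ x in ball (0 : V) 1, bb v x k ^ 4) ^ 2
          ≤ (√(∫ x in ball (0 : V) 1, bb v x k ^ 2) * √(∫ x in ball (0 : V) 1, bb v x k ^ 6)) ^ 2 :=
            pow_le_pow_left₀ h8 h7 2
        _ = (∫ x in ball (0 : V) 1, bb v x k ^ 2) * ∫ x in ball (0 : V) 1, bb v x k ^ 6 := by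
            rw [mul_pow, Real.sq_sqrt h9, Real.sq_sqrt h10]
        _ ≤ ((C1 + C2) * N) * (K * ((C1 + C2) * N) ^ 3) := by
            refine mul_le_mul ?_ h6 h10 (by positivity)
            have := bsub k 1 (by norm_num)
            linarith
        _ = K * ((C1 + C2) * N) ^ 4 := by ring
        _ ≤ (K + 1) ^ 4 * ((C1 + C2) * N) ^ 4 := by
            apply mul_le_mul_of_nonneg_right _ (by positivity)
            have h17 : K + 1 ≤ (K + 1) ^ 4 := le_self_pow₀ (by linarith) (by norm_num)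
            linarith
        _ = _ := by ring
    have h12 := abs_le_of_sq_le_sq h11 (by positivity)
    have h13 := (abs_le.1 h12).2
    refine h13.trans (pow_le_pow_left₀ (by positivity) ?_ 2)
    have h14 : (1 + (K + 1) * (C1 + C2)) * N = N + (K + 1) * (C1 + C2) * N := by ring
    rw [h14]
    linarith
  · have h1 : ∫ x in ball (0 : V) 1, gsq (bb v) x ≤ ∫ x in ball (0 : V) 2, gsq (bb v) x :=
      ball_mono (gsq_smooth (bb_smooth hv)).continuous (gsq_nonneg _) (ball_subset_ball (by norm_num))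
    refine (h1.trans hg).trans (mul_le_mul_of_nonneg_right ?_ hN0)
    have h15 : (K + 1) * (C1 + C2) = K * (C1 + C2) + (C1 + C2) := by ring
    have h16 := mul_nonneg hK0 (add_nonneg hC10 hC20)
    linarith

/-! ### The averaged field -/

theorem th_nonneg (z : V) : 0 ≤ th z := bmp.nonneg_normed z

theorem th_zero {z : V} (hz : z ∉ ball (0 : V) 1) : th z = 0 := by
  by_contra h
  have h1 : z ∈ Function.support (bmp.normed (volume : Measure V)) := h
  rw [ContDiffBump.support_normed_eq] at h1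
  exact hz h1

theorem ker_th : Ker th := ⟨W496.MD.th_smooth, fun _ hz => th_zero hz⟩

theorem th_int : ∫ z, th z = 1 := bmp.integral_normed

/-- The constant of the bump function. -/
noncomputable def Kt : ℝ := ∫ z in ball (0 : V) 1, th z ^ 2

theorem Kt_nonneg : 0 ≤ Kt := integral_nonneg fun _ => sq_nonneg _

/-- The deviation of the averaged field from the velocity of the frame. -/
theorem avg_dev {v : V → V} (hv : ContDiff ℝ ∞ v) {S B : ℝ} (hS0 : 0 ≤ S)
    (hS : ∀ x ∈ ball (0 : V) 1, ∀ k j, |kv et 1 (pd k (fun y => v y j)) x| ≤ S)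
    (hB : ∀ k, ∫ x in ball (0 : V) 1, bb v x k ^ 2 ≤ B) {z : V} (hz : z ∈ ball (0 : V) 1)
    (k : Fin 3) : |kv et 1 (fun y => v y k) z - ∫ w, th w * v w k| ≤ 6 * S + √(Kt * B) := by
  set a : V → ℝ := kv et 1 (fun y => v y k) with ha
  have has : ContDiff ℝ ∞ a := kv_smooth_x ker_et (sm_comp hv k) 1
  have hlip : ∀ w ∈ ball (0 : V) 1, |a z - a w| ≤ 6 * S := by
    intro w hw
    have h1 : ∀ x ∈ ball (0 : V) 1, ‖fderiv ℝ a x‖ ≤ 3 * S := by
      intro x hx
      refine (Pool.Agent.W440.MD.fderiv_norm_le x).trans ?_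
      calc ∑ j, |pd j a x| ≤ ∑ _j : Fin 3, S := by
            refine Finset.sum_le_sum fun j _ => ?_
            rw [ha, pd_kv ker_et (sm_comp hv k)]
            exact hS x hx j k
        _ = 3 * S := by simp
    have h2 := (convex_ball (0 : V) 1).norm_image_sub_le_of_norm_fderiv_le (𝕜 := ℝ) (f := a)
      (fun x _ => (has.differentiable (by simp)) x) h1 hw hz
    rw [Real.norm_eq_abs] at h2
    refine h2.trans ?_
    have h3 : ‖z - w‖ ≤ 2 := by
      rw [mem_ball_zero_iff] at hz hw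
      linarith [norm_sub_le z w]
    nlinarith
  have e1 : (∫ w, th w * v w k) = (∫ w, th w * a w) + ∫ w, th w * bb v w k := by
    rw [← integral_add]
    · congr 1
      funext w
      simp only [bb, ha]
      ring
    · exact int_cs (ker_th.sm.continuous.mul has.continuous) ker_th.cs.mul_right
    · exact int_cs (ker_th.sm.continuous.mul (sm_comp (bb_smooth hv) k).continuous)
        ker_th.cs.mul_right
  have e2 : |a z - ∫ w, th w * a w| ≤ 6 * S := by
    have h1 : a z - ∫ w, th w * a w = ∫ w, th w * (a z - a w) := by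
      have e : ∀ w, th w * (a z - a w) = th w * a z - th w * a w := fun w => by ring
      simp_rw [e]
      rw [integral_sub, integral_mul_const, th_int, one_mul]
      · exact (int_cs ker_th.sm.continuous ker_th.cs).mul_const _
      · exact int_cs (ker_th.sm.continuous.mul has.continuous) ker_th.cs.mul_right
    rw [h1]
    calc |∫ w, th w * (a z - a w)| ≤ ∫ w, |th w * (a z - a w)| := abs_integral_le_integral_abs
      _ ≤ ∫ w, th w * (6 * S) := by
          refine integral_mono_of_nonneg (Eventually.of_forall fun w => abs_nonneg _)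
            ((int_cs ker_th.sm.continuous ker_th.cs).mul_const _) (Eventually.of_forall fun w => ?_)
          change |th w * (a z - a w)| ≤ th w * (6 * S)
          by_cases hw : w ∈ ball (0 : V) 1
          · rw [abs_mul, abs_of_nonneg (th_nonneg w)]
            exact mul_le_mul_of_nonneg_left (hlip w hw) (th_nonneg w)
          · rw [th_zero hw]
            simp
      _ = 6 * S := by rw [integral_mul_const, th_int, one_mul]
  have e3 : |∫ w, th w * bb v w k| ≤ √(Kt * B) := by
    have h1 : ∫ w, th w * bb v w k = ∫ w in ball (0 : V) 1, th w * bb v w k := by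
      rw [setIntegral_eq_integral_of_forall_compl_eq_zero]
      intro w hw
      rw [th_zero hw, zero_mul]
    rw [h1]
    refine (W162.MD.cs_ball ker_th.sm.continuous (sm_comp (bb_smooth hv) k).continuous 0 1).trans ?_
    rw [← Real.sqrt_mul (integral_nonneg fun _ => sq_nonneg _)]
    exact Real.sqrt_le_sqrt (mul_le_mul_of_nonneg_left (hB k) Kt_nonneg)
  rw [e1]
  calc |a z - ((∫ w, th w * a w) + ∫ w, th w * bb v w k)|
      = |(a z - ∫ w, th w * a w) - ∫ w, th w * bb v w k| := by congr 1; ring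
    _ ≤ |a z - ∫ w, th w * a w| + |∫ w, th w * bb v w k| := abs_sub _ _
    _ ≤ _ := add_le_add e2 e3

/-! ### The vorticity -/

theorem amgm4 {P X Y : ℝ} (hX : 0 ≤ X) (hY : 0 ≤ Y) (h : P ^ 4 ≤ X ^ 3 * Y) : P ≤ X + Y := by
  have h1 : X ^ 3 * Y ≤ (X + Y) ^ 4 := by
    have : X ^ 3 * Y ≤ (X + Y) ^ 3 * (X + Y) :=
      mul_le_mul (pow_le_pow_left₀ hX (by linarith) 3) (by linarith) hY (by positivity)
    calc _ ≤ _ := this
      _ = _ := by ring
  by_contra hcon
  push Not at hcon
  have h2 : (X + Y) ^ 4 < P ^ 4 := pow_lt_pow_left₀ hcon (by positivity) (by norm_num)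
  linarith

/-- The fourth power of the localised vorticity. -/
theorem om_four : ∃ C : ℝ, 1 ≤ C ∧ ∀ v : V → V, ContDiff ℝ ∞ v → ∀ N : ℝ,
    ∫ x in ball (0 : V) 1, osq v x ≤ N →
      (∫ x in ball (0 : V) 1, (kap x ^ 2 * osq v x) ^ 2) ^ 2
        ≤ C * N * ((∫ x in ball (0 : V) 1, kap x ^ 2 * dsq v x) + N) ^ 3 := by
  obtain ⟨M, hM1, hM, -⟩ := kap2_lap
  obtain ⟨K, hK0, hK⟩ := Pool.Agent.W440.MD.scalar
  refine ⟨1 + 6561 * K * (3 + 6 * M ^ 2) ^ 3, ?_, ?_⟩
  · have : 0 ≤ 6561 * K * (3 + 6 * M ^ 2) ^ 3 := by positivity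
    linarith
  intro v hv N hN
  have hN0 : 0 ≤ N := (integral_nonneg fun x => osq_nonneg v x).trans hN
  set D := ∫ x in ball (0 : V) 1, kap x ^ 2 * dsq v x with hD
  have hD0 : 0 ≤ D := integral_nonneg fun x => mul_nonneg (sq_nonneg _) (dsq_nonneg v x)
  let f : Fin 3 → Fin 3 → V → ℝ := fun i j z => kap z * om v i j z
  have hf : ∀ i j, ContDiff ℝ ∞ (f i j) := fun i j => kap_smooth.mul (om_smooth hv i j)
  have hkc : Continuous fun z : V => kap z := kap_smooth.continuous
  have f2 : ∀ i j, ∫ x in ball (0 : V) 1, f i j x ^ 2 ≤ N := by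
    intro i j
    refine (setIntegral_mono (int_ball ((hf i j).continuous.pow 2) 0 1)
      (int_ball (osq_smooth hv).continuous 0 1) fun x => ?_).trans hN
    change (kap x * om v i j x) ^ 2 ≤ osq v x
    have h1 : kap x ^ 2 ≤ 1 := pow_le_one₀ (kap_nonneg x) (kap_le_one x)
    calc (kap x * om v i j x) ^ 2 = kap x ^ 2 * om v i j x ^ 2 := by ring
      _ ≤ 1 * om v i j x ^ 2 := by gcongr
      _ ≤ osq v x := by rw [one_mul]; exact om_sq_le v i j x
  have hkz : ∀ i, ∀ z ∉ ball (0 : V) 1, pd i (fun z : V => kap z) z = 0 := fun i =>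
    (ker_kap.pd i).zero
  have fd : ∀ i j, ∫ x in ball (0 : V) (2 * 1), ((∑ k, pd k (f i j) x ^ 2)
      + ((1 : ℝ) ^ 2)⁻¹ * f i j x ^ 2) ≤ 2 * D + (1 + 6 * M ^ 2) * N := by
    intro i j
    have hc1 : Continuous fun x => (∑ k, pd k (f i j) x ^ 2) + ((1 : ℝ) ^ 2)⁻¹ * f i j x ^ 2 :=
      (continuous_finsetSum _ fun k _ => (sm_pd (hf i j) k).continuous.pow 2).add
        (continuous_const.mul ((hf i j).continuous.pow 2))
    have hpd : ∀ k z, pd k (f i j) z = kap z * pd k (om v i j) z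
        + pd k (fun z : V => kap z) z * om v i j z := fun k z =>
      pd_mul' kap_smooth (om_smooth hv i j) k z
    have h1 : ∫ x in ball (0 : V) (2 * 1), ((∑ k, pd k (f i j) x ^ 2)
        + ((1 : ℝ) ^ 2)⁻¹ * f i j x ^ 2) = ∫ x in ball (0 : V) 1, ((∑ k, pd k (f i j) x ^ 2)
        + ((1 : ℝ) ^ 2)⁻¹ * f i j x ^ 2) := by
      refine setIntegral_eq_of_subset_of_forall_sdiff_eq_zero measurableSet_ball
        (ball_subset_ball (by norm_num)) fun z hz => ?_
      have e0 : f i j z = 0 := by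
        change kap z * om v i j z = 0
        rw [kap_zero hz.2, zero_mul]
      have e1 : ∀ k, pd k (f i j) z = 0 := fun k => by
        rw [hpd, kap_zero hz.2, hkz k z hz.2]
        ring
      simp [e0, e1]
    rw [h1]
    have hc2 : Continuous fun x : V => 2 * (kap x ^ 2 * dsq v x) :=
      continuous_const.mul ((hkc.pow 2).mul (dsq_cont hv))
    have hc3 : Continuous fun x : V => (1 + 6 * M ^ 2) * osq v x :=
      continuous_const.mul (osq_smooth hv).continuous
    have h2 : ∫ x in ball (0 : V) 1, ((∑ k, pd k (f i j) x ^ 2) + ((1 : ℝ) ^ 2)⁻¹ * f i j x ^ 2)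
        ≤ ∫ x in ball (0 : V) 1, (2 * (kap x ^ 2 * dsq v x) + (1 + 6 * M ^ 2) * osq v x) := by
      refine setIntegral_mono (int_ball hc1 0 1) (int_ball (hc2.add hc3) 0 1) fun z => ?_
      change (∑ k, pd k (f i j) z ^ 2) + ((1 : ℝ) ^ 2)⁻¹ * f i j z ^ 2 ≤ _
      have h3 : ∀ k, pd k (f i j) z ^ 2 ≤ 2 * (kap z ^ 2 * pd k (om v i j) z ^ 2)
          + 2 * M ^ 2 * om v i j z ^ 2 := by
        intro k
        rw [hpd]
        have h4 : pd k (fun z : V => kap z) z ^ 2 ≤ M ^ 2 := by
          rw [← sq_abs]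
          exact pow_le_pow_left₀ (abs_nonneg _) (hM z k) 2
        nlinarith [sq_nonneg (kap z * pd k (om v i j) z - pd k (fun z : V => kap z) z * om v i j z),
          mul_le_mul_of_nonneg_right h4 (sq_nonneg (om v i j z))]
      have h5 : ∑ k, pd k (om v i j) z ^ 2 ≤ dsq v z :=
        (Finset.single_le_sum (f := fun j => ∑ k, pd k (om v i j) z ^ 2)
          (fun _ _ => Finset.sum_nonneg fun _ _ => sq_nonneg _) (Finset.mem_univ j)).trans
          (Finset.single_le_sum (f := fun i => ∑ j, ∑ k, pd k (om v i j) z ^ 2)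
            (fun _ _ => Finset.sum_nonneg fun _ _ => Finset.sum_nonneg fun _ _ => sq_nonneg _)
            (Finset.mem_univ i))
      have h6 : f i j z ^ 2 ≤ om v i j z ^ 2 := by
        have h7 : kap z ^ 2 ≤ 1 := pow_le_one₀ (kap_nonneg z) (kap_le_one z)
        change (kap z * om v i j z) ^ 2 ≤ _
        nlinarith [mul_le_mul_of_nonneg_right h7 (sq_nonneg (om v i j z))]
      have h8 := om_sq_le v i j z
      have h9 : ∑ k, pd k (f i j) z ^ 2 ≤ 2 * (kap z ^ 2 * ∑ k, pd k (om v i j) z ^ 2)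
          + 6 * M ^ 2 * om v i j z ^ 2 := by
        have := Finset.sum_le_sum fun k (_ : k ∈ Finset.univ) => h3 k
        refine this.trans (le_of_eq ?_)
        simp only [Fin.sum_univ_three]
        ring
      have h10 : kap z ^ 2 * ∑ k, pd k (om v i j) z ^ 2 ≤ kap z ^ 2 * dsq v z :=
        mul_le_mul_of_nonneg_left h5 (sq_nonneg _)
      have h11 : (1 + 6 * M ^ 2) * om v i j z ^ 2 ≤ (1 + 6 * M ^ 2) * osq v z :=
        mul_le_mul_of_nonneg_left h8 (by positivity)
      simp only [one_pow, inv_one, one_mul]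
      linarith
    refine h2.trans ?_
    rw [integral_add (int_ball hc2 0 1) (int_ball hc3 0 1), integral_const_mul, integral_const_mul]
    have : (1 + 6 * M ^ 2) * ∫ x in ball (0 : V) 1, osq v x ≤ (1 + 6 * M ^ 2) * N :=
      mul_le_mul_of_nonneg_left hN (by positivity)
    linarith
  have f4 : ∀ i j, (∫ x in ball (0 : V) 1, f i j x ^ 4) ^ 2
      ≤ N * (K * (2 * D + (1 + 6 * M ^ 2) * N) ^ 3) := by
    intro i j
    have hc := (hf i j).continuous
    have h1 := hK (f i j) (hf i j) 0 1 one_pos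
    have h2 : 0 ≤ ∫ x in ball (0 : V) (2 * 1), ((∑ k, pd k (f i j) x ^ 2)
      + ((1 : ℝ) ^ 2)⁻¹ * f i j x ^ 2) := integral_nonneg fun x => by positivity
    have h6 : ∫ x in ball (0 : V) 1, f i j x ^ 6 ≤ K * (2 * D + (1 + 6 * M ^ 2) * N) ^ 3 :=
      h1.trans (mul_le_mul_of_nonneg_left (pow_le_pow_left₀ h2 (fd i j) 3) hK0)
    have h7 := W162.MD.cs_ball hc (hc.pow 3) 0 1
    have e1 : ∀ x, f i j x * f i j x ^ 3 = f i j x ^ 4 := fun x => by ring
    have e2 : ∀ x, (f i j x ^ 3) ^ 2 = f i j x ^ 6 := fun x => by ring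
    simp only [Pi.pow_apply, e1, e2] at h7
    have h8 : 0 ≤ ∫ x in ball (0 : V) 1, f i j x ^ 4 := integral_nonneg fun x => by positivity
    rw [abs_of_nonneg h8] at h7
    have h9 : 0 ≤ ∫ x in ball (0 : V) 1, f i j x ^ 2 := integral_nonneg fun x => by positivity
    have h10 : 0 ≤ ∫ x in ball (0 : V) 1, f i j x ^ 6 := integral_nonneg fun x => by positivity
    calc (∫ x in ball (0 : V) 1, f i j x ^ 4) ^ 2
        ≤ (√(∫ x in ball (0 : V) 1, f i j x ^ 2) * √(∫ x in ball (0 : V) 1, f i j x ^ 6)) ^ 2 :=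
          pow_le_pow_left₀ h8 h7 2
      _ = (∫ x in ball (0 : V) 1, f i j x ^ 2) * ∫ x in ball (0 : V) 1, f i j x ^ 6 := by
          rw [mul_pow, Real.sq_sqrt h9, Real.sq_sqrt h10]
      _ ≤ _ := mul_le_mul (f2 i j) h6 h10 hN0
  set Q := N * (K * (2 * D + (1 + 6 * M ^ 2) * N) ^ 3) with hQ
  have hQ0 : 0 ≤ Q := by positivity
  have f4' : ∀ i j, ∫ x in ball (0 : V) 1, f i j x ^ 4 ≤ √Q := fun i j =>
    Real.le_sqrt_of_sq_le (f4 i j)
  have hc4 : ∀ i j, Continuous fun x => f i j x ^ 4 := fun i j => (hf i j).continuous.pow 4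
  have h1 : ∫ x in ball (0 : V) 1, (kap x ^ 2 * osq v x) ^ 2 ≤ 81 * √Q := by
    have h2 : ∀ x, (kap x ^ 2 * osq v x) ^ 2 ≤ 9 * ∑ i, ∑ j, f i j x ^ 4 := by
      intro x
      have e : kap x ^ 2 * osq v x = ∑ i, ∑ j, f i j x ^ 2 := by
        unfold osq
        rw [Finset.mul_sum]
        refine Finset.sum_congr rfl fun i _ => ?_
        rw [Finset.mul_sum]
        refine Finset.sum_congr rfl fun j _ => ?_
        change _ = (kap x * om v i j x) ^ 2
        ring
      rw [e]
      have h3 : ∀ g : Fin 3 → ℝ, (∑ i, g i) ^ 2 ≤ 3 * ∑ i, g i ^ 2 := by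
        intro g
        have := sq_sum_le_card_mul_sum_sq (s := (Finset.univ : Finset (Fin 3))) (f := g)
        simpa using this
      calc (∑ i, ∑ j, f i j x ^ 2) ^ 2 ≤ 3 * ∑ i, (∑ j, f i j x ^ 2) ^ 2 := h3 _
        _ ≤ 3 * ∑ i, 3 * ∑ j, (f i j x ^ 2) ^ 2 := by
            gcongr with i _
            exact h3 _
        _ = 9 * ∑ i, ∑ j, f i j x ^ 4 := by
            rw [← Finset.mul_sum]
            have : ∀ i j, (f i j x ^ 2) ^ 2 = f i j x ^ 4 := fun i j => by ring
            simp_rw [this]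
            ring
    have hc5 : Continuous fun x : V => (kap x ^ 2 * osq v x) ^ 2 :=
      ((hkc.pow 2).mul (osq_smooth hv).continuous).pow 2
    have hc6 : Continuous fun x => 9 * ∑ i, ∑ j, f i j x ^ 4 :=
      continuous_const.mul (continuous_finsetSum _ fun i _ => continuous_finsetSum _ fun j _ => hc4 i j)
    calc ∫ x in ball (0 : V) 1, (kap x ^ 2 * osq v x) ^ 2
        ≤ ∫ x in ball (0 : V) 1, 9 * ∑ i, ∑ j, f i j x ^ 4 :=
          setIntegral_mono (int_ball hc5 0 1) (int_ball hc6 0 1) h2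
      _ = 9 * ∑ i, ∑ j, ∫ x in ball (0 : V) 1, f i j x ^ 4 := by
          rw [integral_const_mul, integral_finsetSum _ fun i _ => integrable_finsetSum _ fun j _ =>
            int_ball (hc4 i j) 0 1]
          congr 1
          refine Finset.sum_congr rfl fun i _ => ?_
          rw [integral_finsetSum _ fun j _ => int_ball (hc4 i j) 0 1]
      _ ≤ 9 * ∑ _i : Fin 3, ∑ _j : Fin 3, √Q := by
          gcongr with i _ j _
          exact f4' i j
      _ = 81 * √Q := by
          simp
          ring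
  have h2 : 0 ≤ ∫ x in ball (0 : V) 1, (kap x ^ 2 * osq v x) ^ 2 :=
    integral_nonneg fun x => sq_nonneg _
  calc (∫ x in ball (0 : V) 1, (kap x ^ 2 * osq v x) ^ 2) ^ 2 ≤ (81 * √Q) ^ 2 :=
        pow_le_pow_left₀ h2 h1 2
    _ = 6561 * Q := by
        rw [mul_pow, Real.sq_sqrt hQ0]
        norm_num
    _ ≤ 6561 * (N * (K * ((3 + 6 * M ^ 2) * (D + N)) ^ 3)) := by
        rw [hQ]
        have : 2 * D + (1 + 6 * M ^ 2) * N ≤ (3 + 6 * M ^ 2) * (D + N) := by
          nlinarith [mul_nonneg (sq_nonneg M) hD0]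
        gcongr
    _ = 6561 * K * (3 + 6 * M ^ 2) ^ 3 * (N * (D + N) ^ 3) := by ring
    _ ≤ (1 + 6561 * K * (3 + 6 * M ^ 2) ^ 3) * (N * (D + N) ^ 3) := by
        apply mul_le_mul_of_nonneg_right (by linarith) (by positivity)
    _ = _ := by ring

end Pool.Agent.H946.NS
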