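import Pool.Agent.H946_NS.Unit2

/-!
The local enstrophy inequality at the unit scale at one time.
-/

set_option autoImplicit false

open MeasureTheory Set Metric Filter Topology
open scoped ContDiff

namespace Pool.Agent.H946.NS

open H459R3.NS W221.NS Pool.Agent.W583.MD

theorem two_le {x y A G : ℝ} (hA : |A| ≤ G) : -(2 * (x * y) * A) ≤ G * (x ^ 2 + y ^ 2) := by
  have hG : 0 ≤ G := (abs_nonneg A).trans hA
  have h1 : -(2 * (x * y) * A) ≤ 2 * |x| * |y| * |A| := by
    have := neg_abs_le (2 * (x * y) * A)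
    rw [abs_mul, abs_mul, abs_mul, abs_two] at this
    linarith [this]
  have h2 : 2 * |x| * |y| ≤ x ^ 2 + y ^ 2 := by
    rw [← sq_abs x, ← sq_abs y]
    nlinarith [sq_nonneg (|x| - |y|)]
  have h3 : 0 ≤ 2 * |x| * |y| := by positivity
  calc -(2 * (x * y) * A) ≤ 2 * |x| * |y| * |A| := h1
    _ ≤ 2 * |x| * |y| * G := by gcongr
    _ ≤ (x ^ 2 + y ^ 2) * G := by gcongr
    _ = _ := by ring

theorem str_le (v : V → V) (z : V) {G : ℝ} (hG : ∀ k j, |pd k (fun y => v y j) z| ≤ G) :
    -str v z ≤ 12 * G * osq v z := by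
  have h1 : ∀ i j k, -(2 * om v i j z * (om v i k z * pd k (fun y => v y j) z
      + pd k (fun y => v y i) z * om v k j z))
      ≤ G * (om v i j z ^ 2 + om v i k z ^ 2) + G * (om v i j z ^ 2 + om v k j z ^ 2) := by
    intro i j k
    have e1 := two_le (x := om v i j z) (y := om v i k z) (hG k j)
    have e2 := two_le (x := om v i j z) (y := om v k j z) (hG k i)
    linarith
  have h2 : -str v z = ∑ i, ∑ j, ∑ k, -(2 * om v i j z * (om v i k z * pd k (fun y => v y j) z
      + pd k (fun y => v y i) z * om v k j z)) := by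
    unfold str
    simp only [Fin.sum_univ_three]
    ring
  rw [h2]
  calc _ ≤ ∑ i, ∑ j, ∑ k, (G * (om v i j z ^ 2 + om v i k z ^ 2)
        + G * (om v i j z ^ 2 + om v k j z ^ 2)) :=
        Finset.sum_le_sum fun i _ => Finset.sum_le_sum fun j _ => Finset.sum_le_sum fun k _ => h1 i j k
    _ = 12 * G * osq v z := by
        unfold osq
        simp only [Fin.sum_univ_three]
        ring

theorem pd_le_gsq (w : V → V) (k j : Fin 3) (z : V) : |pd k (fun y => w y j) z| ≤ √(gsq w z) := by
  apply Real.abs_le_sqrt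
  unfold gsq
  exact (Finset.single_le_sum (f := fun k => pd k (fun y => w y j) z ^ 2)
    (fun _ _ => sq_nonneg _) (Finset.mem_univ k)).trans
    (Finset.single_le_sum (f := fun j => ∑ k, pd k (fun y => w y j) z ^ 2)
      (fun _ _ => Finset.sum_nonneg fun _ _ => sq_nonneg _) (Finset.mem_univ j))

/-- The numerical part. -/
theorem closure_num {M Cb C4 Kt N S D P : ℝ} (hM : 1 ≤ M) (hCb : 1 ≤ Cb) (hC4 : 1 ≤ C4)
    (hKt : 0 ≤ Kt) (hN : 0 ≤ N) (hS : 0 ≤ S) (hD : 0 ≤ D) (hP : 0 ≤ P)
    (hP4 : P ^ 4 ≤ C4 * N * (D + N) ^ 3) :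
    -2 * D + M * N + 6 * M * (√(P * (Cb * N)) * √N) + 6 * M * ((6 * S + √(Kt * (Cb * N))) * N)
      + 12 * (S * N) + 12 * (P * √(Cb * N))
      ≤ (5 + 43 * M + 81 * M ^ 4 * C4 + 3 * M * Cb + 3 * M * Kt * Cb + 20736 * C4 * Cb ^ 2 + 12)
        * (N + S * N + N ^ 3) := by
  have hN3 : 0 ≤ N ^ 3 := by positivity
  have hSN : 0 ≤ S * N := by positivity
  have hN2 : N ^ 2 ≤ N + N ^ 3 := by
    nlinarith [mul_nonneg hN (sq_nonneg (N - 1))]
  have hCbN : 0 ≤ Cb * N := by positivity
  have h1 : √(P * (Cb * N)) * √N ≤ (P + Cb * N ^ 2) / 2 := by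
    rw [← Real.sqrt_mul (by positivity)]
    apply Real.sqrt_le_iff.2
    constructor
    · positivity
    · nlinarith [sq_nonneg (P - Cb * N ^ 2)]
  have h2 : P ≤ 1 / (3 * M) * (D + N) + 27 * M ^ 3 * C4 * N := by
    apply amgm4 (by positivity) (by positivity)
    calc P ^ 4 ≤ C4 * N * (D + N) ^ 3 := hP4
      _ = _ := by
        field_simp
        ring
  have h3 : P * √(Cb * N) ≤ 1 / 12 * (D + N) + 1728 * C4 * Cb ^ 2 * N ^ 3 := by
    apply amgm4 (by positivity) (by positivity)
    have e : (P * √(Cb * N)) ^ 4 = P ^ 4 * (Cb * N) ^ 2 := by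
      rw [mul_pow]
      congr 1
      calc √(Cb * N) ^ 4 = (√(Cb * N) ^ 2) ^ 2 := by ring
        _ = _ := by rw [Real.sq_sqrt hCbN]
    rw [e]
    calc P ^ 4 * (Cb * N) ^ 2 ≤ C4 * N * (D + N) ^ 3 * (Cb * N) ^ 2 := by gcongr
      _ = _ := by ring
  have h4 : √(Kt * (Cb * N)) ≤ (1 + Kt * (Cb * N)) / 2 := by
    apply Real.sqrt_le_iff.2
    constructor
    · positivity
    · nlinarith [sq_nonneg (1 - Kt * (Cb * N))]
  have h5 : 6 * M * (√(P * (Cb * N)) * √N) ≤ (D + N) + 81 * M ^ 4 * C4 * N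
      + 3 * M * Cb * N ^ 2 := by
    calc 6 * M * (√(P * (Cb * N)) * √N) ≤ 6 * M * ((P + Cb * N ^ 2) / 2) := by gcongr
      _ = 3 * M * P + 3 * M * Cb * N ^ 2 := by ring
      _ ≤ 3 * M * (1 / (3 * M) * (D + N) + 27 * M ^ 3 * C4 * N) + 3 * M * Cb * N ^ 2 := by gcongr
      _ = _ := by
        field_simp
        ring
  have h6 : 6 * M * ((6 * S + √(Kt * (Cb * N))) * N) ≤ 36 * M * (S * N) + 3 * M * N
      + 3 * M * Kt * Cb * N ^ 2 := by
    calc 6 * M * ((6 * S + √(Kt * (Cb * N))) * N)
        ≤ 6 * M * ((6 * S + (1 + Kt * (Cb * N)) / 2) * N) := by gcongr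
      _ = _ := by ring
  have h7 : 3 * M * Cb * N ^ 2 ≤ 3 * M * Cb * (N + N ^ 3) := by gcongr
  have h8 : 3 * M * Kt * Cb * N ^ 2 ≤ 3 * M * Kt * Cb * (N + N ^ 3) := by gcongr
  have h9 : 0 ≤ M * (S * N) := by positivity
  have h10 : 0 ≤ M * N ^ 3 := by positivity
  have h11 : 0 ≤ M ^ 4 * C4 * (S * N) := by positivity
  have h12 : 0 ≤ M ^ 4 * C4 * N ^ 3 := by positivity
  have h13 : 0 ≤ M * Cb * (S * N) := by positivity
  have h14 : 0 ≤ M * Kt * Cb * (S * N) := by positivity
  have h15 : 0 ≤ C4 * Cb ^ 2 * N := by positivity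
  have h16 : 0 ≤ C4 * Cb ^ 2 * (S * N) := by positivity
  have h17 : 0 ≤ M * N := by positivity
  linarith

/-- The local enstrophy inequality at the unit scale. -/
theorem unit_ineq : ∃ C : ℝ, 1 ≤ C ∧ ∀ v : V → V, ContDiff ℝ ∞ v →
    (∀ y ∈ ball (0 : V) 8, dv v y = 0) → ∀ N S : ℝ, ∫ x in ball (0 : V) 8, osq v x ≤ N → 0 ≤ S →
      (∀ x ∈ ball (0 : V) 1, ∀ k j, |kv et 1 (pd k (fun y => v y j)) x| ≤ S) →
      ∀ c : V, (∀ k, c k = ∫ w, th w * v w k) →
        ∫ z, RR v c z * (kap z * kap z) ≤ C * (N + S * N + N ^ 3) := by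
  obtain ⟨M, hM1, hM, hMl⟩ := kap2_lap
  obtain ⟨Cb, hCb, hbb⟩ := bb_bounds
  obtain ⟨C4, hC4, hom4⟩ := om_four
  have hKt := Kt_nonneg
  refine ⟨5 + 43 * M + 81 * M ^ 4 * C4 + 3 * M * Cb + 3 * M * Kt * Cb + 20736 * C4 * Cb ^ 2 + 12,
    ?_, ?_⟩
  · have : 0 ≤ 43 * M + 81 * M ^ 4 * C4 + 3 * M * Cb + 3 * M * Kt * Cb + 20736 * C4 * Cb ^ 2 := by
      positivity
    linarith
  intro v hv hd N S hN hS0 hS c hc
  have hN0 : 0 ≤ N := (integral_nonneg fun x => osq_nonneg v x).trans hN
  obtain ⟨hb2, hb4, hbg⟩ := hbb v hv hd N hN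
  have hN1 : ∫ x in ball (0 : V) 1, osq v x ≤ N :=
    (ball_mono (osq_smooth hv).continuous (osq_nonneg v) (ball_subset_ball (by norm_num))).trans hN
  have hP4 := hom4 v hv N hN1
  set D := ∫ x in ball (0 : V) 1, kap x ^ 2 * dsq v x with hD
  have hD0 : 0 ≤ D := integral_nonneg fun x => mul_nonneg (sq_nonneg _) (dsq_nonneg v x)
  set Q := ∫ x in ball (0 : V) 1, (kap x ^ 2 * osq v x) ^ 2 with hQ
  have hQ0 : 0 ≤ Q := integral_nonneg fun x => sq_nonneg _
  have hkc : Continuous fun z : V => kap z := kap_smooth.continuous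
  have hoc := (osq_smooth hv).continuous
  have hbc : ∀ k, Continuous fun x => bb v x k := fun k => (sm_comp (bb_smooth hv) k).continuous
  have hgc := (gsq_smooth (bb_smooth hv)).continuous
  set A := 6 * S + √(Kt * (Cb * N)) with hA
  have hA0 : 0 ≤ A := by positivity
  -- the pointwise bound
  have key : ∀ z ∈ ball (0 : V) 1, -2 * (dsq v z * (kap z * kap z))
      + osq v z * (lap (fun z : V => kap z * kap z) z
        + ∑ k, (v z k - c k) * pd k (fun z : V => kap z * kap z) z)
      - str v z * (kap z * kap z)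
      ≤ (-2 * (kap z ^ 2 * dsq v z) + (M + 6 * M * A + 12 * S) * osq v z
        + 2 * M * ∑ k, kap z * osq v z * |bb v z k|)
        + 12 * (kap z ^ 2 * osq v z * √(gsq (bb v) z)) := by
    intro z hz
    have ho := osq_nonneg v z
    have hk0 := kap_nonneg z
    have hk1 := kap_le_one z
    have e1 : ∀ k, |pd k (fun z : V => kap z * kap z) z| ≤ 2 * M * kap z := by
      intro k
      have e : pd k (fun z : V => kap z * kap z) z
          = kap z * pd k (fun z : V => kap z) z + pd k (fun z : V => kap z) z * kap z :=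
        pd_mul' kap_smooth kap_smooth k z
      rw [e, show kap z * pd k (fun z : V => kap z) z + pd k (fun z : V => kap z) z * kap z
        = 2 * kap z * pd k (fun z : V => kap z) z by ring, abs_mul, abs_of_nonneg (by positivity)]
      calc 2 * kap z * |pd k (fun z : V => kap z) z| ≤ 2 * kap z * M := by
            gcongr
            exact hM z k
        _ = _ := by ring
    have e2 : ∀ k, |v z k - c k| ≤ |bb v z k| + A := by
      intro k
      have h1 := avg_dev hv hS0 hS hb2 hz k
      have h2 : v z k - c k = bb v z k + (kv et 1 (fun y => v y k) z - ∫ w, th w * v w k) := by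
        rw [hc k]
        unfold bb
        ring
      rw [h2]
      exact (abs_add_le _ _).trans (by linarith)
    have e3 : ∑ k, (v z k - c k) * pd k (fun z : V => kap z * kap z) z
        ≤ 2 * M * (∑ k, kap z * |bb v z k|) + 6 * M * A := by
      have h1 : ∀ k, (v z k - c k) * pd k (fun z : V => kap z * kap z) z
          ≤ 2 * M * (kap z * |bb v z k|) + 2 * M * A := by
        intro k
        calc (v z k - c k) * pd k (fun z : V => kap z * kap z) z
            ≤ |v z k - c k| * |pd k (fun z : V => kap z * kap z) z| := by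
              rw [← abs_mul]
              exact le_abs_self _
          _ ≤ (|bb v z k| + A) * (2 * M * kap z) :=
              mul_le_mul (e2 k) (e1 k) (abs_nonneg _) (by positivity)
          _ = 2 * M * (kap z * |bb v z k|) + 2 * M * A * kap z := by ring
          _ ≤ 2 * M * (kap z * |bb v z k|) + 2 * M * A * 1 := by gcongr
          _ = _ := by ring
      calc _ ≤ ∑ k, (2 * M * (kap z * |bb v z k|) + 2 * M * A) := Finset.sum_le_sum fun k _ => h1 k
        _ = _ := by
          simp only [Fin.sum_univ_three]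
          ring
    have e4 : -str v z ≤ 12 * (S + √(gsq (bb v) z)) * osq v z := by
      apply str_le
      intro k j
      have h1 := pd_bb hv k j z
      have h2 : pd k (fun y => v y j) z = kv et 1 (pd k (fun y => v y j)) z
          + pd k (fun y => bb v y j) z := by
        rw [h1]
        ring
      rw [h2]
      refine (abs_add_le _ _).trans (add_le_add (hS z hz k j) (pd_le_gsq (bb v) k j z))
    have e5 : osq v z * (lap (fun z : V => kap z * kap z) z
        + ∑ k, (v z k - c k) * pd k (fun z : V => kap z * kap z) z)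
        ≤ osq v z * (M + (2 * M * (∑ k, kap z * |bb v z k|) + 6 * M * A)) := by
      apply mul_le_mul_of_nonneg_left _ ho
      exact add_le_add ((le_abs_self _).trans (hMl z)) e3
    have e6 : -str v z * (kap z * kap z)
        ≤ 12 * (S + √(gsq (bb v) z)) * osq v z * (kap z * kap z) :=
      mul_le_mul_of_nonneg_right e4 (by positivity)
    have e7 : 12 * S * osq v z * (kap z * kap z) ≤ 12 * S * osq v z * 1 := by
      apply mul_le_mul_of_nonneg_left _ (by positivity)
      nlinarith
    have e8 : osq v z * (M + (2 * M * (∑ k, kap z * |bb v z k|) + 6 * M * A))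
        = (M + 6 * M * A) * osq v z + 2 * M * ∑ k, kap z * osq v z * |bb v z k| := by
      simp only [Fin.sum_univ_three]
      ring
    have e9 : 12 * (S + √(gsq (bb v) z)) * osq v z * (kap z * kap z)
        = 12 * S * osq v z * (kap z * kap z) + 12 * (kap z ^ 2 * osq v z * √(gsq (bb v) z)) := by
      ring
    have e10 : -2 * (dsq v z * (kap z * kap z)) = -2 * (kap z ^ 2 * dsq v z) := by ring
    rw [e10]
    linarith
  -- integration
  have c1 : Continuous fun z : V => kap z ^ 2 * dsq v z := (hkc.pow 2).mul (dsq_cont hv)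
  have c2 : ∀ k, Continuous fun z : V => kap z * osq v z * |bb v z k| := fun k =>
    (hkc.mul hoc).mul (hbc k).abs
  have c3 : Continuous fun z : V => kap z ^ 2 * osq v z * √(gsq (bb v) z) :=
    ((hkc.pow 2).mul hoc).mul hgc.sqrt
  have c4 : Continuous fun z : V => ∑ k, kap z * osq v z * |bb v z k| :=
    continuous_finsetSum _ fun k _ => c2 k
  have j1 : IntegrableOn (fun z : V => -2 * (kap z ^ 2 * dsq v z)) (ball 0 1) :=
    int_ball (continuous_const.mul c1) 0 1
  have j2 : IntegrableOn (fun z : V => (M + 6 * M * A + 12 * S) * osq v z) (ball 0 1) :=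
    int_ball (continuous_const.mul hoc) 0 1
  have j3 : IntegrableOn (fun z : V => 2 * M * ∑ k, kap z * osq v z * |bb v z k|) (ball 0 1) :=
    int_ball (continuous_const.mul c4) 0 1
  have j4 : IntegrableOn (fun z : V => 12 * (kap z ^ 2 * osq v z * √(gsq (bb v) z))) (ball 0 1) :=
    int_ball (continuous_const.mul c3) 0 1
  have hlapc : Continuous (lap (fun z : V => kap z * kap z)) := by
    unfold lap
    exact continuous_finsetSum _ fun k _ => ((ker_kap2.pd k).pd k).sm.continuous
  have c5 : Continuous fun z : V => -2 * (dsq v z * (kap z * kap z))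
      + osq v z * (lap (fun z : V => kap z * kap z) z
        + ∑ k, (v z k - c k) * pd k (fun z : V => kap z * kap z) z)
      - str v z * (kap z * kap z) := by
    have h3 : Continuous (fun z => ∑ k, (v z k - c k) * pd k (fun z : V => kap z * kap z) z) :=
      continuous_finsetSum _ fun k _ => ((sm_comp hv k).continuous.sub continuous_const).mul
        (ker_kap2.pd k).sm.continuous
    exact ((continuous_const.mul ((dsq_cont hv).mul (hkc.mul hkc))).add (hoc.mul (hlapc.add h3))).sub
      ((str_cont hv).mul (hkc.mul hkc))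
  rw [RR_int hv (fun y hy => hd y (ball_subset_ball (by norm_num) hy)) c ker_kap2]
  have I2 : ∀ k, ∫ z in ball (0 : V) 1, kap z * osq v z * |bb v z k| ≤ √(√Q * (Cb * N)) * √N := by
    intro k
    have h1 := W162.MD.cs_ball (f := fun z => kap z * √(osq v z) * |bb v z k|)
      (g := fun z => √(osq v z)) ((hkc.mul hoc.sqrt).mul (hbc k).abs) hoc.sqrt 0 1
    have e1 : ∀ z : V, kap z * √(osq v z) * |bb v z k| * √(osq v z) = kap z * osq v z * |bb v z k| := by
      intro z
      have := Real.mul_self_sqrt (osq_nonneg v z)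
      calc kap z * √(osq v z) * |bb v z k| * √(osq v z)
          = kap z * (√(osq v z) * √(osq v z)) * |bb v z k| := by ring
        _ = _ := by rw [this]
    have e2 : ∀ z : V, √(osq v z) ^ 2 = osq v z := fun z => Real.sq_sqrt (osq_nonneg v z)
    have e3 : ∀ z : V, (kap z * √(osq v z) * |bb v z k|) ^ 2 = kap z ^ 2 * osq v z * bb v z k ^ 2 := by
      intro z
      rw [mul_pow, mul_pow, e2, sq_abs]
    simp_rw [e1, e2, e3] at h1
    refine (le_abs_self _).trans (h1.trans ?_)
    refine mul_le_mul (Real.sqrt_le_sqrt ?_) (Real.sqrt_le_sqrt hN1) (Real.sqrt_nonneg _)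
      (Real.sqrt_nonneg _)
    have h2 := W162.MD.cs_ball (f := fun z => kap z ^ 2 * osq v z) (g := fun z => bb v z k ^ 2)
      ((hkc.pow 2).mul hoc) ((hbc k).pow 2) 0 1
    have e4 : ∀ z : V, (bb v z k ^ 2) ^ 2 = bb v z k ^ 4 := fun z => by ring
    simp_rw [e4] at h2
    refine (le_abs_self _).trans (h2.trans ?_)
    refine mul_le_mul le_rfl ?_ (Real.sqrt_nonneg _) (Real.sqrt_nonneg _)
    calc √(∫ z in ball (0 : V) 1, bb v z k ^ 4) ≤ √((Cb * N) ^ 2) := Real.sqrt_le_sqrt (hb4 k)
      _ = Cb * N := Real.sqrt_sq (by positivity)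
  have I3 : ∫ z in ball (0 : V) 1, kap z ^ 2 * osq v z * √(gsq (bb v) z) ≤ √Q * √(Cb * N) := by
    have h1 := W162.MD.cs_ball (f := fun z => kap z ^ 2 * osq v z)
      (g := fun z => √(gsq (bb v) z)) ((hkc.pow 2).mul hoc) hgc.sqrt 0 1
    have e2 : ∀ z : V, √(gsq (bb v) z) ^ 2 = gsq (bb v) z := fun z => Real.sq_sqrt (gsq_nonneg _ z)
    simp_rw [e2] at h1
    refine (le_abs_self _).trans (h1.trans ?_)
    exact mul_le_mul le_rfl (Real.sqrt_le_sqrt hbg) (Real.sqrt_nonneg _) (Real.sqrt_nonneg _)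
  have total : ∫ z in ball (0 : V) 1, (-2 * (dsq v z * (kap z * kap z))
      + osq v z * (lap (fun z : V => kap z * kap z) z
        + ∑ k, (v z k - c k) * pd k (fun z : V => kap z * kap z) z)
      - str v z * (kap z * kap z))
      ≤ -2 * D + (M + 6 * M * A + 12 * S) * N + 2 * M * (3 * (√(√Q * (Cb * N)) * √N))
        + 12 * (√Q * √(Cb * N)) := by
    have h1 : ∫ z in ball (0 : V) 1, ((-2 * (kap z ^ 2 * dsq v z) + (M + 6 * M * A + 12 * S) * osq v z
        + 2 * M * ∑ k, kap z * osq v z * |bb v z k|)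
        + 12 * (kap z ^ 2 * osq v z * √(gsq (bb v) z)))
        = -2 * D + (M + 6 * M * A + 12 * S) * (∫ z in ball (0 : V) 1, osq v z)
          + 2 * M * (∑ k, ∫ z in ball (0 : V) 1, kap z * osq v z * |bb v z k|)
          + 12 * ∫ z in ball (0 : V) 1, kap z ^ 2 * osq v z * √(gsq (bb v) z) := by
      have j12 : IntegrableOn (fun z : V => -2 * (kap z ^ 2 * dsq v z)
          + (M + 6 * M * A + 12 * S) * osq v z) (ball 0 1) := j1.add j2
      have j123 : IntegrableOn (fun z : V => -2 * (kap z ^ 2 * dsq v z)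
          + (M + 6 * M * A + 12 * S) * osq v z
          + 2 * M * ∑ k, kap z * osq v z * |bb v z k|) (ball 0 1) := j12.add j3
      rw [integral_add j123 j4, integral_add j12 j3, integral_add j1 j2, integral_const_mul,
        integral_const_mul, integral_const_mul, integral_const_mul,
        integral_finsetSum _ fun k _ => int_ball (c2 k) 0 1]
    refine (setIntegral_mono_on (int_ball c5 0 1) (((j1.add j2).add j3).add j4) measurableSet_ball
      key).trans ?_
    change ∫ z in ball (0 : V) 1, ((-2 * (kap z ^ 2 * dsq v z) + (M + 6 * M * A + 12 * S) * osq v z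
        + 2 * M * ∑ k, kap z * osq v z * |bb v z k|)
        + 12 * (kap z ^ 2 * osq v z * √(gsq (bb v) z))) ≤ _
    rw [h1]
    have h2 : ∑ k, ∫ z in ball (0 : V) 1, kap z * osq v z * |bb v z k|
        ≤ 3 * (√(√Q * (Cb * N)) * √N) := by
      calc _ ≤ ∑ _k : Fin 3, √(√Q * (Cb * N)) * √N := Finset.sum_le_sum fun k _ => I2 k
        _ = _ := by simp
    have h3 : (M + 6 * M * A + 12 * S) * (∫ z in ball (0 : V) 1, osq v z)
        ≤ (M + 6 * M * A + 12 * S) * N := mul_le_mul_of_nonneg_left hN1 (by positivity)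
    have h4 : 2 * M * (∑ k, ∫ z in ball (0 : V) 1, kap z * osq v z * |bb v z k|)
        ≤ 2 * M * (3 * (√(√Q * (Cb * N)) * √N)) := mul_le_mul_of_nonneg_left h2 (by positivity)
    linarith
  refine total.trans ?_
  have hnum := closure_num (M := M) (Cb := Cb) (C4 := C4) (Kt := Kt) (N := N) (S := S) (D := D)
    (P := √Q) hM1 hCb hC4 hKt hN0 hS0 hD0 (Real.sqrt_nonneg _) (by
      calc √Q ^ 4 = (√Q ^ 2) ^ 2 := by ring
        _ = Q ^ 2 := by rw [Real.sq_sqrt hQ0]
        _ ≤ _ := hP4)
  refine le_trans (le_of_eq ?_) hnum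
  rw [hA]
  ring

end Pool.Agent.H946.NS
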