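import Pool.Agent.H946_NS.MaxH

/-!
Periodic solutions: the mollified gradient, estimated by local enstrophies and by the energy.
-/

set_option autoImplicit false

open MeasureTheory Set Metric Filter Topology
open scoped ContDiff ENNReal

namespace Pool.Agent.H946.NS

open H459R3.NS W221.NS Pool.Agent.W583.MD

/-- The energy of the oscillation. -/
noncomputable def eng (c : V) (v : V → V) : ℝ := ∑ i, ∫ x in cube, (v x i - c i) ^ 2

theorem eng_nonneg (c : V) (v : V → V) : 0 ≤ eng c v :=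
  Finset.sum_nonneg fun _ _ => integral_nonneg fun _ => sq_nonneg _

noncomputable def K7 : ℝ := ∑ k, ∫ z in ball (0 : V) 1, pd k et z ^ 2

theorem K7_nonneg : 0 ≤ K7 := Finset.sum_nonneg fun _ _ => integral_nonneg fun _ => sq_nonneg _

theorem K7_le (k : Fin 3) : ∫ z in ball (0 : V) 1, pd k et z ^ 2 ≤ K7 :=
  Finset.single_le_sum (f := fun k => ∫ z in ball (0 : V) 1, pd k et z ^ 2)
    (fun _ _ => integral_nonneg fun _ => sq_nonneg _) (Finset.mem_univ k)

/-- The mollified gradient, with the energy. -/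
theorem top_E {v : V → V} (hv : SPV v) (c : V) {ρ : ℝ} (hρ : 0 < ρ) (hρ1 : ρ ≤ 1) (y : V)
    (k j : Fin 3) :
    |kv et ρ (pd k (fun y => v y j)) y| ≤ √(216 * K7) * √(eng c v / ρ ^ 5) := by
  set A := eng c v with hA
  have hA0 : 0 ≤ A := eng_nonneg c v
  obtain ⟨y', hy', hyy⟩ := W398.MD.FLOWX.per_cube
    (per_kv (per_pd (per_comp hv.2 j) k) et ρ) y
  rw [hyy]
  set f : V → ℝ := fun y => v y j - c j with hf
  have hfs : ContDiff ℝ ∞ f := (sm_comp hv.1 j).sub contDiff_const
  have hpf : pd k (fun y => v y j) = pd k f := by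
    funext x
    unfold pd
    rw [hf, fderiv_sub_const]
  have h1 := kv_ibp ker_et hfs ρ k y'
  have h2 := kv_sq (ker_et.pd k) (f := f) hfs.continuous ρ y'
  have h3 : ∫ z in ball (0 : V) 1, f (y' + ρ • z) ^ 2 ≤ (ρ ^ 3)⁻¹ * (216 * A) := by
    have h4 := cov' (fun x => f x ^ 2) y' (r := ρ) (ρ := 1) hρ
    rw [h4]
    refine mul_le_mul_of_nonneg_left ?_ (by positivity)
    rw [mul_one]
    have h5 : ∫ x in ball y' ρ, f x ^ 2 ≤ ∫ x in ball (0 : V) 3, f x ^ 2 := by
      refine ball_mono (hfs.continuous.pow 2) (fun x => sq_nonneg _) ?_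
      refine ball_subset_ball' ?_
      have h6 : dist y' 0 ≤ 1 := by
        rw [dist_zero_right, pi_norm_le_iff_of_nonneg zero_le_one]
        intro i
        rw [Real.norm_eq_abs, abs_le]
        exact ⟨by linarith [hy'.1 i, show (0 : V) i = 0 from rfl], hy'.2 i⟩
      linarith
    have h7 : Per (fun x => f x ^ 2) := fun i x => by
      simp only [hf]
      rw [hv.2 i]
    have h8 : ∫ x in ball (0 : V) 3, f x ^ 2 ≤ 216 * ∫ x in cube, f x ^ 2 :=
      ball3_le (hfs.continuous.pow 2) h7 (fun x => sq_nonneg _)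
    have h9 : ∫ x in cube, f x ^ 2 ≤ A :=
      Finset.single_le_sum (f := fun i => ∫ x in cube, (v x i - c i) ^ 2)
        (fun _ _ => integral_nonneg fun _ => sq_nonneg _) (Finset.mem_univ j)
    linarith
  have h4 : kv et ρ (pd k f) y' ^ 2 = (ρ ^ 2)⁻¹ * kv (pd k et) ρ f y' ^ 2 := by
    rw [h1]
    field_simp
  have h13 : kv et ρ (pd k f) y' ^ 2 ≤ (216 * K7) * (A / ρ ^ 5) := by
    rw [h4]
    calc (ρ ^ 2)⁻¹ * kv (pd k et) ρ f y' ^ 2
        ≤ (ρ ^ 2)⁻¹ * (K7 * ((ρ ^ 3)⁻¹ * (216 * A))) := by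
          refine mul_le_mul_of_nonneg_left ?_ (by positivity)
          exact h2.trans (mul_le_mul (K7_le k) h3 (integral_nonneg fun _ => sq_nonneg _) K7_nonneg)
      _ = _ := by
          field_simp
  rw [hpf]
  refine (Real.abs_le_sqrt h13).trans (le_of_eq ?_)
  rw [Real.sqrt_mul (mul_nonneg (by norm_num) K7_nonneg)]

/-- The mollified gradient at a small scale, with the energy. -/
theorem strain_E : ∃ C : ℝ, 1 ≤ C ∧ ∀ v : V → V, SPV v →
    (∀ x, ∑ i, pd i (fun y => v y i) x = 0) → ∀ (c : V) (r M A : ℝ), 0 < r → r ≤ 1 → 0 < M →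
      (∀ w, en r v w ≤ M) → eng c v ≤ A → ∀ (y : V) (k j : Fin 3),
        |kv et r (pd k (fun y => v y j)) y|
          ≤ C * (√(M / r ^ 3) * (1 + Real.log (1 + A / (M * r ^ 2)))) := by
  have hk0 := Real.sqrt_nonneg (2100 * K0)
  have hk1 := Real.sqrt_nonneg (216 * K7)
  have hk2 := Real.sqrt_nonneg K2
  refine ⟨√(2100 * K0) + √(216 * K7) + 12 * √K2 + 1, by linarith, ?_⟩
  intro v hv hd c r M A hr hr1 hM hen hA y k j
  have hsq := Real.sqrt_nonneg (M / r ^ 3)
  have hA0 : 0 ≤ A := (eng_nonneg c v).trans hA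
  set X := A / (M * r ^ 2) with hX
  have hX0 : 0 ≤ X := by positivity
  have hq1 : 1 ≤ 1 + X := by linarith
  have hlog : 0 ≤ Real.log (1 + X) := Real.log_nonneg hq1
  have hballs : ∀ w, ∫ y in ball w (3 / 4 * r), osq v y ≤ M := fun w =>
    (le_en hr hv.1 w).trans (hen w)
  -- the largest scale
  obtain ⟨ρ, hρr, hρ1, hρlog, htop⟩ : ∃ ρ : ℝ, r ≤ ρ ∧ ρ ≤ 1 ∧
      Real.log (ρ / r) ≤ Real.log (1 + X) ∧ |kv et ρ (pd k (fun y => v y j)) y|
        ≤ (√(2100 * K0) + √(216 * K7)) * √(M / r ^ 3) := by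
    rcases le_total 1 (r ^ 5 * (1 + X)) with h | h
    · refine ⟨1, hr1, le_rfl, ?_, ?_⟩
      · apply Real.log_le_log (by positivity)
        rw [div_le_iff₀ hr]
        have h1 : r ^ 5 ≤ r := by
          calc r ^ 5 = r * r ^ 4 := by ring
            _ ≤ r * 1 := by
                gcongr
                exact pow_le_one₀ hr.le hr1
            _ = r := mul_one r
        have h2 : r ^ 5 * (1 + X) ≤ r * (1 + X) :=
          mul_le_mul_of_nonneg_right h1 (by linarith)
        linarith
      · refine (per_top hv hd hr hr1 hballs y k j).trans ?_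
        exact mul_le_mul_of_nonneg_right (by linarith) hsq
    · set ρ := r * (1 + X) ^ (1 / 5 : ℝ) with hρ
      have hp1 : 1 ≤ (1 + X) ^ (1 / 5 : ℝ) := Real.one_le_rpow hq1 (by norm_num)
      have hp3 : ((1 + X) ^ (1 / 5 : ℝ)) ^ 5 = 1 + X := by
        rw [← Real.rpow_natCast, ← Real.rpow_mul (by linarith)]
        norm_num
      have hρ3 : ρ ^ 5 = r ^ 5 * (1 + X) := by
        rw [hρ, mul_pow, hp3]
      have hρ0 : 0 < ρ := by positivity
      have hρle : ρ ≤ 1 := by
        have h1 : ρ ^ 5 ≤ 1 ^ 5 := by rw [hρ3, one_pow]; exact h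
        exact (pow_le_pow_iff_left₀ hρ0.le zero_le_one (by norm_num)).1 h1
      refine ⟨ρ, ?_, hρle, ?_, ?_⟩
      · rw [hρ]
        exact le_mul_of_one_le_right hr.le hp1
      · have h1 : ρ / r = (1 + X) ^ (1 / 5 : ℝ) := by
          rw [hρ]
          field_simp
        rw [h1, Real.log_rpow (by linarith)]
        linarith
      · refine (top_E hv c hρ0 hρle y k j).trans ?_
        have h1 : √(eng c v / ρ ^ 5) ≤ √(M / r ^ 3) := by
          apply Real.sqrt_le_sqrt
          rw [hρ3, div_le_div_iff₀ (by positivity) (by positivity)]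
          have h2 : eng c v * r ^ 3 ≤ A * r ^ 3 :=
            mul_le_mul_of_nonneg_right hA (by positivity)
          have h3 : M * (r ^ 5 * (1 + X)) = r ^ 5 * M + A * r ^ 3 := by
            rw [hX]
            field_simp
          rw [h3]
          have : 0 ≤ r ^ 5 * M := by positivity
          linarith
        calc √(216 * K7) * √(eng c v / ρ ^ 5) ≤ √(216 * K7) * √(M / r ^ 3) :=
              mul_le_mul_of_nonneg_left h1 hk1
          _ ≤ _ := mul_le_mul_of_nonneg_right (by linarith) hsq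
  have h1 := grad_log hv.1 (x := y) (r := r) (d := ρ) (M := M) hr hρr
    (fun z _ => hd z) (fun w _ => hballs w) k j
  have h2 : 12 * √K2 * √(M / r ^ 3) * Real.log (ρ / r)
      ≤ 12 * √K2 * √(M / r ^ 3) * Real.log (1 + X) :=
    mul_le_mul_of_nonneg_left hρlog (by positivity)
  have p1 : 0 ≤ √(M / r ^ 3) * Real.log (1 + X) := by positivity
  have p2 : 0 ≤ (√(2100 * K0) + √(216 * K7)) * (√(M / r ^ 3) * Real.log (1 + X)) := by
    positivity
  have p3 : 0 ≤ √K2 * √(M / r ^ 3) := by positivity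
  have e : (√(2100 * K0) + √(216 * K7) + 12 * √K2 + 1)
      * (√(M / r ^ 3) * (1 + Real.log (1 + X)))
      = (√(2100 * K0) + √(216 * K7)) * √(M / r ^ 3)
        + 12 * √K2 * √(M / r ^ 3) * Real.log (1 + X)
        + (√(2100 * K0) + √(216 * K7)) * (√(M / r ^ 3) * Real.log (1 + X))
        + 12 * (√K2 * √(M / r ^ 3)) + √(M / r ^ 3)
        + √(M / r ^ 3) * Real.log (1 + X) := by ring
  rw [e]
  linarith

theorem mean_hasDerivAt {ν T : ℝ} {u : ℝ → V → V} {p : ℝ → V → ℝ} (h : IsSol ν T u p) {t : ℝ}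
    (ht : t ∈ Ioo 0 T) (i : Fin 3) : HasDerivAt (fun s => ∫ x in cube, u s x i) 0 t := by
  have hI : t ∈ Ico 0 T := ⟨ht.1.le, ht.2⟩
  set v : Fin 3 → V → ℝ := fun i y => u t y i with hv
  have hsp : ∀ i, SP (v i) := fun i => h.sp hI i
  have hdiv : ∀ x, ∑ i, pd i (v i) x = 0 := h.divfree t hI
  have key := hasDerivAt_int (F := fun s x => u s x i)
    (mono_Ioo (f := fun s y => u s y i) (h.smooth_c i) (by norm_cast)) ht
  refine key.congr_deriv ?_
  have e : ∀ x, deriv (fun s => u s x i) t = ν * lap (v i) x - conv v i x - pd i (p t) x := by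
    intro x
    exact IsSol.dt_eq h ht i x
  simp_rw [e]
  have i1 : IntegrableOn (fun x => ν * lap (v i) x) cube := (hsp i).lap.int.const_mul ν
  have i2 : IntegrableOn (fun x => conv v i x) cube := (sp_conv hsp i).int
  have i3 : IntegrableOn (fun x => pd i (p t) x) cube := ((h.sp_p hI).pd i).int
  have i12 : IntegrableOn (fun x => ν * lap (v i) x - conv v i x) cube := i1.sub i2
  rw [integral_sub i12 i3, integral_sub i1 i2, integral_const_mul]
  have z1 : ∫ x in cube, lap (v i) x = 0 := by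
    unfold lap
    rw [integral_finsetSum _ fun j _ => (((hsp i).pd j).pd j).int]
    refine Finset.sum_eq_zero fun j _ => ?_
    exact integral_pd (((hsp i).pd j).smooth.of_le (by norm_cast)) ((hsp i).pd j).per j
  have z2 : ∫ x in cube, conv v i x = 0 := by
    unfold conv
    rw [integral_finsetSum _ fun j _ => ((hsp j).mul ((hsp i).pd j)).int]
    exact int_press hsp hdiv (hsp i)
  have z3 : ∫ x in cube, pd i (p t) x = 0 :=
    integral_pd ((h.sp_p hI).smooth.of_le (by norm_cast)) (h.sp_p hI).per i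
  rw [z1, z2, z3]
  ring

theorem eng_eq {v : V → V} (hv : ∀ i, SP (fun y => v y i)) (c : V) :
    eng c v = energy v - 2 * ∑ i, c i * (∫ x in cube, v x i) + ∑ i, c i ^ 2 := by
  unfold eng energy
  rw [Finset.mul_sum, ← Finset.sum_sub_distrib, ← Finset.sum_add_distrib]
  refine Finset.sum_congr rfl fun i _ => ?_
  have e : ∀ x, (v x i - c i) ^ 2 = (v x i ^ 2 - (2 * c i) * v x i) + c i ^ 2 := by
    intro x
    ring
  simp_rw [e]
  have i1 : IntegrableOn (fun x => v x i ^ 2) cube := integrableOn_cube ((hv i).cont.pow 2)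
  have i2 : IntegrableOn (fun x => (2 * c i) * v x i) cube := (hv i).int.const_mul _
  have := cube_finite
  have i3 : Integrable (fun _ : V => c i ^ 2) (volume.restrict cube) := integrable_const _
  have i12 : IntegrableOn (fun x => v x i ^ 2 - (2 * c i) * v x i) cube := i1.sub i2
  rw [integral_add i12 i3, integral_sub i1 i2, integral_const_mul]
  have hvol : volume.real cube = 1 := by
    rw [measureReal_def]
    unfold cube
    rw [Real.volume_Icc_pi]
    simp
  rw [setIntegral_const, hvol, one_smul]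
  ring

theorem eng_le {ν T : ℝ} {u : ℝ → V → V} {p : ℝ → V → ℝ} (h : IsSol ν T u p) (hν : 0 < ν)
    {s t : ℝ} (hs : 0 ≤ s) (hst : s ≤ t) (ht : t < T) (c : V) : eng c (u t) ≤ eng c (u s) := by
  have hsT : s ∈ Ico 0 T := ⟨hs, hst.trans_lt ht⟩
  have htT : t ∈ Ico 0 T := ⟨hs.trans hst, ht⟩
  rw [eng_eq (fun i => h.sp htT i), eng_eq (fun i => h.sp hsT i)]
  have hsub : Icc s t ⊆ Ico 0 T := fun τ hτ => ⟨hs.trans hτ.1, hτ.2.trans_lt ht⟩
  have hen : energy (u t) ≤ energy (u s) := by
    have hc : ContinuousOn (fun s => enstrophy (u s)) (Icc s t) :=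
      h.enstrophy_continuousOn.mono hsub
    have hE : ContinuousOn (fun s => energy (u s)) (Icc s t) :=
      h.energy_continuousOn.mono hsub
    have h1 := intervalIntegral.integral_eq_sub_of_hasDerivAt_of_le hst hE
      (fun τ hτ => h.energy_hasDerivAt ⟨hs.trans_lt hτ.1, hτ.2.trans ht⟩)
      ((hc.const_smul (2 * ν)).neg.intervalIntegrable_of_Icc hst)
    rw [intervalIntegral.integral_neg, intervalIntegral.integral_const_mul] at h1
    have h2 : 0 ≤ ∫ τ in s..t, enstrophy (u τ) :=
      intervalIntegral.integral_nonneg hst fun τ _ => H459R3.NS.enstrophy_nonneg _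
    have h3 : 0 ≤ 2 * ν * ∫ τ in s..t, enstrophy (u τ) := by positivity
    linarith
  have hmean : ∀ i, ∫ x in cube, u t x i = ∫ x in cube, u s x i := by
    intro i
    have hc : ContinuousOn (fun τ => ∫ x in cube, u τ x i) (Icc s t) :=
      (continuousOn_int (F := fun s x => u s x i) (h.smooth_c i).continuousOn).mono hsub
    have h1 := intervalIntegral.integral_eq_sub_of_hasDerivAt_of_le hst hc
      (fun τ hτ => mean_hasDerivAt h ⟨hs.trans_lt hτ.1, hτ.2.trans ht⟩ i)
      intervalIntegrable_const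
    simp only [intervalIntegral.integral_zero] at h1
    linarith
  simp_rw [hmean]
  linarith

end Pool.Agent.H946.NS
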