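import Pool.Agent.H946_NS.ZE

/-!
Periodic solutions: the time of existence, the local enstrophies and the energy.
-/

set_option autoImplicit false

open MeasureTheory Set Metric Filter Topology
open scoped ContDiff ENNReal

namespace Pool.Agent.H946.NS

open H459R3.NS W221.NS Pool.Agent.W583.MD

/-- The global proposition by the maximum principle. -/
theorem glob_maxE : ∃ C : ℝ, 1 ≤ C ∧ ∀ (T : ℝ) (u : ℝ → V → V) (p : ℝ → V → ℝ), IsSol 1 T u p →
    ∀ (c : V) (A r t₀ M : ℝ), 0 < r → r ≤ 1 → t₀ ∈ Ioo 0 T → eng c (u t₀) ≤ A → 0 < M →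
      (∀ x, en r (u t₀) x < M) →
      (T - t₀) * (C * (√(M / r ^ 3) * (1 + Real.log (1 + A / (M * r ^ 2))) * M + M ^ 3)) ≤ M →
      ∀ t ∈ Ico t₀ T, ∀ x, en r (u t) x ≤ 2 * M := by
  obtain ⟨C₁, hC₁, hP⟩ := en_max
  obtain ⟨C₂, hC₂, hQ⟩ := strain_E
  set B : ℝ := 2 * C₂ + 3 with hB
  have hB1 : 3 ≤ B := by linarith
  refine ⟨16 * C₁ * B, by nlinarith, ?_⟩
  intro T u p hu c A r t₀ M hr hr1 ht₀ hA hM h0 hM3
  have hA0 : 0 ≤ A := (eng_nonneg c (u t₀)).trans hA
  have hL := LS.of_IsSol hu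
  set Λ := √(M / r ^ 3) * (1 + Real.log (1 + A / (M * r ^ 2))) with hΛ
  set K := 16 * C₁ * B * (Λ * M + M ^ 3) with hK
  have hlog : 0 ≤ Real.log (1 + A / (M * r ^ 2)) := by
    have h1 : 0 ≤ A / (M * r ^ 2) := by positivity
    exact Real.log_nonneg (by linarith)
  have hsq0 : 0 < √(M / r ^ 3) := Real.sqrt_pos.2 (by positivity)
  have hΛ0 : 0 < Λ := by positivity
  have hK0 : 0 < K := by positivity
  have hcont := en_cont hL.smooth_u r
  have hIco : Ico t₀ T ⊆ Ioo 0 T := fun t ht => ⟨ht₀.1.trans_le ht.1, ht.2⟩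
  have hper : ∀ t ∈ Ioo 0 T, Per (u t) := fun t ht => hu.per_u t ⟨ht.1.le, ht.2⟩
  have hKT : K * (T - t₀) ≤ M := by
    calc K * (T - t₀) = (T - t₀) * (16 * C₁ * B * (√(M / r ^ 3) * (1 + Real.log (1 + A / (M * r ^ 2))) * M
          + M ^ 3)) := by rw [hK, hΛ]; ring
      _ ≤ M := hM3
  -- the moving level is never reached
  have hmain : ∀ t ∈ Ico t₀ T, ∀ x ∈ cube, en r (u t) x - K * (t - t₀) < M := by
    by_contra hcon
    push Not at hcon
    obtain ⟨t', ht', x', hx', hm'⟩ := hcon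
    have hec : ContinuousOn (fun q : ℝ × V => en r (u q.1) q.2 - K * (q.1 - t₀))
        (Ioo 0 T ×ˢ univ) := hcont.sub (by fun_prop)
    obtain ⟨t₁, ht₁, x₁, hx₁, hm₁, hlt'⟩ := barrier (t₀ := t₀) (T := T) (R := cube)
      isCompact_Icc (e := fun q : ℝ × V => en r (u q.1) q.2 - K * (q.1 - t₀)) (m := M)
      (hec.mono (prod_mono hIco (subset_univ _)))
      (fun x hx => by
        have := h0 x
        simp only [sub_self, mul_zero, sub_zero]
        exact this) ⟨t', ht', x', hx', hm'⟩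
    simp only at hm₁ hlt'
    have ht₁T : t₁ ∈ Ioo 0 T := ⟨ht₀.1.trans ht₁.1, ht₁.2⟩
    have hv : ContDiff ℝ ∞ (u t₁) := W382.ME.cd_slice hL.smooth_u ht₁T
    -- at the first time the level is not exceeded
    have hle1 : ∀ x ∈ cube, en r (u t₁) x ≤ M + K * (t₁ - t₀) := by
      intro x hx
      have hcx : ContinuousWithinAt (fun s => en r (u s) x - K * (s - t₀)) (Ico t₀ t₁) t₁ := by
        have h1 : ContinuousAt (fun s => en r (u s) x - K * (s - t₀)) t₁ := by
          have h2 : ContinuousAt (fun q : ℝ × V => en r (u q.1) q.2 - K * (q.1 - t₀)) (t₁, x) :=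
            (hec (t₁, x) ⟨ht₁T, mem_univ _⟩).continuousAt
              ((isOpen_Ioo.prod isOpen_univ).mem_nhds ⟨ht₁T, mem_univ _⟩)
          exact h2.comp (f := fun s : ℝ => ((s, x) : ℝ × V)) (by fun_prop)
        exact h1.continuousWithinAt
      have hcl : t₁ ∈ closure (Ico t₀ t₁) := by
        rw [closure_Ico ht₁.1.ne]
        exact right_mem_Icc.2 ht₁.1.le
      have h3 := hcx.closure_le hcl continuousWithinAt_const (fun s hs => (hlt' s hs x hx).le)
      linarith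
    have hle : ∀ x, en r (u t₁) x ≤ M + K * (t₁ - t₀) := by
      intro x
      obtain ⟨y, hy, e⟩ := W398.MD.FLOWX.per_cube (per_en (hper t₁ ht₁T) r) x
      rw [e]
      exact hle1 y hy
    have hm2 : M + K * (t₁ - t₀) ≤ 2 * M := by
      have : K * (t₁ - t₀) ≤ K * (T - t₀) := mul_le_mul_of_nonneg_left (by linarith [ht₁.2]) hK0.le
      linarith
    have hmax : IsLocalMax (en r (u t₁)) x₁ := by
      refine Eventually.of_forall fun y => ?_
      have := hle y
      linarith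
    have hle2 : ∀ x, en r (u t₁) x ≤ 2 * M := fun x => (hle x).trans hm2
    have h3 : √(2 * M / r ^ 3) ≤ 2 * √(M / r ^ 3) := by
      have e : 2 * M / r ^ 3 = 2 * (M / r ^ 3) := by ring
      rw [e, Real.sqrt_mul (by norm_num)]
      have h4 : √(2 : ℝ) ≤ 2 := by
        rw [Real.sqrt_le_left (by norm_num)]
        norm_num
      exact mul_le_mul_of_nonneg_right h4 (Real.sqrt_nonneg _)
    set S : ℝ := 2 * C₂ * Λ with hS
    have hS0 : 0 ≤ S := by positivity
    obtain ⟨D, hD, hDle⟩ := hP T univ u p hL r x₁ hr (subset_univ _) t₁ ht₁T hmax (2 * M) S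
      (fun w _ => hle2 w) hS0 (by
        intro y hy k j
        have h1 := hQ (u t₁) ⟨hv, hper t₁ ht₁T⟩ (fun x => hL.divfree t₁ ht₁T x (mem_univ _)) c r
          (2 * M) A hr hr1 (by positivity) hle2
          ((eng_le hu one_pos ht₀.1.le ht₁.1.le ht₁.2 c).trans hA) y k j
        refine h1.trans ?_
        have h5 : Real.log (1 + A / (2 * M * r ^ 2)) ≤ Real.log (1 + A / (M * r ^ 2)) := by
          have h6 : 0 ≤ A / (2 * M * r ^ 2) := by positivity
          apply Real.log_le_log (by linarith)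
          have h7 : A / (2 * M * r ^ 2) ≤ A / (M * r ^ 2) := by
            apply div_le_div_of_nonneg_left hA0 (by positivity)
            have : 0 ≤ M * r ^ 2 := by positivity
            linarith
          linarith
        have h6 : 0 ≤ Real.log (1 + A / (2 * M * r ^ 2)) := by
          have h7 : 0 ≤ A / (2 * M * r ^ 2) := by positivity
          exact Real.log_nonneg (by linarith)
        calc C₂ * (√(2 * M / r ^ 3) * (1 + Real.log (1 + A / (2 * M * r ^ 2))))
            ≤ C₂ * ((2 * √(M / r ^ 3)) * (1 + Real.log (1 + A / (M * r ^ 2)))) := by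
              gcongr
          _ = S := by
              rw [hS, hΛ]
              ring)
    have hKD : K ≤ D := by
      refine deriv_left (t₀ := t₀) ht₁.1 hD fun s hs => ?_
      have := hlt' s hs x₁ hx₁
      linarith
    have hDK : D < K := by
      refine lt_of_le_of_lt hDle ?_
      have h7 : √(2 * M / r ^ 3) ≤ 2 * Λ := by
        refine h3.trans ?_
        have : √(M / r ^ 3) ≤ Λ := by
          rw [hΛ]
          nlinarith
        linarith
      have h8 : S * (2 * M) + √(2 * M / r ^ 3) * (2 * M) + (2 * M) ^ 3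
          ≤ 8 * B * (Λ * M + M ^ 3) := by
        have q1 : √(2 * M / r ^ 3) * (2 * M) ≤ 2 * Λ * (2 * M) :=
          mul_le_mul_of_nonneg_right h7 (by positivity)
        have q2 : 0 ≤ (B - 1) * M ^ 3 := mul_nonneg (by linarith) (by positivity)
        have q3 : S * (2 * M) = 2 * ((B - 3) * (Λ * M)) := by
          rw [hS, hB]
          ring
        have q4 : 0 ≤ B * (Λ * M) := by positivity
        rw [q3]
        nlinarith [mul_pos hΛ0 hM]
      have h9 : 0 < C₁ * (8 * B * (Λ * M + M ^ 3)) := by positivity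
      calc C₁ * (S * (2 * M) + √(2 * M / r ^ 3) * (2 * M) + (2 * M) ^ 3)
          ≤ C₁ * (8 * B * (Λ * M + M ^ 3)) := mul_le_mul_of_nonneg_left h8 (by linarith)
        _ < 2 * (C₁ * (8 * B * (Λ * M + M ^ 3))) := by linarith
        _ = K := by rw [hK]; ring
    linarith
  intro t ht x
  obtain ⟨y, hy, e⟩ := W398.MD.FLOWX.per_cube (per_en (hper t (hIco ht)) r) x
  rw [e]
  have h1 := hmain t ht y hy
  have : K * (t - t₀) ≤ K * (T - t₀) := mul_le_mul_of_nonneg_left (by linarith [ht.2]) hK0.le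
  linarith

/-- The lower bound, viscosity one, all times. -/
theorem star_oneE : ∃ C : ℝ, 1 ≤ C ∧ ∀ (T : ℝ) (u : ℝ → V → V) (p : ℝ → V → ℝ), 0 < T →
    IsSol 1 T u p → (∃ x, Sing T u x) → ∀ t ∈ Ico 0 T, ∀ (c : V) (r : ℝ), 0 < r → r ≤ 1 →
      ∃ x : V, 1 ≤ C * ((T - t) * ((∫ y in ball x r, osq (u t) y) ^ 2
        + (1 + Real.log (1 + eng c (u t) / ((∫ y in ball x r, osq (u t) y) * r ^ 2)))
          * √((∫ y in ball x r, osq (u t) y) / r ^ 3))) := by
  obtain ⟨C, hC, H⟩ := glob_maxE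
  obtain ⟨C₀, hC₀, H₀⟩ := star_one
  refine ⟨C, hC, ?_⟩
  intro T u p hT hu ⟨x₀, hx₀⟩ t ht c r hr hr1
  have hLS := LS.of_IsSol hu
  have hv : ContDiff ℝ ∞ (u t) := slice0 hu.smooth_u ht
  have hper : Per (u t) := hu.per_u t ht
  have hcont0 := en_cont0 hu.smooth_u r
  have hcont : ContinuousOn (fun x => en r (u t) x) cube :=
    hcont0.comp (f := fun x : V => ((t, x) : ℝ × V)) (by fun_prop)
      (fun x _ => ⟨ht, mem_univ _⟩)
  obtain ⟨x₁, hx₁, hmax⟩ := (isCompact_Icc (a := (0 : V)) (b := 1)).exists_isMaxOn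
    ⟨0, le_rfl, zero_le_one⟩ hcont
  set W := ∫ y in ball x₁ r, osq (u t) y with hW
  refine ⟨x₁, ?_⟩
  by_contra hcon
  rw [not_le] at hcon
  have hTt : 0 < T - t := by linarith [ht.2]
  have hW0 : 0 ≤ W := integral_nonneg fun y => osq_nonneg _ y
  have heW : en r (u t) x₁ ≤ W := en_le hr hv x₁
  set A := eng c (u t) with hA
  have hA0 : 0 ≤ A := eng_nonneg _ _
  have hWpos : 0 < W := by
    rcases hW0.lt_or_eq with h | h
    · exact h
    exfalso
    obtain ⟨x₂, hx₂⟩ := H₀ T u p hT hu ⟨x₀, hx₀⟩ t ht (3 / 4 * r) (by positivity) (by linarith)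
    obtain ⟨y, hy, e⟩ := W398.MD.FLOWX.per_cube (per_en hper r) x₂
    have h1 : ∫ y in ball x₂ (3 / 4 * r), osq (u t) y ≤ 0 := by
      calc ∫ y in ball x₂ (3 / 4 * r), osq (u t) y ≤ en r (u t) x₂ := le_en hr hv x₂
        _ = en r (u t) y := e
        _ ≤ en r (u t) x₁ := hmax hy
        _ ≤ W := heW
        _ = 0 := h.symm
    have h2 : ∫ y in ball x₂ (3 / 4 * r), osq (u t) y = 0 :=
      le_antisymm h1 (integral_nonneg fun y => osq_nonneg _ y)
    rw [h2] at hx₂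
    norm_num at hx₂
  set f : ℝ → ℝ := fun m => C * ((T - t) * (m ^ 2
    + (1 + Real.log (1 + A / (m * r ^ 2))) * √(m / r ^ 3))) with hf
  have hfc : ContinuousAt f W := by
    simp only [hf]
    have h1 : W * r ^ 2 ≠ 0 := by positivity
    have h2 : 1 + A / (W * r ^ 2) ≠ 0 := by positivity
    have h30 : ContinuousAt (fun m : ℝ => m * r ^ 2) W := by fun_prop
    have h3 : ContinuousAt (fun m : ℝ => A / (m * r ^ 2)) W := continuousAt_const.div h30 h1
    have h4 : ContinuousAt (fun m : ℝ => Real.log (1 + A / (m * r ^ 2))) W :=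
      (continuousAt_const.add h3).log h2
    fun_prop
  have hev : ∀ᶠ m in 𝓝[>] W, f m < 1 :=
    (hfc.tendsto.eventually_lt_const hcon).filter_mono nhdsWithin_le_nhds
  obtain ⟨M, hfM, hMW⟩ := (hev.and self_mem_nhdsWithin).exists
  have hMW' : W < M := hMW
  have hM0 : 0 < M := hW0.trans_lt hMW'
  -- a slightly later time
  have htube : ∀ᶠ s in 𝓝 t, ∀ y ∈ cube, s ∈ Ico 0 T → en r (u s) y < M := by
    refine (isCompact_Icc (a := (0 : V)) (b := 1)).eventually_forall_of_forall_eventually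
      (P := fun s y => s ∈ Ico 0 T → en r (u s) y < M) fun y hy => ?_
    have h1 : en r (u t) y < M := (hmax hy).trans_lt (heW.trans_lt hMW')
    have h2 := hcont0 (t, y) ⟨ht, mem_univ y⟩
    have h3 := h2.tendsto.eventually_lt_const h1
    rw [nhdsWithin, eventually_inf_principal] at h3
    filter_upwards [h3] with q hq hqI
    exact hq ⟨hqI, mem_univ _⟩
  have hlater : ∃ s ∈ Ioo t T, ∀ y ∈ cube, en r (u s) y < M := by
    have h1 : ∀ᶠ s in 𝓝[>] t, ∀ y ∈ cube, s ∈ Ico 0 T → en r (u s) y < M :=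
      htube.filter_mono nhdsWithin_le_nhds
    have h2 : ∀ᶠ s in 𝓝[>] t, s ∈ Ioo t T := Ioo_mem_nhdsGT ht.2
    obtain ⟨s, hs1, hs2⟩ := (h1.and h2).exists
    exact ⟨s, hs2, fun y hy => hs1 y hy ⟨ht.1.trans hs2.1.le, hs2.2⟩⟩
  obtain ⟨s, hs, hsM⟩ := hlater
  have hs0 : s ∈ Ioo 0 T := ⟨ht.1.trans_lt hs.1, hs.2⟩
  have hall : ∀ x, en r (u s) x < M := by
    intro x
    obtain ⟨y, hy, e⟩ := W398.MD.FLOWX.per_cube (per_en (hu.per_u s ⟨hs0.1.le, hs0.2⟩) r) x
    rw [e]
    exact hsM y hy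
  have hlog : 0 ≤ Real.log (1 + A / (M * r ^ 2)) := by
    have h1 : 0 ≤ A / (M * r ^ 2) := by positivity
    exact Real.log_nonneg (by linarith)
  have hkey := H T u p hu c A r s M hr hr1 hs0 (eng_le hu one_pos ht.1 hs.1.le hs.2 c) hM0 hall (by
    have e : (T - s) * (C * (√(M / r ^ 3) * (1 + Real.log (1 + A / (M * r ^ 2))) * M + M ^ 3))
        = C * ((T - s) * (M ^ 2 + (1 + Real.log (1 + A / (M * r ^ 2))) * √(M / r ^ 3))) * M := by
      ring
    rw [e]
    have h1 : C * ((T - s) * (M ^ 2 + (1 + Real.log (1 + A / (M * r ^ 2))) * √(M / r ^ 3)))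
        ≤ 1 := by
      have h0 : 0 ≤ M ^ 2 + (1 + Real.log (1 + A / (M * r ^ 2))) * √(M / r ^ 3) := by positivity
      have h3 : C * ((T - s) * (M ^ 2 + (1 + Real.log (1 + A / (M * r ^ 2))) * √(M / r ^ 3)))
          ≤ C * ((T - t) * (M ^ 2 + (1 + Real.log (1 + A / (M * r ^ 2))) * √(M / r ^ 3))) :=
        mul_le_mul_of_nonneg_left (mul_le_mul_of_nonneg_right (by linarith [hs.1]) h0)
          (by linarith)
      simp only [hf] at hfM
      linarith
    calc _ ≤ 1 * M := mul_le_mul_of_nonneg_right h1 hM0.le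
      _ = M := one_mul M)
  exact glob_reg hT hu hr hr1 hs0 (K := 2 * M) hkey x₀ hx₀

/-- The lower bound, general viscosity. -/
theorem star_nuE : ∃ C : ℝ, 0 < C ∧ ∀ (ν T : ℝ) (u : ℝ → V → V) (p : ℝ → V → ℝ), 0 < ν → 0 < T →
    IsSol ν T u p → (∃ x, Sing T u x) → ∀ t ∈ Ico 0 T, ∀ (c : V) (r : ℝ), 0 < r → r ≤ 1 →
      ∃ x : V, 1 ≤ C * (T - t) * ((∫ y in ball x r, vsq (u t) y) ^ 2 / ν ^ 3
        + (1 + Real.log (1 + eng c (u t) / ((∫ y in ball x r, vsq (u t) y) * r ^ 2)))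
          * √((∫ y in ball x r, vsq (u t) y) / r ^ 3)) := by
  obtain ⟨C, hC, H⟩ := star_oneE
  refine ⟨4 * C, by linarith, ?_⟩
  intro ν T u p hν hT hu ⟨x₀, hx₀⟩ t ht c r hr hr1
  have h2 := B.p_scale ν T u p hν hT hu
  have hS' : Sing (ν * T) (fun t x => ν⁻¹ • u (t / ν) x) x₀ := by
    intro δ hδ M
    obtain ⟨t, ht, y, hy, hM⟩ := hx₀ (min δ (δ / ν)) (lt_min hδ (by positivity)) (ν * M)
    refine ⟨ν * t, ⟨?_, ?_⟩, y, ball_subset_ball (min_le_left _ _) hy, ?_⟩
    · have h3 : T - δ / ν < t := by linarith [ht.1, min_le_right δ (δ / ν)]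
      have h4 : ν * (T - δ / ν) < ν * t := mul_lt_mul_of_pos_left h3 hν
      have h5 : ν * (T - δ / ν) = ν * T - δ := by field_simp
      linarith
    · exact mul_lt_mul_of_pos_left ht.2 hν
    · have e : ν * t / ν = t := by field_simp
      simp only [e]
      rw [norm_smul, Real.norm_eq_abs, abs_of_pos (by positivity), inv_mul_eq_div,
        lt_div_iff₀ hν, mul_comm]
      exact hM
  have hνt : ν * t ∈ Ico 0 (ν * T) :=
    ⟨mul_nonneg hν.le ht.1, mul_lt_mul_of_pos_left ht.2 hν⟩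
  obtain ⟨x, hx⟩ := H (ν * T) (fun t x => ν⁻¹ • u (t / ν) x) (fun t x => (ν ^ 2)⁻¹ * p (t / ν) x)
    (by positivity) h2 ⟨x₀, hS'⟩ (ν * t) hνt (ν⁻¹ • c) r hr hr1
  refine ⟨x, hx.trans ?_⟩
  have et : ν * t / ν = t := by field_simp
  simp only [et]
  simp_rw [osq_smul, osq_vsq]
  rw [integral_const_mul, integral_const_mul]
  set I := ∫ y in ball x r, vsq (u t) y with hI
  have hI0 : 0 ≤ I := integral_nonneg fun y => vsq_nonneg _ y
  have hTt : 0 < T - t := by linarith [ht.2]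
  have e1 : ν⁻¹ ^ 2 * (2 * I) = 2 * (I / ν ^ 2) := by
    field_simp
  have e7 : eng (ν⁻¹ • c) (fun x => ν⁻¹ • u t x) = eng c (u t) / ν ^ 2 := by
    unfold eng
    rw [Finset.sum_div]
    refine Finset.sum_congr rfl fun i _ => ?_
    rw [← integral_div]
    congr 1
    funext x
    simp only [Pi.smul_apply, smul_eq_mul]
    field_simp
  have hA0 : 0 ≤ eng c (u t) := eng_nonneg _ _
  set A := eng c (u t) with hA
  have hL0 : 0 ≤ Real.log (1 + A / ν ^ 2 / (2 * (I / ν ^ 2) * r ^ 2)) := by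
    have h1 : 0 ≤ A / ν ^ 2 / (2 * (I / ν ^ 2) * r ^ 2) := by positivity
    exact Real.log_nonneg (by linarith)
  have hL1 : Real.log (1 + A / ν ^ 2 / (2 * (I / ν ^ 2) * r ^ 2))
      ≤ Real.log (1 + A / (I * r ^ 2)) := by
    have h1 : 0 ≤ A / ν ^ 2 / (2 * (I / ν ^ 2) * r ^ 2) := by positivity
    apply Real.log_le_log (by linarith)
    have h2 : A / ν ^ 2 / (2 * (I / ν ^ 2) * r ^ 2) = 1 / 2 * (A / (I * r ^ 2)) := by
      rcases hI0.lt_or_eq with h | h
      · field_simp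
      · rw [← h]
        simp
    have h3 : 0 ≤ A / (I * r ^ 2) := by positivity
    rw [h2]
    linarith
  have e2 : √(2 * (I / ν ^ 2) / r ^ 3) ≤ 2 * (√(I / r ^ 3) / ν) := by
    have e3 : 2 * (I / ν ^ 2) / r ^ 3 = 2 * (I / r ^ 3 / ν ^ 2) := by ring
    rw [e3, Real.sqrt_mul (by norm_num), Real.sqrt_div (by positivity), Real.sqrt_sq hν.le]
    have h4 : √(2 : ℝ) ≤ 2 := by
      rw [Real.sqrt_le_left (by norm_num)]
      norm_num
    exact mul_le_mul_of_nonneg_right h4 (by positivity)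
  rw [e1, e7]
  have hL2 : 0 ≤ Real.log (1 + A / (I * r ^ 2)) := hL0.trans hL1
  have h5 : (1 + Real.log (1 + A / ν ^ 2 / (2 * (I / ν ^ 2) * r ^ 2))) * √(2 * (I / ν ^ 2) / r ^ 3)
      ≤ (1 + Real.log (1 + A / (I * r ^ 2))) * (2 * (√(I / r ^ 3) / ν)) :=
    mul_le_mul (by linarith) e2 (Real.sqrt_nonneg _) (by linarith)
  have h6 : (2 * (I / ν ^ 2)) ^ 2 + (1 + Real.log (1 + A / ν ^ 2 / (2 * (I / ν ^ 2) * r ^ 2)))
      * √(2 * (I / ν ^ 2) / r ^ 3) ≤ 4 / ν * (I ^ 2 / ν ^ 3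
        + (1 + Real.log (1 + A / (I * r ^ 2))) * √(I / r ^ 3)) := by
    have e4 : 4 / ν * (I ^ 2 / ν ^ 3 + (1 + Real.log (1 + A / (I * r ^ 2))) * √(I / r ^ 3))
        = (2 * (I / ν ^ 2)) ^ 2
          + 2 * ((1 + Real.log (1 + A / (I * r ^ 2))) * (2 * (√(I / r ^ 3) / ν))) := by
      field_simp
      ring
    rw [e4]
    have h8 : 0 ≤ (1 + Real.log (1 + A / (I * r ^ 2))) * (2 * (√(I / r ^ 3) / ν)) := by positivity
    linarith
  calc C * ((ν * T - ν * t) * ((2 * (I / ν ^ 2)) ^ 2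
      + (1 + Real.log (1 + A / ν ^ 2 / (2 * (I / ν ^ 2) * r ^ 2)))
      * √(2 * (I / ν ^ 2) / r ^ 3)))
      ≤ C * ((ν * T - ν * t) * (4 / ν * (I ^ 2 / ν ^ 3
        + (1 + Real.log (1 + A / (I * r ^ 2))) * √(I / r ^ 3)))) := by
        have : 0 ≤ ν * T - ν * t := by nlinarith
        gcongr
    _ = _ := by
        field_simp

end Pool.Agent.H946.NS
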